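import Pool.Agent.MP_e8e0b6_ag.R2.SpecT

/-!
The Galois group of the constants acts on the function field of the base change.
-/

set_option autoImplicit false

open Polynomial

namespace Pool.Agent.MP_e8e0b6_ag.R2

open Pool.Agent.MP_79c67d_ag Pool.Agent.MP_20d318_ag Pool.Agent.MP_20d318_ag.AG
  Pool.Agent.MP_20d318_ag.BV Pool.Agent.MP_20d318_ag.CB

namespace ActA

/-- A ring homomorphism with values in the image of a field factors through it. -/
theorem fac {K F E : Type} [CommRing K] [Field F] [Field E] (μ : F →+* E) (φ : K →+* E)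
    (h : ∀ x, φ x ∈ μ.fieldRange) : ∃ b : K →+* F, ∀ x, μ (b x) = φ x :=
  ⟨μ.rangeRestrictFieldEquiv.symm.toRingHom.comp (φ.codRestrict μ.fieldRange h), fun x =>
    congrArg Subtype.val (μ.rangeRestrictFieldEquiv.apply_symm_apply ⟨φ x, h x⟩)⟩

variable {k A L F F₀ Ω E : Type} [Field k] [CommRing A] [Field L] [Field F] [Field F₀] [Field Ω]
  [Field E] [Algebra k A] [Algebra k L] [Algebra A L] [Algebra k F] [Algebra k F₀] [Algebra k Ω]
  [Algebra k E] [Algebra Ω E] {g : A[X] →ₐ[k] F} {H : Set F} {μ : F →ₐ[k] E} {e : L →ₐ[k] Ω}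
  {g₀ : L[X] →ₐ[k] F₀} {ν : F →ₐ[k] F₀} {μ₀ : F₀ →ₐ[k] E}

/-- The function field of the base change is generated by the constants and the old field. -/
theorem gen (h1 : 1 ∈ H) (h : Lv g H μ e g₀ ν μ₀) (W : Subfield F₀) (hc : ∀ c, g₀ (C c) ∈ W)
    (hn : ∀ z, ν z ∈ W) (f : F₀) : f ∈ W := by
  let T : Subalgebra k F₀ :=
    { W.toSubring.toSubsemiring with algebraMap_mem' := fun c => ν.commutes c ▸ hn _ }
  have hT : ch g₀.range (ν '' H) (ν 1) ≤ T := by
    refine sup_le ?_ (Algebra.adjoin_le ?_)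
    · rintro _ ⟨p, rfl⟩
      change g₀ p ∈ W
      have hX : g₀ X ∈ W := by
        have := h.cmp X
        rw [map_X] at this
        exact this ▸ hn _
      induction p using Polynomial.induction_on' with
      | add p q hp hq => rw [map_add]; exact add_mem hp hq
      | monomial n c =>
        rw [← C_mul_X_pow_eq_monomial, map_mul, map_pow]
        exact mul_mem (hc c) (pow_mem hX n)
    · rintro _ ⟨_, ⟨z, -, rfl⟩, rfl⟩
      exact W.div_mem (hn z) (hn 1)
  obtain ⟨a, ha, b, hb, -, rfl⟩ := h.frac 1 h1 f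
  exact W.div_mem (hT ha) (hT hb)

theorem ext (h1 : 1 ∈ H) (h : Lv g H μ e g₀ ν μ₀) {b b' : F₀ →+* F₀}
    (hc : ∀ c, b (g₀ (C c)) = b' (g₀ (C c))) (hn : ∀ z, b (ν z) = b' (ν z)) (f : F₀) :
    b f = b' f := gen h1 h (b.eqLocusField b') hc hn f

end ActA

theorem act_stmt : ActStmt := by
  intro k A K L F F₀ Ω E _ _ _ _ _ _ _ _ _ _ _ _ _ _ _ _ _ _ _ _ _ _ _ _ g H μ e g₀ ν μ₀ h1 h hτ
  choose τ hs hμ he using hτ
  have hm : ∀ z, μ₀ (ν z) = μ z := fun z => DFunLike.congr_fun h.mu z
  have hb : ∀ σ, ∃ b : F₀ →+* F₀, ∀ z, μ₀ (b z) = τ σ (μ₀ z) := fun σ =>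
    ActA.fac μ₀.toRingHom ((τ σ).toRingHom.comp μ₀.toRingHom)
      (ActA.gen h1 h (μ₀.toRingHom.fieldRange.comap ((τ σ).toRingHom.comp μ₀.toRingHom))
        (fun c => ⟨g₀ (C (σ c)), by
          change μ₀ _ = τ σ (μ₀ _)
          rw [h.con, h.con, he]⟩)
        fun z => ⟨ν z, by
          change μ₀ _ = τ σ (μ₀ _)
          rw [hm, hμ]⟩)
  choose b hb using hb
  have hc : ∀ σ c, b σ (g₀ (C c)) = g₀ (C (σ c)) := fun σ c =>
    μ₀.toRingHom.injective (by
      change μ₀ _ = μ₀ _
      rw [hb, h.con, h.con, he])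
  have hn : ∀ σ z, b σ (ν z) = ν z := fun σ z =>
    μ₀.toRingHom.injective (by
      change μ₀ _ = μ₀ _
      rw [hb, hm, hμ])
  have hone : ∀ z, b 1 z = z :=
    ActA.ext h1 h (b' := RingHom.id _) (fun c => hc 1 c) fun z => hn 1 z
  have hmul : ∀ σ σ' z, b (σ * σ') z = b σ (b σ' z) := fun σ σ' =>
    ActA.ext h1 h (b' := (b σ).comp (b σ'))
      (fun c => by rw [RingHom.comp_apply, hc, hc, hc]; rfl)
      fun z => by rw [RingHom.comp_apply, hn, hn, hn]
  let a : (L ≃ₐ[K] L) →* (F₀ ≃ₐ[k] F₀) :=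
    { toFun := fun σ =>
        { b σ with
          invFun := b σ⁻¹
          left_inv := fun z => by
            change b σ⁻¹ (b σ z) = z
            rw [← hmul, inv_mul_cancel, hone]
          right_inv := fun z => by
            change b σ (b σ⁻¹ z) = z
            rw [← hmul, mul_inv_cancel, hone]
          commutes' := fun c => by
            change b σ _ = _
            rw [← ν.commutes, hn] }
      map_one' := AlgEquiv.ext hone
      map_mul' := fun σ σ' => AlgEquiv.ext (hmul σ σ') }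
  refine ⟨a, hc, hn, fun z hz => ?_, fun σ => ⟨τ σ, hs σ, fun z => (hb σ z).symm⟩⟩
  change ∀ σ, b σ z = z at hz
  let γ : L →+* F₀ := g₀.toRingHom.comp C
  obtain ⟨κ, hκ⟩ := ActA.fac ν.toRingHom (γ.comp (algebraMap K L)) fun x => by
    obtain ⟨p, q, -, rfl⟩ := IsFractionRing.div_surjective (A := A) x
    have : ∀ p : A, (γ.comp (algebraMap K L)) (algebraMap A K p) ∈ ν.toRingHom.fieldRange :=
      fun p => ⟨g (C p), by
        change ν _ = g₀ (C (algebraMap K L (algebraMap A K p)))
        rw [← h.cmp, map_C, ← IsScalarTower.algebraMap_apply]⟩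
    rw [map_div₀]
    exact div_mem (this p) (this q)
  let _ : Algebra F F₀ := ν.toRingHom.toAlgebra
  have hz1 : z ∈ Algebra.adjoin F (Set.range γ) := by
    rw [← IntermediateField.adjoin_toSubalgebra_of_isAlgebraic]
    · exact ActA.gen h1 h (IntermediateField.adjoin F (Set.range γ)).toSubfield
        (fun c => IntermediateField.subset_adjoin _ _ ⟨c, rfl⟩)
        (fun z => IntermediateField.algebraMap_mem _ z) z
    · rintro _ ⟨c, rfl⟩
      exact ((Algebra.IsIntegral.isIntegral (R := K) c).map_of_comp_eq κ γ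
        (RingHom.ext hκ)).isAlgebraic
  have hz2 : z ∈ Submodule.span F (Set.range γ) := by
    rw [← Algebra.adjoin_eq_span_of_subset (R := F) (s := Set.range γ)
      fun y hy => Submodule.subset_span
        ((Submonoid.closure_le (S := MonoidHom.mrange γ)).2 subset_rfl hy)]
    exact hz1
  have key : ∀ y ∈ Submodule.span F (Set.range γ), ∑ σ, b σ y ∈ ν.toRingHom.fieldRange := by
    intro y hy
    induction hy using Submodule.span_induction with
    | mem y hy =>
      obtain ⟨c, rfl⟩ := hy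
      refine ⟨κ (Algebra.trace K L c), (hκ _).trans ?_⟩
      rw [RingHom.comp_apply, trace_eq_sum_automorphisms, map_sum]
      exact Finset.sum_congr rfl fun σ _ => (hc σ c).symm
    | zero => simp
    | add y y' _ _ hy hy' =>
      simp only [map_add, Finset.sum_add_distrib]
      exact add_mem hy hy'
    | smul c y _ hy =>
      have : ∀ σ, b σ (c • y) = ν c * b σ y := fun σ => by
        change b σ (ν c * y) = _
        rw [map_mul, hn]
      simp only [this, ← Finset.mul_sum]
      exact mul_mem ⟨c, rfl⟩ hy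
  have h2 := key z hz2
  simp only [hz, Finset.sum_const, Finset.card_univ, nsmul_eq_mul] at h2
  have : CharZero F₀ := charZero_of_injective_algebraMap (algebraMap k F₀).injective
  have h3 : ((Fintype.card (L ≃ₐ[K] L) : ℕ) : F₀) ≠ 0 := Nat.cast_ne_zero.2 Fintype.card_ne_zero
  have h4 := div_mem h2 (natCast_mem ν.toRingHom.fieldRange (Fintype.card (L ≃ₐ[K] L)))
  rwa [mul_div_cancel_left₀ _ h3] at h4

end Pool.Agent.MP_e8e0b6_ag.R2
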