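import Pool.Agent.MP_e8e0b6_ag.R2.SpecS

/-!
The standard charts as an atlas.
-/

set_option autoImplicit false

open Polynomial TensorProduct

namespace Pool.Agent.MP_e8e0b6_ag.R2

namespace AtlX

variable {A κ : Type} [CommRing A] [Field κ] [Algebra A κ]

theorem adj_le {S : Set κ} {O : Subring κ} (hA : ∀ c, algebraMap A κ c ∈ O) (hS : ∀ x ∈ S, x ∈ O) :
    ∀ x ∈ Algebra.adjoin A S, x ∈ O := fun _ hx =>
  Algebra.adjoin_induction hS hA (fun _ _ _ _ => O.add_mem) (fun _ _ _ _ => O.mul_mem) hx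

/-- the chart where `j` generates -/
abbrev chart (A : Type) [CommRing A] [Algebra A κ] (H : Set κ) (j : κ) : Subalgebra A κ :=
  Algebra.adjoin A ((fun a => a / j) '' H)

theorem div_mem {H : Set κ} {a : κ} (ha : a ∈ H) (j : κ) : a / j ∈ chart A H j :=
  Algebra.subset_adjoin ⟨a, ha, rfl⟩

theorem le_cen {H : Set κ} {i j : κ} {W : Subring κ} (hj : j ∈ H) (hi0 : i ≠ 0) (hj0 : j ≠ 0)
    (h1 : j / i ∈ W) (h2 : i / j ∈ W) :
    ∀ x ∈ chart A H j, x ∈ cen ((chart A H i).val : chart A H i →+* κ) W := by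
  refine adj_le (fun c => map_mem_cen (r := ((chart A H i).val : chart A H i →+* κ))
    (algebraMap A _ c)) ?_
  rintro _ ⟨a, ha, rfl⟩
  refine ⟨⟨_, div_mem ha i⟩, ⟨_, div_mem hj i⟩, ⟨h1, div_ne_zero hj0 hi0, ?_⟩, ?_⟩
  · change (j / i)⁻¹ ∈ W
    rwa [inv_div]
  · change a / j * (j / i) = a / i
    field_simp

end AtlX

open AtlX in
theorem atl_stmt : AtlStmt := by
  intro A κ _ _ _ _ H w hH h1 hfr hw hq
  refine ⟨{ A := fun j => chart A H j.1
            κ := fun j => (chart A H j.1).val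
            inj := fun j => Subtype.val_injective
            frac := fun j ω => ?_
            ft := fun j => Algebra.FiniteType.adjoin_of_finite (hH.image _)
            sep := fun i j W _ hi hj a => le_cen j.2.1 i.2.2 j.2.2 (hi ⟨_, div_mem j.2.1 _⟩)
              (hj ⟨_, div_mem i.2.1 _⟩) a.1 a.2
            gi := fun D _ _ _ _ _ => ?_ }, fun O hO => ?_⟩
  · obtain ⟨a, ha, s, hs, hs0, e⟩ := hfr ω
    have key := le_cen (A := A) (W := ⊤) h1 j.2.2 one_ne_zero (Subring.mem_top _) (Subring.mem_top _)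
    have e1 : chart A H 1 = Algebra.adjoin A H := by simp [chart]
    rw [e1] at key
    obtain ⟨a1, s1, u1, f1⟩ := key a ha
    obtain ⟨a2, s2, u2, f2⟩ := key s hs
    change a * s1.1 = a1.1 at f1
    change s * s2.1 = a2.1 at f2
    have n1 : s1.1 ≠ 0 := u1.2.1
    have n2 : s2.1 ≠ 0 := u2.2.1
    refine ⟨a1 * s2, a2 * s1, fun h0 => ?_, ?_⟩
    · have h3 : a2.1 * s1.1 = 0 := congrArg Subtype.val h0
      rw [← f2] at h3
      exact mul_ne_zero (mul_ne_zero hs0 n2) n1 h3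
    · change ω * (a2.1 * s1.1) = a1.1 * s2.1
      rw [← f1, ← f2, ← e]
      ring
  · have : IsDomain (D ⊗[A] A[X]) := (polyEquivTensor A D).symm.toMulEquiv.isDomain
    exact isDomain_tensor (r := aeval w) (transcendental_iff_injective.1 hw) hq
  · constructor
    · rintro ⟨j, hj⟩
      exact ⟨j.1, j.2.1, j.2.2, fun a ha => hj ⟨_, div_mem ha _⟩⟩
    · rintro ⟨j, hj, hj0, h⟩
      refine ⟨⟨j, hj, hj0⟩, fun a => adj_le hO ?_ a.1 a.2⟩
      rintro _ ⟨b, hb, rfl⟩
      exact h b hb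

end Pool.Agent.MP_e8e0b6_ag.R2
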