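import Pool.Agent.MP_e8e0b6_ag.R2.SpecS

/-!
The class of rational curves on all fibres, and the charts.
-/

set_option autoImplicit false

namespace Pool.Agent.MP_e8e0b6_ag.R2

open Pool.Agent.MP_79c67d_ag Pool.Agent.MP_20d318_ag Pool.Agent.MP_20d318_ag.AG
  Pool.Agent.MP_20d318_ag.BV Pool.Agent.MP_20d318_ag.CB

theorem ats_stmt (h1 : Mk2Stmt) (h2 : AmpStmt) (h3 : GoodStmt) (h4 : DtStmt) (h5 : SpStmt)
    (h6 : ChStmt) (h7 : LzStmt) : AtsStmt := by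
  intro k F Ω E J _ _ _ _ _ _ _ _ _ _ _ _ C H μ S' gd hr
  obtain ⟨h', cl, ef, pos⟩ := h2 Ω E J S' (μ '' H) (h1 Ω E J S' gd.gc.mrk).all
    (gd.fm.fin.image _) (by
      rintro _ ⟨a, ha, rfl⟩
      exact (map_ne_zero μ).2 (gd.fm.nz a ha)) gd.gc.eq
  obtain ⟨ε, hε⟩ := h3 Ω E J S' h' gd.gc.mrk ef pos
  obtain ⟨γ, dt, lg⟩ := h4 k F Ω E J C H μ S' gd.fm gd.gc hr ε
  refine ⟨γ, dt, fun R hR rat => ?_⟩
  have sub := (h7 k F C R H ⟨hR.2.1, hR.2.2⟩).1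
  have gc : Gc R H μ S' := ⟨gd.gc.mrk, gd.gc.eq, fun c hc => by
      obtain ⟨a, ha, b, hb, -, rfl⟩ := hR.2.2 c hc
      obtain ⟨a', e⟩ := gd.gc.base a ha
      obtain ⟨b', e'⟩ := gd.gc.base b hb
      exact ⟨a' / b', by rw [map_div₀, map_div₀, e, e']⟩,
    fun ι v hv => gd.gc.ld ι v (linearIndependent_iff'.2 fun s g hg i hi => Subtype.ext
      (congrArg Subtype.val (linearIndependent_iff'.1 hv s
        (fun i => Subalgebra.inclusion hR.2.1 (g i)) hg i hi) :))⟩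
  obtain ⟨M, _, _, I, _, ξ, ρ, S, lc⟩ := gd.lc R hR rat
  obtain ⟨la, σ, sp⟩ := h5 k F M Ω E I J R H ξ ρ S μ S' lc gc hr
  obtain ⟨U, V, hU, hV, h⟩ := dt
  obtain ⟨φ, h0, hφ⟩ := lg
  obtain ⟨u, hu, lb⟩ := sp.rel ε γ ⟨U, V, ⟨hU.1, fun O hO => hU.2 O (sub hO)⟩,
    ⟨hV.1, fun O hO => hV.2 O (sub hO)⟩, fun O hO => h O (sub hO)⟩
    ⟨φ, h0, fun O' hO' O hO => hφ O' hO' O (sub hO)⟩
  exact ⟨⟨M, _, _, I, _, ξ, ρ, S, σ ε, u, lc, (h1 k M I S lc.mrk).all, la,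
    hε k M I S σ lc.mrk sp.iso sp.can sp.eff (sp.amp h' cl), hu, lb⟩, h6 k F M I R H ξ ρ S lc la⟩

end Pool.Agent.MP_e8e0b6_ag.R2
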