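import Pool.Agent.MP_e8e0b6_ag.R2.SpecT

/-!
Automorphisms of the constants extend to the function field of the geometric fibre.
-/

set_option autoImplicit false

open Polynomial

namespace Pool.Agent.MP_e8e0b6_ag.R2

open Pool.Agent.MP_79c67d_ag Pool.Agent.MP_20d318_ag Pool.Agent.MP_20d318_ag.AG
  Pool.Agent.MP_20d318_ag.BV Pool.Agent.MP_20d318_ag.CB

namespace AutA

variable {A B L Ω E : Type} [CommRing A] [CommRing B] [Field L] [Field Ω] [Field E] [Algebra A L]

theorem inj [Algebra.IsAlgebraic A L] (e : L →+* Ω) (t : Ω)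
    (h : Function.Injective ((eval₂RingHom e t).comp (mapRingHom (algebraMap A L)))) :
    Function.Injective (eval₂RingHom e t) := by
  let _ : Algebra L Ω := e.toAlgebra
  let _ : Algebra A Ω := (e.comp (algebraMap A L)).toAlgebra
  have : IsScalarTower A L Ω := IsScalarTower.of_algebraMap_eq fun _ => rfl
  have h1 : Transcendental A t := transcendental_iff.2 fun p hp => h (by
    rw [map_zero, RingHom.comp_apply, coe_mapRingHom, coe_eval₂RingHom, eval₂_map]
    exact hp)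
  exact transcendental_iff_injective.1 (h1.extendScalars L)

theorem ext_aut [IsAlgClosed Ω] [Algebra Ω E] [Algebra B E] (ι : L[X] →+* Ω)
    (hι : Function.Injective ι) (hA : Function.Injective (algebraMap A L)) (f : A[X] →+* B)
    (hf : Function.Surjective f) (h : (algebraMap B E).comp f =
      (algebraMap Ω E).comp (ι.comp (mapRingHom (algebraMap A L))))
    (alg : ∀ a : Ω, IsAlgebraic B (algebraMap Ω E a)) (σ : L ≃+* L) :
    ∃ ω : Ω ≃+* Ω, ∀ q, ω (ι q) = ι (q.map (σ : L →+* L)) := by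
  let _ : Algebra L[X] Ω := ι.toAlgebra
  let _ : Algebra A[X] Ω := (ι.comp (mapRingHom (algebraMap A L))).toAlgebra
  have : Module.IsTorsionFree L[X] Ω := Module.isTorsionFree_iff_algebraMap_injective.2 hι
  have : IsAlgClosure L[X] Ω := ⟨inferInstance, ⟨fun a =>
    ((alg a).of_ringHom_of_comp_eq f (algebraMap Ω E) hf (algebraMap Ω E).injective
      h).ringHom_of_comp_eq (mapRingHom (algebraMap A L)) (RingHom.id Ω)
      (map_injective _ hA) rfl⟩⟩
  exact ⟨IsAlgClosure.equivOfEquiv Ω Ω (mapEquiv σ), fun q =>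
    IsAlgClosure.equivOfEquiv_algebraMap Ω Ω (mapEquiv σ) q⟩

end AutA

theorem aut_stmt (h1 : ExtStmt) : AutStmt := by
  intro k A L F Ω E J _ _ _ _ _ _ _ _ _ _ _ _ _ _ _ _ g H μ S' e σ ts he hσ
  obtain ⟨t, ht⟩ := ts.gc.base (g X) ⟨X, rfl⟩
  obtain ⟨ι, hι⟩ : ∃ ι, ι = eval₂RingHom (e : L →+* Ω) t := ⟨_, rfl⟩
  have c1 : ∀ a, ι (C a) = e a := fun a => by simp [hι]
  have cmp : (algebraMap Ω E).comp (ι.comp (mapRingHom (algebraMap A L))) =
      ((μ.comp g : A[X] →ₐ[k] E) : A[X] →+* E) :=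
    ringHom_ext (fun a => by simpa [c1] using he a) (by simpa [hι] using ht)
  have cmp' : ∀ p, algebraMap Ω E (ι (p.map (algebraMap A L))) = μ (g p) :=
    fun p => RingHom.congr_fun cmp p
  have i0 : Function.Injective (ι.comp (mapRingHom (algebraMap A L))) := fun p q u =>
    ts.inj (μ.injective ((cmp' p).symm.trans ((congrArg _ u).trans (cmp' q))))
  have i1 : Function.Injective ι := hι ▸ AutA.inj _ t (hι ▸ i0)
  have i2 : Function.Injective (algebraMap A L) := fun a b u =>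
    C_injective (i0 (by simp [u]))
  obtain ⟨ω, hω⟩ := AutA.ext_aut ι i1 i2 (((μ.comp g : A[X] →ₐ[k] E) : A[X] →+* E).codRestrict
    (g.range.map μ) fun p => ⟨g p, ⟨p, rfl⟩, rfl⟩)
    (by rintro ⟨_, _, ⟨p, rfl⟩, rfl⟩; exact ⟨p, rfl⟩) (Eq.trans rfl cmp.symm) ts.alg σ
  obtain ⟨τ, h2, h3⟩ := h1 k F Ω E J g.range H μ S' ts.gc ts.all.a1.nice.toFine.top ω (by
    rintro a ⟨_, ⟨p, rfl⟩, u⟩
    obtain rfl : ι (p.map (algebraMap A L)) = a := (algebraMap Ω E).injective ((cmp' p).trans u)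
    rw [hω, Polynomial.map_map]
    congr 2
    exact RingHom.ext hσ)
  refine ⟨τ, Set.Subset.antisymm ?_ ?_, h3, fun a => ?_⟩
  · rintro _ ⟨_, ⟨a, rfl⟩, rfl⟩
    exact ⟨_, (h2 a).symm⟩
  · rintro _ ⟨a, rfl⟩
    exact ⟨_, ⟨ω.symm a, rfl⟩, by rw [h2, ω.apply_symm_apply]⟩
  · rw [h2, ← c1, hω, map_C, c1]
    rfl

end Pool.Agent.MP_e8e0b6_ag.R2
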