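import Pool.Agent.MP_e8e0b6_ag.R2.CSpec

/-! A general member of a system is a generator at finitely many given points. -/

set_option autoImplicit false

namespace Pool.Agent.MP_e8e0b6_ag.R2

open Pool.Agent.MP_20d318_ag.AG Pool.Agent.MP_20d318_ag.BV Pool.Agent.MP_20d318_ag.CB

/-- The elements whose quotient by `d` lies in the maximal ideal. -/
def avoidSub {k N : Type} [Field k] [Field N] [Algebra k N] {O : Subalgebra k N}
    (hO : IsLocalRing O) (d : N) : Submodule k N where
  carrier := {a | a / d ∈ mx O}
  add_mem' ha hb := by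
    rw [Set.mem_ofPred_eq, add_div]
    exact mx_add hO ha hb
  zero_mem' := by
    rw [Set.mem_ofPred_eq, zero_div]
    exact zero_mem_mx
  smul_mem' c a ha := by
    rw [Set.mem_ofPred_eq, Algebra.smul_def, mul_div_assoc]
    exact mx_mul_left (O.algebraMap_mem c) ha

theorem avoid_stmt : AvoidStmt := by
  intro k N _ _ _ _ U Φ δ hΦ h
  have := hΦ.to_subtype
  obtain ⟨a, ha⟩ := Submodule.exists_forall_notMem_of_forall_ne_top
    (fun O : Φ => (avoidSub (h O O.2).1 (δ O)).comap (Submodule.span k U).subtype) fun O e => by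
      obtain ⟨b, hb, hu⟩ := (h O O.2).2.2
      have : (⟨b, Submodule.subset_span hb⟩ : Submodule.span k U) ∈
        (avoidSub (h O O.2).1 (δ O)).comap (Submodule.span k U).subtype := e ▸ Submodule.mem_top
      exact hu.not_mx this
  refine ⟨a, a.2, fun O hO => isU_of_not_mx ?_ (ha ⟨O, hO⟩)⟩
  obtain ⟨a, h0⟩ := a
  clear ha
  induction h0 using Submodule.span_induction with
  | mem x hx => exact (h O hO).2.1 x hx
  | zero => simp
  | add x y _ _ hx hy => simpa only [add_div] using O.add_mem hx hy
  | smul c x _ hx => simpa only [smul_div_assoc] using O.smul_mem hx c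

end Pool.Agent.MP_e8e0b6_ag.R2
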