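import Pool.Agent.MP_e8e0b6_ag.R2.SpecS

/-!
Row AZ: the divisor of a section.
-/

set_option autoImplicit false

namespace Pool.Agent.MP_e8e0b6_ag.R2

open Pool.Agent.MP_79c67d_ag Pool.Agent.MP_20d318_ag Pool.Agent.MP_20d318_ag.AG
  Pool.Agent.MP_20d318_ag.BV Pool.Agent.MP_20d318_ag.CB

namespace AzA

variable {k F : Type} [Field k] [Field F] [Algebra k F]

theorem dt_const (X : Set (Subalgebra k F)) {a : F} (ha : a ≠ 0) : Dt X fun _ => a := by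
  have h : ∀ b : F, b ≠ 0 → ∀ O : Subalgebra k F, Gn {b} O b := fun b hb O =>
    gn_of_mem rfl hb (by
      rintro _ rfl
      rw [div_self hb]
      exact O.one_mem)
  refine ⟨{1}, {a}, ⟨Set.finite_singleton _, fun O _ => ⟨_, h 1 one_ne_zero O⟩⟩,
    ⟨Set.finite_singleton _, fun O _ => ⟨_, h a ha O⟩⟩,
    fun O _ => ⟨1, a, h 1 one_ne_zero O, h a ha O, ?_⟩⟩
  rw [mul_one, div_self ha]
  exact isU_one

end AzA

theorem az_stmt (h1 : CrdStmt) : AzStmt := by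
  intro k F _ _ _ _ _ R H γ ψ hA hγ hψ hU
  obtain ⟨M, _, _, I, _, ξ, ρ, S, d, u, L, hS, hL, hN, hu, hb⟩ := hA
  have h2 := hU ξ L.fib
  have e : ∀ O, ψ * γ O = ψ / u * (u * γ O) := fun O => by
    rw [← mul_assoc, div_mul_cancel₀ _ hu]
  have h3 : IsU ξ (ψ / u) := by
    have h4 := (hb ξ L.fib.mem L.fib.dom).1
    have h5 := h2.div h4
    rwa [e, mul_div_cancel_right₀ _ h4.ne] at h5
  have h0 := evO_ne ρ h3
  have h4 : ∀ O ∈ XX R H, AG.Dom R O → IsU (red ξ ρ O)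
      (evO ξ ρ (ψ * γ O) / (evO ξ ρ (ψ / u) * S.lb d (red ξ ρ O))) := fun O hO hd => by
    rw [e, evO_mul ρ h3.mem (hb O hO hd).1.mem, mul_div_mul_left _ _ h0]
    exact (hb O hO hd).2
  have h5 : evO ξ ρ (ψ / u) ∈ S.Sec d := fun O₁ hO₁ => by
    obtain ⟨O, hO, rfl⟩ := C.exists_red L hO₁
    have h6 := h4 O hO.1 hO.2
    have h7 := h6.div_mem (C.ev_mem (ρ := ρ) (C.xs_le L hO) (hψ O hO.1))
    rwa [div_div_cancel₀ (div_ne_zero_iff.1 h6.ne).1] at h7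
  obtain ⟨P, hP⟩ := hN.prm _ h5 h0
  obtain ⟨D, d1, d2, d3⟩ := hN.one
  obtain ⟨s, hs, s', hs', s0, s0', c1, c2, c3⟩ := h1 k M I S d D _ P hS hP d1 d3
  obtain ⟨δ, l1, l2⟩ := hL.ex D
  obtain ⟨z, hz, rfl⟩ := hL.surj D δ l1 l2 d2 s hs
  obtain ⟨z', hz', rfl⟩ := hL.surj D δ l1 l2 d2 s' hs'
  have u1 := C.xi_unit L (C.sc_mem L l2 hz) s0
  have u2 := C.xi_unit L (C.sc_mem L l2 hz') s0'
  refine ⟨M, _, _, I, _, ξ, ρ, S, d, _, P, z / z', ⟨L, hS, hP,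
    C.dt_mul (AzA.dt_const _ (left_ne_zero_of_mul h2.ne)) hγ, hψ, h4⟩, u1.div u2, ?_, ?_,
    fun O hO hd hle => ?_⟩
  · rwa [evO_div ρ u1.mem u2]
  · rwa [inv_div, evO_div ρ u2.mem u1]
  · rcases c3 _ (C.red_mem L ⟨hO, hd⟩) hle with h | h
    · have h6 := (C.sc_unit L l2 hz ⟨hO, hd⟩).2 h
      have h7 := h6.div_mem (hz' O hO)
      rw [mul_div_mul_right _ _ (right_ne_zero_of_mul h6.ne)] at h7
      exact Or.inr (by rwa [inv_div])
    · have h6 := (C.sc_unit L l2 hz' ⟨hO, hd⟩).2 h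
      have h7 := h6.div_mem (hz O hO)
      rw [mul_div_mul_right _ _ (right_ne_zero_of_mul h6.ne)] at h7
      exact Or.inl h7

end Pool.Agent.MP_e8e0b6_ag.R2
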