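import Pool.Agent.MP_e8e0b6_ag.R2.SpecT

/-!
Linear disjointness gives a base change.
-/

set_option autoImplicit false

namespace Pool.Agent.MP_e8e0b6_ag.R2

open Pool.Agent.MP_79c67d_ag Pool.Agent.MP_20d318_ag Pool.Agent.MP_20d318_ag.AG
  Pool.Agent.MP_20d318_ag.BV Pool.Agent.MP_20d318_ag.CB

theorem bc_stmt : BcStmt := by
  intro C F D E _ _ _ _ _ _ _ _ _ μ hl hg
  refine ⟨⟨μ, ?_, fun ω => ?_⟩, rfl⟩
  · let b := Module.Basis.ofVectorSpace C F
    refine LinearMap.injective_of_linearIndependent (f := (tens D μ).toLinearMap)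
      (Algebra.TensorProduct.basis D b).span_eq ?_
    simpa [Function.comp_def] using hl _ b b.linearIndependent
  · have h : ω ∈ Subfield.closure ((tens D μ).toRingHom.range : Set E) := by
      refine (hg _ (fun d => ?_) fun f => ?_).ge trivial
      · exact Subfield.subset_closure ⟨d ⊗ₜ 1, by simp⟩
      · exact Subfield.subset_closure ⟨1 ⊗ₜ f, by simp⟩
    rw [Subfield.mem_closure_iff, Subring.closure_eq] at h
    obtain ⟨_, ⟨a, rfl⟩, _, ⟨s, rfl⟩, rfl⟩ := h
    by_cases h0 : tens D μ s = 0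
    · exact ⟨0, 1, fun h => by simpa using congrArg (tens D μ) h, by simp [h0]⟩
    · exact ⟨a, s, fun h => h0 (by rw [h, map_zero]), div_mul_cancel₀ _ h0⟩

end Pool.Agent.MP_e8e0b6_ag.R2
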