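import Pool.Agent.MP_e8e0b6_ag.R2.SpecA

/-!
The points below the points of the geometric generic fibre.
-/

set_option autoImplicit false

namespace Pool.Agent.MP_e8e0b6_ag.R2

open Pool.Agent.MP_79c67d_ag Pool.Agent.MP_20d318_ag Pool.Agent.MP_20d318_ag.AG
  Pool.Agent.MP_20d318_ag.BV Pool.Agent.MP_20d318_ag.CB
open scoped IntermediateField Pointwise

namespace BgA

variable {k F Ω E : Type} [Field k] [Field F] [Field Ω] [Field E] [Algebra k F] [Algebra k E]
  [Algebra Ω E] {C : Subalgebra k F} {μ : F →ₐ[k] E}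

/-- The preimage of a ring of the generic fibre. -/
def pre (h : ∀ c ∈ C, μ c ∈ Set.range (algebraMap Ω E)) (O' : Subalgebra Ω E) : Subalgebra k F where
  carrier := {a | μ a ∈ O'}
  mul_mem' {a b} ha hb := by
    change μ (a * b) ∈ O'
    rw [map_mul]
    exact O'.mul_mem ha hb
  add_mem' {a b} ha hb := by
    change μ (a + b) ∈ O'
    rw [map_add]
    exact O'.add_mem ha hb
  algebraMap_mem' r := by
    obtain ⟨c, hc⟩ := h _ (C.algebraMap_mem r)
    change μ (algebraMap k F r) ∈ O'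
    rw [← hc]
    exact O'.algebraMap_mem c

variable {h : ∀ c ∈ C, μ c ∈ Set.range (algebraMap Ω E)} {O' : Subalgebra Ω E} {a : F}

theorem mem_pre : a ∈ pre h O' ↔ μ a ∈ O' := Iff.rfl

theorem isU_pre : IsU (pre h O') a ↔ IsU O' (μ a) := by simp [IsU, mem_pre]

theorem mx_pre : a ∈ mx (pre h O') ↔ μ a ∈ mx O' := by simp [mx, isU_pre, mem_pre]

theorem loc_pre (hO : IsLocalRing O') : IsLocalRing (pre h O') :=
  isLocalRing_of fun a ha b hb => mx_pre.2 (by
    rw [map_add]; exact mx_add hO (mx_pre.1 ha) (mx_pre.1 hb))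

/-- A ring that contains `C` as a module over `C`. -/
def md (A : Subalgebra k F) (hA : C ≤ A) : Submodule C F where
  carrier := A
  add_mem' ha hb := A.add_mem ha hb
  zero_mem' := A.zero_mem
  smul_mem' c _ ha := A.mul_mem (hA c.2) ha

/-- The span of the image of a ring is a ring. -/
def spn (μ : F →ₐ[k] E) (Ω : Type) [Field Ω] [Algebra Ω E] (A : Subalgebra k F) : Subalgebra Ω E :=
  (Submodule.span Ω (μ '' A)).toSubalgebra (Submodule.subset_span ⟨1, A.one_mem, map_one μ⟩)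
    fun x y hx hy => by
      have := Submodule.mul_mem_mul hx hy
      rw [Submodule.span_mul_span] at this
      refine Submodule.span_mono ?_ this
      rintro _ ⟨_, ⟨a, ha, rfl⟩, _, ⟨b, hb, rfl⟩, rfl⟩
      exact ⟨a * b, A.mul_mem ha hb, map_mul μ a b⟩

theorem span_mx (hO : IsLocalRing O') {T : Set E} (hT : ∀ t ∈ T, t ∈ mx O') {s : E}
    (hs : s ∈ Submodule.span Ω T) : s ∈ mx O' := by
  induction hs using Submodule.span_induction with
  | mem x hx => exact hT x hx
  | zero => exact zero_mem_mx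
  | add x y _ _ hx hy => exact mx_add hO hx hy
  | smul r x _ hx =>
    rw [Algebra.smul_def]
    exact mx_mul_left (O'.algebraMap_mem r) hx

end BgA

open BgA in
theorem bg_stmt : BgStmt := by
  intro hd k F Ω E J _ _ _ _ _ _ _ _ C H μ S' _ gc O' hO'
  rw [gc.eq, mp_eq_XX] at hO'
  obtain ⟨_, ⟨j, hj, rfl⟩, hp⟩ := hO'
  have hW : ch C H j ≤ pre gc.base O' := ch_le.2 ⟨fun c hc => by
    obtain ⟨d, hd⟩ := gc.base c hc
    rw [mem_pre, ← hd]
    exact O'.algebraMap_mem d, fun a ha => by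
    rw [mem_pre, map_div₀]
    exact hp.2.1 (div_mem_ch ⟨a, ha, rfl⟩)⟩
  obtain ⟨O, hO, dom⟩ := exists_ctr (loc_pre hp.1) hW
  refine ⟨O, ⟨j, hj, hO⟩, fun z => ⟨fun hz => dom.1 hz, fun hz => ?_⟩⟩
  by_cases z0 : z = 0
  · exact z0 ▸ O.zero_mem
  obtain ⟨r, hr, s, hs, hu, e⟩ := hp.2.2 _ hz
  have hA : ch ⊥ (μ '' H) (μ j) ≤ spn μ Ω (ch C H j) := ch_le.2 ⟨bot_le, by
    rintro _ ⟨a, ha, rfl⟩
    exact Submodule.subset_span ⟨a / j, div_mem_ch ha, map_div₀ μ a j⟩⟩
  let N : Submodule C F := md (ch C H j) le_ch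
  let N' : Submodule C F := N.comap (LinearMap.mulLeft C z)
  have k1 : ∀ x ∈ Submodule.span Ω (μ '' N), x / μ z ∈ Submodule.span Ω (μ '' N') := by
    intro x hx
    induction hx using Submodule.span_induction with
    | mem x hx =>
      obtain ⟨b, hb, rfl⟩ := hx
      refine Submodule.subset_span ⟨b / z, ?_, map_div₀ μ b z⟩
      change z * (b / z) ∈ N
      rwa [mul_div_cancel₀ _ z0]
    | zero => rw [zero_div]; exact Submodule.zero_mem _
    | add x y _ _ hx hy => rw [add_div]; exact Submodule.add_mem _ hx hy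
    | smul c x _ hx => rw [smul_div_assoc]; exact Submodule.smul_mem _ c hx
  have k2 : s ∈ Submodule.span Ω (μ '' N') := by
    have m0 : μ z ≠ 0 := (map_ne_zero μ).2 z0
    have e' : s = r / μ z := by
      rw [eq_div_iff m0, e, mul_div_cancel₀ _ hu.1]
    rw [e']
    exact k1 r (hA hr)
  have k3 := hd k F Ω E C μ gc.base gc.ld N N' ⟨hA hs, k2⟩
  by_contra hn
  refine hu.not_mx (span_mx hp.1 ?_ k3)
  rintro _ ⟨b, ⟨hb, hb'⟩, rfl⟩
  refine ⟨hW hb, fun u => hn ?_⟩
  have u' : IsU O b := dom.2 b (hO.2.1 hb) (isU_pre.2 u)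
  have := u'.div_mem (hO.2.1 (show z * b ∈ ch C H j from hb'))
  rwa [mul_div_cancel_right₀ _ u'.1] at this

end Pool.Agent.MP_e8e0b6_ag.R2
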