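import Pool.Agent.MP_e8e0b6_ag.R2.SpecB

/-!
The standard charts of a smooth projective family over an affine base.
-/

set_option autoImplicit false

open Polynomial AlgebraicGeometry CategoryTheory Limits TensorProduct

namespace Pool.Agent.MP_e8e0b6_ag.R2

open Pool.Agent.MP_79c67d_ag Pool.Agent.MP_20d318_ag Pool.Agent.MP_20d318_ag.AG
  Pool.Agent.MP_20d318_ag.BV Pool.Agent.MP_20d318_ag.CB

attribute [local instance] MvPolynomial.gradedAlgebra

namespace Br1A

/-- The trace of an affine chart on a closed subscheme. -/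
theorem exists_cl {Y P : Scheme.{0}} (c : Y ⟶ P) [IsClosedImmersion c] {R : Type} [CommRing R]
    (j' : Spec (.of R) ⟶ P) [IsOpenImmersion j'] :
    ∃ (I : Ideal R) (j : Spec (.of (R ⧸ I)) ⟶ Y), IsOpenImmersion j ∧
      j ≫ c = sp (Ideal.Quotient.mk I) ≫ j' ∧ ∀ y, c y ∈ Set.range j' → y ∈ Set.range j := by
  obtain ⟨I, e, he⟩ := (IsClosedImmersion.Spec_iff (f := pullback.snd c j')).1 inferInstance
  refine ⟨I, e.inv ≫ pullback.fst c j', inferInstance, ?_, fun y ⟨z, hz⟩ => ?_⟩
  · rw [Category.assoc, pullback.condition, he, Category.assoc, Iso.inv_hom_id_assoc]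
  · obtain ⟨w, hw, -⟩ := Scheme.exists_preimage_of_isPullback (IsPullback.of_hasPullback c j') y z
      hz.symm
    refine ⟨e.hom w, ?_⟩
    rw [← Scheme.Hom.comp_apply, Iso.hom_inv_id_assoc, hw]

/-- The affine coordinates generate the coordinate ring. -/
theorem gen {k A : Type} [Field k] [CommRing A] [Algebra k A] {N : ℕ} (i : Fin (N + 1))
    (I : Ideal (A ⊗[k] Pj.Ch k i)) :
    Algebra.adjoin A (Set.range fun l => Ideal.Quotient.mk I (1 ⊗ₜ[k] Pj.rat k i l)) = ⊤ := by
  set S := Algebra.adjoin A (Set.range fun l => Ideal.Quotient.mk I (1 ⊗ₜ[k] Pj.rat k i l))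
  have h1 : ∀ a : A, Ideal.Quotient.mk I (a ⊗ₜ[k] 1) ∈ S := fun a => S.algebraMap_mem a
  have h2 : ∀ p : MvPolynomial (Fin (N + 1)) k,
      Ideal.Quotient.mk I (1 ⊗ₜ[k] MvPolynomial.eval₂ (Pj.cst _) (Pj.rat k i) p) ∈ S := by
    intro p
    induction p using MvPolynomial.induction_on with
    | C x =>
      rw [MvPolynomial.eval₂_C]
      have : (1 : A) ⊗ₜ[k] (Pj.cst (MvPolynomial.X i) x : Pj.Ch k i) = algebraMap k A x ⊗ₜ[k] 1 :=
        (Algebra.TensorProduct.algebraMap_apply' x).symm.trans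
          (Algebra.TensorProduct.algebraMap_apply x)
      rw [this]
      exact h1 _
    | add p q hp hq =>
      rw [MvPolynomial.eval₂_add, tmul_add, map_add]
      exact add_mem hp hq
    | mul_X p l hp =>
      rw [MvPolynomial.eval₂_mul, MvPolynomial.eval₂_X, ← mul_one (1 : A),
        ← Algebra.TensorProduct.tmul_mul_tmul, map_mul]
      exact mul_mem hp (Algebra.subset_adjoin ⟨l, rfl⟩)
  refine eq_top_iff.2 fun z _ => ?_
  obtain ⟨w, rfl⟩ := Ideal.Quotient.mk_surjective z
  induction w using TensorProduct.induction_on with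
  | zero => exact (map_zero (Ideal.Quotient.mk I)).symm ▸ zero_mem S
  | tmul a z =>
    obtain ⟨p, rfl⟩ := Pj.exists_eval z
    have := mul_mem (h1 a) (h2 p)
    rwa [← map_mul, Algebra.TensorProduct.tmul_mul_tmul, mul_one, one_mul] at this
  | add x y hx hy =>
    rw [map_add]
    exact add_mem (hx trivial) (hy trivial)

end Br1A

theorem br1_stmt : Br1Stmt := by
  intro k _ _ _ N X S f π e hP A _ σ
  obtain ⟨φ, hφ⟩ := sp_surj (σ ≫ f)
  let := φ.toAlgebra
  have := hP.sm
  have w : (pullback.fst π σ ≫ e) ≫ projStr k N = pullback.snd π σ ≫ σ ≫ f := by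
    rw [Category.assoc, hP.ov, pullback.condition_assoc]
  let c : pullback π σ ⟶ pullback (projStr k N) (σ ≫ f) := pullback.lift _ _ w
  have c1 : c ≫ pullback.fst _ _ = pullback.fst π σ ≫ e := pullback.lift_fst ..
  have c2 : c ≫ pullback.snd _ _ = pullback.snd π σ := pullback.lift_snd ..
  let m : pullback (projStr k N) (σ ≫ f) ⟶ pullback (projStr k N) f :=
    pullback.lift (pullback.fst _ _) (pullback.snd _ _ ≫ σ) (by
      rw [Category.assoc]; exact pullback.condition)
  have m1 : m ≫ pullback.fst _ _ = pullback.fst _ _ := pullback.lift_fst ..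
  have m2 : m ≫ pullback.snd _ _ = pullback.snd _ _ ≫ σ := pullback.lift_snd ..
  have P1 : IsPullback m (pullback.snd _ _) (pullback.snd _ _) σ :=
    IsPullback.of_right (by rw [m1]; exact IsPullback.of_hasPullback _ _) m2
      (IsPullback.of_hasPullback (projStr k N) f)
  have P2 : IsPullback (pullback.fst π σ) c (pullback.lift e π hP.ov) m := by
    refine IsPullback.of_bot ?_ ?_ P1
    · rw [c2, pullback.lift_snd]
      exact IsPullback.of_hasPullback _ _
    · refine pullback.hom_ext ?_ ?_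
      · rw [Category.assoc, Category.assoc, pullback.lift_fst, m1, c1]
      · rw [Category.assoc, Category.assoc, pullback.lift_snd, m2, ← Category.assoc, c2,
          pullback.condition]
  have : IsClosedImmersion c := MorphismProperty.of_isPullback P2 hP.cl
  have H : IsPullback (pullback.fst (projStr k N) (σ ≫ f)) (pullback.snd _ _) (projStr k N)
      (sp (algebraMap k A)) := by
    rw [show sp (algebraMap k A) = σ ≫ f from hφ]
    exact IsPullback.of_hasPullback _ _
  choose j' o1 o2 o3 o4 using fun i : Fin (N + 1) =>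
    Pj.bc_chart H (Pj.pchart k i) Pj.pchart_str
  choose I j p1 p2 p3 using fun i : Fin (N + 1) => Br1A.exists_cl c (j' i)
  have hb : ∀ i, j i ≫ pullback.snd π σ = sp (algebraMap A ((A ⊗[k] Pj.Ch k i) ⧸ I i)) := fun i => by
    rw [← c2, ← Category.assoc, p2, Category.assoc, o2, sp_comp]
  refine ⟨⟨fun i => (A ⊗[k] Pj.Ch k i) ⧸ I i,
    fun i l => Ideal.Quotient.mk (I i) (1 ⊗ₜ[k] Pj.rat k i l), fun i => ?_,
    fun i => Br1A.gen i (I i), fun i => ?_⟩, j, p1, hb, fun i => ⟨(Ideal.Quotient.mk (I i)).comp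
      (Algebra.TensorProduct.includeRight (R := k) (A := A)).toRingHom, ?_, fun l => rfl⟩,
    fun i y hy => p3 i y (o4 i _ ?_)⟩
  · rw [Pj.rat_self]
    exact map_one _
  · have := p1 i
    exact RingHom.smooth_algebraMap.1 (SB.smooth_of_chart (j i) (hb i))
  · rw [← c1, ← Category.assoc, p2, Category.assoc, o3, sp_comp_assoc]
  · rwa [← Scheme.Hom.comp_apply, c1]

end Pool.Agent.MP_e8e0b6_ag.R2
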