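import Pool.Agent.MP_e8e0b6_ag.R2.SpecB

/-!
The function field of a geometric fibre.
-/

set_option autoImplicit false

open Polynomial AlgebraicGeometry CategoryTheory Limits TensorProduct

namespace Pool.Agent.MP_e8e0b6_ag.R2

open Pool.Agent.MP_79c67d_ag Pool.Agent.MP_20d318_ag Pool.Agent.MP_20d318_ag.AG
  Pool.Agent.MP_20d318_ag.BV Pool.Agent.MP_20d318_ag.CB

attribute [local instance] MvPolynomial.gradedAlgebra

namespace Br2aA

variable {Ω B E : Type} [Field Ω] [CommRing B] [Field E] [Algebra Ω B] [Algebra Ω E]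

theorem pts_iff {κ : B →ₐ[Ω] E} (hκ : Function.Injective κ) {O : Subalgebra Ω E} :
    O ∈ Pts κ.range ↔ ∃ p : PrimeSpectrum B, (O : Set E) = locS (κ : B →+* E) p.asIdeal := by
  constructor
  · rintro ⟨hloc, hle, hfr⟩
    have hL : Loc O.toSubring := loc_iff.2 hloc
    have hm : ∀ x, (κ : B →+* E) x ∈ O.toSubring := fun x => hle ⟨x, rfl⟩
    refine ⟨⟨ctr (κ : B →+* E) hL hm, inferInstance⟩, Set.Subset.antisymm (fun f hf => ?_)
      (locS_ctr_le hL hm)⟩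
    obtain ⟨_, ⟨a, rfl⟩, _, ⟨b, rfl⟩, hb, rfl⟩ := hfr f hf
    exact ⟨a, b, not_not.2 ⟨hb.2.1, hb.1, hb.2.2⟩, div_mul_cancel₀ _ hb.1⟩
  · rintro ⟨p, hp⟩
    have hm : ∀ f, f ∈ O ↔ f ∈ locS (κ : B →+* E) p.asIdeal := Set.ext_iff.1 hp
    have he : O.toSubring = locS (κ : B →+* E) p.asIdeal := Subring.ext hm
    have hL : Loc O.toSubring := he ▸ loc_locS hκ
    refine ⟨loc_iff.1 hL, ?_, fun f hf => ?_⟩
    · rintro _ ⟨a, rfl⟩
      exact (hm _).2 (map_mem_locS a)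
    · obtain ⟨a, b, hb, e⟩ := (hm f).1 hf
      have hu := (un_locS (r := (κ : B →+* E)) hκ).2 hb
      exact ⟨_, ⟨a, rfl⟩, _, ⟨b, rfl⟩, ⟨hu.2.1, (hm _).2 hu.1, (hm _).2 hu.2.2⟩,
        eq_div_of_mul_eq hu.2.1 e⟩

theorem range_eq {N : ℕ} (κ : B →ₐ[Ω] E) {r : Fin (N + 1) → B} {h : Fin (N + 1) → E} {c : E}
    (hr : Algebra.adjoin Ω (Set.range r) = ⊤) (e : ∀ l, κ (r l) = h l / c) :
    κ.range = cht Ω (fun _ : Unit => nz h) fun _ => c := by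
  rw [← Algebra.map_top, ← hr, AlgHom.map_adjoin, cht]
  refine le_antisymm (Algebra.adjoin_le ?_) (Algebra.adjoin_le ?_)
  · rintro _ ⟨_, ⟨l, rfl⟩, rfl⟩
    rw [e]
    by_cases h0 : h l = 0
    · rw [h0, zero_div]
      exact Subalgebra.zero_mem _
    · exact Algebra.subset_adjoin (Set.mem_iUnion.2 ⟨(), h l, ⟨⟨l, rfl⟩, h0⟩, rfl⟩)
  · intro z hz
    obtain ⟨_, _, ⟨⟨l, rfl⟩, -⟩, rfl⟩ := Set.mem_iUnion.1 hz
    exact Algebra.subset_adjoin ⟨r l, ⟨l, rfl⟩, e l⟩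

end Br2aA

open Br2aA in
theorem br2a_stmt (h1 : Br1Stmt) (h2 : StalkStmt) : Br2aStmt := by
  intro k _ _ _ N X S f π e hP Ω _ _ s
  obtain ⟨hint, halg, hbase, htw⟩ := hP.fib Ω s
  obtain ⟨𝓡, j, hc⟩ := h1 k N X S f π e hP Ω s
  obtain ⟨i0, hi0⟩ := Pj.pchart_cover ((gen (pullback π s) ≫ pullback.fst π s ≫ e)
    (IsLocalRing.closedPoint _))
  obtain ⟨ρ0, hρ0⟩ := exists_factor _ _ hi0
  let h : Fin (N + 1) → (pullback π s).functionField := fun l => ρ0 (Pj.rat k i0 l)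
  have hone : h i0 = 1 := by simp only [h, Pj.rat_self, map_one]
  have hco : ∀ i, h i ≠ 0 → ∃ ρ : Pj.Ch k i →+* (pullback π s).functionField,
      sp ρ ≫ Pj.pchart k i = gen (pullback π s) ≫ pullback.fst π s ≫ e ∧
      ∀ l, ρ (Pj.rat k i l) = h l / h i := fun i hi => by
    let G := MvPolynomial.eval₂Hom (ρ0.comp (Pj.cst _)) (ρ0 ∘ Pj.rat k i0)
    have hG : ∀ l, G (MvPolynomial.X l) = h l := fun l => MvPolynomial.eval₂Hom_X' _ _ _
    have hu : IsUnit (G (MvPolynomial.X i)) := by rw [hG]; exact hi.isUnit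
    have hu0 : IsUnit (G (MvPolynomial.X i0)) := by rw [hG, hone]; exact isUnit_one
    refine ⟨Pj.aw G _ hu, ?_, fun l => ?_⟩
    · rw [Pj.aw_chart G hu hu0, Pj.aw_self ρ0 hu0, hρ0]
    · have := Pj.aw_rat G hu l
      rw [hG, hG] at this
      exact eq_div_of_mul_eq hi this
  have hmem : ∀ i (ρ : Pj.Ch k i →+* (pullback π s).functionField),
      sp ρ ≫ Pj.pchart k i = gen (pullback π s) ≫ pullback.fst π s ≫ e → h i ≠ 0 := fun i ρ hρ => by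
    have := Pj.chart_trans (hρ.trans hρ0.symm) i0
    exact right_ne_zero_of_mul (this.trans_ne (hone.trans_ne one_ne_zero))
  have key : ∀ i, Nontrivial (𝓡.B i) → ∃ κ : 𝓡.B i →ₐ[Ω] (pullback π s).functionField,
      Function.Injective κ ∧ sp (κ : 𝓡.B i →+* _) ≫ j i = gen (pullback π s) ∧ h i ≠ 0 ∧
      κ.range = cht Ω (fun _ : Unit => nz h) fun _ => h i := fun i _ => by
    have := hc.opn i
    have := isDomain_chart (j i)
    obtain ⟨κ, hκ, hinj, -⟩ := exists_chart (j i)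
    have e1 : κ.comp (algebraMap Ω (𝓡.B i)) = algebraMap Ω _ := sp_inj (by
      rw [← sp_comp, ← hc.base i, ← Category.assoc, hκ]
      exact hbase)
    obtain ⟨ρ, hρ, hr⟩ := hc.co i
    have e2 : sp (κ.comp ρ) ≫ Pj.pchart k i = gen (pullback π s) ≫ pullback.fst π s ≫ e := by
      rw [← sp_comp_assoc, hρ, ← Category.assoc, hκ]
    have hi := hmem i _ e2
    obtain ⟨ρ', hρ', hr'⟩ := hco i hi
    have e3 : κ.comp ρ = ρ' := sp_cancel _ (e2.trans hρ'.symm)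
    refine ⟨⟨κ, DFunLike.congr_fun e1⟩, hinj, hκ, hi, range_eq _ (𝓡.gen i) fun l => ?_⟩
    rw [← hr' l, ← e3, ← hr l]
    rfl
  refine ⟨(pullback π s).functionField, inferInstance, halg, gen _, h, hint, inferInstance, hbase,
    ⟨i0, hone⟩, hco, hmem, ?_⟩
  convert htw using 1
  ext O
  constructor
  · rintro ⟨c, hcm, hO⟩
    obtain ⟨⟨i, hi⟩, hi'⟩ := hcm ()
    obtain rfl : c = fun _ => h i := funext fun _ => hi.symm
    obtain ⟨ρ, hρ, -⟩ := hco i hi'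
    obtain ⟨p0, -⟩ := hc.rng i (gen (pullback π s) (IsLocalRing.closedPoint _))
      ⟨sp ρ (IsLocalRing.closedPoint _), by
        rw [← Scheme.Hom.comp_apply, hρ, Scheme.Hom.comp_apply]⟩
    obtain ⟨κ, hinj, hκ, -, hr⟩ := key i (PrimeSpectrum.nonempty_iff_nontrivial.1 ⟨p0⟩)
    rw [← hr] at hO
    obtain ⟨p, hp⟩ := (pts_iff hinj).1 hO
    have := hc.opn i
    exact ⟨j i p, hp.trans (h2 _ _ (j i) _ hκ p).symm⟩
  · rintro ⟨y, hy⟩
    obtain ⟨i, hi⟩ := Pj.pchart_cover ((pullback.fst π s ≫ e) y)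
    obtain ⟨p, rfl⟩ := hc.rng i y hi
    obtain ⟨κ, hinj, hκ, hi', hr⟩ := key i (PrimeSpectrum.nonempty_iff_nontrivial.1 ⟨p⟩)
    have := hc.opn i
    refine ⟨fun _ => h i, fun _ => ⟨⟨i, rfl⟩, hi'⟩, ?_⟩
    rw [← hr]
    exact (pts_iff hinj).2 ⟨p, hy.trans (h2 _ _ (j i) _ hκ p)⟩

end Pool.Agent.MP_e8e0b6_ag.R2
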