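import Pool.Agent.MP_e8e0b6_ag.R2.SpecB

/-!
The charts of a geometric fibre.
-/

set_option autoImplicit false

open AlgebraicGeometry CategoryTheory Limits TensorProduct IsLocalRing

namespace Pool.Agent.MP_e8e0b6_ag.R2

attribute [local instance] MvPolynomial.gradedAlgebra

theorem br2b_stmt : Br2bStmt := by
  intro k A Ω E _ _ _ _ _ _ _ _ N X S π e σ s 𝓡 j η h hs hP hG
  subst hs
  have := hG.int
  have := hG.dom
  obtain ⟨m, hm1, hm2⟩ : ∃ m : pullback π (sp (algebraMap A Ω) ≫ σ) ⟶ pullback π σ,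
      m ≫ pullback.fst π σ = pullback.fst _ _ ∧
      m ≫ pullback.snd π σ = pullback.snd _ _ ≫ sp (algebraMap A Ω) :=
    ⟨pullback.lift (pullback.fst _ _) (pullback.snd _ _ ≫ sp (algebraMap A Ω))
      (by rw [Category.assoc]; exact pullback.condition), pullback.lift_fst .., pullback.lift_snd ..⟩
  have H : IsPullback m (pullback.snd π (sp (algebraMap A Ω) ≫ σ)) (pullback.snd π σ)
      (sp (algebraMap A Ω)) :=
    IsPullback.of_right (by rw [hm1]; exact IsPullback.of_hasPullback π _) hm2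
      (IsPullback.of_hasPullback π σ)
  have key : ∀ i, ∃ j' : Spec (.of (Ω ⊗[A] 𝓡.B i)) ⟶ pullback π (sp (algebraMap A Ω) ≫ σ),
      IsOpenImmersion j' ∧ (∀ z, m z ∈ Set.range (j i) → z ∈ Set.range j') ∧
      (η (closedPoint E) ∈ Set.range j' → h i ≠ 0 ∧ ∃ θ : 𝓡.B i →ₐ[A] E,
        (∀ l, θ (𝓡.r i l) = h l / h i) ∧ Function.Injective (tens Ω θ)) := fun i => by
    have := hP.opn i
    obtain ⟨j', hj1, hj2, hj3, hj4⟩ := Pj.bc_chart H (j i) (hP.base i)
    refine ⟨j', hj1, hj4, fun hz => ?_⟩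
    obtain ⟨κ, hκ⟩ := exists_factor η j' hz
    have h1 : κ.comp (algebraMap Ω (Ω ⊗[A] 𝓡.B i)) = algebraMap Ω E :=
      sp_inj (by rw [← sp_comp, ← hj2, ← Category.assoc, hκ, hG.base])
    have h2 : ∀ d : Ω, κ (d ⊗ₜ 1) = algebraMap Ω E d := fun d => DFunLike.congr_fun h1 d
    let θ : 𝓡.B i →ₐ[A] E :=
      { κ.comp (Algebra.TensorProduct.includeRight (R := A) (A := Ω)).toRingHom with
        commutes' := fun a => by
          rw [IsScalarTower.algebraMap_apply A Ω E, ← h2]
          exact congrArg κ ((Algebra.TensorProduct.includeRight (R := A) (A := Ω)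
            (B := 𝓡.B i)).commutes a) }
    obtain ⟨ρ, hρ1, hρ2⟩ := hP.co i
    have h3 : sp ((κ.comp (Algebra.TensorProduct.includeRight (R := A) (A := Ω)).toRingHom).comp ρ)
        ≫ Pj.pchart k i = η ≫ pullback.fst _ _ ≫ e := by
      rw [← sp_comp, ← sp_comp, Category.assoc, hρ1, Category.assoc, ← Category.assoc _ (j i),
        ← hj3, Category.assoc, ← Category.assoc m, hm1, ← Category.assoc, hκ]
    have h4 := hG.mem i _ h3
    obtain ⟨ρ', h5, h6⟩ := hG.co i h4
    have h7 := sp_cancel (Pj.pchart k i) (h5.trans h3.symm)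
    refine ⟨h4, θ, fun l => ?_, ?_⟩
    · rw [← h6, h7, ← hρ2]
      rfl
    · have h8 : ∀ z, tens Ω θ z = κ z := fun z => by
        induction z with
        | zero => rw [map_zero, map_zero]
        | tmul d n =>
          rw [tens_tmul, ← h2]
          refine (map_mul κ _ _).symm.trans (congrArg κ ?_)
          exact (Algebra.TensorProduct.tmul_mul_tmul d 1 1 n).trans (by rw [mul_one, one_mul])
        | add a b ha hb => rw [map_add, map_add, ha, hb]
      have := κ.domain_nontrivial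
      have := isDomain_chart j'
      have h9 : IsDominant (sp κ ≫ j') := by rw [hκ]; infer_instance
      have h10 := (PrimeSpectrum.denseRange_comap_iff_ker_le_nilRadical κ).1
        (IsDominant.of_comp_of_isOpenImmersion (sp κ) j').denseRange
      rw [nilradical_eq_zero] at h10
      rw [show (tens Ω θ : _ → E) = κ from funext h8]
      exact (RingHom.injective_iff_ker_eq_bot κ).2 (le_bot_iff.1 h10)
  refine ⟨?_, fun i hi => ?_, fun i hi => ?_⟩
  · obtain ⟨i, hi⟩ := hG.one
    exact ⟨i, by rw [hi]; exact one_ne_zero⟩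
  · obtain ⟨j', hj1, -, hj3⟩ := key i
    by_contra hn
    have := not_subsingleton_iff_nontrivial.1 hn
    obtain ⟨x, hx⟩ := η.denseRange.exists_mem_open j'.isOpenEmbedding.isOpen_range
      (Set.range_nonempty _)
    obtain rfl : x = closedPoint E := Subsingleton.elim (α := PrimeSpectrum E) _ _
    exact (hj3 hx).1 hi
  · obtain ⟨j', -, hj2, hj3⟩ := key i
    obtain ⟨ρ', h5, -⟩ := hG.co i hi
    refine (hj3 (hj2 _ (hP.rng i _ ⟨sp ρ' (closedPoint E), ?_⟩))).2
    rw [← Scheme.Hom.comp_apply, h5, ← Scheme.Hom.comp_apply, ← Scheme.Hom.comp_apply,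
      ← Category.assoc m, hm1]

end Pool.Agent.MP_e8e0b6_ag.R2
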