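import Pool.Agent.MP_e8e0b6_ag.R2.SpecB

/-!
Row BR3: the charts embed in the function field of the family.
-/

set_option autoImplicit false

open TensorProduct

namespace Pool.Agent.MP_e8e0b6_ag.R2

open Pool.Agent.MP_79c67d_ag Pool.Agent.MP_20d318_ag Pool.Agent.MP_20d318_ag.AG
  Pool.Agent.MP_20d318_ag.BV Pool.Agent.MP_20d318_ag.CB

namespace Br3A

variable {k A F Ω E B : Type} [Field k] [CommRing A] [Field F] [Field Ω] [Field E] [CommRing B]
  [Algebra k A] [Algebra k F] [Algebra k E] [Algebra A Ω] [Algebra Ω E] [Algebra A E]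
  [IsScalarTower A Ω E] [Algebra A B] {g : A →ₐ[k] F} {μ : F →ₐ[k] E}

/-- A map whose values on generators come from the smaller field. -/
theorem lift {ι : Type} {r : ι → B} (hr : Algebra.adjoin A (Set.range r) = ⊤)
    (hμ : ∀ a, μ (g a) = algebraMap A E a) (θ : B →ₐ[A] E) {T : Subalgebra k F} (hg : g.range ≤ T)
    (hT : ∀ l, ∃ z ∈ T, μ z = θ (r l)) :
    ∃ θ' : B →+* F, (∀ b, μ (θ' b) = θ b) ∧ ∀ b, θ' b ∈ T := by
  have key : ∀ b ∈ Algebra.adjoin A (Set.range r), ∃ z ∈ T, μ z = θ b := fun b hb => by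
    induction hb using Algebra.adjoin_induction with
    | mem b hb => exact hb.elim fun l hl => hl ▸ hT l
    | algebraMap a => exact ⟨g a, hg ⟨a, rfl⟩, by rw [hμ, θ.commutes]⟩
    | add b c _ _ hb hc =>
      obtain ⟨z, h1, h2⟩ := hb
      obtain ⟨w, h3, h4⟩ := hc
      exact ⟨z + w, T.add_mem h1 h3, by rw [map_add, map_add, h2, h4]⟩
    | mul b c _ _ hb hc =>
      obtain ⟨z, h1, h2⟩ := hb
      obtain ⟨w, h3, h4⟩ := hc
      exact ⟨z * w, T.mul_mem h1 h3, by rw [map_mul, map_mul, h2, h4]⟩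
  choose t h1 h2 using fun b => key b (hr ▸ Algebra.mem_top)
  have hi : Function.Injective μ := (μ : F →+* E).injective
  exact ⟨⟨⟨⟨t, hi (by rw [h2, map_one, map_one])⟩, fun b c => hi (by
    simp only [map_mul, h2])⟩, hi (by simp only [h2, map_zero]), fun b c => hi (by
    simp only [map_add, h2])⟩, h2, h1⟩

theorem ind (hg : Function.Injective g) (hΩ : Function.Injective (algebraMap A Ω))
    {θ : B →ₐ[A] E} (hθ : Function.Injective (tens Ω θ)) {θ' : B →+* F}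
    (h1 : ∀ b, μ (θ' b) = θ b) (h2 : ∀ a, θ' (algebraMap A B a) = g a)
    (h3 : ∀ f, ∃ a b, θ' b ≠ 0 ∧ f = θ' a / θ' b) {ι : Type} [Fintype ι] {v : ι → F}
    (hv : LinearIndependent g.range v) : LinearIndependent Ω fun i => μ (v i) := by
  classical
  have := hg.isDomain (g : A →+* F)
  have := flat_field hΩ
  choose a b hb e using fun i => h3 (v i)
  have hD : θ' (∏ i, b i) ≠ 0 := by
    rw [map_prod]
    exact Finset.prod_ne_zero_iff.2 fun i _ => hb i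
  have e1 : ∀ i, θ' (a i * ∏ j ∈ Finset.univ.erase i, b j) = v i * θ' (∏ i, b i) := fun i => by
    rw [← Finset.mul_prod_erase _ _ (Finset.mem_univ i), map_mul, map_mul, e i, ← mul_assoc,
      div_mul_cancel₀ _ (hb i)]
  generalize (∏ i, b i) = D at hD e1
  obtain ⟨c, hc⟩ : ∃ c : ι → B, ∀ i, θ' (c i) = v i * θ' D := ⟨_, e1⟩
  have l1 : LinearIndependent A c := Fintype.linearIndependent_iff.2 fun f hf i => by
    have h4 := congrArg θ' hf
    simp only [map_sum, Algebra.smul_def, map_mul, h2, hc, map_zero, ← mul_assoc,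
      ← Finset.sum_mul] at h4
    have h5 := Fintype.linearIndependent_iff.1 hv (fun i => ⟨g (f i), f i, rfl⟩)
      ((mul_eq_zero.1 h4).resolve_right hD) i
    exact hg ((congrArg Subtype.val h5).trans (map_zero g).symm)
  have l2 := (Module.Flat.linearIndependent_one_tmul (S := Ω) l1).map' (tens Ω θ).toLinearMap
    (LinearMap.ker_eq_bot.2 hθ)
  refine Fintype.linearIndependent_iff.2 fun f hf => Fintype.linearIndependent_iff.1 l2 f ?_
  have h4 : ∀ i, ((tens Ω θ).toLinearMap ∘ fun i => (1 : Ω) ⊗ₜ[A] c i) i = μ (v i) * μ (θ' D) :=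
    fun i => by
      change tens Ω θ (1 ⊗ₜ c i) = _
      rw [tens_tmul, map_one, one_mul, ← h1, hc, map_mul]
  simp only [h4, ← smul_mul_assoc, ← Finset.sum_mul, hf, zero_mul]

end Br3A

theorem br3_stmt : Br3Stmt := by
  intro k A F Ω E _ _ _ _ _ _ _ _ _ _ _ _ N 𝓡 g μ H h hg hμ hb hH hF
  have hi : Function.Injective μ := (μ : F →+* E).injective
  have hΩ : Function.Injective (algebraMap A Ω) := fun a a' e => hg (hi (by
    rw [hμ, hμ, IsScalarTower.algebraMap_apply A Ω E, e, ← IsScalarTower.algebraMap_apply]))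
  have h0 : ∀ l, ∃ z, μ z = h l := fun l => by
    by_cases hl : h l = 0
    · exact ⟨0, by rw [hl, map_zero]⟩
    · obtain ⟨z, -, hz⟩ : h l ∈ μ '' H := hH ▸ ⟨⟨l, rfl⟩, hl⟩
      exact ⟨z, hz⟩
  choose h' hh using h0
  have hz : ∀ l, h' l = 0 ↔ h l = 0 := fun l => by rw [← hh, map_eq_zero]
  have e : H = nz h' := by
    refine Set.Subset.antisymm (fun a ha => ?_) ?_
    · obtain ⟨⟨l, hl⟩, h1⟩ : μ a ∈ nz h := hH ▸ ⟨a, ha, rfl⟩
      exact ⟨⟨l, hi (by rw [hh, hl])⟩, fun h2 => h1 (by rw [h2, map_zero])⟩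
    · rintro _ ⟨⟨l, rfl⟩, hl⟩
      obtain ⟨z, h1, h2⟩ : h l ∈ μ '' H := hH ▸ ⟨⟨l, rfl⟩, fun h3 => hl ((hz l).2 h3)⟩
      rwa [← hi (h2.trans (hh l).symm)]
  subst e
  have hr : ∀ i, Function.Injective
      (Algebra.TensorProduct.includeRight : 𝓡.B i →ₐ[A] Ω ⊗[A] 𝓡.B i) := fun i =>
    Algebra.TensorProduct.includeRight_injective hΩ
  have key : ∀ i, h' i ≠ 0 → ∃ (θ : 𝓡.B i →ₐ[A] E) (θ' : 𝓡.B i →+* F),
      Function.Injective (tens Ω θ) ∧ (∀ b, μ (θ' b) = θ b) ∧ Function.Injective θ' ∧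
      (∀ a, θ' (algebraMap A _ a) = g a) ∧ (∀ l, θ' (𝓡.r i l) = h' l / h' i) ∧
      ∀ z, z ∈ ch g.range (nz h') (h' i) ↔ z ∈ Set.range θ' := fun i h1 => by
    obtain ⟨θ, h2, h3⟩ := hb.emb i fun h4 => h1 ((hz i).2 h4)
    obtain ⟨θ', h4, h5⟩ := Br3A.lift (𝓡.gen i) hμ θ (T := ch g.range (nz h') (h' i)) le_sup_left
      fun l => ⟨h' l / h' i, by
        by_cases hl : h' l = 0
        · rw [hl, zero_div]
          exact zero_mem _
        · exact C.div_mem_ch ⟨⟨l, rfl⟩, hl⟩, by rw [map_div₀, hh, hh, h2]⟩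
    have h6 : ∀ a, θ' (algebraMap A _ a) = g a := fun a => hi (by rw [h4, hμ, θ.commutes])
    have h7 : ∀ l, θ' (𝓡.r i l) = h' l / h' i := fun l => hi (by rw [h4, map_div₀, hh, hh, h2])
    refine ⟨θ, θ', h3, h4, fun b c e => hr i (h3 ?_), h6, h7, fun z => ⟨fun h8 => ?_, ?_⟩⟩
    · simp only [Algebra.TensorProduct.includeRight_apply, tens_tmul, ← h4, e]
    · let T : Subalgebra k F :=
        { θ'.range with
          algebraMap_mem' := fun c => ⟨_, (h6 (algebraMap k A c)).trans (g.commutes c)⟩ }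
      refine C.ch_le (O := T) ?_ ?_ h8
      · rintro _ ⟨a, rfl⟩
        exact ⟨_, h6 a⟩
      · rintro _ ⟨⟨l, rfl⟩, -⟩
        exact ⟨_, h7 l⟩
    · rintro ⟨b, rfl⟩
      exact h5 b
  obtain ⟨i, h1⟩ := hb.ne
  have h2 : h' i ≠ 0 := fun h3 => h1 ((hz i).1 h3)
  refine ⟨h', hh, rfl, ⟨hg, ⟨i, h2⟩, fun l hl => ?_, fun l hl => ?_, hF⟩, fun ι v hv => ?_⟩
  · have := hb.zero l ((hz l).1 hl)
    exact (hr l).subsingleton
  · obtain ⟨-, θ', -, -, h3⟩ := key l hl
    exact ⟨θ', h3⟩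
  · obtain ⟨θ, θ', h3, h4, -, h5, -, h6⟩ := key i h2
    refine linearIndependent_iff_finset_linearIndependent.2 fun s => ?_
    refine Br3A.ind hg hΩ h3 h4 h5 (fun f => ?_) (hv.comp Subtype.val Subtype.val_injective)
    obtain ⟨a, ha, b, hb', h7, h8⟩ := hF _ ⟨⟨i, rfl⟩, h2⟩ f
    obtain ⟨a, rfl⟩ := (h6 a).1 ha
    obtain ⟨b, rfl⟩ := (h6 b).1 hb'
    exact ⟨a, b, h7, h8⟩

end Pool.Agent.MP_e8e0b6_ag.R2
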