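import Pool.Agent.MP_e8e0b6_ag.R2.SpecB

/-!
The family is locally factorial with integral fibres.
-/

set_option autoImplicit false

namespace Pool.Agent.MP_e8e0b6_ag.R2

open Pool.Agent.MP_79c67d_ag Pool.Agent.MP_20d318_ag Pool.Agent.MP_20d318_ag.AG
  Pool.Agent.MP_20d318_ag.BV Pool.Agent.MP_20d318_ag.CB

namespace Br4A

variable {k F : Type} [Field k] [Field F] [Algebra k F] {O A : Subalgebra k F}

/-- A point is flat over its chart. -/
theorem flat_of (h : O ∈ Pts A) : (Subalgebra.inclusion h.2.1).toRingHom.Flat := by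
  let _ : Algebra A O := (Subalgebra.inclusion h.2.1).toRingHom.toAlgebra
  let N : Submonoid A :=
    { carrier := {b | IsU O (b : F)}
      mul_mem' := fun ha hb => ha.mul hb
      one_mem' := isU_one }
  have : IsLocalization N O := by
    refine (isLocalization_iff _ _).2 ⟨fun b => (isU_iff_isUnit _).1 b.2, fun f => ?_,
      fun {a b} e => ⟨1, ?_⟩⟩
    · obtain ⟨a, ha, b, hb, hu, e⟩ := h.2.2 f f.2
      refine ⟨(⟨a, ha⟩, ⟨⟨b, hb⟩, hu⟩), Subtype.ext ?_⟩
      change (f : F) * b = a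
      rw [e, div_mul_cancel₀ _ hu.ne]
    · rw [Subalgebra.inclusion_injective h.2.1 e]
  exact IsLocalization.flat O N

end Br4A

theorem br4_stmt (h1 : UfdsStmt) (h2 : FibrStmt) : Br4Stmt := by
  intro k A F _ _ _ _ _ _ _ N 𝓡 g h hA hE hF
  have hb : Function.Bijective g.rangeRestrict.toRingHom :=
    ⟨fun a b e => hE.inj (congrArg Subtype.val e), g.rangeRestrict_surjective⟩
  have hC : Algebra.Smooth k g.range := .of_equiv (AlgEquiv.ofInjective g hE.inj)
  have key : ∀ j ∈ nz h, ((Subalgebra.inclusion (le_sup_left : g.range ≤ ch g.range (nz h) j)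
      ).toRingHom.comp g.rangeRestrict.toRingHom).Smooth := by
    rintro _ ⟨⟨i, rfl⟩, hi⟩
    obtain ⟨θ, t1, t2, -, t3⟩ := hE.emb i hi
    let e : 𝓡.B i →+* ch g.range (nz h) (h i) := θ.codRestrict _ fun b => (t3 _).2 ⟨b, rfl⟩
    have he : Function.Bijective e := ⟨fun a b e => t1 (congrArg Subtype.val e), fun z => by
      obtain ⟨b, hb⟩ := (t3 z).1 z.2
      exact ⟨b, Subtype.ext hb⟩⟩
    have e1 : e.comp (algebraMap A (𝓡.B i)) = (Subalgebra.inclusion (le_sup_left :
        g.range ≤ ch g.range (nz h) (h i))).toRingHom.comp g.rangeRestrict.toRingHom :=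
      RingHom.ext fun a => Subtype.ext (t2 a)
    exact e1 ▸ (RingHom.smooth_algebraMap.2 (𝓡.sm i)).comp (RingHom.Smooth.of_bijective he)
  refine ⟨(Set.finite_range h).subset fun _ h => h.1, hE.ne.elim fun i hi => ⟨_, ⟨i, rfl⟩, hi⟩,
    fun _ h => h.2, hE.frac, Algebra.FiniteType.isNoetherianRing k _, h1 k F _ hC, ?_,
    fun R hR => ?_, ?_⟩
  · rintro O ⟨j, hj, hO⟩
    refine h1 k F _ (RingHom.smooth_algebraMap.1 ?_) O hO
    have e1 : ((Subalgebra.inclusion (le_sup_left : g.range ≤ ch g.range (nz h) j)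
        ).toRingHom.comp g.rangeRestrict.toRingHom).comp (algebraMap k A) = algebraMap k _ :=
      RingHom.ext fun c => Subtype.ext (g.commutes c)
    exact e1 ▸ (RingHom.smooth_algebraMap.2 hA).comp (key j hj)
  · have hg : ∀ a, g a ∈ R := fun a => hR.2.1 ⟨a, rfl⟩
    have := hR.1
    let p : Ideal A := (IsLocalRing.maximalIdeal R).comap (g.toRingHom.codRestrict R hg)
    have : p.IsPrime := Ideal.comap_isPrime _ _
    obtain ⟨M, _, _, _, _, h', h3, -⟩ := hF (AlgebraicClosure p.ResidueField)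
    obtain ⟨ξ, -, h4, -⟩ := h2 k A F (AlgebraicClosure p.ResidueField) M N 𝓡 g h h' R hE h3 hR
      fun a => by
        rw [IsScalarTower.algebraMap_apply A p.ResidueField, _root_.map_ne_zero, Ne,
          Ideal.algebraMap_residueField_eq_zero]
        exact (isU_iff_isUnit (⟨g a, hg a⟩ : R)).trans not_not.symm
    exact ⟨ξ, h4⟩
  · rintro O ⟨j, hj, hO⟩ hle
    exact (RingHom.Flat.comp_iff_of_bijective_right hb).1
      ((key j hj).flat.comp (Br4A.flat_of hO))

end Pool.Agent.MP_e8e0b6_ag.R2
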