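import Pool.Agent.MP_e8e0b6_ag.R2.SpecB

/-!
The closed fibres of a smooth projective family of rational surfaces.
-/

set_option autoImplicit false

namespace Pool.Agent.MP_e8e0b6_ag.R2

open Pool.Agent.MP_79c67d_ag Pool.Agent.MP_20d318_ag Pool.Agent.MP_20d318_ag.AG
  Pool.Agent.MP_20d318_ag.BV Pool.Agent.MP_20d318_ag.CB

namespace Br5A

theorem res {k F : Type} [Field k] [Field F] [Algebra k F] {R : Subalgebra k F}
    (hR : IsLocalRing R) (rat : RatPt R) : ∃ ρ : R →ₐ[k] k, LocHom R ρ := by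
  have hb : Function.Bijective (Algebra.ofId k (IsLocalRing.ResidueField R)) :=
    ⟨(algebraMap k _).injective, fun x => by
      obtain ⟨a, rfl⟩ := resid_surj x
      obtain ⟨c, hc⟩ := rat a a.2
      have := ((resid_loc (O := R)).eq_zero_iff hc.1).2 hc
      rw [evO_sub _ a.2 (R.algebraMap_mem c), evO_coe, evO_const, sub_eq_zero] at this
      exact ⟨c, this.symm⟩⟩
  exact ⟨_, (resid_loc (O := R)).comp (AlgEquiv.ofBijective _ hb).symm.toAlgHom⟩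

end Br5A

theorem br5_stmt (h1 : Mk1Stmt) (h2 : Mk2Stmt) (h3 : FibrStmt) (h4 : LzStmt) (h5 : IndStmt)
    (h6 : RedtStmt) : Br5Stmt := by
  intro k A F _ _ _ _ _ _ _ N 𝓡 g h em fbs fm R hR rat
  obtain ⟨ρ₀, l₀⟩ := Br5A.res hR.1 rat
  have hg : ∀ a, g a ∈ R := fun a => hR.2.1 ⟨a, rfl⟩
  let e : A →ₐ[k] k := ρ₀.comp (g.codRestrict R hg)
  let : Algebra A k := e.toRingHom.toAlgebra
  obtain ⟨M, _, _, _, _, h', fb, tw⟩ := fbs k
  obtain ⟨ξ, ρ, fib, lh, ha, hc⟩ := h3 k A F k M N 𝓡 g h h' R em fb hR fun a =>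
    ⟨fun u => (evO_of_mem ρ₀ (hg a)) ▸ evO_ne ρ₀ u, l₀ ⟨g a, hg a⟩⟩
  let ρ' : ξ →ₐ[k] M := ⟨ρ, fun c => by
    have := ha (algebraMap k A c) (fib.dom.1 (hg _))
    rw [IsScalarTower.algebraMap_apply A k M, show algebraMap A k (algebraMap k A c) = c from
      e.commutes c] at this
    exact (congrArg ρ (Subtype.ext (g.commutes c).symm)).trans this⟩
  obtain ⟨I, _, S, eT, mk⟩ := h1 k M _ tw
  have fR := (h4 k F _ R (nz h) ⟨hR.2.1, hR.2.2⟩).2.2 fm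
  have eq := eT.trans (h6 k F M N R ξ ρ' h h' rat fib lh fb.ne fun i hi => ⟨(hc i hi).1, fun l => by
    obtain ⟨m, hm⟩ := (hc i hi).2 l
    exact ⟨m, (evO_of_mem ρ' m).trans hm⟩⟩)
  refine ⟨M, _, _, I, _, ξ, ρ', S, fR, hR.1, rat, fib, lh, fun m => ?_,
    h5 k F M R ξ ρ' fib.dom.1 hR.1 rat fib.dom lh (fR.flat ξ fib.mem _), mk, eq⟩
  obtain ⟨O, -, hO⟩ := eq ▸ (h2 k M I S mk).all.a1.nice.toFine.top
  obtain ⟨a, -, rfl⟩ : m ∈ red ξ ρ' O := hO ▸ Algebra.mem_top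
  exact ⟨a, rfl⟩

end Pool.Agent.MP_e8e0b6_ag.R2
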