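import Pool.Agent.MP_e8e0b6_ag.R2.SpecB

/-!
The family is glued from the charts inside the function field.
-/

set_option autoImplicit false

open Polynomial AlgebraicGeometry CategoryTheory Limits TensorProduct

namespace Pool.Agent.MP_e8e0b6_ag.R2

open Pool.Agent.MP_79c67d_ag Pool.Agent.MP_20d318_ag Pool.Agent.MP_20d318_ag.AG
  Pool.Agent.MP_20d318_ag.BV Pool.Agent.MP_20d318_ag.CB

attribute [local instance] MvPolynomial.gradedAlgebra

namespace Br6A

theorem isIso_sp {B C : Type} [CommRing B] [CommRing C] {φ : B →+* C}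
    (h : Function.Bijective φ) : IsIso (sp φ) :=
  have : IsIso (CommRingCat.ofHom φ) := (RingEquiv.ofBijective φ h).toCommRingCatIso.isIso_hom
  inferInstance

variable {k A : Type} [Field k] [CommRing A] [Algebra k A] {N : ℕ} {X S : Scheme.{0}}
  {f : S ⟶ Spec (.of k)} {π : X ⟶ S} {e : X ⟶ projSpace k N} {σ : Spec (.of A) ⟶ S}

theorem ext (hP : Pf f π e) {T : Scheme.{0}} {a b : T ⟶ pullback π σ}
    (h1 : a ≫ pullback.snd π σ = b ≫ pullback.snd π σ)
    (h2 : a ≫ pullback.fst π σ ≫ e = b ≫ pullback.fst π σ ≫ e) : a = b := by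
  have := hP.cl
  refine pullback.hom_ext ((cancel_mono (pullback.lift e π hP.ov)).1 (pullback.hom_ext ?_ ?_)) h1
  · simpa only [Category.assoc, pullback.lift_fst] using h2
  · simp only [Category.assoc, pullback.lift_snd, pullback.condition]
    rw [← Category.assoc, h1, Category.assoc]

theorem cst_eq (hP : Pf f π e) (hσ : σ ≫ f = sp (algebraMap k A)) {B : Type} [CommRing B]
    [Algebra A B] {j : Spec (.of B) ⟶ pullback π σ}
    (hb : j ≫ pullback.snd π σ = sp (algebraMap A B)) {i : Fin (N + 1)} {ρ : Pj.Ch k i →+* B}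
    (hρ : sp ρ ≫ Pj.pchart k i = j ≫ pullback.fst π σ ≫ e) (a : k) :
    ρ (Pj.cst _ a) = algebraMap A B (algebraMap k A a) := by
  have h : sp (ρ.comp (Pj.cst (MvPolynomial.X i))) =
      sp ((algebraMap A B).comp (algebraMap k A)) := by
    rw [← sp_comp, ← Pj.pchart_str, ← Category.assoc, hρ, Category.assoc, Category.assoc, hP.ov,
      pullback.condition_assoc, hσ, ← Category.assoc, hb, sp_comp]
  exact DFunLike.congr_fun (sp_inj h) a

end Br6A

open Br6A in
theorem br6_stmt : Br6Stmt := by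
  intro k _ _ _ N X S f π e hP A F _ _ _ _ σ 𝓡 j g h hσ hc hE
  choose ρ hρ hr using hc.co
  choose θ hinj hg hθ hch using hE.emb
  let G : MvPolynomial (Fin (N + 1)) k →+* F := MvPolynomial.eval₂Hom (algebraMap k F) h
  have hG : ∀ l, G (MvPolynomial.X l) = h l := fun l => MvPolynomial.eval₂Hom_X' _ _ l
  have hu : ∀ i, h i ≠ 0 → IsUnit (G (MvPolynomial.X i)) := fun i hi => by
    rw [hG]; exact hi.isUnit
  have h1 : ∀ i (hi : h i ≠ 0), (θ i hi).comp (ρ i) = Pj.aw G _ (hu i hi) := fun i hi =>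
    Pj.ch_ext (fun a => by
      rw [RingHom.comp_apply, cst_eq hP hσ (hc.base i) (hρ i), hg, AlgHom.commutes, Pj.aw_cst]
      exact (MvPolynomial.eval₂Hom_C _ _ a).symm) fun l => by
      rw [RingHom.comp_apply, hr, hθ, div_eq_iff hi, ← hG i, Pj.aw_rat, hG]
  have h2 : ∀ i (hi : h i ≠ 0), (sp (θ i hi) ≫ j i) ≫ pullback.snd π σ = sp (g : A →+* F) :=
    fun i hi => by
      rw [Category.assoc, hc.base, sp_comp]
      exact congrArg sp (RingHom.ext (hg i hi))
  have h3 : ∀ i (hi : h i ≠ 0) i' (hi' : h i' ≠ 0),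
      sp (θ i hi) ≫ j i = sp (θ i' hi') ≫ j i' := fun i hi i' hi' =>
    ext hP ((h2 i hi).trans (h2 i' hi').symm) (by
      rw [Category.assoc, Category.assoc, ← hρ, ← hρ, sp_comp_assoc, sp_comp_assoc, h1, h1]
      exact Pj.aw_chart G _ _)
  obtain ⟨i₀, hi₀⟩ := hE.ne
  have hx : ∀ a : nz h, ∃ i, h i = a := fun a => a.2.1
  choose x hx using hx
  have hx0 : ∀ a : nz h, h (x a) ≠ 0 := fun a => (hx a).symm ▸ a.2.2
  have hm : ∀ (a : nz h) z, z ∈ ch g.range (nz h) a ↔ z ∈ Set.range (θ (x a) (hx0 a)) :=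
    fun a z => by rw [← hch, hx]
  let φ : ∀ a : nz h, 𝓡.B (x a) →+* ch g.range (nz h) a := fun a =>
    (θ (x a) (hx0 a)).codRestrict _ fun b => (hm a _).2 ⟨b, rfl⟩
  have hφ : ∀ a, IsIso (sp (φ a)) := fun a => isIso_sp
    ⟨fun b c hbc => hinj _ _ (congrArg Subtype.val hbc), fun z => by
      obtain ⟨b, hb⟩ := (hm a z).1 z.2
      exact ⟨b, Subtype.ext hb⟩⟩
  have := hP.sep
  have := hP.sm
  refine ⟨sp (θ i₀ hi₀) ≫ j i₀, fun a => sp (φ a) ≫ j (x a), hE.inj,
    isSeparated_of (pullback.snd π σ), inferInstance, fun a => ?_, fun y => ?_, h2 i₀ hi₀,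
    fun a => ?_⟩
  · have := hφ a
    have := hc.opn (x a)
    infer_instance
  · obtain ⟨i, hi⟩ := Pj.pchart_cover ((pullback.fst π σ ≫ e) y)
    obtain ⟨p, rfl⟩ := hc.rng i y hi
    have hi0 : h i ≠ 0 := fun h0 => by
      have := hE.zero i h0
      exact (p : PrimeSpectrum (𝓡.B i)).2.ne_top (Subsingleton.elim _ _)
    let a : nz h := ⟨h i, ⟨i, rfl⟩, hi0⟩
    have e1 : 𝓡.r i (x a) = 1 := hinj i hi0 (by rw [hθ, map_one, hx, div_self hi0])
    let G' := MvPolynomial.eval₂Hom ((ρ i).comp (Pj.cst (MvPolynomial.X i))) (ρ i ∘ Pj.rat k i)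
    have u1 : IsUnit (G' (MvPolynomial.X i)) := by simp [G', Pj.rat_self]
    have u2 : IsUnit (G' (MvPolynomial.X (x a))) := by simp [G', hr, e1]
    have e2 : j i ≫ pullback.fst π σ ≫ e = sp (Pj.aw G' _ u2) ≫ Pj.pchart k (x a) := by
      rw [← hρ, ← Pj.aw_chart G' u1 u2, Pj.aw_self]
    obtain ⟨z, hz⟩ := hc.rng (x a) (j i p) ⟨sp (Pj.aw G' _ u2) p, by
      rw [← Scheme.Hom.comp_apply, ← e2, Scheme.Hom.comp_apply]⟩
    have := hφ a
    obtain ⟨w, rfl⟩ := (sp (φ a)).surjective z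
    exact ⟨a, w, by rw [Scheme.Hom.comp_apply, hz]⟩
  · rw [sp_comp_assoc]
    exact h3 _ (hx0 a) _ hi₀

end Pool.Agent.MP_e8e0b6_ag.R2
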