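import Mathlib
import Pool.Agent.MP_20d318_ag.CB.XCls

/-! Rows about one surface, lattices and general algebra. -/

set_option autoImplicit false

namespace Pool.Agent.MP_e8e0b6_ag.R2

open Pool.Agent.MP_79c67d_ag Pool.Agent.MP_20d318_ag.AG Pool.Agent.MP_20d318_ag.BV
open Pool.Agent.MP_20d318_ag.CB
open scoped IntermediateField

section surface

variable {k M I : Type} [Field k] [Field M] [Algebra k M] [Fintype I] (S : Sd k M I)

/-- The intersection number. -/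
abbrev _root_.Pool.Agent.MP_20d318_ag.CB.Sd.i (c c' : I → ℤ) : ℤ :=
  Pool.Agent.MP_20d318_ag.CB.ip S.B c c'

/-- Nef classes. -/
def Nef (c : I → ℤ) : Prop := ∀ c' ∈ S.PP, 0 ≤ S.i c c'

/-- Ample classes. -/
structure Amp (h : I → ℤ) : Prop where
  pos : ∀ c ∈ S.PP, 0 < S.i h c
  sq : 0 < S.i h h

/-- Classes with the numbers of an exceptional curve. -/
def Mo (e : I → ℤ) : Prop := S.i e e = -1 ∧ S.i S.K e = -1

/-- What the marking of a tower adds to the lattice. -/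
structure Lt : Prop where
  uni : ∀ d : (I → ℤ) →+ ℤ, ∃ z : I → ℤ, ∀ c, S.i c z = d c
  ggf : S.GG S.f
  Kf : S.i S.K S.f ≤ -2
  ggA : S.GG S.A
  AA : 0 < S.i S.A S.A
  neg : 3 ≤ Fintype.card I → ∃ e ∈ S.PP, Mo S e

/-- `τ` is a lower bound for the degrees of the exceptional curves. -/
def Low (h : I → ℤ) (τ : ℤ) : Prop := ∀ e ∈ S.PP, Mo S e → τ ≤ S.i h e

/-- The real class `h + t K`. -/
def Dh (h : I → ℤ) (t : ℝ) : I → ℝ :=
  Pool.Agent.MP_20d318_ag.CB.toR h + t • Pool.Agent.MP_20d318_ag.CB.toR S.K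

/-- The square of `h + t K`. -/
def Sq (h : I → ℤ) (t : ℝ) : ℝ := Pool.Agent.MP_20d318_ag.CB.ip S.B (Dh S h t) (Dh S h t)

/-- The class `h + t K` is nef. -/
def RNef (h : I → ℤ) (t : ℝ) : Prop := ∀ c ∈ S.PP, (0 : ℝ) ≤ S.i h c + t * S.i S.K c

/-- Three sections without common zero of a class that is positive on all curves. -/
structure Net (G : I → ℤ) (a₀ a₁ a₂ : M) : Prop where
  gn : ∀ O ∈ S.T, Gn {a₀, a₁, a₂} O (S.lb G O)⁻¹
  ne : a₀ ≠ 0
  pos : ∀ c ∈ S.PP, 0 < S.i G c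

end surface

/-- A specialisation isomorphism of Picard lattices. -/
structure Isom {Ω N J k M I : Type} [Field Ω] [Field N] [Algebra Ω N] [Fintype J] [Field k]
    [Field M] [Algebra k M] [Fintype I] (S' : Sd Ω N J) (S : Sd k M I)
    (β : (J → ℤ) ≃+ (I → ℤ)) : Prop where
  ip : ∀ c c', S.i (β c) (β c') = S'.i c c'
  can : β S'.K = S.K
  ef : ∀ c ∈ S'.Ef, β c ∈ S.Ef

/-- HCL: the hyperplane class of any projective embedding is ample. -/
def HclStmt : Prop := ∀ (k M I : Type) [Field k] [CharZero k] [IsAlgClosed k] [Field M]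
  [Algebra k M] [Fintype I] (S : Sd k M I) (H : Set M) (h : I → ℤ) (μ : M), SAll S →
  S.T = mp k (fun _ : Unit => H) → (∀ O ∈ S.T, Gn H O (μ / S.lb h O)) → Amp S h

/-- DEG1: the components of the first member of a net. -/
def Deg1Stmt : Prop := ∀ (k M I : Type) [Field k] [CharZero k] [IsAlgClosed k] [Field M]
  [Algebra k M] [Fintype I] (S : Sd k M I) (G : I → ℤ) (a₀ a₁ a₂ : M), SAll S → Net S G a₀ a₁ a₂ →
  ∀ P : Place k M, plO P ∈ S.T → 0 < P.ord (a₀ * S.lb G (plO P)) →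
    IsU (plO P) (a₁ * S.lb G (plO P)) ∧ Ind (plO P) ![a₂ / a₁] ∧
    ∃ (L : Type) (_ : Field L) (_ : Algebra k L) (ρ : plO P →ₐ[k] L), Function.Surjective ρ ∧
      LocHom (plO P) ρ ∧ (Module.finrank k⟮evO (plO P) ρ (a₂ / a₁)⟯ L : ℤ) = S.i G (S.cl P)

/-- DEG2: the fundamental equality over the place `u = 0` of `k(w, u)`. -/
def Deg2Stmt : Prop := ∀ (k M : Type) [Field k] [CharZero k] [Field M] [Algebra k M] (w u : M)
  (s : Finset (Place k M)) (f : Place k M → ℤ), AlgebraicIndependent k ![w, u] →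
  FiniteDimensional k⟮w, u⟯ M → (∀ P, P ∈ s ↔ 0 < P.ord u ∧ Ind (plO P) ![w]) →
  (∀ P ∈ s, ∃ (L : Type) (_ : Field L) (_ : Algebra k L) (ρ : plO P →ₐ[k] L),
    Function.Surjective ρ ∧ LocHom (plO P) ρ ∧
      (Module.finrank k⟮evO (plO P) ρ w⟯ L : ℤ) = f P) →
  ∑ P ∈ s, P.ord u * f P = Module.finrank k⟮w, u⟯ M

/-- The degree of the map given by a net is the square of the class. -/
def Deg : Prop := ∀ (k M I : Type) [Field k] [CharZero k] [IsAlgClosed k] [Field M]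
  [Algebra k M] [Fintype I] (S : Sd k M I) (G : I → ℤ) (a₀ a₁ a₂ : M), SAll S → Net S G a₀ a₁ a₂ →
  AlgebraicIndependent k ![a₁ / a₀, a₂ / a₀] ∧ FiniteDimensional k⟮a₁ / a₀, a₂ / a₀⟯ M ∧
    (Module.finrank k⟮a₁ / a₀, a₂ / a₀⟯ M : ℤ) = S.i G G

/-- DEG3. -/
def Deg3Stmt : Prop := Deg1Stmt → Deg2Stmt → Deg

/-- AVOID: a general member of a system is a generator at finitely many given points. -/
def AvoidStmt : Prop := ∀ (k N : Type) [Field k] [Infinite k] [Field N] [Algebra k N] (U : Set N)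
  (Φ : Set (Subalgebra k N)) (δ : Subalgebra k N → N), Φ.Finite →
  (∀ O ∈ Φ, IsLocalRing O ∧ Gn U O (δ O)) → ∃ a ∈ Submodule.span k U, ∀ O ∈ Φ, IsU O (a / δ O)

/-- Three members of a system without base points have no common zero. -/
def Three : Prop := ∀ (k M I : Type) [Field k] [CharZero k] [IsAlgClosed k] [Field M]
  [Algebra k M] [Fintype I] (S : Sd k M I) (G : I → ℤ) (U : Set M), SAll S →
  (∀ O ∈ S.T, Gn U O (S.lb G O)⁻¹) → ∃ a₀ ∈ Submodule.span k U, ∃ a₁ ∈ Submodule.span k U,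
    ∃ a₂ ∈ Submodule.span k U, a₀ ≠ 0 ∧ ∀ O ∈ S.T, Gn {a₀, a₁, a₂} O (S.lb G O)⁻¹

/-- THREE. -/
def ThreeStmt : Prop := AvoidStmt → Three

/-- CONE A: effectivity by Riemann-Roch, and effective classes `q h + j K` are nef. -/
def ConeAStmt : Prop := ∀ (k M I : Type) [Field k] [CharZero k] [IsAlgClosed k] [Field M]
  [Algebra k M] [Fintype I] (S : Sd k M I) (h : I → ℤ), SAll S → Amp S h →
  (∀ c, 0 < chi2 S.B S.K c → S.i h S.K < S.i h c → c ∈ S.Ef) ∧
  (∀ c ∈ S.Ef, ∀ D, Nef S D → 0 ≤ S.i D c) ∧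
  (∀ τ q j : ℤ, Low S h τ → 0 < q → 0 ≤ j → j ≤ τ * q → q • h + j • S.K ∈ S.Ef →
    Nef S (q • h + j • S.K)) ∧
  ∀ (τ : ℤ) (t : ℝ), Low S h τ → 0 ≤ t → t < τ → ∀ c ∈ S.PP, S.i c c < 0 →
    (0 : ℝ) < S.i h c + t * S.i S.K c

/-- CONE B: one-sided approximation of an irrational number. -/
def ConeBStmt : Prop := ∀ (t ε : ℝ) (n : ℤ), Irrational t → 0 < ε →
  ∃ q j : ℤ, n < q ∧ 0 < (j : ℝ) - q * t ∧ (j : ℝ) - q * t < ε

/-- The class `h + t K` is nef as long as the square is positive. -/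
def ConeC : Prop := ∀ (k M I : Type) [Field k] [CharZero k] [IsAlgClosed k] [Field M]
  [Algebra k M] [Fintype I] (S : Sd k M I) (h : I → ℤ) (τ : ℤ) (t : ℝ), SAll S → Hg S.B → Amp S h →
  Low S h τ → 0 ≤ t → t ≤ τ → (∀ s, 0 ≤ s → s < t → 0 < Sq S h s) → RNef S h t

/-- CONE C. -/
def ConeCStmt : Prop := ConeAStmt → ConeC

/-- No nef class `h + t K` of square zero below the bound, for `t` with the property `p`. -/
def ConeZ (p : ℝ → Prop) : Prop := ∀ (k M I : Type) [Field k] [CharZero k] [IsAlgClosed k]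
  [Field M] [Algebra k M] [Fintype I] (S : Sd k M I) (h : I → ℤ) (τ : ℤ) (t : ℝ), SAll S → Hg S.B →
  Amp S h → Low S h τ → 3 ≤ Fintype.card I → (∃ e ∈ S.PP, Mo S e) → 0 ≤ t → t < τ → p t →
  RNef S h t → Sq S h t ≠ 0

/-- CONE I. -/
def ConeIStmt : Prop := ConeAStmt → ConeBStmt → ConeZ Irrational

/-- CONE R. -/
def ConeRStmt : Prop := ConeAStmt → ConeZ fun t => ¬ Irrational t

/-- An exceptional curve of least degree is contracted by a nef class `h + τ K`. -/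
def Cone : Prop := ∀ (k M I : Type) [Field k] [CharZero k] [IsAlgClosed k] [Field M]
  [Algebra k M] [Fintype I] (S : Sd k M I) (h : I → ℤ), SAll S → Hg S.B → Lt S → Amp S h →
  3 ≤ Fintype.card I → ∃ e ∈ S.PP, Mo S e ∧ Nef S (h + S.i h e • S.K)

/-- CONE. -/
def ConeStmt : Prop := ConeC → ConeZ Irrational → (ConeZ fun t => ¬ Irrational t) → Cone

/-- PRIME: such a curve stays prime under specialisation. -/
def PrimeStmt : Prop := ∀ (Ω N J k M I : Type) [Field Ω] [CharZero Ω] [IsAlgClosed Ω] [Field N]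
  [Algebra Ω N] [Fintype J] [Field k] [CharZero k] [IsAlgClosed k] [Field M] [Algebra k M]
  [Fintype I] (S' : Sd Ω N J) (S : Sd k M I) (β : (J → ℤ) ≃+ (I → ℤ)) (h e : J → ℤ), SAll S' →
  SAll S → Lt S → Isom S' S β → Amp S (β h) → e ∈ S'.PP → Mo S' e →
  Nef S' (h + S'.i h e • S'.K) → β e ∈ S.PP

/-- LAT: a group of pairs of classes with equal squares is the graph of an isometry. -/
def LatStmt : Prop := ∀ (Ω N J k M I : Type) [Field Ω] [Field N] [Algebra Ω N] [Fintype J]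
  [Field k] [Field M] [Algebra k M] [Fintype I] (S' : Sd Ω N J) (S : Sd k M I)
  (Γ : AddSubgroup ((J → ℤ) × (I → ℤ))), SAll S' → SAll S → Hg S'.B → Hg S.B → Lt S' →
  (∀ c', ∃ c, (c', c) ∈ Γ) → (∀ p ∈ Γ, S.i p.2 p.2 = S'.i p.1 p.1) → (S'.K, S.K) ∈ Γ →
  ∃ β : (J → ℤ) ≃+ (I → ℤ), (∀ p ∈ Γ, β p.1 = p.2) ∧ ∀ c c', S.i (β c) (β c') = S'.i c c'

/-- GR1: semicontinuity of the kernel of a matrix over a local domain. -/
def Gr1Stmt : Prop := ∀ (k R Ω n n' : Type) [Field k] [CommRing R] [IsLocalRing R] [Field Ω]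
  [Fintype n] [Fintype n'] (e : R →+* k) (j : R →+* Ω) (A : Matrix n' n R),
  Function.Surjective e → Function.Injective j →
  Module.finrank Ω (LinearMap.ker (A.map j).mulVecLin) ≤
    Module.finrank k (LinearMap.ker (A.map e).mulVecLin) ∧
  (Module.finrank k (LinearMap.ker (A.map e).mulVecLin) ≤
    Module.finrank Ω (LinearMap.ker (A.map j).mulVecLin) →
      (∀ v, (A.map e).mulVec v = 0 → ∃ w : n → R, A.mulVec w = 0 ∧ ∀ i, e (w i) = v i) ∧
      ∀ W : Set (n → R), (∀ w ∈ W, A.mulVec w = 0) → (∀ v, (A.map e).mulVec v = 0 →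
        v ∈ Submodule.span k ((fun w i => e (w i)) '' W)) →
          ∀ w, A.mulVec w = 0 → w ∈ Submodule.span R W)

end Pool.Agent.MP_e8e0b6_ag.R2
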