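import Pool.Agent.MP_e8e0b6_ag.R2.SpecA

/-!
The canonical class in terms of a projective embedding.
-/

set_option autoImplicit false

namespace Pool.Agent.MP_e8e0b6_ag.R2

open Pool.Agent.MP_79c67d_ag Pool.Agent.MP_20d318_ag Pool.Agent.MP_20d318_ag.AG
  Pool.Agent.MP_20d318_ag.BV Pool.Agent.MP_20d318_ag.CB
open Pool.Agent.MP_20d318_ag.RS (jac)

namespace Can0

variable {k M : Type} [Field k] [Field M] [Algebra k M] {O : Subalgebra k M}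

theorem der_mx {G : Set M} (hO : O ∈ Pts (Algebra.adjoin k G)) (D : Derivation k M M)
    (h : ∀ g ∈ G, D g ∈ mx O) : ∀ f ∈ O, D f ∈ mx O := by
  have h1 : ∀ f ∈ Algebra.adjoin k G, D f ∈ mx O := by
    intro f hf
    induction hf using Algebra.adjoin_induction with
    | mem x hx => exact h x hx
    | algebraMap r => rw [Derivation.map_algebraMap]; exact zero_mem_mx
    | add x y _ _ hx hy => rw [map_add]; exact mx_add hO.1 hx hy
    | mul x y hx' hy' hx hy =>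
      rw [Derivation.leibniz, smul_eq_mul, smul_eq_mul]
      exact mx_add hO.1 (mx_mul_left (hO.2.1 hx') hy) (mx_mul_left (hO.2.1 hy') hx)
  intro f hf
  obtain ⟨a, ha, b, hb, hu, rfl⟩ := hO.2.2 f hf
  rw [Derivation.leibniz_div, smul_eq_mul, smul_eq_mul, smul_eq_mul]
  exact mx_mul_left (O.pow_mem hu.inv_mem 2)
    (mx_sub' hO.1 (mx_mul_left hu.mem (h1 a ha)) (mx_mul_left (hO.2.1 ha) (h1 b hb)))

theorem jac_mx (hJ : Jc k M) {G : Set M} (hO : O ∈ Pts (Algebra.adjoin k G))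
    (D₁ D₂ : Derivation k M M) (w : M) (h : ∀ a ∈ G, ∀ b ∈ G, w * jac D₁ D₂ a b ∈ mx O) :
    ∀ x ∈ O, ∀ y ∈ O, w * jac D₁ D₂ x y ∈ mx O := by
  have h1 : ∀ a, (∀ b ∈ G, w * jac D₁ D₂ a b ∈ mx O) → ∀ y ∈ O, w * jac D₁ D₂ a y ∈ mx O := by
    intro a ha y hy
    obtain ⟨D, e⟩ := hJ.lin D₁ D₂ a w
    exact e y ▸ der_mx hO D (fun g hg => (e g).symm ▸ ha g hg) y hy
  intro x hx
  refine h1 x fun b hb => ?_
  have e : w * jac D₁ D₂ x b = -(w * jac D₁ D₂ b x) := by simp only [jac]; ring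
  rw [e]
  exact mx_neg (h1 b (h b hb) x hx)

theorem jac_div (D₁ D₂ : Derivation k M M) (a b : M) {c : M} (hc : c ≠ 0) :
    c ^ 3 * jac D₁ D₂ (a / c) (b / c) =
      c * jac D₁ D₂ a b - b * jac D₁ D₂ a c - a * jac D₁ D₂ c b := by
  simp only [jac, Derivation.leibniz_div, smul_eq_mul]
  field_simp
  ring

theorem pts_of {H : Set M} (hH : ∀ a ∈ H, a ≠ 0) (hO : O ∈ mp k fun _ : Unit => H) {j : M}
    (hj : j ∈ H) (hle : ∀ a ∈ H, a / j ∈ O) : O ∈ Pts (cht k (fun _ : Unit => H) fun _ => j) := by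
  obtain ⟨i, hi, h⟩ := hO
  refine Pts_of_fr h (cht_le.2 fun _ => hle) fun g hg => ?_
  obtain ⟨l, a, ha, rfl⟩ := Set.mem_iUnion.1 hg
  have h0 := hH j hj
  have hc : ∀ a ∈ H, a / j ∈ cht k (fun _ : Unit => H) fun _ => j :=
    (cht_le (S := fun _ : Unit => H) (j := fun _ => j)).1 le_rfl l
  refine ⟨a / j, hc a ha, i l / j, hc _ (hi l), ⟨div_ne_zero (hH _ (hi l)) h0, hle _ (hi l), ?_⟩,
    (div_div_div_cancel_right₀ h0 _ _).symm⟩
  rw [inv_div]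
  exact cht_le.1 h.2.1 l _ hj

end Can0

open Can0 in
theorem can0_stmt : Can0Stmt := by
  intro k M I _ _ _ _ _ _ S H D₁ D₂ hS hT hH hn
  obtain ⟨ψ, hψ⟩ := hS.s.can D₁ D₂
  have h0 : ψ ≠ 0 := by
    obtain ⟨a, b, u, hc, -, e⟩ := hψ ⊤ hS.a1.nice.toFine.top
    intro h
    exact hn a b hc.1 (by rw [e, h, mul_zero, zero_mul])
  refine ⟨ψ, h0, fun O hO => ?_⟩
  obtain ⟨a₀, b₀, u, hc, hu, e⟩ := hψ O hO
  have hl : S.lb S.K O ≠ 0 := S.lb_ne (hS.a1.gne O hO) _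
  have e0 : jac D₁ D₂ a₀ b₀ * S.lb S.K O / ψ = u := by
    rw [e, S.lb_neg]
    field_simp
  have p1 : ∀ x y, Cht O x y → IsU O (jac D₁ D₂ x y * S.lb S.K O / ψ) := by
    intro x y hxy
    obtain ⟨v, hv, e1⟩ := hS.jc.jacU O a₀ b₀ x y hc hxy
    rw [e1, mul_assoc, mul_div_assoc, e0]
    exact hv.mul hu
  have p0 : ∀ x ∈ O, ∀ y ∈ O, jac D₁ D₂ x y * S.lb S.K O / ψ ∈ O := by
    intro x hx y hy
    obtain ⟨v, hv, e1⟩ := hS.jc.jacM O a₀ b₀ hc x hx y hy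
    rw [e1, mul_assoc, mul_div_assoc, e0]
    exact O.mul_mem hv hu.mem
  refine ⟨p1, fun j hj => ⟨fun a ha b hb c hc' => ?_, fun hjH => ?_⟩⟩
  · have hj0 := hj.ne
    have hc0 := hH c hc'
    have e1 := jac_div D₁ D₂ (a / j) (b / j) (div_ne_zero hc0 hj0)
    rw [div_div_div_cancel_right₀ hj0, div_div_div_cancel_right₀ hj0] at e1
    have e2 : c ^ 3 * jac D₁ D₂ (a / c) (b / c) * S.lb S.K O / (j ^ 3 * ψ) =
        (c / j) ^ 3 * jac D₁ D₂ (a / c) (b / c) * (S.lb S.K O / ψ) := by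
      field_simp
    have e3 : ∀ p q r s t v : M, (p * q - r * s - t * v) * (S.lb S.K O / ψ) =
        p * (q * S.lb S.K O / ψ) - r * (s * S.lb S.K O / ψ) - t * (v * S.lb S.K O / ψ) := by
      intro p q r s t v
      ring
    rw [e2, e1, e3]
    exact O.sub_mem (O.sub_mem (O.mul_mem (hj.1 c hc') (p0 _ (hj.1 a ha) _ (hj.1 b hb)))
      (O.mul_mem (hj.1 b hb) (p0 _ (hj.1 a ha) _ (hj.1 c hc'))))
      (O.mul_mem (hj.1 a ha) (p0 _ (hj.1 c hc') _ (hj.1 b hb)))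
  · by_contra hcon
    have e4 : ∀ x y, S.lb S.K O / ψ * jac D₁ D₂ x y = jac D₁ D₂ x y * S.lb S.K O / ψ := by
      intro x y
      ring
    have hP := pts_of hH (hT ▸ hO) hjH hj.1
    have hm := jac_mx hS.jc hP D₁ D₂ (S.lb S.K O / ψ) (fun x hx y hy => by
      obtain ⟨_, a, ha, rfl⟩ := Set.mem_iUnion.1 hx
      obtain ⟨_, b, hb, rfl⟩ := Set.mem_iUnion.1 hy
      rw [e4]
      exact ⟨p0 _ (hj.1 a ha) _ (hj.1 b hb), fun h => hcon ⟨a, ha, b, hb, h⟩⟩) a₀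
      (hc.2.2.1 (Algebra.subset_adjoin (Or.inl rfl))) b₀
      (hc.2.2.1 (Algebra.subset_adjoin (Or.inr rfl)))
    rw [e4] at hm
    exact (p1 a₀ b₀ hc).not_mx hm

end Pool.Agent.MP_e8e0b6_ag.R2
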