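import Pool.Agent.MP_e8e0b6_ag.R2.SpecA

/-!
Two lifted coordinates generate the relative differentials.
-/

set_option autoImplicit false

namespace Pool.Agent.MP_e8e0b6_ag.R2

open Pool.Agent.MP_79c67d_ag Pool.Agent.MP_20d318_ag Pool.Agent.MP_20d318_ag.AG
  Pool.Agent.MP_20d318_ag.BV Pool.Agent.MP_20d318_ag.CB

namespace Can1

variable {k F W : Type} [Field k] [Field F] [Algebra k F] {R O : Subalgebra k F} [AddCommGroup W]
  [Module O W] {d : O → W}

/-- The functions whose differential lies in `N`. -/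
theorem exists_sub (hR : R ≤ O) (ha : ∀ a b, d (a + b) = d a + d b)
    (hm : ∀ a b, d (a * b) = a • d b + b • d a) (h0 : ∀ r : O, (r : F) ∈ R → d r = 0)
    (N : Submodule O W) : ∃ T : Subalgebra k F, (∀ a, a ∈ T ↔ ∃ h : a ∈ O, d ⟨a, h⟩ ∈ N) ∧ R ≤ T ∧
      ∀ a ∈ T, ∀ b ∈ T, IsU O b → a / b ∈ T := by
  have hr : ∀ r ∈ R, ∃ h : r ∈ O, d ⟨r, h⟩ ∈ N := fun r h =>
    ⟨hR h, (h0 ⟨r, hR h⟩ h).symm ▸ N.zero_mem⟩
  refine ⟨{ carrier := {a | ∃ h : a ∈ O, d ⟨a, h⟩ ∈ N}
            mul_mem' := ?_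
            add_mem' := ?_
            algebraMap_mem' := fun c => hr _ (R.algebraMap_mem c) }, fun _ => Iff.rfl, hr, ?_⟩
  · rintro a b ⟨h1, h2⟩ ⟨h3, h4⟩
    exact ⟨O.mul_mem h1 h3, (hm ⟨a, h1⟩ ⟨b, h3⟩).symm ▸
      N.add_mem (N.smul_mem _ h4) (N.smul_mem _ h2)⟩
  · rintro a b ⟨h1, h2⟩ ⟨h3, h4⟩
    exact ⟨O.add_mem h1 h3, (ha ⟨a, h1⟩ ⟨b, h3⟩).symm ▸ N.add_mem h2 h4⟩
  · rintro a ⟨h1, h2⟩ b ⟨h3, h4⟩ hu
    have h5 := hu.div_mem h1
    refine ⟨h5, ?_⟩
    have e : (⟨a / b, h5⟩ : O) * ⟨b, h3⟩ = ⟨a, h1⟩ := Subtype.ext (div_mul_cancel₀ a hu.ne)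
    have e2 : (⟨b⁻¹, hu.inv_mem⟩ : O) * ⟨b, h3⟩ = 1 := Subtype.ext (inv_mul_cancel₀ hu.ne)
    rw [← e, hm] at h2
    have h6 := N.smul_mem ⟨b⁻¹, hu.inv_mem⟩ ((N.add_mem_iff_right (N.smul_mem _ h4)).1 h2)
    rwa [smul_smul, e2, one_smul] at h6

end Can1

theorem can1_stmt : Can1Stmt := by
  intro k F _ _ _ R O G x y hG hO hd hx hy H f hf
  have hl := hO.1
  let _ : Algebra R O := (Subalgebra.inclusion hd.1).toRingHom.toAlgebra
  have key := Can1.exists_sub (d := KaehlerDifferential.D R O) hd.1 (map_add _)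
    (KaehlerDifferential.D R O).leibniz
    fun r hr => (KaehlerDifferential.D R O).map_algebraMap ⟨r, hr⟩
  have top : ∀ N : Submodule O (KaehlerDifferential R O),
      (∀ a : O, KaehlerDifferential.D R O a ∈ N) → ⊤ ≤ N := fun N h => by
    rw [← KaehlerDifferential.span_range_derivation, Submodule.span_le]
    rintro _ ⟨a, rfl⟩
    exact h a
  have GO : ∀ g ∈ G, g ∈ O := fun g hg =>
    hO.2.1 ((le_sup_right : _ ≤ R ⊔ Algebra.adjoin k G) (Algebra.subset_adjoin hg))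
  have fg : (⊤ : Submodule O (KaehlerDifferential R O)).FG := by
    have := hG.to_subtype
    let v : G → KaehlerDifferential R O := fun g => KaehlerDifferential.D R O ⟨g, GO g g.2⟩
    obtain ⟨T, hT, h1, h2⟩ := key (Submodule.span O (Set.range v))
    have le : R ⊔ Algebra.adjoin k G ≤ T := sup_le h1 (Algebra.adjoin_le fun g hg =>
      (hT g).2 ⟨GO g hg, Submodule.subset_span ⟨⟨g, hg⟩, rfl⟩⟩)
    rw [← top_le_iff.1 (top (Submodule.span O (Set.range v)) fun a => by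
      obtain ⟨p, hp, q, hq, hu, e⟩ := hO.2.2 a a.2
      exact ((hT a).1 (e ▸ h2 p (le hp) q (le hq) hu)).2)]
    exact Submodule.fg_span (Set.finite_range v)
  obtain ⟨T, hT, h1, h2⟩ := key (Submodule.span O
    {KaehlerDifferential.D R O ⟨x, hx⟩, KaehlerDifferential.D R O ⟨y, hy⟩} ⊔
      IsLocalRing.maximalIdeal O • ⊤)
  have le : Algebra.adjoin k {x, y} ≤ T := Algebra.adjoin_le (by
    rintro _ (rfl | rfl)
    · exact (hT _).2 ⟨hx, Submodule.mem_sup_left (Submodule.subset_span (.inl rfl))⟩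
    · exact (hT _).2 ⟨hy, Submodule.mem_sup_left (Submodule.subset_span (.inr rfl))⟩)
  have sp : ∀ a ∈ Submodule.span O (mx R), a ∈ mx O ∧ a ∈ T := fun a ha => by
    induction ha using Submodule.span_induction with
    | mem b hb => exact ⟨hd.mx hb, h1 hb.1⟩
    | zero => exact ⟨zero_mem_mx, T.zero_mem⟩
    | add b c _ _ hb hc => exact ⟨mx_add hl hb.1 hc.1, T.add_mem hb.2 hc.2⟩
    | smul c b _ hb =>
      obtain ⟨h3, h4⟩ := (hT b).1 hb.2
      refine ⟨mx_mul_left c.2 hb.1, (hT _).2 ⟨O.mul_mem c.2 h3, ?_⟩⟩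
      have e : (⟨c • b, O.mul_mem c.2 h3⟩ : O) = c * ⟨b, h3⟩ := rfl
      rw [e, Derivation.leibniz]
      exact add_mem (Submodule.smul_mem _ _ h4) (Submodule.mem_sup_right
        (Submodule.smul_mem_smul ((mem_mx_iff ⟨b, h3⟩).1 hb.1) Submodule.mem_top))
  have nak := Submodule.le_of_le_smul_of_le_jacobson_bot fg
    (IsLocalRing.maximalIdeal_le_jacobson ⊥) (top _ fun a => by
      obtain ⟨p, hp, q, hq, hu, e⟩ := H a a.2
      have := h2 _ (T.add_mem (sp _ e).2 (le hp)) q (le hq) hu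
      rw [sub_add_cancel, mul_div_cancel_right₀ _ hu.ne] at this
      exact ((hT a).1 this).2)
  obtain ⟨p, q, e⟩ := Submodule.mem_span_pair.1
    (nak (Submodule.mem_top : KaehlerDifferential.D R O ⟨f, hf⟩ ∈ ⊤))
  refine ⟨p, p.2, q, q.2, fun L _ π D π1 hπ h0 => ?_⟩
  let π' : O →+* L := RingHom.mk'
    { toFun := fun a => π a
      map_one' := π1
      map_mul' := fun a b => (hπ a a.2 b b.2).2.1 } fun a b => (hπ a a.2 b b.2).1
  let _ : Algebra O L := π'.toAlgebra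
  let _ : Algebra R L := (π'.comp (algebraMap R O)).toAlgebra
  have : IsScalarTower R O L := IsScalarTower.of_algebraMap_eq' rfl
  let D' : Derivation R O L := Derivation.mk'
    { toFun := fun a => D a
      map_add' := fun a b => (hπ a a.2 b b.2).2.2.1
      map_smul' := fun r a => by
        have := (hπ r (hd.1 r.2) a a.2).2.2.2
        rw [h0 r r.2, mul_zero, add_zero] at this
        exact this } fun a b => (hπ a a.2 b b.2).2.2.2
  have := congrArg D'.liftKaehlerDifferential e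
  rw [map_add, map_smul, map_smul, Derivation.liftKaehlerDifferential_comp_D,
    Derivation.liftKaehlerDifferential_comp_D, Derivation.liftKaehlerDifferential_comp_D] at this
  exact this.symm

end Pool.Agent.MP_e8e0b6_ag.R2
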