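import Pool.Agent.MP_e8e0b6_ag.R2.SpecA

/-!
Relative Jacobian determinants of a family.
-/

set_option autoImplicit false

namespace Pool.Agent.MP_e8e0b6_ag.R2

open Pool.Agent.MP_79c67d_ag Pool.Agent.MP_20d318_ag Pool.Agent.MP_20d318_ag.AG
  Pool.Agent.MP_20d318_ag.BV Pool.Agent.MP_20d318_ag.CB
open Pool.Agent.MP_20d318_ag.RS (jac)

namespace Can2

theorem ai_iff {A B σ : Type} [CommRing A] [CommRing B] [Algebra A B] (x : σ → B) :
    AlgebraicIndependent A x ↔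
      LinearIndependent A fun d : σ →₀ ℕ => d.prod fun i n => x i ^ n := by
  have e : (MvPolynomial.aeval x : MvPolynomial σ A →ₐ[A] B).toLinearMap =
      (Finsupp.linearCombination A fun d : σ →₀ ℕ => d.prod fun i n => x i ^ n) ∘ₗ
        (MvPolynomial.basisMonomials σ A).repr.toLinearMap :=
    (MvPolynomial.basisMonomials σ A).ext fun d => by
      rw [LinearMap.comp_apply, LinearEquiv.coe_coe, Module.Basis.repr_self,
        Finsupp.linearCombination_single, one_smul]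
      simp [MvPolynomial.aeval_monomial]
  change Function.Injective (MvPolynomial.aeval x : MvPolynomial σ A →ₐ[A] B).toLinearMap ↔ _
  rw [e, LinearMap.coe_comp, LinearEquiv.coe_coe, EquivLike.injective_comp]
  rfl

theorem ders {k M : Type} [Field k] [CharZero k] [IsAlgClosed k] [Field M] [Algebra k M]
    {a b : M} (h : GenP k a b) : ∃ D₁ D₂ : Derivation k M M, jac D₁ D₂ a b ≠ 0 := by
  obtain ⟨D₁, h1⟩ := (plane_stmt k M a b h).der 0
  obtain ⟨D₂, h2⟩ := (plane_stmt k M a b h).der 1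
  have a1 : D₁ a = 1 := by simpa using h1 (MvPolynomial.X 0)
  have a2 : D₂ a = 0 := by simpa using h2 (MvPolynomial.X 0)
  have a3 : D₂ b = 1 := by simpa using h2 (MvPolynomial.X 1)
  exact ⟨D₁, D₂, by simp [jac, a1, a2, a3]⟩

theorem jac_eq {k M : Type} [Field k] [Field M] [Algebra k M] {a b x y p q p' q' : M}
    (ha : ∀ D : Derivation k M M, D a = p * D x + q * D y)
    (hb : ∀ D : Derivation k M M, D b = p' * D x + q' * D y) (D₁ D₂ : Derivation k M M) :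
    (p * q' - q * p') * jac D₁ D₂ x y = jac D₁ D₂ a b := by
  simp only [jac, ha, hb]
  ring

variable {k F M Ω E I J : Type} [Field k] [Field F] [Field M] [Field Ω] [Field E] [Algebra k F]
  [Algebra k M] [Algebra k E] [Algebra Ω E] [Fintype I] [Fintype J] {R O ξ : Subalgebra k F}
  {H : Set F} {ρ : ξ →ₐ[k] M} {S : Sd k M I} {μ : F →ₐ[k] E} {S' : Sd Ω E J} {x y : F}

theorem lift (hx : x ∈ ξ) (hy : y ∈ ξ) {m : M}
    (hm : m ∈ Algebra.adjoin k {evO ξ ρ x, evO ξ ρ y}) :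
    ∃ a ∈ Algebra.adjoin k {x, y}, evO ξ ρ a = m := by
  obtain ⟨p, rfl⟩ := mem_adjoin_pair.1 hm
  refine ⟨_, mem_adjoin_pair.2 ⟨p, rfl⟩, ?_⟩
  rw [evO_aeval ρ (fun i => by fin_cases i <;> simpa)]
  congr 2
  funext i; fin_cases i <;> rfl

theorem can (h1 : Can1Stmt) (L : Ln R H ξ ρ S) (G : Gm R H μ S') (hO : O ∈ XX R H) (hd : Dom R O)
    (hx : x ∈ O) (hy : y ∈ O) (hc : Cht (red ξ ρ O) (evO ξ ρ x) (evO ξ ρ y)) :
    ∀ f ∈ O, ∃ p ∈ O, ∃ q ∈ O, (∀ D : Derivation k M M, D (evO ξ ρ f) =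
      evO ξ ρ p * D (evO ξ ρ x) + evO ξ ρ q * D (evO ξ ρ y)) ∧
      ∀ D : Derivation Ω E E, D (μ f) = μ p * D (μ x) + μ q * D (μ y) := by
  intro f hf
  have le := L.fib.le O hO hd
  have adj : Algebra.adjoin k {x, y} ≤ O :=
    Algebra.adjoin_le (by rintro _ (rfl | rfl) <;> assumption)
  obtain ⟨j, -, hj⟩ := id hO
  obtain ⟨p, hp, q, hq, h⟩ := h1 k F R O _ x y (L.fm.fin.image _) hj hd hx hy (fun g hg => by
    obtain ⟨a, ha, b, hb, hu, e⟩ := hc.2.2.2 _ ((L.mem O le _).2 ⟨g, hg, rfl⟩)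
    obtain ⟨a', ha', rfl⟩ := lift (le hx) (le hy) ha
    obtain ⟨b', hb', rfl⟩ := lift (le hx) (le hy) hb
    have m := O.sub_mem (O.mul_mem hg (adj hb')) (adj ha')
    refine ⟨a', ha', b', hb', (L.isU O hO hd b' (adj hb')).1 hu,
      L.fib.red O hO hd _ m ((L.lh.eq_zero_iff (le m)).1 ?_)⟩
    rw [evO_sub ρ (le (O.mul_mem hg (adj hb'))) (le (adj ha')), evO_mul ρ (le hg) (le (adj hb')),
      e, div_mul_cancel₀ _ hu.ne, sub_self]) f hf
  refine ⟨p, hp, q, hq, fun D => h M (evO ξ ρ) (fun a => D (evO ξ ρ a)) (evO_one ρ)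
    (fun a ha b hb => ?_) fun r hr => ?_, fun D => h E μ (fun a => D (μ a)) (map_one μ)
      (fun a _ b _ => ?_) fun r hr => ?_⟩
  · simp only [evO_add ρ (le ha) (le hb), evO_mul ρ (le ha) (le hb), map_add, Derivation.leibniz,
      smul_eq_mul, and_self]
  · obtain ⟨e, -, he⟩ := L.res
    have := he ⟨r, hr⟩
    change D (evO ξ ρ r) = 0
    rw [this, Derivation.map_algebraMap]
  · simp only [map_add, map_mul, Derivation.leibniz, smul_eq_mul, and_self]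
  · obtain ⟨c, hc⟩ := G.base r hr
    rw [← hc, Derivation.map_algebraMap]

theorem indep (L : Ln R H ξ ρ S) (G : Gm R H μ S') (hx : x ∈ ξ) (hy : y ∈ ξ)
    (h : AlgebraicIndependent k ![evO ξ ρ x, evO ξ ρ y]) : AlgebraicIndependent Ω ![μ x, μ y] := by
  rw [ai_iff] at h ⊢
  have m : ∀ d : Fin 2 →₀ ℕ, x ^ d 0 * y ^ d 1 ∈ ξ := fun d =>
    ξ.mul_mem (ξ.pow_mem hx _) (ξ.pow_mem hy _)
  have e1 : (fun d : Fin 2 →₀ ℕ => d.prod fun i n => ![evO ξ ρ x, evO ξ ρ y] i ^ n) =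
      fun d : Fin 2 →₀ ℕ => evO ξ ρ (x ^ d 0 * y ^ d 1) := funext fun d => by
    rw [evO_mul ρ (ξ.pow_mem hx _) (ξ.pow_mem hy _), evO_pow ρ hx, evO_pow ρ hy,
      Finsupp.prod_fintype _ _ fun _ => pow_zero _, Fin.prod_univ_two]
    rfl
  have e2 : (fun d : Fin 2 →₀ ℕ => d.prod fun i n => ![μ x, μ y] i ^ n) =
      fun d : Fin 2 →₀ ℕ => μ (x ^ d 0 * y ^ d 1) := funext fun d => by
    rw [map_mul, map_pow, map_pow, Finsupp.prod_fintype _ _ fun _ => pow_zero _, Fin.prod_univ_two]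
    rfl
  rw [e1] at h
  rw [e2]
  exact G.ld _ _ (L.ind _ _ m h)

end Can2

open Can2 in
theorem can2_stmt : Can2Stmt := by
  intro h1 k F M Ω E I J _ _ _ _ _ _ _ _ _ _ _ _ _ _ _ R H ξ ρ S μ S' L G
  obtain ⟨u, w, hc⟩ := L.mf.all.a1.chart ⊤ L.mf.all.a1.nice.toFine.top
  obtain ⟨u', w', hc'⟩ := G.mf.all.a1.chart ⊤ G.mf.all.a1.nice.toFine.top
  obtain ⟨D₁, D₂, hD⟩ := ders hc.1
  obtain ⟨D₁', D₂', hD'⟩ := ders hc'.1
  obtain ⟨⟨x, hx⟩, rfl⟩ := L.surj u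
  obtain ⟨⟨y, hy⟩, rfl⟩ := L.surj w
  rw [← evO_of_mem ρ hx, ← evO_of_mem ρ hy] at hc hD
  have c0 := can h1 L G L.fib.mem L.fib.dom hx hy (L.top.symm ▸ hc)
  have c1 : ∀ f : F, ∃ p q : F, (∀ D : Derivation Ω E E, D (μ f) = μ p * D (μ x) + μ q * D (μ y)) ∧
      (f ∈ ξ → p ∈ ξ ∧ q ∈ ξ ∧ ∀ D : Derivation k M M, D (evO ξ ρ f) =
        evO ξ ρ p * D (evO ξ ρ x) + evO ξ ρ q * D (evO ξ ρ y)) := fun f => by
    by_cases hf : f ∈ ξ
    · obtain ⟨p, hp, q, hq, e1, e2⟩ := c0 f hf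
      exact ⟨p, q, e2, fun _ => ⟨hp, hq, e1⟩⟩
    · obtain ⟨a, ha, b, hb, h0, rfl⟩ := L.xb.frac ξ L.fib.mem f
      obtain ⟨p, -, q, -, -, e1⟩ := c0 a ha
      obtain ⟨p', -, q', -, -, e2⟩ := c0 b hb
      refine ⟨(b * p - a * p') / b ^ 2, (b * q - a * q') / b ^ 2, fun D => ?_,
        fun h => absurd h hf⟩
      have : μ b ≠ 0 := (map_ne_zero μ).2 h0
      simp only [map_div₀, map_sub, map_mul, map_pow, Derivation.leibniz_div, e1, e2, smul_eq_mul]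
      field_simp
      ring
  choose P Q hE hM using c1
  have n' := G.mf.all.jc.ne D₁' D₂' u' w' (μ x) (μ y) hc'.1 hD' (indep L G hx hy hc.1.ind)
  have g : ∀ a b, μ (P a * Q b - Q a * P b) * jac D₁' D₂' (μ x) (μ y) = jac D₁' D₂' (μ a) (μ b) :=
    fun a b => by
      rw [map_sub, map_mul, map_mul]
      exact jac_eq (hE a) (hE b) _ _
  refine ⟨D₁, D₂, D₁', D₂', _, _, fun a b => P a * Q b - Q a * P b, hD, n',
    fun a b h => L.mf.all.jc.ne D₁ D₂ _ _ a b hc.1 hD h.ind,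
    fun a b h => G.mf.all.jc.ne D₁' D₂' _ _ a b hc'.1 hD' h.ind, g, fun a ha b hb => ?_,
    fun O hO hd x' hx' y' hy' hc'' a ha b hb => ?_⟩
  · obtain ⟨a1, a2, a3⟩ := hM a ha
    obtain ⟨b1, b2, b3⟩ := hM b hb
    refine ⟨ξ.sub_mem (ξ.mul_mem a1 b2) (ξ.mul_mem a2 b1), ?_⟩
    rw [evO_sub ρ (ξ.mul_mem a1 b2) (ξ.mul_mem a2 b1), evO_mul ρ a1 b2, evO_mul ρ a2 b1]
    exact jac_eq a3 b3 _ _
  · obtain ⟨p, hp, q, hq, -, e1⟩ := can h1 L G hO hd hx' hy' hc'' a ha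
    obtain ⟨p', hp', q', hq', -, e2⟩ := can h1 L G hO hd hx' hy' hc'' b hb
    refine ⟨p * q' - q * p', O.sub_mem (O.mul_mem hp hq') (O.mul_mem hq hp'),
      (μ : F →+* E).injective (mul_right_cancel₀ n' ?_)⟩
    change μ _ * _ = μ _ * _
    rw [g, map_mul μ (p * q' - q * p'), mul_assoc, g, map_sub, map_mul, map_mul]
    exact (jac_eq e1 e2 _ _).symm

end Pool.Agent.MP_e8e0b6_ag.R2
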