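import Pool.Agent.MP_e8e0b6_ag.R2.SpecA

/-!
The canonical classes of the two fibres come from one line bundle on the family.
-/

set_option autoImplicit false

namespace Pool.Agent.MP_e8e0b6_ag.R2

open Pool.Agent.MP_79c67d_ag Pool.Agent.MP_20d318_ag Pool.Agent.MP_20d318_ag.AG
  Pool.Agent.MP_20d318_ag.BV Pool.Agent.MP_20d318_ag.CB
open Pool.Agent.MP_20d318_ag.RS (jac)

namespace Can3

theorem jac_div {Ω E : Type} [Field Ω] [Field E] [Algebra Ω E] (D₁ D₂ : Derivation Ω E E)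
    (a b c : E) (hc : c ≠ 0) : c ^ 3 * jac D₁ D₂ (a / c) (b / c) =
      c * jac D₁ D₂ a b - b * jac D₁ D₂ a c - a * jac D₁ D₂ c b := by
  simp only [jac, Derivation.leibniz_div, smul_eq_mul]
  field_simp
  ring

variable {k F M Ω E I J : Type} [Field k] [Field F] [Field M] [Field Ω] [Field E] [Algebra k F]
  [Algebra k M] [Algebra k E] [Algebra Ω E] [Fintype I] [Fintype J]
  {R : Subalgebra k F} {H : Set F} {ξ : Subalgebra k F} {ρ : ξ →ₐ[k] M} {S : Sd k M I}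
  {μ : F →ₐ[k] E} {D₁ D₂ : Derivation k M M} {D₁' D₂' : Derivation Ω E E} {j₀ : M} {j₀' : E}
  {J₀ : F → F → F}

theorem gn_up {O : Subalgebra k F} {O' : Subalgebra Ω E} (h : ∀ a ∈ O, μ a ∈ O') {U : Set F}
    {g : F} (hg : Gn U O g) : Gn (μ '' U) O' (μ g) := by
  obtain ⟨a, ha, u⟩ := hg.2
  refine ⟨?_, μ a, ⟨a, ha, rfl⟩, ?_⟩
  · rintro _ ⟨b, hb, rfl⟩
    rw [← map_div₀]
    exact h _ (hg.1 b hb)
  · rw [← map_div₀]
    exact ⟨by simpa using u.1, h _ u.2.1, by rw [← map_inv₀]; exact h _ u.2.2⟩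

/-- The system of Jacobians of ratios. -/
def UU (H : Set F) (J₀ : F → F → F) : Set F :=
  (fun p : F × F × F => p.2.2 ^ 3 * J₀ (p.1 / p.2.2) (p.2.1 / p.2.2)) '' (H ×ˢ H ×ˢ H)

theorem J_div (hJ : Jf (Ω := Ω) R H ξ ρ μ D₁ D₂ D₁' D₂' j₀ j₀' J₀) (a b c j : F) (hc : c ≠ 0)
    (hj : j ≠ 0) : c ^ 3 * J₀ (a / c) (b / c) = j ^ 3 * (c / j * J₀ (a / j) (b / j) -
      b / j * J₀ (a / j) (c / j) - a / j * J₀ (c / j) (b / j)) := by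
  have e : ∀ a b, μ (J₀ a b) = jac D₁' D₂' (μ a) (μ b) / j₀' := fun a b =>
    eq_div_of_mul_eq hJ.ne' (hJ.g a b)
  have hc' : μ c ≠ 0 := by simpa using hc
  have hj' : μ j ≠ 0 := by simpa using hj
  have key := jac_div D₁' D₂' (μ a / μ j) (μ b / μ j) (μ c / μ j) (div_ne_zero hc' hj')
  rw [div_div_div_cancel_right₀ hj', div_div_div_cancel_right₀ hj'] at key
  have hinj : Function.Injective μ := μ.toRingHom.injective
  apply hinj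
  simp only [map_mul, map_sub, map_pow, e, map_div₀]
  rw [← mul_div_assoc, ← mul_div_assoc, ← mul_div_assoc, ← mul_div_assoc, ← sub_div, ← sub_div,
    ← key]
  field_simp

theorem closed (L : Ln R H ξ ρ S) (hJ : Jf (Ω := Ω) R H ξ ρ μ D₁ D₂ D₁' D₂' j₀ j₀' J₀) {ψ : M}
    (hψ : ∀ O ∈ S.T, (∀ x y, Cht O x y → IsU O (jac D₁ D₂ x y * S.lb S.K O / ψ)) ∧
      ∀ j, Gn (evO ξ ρ '' H \ {0}) O j → j ∈ evO ξ ρ '' H \ {0} → ∃ a ∈ evO ξ ρ '' H \ {0},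
        ∃ b ∈ evO ξ ρ '' H \ {0}, IsU O (jac D₁ D₂ (a / j) (b / j) * S.lb S.K O / ψ))
    {O : Subalgebra k F} (hO : O ∈ XX R H) (hd : Dom R O) : ∃ j w, Gn H O j ∧
      Gn (UU H J₀) O (j ^ 3 * w) ∧ IsU ξ w ∧
      IsU (red ξ ρ O) (evO ξ ρ w * j₀ * S.lb S.K (red ξ ρ O) / ψ) := by
  have hle : O ≤ ξ := L.fib.le O hO hd
  have hT : red ξ ρ O ∈ S.T := L.eq ▸ ⟨O, ⟨hO, hd⟩, rfl⟩
  obtain ⟨j, hj, g⟩ := L.xb.gn O hO
  obtain ⟨uj, g'⟩ := L.gnU O hO hd j g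
  obtain ⟨x', y', hc⟩ := L.mf.all.a1.chart _ hT
  obtain ⟨x, hx, rfl⟩ := (L.mem O hle x').1 (hc.2.2.1 (Algebra.subset_adjoin (by simp)))
  obtain ⟨y, hy, rfl⟩ := (L.mem O hle y').1 (hc.2.2.1 (Algebra.subset_adjoin (by simp)))
  have u1 := (hψ _ hT).1 _ _ hc
  obtain ⟨w1, w2⟩ := hJ.s x (hle hx) y (hle hy)
  rw [← w2] at u1
  have w0 : evO ξ ρ (J₀ x y) ≠ 0 := fun e => u1.1 (by simp [e])
  have uw : IsU ξ (J₀ x y) := isU_of_not_mx w1 fun h => w0 ((L.lh.eq_zero_iff w1).2 h)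
  have ho := hJ.o O hO hd x hx y hy hc
  refine ⟨j, J₀ x y, g, ⟨?_, ?_⟩, uw, u1⟩
  · rintro _ ⟨⟨a, b, c⟩, ⟨ha, hb, hc'⟩, rfl⟩
    obtain ⟨r1, h1, e1⟩ := ho _ (g.1 a ha) _ (g.1 b hb)
    obtain ⟨r2, h2, e2⟩ := ho _ (g.1 a ha) _ (g.1 c hc')
    obtain ⟨r3, h3, e3⟩ := ho _ (g.1 c hc') _ (g.1 b hb)
    have := O.sub_mem (O.sub_mem (O.mul_mem (g.1 c hc') h1) (O.mul_mem (g.1 b hb) h2))
      (O.mul_mem (g.1 a ha) h3)
    convert this using 1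
    dsimp only
    rw [J_div hJ a b c j (L.fm.nz c hc') g.ne, e1, e2, e3]
    have := g.ne
    have := uw.1
    field_simp
  · obtain ⟨_, ⟨⟨a, ha, rfl⟩, -⟩, _, ⟨⟨b, hb, rfl⟩, -⟩, u2⟩ :=
      (hψ _ hT).2 _ g' ⟨⟨j, hj, rfl⟩, evO_ne ρ uj⟩
    obtain ⟨r, hr, e⟩ := ho _ (g.1 a ha) _ (g.1 b hb)
    refine ⟨_, ⟨(a, b, j), ⟨ha, hb, hj⟩, rfl⟩, ?_⟩
    rw [← evO_div ρ (L.sub a ha) uj, ← evO_div ρ (L.sub b hb) uj,
      ← (hJ.s _ (hle (g.1 a ha)) _ (hle (g.1 b hb))).2, e, evO_mul ρ (hle hr) w1] at u2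
    have u3 : IsU O r := (L.isU O hO hd r hr).1 (by
      convert u2.div u1 using 1
      rw [mul_assoc, mul_assoc, mul_div_assoc, mul_div_assoc, ← mul_assoc (evO ξ ρ (J₀ x y)),
        div_self u1.1, mul_one])
    convert u3 using 1
    dsimp only
    rw [e]
    have := g.ne
    have := uw.1
    field_simp

end Can3

open Can3 in
theorem can3_stmt : Can3Stmt := by
  intro h0 h2 k F M Ω E I J _ _ _ _ _ _ _ _ _ _ _ _ _ _ _ R H ξ ρ S μ S' L G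
  obtain ⟨D₁, D₂, D₁', D₂', j₀, j₀', J₀, hJ⟩ := h2 k F M Ω E I J R H ξ ρ S μ S' L G
  obtain ⟨ψ, ψ0, hψ⟩ := h0 k M I S _ D₁ D₂ L.mf.all L.eqT (fun a ha => ha.2) hJ.n
  obtain ⟨ψ', ψ0', hψ'⟩ := h0 Ω E J S' _ D₁' D₂' G.mf.all G.eq (by
    rintro _ ⟨a, ha, rfl⟩
    simpa using L.fm.nz a ha) hJ.n'
  have hc := fun O => closed (O := O) L hJ fun O hO => ⟨(hψ O hO).1, fun j g => ((hψ O hO).2 j g).2⟩
  have hU : Sys (XX R H) (UU H J₀) := by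
    refine ⟨(L.fm.fin.prod (L.fm.fin.prod L.fm.fin)).image _, fun O hO => ?_⟩
    obtain ⟨O₁, h1, d1, hle⟩ := L.spc O hO
    obtain ⟨j, w, -, g, -⟩ := hc O₁ h1 d1
    exact g.prin.mono hle
  obtain ⟨u, hu⟩ := L.surj (ψ / j₀)
  have uu : IsU ξ u := L.lh u (by rw [hu]; exact div_ne_zero ψ0 hJ.ne)
  rw [← evO_coe] at hu
  refine ⟨fun O => u * (gn H O ^ 3 / gn (UU H J₀) O), ?_, ⟨μ u * j₀' / ψ', ?_, ?_⟩, ?_⟩
  · convert ((L.xb.sys.dt.inv.pow 3).mul hU.dt).scal uu.1 using 3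
    simp [div_eq_mul_inv]
  · exact div_ne_zero (mul_ne_zero (by simpa using uu.1) hJ.ne') ψ0'
  · intro O' hO' O hO hm
    obtain ⟨j, hj, g⟩ := L.xb.gn O hO
    obtain ⟨c1, c2⟩ := (hψ' O' hO').2 _ (gn_up hm g)
    obtain ⟨_, ⟨a, ha, rfl⟩, _, ⟨b, hb, rfl⟩, u1⟩ := c2 ⟨j, hj, rfl⟩
    have l0 : S'.lb S'.K O' ≠ 0 := fun e => u1.1 (by simp [e])
    have j0 := (gn_up hm g).ne
    have n0 := hJ.ne'
    have e : ∀ a b c : F, μ (c ^ 3 * J₀ (a / c) (b / c)) / (μ j ^ 3 * ψ' / (S'.lb S'.K O' * j₀')) =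
        μ c ^ 3 * jac D₁' D₂' (μ a / μ c) (μ b / μ c) * S'.lb S'.K O' / (μ j ^ 3 * ψ') := by
      intro a b c
      rw [← map_div₀, ← map_div₀, ← hJ.g, map_mul, map_pow]
      field_simp
    have g1 : Gn (μ '' UU H J₀) O' (μ j ^ 3 * ψ' / (S'.lb S'.K O' * j₀')) := by
      refine ⟨?_, _, ⟨_, ⟨(a, b, j), ⟨ha, hb, hj⟩, rfl⟩, rfl⟩, ?_⟩
      · rintro _ ⟨_, ⟨⟨a, b, c⟩, ⟨ha, hb, hc'⟩, rfl⟩, rfl⟩
        exact e a b c ▸ c1 _ ⟨a, ha, rfl⟩ _ ⟨b, hb, rfl⟩ _ ⟨c, hc', rfl⟩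
      · rw [e]
        convert u1 using 1
        field_simp
    have g2 := gn_up hm (gn_spec (hU.2 O hO))
    have g3 := gn_up hm (gn_spec g.prin)
    convert ((g3.unit (gn_up hm g)).pow 3).mul (g1.unit g2) using 1
    have := g2.ne
    have : μ u ≠ 0 := by simpa using uu.1
    simp only [map_mul, map_div₀, map_pow]
    field_simp
  · intro O hO hd
    obtain ⟨j, w, g, g1, uw, u1⟩ := hc O hO hd
    have hle : O ≤ ξ := L.fib.le O hO hd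
    have v := (((gn_spec g.prin).unit g).pow 3).mul (g1.unit (gn_spec g1.prin))
    have e : (u : F) * (gn H O ^ 3 / gn (UU H J₀) O) =
        (gn H O / j) ^ 3 * (j ^ 3 * w / gn (UU H J₀) O) * (u / w) := by
      have := g.ne
      have := uw.1
      field_simp
    dsimp only
    rw [e]
    refine ⟨(v.mono hle).mul (uu.div uw), ?_⟩
    rw [evO_mul ρ (hle v.2.1) (uu.div uw).2.1, evO_div ρ uu.2.1 uw, hu]
    convert ((L.isU O hO hd _ v.2.1).2 v).div u1 using 1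
    have := evO_ne ρ uw
    have := hJ.ne
    field_simp

end Pool.Agent.MP_e8e0b6_ag.R2
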