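import Pool.Agent.MP_e8e0b6_ag.R2.SpecS

/-!
A family whose finite sets of points lie in affine planes is cellular.
-/

set_option autoImplicit false

open AlgebraicGeometry CategoryTheory

namespace Pool.Agent.MP_e8e0b6_ag.R2

open Pool.Agent.MP_79c67d_ag Pool.Agent.MP_20d318_ag Pool.Agent.MP_20d318_ag.AG
  Pool.Agent.MP_20d318_ag.BV Pool.Agent.MP_20d318_ag.CB

namespace CellP

variable {k A F : Type} [Field k] [CommRing A] [Algebra k A] [Field F] [Algebra k F]
  {g : A →ₐ[k] F} {H : Set F} {Y : Scheme.{0}} {q : Y ⟶ Spec (.of A)} {η : Spec (.of F) ⟶ Y}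
  {j : ∀ a : H, Spec (.of (ch g.range H a)) ⟶ Y} {e : A →ₐ[k] k}

/-- The local ring of a rational point. -/
theorem pt (h1 : PtsStmt) (L : Lk g H q η j) (y : Spec (.of k) ⟶ Y)
    (hy : y ≫ q = sp (e : A →+* k)) : ∃ O ∈ XX (lp g e) H, AG.Dom (lp g e) O ∧
      ∃ (ρ : O →+* k) (ψ : Spec (.of O) ⟶ Y), sp (O.val : O →+* F) ≫ ψ = η ∧ sp ρ ≫ ψ = y := by
  obtain ⟨a, θ, rfl, hθ⟩ := h1 k A F g H Y q η j L k y e hy
  have m : ∀ p, g p ∈ ch g.range H a := fun p => le_sup_left (α := Subalgebra k F) ⟨p, rfl⟩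
  let θ' : ch g.range H a →ₐ[k] k :=
    { θ with
      commutes' := fun c => by
        have := hθ (algebraMap k A c) (m _)
        simp only [AlgHom.commutes, RingHom.coe_coe] at this
        exact this }
  obtain ⟨O, hO, ρ, lh, hρ⟩ := exists_ext θ'
  have ev : ∀ p, evO O ρ (g p) = e p := fun p => by
    rw [hρ _ (m p), evO_of_mem θ' (m p)]
    exact hθ p (m p)
  have un : ∀ p, IsU O (g p) ↔ e p ≠ 0 := fun p => by
    rw [← ev, ne_eq, lh.eq_zero_iff (hO.2.1 (m p))]
    exact ⟨fun h => h.not_mx, isU_of_not_mx (hO.2.1 (m p))⟩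
  have le : lp g e ≤ O := by
    rintro f ⟨p, r, hr, h⟩
    have hu := (un r).2 hr
    rw [eq_div_of_mul_eq hu.ne h]
    exact hu.div_mem (hO.2.1 (m p))
  refine ⟨O, C.xx_base ⟨a, a.2, hO⟩ range_le_lp le, ⟨le, ?_⟩, ρ,
    sp (Subalgebra.inclusion hO.2.1 : ch g.range H a →+* O) ≫ j a, ?_, ?_⟩
  · rintro f ⟨p, r, hr, h⟩ hf
    have hu := (un r).2 hr
    have h2 := hf.mul hu
    rw [show f * g r = g p from h, un] at h2
    rw [eq_div_of_mul_eq hu.ne h]
    exact ((isU_lp L.inj).2 h2).div ((isU_lp L.inj).2 hr)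
  · rw [sp_comp_assoc]
    exact L.gen a
  · rw [sp_comp_assoc]
    congr 2
    ext z
    have := hρ z z.2
    rw [evO_of_mem ρ (hO.2.1 z.2), evO_coe] at this
    exact this

/-- The plane over a basic open subset of the base. -/
theorem iso (hg : Function.Injective g) {t : A} (ht : e t ≠ 0) {c : F × F}
    (hc : AlgebraicIndependent (lp g e) ![c.1, c.2]) (B : Subalgebra k F)
    (hB : B = g.range ⊔ Algebra.adjoin k {(g t)⁻¹, c.1, c.2}) :
    ∃ β : MvPolynomial (Fin 2) (Localization.Away t) ≃+* B,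
      ∀ a, (β (MvPolynomial.C (algebraMap A _ a)) : F) = g a := by
  have hu : IsU (lp g e) (g t) := (isU_lp hg).2 ht
  let g' : Localization.Away t →+* F :=
    IsLocalization.Away.lift t (g := (g : A →+* F)) (Ne.isUnit hu.ne)
  have h0 : ∀ a, g' (algebraMap A _ a) = g a := fun a => IsLocalization.Away.lift_eq _ _ _
  have h1 : ∀ z, ∃ (n : ℕ) (a : A), g' z = g a * (g t)⁻¹ ^ n ∧ (a = 0 → z = 0) := fun z => by
    obtain ⟨n, a, h⟩ := IsLocalization.Away.surj t z
    refine ⟨n, a, ?_, fun h2 => ?_⟩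
    · have := congrArg g' h
      rw [map_mul, map_pow, h0, h0] at this
      rw [inv_pow, ← div_eq_mul_inv, eq_div_iff (pow_ne_zero n hu.ne), this]
    · rw [h2, map_zero] at h
      exact ((IsLocalization.Away.algebraMap_isUnit t).pow n).mul_left_eq_zero.1 h
  have gi : Function.Injective g' := (injective_iff_map_eq_zero _).2 fun z hz => by
    obtain ⟨n, a, h, h2⟩ := h1 z
    rw [hz, eq_comm, mul_eq_zero, or_iff_left (pow_ne_zero n (inv_ne_zero hu.ne))] at h
    exact h2 (hg (h.trans (map_zero g).symm))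
  have mem : ∀ D : Subalgebra k F, g.range ≤ D → (g t)⁻¹ ∈ D → ∀ z, g' z ∈ D := fun D a b z => by
    obtain ⟨n, p, h, -⟩ := h1 z
    exact h ▸ D.mul_mem (a ⟨p, rfl⟩) (D.pow_mem b n)
  let β : MvPolynomial (Fin 2) (Localization.Away t) →+* F := MvPolynomial.eval₂Hom g' ![c.1, c.2]
  have bi : Function.Injective β := by
    let r : Localization.Away t →+* lp g e := g'.codRestrict (lp g e) (mem _ range_le_lp hu.inv_mem)
    have e1 : β = (MvPolynomial.aeval ![c.1, c.2] : _ →ₐ[lp g e] F).toRingHom.comp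
        (MvPolynomial.map r) := by
      refine MvPolynomial.ringHom_ext (fun z => ?_) fun i => by simp [β]
      simp [β, r]
    rw [e1, RingHom.coe_comp]
    exact Function.Injective.comp (algebraicIndependent_iff_injective_aeval.1 hc)
      (MvPolynomial.map_injective r fun x y h => gi (congrArg Subtype.val h))
  have l1 : g.range ≤ B := hB ▸ le_sup_left
  have l2 : ∀ z ∈ ({(g t)⁻¹, c.1, c.2} : Set F), z ∈ B := fun z hz =>
    hB ▸ le_sup_right (α := Subalgebra k F) (Algebra.subset_adjoin hz)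
  have bm : ∀ p, β p ∈ B := fun p => by
    induction p using MvPolynomial.induction_on with
    | C z => simpa [β] using mem B l1 (l2 _ (by simp)) z
    | add p r hp hr => rw [map_add]; exact B.add_mem hp hr
    | mul_X p i hp =>
      rw [map_mul]
      refine B.mul_mem hp (l2 _ ?_)
      fin_cases i <;> simp [β]
  have bC : ∀ a, β (MvPolynomial.C (algebraMap A _ a)) = g a := fun a => by simp [β, h0]
  let D : Subalgebra k F :=
    { β.range with
      algebraMap_mem' := fun x => ⟨_, (bC (algebraMap k A x)).trans (g.commutes x)⟩ }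
  have bs : B ≤ D := by
    rw [hB]
    refine sup_le (by rintro _ ⟨a, rfl⟩; exact ⟨_, bC a⟩) (Algebra.adjoin_le ?_)
    rintro _ (rfl | rfl | rfl)
    · refine ⟨MvPolynomial.C (IsLocalization.Away.invSelf t), ?_⟩
      have := congrArg g' (IsLocalization.Away.mul_invSelf (S := Localization.Away t) t)
      rw [map_mul, h0, map_one] at this
      simpa [β] using eq_inv_of_mul_eq_one_right this
    · exact ⟨MvPolynomial.X 0, by simp [β]⟩
    · exact ⟨MvPolynomial.X 1, by simp [β]⟩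
  exact ⟨RingEquiv.ofBijective (β.codRestrict B bm) ⟨fun x y h => bi (congrArg Subtype.val h),
    fun z => (bs z.2).imp fun p h => Subtype.ext h⟩, bC⟩

end CellP

open CellP in
theorem cell_stmt (h1 : PtsStmt) (h2 : OiStmt) (h3 : CellrStmt) : CellStmt := by
  intro k A F _ _ _ _ _ _ g H Y q η j et L fm cho s hs Ys hY hYs
  obtain ⟨e₀, rfl⟩ := sp_surj s
  rw [sp_comp, ← sp_id] at hs
  let e : A →ₐ[k] k := { e₀ with commutes' := DFunLike.congr_fun (sp_inj hs) }
  choose O hO hd ρ ψ hψ hρ using fun y : Ys => pt (e := e) h1 L y (hYs y y.2)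
  have := hY.to_subtype
  obtain ⟨c, ai, fc, pc, sub⟩ := cho e (Set.range O) (by rintro _ ⟨y, rfl⟩; exact hO y)
    (Set.finite_range O) (by rintro _ ⟨y, rfl⟩; exact hd y)
  have lz := lp_lz (e := e) L.inj
  obtain ⟨_, ⟨t, rfl⟩, hu, hx⟩ := h3 k F g.range (lp g e) H c fm lz sub
  change IsU (lp g e) (g t) at hu
  have ht : e t ≠ 0 := (isU_lp L.inj).1 hu
  obtain ⟨B, hB⟩ : ∃ B, B = g.range ⊔ Algebra.adjoin k {(g t)⁻¹, c.1, c.2} := ⟨_, rfl⟩
  have l1 : g.range ≤ B := hB ▸ le_sup_left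
  have l2 : ∀ z ∈ ({(g t)⁻¹, c.1, c.2} : Set F), z ∈ B := fun z hz =>
    hB ▸ le_sup_right (α := Subalgebra k F) (Algebra.subset_adjoin hz)
  have l3 : pl g.range c ≤ B := C.pl_le l1 (l2 _ (by simp)) (l2 _ (by simp))
  have l4 : ∀ D : Subalgebra k F, g.range ≤ D → (g t)⁻¹ ∈ D → c.1 ∈ D → c.2 ∈ D → B ≤ D :=
    fun D a1 a2 a3 a4 => hB ▸ sup_le a1 (Algebra.adjoin_le (by
      rintro _ (rfl | rfl | rfl) <;> assumption))
  have fB : Frac B := fun f => by
    have k1 : pl (lp g e) c ≤ fr B ⊤ := by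
      refine C.pl_le (fun z hz => ?_) (C.le_fr (l2 _ (by simp))) (C.le_fr (l2 _ (by simp)))
      obtain ⟨a, ha, b, hb, u, rfl⟩ := lz.2 z hz
      exact C.mem_fr (l1 ha) (l1 hb) (u.mono le_top)
    obtain ⟨a, ha, b, hb, h0, rfl⟩ := fc f
    obtain ⟨x, hx, y, hy, u, h⟩ := div_mem_fr (k1 ha) (k1 hb) le_top
      ⟨h0, Algebra.mem_top, Algebra.mem_top⟩
    exact ⟨x, hx, y, hy, u.ne, h⟩
  obtain ⟨Φ, oΦ, hΦ⟩ := h2 k A F g H Y q η j L B _ (Set.toFinite _) hB fB fun P hP => by
    have u : IsU P (g t) := ⟨hu.ne, hP.2.1 (l1 ⟨t, rfl⟩), hP.2.1 (l2 _ (by simp))⟩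
    refine hx P (C.pts2 hP (l3.trans hP.2.1) (l4 _ (C.le_pl.trans C.le_fr) ?_
      (C.le_fr C.fst_mem) (C.le_fr C.snd_mem))) u
    exact inv_mem_fr (C.le_fr (C.le_pl ⟨t, rfl⟩)) (l3.trans hP.2.1) u
  obtain ⟨β, hβ⟩ := iso L.inj ht ai B hB
  have le := powers_le_nonZeroDivisors_of_noZeroDivisors fun h : t = 0 => ht (by rw [h, map_zero])
  have : IsDomain (Localization.Away t) := IsLocalization.isDomain_of_le_nonZeroDivisors _ le
  have : IsIso (sp (β.symm : B →+* MvPolynomial (Fin 2) (Localization.Away t))) :=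
    inferInstanceAs (IsIso (Spec.map β.symm.toCommRingCatIso.hom))
  have := L.sep
  let x : Localization.Away t →ₐ[k] k := IsLocalization.liftAlgHom (M := .powers t) (f := e) (by
    rintro ⟨_, i, rfl⟩
    exact Ne.isUnit (by rw [map_pow]; exact pow_ne_zero _ ht))
  have hx : sp (x : Localization.Away t →+* k) ≫ sp (algebraMap A (Localization.Away t)) =
      sp e₀ := by
    rw [sp_comp]
    congr 1
    ext a
    exact IsLocalization.lift_eq _ _
  let cl : T.Cell (sp (algebraMap k A)) q 2 :=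
    { B := Localization.Away t
      et := et.away t _
      e := x
      j := sp (algebraMap A (Localization.Away t))
      h := sp (β.symm : B →+* MvPolynomial (Fin 2) (Localization.Away t)) ≫ Φ
      base := by rw [sp_comp, ← IsScalarTower.algebraMap_eq]
      proj := by
        obtain ⟨r, hr⟩ := sp_surj (Φ ≫ q)
        have k1 := L.base
        rw [← hΦ, Category.assoc, ← hr, sp_comp] at k1
        rw [Category.assoc, ← hr, sp_comp, sp_comp]
        congr 1
        refine RingHom.ext fun a => β.injective (Subtype.ext ?_)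
        refine Eq.trans ?_ (hβ a).symm
        rw [← show (r a : F) = g a from DFunLike.congr_fun (sp_inj k1) a]
        simp }
  refine ⟨cl, hx, fun y hy => cl.has_of_range ?_ ((hYs y hy).trans hx.symm)⟩
  have hP := pc _ ⟨⟨y, hy⟩, rfl⟩
  have hle : B ≤ O ⟨y, hy⟩ := l4 _ (range_le_lp.trans (hd _).1) (hu.mono (hd _).1).inv_mem
    (hP.2.1 C.fst_mem) (hP.2.1 C.snd_mem)
  have k1 : sp (Subalgebra.inclusion hle : B →+* O ⟨y, hy⟩) ≫ Φ = ψ ⟨y, hy⟩ :=
    ext_sp (r := ((O ⟨y, hy⟩).val : O ⟨y, hy⟩ →+* F)) Subtype.val_injective (by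
      rw [hψ, sp_comp_assoc]
      exact hΦ)
  have k2 : sp (((ρ ⟨y, hy⟩).comp (Subalgebra.inclusion hle : B →+* O ⟨y, hy⟩)).comp
      (β : MvPolynomial (Fin 2) (Localization.Away t) →+* B)) ≫ cl.h = y := by
    change _ ≫ _ ≫ Φ = y
    rw [sp_comp_assoc, RingHom.comp_assoc, RingEquiv.comp_symm, RingHom.comp_id, ← sp_comp_assoc,
      k1]
    exact hρ _
  rw [← k2]
  exact ⟨_, rfl⟩

end Pool.Agent.MP_e8e0b6_ag.R2
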