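import Pool.Agent.MP_e8e0b6_ag.R2.SpecS

/-!
Row CELLR: an affine plane over a ring of fractions spreads out.
-/

set_option autoImplicit false

namespace Pool.Agent.MP_e8e0b6_ag.R2

open Pool.Agent.MP_79c67d_ag Pool.Agent.MP_20d318_ag Pool.Agent.MP_20d318_ag.AG
  Pool.Agent.MP_20d318_ag.BV Pool.Agent.MP_20d318_ag.CB

theorem cellr_stmt (h1 : LzStmt) (h2 : SprStmt) (h3 : Spr2Stmt) : CellrStmt := by
  intro k F _ _ _ C R H c hF hL hP
  classical
  have hR := (h1 k F C R H hL).2.2 hF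
  obtain ⟨s₀, m₀, u₀, p₀⟩ := h2 k F C R {c.1, c.2} H hL hF.fin fun O hO hle => by
    obtain ⟨P, hP', hd⟩ := exists_ctr hO hle
    obtain ⟨j, hj, h⟩ := hP hP'
    exact (gn_of_mem hj (hF.nz j hj) fun a ha => hd.1 (h.2.1 (R2.C.div_mem_ch ha))).prin
  choose s m u p using fun j : H => h3 k F C R ((fun a => a / (j : F)) '' H) {c.1, c.2} hL
    (Set.toFinite _) fun O hO hle => by
      rw [Algebra.adjoin_union, sup_le_iff, sup_le_iff] at hle
      obtain ⟨P, hP', hd⟩ := exists_ctr hO (sup_le hle.1 hle.2.2)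
      obtain ⟨P', hP'', hd'⟩ := exists_ctr hO (sup_le hle.1 hle.2.1)
      obtain rfl := R2.C.xx_sep hR (hP hP') ⟨j, j.2, hP''⟩ hd hd'
      intro z hz
      obtain ⟨a, ha, b, hb, hu, rfl⟩ := hP''.2.2 z
        (hP'.2.1 ((le_sup_right : _ ≤ pl R c) (Algebra.subset_adjoin hz)))
      exact R2.C.mem_fr ha hb (hu.mono hd.1)
  have := hF.fin.fintype
  refine ⟨s₀ * ∏ j, s j, C.mul_mem m₀ (C.prod_mem fun j _ => m j), u₀.mul (isU_prod fun j _ => u j),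
    fun O hO hu => ?_⟩
  have hC : C ≤ O := le_sup_left.trans hO.2.1
  have mp : ∀ t : Finset H, ∏ j ∈ t, s j ∈ O := fun t => hC (C.prod_mem fun j _ => m j)
  obtain ⟨j, hj, hg⟩ := (p₀ O hO.1 hO.2.1 (IsU.of_mul (hC m₀) (mp _) hu)).exists_mem
  have hle : ch C H j ≤ O := R2.C.ch_le hC hg.1
  have h4 : IsU O (s ⟨j, hj⟩) := by
    rw [mul_comm, ← Finset.mul_prod_erase _ _ (Finset.mem_univ ⟨j, hj⟩), mul_assoc] at hu
    exact IsU.of_mul (hC (m _)) (O.mul_mem (mp _) (hC m₀)) hu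
  have h5 := p ⟨j, hj⟩ O hO.1 (by
    rw [Algebra.adjoin_union]
    exact sup_le hC (sup_le (le_sup_right.trans hle) (le_sup_right.trans hO.2.1))) h4
  exact ⟨j, hj, R2.C.pts2 hO hle (R2.C.pl_le (le_sup_left.trans R2.C.le_fr) (h5 (Or.inl rfl))
    (h5 (Or.inr rfl)))⟩

end Pool.Agent.MP_e8e0b6_ag.R2
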