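import Pool.Agent.MP_e8e0b6_ag.R2.SpecT

/-!
A system has a class.
-/

set_option autoImplicit false

open Polynomial

namespace Pool.Agent.MP_e8e0b6_ag.R2

open Pool.Agent.MP_79c67d_ag Pool.Agent.MP_20d318_ag Pool.Agent.MP_20d318_ag.AG
  Pool.Agent.MP_20d318_ag.BV Pool.Agent.MP_20d318_ag.CB

theorem clEx_stmt : ClExStmt := by
  intro k M I _ _ _ _ S U h hU hp
  obtain ⟨c, φ, h0, hu⟩ := h.a2.pic _
    (isCart_of_gn (f := gn U) hU fun O hO => gn_spec (hp O hO)).inv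
  refine ⟨c, φ⁻¹, inv_ne_zero h0, fun O hO => (gn_spec (hp O hO)).of_unit ?_⟩
  have e : φ⁻¹ * (S.lb c O)⁻¹ / gn U O = (φ * S.lb c O / (gn U)⁻¹ O)⁻¹ := by
    rw [Pi.inv_apply, div_inv_eq_mul, mul_inv, mul_inv, div_eq_mul_inv]
  rw [e]
  exact (hu O hO).inv

end Pool.Agent.MP_e8e0b6_ag.R2
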