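import Pool.Agent.MP_e8e0b6_ag.R2.CSpec

/-! Row CONE: an exceptional curve of least degree is contracted by a nef class. -/

set_option autoImplicit false

namespace Pool.Agent.MP_e8e0b6_ag.R2

open Pool.Agent.MP_79c67d_ag Pool.Agent.MP_20d318_ag.AG Pool.Agent.MP_20d318_ag.BV
open Pool.Agent.MP_20d318_ag.CB

namespace ConeL

/-- The first zero of a continuous function. -/
theorem first {f : ℝ → ℝ} (hf : Continuous f) (h0 : 0 < f 0) {s : ℝ} (hs : 0 ≤ s) (h : f s ≤ 0) :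
    ∃ t, 0 ≤ t ∧ t ≤ s ∧ f t = 0 ∧ ∀ u, 0 ≤ u → u < t → 0 < f u := by
  obtain ⟨t, ⟨⟨t0, t1⟩, t2⟩, ht⟩ :=
    (isCompact_Icc.inter_right (isClosed_le hf continuous_const)).exists_isLeast
      (⟨s, ⟨hs, le_rfl⟩, h⟩ : (Set.Icc 0 s ∩ {u | f u ≤ 0}).Nonempty)
  obtain ⟨u, ⟨u0, u1⟩, u2⟩ := intermediate_value_Icc' t0 hf.continuousOn ⟨t2, h0.le⟩
  refine ⟨t, t0, t1, ?_, fun v v0 v1 => lt_of_not_ge fun e => v1.not_ge (ht ⟨⟨v0, ?_⟩, e⟩)⟩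
  · rw [← le_antisymm u1 (ht ⟨⟨u0, u1.trans t1⟩, u2.le⟩), u2]
  · exact v1.le.trans t1

variable {k M I : Type} [Field k] [Field M] [Algebra k M] [Fintype I] (S : Sd k M I) (h : I → ℤ)

theorem cont : Continuous (Sq S h) := by
  unfold Sq Dh
  simp only [ip_add_left, ip_add_right, ip_smul_left, ip_smul_right]
  fun_prop

theorem zero : Sq S h 0 = (S.i h h : ℤ) := by
  rw [Sq, Dh, zero_smul, add_zero, ip_toR]

end ConeL

theorem cone_stmt : ConeStmt := by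
  intro hC hI hR k M I _ _ _ _ _ _ S h h1 h2 h3 h4 h5
  obtain ⟨e₀, a1, a2⟩ := h3.neg h5
  obtain ⟨τ, ⟨e, e1, e2, rfl⟩, hτ⟩ := Int.exists_least_of_bdd
    (P := fun z => ∃ e ∈ S.PP, Mo S e ∧ S.i h e = z)
    ⟨0, fun z ⟨e, e1, _, e3⟩ => e3 ▸ (h4.pos e e1).le⟩ ⟨_, e₀, a1, a2, rfl⟩
  have hl : Low S h (S.i h e) := fun c c1 c2 => hτ _ ⟨c, c1, c2, rfl⟩
  have h0 : (0 : ℝ) ≤ (S.i h e : ℤ) := by exact_mod_cast (h4.pos e e1).le
  have hp : ∀ s : ℝ, 0 ≤ s → s < (S.i h e : ℤ) → 0 < Sq S h s := fun s s0 s1 => by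
    by_contra hc
    obtain ⟨t, t0, t1, t2, t3⟩ := ConeL.first (ConeL.cont S h)
      (by rw [ConeL.zero]; exact_mod_cast h4.sq) s0 (not_lt.1 hc)
    have t4 := t1.trans_lt s1
    have n := hC k M I S h _ t h1 h2 h4 hl t0 t4.le t3
    by_cases hi : Irrational t
    · exact hI k M I S h _ t h1 h2 h4 hl h5 ⟨e, e1, e2⟩ t0 t4 hi n t2
    · exact hR k M I S h _ t h1 h2 h4 hl h5 ⟨e, e1, e2⟩ t0 t4 hi n t2
  refine ⟨e, e1, e2, fun c hc => ?_⟩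
  have n := hC k M I S h _ _ h1 h2 h4 hl h0 le_rfl hp c hc
  rw [Sd.i, ip_add_left, ip_smul_left]
  exact_mod_cast n

end Pool.Agent.MP_e8e0b6_ag.R2
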