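import Pool.Agent.MP_e8e0b6_ag.R2.CSpec

/-! Effectivity by Riemann-Roch, and effective classes `q h + j K` are nef. -/

set_option autoImplicit false

namespace Pool.Agent.MP_e8e0b6_ag.R2

open Pool.Agent.MP_79c67d_ag Pool.Agent.MP_20d318_ag.AG Pool.Agent.MP_20d318_ag.BV
open Pool.Agent.MP_20d318_ag.CB
open scoped IntermediateField

namespace ConeA

variable {k M I : Type} [Field k] [Field M] [Algebra k M] [Fintype I] {S : Sd k M I}

theorem nef_ef {c D : I → ℤ} (hc : c ∈ S.Ef) (hD : Nef S D) : 0 ≤ S.i D c := by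
  induction hc using AddSubmonoid.closure_induction with
  | mem c hc => exact hD c hc
  | zero => exact (ip_zero_right D).ge
  | add a b _ _ ha hb => exact (add_nonneg ha hb).trans_eq (ip_add_right D a b).symm

theorem neg_sq (h : SAll S) {c G : I → ℤ} (hc : c ∈ S.PP) (h0 : 0 ≤ S.i c c) (hG : G ∈ S.Ef) :
    0 ≤ S.i G c := by
  rw [Sd.i, ip_comm h.s.sym]
  refine nef_ef hG fun c' hc' => ?_
  by_cases e : c = c'
  · exact e ▸ h0
  · exact h.a2.pos c hc c' hc' e

theorem split (h : SAll S) {c : I → ℤ} (hc : c ∈ S.PP) (h0 : S.i c c < 0) :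
    0 ≤ S.i S.K c ∨ Mo S c := by
  have := h.a4.adj c hc
  unfold Mo Sd.i at *
  omega

end ConeA

open ConeA in
theorem coneA_stmt : ConeAStmt := by
  intro k M I _ _ _ _ _ _ S h hS hA
  refine ⟨fun c h1 h2 => ?_, fun c hc D hD => nef_ef hc hD, fun τ q j hL hq hj hτ hG c hc => ?_,
    fun τ t hL h0 ht c hc hn => ?_⟩
  · have h3 := hS.a4.rr2 c fun e => by
      have := nef_ef e fun c' hc' => (hA.pos c' hc').le
      rw [Sd.i, ip_sub_right] at this
      unfold Sd.i at h2
      omega
    have h4 : Nontrivial (S.Sec c) := Module.nontrivial_of_finrank_pos (R := k) (by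
      unfold Sd.h0 at h3
      omega)
    obtain ⟨φ, h5⟩ := exists_ne (0 : S.Sec c)
    exact hS.a2.eff1 c φ φ.2 fun e => h5 (Subtype.ext e)
  · rcases le_or_gt 0 (S.i c c) with h0 | h0
    · exact neg_sq hS hc h0 hG
    have h1 := hA.pos c hc
    rw [Sd.i, ip_add_left, ip_smul_left, ip_smul_left]
    rcases split hS hc h0 with h2 | h2
    · exact add_nonneg (mul_nonneg hq.le h1.le) (mul_nonneg hj h2)
    · have h3 := mul_le_mul_of_nonneg_left (hL c hc h2) hq.le
      have h4 := h2.2
      unfold Sd.i at h3 h4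
      rw [h4]
      linarith
  · have h1 : (0 : ℝ) < S.i h c := by exact_mod_cast hA.pos c hc
    rcases split hS hc hn with h2 | h2
    · exact add_pos_of_pos_of_nonneg h1 (mul_nonneg h0 (by exact_mod_cast h2))
    · have h3 : (τ : ℝ) ≤ S.i h c := by exact_mod_cast hL c hc h2
      rw [h2.2]
      push_cast
      linarith

end Pool.Agent.MP_e8e0b6_ag.R2
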