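import Pool.Agent.MP_e8e0b6_ag.R2.CSpec

/-! One-sided approximation of an irrational number. -/

set_option autoImplicit false

namespace Pool.Agent.MP_e8e0b6_ag.R2

namespace ConeB

theorem pos {t δ : ℝ} (ht : Irrational t) (hδ : 0 < δ) :
    ∃ r m : ℤ, 0 < r ∧ 0 < (m : ℝ) - r * t ∧ (m : ℝ) - r * t < δ := by
  have hd : Dense (AddSubgroup.closure {t, (1 : ℝ)} : Set ℝ) :=
    dense_addSubgroupClosure_pair_iff.2 (by simpa using ht)
  obtain ⟨z, hz, h0, h1⟩ := hd.exists_between (lt_min hδ one_pos)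
  obtain ⟨a, m, rfl⟩ := AddSubgroup.mem_closure_pair.1 hz
  rw [zsmul_eq_mul, zsmul_eq_mul, mul_one] at h0 h1
  obtain ⟨h2, h3⟩ := lt_min_iff.1 h1
  rcases lt_trichotomy a 0 with ha | rfl | ha
  · exact ⟨-a, m, by omega, by push_cast; linarith, by push_cast; linarith⟩
  · simp only [Int.cast_zero, zero_mul, zero_add] at h0 h3
    have h4 : 0 < m := by exact_mod_cast h0
    have h5 : m < 1 := by exact_mod_cast h3
    omega
  · set z := (a : ℝ) * t + m with hz'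
    have c1 : 1 / z ≤ (⌈1 / z⌉ : ℤ) := Int.le_ceil _
    have c2 : ((⌈1 / z⌉ : ℤ) : ℝ) < 1 / z + 1 := Int.ceil_lt_add_one _
    have c3 : 1 < ⌈1 / z⌉ := Int.lt_ceil.2 (by rw [Int.cast_one, lt_div_iff₀ h0]; linarith)
    rw [div_le_iff₀ h0] at c1
    rw [← sub_lt_iff_lt_add, lt_div_iff₀ h0] at c2
    have e : ((1 - (⌈1 / z⌉ - 1) * m : ℤ) : ℝ) - ((⌈1 / z⌉ - 1) * a : ℤ) * t =
        1 - ((⌈1 / z⌉ : ℤ) - 1) * z := by
      push_cast
      rw [hz']; ring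
    exact ⟨(⌈1 / z⌉ - 1) * a, 1 - (⌈1 / z⌉ - 1) * m, mul_pos (by omega) ha, by rw [e]; linarith,
      by rw [e]; linarith⟩

end ConeB

theorem coneB_stmt : ConeBStmt := by
  intro t ε n ht hε
  have hN : (0 : ℝ) < ((|n| + 1 : ℤ) : ℝ) := by positivity
  obtain ⟨r, m, h1, h2, h3⟩ := ConeB.pos ht (div_pos hε hN)
  have e : (((|n| + 1) * m : ℤ) : ℝ) - ((|n| + 1) * r : ℤ) * t =
      ((|n| + 1 : ℤ) : ℝ) * ((m : ℝ) - r * t) := by push_cast; ring
  refine ⟨(|n| + 1) * r, (|n| + 1) * m, ?_, by rw [e]; positivity, ?_⟩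
  · nlinarith [le_abs_self n, abs_nonneg n]
  · rw [e, mul_comm]; exact (lt_div_iff₀ hN).1 h3

end Pool.Agent.MP_e8e0b6_ag.R2
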