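import Pool.Agent.MP_e8e0b6_ag.R2.CSpec

/-! The class `h + t K` is nef as long as its square is positive. -/

set_option autoImplicit false

namespace Pool.Agent.MP_e8e0b6_ag.R2

open Pool.Agent.MP_20d318_ag.CB

namespace ConeCL

variable {k M I : Type} [Field k] [Field M] [Algebra k M] [Fintype I] {S : Sd k M I} {h : I → ℤ}

lemma dh_h (s : ℝ) : ip S.B (Dh S h s) (toR h) = S.i h h + s * S.i S.K h := by
  rw [Dh, ip_add_left, ip_smul_left, ip_toR, ip_toR]

lemma sq_eq (hs : ∀ i j, S.B i j = S.B j i) (s : ℝ) :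
    Sq S h s = S.i h h + 2 * s * S.i S.K h + s ^ 2 * S.i S.K S.K := by
  simp only [Sq, Dh, ip_add_left, ip_add_right, ip_smul_left, ip_smul_right, ip_toR, Sd.i]
  rw [ip_comm hs h S.K]
  ring

lemma lin_pos (hg : Hg S.B) (ha : 0 < S.i h h) {s : ℝ} (h0 : 0 ≤ s)
    (hq : ∀ s', 0 ≤ s' → s' ≤ s → 0 < Sq S h s') : (0 : ℝ) < S.i h h + s * S.i S.K h := by
  by_contra hn
  have ha' : (0 : ℝ) < S.i h h := by exact_mod_cast ha
  have hb : (S.i S.K h : ℝ) < 0 := by
    by_contra hb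
    exact hn (add_pos_of_pos_of_nonneg ha' (mul_nonneg h0 (not_lt.1 hb)))
  have hb' : (0 : ℝ) < -(S.i S.K h : ℝ) := neg_pos.2 hb
  have p := hq (S.i h h / -(S.i S.K h : ℝ)) (div_pos ha' hb').le
    ((div_le_iff₀ hb').2 (by linarith [not_lt.1 hn]))
  refine lt_asymm p (hg.neg (toR h) _ (by rw [ip_toR]; exact ha') ?_ fun e => ?_)
  · rw [dh_h, div_neg, neg_mul, div_mul_cancel₀ _ hb.ne, add_neg_cancel]
  · rw [Sq, e, ip_zero_left] at p
    exact lt_irrefl _ p

lemma quad {A B n : ℤ} (hA : 0 < A) (hn : |B| < n) : 0 < n * (n * A) - n * B + 2 := by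
  have h0 : 0 < n := (abs_nonneg B).trans_lt hn
  have h1 : B < n * A := ((le_abs_self B).trans_lt hn).trans_le (le_mul_of_one_le_right h0.le hA)
  have := mul_pos h0 (sub_pos.2 h1)
  linarith

end ConeCL

theorem coneC_stmt : ConeCStmt := by
  intro hA k M I _ _ _ _ _ _ S h τ t hS hg ha hl h0 ht hq c hc
  obtain ⟨a1, -, a3, -⟩ := hA k M I S h hS ha
  have hs := hS.s.sym
  by_contra hn
  have hx : (0 : ℝ) < S.i h c := by exact_mod_cast ha.pos c hc
  have hy : (0 : ℝ) < -(S.i S.K c : ℝ) := by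
    by_contra hy
    exact hn (add_nonneg hx.le (mul_nonneg h0 (by linarith [not_lt.1 hy])))
  obtain ⟨r, r1, r2⟩ := exists_rat_btwn (show S.i h c / -(S.i S.K c : ℝ) < t from
    (div_lt_iff₀ hy).2 (by linarith [not_le.1 hn]))
  have r0 : (0 : ℝ) < r := (div_pos hx hy).trans r1
  obtain ⟨q, j, q0, hr⟩ : ∃ q j : ℤ, 0 < q ∧ (j : ℝ) = r * q :=
    ⟨r.den, r.num, by exact_mod_cast r.pos, by exact_mod_cast (Rat.mul_den_eq_num r).symm⟩
  have q0' : (0 : ℝ) < q := by exact_mod_cast q0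
  have j0 : 0 ≤ j := by
    have : (0 : ℝ) ≤ j := hr ▸ (mul_pos r0 q0').le
    exact_mod_cast this
  have jτ : j ≤ τ * q := by
    have : (j : ℝ) ≤ τ * q := hr ▸ mul_le_mul_of_nonneg_right (r2.le.trans ht) q0'.le
    exact_mod_cast this
  have hL : 0 < q * S.i h h + j * S.i S.K h := by
    have := mul_pos q0' (ConeCL.lin_pos hg ha.sq r0.le fun s h1 h2 => hq s h1 (h2.trans_lt r2))
    have e : (0 : ℝ) < q * S.i h h + j * S.i S.K h := by rw [hr]; linarith
    exact_mod_cast e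
  have hQ : 0 < q ^ 2 * S.i h h + 2 * q * j * S.i S.K h + j ^ 2 * S.i S.K S.K := by
    have := mul_pos (pow_pos q0' 2) (hq r r0.le r2)
    rw [ConeCL.sq_eq hs] at this
    have e : (0 : ℝ) < q ^ 2 * S.i h h + 2 * q * j * S.i S.K h + j ^ 2 * S.i S.K S.K := by
      rw [hr]; linarith
    exact_mod_cast e
  obtain ⟨n, n1, n2⟩ : ∃ n : ℤ, |q * S.i S.K h + j * S.i S.K S.K| < n ∧ |S.i S.K h| < n :=
    ⟨|q * S.i S.K h + j * S.i S.K S.K| + |S.i S.K h| + 1, by linarith [abs_nonneg (S.i S.K h)],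
      by linarith [abs_nonneg (q * S.i S.K h + j * S.i S.K S.K)]⟩
  have n0 : 0 < n := (abs_nonneg _).trans_lt n2
  have e : S.i h S.K = S.i S.K h := ip_comm hs _ _
  have ef : (n * q) • h + (n * j) • S.K ∈ S.Ef := by
    refine a1 _ ?_ ?_
    · have := ConeCL.quad hQ n1
      simp only [chi2, ip_add_left, ip_add_right, ip_smul_left, ip_smul_right]
      simp only [Sd.i] at this e
      rw [e]
      linarith
    · have := ((le_abs_self _).trans_lt n2).trans_le (le_mul_of_one_le_right n0.le hL)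
      simp only [Sd.i, ip_add_right, ip_smul_right] at this e ⊢
      rw [e]
      linarith
  have nf := a3 τ _ _ hl (mul_pos n0 q0) (mul_nonneg n0.le j0)
    (by linarith [mul_le_mul_of_nonneg_left jτ n0.le]) ef c hc
  have n3 : 0 ≤ q * S.i h c + j * S.i S.K c := by
    refine nonneg_of_mul_nonneg_right (a := n) ?_ n0
    simp only [Sd.i, ip_add_left, ip_smul_left] at nf ⊢
    linarith
  have n4 : (0 : ℝ) ≤ q * S.i h c + j * S.i S.K c := by exact_mod_cast n3
  have := mul_lt_mul_of_pos_left ((div_lt_iff₀ hy).1 r1) q0'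
  rw [hr] at n4
  linarith

end Pool.Agent.MP_e8e0b6_ag.R2
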