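import Pool.Agent.MP_e8e0b6_ag.R2.CSpec

/-! Row CONEI: no nef class `h + t K` of square zero with `t` irrational. -/

set_option autoImplicit false

namespace Pool.Agent.MP_e8e0b6_ag.R2

open Pool.Agent.MP_79c67d_ag Pool.Agent.MP_20d318_ag.AG Pool.Agent.MP_20d318_ag.BV
open Pool.Agent.MP_20d318_ag.CB

namespace ConeI

theorem num {a b c t τ q j : ℝ} (h0 : a + 2 * t * b + t ^ 2 * c = 0) (ht : 0 < t)
    (hx : b + t * c < 0) (hy : 0 < a + t * b) (hτ : t < τ) (d0 : 0 < j - q * t)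
    (d1 : j - q * t < 1 / 3)
    (hq : 3 * |c| / -(b + t * c) + |b| / (a + t * b) + 1 / (τ - t) < q) :
    0 < q ∧ 0 ≤ j ∧ j ≤ τ * q ∧ b < q * a + j * b ∧
      0 < q * (q * a + j * b) + j * (q * b + j * c) - (q * b + j * c) + 2 ∧
      q * (q * a + j * b) + j * (q * b + j * c) < 0 := by
  obtain ⟨d, rfl⟩ : ∃ d, j = q * t + d := ⟨j - q * t, by ring⟩
  rw [add_sub_cancel_left] at d0 d1
  have hx' : 0 < -(b + t * c) := by linarith
  have hτ' : 0 < τ - t := by linarith
  have p1 : 0 ≤ 3 * |c| / -(b + t * c) := by positivity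
  have p2 : 0 ≤ |b| / (a + t * b) := by positivity
  have p3 : 0 < 1 / (τ - t) := by positivity
  have q0 : 0 < q := by linarith
  have q1 : 3 * |c| < q * -(b + t * c) := (div_lt_iff₀ hx').1 (by linarith)
  have q2 : |b| < q * (a + t * b) := (div_lt_iff₀ hy).1 (by linarith)
  have q3 : 1 < q * (τ - t) := (div_lt_iff₀ hτ').1 (by linarith)
  have b1 := le_abs_self b
  have b2 := abs_nonneg b
  have c1 := le_abs_self c
  have c2 := abs_nonneg c
  have e : q * (q * a + (q * t + d) * b) + (q * t + d) * (q * b + (q * t + d) * c) =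
      d * (2 * q * (b + t * c) + d * c) := by linear_combination q ^ 2 * h0
  have dc : d * c ≤ |c| := by nlinarith
  refine ⟨q0, by positivity, by linarith, by nlinarith, ?_, ?_⟩
  · rw [e]
    have f1 : 0 ≤ (1 / 3 - d) * (q * -(b + t * c)) := mul_nonneg (by linarith) (by linarith)
    have f2 : d * (1 - d) * c ≤ |c| := by
      have : d * (1 - d) ≤ 1 := by nlinarith
      have : 0 ≤ d * (1 - d) := mul_nonneg d0.le (by linarith)
      nlinarith
    nlinarith
  · rw [e]
    exact mul_neg_of_pos_of_neg d0 (by linarith)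

end ConeI

theorem coneI_stmt : ConeIStmt := by
  intro hA hB k M I _ _ _ _ _ _ S h τ t hS _ ha hl _ _ ht hτ hi hn h0
  obtain ⟨a1, a2, a3, -⟩ := hA k M I S h hS ha
  have sy : ip S.B h S.K = ip S.B S.K h := ip_comm hS.s.sym _ _
  have aa : 0 < ip S.B h h := ha.sq
  have t0 : 0 < t := ht.lt_of_ne' hi.ne_zero
  have h1 : ((ip S.B h h : ℤ) : ℝ) + 2 * t * (ip S.B S.K h : ℤ) + t ^ 2 * (ip S.B S.K S.K : ℤ) = 0 := by
    simp only [Sq, Dh, ip_add_left, ip_add_right, ip_smul_left, ip_smul_right, ip_toR, sy] at h0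
    linear_combination h0
  have hE : ∀ c ∈ S.Ef, (0 : ℝ) ≤ (ip S.B h c : ℤ) + t * (ip S.B S.K c : ℤ) := fun c hc => by
    induction hc using AddSubmonoid.closure_induction with
    | mem x hx => exact hn x hx
    | zero => simp [ip_zero_right]
    | add x y _ _ p q =>
      rw [ip_add_right, ip_add_right]
      push_cast
      linarith
  have hy : (0 : ℝ) < (ip S.B h h : ℤ) + t * (ip S.B S.K h : ℤ) := by
    have n1 := le_abs_self (ip S.B S.K h)
    have n2 := abs_nonneg (ip S.B S.K h)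
    have n3 : ip S.B S.K h < (|ip S.B S.K h| + 1) * ip S.B h h := by nlinarith
    have := hE _ (a1 ((|ip S.B S.K h| + 1) • h) (by
      rw [chi2, ip_smul_left, ip_smul_right, ip_smul_right]
      nlinarith) (by
      rw [Sd.i, Sd.i, ip_smul_right, sy]
      exact n3))
    rw [ip_smul_right, ip_smul_right, Int.cast_mul, Int.cast_mul, mul_left_comm, ← mul_add] at this
    have n4 : (0 : ℝ) < ((|ip S.B S.K h| + 1 : ℤ) : ℝ) := by exact_mod_cast (by omega)
    refine (nonneg_of_mul_nonneg_right this n4).lt_of_ne' fun e => ?_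
    by_cases hb : ip S.B S.K h = 0
    · rw [hb, Int.cast_zero, mul_zero, add_zero] at e
      exact aa.ne' (by exact_mod_cast e)
    · exact ((hi.mul_intCast hb).intCast_add _).ne_zero e
  have hx : ((ip S.B S.K h : ℤ) : ℝ) + t * (ip S.B S.K S.K : ℤ) < 0 := by
    by_contra hc
    have := mul_nonneg t0.le (not_lt.1 hc)
    nlinarith
  obtain ⟨n, hn'⟩ := exists_int_gt (3 * |((ip S.B S.K S.K : ℤ) : ℝ)| /
    -(((ip S.B S.K h : ℤ) : ℝ) + t * (ip S.B S.K S.K : ℤ)) +
    |((ip S.B S.K h : ℤ) : ℝ)| / ((ip S.B h h : ℤ) + t * (ip S.B S.K h : ℤ)) + 1 / (τ - t))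
  obtain ⟨q, j, q1, q2, q3⟩ := hB t (1 / 3) n hi (by norm_num)
  obtain ⟨r1, r2, r3, r4, r5, r6⟩ := ConeI.num h1 t0 hx hy hτ q2 q3
    (hn'.trans (by exact_mod_cast q1))
  have hG : q • h + j • S.K ∈ S.Ef := a1 _ (by
    simp only [chi2, ip_add_left, ip_add_right, ip_smul_left, ip_smul_right, sy]
    have : (0 : ℤ) < q * (q * ip S.B h h + j * ip S.B S.K h) +
      j * (q * ip S.B S.K h + j * ip S.B S.K S.K) - (q * ip S.B S.K h + j * ip S.B S.K S.K) + 2 := by
      exact_mod_cast r5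
    linarith) (by
    simp only [Sd.i, ip_add_right, ip_smul_right, sy]
    exact_mod_cast r4)
  have := a2 _ hG _ (a3 τ q j hl (by exact_mod_cast r1) (by exact_mod_cast r2)
    (by exact_mod_cast r3) hG)
  simp only [Sd.i, ip_add_left, ip_add_right, ip_smul_left, ip_smul_right, sy] at this
  have r7 : q * (q * ip S.B h h + j * ip S.B S.K h) +
      j * (q * ip S.B S.K h + j * ip S.B S.K S.K) < 0 := by exact_mod_cast r6
  linarith

end Pool.Agent.MP_e8e0b6_ag.R2
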