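import Pool.Agent.MP_e8e0b6_ag.R2.CSpec

/-! No nef class of square zero below the bound, rational case. -/

set_option autoImplicit false

namespace Pool.Agent.MP_e8e0b6_ag.R2

open Pool.Agent.MP_20d318_ag.CB

namespace ConeR

lemma exB {I : Type} [Fintype I] (B : I → I → ℤ) (h K : I → ℤ) (h3 : 3 ≤ Fintype.card I) :
    ∃ z : I → ℤ, z ≠ 0 ∧ ip B z h = 0 ∧ ip B z K = 0 := by
  let φ : (I → ℤ) →ₗ[ℤ] ℤ × ℤ :=
    { toFun := fun z => (ip B z h, ip B z K)
      map_add' := fun a b => by simp [ip_add_left]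
      map_smul' := fun r a => Prod.ext (ip_smul_left r a h) (ip_smul_left r a K) }
  by_contra hn
  have hi : Function.Injective φ := by
    rw [injective_iff_map_eq_zero]
    intro z hz
    by_contra h0
    exact hn ⟨z, h0, congrArg Prod.fst hz, congrArg Prod.snd hz⟩
  have := LinearMap.finrank_le_finrank_of_injective hi
  simp at this
  omega

end ConeR

open ConeR in
theorem coneR_stmt : ConeRStmt := by
  intro hA k M I _ _ _ _ _ _ S h τ t hS hg ha hl h3 ⟨e, he, he'⟩ t0 t1 hr hn hsq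
  obtain ⟨A1, A2, -, A4⟩ := hA k M I S h hS ha
  have sy : ∀ a b : I → ℤ, ip S.B a b = ip S.B b a := ip_comm hS.s.sym
  obtain ⟨r, rfl⟩ : t ∈ Set.range ((↑) : ℚ → ℝ) := not_not.1 hr
  obtain ⟨b, a, b0, a0, hab⟩ : ∃ b a : ℤ, 0 < b ∧ 0 ≤ a ∧ (r : ℝ) * b = a :=
    ⟨r.den, r.num, by exact_mod_cast r.den_pos, Rat.num_nonneg.2 (by exact_mod_cast t0), by
      exact_mod_cast r.mul_den_eq_num⟩
  have b1 : (0 : ℝ) < b := by exact_mod_cast b0
  obtain ⟨D, hD⟩ : ∃ D : I → ℤ, D = b • h + a • S.K := ⟨_, rfl⟩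
  have e1 : ∀ c, ip S.B D c = b * ip S.B h c + a * ip S.B S.K c := fun c => by
    rw [hD, ip_add_left, ip_smul_left, ip_smul_left]
  have e2 : ∀ c, ((ip S.B D c : ℤ) : ℝ) = b * ((S.i h c : ℝ) + r * S.i S.K c) := fun c => by
    rw [e1]
    push_cast
    rw [← hab]
    ring
  have DD : ip S.B D D = 0 := by
    have e3 : toR D = (b : ℝ) • Dh S h r := by
      rw [hD, toR_add, toR_zsmul, toR_zsmul, Dh, smul_add, smul_smul, ← hab, mul_comm]
    have := ip_toR S.B D D
    rw [e3, ip_smul_left, ip_smul_right, show ip S.B (Dh S h r) (Dh S h r) = 0 from hsq] at this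
    exact_mod_cast (by simpa using this.symm : ((ip S.B D D : ℤ) : ℝ) = 0)
  have nef : Nef S D := fun c hc => by
    have := mul_nonneg b1.le (hn c hc)
    rw [← e2] at this
    exact_mod_cast this
  have pos : ∀ c ∈ S.PP, S.i c c < 0 → 0 < ip S.B D c := fun c hc h0 => by
    have := mul_pos b1 (A4 τ r hl t0 t1 c hc h0)
    rw [← e2] at this
    exact_mod_cast this
  have hh : 0 < ip S.B h h := ha.sq
  have neg : ∀ z : I → ℤ, z ≠ 0 → ip S.B z h = 0 → ip S.B z z < 0 := fun z z0 hz => by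
    have := hg.neg (toR h) (toR z) (by rw [ip_toR]; exact_mod_cast hh)
      (by rw [ip_toR]; exact_mod_cast hz) fun h0 => z0 (toR_inj (h0.trans toR_zero.symm))
    rw [ip_toR] at this
    exact_mod_cast this
  have D0 : D ≠ 0 := fun h0 => by
    have := pos e he (by rw [he'.1]; norm_num)
    rw [h0, ip_zero_left] at this
    exact this.false
  have Dh0 : 0 < ip S.B D h := by
    obtain ⟨n, n0, n1, n2⟩ : ∃ n : ℤ, 0 < n ∧ ip S.B S.K h < n ∧ n ≤ n * ip S.B h h :=
      ⟨|ip S.B S.K h| + 1, by positivity, by linarith [le_abs_self (ip S.B S.K h)],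
        le_mul_of_one_le_right (by positivity) hh⟩
    have m1 : n • h ∈ S.Ef := A1 _ (by
      rw [chi2, ip_smul_left, ip_smul_right, ip_smul_right]
      nlinarith) (by
      rw [Sd.i, Sd.i, ip_smul_right, sy h]
      linarith)
    have m2 := A2 _ m1 D nef
    rw [Sd.i, ip_smul_right] at m2
    refine lt_of_le_of_ne ((mul_nonneg_iff_of_pos_left n0).1 m2) fun h0 => ?_
    exact (neg D D0 h0.symm).ne DD
  have DK : ip S.B S.K D < 0 := by
    have := e1 D
    rw [DD, sy h] at this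
    by_contra h0
    nlinarith [mul_pos b0 Dh0, mul_nonneg a0 (not_lt.1 h0)]
  obtain ⟨z, z0, z1, z2⟩ := exB S.B h S.K h3
  have zz := neg z z0 z1
  have Dz : ip S.B D z = 0 := by rw [e1, sy h, sy S.K, z1, z2]; ring
  obtain ⟨n, n0, n1, n2⟩ : ∃ n : ℤ, 0 < n ∧ ip S.B h S.K < n ∧ -ip S.B z z ≤ n :=
    ⟨|ip S.B h S.K| + 1 - ip S.B z z, by linarith [abs_nonneg (ip S.B h S.K)],
      by linarith [le_abs_self (ip S.B h S.K)], by linarith [abs_nonneg (ip S.B h S.K)]⟩
  have GG : ip S.B (z + n • D) (z + n • D) = ip S.B z z := by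
    rw [ip_add_left, ip_add_right, ip_add_right, ip_smul_left, ip_smul_left, ip_smul_right,
      ip_smul_right, sy z D, Dz, DD]
    ring
  have m1 : z + n • D ∈ S.Ef := A1 _ (by
    rw [chi2, GG, ip_add_right, ip_smul_right, sy S.K z, z2]
    nlinarith) (by
    rw [Sd.i, Sd.i, ip_add_right, ip_smul_right, sy h z, z1, sy h D]
    nlinarith)
  have key : ∀ c ∈ S.Ef, ip S.B D c = 0 → Nef S c := fun c hc => by
    induction hc using AddSubmonoid.closure_induction with
    | mem c hc =>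
      intro h0 c' hc'
      by_cases q : c = c'
      · subst q
        exact not_lt.1 fun h1 => (pos c hc h1).ne' h0
      · exact hS.a2.pos c hc c' hc' q
    | zero => exact fun _ c' _ => (ip_zero_left c').ge
    | add x y hx hy ix iy =>
      intro h0 c' hc'
      have p1 : 0 ≤ ip S.B D x := A2 x hx D nef
      have p2 : 0 ≤ ip S.B D y := A2 y hy D nef
      rw [ip_add_right] at h0
      rw [Sd.i, ip_add_left]
      exact add_nonneg (ix (by omega) c' hc') (iy (by omega) c' hc')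
  have m2 : 0 ≤ ip S.B (z + n • D) (z + n • D) := A2 _ m1 _ (key _ m1 (by
    rw [ip_add_right, ip_smul_right, Dz, DD]
    ring))
  omega

end Pool.Agent.MP_e8e0b6_ag.R2
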