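import Pool.Agent.MP_e8e0b6_ag.R2.SpecT

/-!
Row CORE: descent of a projectively invariant space over a `C1` field.
-/

set_option autoImplicit false

namespace Pool.Agent.MP_e8e0b6_ag.R2

namespace CoreA

variable {L L' E : Type} [Field L] [Field L'] [Field E] [Algebra L L'] [Algebra L' E]

theorem line [FiniteDimensional L L'] [IsGalois L L'] (a : (L' ≃ₐ[L] L') → (E →+* E))
    (W : Submodule L' E) (hL : C1 L)
    (hc : ∀ g c, a g (algebraMap L' E c) = algebraMap L' E (g c))
    (hm : ∀ g g' z, a (g * g') z = a g (a g' z)) (h1 : ∀ z, a 1 z = z) [FiniteDimensional L' W]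
    (hW : W ≠ ⊥) (h : (L' ≃ₐ[L] L') → E) (h0 : ∀ g, h g ≠ 0)
    (H : ∀ g z, z ∈ W ↔ a g z / h g ∈ W)
    (hs : ∀ m, (∀ z ∈ W, m * z ∈ W) → m ∈ Set.range (algebraMap L' E)) :
    ∃ l : E, l ≠ 0 ∧ ∀ g y, y * l ∈ W → a g y * l ∈ W := by
  have hinv : ∀ g z, a g (a g⁻¹ z) = z := fun g z => by rw [← hm, mul_inv_cancel, h1]
  let φ : (L' ≃ₐ[L] L') → W ≃+ W := fun g => AddEquiv.ofBijective
    ({ toFun w := ⟨_, (H g w).1 w.2⟩
       map_zero' := Subtype.ext (by simp)
       map_add' x y := Subtype.ext (by simp [add_div]) } : W →+ W)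
    ⟨fun x y e => Subtype.ext ((a g).injective ((div_left_inj' (h0 g)).1 (congrArg Subtype.val e))),
      fun w => ⟨⟨a g⁻¹ (w * h g), (H g _).2 (by
        rw [hinv, mul_div_cancel_right₀ _ (h0 g)]
        exact w.2)⟩, Subtype.ext (by
          show a g (a g⁻¹ (w * h g)) / h g = w
          rw [hinv, mul_div_cancel_right₀ _ (h0 g)])⟩⟩
  have hφ : ∀ g w, (φ g w : E) = a g w / h g := fun _ _ => rfl
  have : Nontrivial W := Submodule.nontrivial_iff_ne_bot.2 hW
  obtain ⟨l, hl0, hl⟩ := exists_stable_line hL φ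
    (fun g c w => Subtype.ext (by
      rw [hφ, Submodule.coe_smul, Submodule.coe_smul, hφ, Algebra.smul_def, Algebra.smul_def,
        map_mul, hc, mul_div_assoc])) fun g g' => by
      have e : ∀ w : W, (φ g (φ g' w) : E) =
          h (g * g') / (a g (h g') * h g) * (φ (g * g') w : E) := fun w => by
        have k1 := h0 g
        have k2 := h0 (g * g')
        have k3 : a g (h g') ≠ 0 := (map_ne_zero _).2 (h0 g')
        rw [hφ, hφ, hφ, map_div₀, ← hm]
        field_simp
      obtain ⟨c, hc'⟩ := hs (h (g * g') / (a g (h g') * h g)) fun z hz => by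
        obtain ⟨w, hw⟩ := (φ (g * g')).surjective ⟨z, hz⟩
        have k := e w
        rw [hw] at k
        exact k ▸ (φ g (φ g' w)).2
      exact ⟨c, fun w => Subtype.ext (by rw [e, Submodule.coe_smul, Algebra.smul_def, hc'])⟩
  refine ⟨l, fun e => hl0 (Subtype.ext e), fun g y hy => ?_⟩
  obtain ⟨c, hc'⟩ := hl g
  have c0 : c ≠ 0 := fun e => hl0 (by simpa [e] using hc')
  have k := congrArg Subtype.val hc'
  rw [hφ, Submodule.coe_smul] at k
  have k2 := W.smul_mem c⁻¹ ((H g _).1 hy)
  rw [map_mul, mul_div_assoc, k, mul_smul_comm, smul_smul, inv_mul_cancel₀ c0, one_smul] at k2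
  exact k2

end CoreA

theorem core_stmt : CoreStmt := by
  classical
  intro L L' E _ _ _ _ _ _ _ a W hL hc hm h1 _ hW hφ hs
  choose h h0 H using hφ
  obtain ⟨l, hl, st⟩ := CoreA.line a W hL hc hm h1 hW h h0 H hs
  obtain ⟨n, u, v, huv⟩ := speiser L L'
  obtain ⟨s, hsW⟩ : W.FG := Module.Finite.iff_fg.1 inferInstance
  let t : Fin n × s → E := fun p => ∑ g, a g (algebraMap L' E (v p.1) * (p.2 / l))
  refine ⟨l, Set.range t, hl, Set.finite_range t, ?_, fun z => ⟨fun hz => ?_, fun hz => ?_⟩⟩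
  · rintro _ ⟨p, rfl⟩ g
    simp only [t, map_sum, ← hm]
    exact Fintype.sum_equiv (Equiv.mulLeft g) _ _ fun _ => rfl
  · rw [← hsW] at hz
    induction hz using Submodule.span_induction with
    | mem w hw =>
      have e : w / l = ∑ i, u i • t (i, ⟨w, hw⟩) := by
        simp only [t, Algebra.smul_def, map_mul, hc, Finset.mul_sum, ← mul_assoc]
        rw [Finset.sum_comm]
        simp only [← Finset.sum_mul, ← map_mul, ← map_sum, huv]
        rw [Finset.sum_eq_single 1 (fun g _ hg => by rw [if_neg hg, map_zero, zero_mul])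
          (fun k => absurd (Finset.mem_univ _) k), if_pos rfl, map_one, one_mul, h1]
      rw [e]
      exact sum_mem fun i _ => Submodule.smul_mem _ _ (Submodule.subset_span ⟨_, rfl⟩)
    | zero =>
      rw [zero_div]
      exact zero_mem _
    | add x y _ _ hx hy =>
      rw [add_div]
      exact add_mem hx hy
    | smul c x _ hx =>
      rw [smul_div_assoc]
      exact Submodule.smul_mem _ _ hx
  · have k : Submodule.span L' (Set.range t) ≤ W.comap (LinearMap.mulRight L' l) := by
      rw [Submodule.span_le]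
      rintro _ ⟨p, rfl⟩
      show (∑ g, a g (algebraMap L' E (v p.1) * (p.2 / l))) * l ∈ W
      rw [Finset.sum_mul]
      refine sum_mem fun g _ => st g _ ?_
      rw [mul_assoc, div_mul_cancel₀ _ hl, ← Algebra.smul_def]
      exact W.smul_mem _ (hsW ▸ Submodule.subset_span p.2.2)
    have k2 : z / l * l ∈ W := k hz
    rwa [div_mul_cancel₀ _ hl] at k2

end Pool.Agent.MP_e8e0b6_ag.R2
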