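import Pool.Agent.MP_e8e0b6_ag.R2.SpecA

/-!
The choice of two coprime sections.
-/

set_option autoImplicit false

namespace Pool.Agent.MP_e8e0b6_ag.R2

open Pool.Agent.MP_79c67d_ag Pool.Agent.MP_20d318_ag Pool.Agent.MP_20d318_ag.AG
  Pool.Agent.MP_20d318_ag.BV Pool.Agent.MP_20d318_ag.CB

namespace Cp1A

variable {k F : Type} [Field k] [Field F] [Algebra k F] {O : Subalgebra k F} {H U : Set F}
  {a g j j' : F} {m : ℕ}

theorem span_div (h : Gn U O g) (ha : a ∈ Submodule.span k U) : a / g ∈ O := by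
  induction ha using Submodule.span_induction with
  | mem b hb => exact h.1 b hb
  | zero => rw [zero_div]; exact O.zero_mem
  | add b c _ _ hb hc => rw [add_div]; exact O.add_mem hb hc
  | smul c b _ hb => rw [smul_div_assoc]; exact O.smul_mem hb c

theorem sw (h : Gn H O j) (h' : Gn H O j') (hu : IsU O (a / (g * j ^ m))) :
    IsU O (a / (g * j' ^ m)) := by
  have h1 := h.ne
  have h2 := h'.ne
  have h3 : g ≠ 0 := left_ne_zero_of_mul (div_ne_zero_iff.1 hu.ne).2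
  have e : a / (g * j' ^ m) = a / (g * j ^ m) * (j / j') ^ m := by
    rw [div_pow]; field_simp
  exact e ▸ hu.mul ((h.unit h').pow m)

end Cp1A

open Cp1A in
theorem cp1_stmt : Cp1Stmt := by
  intro hA k F M I _ _ _ _ _ _ _ R H ξ ρ S γ d m U L hb hU
  have hN := L.mf.all.a1.nice.toFine
  have h1 : Gn H ξ 1 := gn_one L.sub ⟨1, L.one, isU_one⟩
  obtain ⟨a, ha, h2⟩ := hA k F U {ξ} (fun O => γ O * 1 ^ m) (Set.finite_singleton _) (by
    rintro _ rfl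
    exact ⟨L.xb.loc _ L.fib.mem, hU _ L.fib.mem _ h1⟩)
  have hγ := (hb ξ L.fib.mem L.fib.dom).1
  have ua : IsU ξ a := by
    have := (h2 ξ rfl).mul hγ
    rwa [one_pow, mul_one, div_mul_cancel₀ _ hγ.ne] at this
  let B : Set (Place k M) := {P | plO P ∈ S.T ∧ P.ord (evO ξ ρ a) ≠ 0} ∪
    ({P | plO P ∈ S.T ∧ P.ord (S.lb d (plO P)) ≠ 0} ∪
      ⋃ j ∈ H, {P | plO P ∈ S.T ∧ P.ord (evO ξ ρ j) ≠ 0})
  have hB : B.Finite := (hN.fin _).union ((hN.fin_cart (L.mf.all.a1.cart d)).union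
    (L.fm.fin.biUnion fun j _ => hN.fin _))
  let Φ : Set (Subalgebra k F) := {O | O ∈ XX R H ∧ AG.Dom R O ∧ red ξ ρ O ∈ plO '' B}
  have hΦ : Φ.Finite := Set.Finite.of_finite_image (f := red ξ ρ)
    ((hB.image plO).subset (by rintro _ ⟨O, hO, rfl⟩; exact hO.2.2)) fun O hO O' hO' e =>
      le_antisymm (L.rle O hO.1 hO.2.1 O' hO'.1 hO'.2.1 e.le)
        (L.rle O' hO'.1 hO'.2.1 O hO.1 hO.2.1 e.ge)
  have hg : ∀ O ∈ XX R H, Gn H O (gn H O) := fun O hO =>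
    gn_spec ((L.xb.gn O hO).elim fun _ h => h.2.prin)
  obtain ⟨a', ha', h3⟩ := hA k F U Φ (fun O => γ O * gn H O ^ m) hΦ
    fun O hO => ⟨L.xb.loc _ hO.1, hU _ hO.1 _ (hg O hO.1)⟩
  refine ⟨a, ha, a', ha', ua, fun O hO j hj => span_div (hU O hO j hj) ha,
    fun O hO j hj => span_div (hU O hO j hj) ha', fun O hO hd P hP j hj => ?_⟩
  by_cases hm : P ∈ B
  · exact Or.inr (sw (hg O hO) hj (h3 O ⟨hO, hd, P, hm, hP.symm⟩))
  obtain ⟨i, hi, h4⟩ := L.xb.gn O hO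
  refine Or.inl (sw h4 hj ((L.isU O hO hd _ (span_div (hU O hO i h4) ha)).1 ?_))
  have hT : plO P ∈ S.T := by rw [← hP, L.eq]; exact ⟨O, ⟨hO, hd⟩, rfl⟩
  obtain ⟨h5, h6⟩ := hb O hO hd
  have h7 := (L.gnU O hO hd i h4).1
  rw [hP] at h6 ⊢
  have h8 := (div_ne_zero_iff.1 h6.ne).2
  have u1 : IsU (plO P) (evO ξ ρ a) :=
    (isU_plO' P).2 ⟨evO_ne ρ ua, by_contra fun h => hm (Or.inl ⟨hT, h⟩)⟩
  have u2 : IsU (plO P) (S.lb d (plO P)) :=
    (isU_plO' P).2 ⟨h8, by_contra fun h => hm (Or.inr (Or.inl ⟨hT, h⟩))⟩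
  have u3 : IsU (plO P) (evO ξ ρ i) := (isU_plO' P).2 ⟨evO_ne ρ h7, by_contra fun h =>
    hm (Or.inr (Or.inr (Set.mem_biUnion hi ⟨hT, h⟩)))⟩
  have u4 := h6.mul u2
  rw [div_mul_cancel₀ _ h8] at u4
  rw [evO_div ρ ua.mem (h5.mul (h7.pow m)), evO_mul ρ h5.mem (h7.pow m).mem, evO_pow ρ h7.mem]
  exact u1.div (u4.mul (u3.pow m))

end Pool.Agent.MP_e8e0b6_ag.R2
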