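import Pool.Agent.MP_e8e0b6_ag.R2.SpecA

/-!
What two coprime sections detect.
-/

set_option autoImplicit false

namespace Pool.Agent.MP_e8e0b6_ag.R2

open Pool.Agent.MP_79c67d_ag Pool.Agent.MP_20d318_ag Pool.Agent.MP_20d318_ag.AG
  Pool.Agent.MP_20d318_ag.BV Pool.Agent.MP_20d318_ag.CB

namespace Cp2A

variable {k F M I : Type} [Field k] [Field F] [Field M] [Algebra k F] [Algebra k M] [Fintype I]
  {R O ξ : Subalgebra k F} {H : Set F} {ρ : ξ →ₐ[k] M} {S : Sd k M I} {a a' j : F} {m : ℕ}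
  {γ : Subalgebra k F → F} {d : I → ℤ}

/-- In a factorial ring a fraction that multiplies two coprime elements into the ring is in it. -/
theorem mem_of_cop (hO : UniqueFactorizationMonoid O) (hF : Frac O) {x α α' : F} (h : α ∈ O)
    (h' : α' ∈ O) (hc : ∀ π ∈ O, π ≠ 0 → α / π ∈ O → α' / π ∈ O → IsU O π) (h1 : x * α ∈ O)
    (h2 : x * α' ∈ O) : x ∈ O := by
  obtain ⟨p, hp, q, hq, h0, rfl⟩ := hF x
  obtain ⟨p', q', c, hr, e1, e2⟩ := UniqueFactorizationMonoid.exists_reduced_factors'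
    (⟨p, hp⟩ : O) ⟨q, hq⟩ fun e => h0 (congrArg Subtype.val e)
  obtain rfl : (c : F) * p' = p := congrArg Subtype.val e1
  obtain rfl : (c : F) * q' = q := congrArg Subtype.val e2
  have hq0 := right_ne_zero_of_mul h0
  rw [mul_div_mul_left _ _ (left_ne_zero_of_mul h0)] at h1 h2 ⊢
  have key : ∀ β ∈ O, (p' : F) / q' * β ∈ O → β / q' ∈ O := fun β hβ h3 => by
    obtain ⟨r, hr'⟩ := hr.symm.dvd_of_dvd_mul_left (z := ⟨β, hβ⟩) ⟨⟨_, h3⟩, Subtype.ext (by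
      change (p' : F) * β = q' * (p' / q' * β)
      field_simp)⟩
    obtain rfl : β = q' * r := congrArg Subtype.val hr'
    rw [mul_div_cancel_left₀ _ hq0]
    exact r.2
  exact (hc _ q'.2 hq0 (key _ h h1) (key _ h' h2)).div_mem p'.2

variable (L : Ln R H ξ ρ S)
include L

theorem span_div (hO : O ∈ XX R H) (hd : AG.Dom R O) (hj : Gn H O j) {s : M}
    (hs : s ∈ Submodule.span k (evO ξ ρ '' Fo R H m)) : s / evO ξ ρ j ^ m ∈ red ξ ρ O := by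
  have hle := L.fib.le O hO hd
  have hu := (L.gnU O hO hd j hj).1
  induction hs using Submodule.span_induction with
  | mem x hx =>
    obtain ⟨w, hw, rfl⟩ := hx
    have h1 := Fo.div_mem hj hd.1 hw
    have h2 : w ∈ ξ := by
      simpa [(hu.pow m).ne] using ξ.mul_mem (hle h1) (hu.pow m).mem
    rw [← evO_pow ρ hu.mem, ← evO_div ρ h2 (hu.pow m)]
    exact (L.mem O hle _).2 ⟨_, h1, rfl⟩
  | zero => rw [zero_div]; exact zero_mem _
  | add x y _ _ hx hy => rw [add_div]; exact add_mem hx hy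
  | smul c x _ hx => rw [smul_div_assoc]; exact Subalgebra.smul_mem _ hx c

theorem mem_red (hb : Lb R H ξ ρ S d γ) (hO : O ∈ XX R H) (hd : AG.Dom R O) (hj : Gn H O j) {s : M}
    (hu : IsU O (a / (γ O * j ^ m)))
    (hs : s * evO ξ ρ a ∈ Submodule.span k (evO ξ ρ '' Fo R H m)) :
    s * S.lb d (red ξ ρ O) ∈ red ξ ρ O := by
  have hle := L.fib.le O hO hd
  have h1 := (L.gnU O hO hd j hj).1
  obtain ⟨h2, h3⟩ := hb O hO hd
  have h4 := h2.mul (h1.pow m)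
  have ha : a ∈ ξ := by simpa [h4.ne] using ξ.mul_mem (hle hu.mem) h4.mem
  have h5 := (L.isU O hO hd _ hu.mem).2 hu
  rw [evO_div ρ ha h4, evO_mul ρ h2.mem (h1.pow m).mem, evO_pow ρ h1.mem] at h5
  have h6 := h3.div_mem (h5.div_mem (span_div L hO hd hj hs))
  have n1 := evO_ne ρ h1
  have n2 := evO_ne ρ h2
  have n3 := (div_ne_zero_iff.1 h5.ne).1
  have n4 := (div_ne_zero_iff.1 h3.ne).2
  rwa [show s * evO ξ ρ a / evO ξ ρ j ^ m / (evO ξ ρ a / (evO ξ ρ (γ O) * evO ξ ρ j ^ m)) /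
    (evO ξ ρ (γ O) / S.lb d (red ξ ρ O)) = s * S.lb d (red ξ ρ O) by field_simp] at h6

theorem cop (hγ : Dt (XX R H) γ) (hb : Lb R H ξ ρ S d γ) (hc : Cp R H ξ ρ γ m a a')
    (hO : O ∈ XX R H) (hd : AG.Dom R O) (hj : Gn H O j) :
    ∀ π ∈ O, π ≠ 0 → a / (γ O * j ^ m) / π ∈ O → a' / (γ O * j ^ m) / π ∈ O → IsU O π := by
  intro π hπ h0 h1 h2
  have hle := L.fib.le O hO hd
  have hN := L.mf.all.a1.nice
  have key : ∀ (W : Subalgebra k F) (α : F), O ≤ W → α / π ∈ O → IsU W α → IsU W π :=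
    fun W α h3 h4 h5 => IsU.of_mul (h3 hπ) (h3 h4) (by rwa [mul_div_cancel₀ _ h0])
  have h3 : IsU ξ π := key ξ _ hle h1
    (hc.ua.div ((hb O hO hd).1.mul ((L.gnU O hO hd j hj).1.pow m)))
  refine (L.isU O hO hd π hπ).1 ⟨evO_ne ρ h3, (L.mem O hle _).2 ⟨π, hπ, rfl⟩,
    hN.krull (L.eq ▸ ⟨O, ⟨hO, hd⟩, rfl⟩) fun P hP h4 => ?_⟩
  rw [L.eq] at hP
  obtain ⟨O₂, ⟨h5, h6⟩, e⟩ := hP
  have h7 : O ≤ O₂ := L.rle O hO hd O₂ h5 h6 (e ▸ h4)
  have h8 := hγ.cmp hO h5 h7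
  have n := (div_ne_zero_iff.1 h8.ne).2
  have h9 : ∀ b, IsU O₂ (b / (γ O₂ * j ^ m)) → IsU O₂ (b / (γ O * j ^ m)) := fun b h => by
    have := h.div h8
    rwa [show b / (γ O₂ * j ^ m) / (γ O / γ O₂) = b / (γ O * j ^ m) by field_simp] at this
  have h10 : IsU O₂ π := (hc.cop O₂ h5 h6 P e j (hj.mono h7)).elim
    (fun h => key _ _ h7 h1 (h9 _ h)) fun h => key _ _ h7 h2 (h9 _ h)
  exact e ▸ ((L.isU O₂ h5 h6 π h10.mem).2 h10).inv_mem

end Cp2A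

open Cp2A in
theorem cp2_stmt : Cp2Stmt := by
  intro k F M I _ _ _ _ _ _ R H ξ ρ S γ d m a a' L hγ hb hc
  refine ⟨fun s hs Q hQ => ?_, fun z hz O hO => ?_⟩
  · by_cases h0 : s = 0
    · rw [h0, zero_mul]; exact zero_mem _
    refine L.mf.all.a1.nice.eff (L.mf.all.a1.pcart d s h0) hQ fun P hP _ => mem_plO_ord.1 ?_
    rw [L.eq] at hP
    obtain ⟨O, ⟨hO, hd⟩, e⟩ := hP
    obtain ⟨j, -, hj⟩ := L.xb.gn O hO
    rw [← e]
    exact (hc.cop O hO hd P e j hj).elim (fun h => mem_red L hb hO hd hj h (mem_Zs.1 hs).1)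
      fun h => mem_red L hb hO hd hj h (mem_Zs.1 hs).2
  · obtain ⟨O₁, h1, hd, hle⟩ := L.spc O hO
    obtain ⟨j, -, hj⟩ := L.xb.gn O₁ h1
    have n := hγ.ne h1
    have e : ∀ b, z * γ O₁ * (b / (γ O₁ * j ^ m)) = z * b / j ^ m := fun b => by field_simp
    have h2 : z * γ O₁ ∈ O₁ := mem_of_cop (L.fm.ufd O₁ h1) (L.xb.frac O₁ h1) (hc.du O₁ h1 j hj)
      (hc.du' O₁ h1 j hj) (cop L hγ hb hc h1 hd hj)
      (e a ▸ Fo.div_mem hj hd.1 (mem_Zs.1 hz).1) (e a' ▸ Fo.div_mem hj hd.1 (mem_Zs.1 hz).2)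
    have h3 := (hγ.cmp h1 hO hle).div_mem (hle h2)
    rwa [show z * γ O₁ / (γ O₁ / γ O) = z * γ O by field_simp] at h3

end Pool.Agent.MP_e8e0b6_ag.R2
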