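import Pool.Agent.MP_e8e0b6_ag.R2.SpecS

/-!
A coordinate on a curve with a line bundle of degree one.
-/

set_option autoImplicit false

open Polynomial AlgebraicGeometry CategoryTheory

namespace Pool.Agent.MP_e8e0b6_ag.R2

open Pool.Agent.MP_79c67d_ag Pool.Agent.MP_20d318_ag Pool.Agent.MP_20d318_ag.AG
  Pool.Agent.MP_20d318_ag.BV Pool.Agent.MP_20d318_ag.CB
open scoped IntermediateField

namespace CrdA

theorem eq_of_sum {α : Type} {g : α → ℤ} (h0 : ∀ x, 0 ≤ g x) (h1 : ∑ᶠ x, g x = 1) {a b : α}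
    (ha : 0 < g a) (hb : 0 < g b) : a = b := by
  have hf : (Function.support g).Finite := by_contra fun hn => by
    rw [finsum_of_infinite_support hn] at h1
    exact zero_ne_one h1
  rw [finsum_eq_sum _ hf] at h1
  by_contra hne
  have := Finset.add_le_sum (s := hf.toFinset) (fun x _ => h0 x) (by simpa using ha.ne')
    (by simpa using hb.ne') hne
  omega

variable {k M I : Type} [Field k] [CharZero k] [IsAlgClosed k] [Field M] [Algebra k M] [Fintype I]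
  {S : Sd k M I} {D : I → ℤ} {ν : Curve S.T} {s s' : M}

omit [CharZero k] [IsAlgClosed k] in
theorem unit_pt (h : SAll S) (u : IsU ν.gen (s * S.lb D ν.gen)) (Q : Place k ν.L) :
    IsU ν.gen (s * S.lb D (ν.pt Q)) := by
  have := u.mul ((h.a1.cart D).unit (ν.pt_mem Q) ν.gen_mem (ν.pt_le Q))
  rwa [mul_assoc, mul_div_cancel₀ _ (right_ne_zero_of_mul u.1)] at this

theorem uniq (h : SAll S) (hd : ν.deg (S.lb D) = 1) (hs : s ∈ S.Sec D)
    (u : IsU ν.gen (s * S.lb D ν.gen)) {Q Q' : Place k ν.L}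
    (h1 : s * S.lb D (ν.pt Q) ∈ mx (ν.pt Q)) (h2 : s * S.lb D (ν.pt Q') ∈ mx (ν.pt Q')) :
    Q = Q' := by
  have s0 : s ≠ 0 := left_ne_zero_of_mul u.1
  have hX := h.a1.nice.toFine.toGood
  rw [← deg_cmul hX (h.a1.cart D) s0, deg_of_unit hX (h.a1.pcart D s s0) ν u] at hd
  have p : ∀ Q, s * S.lb D (ν.pt Q) ∈ mx (ν.pt Q) → 0 < Q.ord (ν.ev (s * S.lb D (ν.pt Q))) :=
    fun Q hQ => (FF.v_lt_one_iff Q (evO_ne ν.ρ (unit_pt h u Q))).1 ((ν.v_lt_one_iff Q hQ.1).2 hQ)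
  exact eq_of_sum (fun Q => FF.ord_nonneg (ν.v_le Q (hs _ (ν.pt_mem Q)))) hd (p Q h1) (p Q' h2)

theorem zero (h : SAll S) (hd : ν.deg (S.lb D) = 1) (hs : s ∈ S.Sec D) (hs' : s' ∈ S.Sec D)
    (u : IsU ν.gen (s * S.lb D ν.gen)) (u' : IsU ν.gen (s' * S.lb D ν.gen))
    (tr : Transcendental k (ν.ev (s / s'))) {Q : Place k ν.L}
    (h1 : s * S.lb D (ν.pt Q) ∈ mx (ν.pt Q)) : 0 < Q.ord (ν.ev (s / s')) := by
  obtain ⟨Q', hQ⟩ := exists_place_pos tr
  refine uniq h hd hs u (Q := Q') (by_contra fun hn => ?_) h1 ▸ hQ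
  have v := unit_pt h u Q'
  have v' := unit_pt h u' Q'
  have e0 := ν.ord_unit Q' (isU_of_not_mx (hs _ (ν.pt_mem Q')) hn)
  have e1 : 0 ≤ Q'.ord (ν.ev (s' * S.lb D (ν.pt Q'))) :=
    FF.ord_nonneg (ν.v_le Q' (hs' _ (ν.pt_mem Q')))
  rw [← mul_div_mul_right _ _ (right_ne_zero_of_mul v.1), ev_div ν v.mem v',
    Q'.ord_div (f := ν.ev _) (g := ν.ev _) (evO_ne ν.ρ v) (evO_ne ν.ρ v')] at hQ
  omega

omit [CharZero k] [IsAlgClosed k] in
theorem tr_inv (u : IsU ν.gen (s * S.lb D ν.gen)) (u' : IsU ν.gen (s' * S.lb D ν.gen)) :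
    IsU ν.gen (s / s') ∧ ν.ev (s' / s) = (ν.ev (s / s'))⁻¹ := by
  have := u.div u'
  rw [mul_div_mul_right _ _ (right_ne_zero_of_mul u.1)] at this
  exact ⟨this, by rw [← inv_div]; exact evO_inv ν.ρ this⟩

theorem two (h : SAll S) (hd : ν.deg (S.lb D) = 1) (hs : s ∈ S.Sec D) (hs' : s' ∈ S.Sec D)
    (u : IsU ν.gen (s * S.lb D ν.gen)) (u' : IsU ν.gen (s' * S.lb D ν.gen))
    (tr : Transcendental k (ν.ev (s / s'))) : ∀ O ∈ S.T, O ≤ ν.gen →
      IsU O (s * S.lb D O) ∨ IsU O (s' * S.lb D O) := by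
  intro O hO hle
  by_cases e : O = ν.gen
  · exact Or.inl (e ▸ u)
  obtain ⟨Q, rfl⟩ := h.a1.pt ν O hO hle e
  by_contra hn
  have h1 := zero h hd hs hs' u u' tr (Q := Q) ⟨hs _ hO, fun x => hn (Or.inl x)⟩
  have e' := (tr_inv u u').2
  have h2 := zero h hd hs' hs u' u (by rw [e']; exact fun x => tr (IsAlgebraic.inv_iff.1 x))
    (Q := Q) ⟨hs' _ hO, fun x => hn (Or.inr x)⟩
  rw [e', Q.ord_inv] at h2
  omega

theorem cw (h : SAll S) (hd : ν.deg (S.lb D) = 1) (hs : s ∈ S.Sec D) (hs' : s' ∈ S.Sec D)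
    (u : IsU ν.gen (s * S.lb D ν.gen)) (u' : IsU ν.gen (s' * S.lb D ν.gen))
    (tr : Transcendental k (ν.ev (s / s'))) {P : Place k M} (hg : ν.gen = plO P) :
    Cw S.T P (s / s') := by
  have t := two h hd hs hs' u u' tr
  have uw := (tr_inv u u').1
  have s0 : s ≠ 0 := left_ne_zero_of_mul u.1
  have s0' : s' ≠ 0 := left_ne_zero_of_mul u'.1
  have ne : ∀ O ∈ S.T, S.lb D O ≠ 0 := fun O hO => S.lb_ne (h.a1.gne O hO) D
  have nc : ∀ c : k, s / s' - algebraMap k M c ∉ mx ν.gen := fun c hc =>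
    transcendental_iff_ne.1 tr c (ev_const_of ν hc)
  refine ⟨?_, ?_, ?_, ?_⟩
  · refine (h.a1.ind P (hg ▸ ν.gen_mem) _ (hg ▸ uw.mem)).resolve_right fun ⟨c, hc⟩ => nc c ?_
    rwa [hg]
  · intro O hO hle
    rcases t O hO (hg ▸ hle) with v | v
    · have := v.div_mem (hs' O hO)
      rw [mul_div_mul_right _ _ (ne O hO)] at this
      exact Or.inr (by rwa [inv_div])
    · have := v.div_mem (hs O hO)
      rw [mul_div_mul_right _ _ (ne O hO)] at this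
      exact Or.inl this
  · have gn : ∀ O ∈ S.T, O ≤ ν.gen → Gn {s, s'} O (S.lb D O)⁻¹ := fun O hO hle => by
      refine ⟨?_, ?_⟩
      · rintro a (rfl | rfl) <;> rw [div_inv_eq_mul]
        · exact hs O hO
        · exact hs' O hO
      · rcases t O hO hle with hu | hu
        · exact ⟨s, Or.inl rfl, by rwa [div_inv_eq_mul]⟩
        · exact ⟨s', Or.inr rfl, by rwa [div_inv_eq_mul]⟩
    have d1 := deg_gn_pair (f := (S.lb D)⁻¹) ν (gn _ ν.gen_mem le_rfl)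
      (fun Q => gn _ (ν.pt_mem Q) (ν.pt_le Q)) s0' uw.mem
    rw [deg_inv h.a1.nice.toFine.toGood (h.a1.cart D), hd, pdeg_eq tr, neg_inj] at d1
    have top : k⟮ν.ev (s / s')⟯ = ⊤ :=
      IntermediateField.finrank_eq_one_iff_eq_top.1 (by exact_mod_cast d1.symm)
    rw [← hg]
    intro a ha
    have ev : ∀ q : k[X], aeval (s / s') q ∈ ν.gen ∧
        ν.ev (aeval (s / s') q) = aeval (ν.ev (s / s')) q := fun q => by
      have e := aeval_subalgebra_coe q ν.gen ⟨s / s', uw.mem⟩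
      refine ⟨e ▸ Subtype.mem _, ?_⟩
      rw [ν.ev_eq, ν.ev_eq, ← e, evO_coe, evO_of_mem ν.ρ uw.mem, aeval_algHom_apply]
    obtain ⟨p, q, e⟩ := (IntermediateField.mem_adjoin_simple_iff k (ν.ev a)).1
      (top ▸ IntermediateField.mem_top (x := ν.ev a) : ν.ev a ∈ k⟮ν.ev (s / s')⟯)
    by_cases hq : q = 0
    · refine ⟨0, 1, one_ne_zero, ?_⟩
      simpa using (ev_eq_zero ν ha).1 (by simpa [hq] using e)
    · have m := ν.gen.mul_mem ha (ev q).1
      refine ⟨p, q, hq, (ev_eq_zero ν (ν.gen.sub_mem m (ev p).1)).1 ?_⟩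
      rw [ν.ev_eq, evO_sub ν.ρ m (ev p).1, ← ν.ev_eq, ← ν.ev_eq, ev_mul ν ha (ev q).1, (ev p).2,
        (ev q).2, e, div_mul_cancel₀ _ fun x => tr ⟨q, hq, x⟩, sub_self]
  · rw [← hg]
    have key : ∀ t ∈ S.Sec D, IsU ν.gen (t * S.lb D ν.gen) → ∀ O ∈ S.T, ∀ O' ∈ S.T, O ≤ ν.gen →
        O' ≤ ν.gen → t * S.lb D O ∈ mx O → t * S.lb D O' ∈ mx O' → O = O' := by
      intro t ht v O hO O' hO' hle hle' m m'
      obtain ⟨Q, rfl⟩ := h.a1.pt ν O hO hle fun e => v.not_mx (e ▸ m)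
      obtain ⟨Q', rfl⟩ := h.a1.pt ν O' hO' hle' fun e => v.not_mx (e ▸ m')
      rw [uniq h hd ht v m m']
    rintro O hO O' hO' hle hle' (⟨c, m, m'⟩ | ⟨m, m'⟩)
    · have e : ∀ W, (s - c • s') * S.lb D W = (s / s' - algebraMap k M c) * (s' * S.lb D W) :=
        fun W => by rw [Algebra.smul_def]; field_simp
      refine key (s - c • s') (sub_mem hs ((S.Sec D).smul_mem c hs')) ?_ O hO O' hO' hle hle' ?_ ?_
      · rw [e]
        exact (isU_of_not_mx (ν.gen.sub_mem uw.mem (ν.gen.algebraMap_mem c)) (nc c)).mul u'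
      · rw [e]; exact mx_mul_right m (hs' O hO)
      · rw [e]; exact mx_mul_right m' (hs' O' hO')
    · have e : ∀ W, s' * S.lb D W = (s / s')⁻¹ * (s * S.lb D W) := fun W => by field_simp
      refine key s' hs' u' O hO O' hO' hle hle' ?_ ?_
      · rw [e]; exact mx_mul_right m (hs O hO)
      · rw [e]; exact mx_mul_right m' (hs O' hO')

end CrdA

open CrdA in
theorem crd_stmt : CrdStmt := by
  intro k M I _ _ _ _ _ _ S d D φ P h hφ h1 h2
  obtain ⟨s, hs, s', hs', u', ind⟩ := h.a3.res2 d φ P hφ D h2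
  obtain ⟨ν, hg, hnu, -⟩ := h.a1.cur P hφ.2.1
  have hd := h.s.deg _ φ P hφ ν hg D
  rw [hnu, h1, Nat.cast_one, one_mul] at hd
  rw [← hg] at u' ind
  have s0' : s' ≠ 0 := left_ne_zero_of_mul u'.1
  have uw : IsU ν.gen (s / s') := by simpa using ind_one ind 0
  have u : IsU ν.gen (s * S.lb D ν.gen) := by
    have := uw.mul u'
    rwa [← mul_assoc, div_mul_cancel₀ _ s0'] at this
  have tr := ev_transcendental ν uw.mem fun c => (ind_one ind c).not_mx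
  refine ⟨s, hs, s', hs', left_ne_zero_of_mul u.1, s0', cw h hd hs hs' u u' tr hg,
    cw h hd hs' hs u' u ?_ hg, hg ▸ two h hd hs hs' u u' tr⟩
  rw [(tr_inv u u').2]
  exact fun x => tr (IsAlgebraic.inv_iff.1 x)

end Pool.Agent.MP_e8e0b6_ag.R2
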