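import Pool.Agent.MP_e8e0b6_ag.R2.SpecS

/-!
The divisor is a projective line over the base.
-/

set_option autoImplicit false

open Polynomial AlgebraicGeometry CategoryTheory

namespace Pool.Agent.MP_e8e0b6_ag.R2

open Pool.Agent.MP_79c67d_ag Pool.Agent.MP_20d318_ag Pool.Agent.MP_20d318_ag.AG
  Pool.Agent.MP_20d318_ag.BV Pool.Agent.MP_20d318_ag.CB

namespace CrvZ

variable {k F κ : Type} [Field k] [Field F] [Field κ] [Algebra k F] [Algebra k κ]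
  {R D : Subalgebra k F} {ρ : D →ₐ[k] κ}

theorem red_rat (h : R ≤ D) (hR : IsLocalRing R) (hr : RatPt R) : RatPt (red D ρ R) := by
  intro f hf
  obtain ⟨a, ha, -, rfl⟩ := C.mem_red.1 hf
  obtain ⟨c, hc⟩ := hr a ha
  have e : evO D ρ a - algebraMap k κ c = evO D ρ (a - algebraMap k F c) := by
    rw [evO_sub ρ (h ha) (D.algebraMap_mem c), evO_const]
  refine ⟨c, e ▸ ⟨C.ev_mem h hc.1, fun hu => ?_⟩⟩
  obtain ⟨b, hb, -, h1⟩ := C.mem_red.1 hu.inv_mem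
  have h2 := mx_mul_left hb hc
  have h3 : IsU R (1 - b * (a - algebraMap k F c)) := by
    simpa [sub_eq_add_neg] using isU_one.add_mx hR (mx_neg h2)
  refine evO_ne ρ (h3.mono h) ?_
  rw [evO_sub ρ D.one_mem (h h2.1), evO_one, evO_mul ρ (h hb) (h hc.1), h1,
    inv_mul_cancel₀ hu.ne, sub_self]

theorem not_alg (h : R ≤ D) {r : F} (hr : r ∈ D)
    (hu : ∀ p : R[X], p ≠ 0 → IsU D (aeval r p)) : ¬ IsAlgebraic (red D ρ R) (evO D ρ r) := by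
  rintro ⟨q, hq, h0⟩
  let φ : R →ₐ[k] red D ρ R := (ρ.comp (Subalgebra.inclusion h)).codRestrict _
    fun a => ⟨Subalgebra.inclusion h a, a.2, rfl⟩
  have hφ : Function.Surjective (φ : R →+* red D ρ R) := by
    rintro ⟨_, a, ha, rfl⟩
    exact ⟨⟨a, ha⟩, rfl⟩
  obtain ⟨p, rfl⟩ := Polynomial.map_surjective _ hφ q
  have hp : p ≠ 0 := fun e => hq (by rw [e, Polynomial.map_zero])
  refine evO_ne ρ (hu p hp) ?_
  have e1 : aeval r p = ((p.eval₂ (Subalgebra.inclusion h : R →+* D) ⟨r, hr⟩ : D) : F) :=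
    (Polynomial.hom_eval₂ p (Subalgebra.inclusion h : R →+* D) (D.val : D →+* F) ⟨r, hr⟩).symm
  rw [e1, evO_coe]
  rw [aeval_def, eval₂_map, evO_of_mem ρ hr] at h0
  exact (Polynomial.hom_eval₂ p (Subalgebra.inclusion h : R →+* D) (ρ : D →+* κ) ⟨r, hr⟩).trans h0

theorem exists_alg (B : Subalgebra k κ) : ∃ O : Subalgebra k κ, IsLocalRing O ∧ B ≤ O ∧
    (∀ a, a ∈ O ↔ IsAlgebraic B a) ∧ ∀ a ∈ O, a⁻¹ ∈ O := by
  let O : Subalgebra k κ := (Subalgebra.algebraicClosure B κ).restrictScalars k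
  have hm : ∀ a, a ∈ O ↔ IsAlgebraic B a := fun _ => Iff.rfl
  have hi : ∀ a ∈ O, a⁻¹ ∈ O := fun a ha => (hm _).2 ((hm a).1 ha).inv
  have h0 : ∀ a ∈ mx O, a = 0 := fun a ha => by_contra fun hn => ha.2 ⟨hn, ha.1, hi a ha.1⟩
  refine ⟨O, isLocalRing_of fun a ha b hb => ?_,
    fun a ha => (hm a).2 (isAlgebraic_algebraMap (⟨a, ha⟩ : B)), hm, hi⟩
  rw [h0 a ha, h0 b hb, add_zero]
  exact zero_mem_mx

end CrvZ

open CrvZ in
theorem crv_stmt (h1 : CrvAStmt) (h2 : CrvBStmt) (h3 : CrvCStmt) (h4 : HtStmt)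
    (h5 : C.NrmStmt) : CrvStmt := by
  intro k F M κ I _ _ _ _ _ _ _ _ _ _ R H ξ ρ S d φ P z w D ρ' j H' hZ hW hD hR
  have L := hZ.lc
  have hle : R ≤ D := C.xx_le hD.mem
  obtain ⟨hw, hA⟩ := h1 k F M κ I R H ξ ρ S d φ P z w D ρ' j H' hZ hW hD hR
  have hW' : Wd R H ξ ρ S P w⁻¹ :=
    ⟨hW.un.inv, hW.cw', by rw [inv_inv]; exact hW.cw, fun O hO a b => by
      rw [inv_inv]; exact (hW.reg O hO a b).symm⟩
  have hB : ∀ O : Subalgebra k κ, IsLocalRing O → red D ρ' R ≤ O →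
      evO D ρ' w ∈ O ∨ (evO D ρ' w)⁻¹ ∈ O → Prin H' O := by
    refine h3 k κ (red D ρ' R) H' (evO D ρ' w) (C.red_loc hle L.loc) (red_rat hle L.loc L.rat) ?_
    rintro u (rfl | rfl) c O hO hd hm
    · exact h2 k F M κ I R H ξ ρ S d φ P z w D ρ' j H' hZ hW hD hR c O hO hd hm
    · rw [← evO_inv ρ' hw] at hO hm
      exact h2 k F M κ I R H ξ ρ S d φ P z w⁻¹ D ρ' j H' hZ hW' hD hR c O hO hd hm
  refine ⟨fun halg => ?_, fun O hO hl => ⟨hA O hO hl, hB O hO hl⟩⟩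
  obtain ⟨O, hO, hl, hm, hi⟩ := exists_alg (red D ρ' R)
  obtain ⟨b, -, hb⟩ := (hB O hO hl (Or.inl ((hm _).2 halg))).exists_mem
  have hj := L.fm.nz j hR.mem
  have hH : ∀ a ∈ H, evO D ρ' (a / j) ∈ O := by
    have e : ∀ a ∈ H, evO D ρ' (a / j) / b ∈ O := fun a ha => hb.1 _ (hR.eq ▸ ⟨a, ha, rfl⟩)
    have e1 := hi _ (e j hR.mem)
    rw [div_self hj, evO_one, one_div, inv_inv] at e1
    intro a ha
    have := O.mul_mem (e a ha) e1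
    rwa [div_mul_cancel₀ _ hb.ne] at this
  obtain ⟨j0, hj0, hP⟩ := hD.mem
  have hu : IsU D (j0 / j) := ⟨div_ne_zero (L.fm.nz j0 hj0) hj, hR.gen j0 hj0, by
    rw [inv_div]; exact hP.2.1 (C.div_mem_ch hR.mem)⟩
  have hT : ch R H j0 ≤ (O.comap ρ').map D.val := by
    refine C.ch_le (fun a ha => ⟨⟨a, hle ha⟩, hl ⟨⟨a, hle ha⟩, ha, rfl⟩, rfl⟩) fun a ha => ?_
    have hm' : a / j0 ∈ D := hP.2.1 (C.div_mem_ch ha)
    refine ⟨⟨_, hm'⟩, ?_, rfl⟩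
    change ρ' ⟨_, hm'⟩ ∈ O
    rw [← evO_of_mem ρ' hm', ← div_div_div_cancel_right₀ hj a j0, evO_div ρ' (hR.gen a ha) hu,
      div_eq_mul_inv]
    exact O.mul_mem (hH a ha) (hi _ (hH j0 hj0))
  have hT' : ∀ a ∈ ch R H j0, evO D ρ' a ∈ O := fun a ha => by
    obtain ⟨x, hx, rfl⟩ := hT ha
    exact (evO_coe ρ' x).symm ▸ hx
  obtain ⟨a0, b0, hg, -⟩ := hZ.all.a1.chart ⊤ hZ.all.a1.nice.toFine.top
  obtain ⟨x, rfl⟩ := L.surj a0
  obtain ⟨y, rfl⟩ := L.surj b0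
  have hind := (h5 k F M I R H ξ ρ S L ((x : F), (y : F)) x.2 y.2
    (by rw [evO_coe, evO_coe]; exact hg)).1
  obtain ⟨r, hr, hr'⟩ := h4 k F R D ((fun a => a / j0) '' H) x y (L.fm.fin.image _)
    (L.fm.frac j0 hj0) hP hD.hor hind hD.rk
  refine not_alg (ρ := ρ') hle hr hr' ((hm _).1 ?_)
  obtain ⟨a, ha, e, he, hu', rfl⟩ := hP.2.2 r hr
  rw [evO_div ρ' (hP.2.1 ha) hu', div_eq_mul_inv]
  exact O.mul_mem (hT' a ha) (hi _ (hT' e he))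

end Pool.Agent.MP_e8e0b6_ag.R2
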