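import Pool.Agent.MP_e8e0b6_ag.R2.SpecS

/-!
The coordinate on the divisor is a morphism to the projective line.
-/

set_option autoImplicit false

open Polynomial AlgebraicGeometry CategoryTheory

namespace Pool.Agent.MP_e8e0b6_ag.R2

open Pool.Agent.MP_79c67d_ag Pool.Agent.MP_20d318_ag Pool.Agent.MP_20d318_ag.AG
  Pool.Agent.MP_20d318_ag.BV Pool.Agent.MP_20d318_ag.CB

namespace CrvAA

variable {k F M I : Type} [Field k] [Field F] [Field M] [Algebra k F] [Algebra k M] [Fintype I]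
  {R ξ D O : Subalgebra k F} {H : Set F} {ρ : ξ →ₐ[k] M} {S : Sd k M I} {d : I → ℤ} {φ : M}
  {P : Place k M} {z : Subalgebra k F → F}

/-- The points of the closed fibre on the divisor. -/
theorem le_iff (hZ : Zd R H ξ ρ S d φ P z) (hD : Dd R H z D) (hO : O ∈ XX R H)
    (hd : AG.Dom R O) : O ≤ D ↔ red ξ ρ O ≤ plO P := by
  have hu := hZ.red O hO hd
  have h0 := (div_ne_zero_iff.1 hu.ne).2
  have h1 := (div_ne_zero_iff.1 hu.ne).1
  rw [← hD.iff O hO, ← C.mx_iff hZ.lc ⟨hO, hd⟩ (hZ.mem O hO),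
    ← hZ.all.a1.pmx d φ P hZ.prm _ (C.red_mem hZ.lc ⟨hO, hd⟩)]
  constructor
  · intro hm
    have := mx_mul_left hu.inv_mem hm
    rwa [inv_div, div_mul_cancel₀ _ h1] at this
  · intro hm
    have := mx_mul_left hu.mem hm
    rwa [div_mul_cancel₀ _ h0] at this

end CrvAA

theorem crvA_stmt (h1 : ZcStmt) : CrvAStmt := by
  intro k F M κ I _ _ _ _ _ _ _ _ _ _ R H ξ ρ S d φ P z w D ρ' j H' hZ hW hD hR
  have hw : IsU D w := by
    obtain ⟨O, hO, e⟩ := C.exists_red hZ.lc hZ.prm.2.1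
    have hu : IsU (red ξ ρ O) (evO ξ ρ w) := by
      rw [e]
      simpa using hW.cw.ind.2 (MvPolynomial.X 0) (MvPolynomial.X_ne_zero 0)
    refine IsU.mono ?_ ((CrvAA.le_iff hZ hD hO.1 hO.2).2 e.le)
    rcases hW.reg O hO.1 hO.2 e.le with h | h
    · exact (C.unit_iff hZ.lc hO h).1 hu
    · have := ((C.unit_iff hZ.lc hO h).1 (by rw [evO_inv ρ hW.un]; exact hu.inv)).inv
      rwa [inv_inv] at this
  refine ⟨hw, fun O hO hle hp => ?_⟩
  obtain ⟨O₁, h2, h3, h4⟩ := (h1 k F κ R D H ρ' j H' hZ.lc.fm.nz (C.xx_le hD.mem) hR).1 O hO hle hp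
  obtain ⟨O₂, h5, h6⟩ := C.xx_spec hZ.lc.fm hZ.lc.loc h2
  rcases hW.reg O₂ h5.1 h5.2 ((CrvAA.le_iff hZ hD h5.1 h5.2).1 (h6.trans h3)) with h | h
  · exact Or.inl (h4.1 (C.ev_mem h3 (h6 h)))
  · refine Or.inr ?_
    rw [← evO_inv ρ' hw]
    exact h4.1 (C.ev_mem h3 (h6 h))

end Pool.Agent.MP_e8e0b6_ag.R2
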