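import Pool.Agent.MP_e8e0b6_ag.R2.SpecS

/-!
CRVB: the inverse morphism at the rational points of the closed fibre.
-/

set_option autoImplicit false

open Polynomial AlgebraicGeometry CategoryTheory

namespace Pool.Agent.MP_e8e0b6_ag.R2

open Pool.Agent.MP_79c67d_ag Pool.Agent.MP_20d318_ag Pool.Agent.MP_20d318_ag.AG
  Pool.Agent.MP_20d318_ag.BV Pool.Agent.MP_20d318_ag.CB

namespace CrvBA

variable {k F κ : Type} [Field k] [Field F] [Field κ] [Algebra k F] [Algebra k κ]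
  {O D : Subalgebra k F} {ρ : D →ₐ[k] κ} {a w : F}

theorem coe_aeval (h : w ∈ O) (p : k[X]) : ((aeval (⟨w, h⟩ : O) p : O) : F) = aeval w p :=
  (aeval_algHom_apply O.val (⟨w, h⟩ : O) p).symm

theorem aev_mem (h : w ∈ O) (p : k[X]) : aeval w p ∈ O :=
  coe_aeval h p ▸ (aeval (⟨w, h⟩ : O) p).2

theorem ev_aeval (ρ : D →ₐ[k] κ) (h : w ∈ D) (p : k[X]) :
    evO D ρ (aeval w p) = aeval (evO D ρ w) p := by
  rw [← coe_aeval h p, evO_coe, evO_of_mem ρ h, aeval_algHom_apply]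

/-- Units lift from the image in the residue field. -/
theorem lift_unit (hl : LocHom D ρ) (hO : IsLocalRing O) (hle : O ≤ D) (ha : a ∈ O)
    (hu : IsU (red D ρ O) (evO D ρ a)) : IsU O a := by
  obtain ⟨e, he, -, h1⟩ := C.mem_red.1 hu.inv_mem
  have h0 : a * e - 1 ∈ O := O.sub_mem (O.mul_mem ha he) O.one_mem
  have h2 : a * e - 1 ∈ mx O := mx_of_le hle h0 ((hl.eq_zero_iff (hle h0)).1 (by
    rw [evO_sub ρ (hle (O.mul_mem ha he)) D.one_mem, evO_mul ρ (hle ha) (hle he), h1, evO_one,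
      mul_inv_cancel₀ hu.ne, sub_self]))
  have h3 := isU_one.add_mx hO h2
  rw [add_sub_cancel] at h3
  exact IsU.of_mul ha he h3

theorem unit_aeval {c : k} (hO : IsLocalRing O) (h : w - algebraMap k F c ∈ mx O) {q : k[X]}
    (hq : q.eval c ≠ 0) : IsU O (aeval w q) := by
  have hw : w ∈ O := by simpa using O.add_mem h.1 (O.algebraMap_mem c)
  obtain ⟨r, hr⟩ := X_sub_C_dvd_sub_C_eval (a := c) (p := q)
  have e := congrArg (aeval w) hr
  rw [map_sub, map_mul, map_sub, aeval_C, aeval_C, aeval_X, sub_eq_iff_eq_add'] at e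
  rw [e]
  exact (isU_const hq).add_mx hO (mx_mul_right h (aev_mem hw r))

end CrvBA

open CrvBA in
theorem crvB_stmt (h1 : ZcStmt) (h2 : CrvAStmt) (h3 : Cw2Stmt) (h4 : VnStmt) : CrvBStmt := by
  intro k F M κ I _ _ _ _ _ _ _ _ _ _ R H ξ ρ S d φ P z w D ρ' j H' hZ hW hD hR c O hO hdom hc
  have L := hZ.lc
  have hRD : R ≤ D := C.xx_le hD.mem
  obtain ⟨zc1, zc2⟩ := h1 k F κ R D H ρ' j H' L.fm.nz hRD hR
  have hw : IsU D w := (h2 k F M κ I R H ξ ρ S d φ P z w D ρ' j H' hZ hW hD hR).1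
  have hwO : evO D ρ' w ∈ O := by simpa using O.add_mem hc.1 (O.algebraMap_mem c)
  have hfin : H'.Finite := hR.eq ▸ L.fm.fin.image _
  have hne : ∃ a ∈ H', a ≠ 0 := ⟨1, hR.eq ▸ ⟨j, hR.mem, by
    simp only [div_self (L.fm.nz j hR.mem), evO_one]⟩, one_ne_zero⟩
  have ctr : ∀ V : Subalgebra k κ, IsVal V → AG.Dom O V → ∃ O₁ ∈ C.Xs R H, O₁ ≤ D ∧
      AG.Dom (red D ρ' O₁) V ∧ red ξ ρ O₁ ≤ plO P ∧ w ∈ O₁ ∧
      evO ξ ρ w - algebraMap k M c ∈ mx (red ξ ρ O₁) := by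
    intro V hV hd
    obtain ⟨O₁, m1, l1, d1⟩ := zc1 V hV.isLocalRing (hdom.1.trans hd.1) (hV.prin hfin hne)
    have loc := C.xx_loc m1
    have x1 : O₁ ∈ C.Xs R H := ⟨m1, C.xx_le m1, fun u hu h => lift_unit hR.lh L.loc hRD hu
      ((hdom.trans hd).2 _ (C.ev_mem hRD hu) ((C.ev_unit l1 h).mono d1.1))⟩
    have p1 : red ξ ρ O₁ ≤ plO P := by
      refine (hZ.all.a1.pmx d φ P hZ.prm _ (C.red_mem L x1)).1 ?_
      have hu := hZ.red O₁ m1 x1.2
      have := mx_div ((C.mx_iff L x1 (hZ.mem O₁ m1)).2 ((hD.iff O₁ m1).2 l1)) hu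
      rwa [div_div_cancel₀ (div_ne_zero_iff.1 hu.ne).1] at this
    have w1 : w ∈ O₁ := (hW.reg O₁ m1 x1.2 p1).elim id fun h => by
      have hu : IsU V (evO D ρ' w⁻¹) := by
        refine ⟨evO_ne ρ' hw.inv, d1.1 (C.ev_mem l1 h), ?_⟩
        rw [evO_inv ρ' hw, inv_inv]
        exact hd.1 hwO
      simpa using (lift_unit hR.lh loc l1 h (d1.2 _ (C.ev_mem l1 h) hu)).inv_mem
    have w2 : w - algebraMap k F c ∈ O₁ := O₁.sub_mem w1 (O₁.algebraMap_mem c)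
    refine ⟨O₁, x1, l1, d1, p1, w1, ?_⟩
    rw [← evO_const ρ c, ← evO_sub ρ hW.un.mem (ξ.algebraMap_mem c)]
    refine (C.mx_iff L x1 w2).2 ⟨w2, fun hu => ?_⟩
    have := (C.ev_unit (ρ := ρ') l1 hu).mono d1.1
    rw [evO_sub ρ' hw.mem (D.algebraMap_mem c), evO_const] at this
    exact this.not_mx (hd.mx hc)
  obtain ⟨V₀, hV₀, d₀⟩ := AG.exists_val hO.1
  obtain ⟨Q, xQ, lQ, dQ, pQ, wQ, cQ⟩ := ctr V₀ hV₀ d₀
  have all : ∀ V : Subalgebra k κ, IsVal V → AG.Dom O V → AG.Dom (red D ρ' Q) V := by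
    intro V hV hd
    obtain ⟨O₁, x1, -, d1, p1, -, c1⟩ := ctr V hV hd
    rwa [C.red_inj L xQ x1 (hW.cw.inj _ (C.red_mem L xQ) _ (C.red_mem L x1) pQ p1
      (Or.inl ⟨c, cQ, c1⟩))]
  have hOB : O ≤ red D ρ' Q := Pts_le hO (sup_le (C.red_mono (C.xx_le xQ.1))
    (Algebra.adjoin_le (Set.singleton_subset_iff.2 (C.ev_mem lQ wQ)))) d₀.1 dQ
  obtain ⟨pr, G, fG, hG⟩ := zc2 Q xQ.1 lQ
  obtain ⟨W, fW, hWs⟩ := h4 k κ O (red D ρ' Q) G hO.1 (fG L.fm.fin)
    (Pts_of_le hG (sup_le_sup_right hdom.1 _) (sup_le hOB (le_sup_right.trans hG.2.1))) all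
  refine pr.mono fun b hb => ?_
  have := hO.1
  have zD : evO D ρ' (z Q) = 0 := by
    have hu := C.dt_unit hZ.dt xQ.1 hD.mem lQ le_rfl
    have h5 := mx_mul_left hu.mem ((hD.iff D hD.mem).2 le_rfl)
    rw [div_mul_cancel₀ _ (div_ne_zero_iff.1 hu.ne).2] at h5
    exact (hR.lh.eq_zero_iff h5.1).2 h5
  have sp : ∀ y ∈ Submodule.span Q (mx R), ∀ b ∈ red D ρ' Q,
      b * evO D ρ' y ∈ IsLocalRing.maximalIdeal O • Submodule.span O W := by
    have mm : ∀ y ∈ Submodule.span Q (mx R), y ∈ D := fun y hy =>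
      C.span_mem lQ (fun _ h => hRD h.1) hy
    intro y hy
    induction hy using Submodule.span_induction with
    | mem r hr =>
      intro b hb
      have h5 : evO D ρ' r ∈ mx O := hdom.mx
        ⟨C.ev_mem hRD hr.1, fun hu => hr.2 (lift_unit hR.lh L.loc hRD hr.1 hu)⟩
      rw [mul_comm]
      exact Submodule.smul_mem_smul ((mem_mx_iff (⟨_, h5.1⟩ : O)).1 h5) ((hWs b).1 hb)
    | zero => intro b _; rw [evO_zero, mul_zero]; exact zero_mem _
    | add y y' hy hy' i1 i2 =>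
      intro b hb
      rw [evO_add ρ' (mm y hy) (mm y' hy'), mul_add]
      exact add_mem (i1 b hb) (i2 b hb)
    | smul e y hy i1 =>
      intro b hb
      have h5 : e • y = (e : F) * y := rfl
      rw [h5, evO_mul ρ' (lQ e.2) (mm y hy), ← mul_assoc]
      exact i1 _ (mul_mem hb (C.ev_mem lQ e.2))
  have nak : Submodule.span O W ≤ Submodule.span O {(1 : κ)} := by
    refine Submodule.le_of_le_smul_of_le_jacobson_bot (Submodule.fg_span fW)
      (IsLocalRing.maximalIdeal_le_jacobson ⊥) fun b hb => ?_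
    obtain ⟨a, ha, -, rfl⟩ := C.mem_red.1 ((hWs b).2 hb)
    have lξ := C.xs_le L xQ
    obtain ⟨p, q, hq, hy⟩ := h3 k M I S d φ (evO ξ ρ w) P c hZ.all hZ.prm hW.cw _
      (C.red_mem L xQ) pQ cQ _ (C.ev_mem lξ ha)
    have hu := hZ.red Q xQ.1 xQ.2
    obtain ⟨e, he, -, e1⟩ := C.mem_red.1 (hu.div_mem hy)
    obtain ⟨n1, n2⟩ := div_ne_zero_iff.1 hu.ne
    rw [div_div_div_cancel_right₀ n2] at e1
    have zQ := hZ.mem Q xQ.1
    have m1 := Q.mul_mem ha (aev_mem wQ q)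
    have m2 := Q.sub_mem m1 (aev_mem wQ p)
    have m3 := Q.mul_mem zQ he
    have h5 : a * aeval w q - aeval w p - z Q * e ∈ Submodule.span Q (mx R) := by
      refine L.fib.red Q xQ.1 xQ.2 _ (Q.sub_mem m2 m3)
        ((L.lh.eq_zero_iff (lξ (Q.sub_mem m2 m3))).1 ?_)
      rw [evO_sub ρ (lξ m2) (lξ m3), evO_sub ρ (lξ m1) (lξ (aev_mem wQ p)),
        evO_mul ρ (lξ ha) (lξ (aev_mem wQ q)), evO_mul ρ (lξ zQ) (lξ he), e1,
        ev_aeval ρ hW.un.mem, ev_aeval ρ hW.un.mem, mul_div_cancel₀ _ n1, sub_self]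
    have uq := unit_aeval hO.1 hc hq
    have h6 := sp _ h5 _ (hOB uq.inv_mem)
    rw [evO_sub ρ' (lQ m2) (lQ m3), evO_sub ρ' (lQ m1) (lQ (aev_mem wQ p)),
      evO_mul ρ' (lQ ha) (lQ (aev_mem wQ q)), evO_mul ρ' (lQ zQ) (lQ he), zD,
      ev_aeval ρ' hw.mem, ev_aeval ρ' hw.mem, zero_mul, sub_zero] at h6
    have h7 : aeval (evO D ρ' w) p / aeval (evO D ρ' w) q ∈ Submodule.span O {(1 : κ)} := by
      simpa using C.span_mul (uq.div_mem (aev_mem hwO p))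
        (Submodule.subset_span (Set.mem_singleton (1 : κ)))
    have h8 := Submodule.add_mem_sup h7 h6
    have n3 := uq.ne
    rwa [show aeval (evO D ρ' w) p / aeval (evO D ρ' w) q + (aeval (evO D ρ' w) q)⁻¹ *
      (evO D ρ' a * aeval (evO D ρ' w) q - aeval (evO D ρ' w) p) = evO D ρ' a by
        field_simp; ring] at h8
  exact C.span_mem le_rfl (Set.singleton_subset_iff.2 O.one_mem) (nak ((hWs b).1 hb))

end Pool.Agent.MP_e8e0b6_ag.R2
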