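import Pool.Agent.MP_e8e0b6_ag.R2.SpecS

/-!
Row CRVC: it is enough to look at the rational points of the closed fibre of the line.
-/

set_option autoImplicit false

open Polynomial

namespace Pool.Agent.MP_e8e0b6_ag.R2

open Pool.Agent.MP_79c67d_ag Pool.Agent.MP_20d318_ag Pool.Agent.MP_20d318_ag.AG
  Pool.Agent.MP_20d318_ag.BV Pool.Agent.MP_20d318_ag.CB

namespace CrvCA

variable {k κ : Type} [Field k] [Field κ] [Algebra k κ] {R V : Subalgebra k κ} {u : κ}

theorem ev_mem (hu : u ∈ V) (p : k[X]) : aeval u p ∈ V :=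
  Algebra.adjoin_le (Set.singleton_subset_iff.2 hu) (aeval_mem_adjoin_singleton k u)

/-- a common root of the polynomials that vanish at the centre -/
theorem root [IsAlgClosed k] (hV : IsLocalRing V) (hu : u ∈ V) :
    ∃ c : k, ∀ p : k[X], aeval u p ∈ mx V → p.eval c = 0 := by
  let I : Ideal k[X] :=
    { carrier := {p | aeval u p ∈ mx V}
      add_mem' := fun {p q} hp hq => by
        show aeval u (p + q) ∈ mx V
        rw [map_add]; exact mx_add hV hp hq
      zero_mem' := by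
        show aeval u (0 : k[X]) ∈ mx V
        rw [map_zero]; exact zero_mem_mx
      smul_mem' := fun p q hq => by
        show aeval u (p * q) ∈ mx V
        rw [map_mul]; exact mx_mul_left (ev_mem hu p) hq }
  obtain ⟨f, hf⟩ := (IsPrincipalIdealRing.principal I).principal
  have hm : ∀ p, aeval u p ∈ mx V ↔ f ∣ p := fun p => by
    rw [← Ideal.mem_span_singleton]
    exact SetLike.ext_iff.1 hf p
  obtain ⟨c, hc⟩ := IsAlgClosed.exists_root f fun h0 => by
    have := (hm 1).2 (isUnit_iff_degree_eq_zero.2 h0).dvd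
    rw [map_one] at this
    exact one_not_mem_mx this
  exact ⟨c, fun p hp => hc.dvd ((hm p).1 hp)⟩

theorem mul (hV : IsLocalRing V) (hu : u ∈ V) {a b : κ} {p q : k[X]} (hb : b ∈ V)
    (h1 : a - aeval u p ∈ mx V) (h2 : b - aeval u q ∈ mx V) :
    a * b - aeval u (p * q) ∈ mx V := by
  have := mx_add hV (mx_mul_right h1 hb) (mx_mul_left (ev_mem hu p) h2)
  rw [map_mul]
  convert this using 1
  ring

theorem add (hV : IsLocalRing V) {a b : κ} {p q : k[X]}
    (h1 : a - aeval u p ∈ mx V) (h2 : b - aeval u q ∈ mx V) :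
    a + b - aeval u (p + q) ∈ mx V := by
  have := mx_add hV h1 h2
  rw [map_add]
  convert this using 1
  ring

/-- elements of the ring of the line are polynomials modulo the centre -/
theorem poly (hV : IsLocalRing V) (hu : u ∈ V) (hd : AG.Dom R V) (hR : RatPt R) {b : κ}
    (hb : b ∈ R ⊔ Algebra.adjoin k {u}) : b ∈ V ∧ ∃ p : k[X], b - aeval u p ∈ mx V := by
  let S : Subalgebra k κ :=
    { carrier := {b | b ∈ V ∧ ∃ p : k[X], b - aeval u p ∈ mx V}
      mul_mem' := fun ⟨ha, p, hp⟩ ⟨hb, q, hq⟩ => ⟨V.mul_mem ha hb, _, mul hV hu hb hp hq⟩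
      add_mem' := fun ⟨ha, p, hp⟩ ⟨hb, q, hq⟩ => ⟨V.add_mem ha hb, _, add hV hp hq⟩
      algebraMap_mem' := fun c => ⟨V.algebraMap_mem c, C c, by simpa using zero_mem_mx⟩ }
  have : R ⊔ Algebra.adjoin k {u} ≤ S := sup_le (fun f hf => by
    obtain ⟨c, hc⟩ := hR f hf
    exact ⟨hd.1 hf, C c, by simpa using hd.mx hc⟩)
    (Algebra.adjoin_le (Set.singleton_subset_iff.2 ⟨hu, X, by simpa using zero_mem_mx⟩))
  exact this hb

/-- a rational point of the closed fibre below the centre -/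
theorem point [IsAlgClosed k] (hV : IsLocalRing V) (hu : u ∈ V) (hd : AG.Dom R V) (hR : RatPt R) :
    ∃ c : k, ∃ O ∈ Pts (R ⊔ Algebra.adjoin k {u}), AG.Dom R O ∧ u - algebraMap k κ c ∈ mx O ∧
      O ≤ V := by
  obtain ⟨c, hc⟩ := root hV hu
  have uq : ∀ {a : κ} {p q : k[X]}, a - aeval u p ∈ mx V → a - aeval u q ∈ mx V →
      p.eval c = q.eval c := fun {a p q} h1 h2 => by
    have := hc (p - q) (by
      have := mx_sub' hV h2 h1
      rw [map_sub]
      convert this using 1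
      ring)
    rwa [eval_sub, sub_eq_zero] at this
  obtain ⟨O, hO, hU⟩ := exists_loc (R ⊔ Algebra.adjoin k {u})
    {b | ∃ p : k[X], p.eval c = 0 ∧ b - aeval u p ∈ mx V} ⟨0, by simp, by simpa using zero_mem_mx⟩
    (fun ⟨p, h0, hp⟩ => by
      have := uq (q := 1) hp (by simpa using zero_mem_mx)
      simp [h0] at this)
    (fun a _ b _ ⟨p, h0, hp⟩ ⟨q, h1, hq⟩ => ⟨p + q, by simp [h0, h1], add hV hp hq⟩)
    fun a ha b hb => by
      obtain ⟨-, p, hp⟩ := poly hV hu hd hR ha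
      obtain ⟨hb', q, hq⟩ := poly hV hu hd hR hb
      have hpq := mul hV hu hb' hp hq
      constructor
      · rintro ⟨r, h0, hr⟩
        have := uq hpq hr
        rw [h0, eval_mul, mul_eq_zero] at this
        exact this.imp (fun h => ⟨p, h, hp⟩) fun h => ⟨q, h, hq⟩
      · rintro (⟨r, h0, hr⟩ | ⟨r, h0, hr⟩)
        · exact ⟨_, by rw [eval_mul, uq hp hr, h0, zero_mul], hpq⟩
        · exact ⟨_, by rw [eval_mul, uq hq hr, h0, mul_zero], hpq⟩
  have hl : R ≤ R ⊔ Algebra.adjoin k {u} := le_sup_left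
  have hc' : u - algebraMap k κ c ∈ R ⊔ Algebra.adjoin k {u} :=
    sub_mem (le_sup_right (a := R) (Algebra.self_mem_adjoin_singleton k u))
      (Subalgebra.algebraMap_mem _ c)
  refine ⟨c, O, hO, ⟨hl.trans hO.2.1, fun a ha h => isU_of_not_mx ha fun h' =>
    (hU a (hl ha)).1 h ⟨0, by simp, by simpa using hd.mx h'⟩⟩, ⟨hO.2.1 hc', fun h =>
      (hU _ hc').1 h ⟨X - C c, by simp, by simpa using zero_mem_mx⟩⟩, fun f hf => ?_⟩
  obtain ⟨a, ha, b, hb, h, rfl⟩ := hO.2.2 f hf
  exact (isU_of_not_mx (poly hV hu hd hR hb).1 fun h' =>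
    (hU b hb).1 h ⟨0, by simp, by simpa using h'⟩).div_mem (poly hV hu hd hR ha).1

end CrvCA

theorem crvC_stmt : CrvCStmt := by
  intro k κ _ _ _ _ R H w hR hr h O hO hle hw
  obtain ⟨V, hV, hd⟩ := AG.exists_val hO
  obtain ⟨V', hV', hd', hVV, -⟩ := C.exists_val_le hR hV (hle.trans hd.1)
  have key : ∀ u, u = w ∨ u = w⁻¹ → u ∈ V' → u ∈ O ∨ u⁻¹ ∈ O → Prin H O := fun u h1 h2 h3 => by
    have hu : u ∈ O := h3.elim id fun h4 => by
      by_cases h0 : u = 0
      · exact h0 ▸ O.zero_mem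
      · simpa using (hd.2 _ h4 ⟨inv_ne_zero h0, hd.1 h4, by simpa using hVV h2⟩).inv_mem
    obtain ⟨c, P, hP, g1, g2, g3⟩ := CrvCA.point hV'.isLocalRing h2 hd' hr
    exact (h u h1 c P hP g1 g2).mono (Pts_le hP
      (sup_le hle (Algebra.adjoin_le (Set.singleton_subset_iff.2 hu))) (g3.trans hVV) hd)
  exact (hV' w).elim (fun h2 => key w (.inl rfl) h2 hw) fun h2 =>
    key w⁻¹ (.inr rfl) h2 (by simpa using hw.symm)

end Pool.Agent.MP_e8e0b6_ag.R2
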