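import Pool.Agent.MP_e8e0b6_ag.R2.SpecT

/-!
Row CTR: a point of the geometric generic fibre lies over a point of the family.
-/

set_option autoImplicit false

namespace Pool.Agent.MP_e8e0b6_ag.R2

open Pool.Agent.MP_79c67d_ag Pool.Agent.MP_20d318_ag Pool.Agent.MP_20d318_ag.AG
  Pool.Agent.MP_20d318_ag.BV Pool.Agent.MP_20d318_ag.CB

theorem ctr_stmt : CtrStmt := by
  intro k F Ω E _ _ _ _ _ _ _ C H μ hC O' hO'
  obtain ⟨j', hj', hO⟩ := hO'
  obtain ⟨j, hj, e⟩ := hj' ()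
  have h1 : ∀ c ∈ C, μ c ∈ O' := fun c hc => by
    obtain ⟨w, hw⟩ := hC c hc
    exact hw ▸ O'.algebraMap_mem w
  let W : Subalgebra k F :=
    { carrier := {a | μ a ∈ O'}
      mul_mem' := fun {a b} ha hb => by
        change μ (a * b) ∈ O'
        rw [map_mul]
        exact O'.mul_mem ha hb
      add_mem' := fun {a b} ha hb => by
        change μ (a + b) ∈ O'
        rw [map_add]
        exact O'.add_mem ha hb
      algebraMap_mem' := fun c => h1 _ (C.algebraMap_mem c) }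
  have hu : ∀ a, IsU W a ↔ IsU O' (μ a) := fun a =>
    ⟨fun h => ⟨(_root_.map_ne_zero μ).2 h.1, h.2.1, by rw [← map_inv₀]; exact h.2.2⟩,
      fun h => ⟨(_root_.map_ne_zero μ).1 h.1, h.2.1, by
        change μ a⁻¹ ∈ O'
        rw [map_inv₀]
        exact h.2.2⟩⟩
  have hW : IsLocalRing W := isLocalRing_of fun a ha b hb => by
    have := mx_add hO.1 (a := μ a) (b := μ b) ⟨ha.1, fun h => ha.2 ((hu a).2 h)⟩
      ⟨hb.1, fun h => hb.2 ((hu b).2 h)⟩
    rw [← map_add] at this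
    exact ⟨this.1, fun h => this.2 ((hu _).1 h)⟩
  have hle : ch C H j ≤ W := sup_le h1 (Algebra.adjoin_le (by
    rintro _ ⟨a, ha, rfl⟩
    change μ (a / j) ∈ O'
    rw [map_div₀, e]
    exact hO.2.1 (Algebra.subset_adjoin (Set.mem_iUnion.2 ⟨(), _, ⟨a, ha, rfl⟩, rfl⟩))))
  obtain ⟨O, h2, h3⟩ := AG.exists_ctr hW hle
  exact ⟨O, ⟨j, hj, h2⟩, fun a ha => h3.1 ha⟩

end Pool.Agent.MP_e8e0b6_ag.R2
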