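import Pool.Agent.MP_e8e0b6_ag.R2.SpecS

/-!
Functions on a rational curve near a point.
-/

set_option autoImplicit false

open Polynomial AlgebraicGeometry CategoryTheory

namespace Pool.Agent.MP_e8e0b6_ag.R2

open Pool.Agent.MP_79c67d_ag Pool.Agent.MP_20d318_ag Pool.Agent.MP_20d318_ag.AG
  Pool.Agent.MP_20d318_ag.BV Pool.Agent.MP_20d318_ag.CB

namespace Cw2A

variable {k M : Type} [Field k] [Field M] [Algebra k M] {O W : Subalgebra k M} {w a : M} {c : k}

theorem ev_mem (hw : w - algebraMap k M c ∈ mx O) (p : k[X]) : aeval w p ∈ O :=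
  Algebra.adjoin_le (S := O) (Set.singleton_subset_iff.2 (by
    simpa using O.add_mem hw.1 (O.algebraMap_mem c))) (aeval_mem_adjoin_singleton k w)

theorem red (hO : IsLocalRing O) (hle : O ≤ W) (hw : w - algebraMap k M c ∈ mx O)
    (hu : IsU W (w - algebraMap k M c)) (ha : a ∈ O) (q : k[X]) : ∀ (m : ℕ) (p : k[X]),
    a * aeval w ((X - C c) ^ m * q) - aeval w p ∈ mx W →
      ∃ p' : k[X], a * aeval w q - aeval w p' ∈ mx W
  | 0, p, h => ⟨p, by simpa using h⟩
  | m + 1, p, h => by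
    obtain ⟨r, hr⟩ := X_sub_C_dvd_sub_C_eval (p := p) (a := c)
    have e : a * aeval w ((X - C c) ^ (m + 1) * q) - aeval w p = (a * aeval w ((X - C c) ^ m * q) -
        aeval w r) * (w - algebraMap k M c) - algebraMap k M (p.eval c) := by
      have := congrArg (aeval w) hr
      simp only [map_sub, map_mul, map_pow, aeval_X, aeval_C] at this ⊢
      linear_combination -this
    have h1 := mx_mul_left (O.sub_mem (O.mul_mem ha (ev_mem hw ((X - C c) ^ m * q))) (ev_mem hw r)) hw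
    rw [e] at h
    have h2 := mx_sub' hO h1 (mx_of_le hle (O.sub_mem h1.1 (O.algebraMap_mem _)) h)
    rw [sub_sub_cancel] at h2
    rw [show p.eval c = 0 from by_contra fun h0 => h2.2 (isU_const h0), map_zero, sub_zero] at h
    exact red hO hle hw hu ha q m r (by simpa only [mul_div_cancel_right₀ _ hu.ne] using mx_div h hu)

end Cw2A

theorem cw2_stmt : Cw2Stmt := by
  intro k M I _ _ _ _ _ _ S d φ w P c h hp hw O hO hle hc a ha
  obtain ⟨p, q, q0, h1⟩ := hw.gen a (hle ha)
  obtain ⟨q', e, hq⟩ := exists_eq_pow_rootMultiplicity_mul_and_not_dvd q q0 c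
  obtain ⟨p', h2⟩ := Cw2A.red (h.a1.nice.loc O hO) hle hc (ind_one hw.ind c) ha q' _ p (e ▸ h1)
  refine ⟨p', q', fun h0 => hq (dvd_iff_isRoot.2 h0), ?_⟩
  have h3 := O.sub_mem (O.mul_mem ha (Cw2A.ev_mem hc q')) (Cw2A.ev_mem hc p')
  generalize a * aeval w q' - aeval w p' = b at h2 h3
  rcases eq_or_ne b 0 with rfl | b0
  · rw [zero_div]; exact O.zero_mem
  have ca := h.a1.pcart d φ hp.1
  refine h.a1.nice.krull hO fun P' hP' hle' => mem_plO_ord.2 ?_
  rw [P'.ord_div b0 (ca.ne hO), B2.ord_eq ca hO hP' hle', hp.2.2 P' hP']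
  split_ifs with e'
  · have := (mx_plO b0).1 (e' ▸ h2)
    omega
  · simpa using mem_plO_ord.1 (hle' h3)

end Pool.Agent.MP_e8e0b6_ag.R2
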