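import Pool.Agent.MP_e8e0b6_ag.R2.SpecS

/-!
The generic point of a divisor on the family that restricts to a prime divisor.
-/

set_option autoImplicit false

open Polynomial AlgebraicGeometry CategoryTheory

namespace Pool.Agent.MP_e8e0b6_ag.R2

open Pool.Agent.MP_79c67d_ag Pool.Agent.MP_20d318_ag Pool.Agent.MP_20d318_ag.AG
  Pool.Agent.MP_20d318_ag.BV Pool.Agent.MP_20d318_ag.CB

namespace DdA

variable {k F M I : Type} [Field k] [Field F] [Field M] [Algebra k F] [Algebra k M] [Fintype I]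
  {R O O' ξ : Subalgebra k F} {H : Set F} {ρ : ξ →ₐ[k] M} {S : Sd k M I} {d : I → ℤ} {φ : M}
  {P : Place k M} {z : Subalgebra k F → F} {t : F}

theorem dvd_iff (ht : t ∈ O) (h0 : t ≠ 0) (a : O) : (⟨t, ht⟩ : O) ∣ a ↔ (a : F) / t ∈ O :=
  ⟨fun ⟨c, e⟩ => by
    rw [e]
    change t * c / t ∈ O
    rw [mul_div_cancel_left₀ _ h0]
    exact c.2, fun h => ⟨⟨_, h⟩, Subtype.ext (mul_div_cancel₀ _ h0).symm⟩⟩

/-- An irreducible element of a factorial ring. -/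
theorem ufd (hU : UniqueFactorizationMonoid O) (ht : t ∈ mx O) (h0 : t ≠ 0)
    (hi : ∀ a ∈ O, ∀ b ∈ O, t = a * b → IsU O a ∨ IsU O b) :
    (∀ a ∈ O, ∀ b ∈ O, a * b / t ∈ O → a / t ∈ O ∨ b / t ∈ O) ∧
      ∀ a ∈ O, a ≠ 0 → ∃ n : ℕ, a / t ^ n ∈ O ∧ a / t ^ n / t ∉ O := by
  have hir : Irreducible (⟨t, ht.1⟩ : O) :=
    ⟨fun h => ht.2 ((isU_iff_isUnit (⟨t, ht.1⟩ : O)).2 h), fun a b e =>
      (hi a a.2 b b.2 (congrArg Subtype.val e)).imp (isU_iff_isUnit a).1 (isU_iff_isUnit b).1⟩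
  refine ⟨fun a ha b hb h => ?_, fun a ha h => ?_⟩
  · exact (hir.prime.dvd_or_dvd ((dvd_iff ht.1 h0 (⟨a, ha⟩ * ⟨b, hb⟩)).2 h)).imp
      (dvd_iff ht.1 h0 ⟨a, ha⟩).1 (dvd_iff ht.1 h0 ⟨b, hb⟩).1
  · obtain ⟨n, c, hc, e⟩ := WfDvdMonoid.max_power_factor (a₀ := (⟨a, ha⟩ : O))
      (fun e => h (congrArg Subtype.val e)) hir
    have e' : a / t ^ n = c := by
      rw [div_eq_iff (pow_ne_zero n h0), mul_comm]
      exact congrArg Subtype.val e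
    exact ⟨n, e' ▸ c.2, e' ▸ fun h => hc ((dvd_iff ht.1 h0 c).2 h)⟩

theorem rle (L : Lc R H ξ ρ S) (h : O ∈ C.Xs R H) (h' : O' ∈ C.Xs R H)
    (e : red ξ ρ O ≤ red ξ ρ O') : O ≤ O' := by
  obtain ⟨V, -, h1, h2⟩ := C.exists_val_red L h'
  exact C.xx_le_of L.fm h.1 h'.1
    (fun a ha => (h2 a (C.xs_le L h ha)).1 (e (C.ev_mem (C.xs_le L h) ha))) h1

variable (Z : Zd R H ξ ρ S d φ P z)
include Z

theorem zne (h : O ∈ C.Xs R H) : evO ξ ρ (z O) ≠ 0 := (div_ne_zero_iff.1 (Z.red O h.1 h.2).ne).1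

theorem zmx (h : O ∈ C.Xs R H) : z O ∈ mx O ↔ red ξ ρ O ≤ plO P := by
  have u := Z.red O h.1 h.2
  obtain ⟨h1, h2⟩ := div_ne_zero_iff.1 u.ne
  rw [← C.mx_iff Z.lc h (Z.mem O h.1), ← Z.all.a1.pmx d φ P Z.prm _ (C.red_mem Z.lc h)]
  refine ⟨fun hm => ?_, fun hm => ?_⟩
  · have := mx_div hm u
    rwa [div_div_cancel₀ h1] at this
  · have := mx_mul_left u.mem hm
    rwa [div_mul_cancel₀ _ h2] at this

theorem zirr (h : O ∈ C.Xs R H) : ∀ a ∈ O, ∀ b ∈ O, z O = a * b → IsU O a ∨ IsU O b := by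
  classical
  intro a ha b hb e
  have hle := C.xs_le Z.lc h
  have hT := C.red_mem Z.lc h
  have u := Z.red O h.1 h.2
  obtain ⟨h1, h2⟩ := div_ne_zero_iff.1 u.ne
  have e1 : evO ξ ρ (z O) = evO ξ ρ a * evO ξ ρ b := by rw [e, evO_mul ρ (hle ha) (hle hb)]
  obtain ⟨a0, b0⟩ := mul_ne_zero_iff.1 (e1 ▸ h1)
  have key : ∀ Q : Place k M, plO Q ∈ S.T → red ξ ρ O ≤ plO Q → 0 ≤ Q.ord (evO ξ ρ a) ∧
      0 ≤ Q.ord (evO ξ ρ b) ∧
      Q.ord (evO ξ ρ a) + Q.ord (evO ξ ρ b) = if Q = P then 1 else 0 := fun Q hQ hl => by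
    refine ⟨mem_plO_ord.1 (hl (C.ev_mem hle ha)), mem_plO_ord.1 (hl (C.ev_mem hle hb)), ?_⟩
    have h3 := ((isU_plO' Q).1 (u.mono hl)).2
    have h4 := B2.ord_eq (Z.all.a1.pcart d φ Z.prm.1) hT hQ hl
    rw [Q.ord_div h1 h2, h4, Z.prm.2.2 Q hQ, e1, Q.ord_mul a0 b0] at h3
    omega
  have fin : ∀ c ∈ O, evO ξ ρ c ≠ 0 → (∀ Q : Place k M, plO Q ∈ S.T → red ξ ρ O ≤ plO Q →
      Q.ord (evO ξ ρ c) = 0) → IsU O c := fun c hc c0 h5 =>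
    (C.unit_iff Z.lc h hc).1 ⟨c0, C.ev_mem hle hc, Z.all.a1.nice.krull hT fun Q hQ hl =>
      mem_plO_ord.2 (by rw [Q.ord_inv, h5 Q hQ hl, neg_zero])⟩
  by_cases hP : P.ord (evO ξ ρ a) = 0
  · refine Or.inl (fin a ha a0 fun Q hQ hl => ?_)
    obtain ⟨k1, k2, k3⟩ := key Q hQ hl
    split_ifs at k3 with hq
    · rwa [hq]
    · omega
  · refine Or.inr (fin b hb b0 fun Q hQ hl => ?_)
    obtain ⟨k1, k2, k3⟩ := key Q hQ hl
    split_ifs at k3 with hq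
    · subst hq; omega
    · omega

theorem zufd (h : O ∈ C.Xs R H) (hm : z O ∈ mx O) :
    (∀ a ∈ O, ∀ b ∈ O, a * b / z O ∈ O → a / z O ∈ O ∨ b / z O ∈ O) ∧
      ∀ a ∈ O, a ≠ 0 → ∃ n : ℕ, a / z O ^ n ∈ O ∧ a / z O ^ n / z O ∉ O :=
  ufd (Z.lc.fm.ufd O h.1) hm (fun e => zne Z h (by rw [e, evO_zero])) (zirr Z h)

end DdA

open DdA in
theorem dd_stmt (h1 : C.WexStmt) : DdStmt := by
  intro k F M I _ _ _ _ _ _ _ _ R H ξ ρ S d φ P z Z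
  have L := Z.lc
  obtain ⟨Q, hQ, eQ⟩ := C.exists_red L Z.prm.2.1
  have tm : z Q ∈ mx Q := (zmx Z hQ).2 eQ.le
  have tu : IsU ξ (z Q) := C.xi_unit L (C.xs_le L hQ tm.1) (zne Z hQ)
  have t0 := tu.ne
  obtain ⟨p1, p2⟩ := zufd Z hQ tm
  obtain ⟨D, hD, hU⟩ := AG.exists_loc Q {a | a / z Q ∈ Q} (by simp)
    (fun h => tm.2 ⟨t0, tm.1, by simpa using h⟩)
    (fun a _ b _ ha hb => by
      change (a + b) / z Q ∈ Q
      rw [add_div]
      exact Q.add_mem ha hb)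
    (fun a ha b hb => ⟨p1 a ha b hb, fun h => h.elim (fun h => by
      change a * b / z Q ∈ Q
      rw [mul_div_right_comm]
      exact Q.mul_mem h hb) fun h => by
      change a * b / z Q ∈ Q
      rw [mul_div_assoc]
      exact Q.mul_mem ha h⟩)
  have hle : Q ≤ D := hD.2.1
  have hm : ∀ a ∈ Q, a ∈ mx D → a / z Q ∈ Q := fun a ha h => by_contra fun hn =>
    h.2 ((hU a ha).2 hn)
  have tD : z Q ∈ mx D := ⟨hle tm.1, fun h => (hU _ tm.1).1 h (by simp [t0])⟩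
  have back : ∀ O ∈ XX R H, O ≤ D → z O ∈ mx O := fun O hO h => by
    have := mx_mul_left (C.dt_unit Z.dt hO hQ.1 h hle).mem tD
    rw [div_mul_cancel₀ _ t0] at this
    exact mx_of_le h (Z.mem O hO) this
  have up : ∀ O ∈ C.Xs R H, z O ∈ mx O → O ≤ Q := fun O hO h =>
    rle L hO hQ (eQ ▸ (zmx Z hO).1 h)
  have dv : ∀ O ∈ XX R H, AG.Dom R O → O ≤ D → ∀ a ∈ O, a ∈ mx D → a / z O ∈ O := by
    intro O hO hd h a ha hx
    have zm := back O hO h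
    have hOQ := up O ⟨hO, hd⟩ zm
    have u := C.dt_unit Z.dt hO hQ.1 hOQ le_rfl
    have z0 := (div_ne_zero_iff.1 u.ne).1
    have h2 := u.div_mem (hm a (hOQ ha) hx)
    rw [div_div_div_cancel_right₀ t0] at h2
    obtain ⟨a', ha', s, hs, su, e⟩ := (C.xx_pts L.fm hO hQ.1 hOQ).2.2 _ h2
    refine ((zufd Z ⟨hO, hd⟩ zm).1 a ha s hs ?_).resolve_right fun h3 => su.not_mx ?_
    · rwa [mul_div_right_comm, e, div_mul_cancel₀ _ su.ne]
    · have h4 := mx_mul_left (Q.mul_mem (hOQ h3) u.mem) tm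
      rwa [div_mul_div_cancel₀ z0, div_mul_cancel₀ _ t0] at h4
  have pw : ∀ b ∈ D, b ≠ 0 → ∃ n : ℕ, IsU D (b / z Q ^ n) := fun b hb b0 => by
    obtain ⟨a, ha, s, hs, su, rfl⟩ := hD.2.2 b hb
    obtain ⟨n, n1, n2⟩ := p2 a ha (div_ne_zero_iff.1 b0).1
    exact ⟨n, by rw [div_right_comm]; exact ((hU _ n1).2 n2).div su⟩
  refine ⟨D, C.xx_trans hQ.1 hD, fun O hO => ⟨fun h f hf => ?_, back O hO⟩, fun c hc c0 => ?_,
    fun a ha b hb b0 => ?_, dv⟩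
  · obtain ⟨O₁, h1, h2⟩ := C.xx_spec L.fm L.loc hO
    have u := C.dt_unit Z.dt h1.1 hO h2 le_rfl
    obtain ⟨z1, z0⟩ := div_ne_zero_iff.1 u.ne
    have h3 := mx_mul_left u.mem h
    rw [div_mul_cancel₀ _ z0] at h3
    have h4 := (up O₁ h1 (mx_of_le h2 (Z.mem O₁ h1.1) h3)).trans hle
    obtain ⟨a, ha, b, hb, bu, rfl⟩ := (C.xx_pts L.fm h1.1 hO h2).2.2 f hf
    refine (isU_of_not_mx (h4 hb) fun h5 => bu.not_mx ?_).div_mem (h4 ha)
    have h6 := mx_mul_left (h2 (dv O₁ h1.1 h1.2 h4 b hb h5)) h3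
    rwa [div_mul_cancel₀ _ z1] at h6
  · obtain ⟨W, -, w1, w2, w3⟩ := h1 k F M I R H ξ ρ S L Q hQ _ tm tu
    refine isU_of_not_mx (hle (hQ.2.1 hc)) fun h => (w3 c hc c0).not_mx ?_
    have h6 := mx_mul_left (w1 (hm c (hQ.2.1 hc) h)) w2
    rwa [div_mul_cancel₀ _ t0] at h6
  · obtain ⟨n, hn⟩ := pw b hb b0
    have h2 : a / z Q ∈ D := by
      by_cases a0 : a = 0
      · simp [a0]
      obtain ⟨m, hm⟩ := pw a ha.1 a0
      rcases m with _ | m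
      · exact absurd (by simpa using hm) ha.2
      · have := D.mul_mem hm.mem (D.pow_mem tD.1 m)
        convert this using 1
        field_simp
        ring
    refine ⟨n, ?_⟩
    have := hn.div_mem (D.pow_mem h2 n)
    rwa [div_pow, div_div_div_cancel_right₀ (pow_ne_zero n t0)] at this

end Pool.Agent.MP_e8e0b6_ag.R2
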