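import Pool.Agent.MP_e8e0b6_ag.Defs
import Pool.Agent.MP_e8e0b6_ag.SB.Defs
import Pool.Agent.MP_20d318_ag.CB.Stmt0
import Mathlib.AlgebraicGeometry.FunctionField
import Mathlib.AlgebraicGeometry.Morphisms.Finite
import Mathlib.AlgebraicGeometry.Morphisms.ClosedImmersion

/-!
Rational surfaces and simply connected schemes.
-/

open AlgebraicGeometry CategoryTheory

namespace Pool.Agent.MP_e8e0b6_ag

/-- `Y` is an integral scheme over `Ω` whose local rings, seen inside its function field, are the
local rings of the projective plane, of a Hirzebruch surface, or of a surface obtained from these by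
blowing up points one after the other. -/
def RationalSurface {Ω : Type} [Field Ω] {Y : Scheme.{0}} (φ : Y ⟶ Spec (CommRingCat.of Ω)) :
    Prop :=
  ∃ (_ : IsIntegral Y) (_ : Algebra Ω Y.functionField),
    Y.fromSpecStalk (genericPoint Y) ≫ φ =
      Spec.map (CommRingCat.ofHom (algebraMap Ω Y.functionField)) ∧
    MP_20d318_ag.RS.Tower {O : Subalgebra Ω Y.functionField | ∃ y : Y,
      (O : Set Y.functionField) = Set.range (algebraMap (Y.presheaf.stalk y) Y.functionField)}

/-- Every finite etale morphism from an integral scheme to `S` is an isomorphism. -/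
def SimplyConnected (S : Scheme.{0}) : Prop :=
  ∀ (S' : Scheme.{0}) (p : S' ⟶ S), IsFinite p → Etale p → IsIntegral S' → IsIso p

end Pool.Agent.MP_e8e0b6_ag
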