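import Pool.Agent.MP_e8e0b6_ag.R2.CSpec

/-! The components of the first member of a net. -/

set_option autoImplicit false

namespace Pool.Agent.MP_e8e0b6_ag.R2

open Pool.Agent.MP_79c67d_ag Pool.Agent.MP_20d318_ag.AG Pool.Agent.MP_20d318_ag.BV
open Pool.Agent.MP_20d318_ag.CB
open scoped IntermediateField

theorem deg1_stmt : Deg1Stmt := by
  intro k M I _ _ _ _ _ _ S G a₀ a₁ a₂ h hN P hP ho
  obtain ⟨φ, hφ⟩ := h.a2.cl P hP
  have pos : ip S.B G (S.cl P) ≠ 0 := (hN.pos _ ⟨φ, P, hφ⟩).ne'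
  have sec : ∀ a ∈ ({a₀, a₁, a₂} : Set M), a ∈ S.Sec G := fun a ha O hO => by
    simpa only [div_inv_eq_mul] using (hN.gn O hO).1 a ha
  have s0 := sec a₀ (by simp)
  have s1 := sec a₁ (by simp)
  have s2 := sec a₂ (by simp)
  have ne : ∀ O ∈ S.T, S.lb G O ≠ 0 := fun O hO => S.lb_ne (h.a1.gne O hO) G
  have down : ∀ ψ ∈ S.Sec G, ψ * S.lb G (plO P) ∈ mx (plO P) → ∀ O ∈ S.T, O ≤ plO P →
      ψ * S.lb G O ∈ mx O := fun ψ hψ hm O hO hle => by
    refine mx_of_le hle (hψ O hO) ?_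
    have := mx_mul_right hm ((h.a1.cart G).unit hO hP hle).mem
    rwa [mul_assoc, mul_div_cancel₀ _ (ne _ hP)] at this
  have h0 := (mx_plO (mul_ne_zero hN.ne (ne _ hP))).2 ho
  have two : ∀ O ∈ S.T, O ≤ plO P → IsU O (a₁ * S.lb G O) ∨ IsU O (a₂ * S.lb G O) :=
    fun O hO hle => by
      obtain ⟨a, ha, hu⟩ := (hN.gn O hO).2
      rw [div_inv_eq_mul] at hu
      rcases ha with rfl | rfl | rfl
      · exact absurd (down _ s0 h0 O hO hle) hu.not_mx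
      · exact Or.inl hu
      · exact Or.inr hu
  have u1 : IsU (plO P) (a₁ * S.lb G (plO P)) := isU_of_not_mx (s1 _ hP) fun hm => by
    have k2 : ∀ O ∈ S.T, O ≤ plO P → IsU O (a₂ * S.lb G O) := fun O hO hle =>
      (two O hO hle).resolve_left fun hu => hu.not_mx (down _ s1 hm O hO hle)
    exact pos ((h.a2.nn _ φ P hφ G a₂ s2 (k2 _ hP le_rfl)).2.2 k2)
  have n1 : a₁ ≠ 0 := left_ne_zero_of_mul u1.1
  have w : a₂ / a₁ ∈ plO P := by
    have := u1.div_mem (s2 _ hP)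
    rwa [mul_div_mul_right _ _ (ne _ hP)] at this
  have ind : Ind (plO P) ![a₂ / a₁] := (h.a1.ind P hP _ w).resolve_right fun ⟨l, hl⟩ => by
    refine pos ((h.a2.nn _ φ P hφ G a₁ s1 u1).2.2 fun O hO hle => ?_)
    refine isU_of_not_mx (s1 O hO) fun hm => ?_
    have k3 := down (a₂ - l • a₁) (sub_mem s2 ((S.Sec G).smul_mem l s1)) (by
      have := mx_mul_right hl u1.mem
      rwa [← mul_assoc, sub_mul, div_mul_cancel₀ _ n1, ← Algebra.smul_def] at this) O hO hle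
    have k4 := mx_add (h.a1.nice.loc O hO) k3 (mx_mul_left (O.algebraMap_mem l) hm)
    rw [← Algebra.smul_def, sub_mul, smul_mul_assoc, sub_add_cancel] at k4
    exact (two O hO hle).elim (fun hu => hu.not_mx hm) fun hu => hu.not_mx k4
  refine ⟨u1, ind, ?_⟩
  obtain ⟨ν, hg, hnu, hs⟩ := h.a1.cur P hP
  have gn : ∀ O ∈ S.T, O ≤ plO P → Gn {a₂, a₁} O (S.lb (-G) O) := fun O hO hle => by
    rw [S.lb_neg]
    refine ⟨?_, ?_⟩
    · rintro a (rfl | rfl) <;> rw [div_inv_eq_mul]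
      · exact s2 O hO
      · exact s1 O hO
    · rcases two O hO hle with hu | hu
      · exact ⟨a₁, Or.inr rfl, by rwa [div_inv_eq_mul]⟩
      · exact ⟨a₂, Or.inl rfl, by rwa [div_inv_eq_mul]⟩
  have d1 := h.s.deg _ φ P hφ ν hg (-G)
  rw [← hg] at w ind hs gn ⊢
  rw [deg_gn_pair ν (gn _ ν.gen_mem le_rfl) (fun Q => gn _ (ν.pt_mem Q) (ν.pt_le Q)) n1 w,
    pdeg_eq (ev_transcendental ν w fun c => (ind_one ind c).not_mx), hnu, ip_neg_left,
    Nat.cast_one, one_mul, neg_inj] at d1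
  refine ⟨ν.L, inferInstance, inferInstance, ν.ρ, fun z => ?_, ν.locHom, d1⟩
  obtain ⟨a, ha, e⟩ := hs z
  exact ⟨⟨a, ha⟩, (dif_pos ha).symm.trans e⟩

end Pool.Agent.MP_e8e0b6_ag.R2
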