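import Pool.Agent.MP_e8e0b6_ag.R2.CSpec

/-! Row DEG2: the fundamental equality over the place `u = 0` of `k(w, u)`. -/

set_option autoImplicit false

namespace Pool.Agent.MP_e8e0b6_ag.R2

open Pool.Agent.MP_79c67d_ag Pool.Agent.MP_20d318_ag.AG Pool.Agent.MP_20d318_ag.BV
open scoped IntermediateField
open Polynomial IsDedekindDomain

namespace Deg2

theorem fr_eq {A B k L : Type} [CommRing A] [CommRing B] [Algebra A B] [Field k] [Field L]
    [Algebra k L] (p : Ideal A) (q : Ideal B) [q.LiesOver p] (E : IntermediateField k L)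
    (ρ : B →+* L) (hs : Function.Surjective ρ) (hk : ∀ b, ρ b = 0 ↔ b ∈ q)
    (hr : ∀ y, y ∈ E ↔ ∃ a, ρ (algebraMap A B a) = y) :
    Module.finrank (A ⧸ p) (B ⧸ q) = Module.finrank E L := by
  let τ : A →+* E := (ρ.comp (algebraMap A B)).codRestrict E fun a => (hr _).2 ⟨a, rfl⟩
  have h1 : Function.Surjective τ := fun y =>
    let ⟨a, h⟩ := (hr y).1 y.2
    ⟨a, Subtype.ext h⟩
  have e1 : p = RingHom.ker τ := Ideal.ext fun a => by
    rw [RingHom.mem_ker, Subtype.ext_iff, Ideal.mem_of_liesOver q p, ← hk]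
    rfl
  have e2 : q = RingHom.ker ρ := Ideal.ext fun b => (hk b).symm
  refine Algebra.finrank_eq_of_equiv_equiv
    ((Ideal.quotEquivOfEq e1).trans (RingHom.quotientKerEquivOfSurjective h1))
    ((Ideal.quotEquivOfEq e2).trans (RingHom.quotientKerEquivOfSurjective hs)) ?_
  exact Ideal.Quotient.ringHom_ext (RingHom.ext fun a => rfl)

theorem core {k K L F : Type} [Field k] [Field K] [Field L] [Field F] [Algebra k F] [Algebra K L]
    [Algebra L F] [Algebra K F] [IsScalarTower K L F] [FiniteDimensional L F] [CharZero K]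
    (hk : ∀ c : k, ∃ c' : K, algebraMap K F c' = algebraMap k F c) {x : L} (hx : FF.IsRat K x)
    (s : Finset (Place k F)) (f : Place k F → ℤ)
    (hs : ∀ P, P ∈ s ↔ 0 < P.ord (algebraMap L F x) ∧ ∀ c : K, P.v (algebraMap K F c) ≤ 1)
    (hf : ∀ P ∈ s, ∃ (L' : Type) (_ : Field L') (_ : Algebra k L') (ρ : plO P →ₐ[k] L')
      (E : IntermediateField k L'), Function.Surjective ρ ∧ LocHom (plO P) ρ ∧
      (∀ y, y ∈ E ↔ ∃ c : K, evO (plO P) ρ (algebraMap K F c) = y) ∧
      (Module.finrank E L' : ℤ) = f P) :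
    ∑ P ∈ s, P.ord (algebraMap L F x) * f P = Module.finrank L F := by
  refine hx.elim F fun B _ _ _ _ _ _ _ _ _ _ e => ?_
  have x0 : algebraMap L F x ≠ 0 := by
    rw [_root_.map_ne_zero]
    rintro rfl
    exact hx.trans isAlgebraic_zero
  rw [← e] at hs x0 ⊢
  let p : Ideal K[X] := Ideal.span {X}
  have p0 : p ≠ ⊥ := by simp [p]
  have : p.IsMaximal := PrincipalIdealRing.isMaximal_of_irreducible irreducible_X
  have lo : ∀ q : HeightOneSpectrum B,
      q.asIdeal.LiesOver p ↔ q.valuation F (algebraMap K[X] F X) < 1 := fun q => by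
    have := q.isPrime
    rw [FF.alg_tower B]
    refine Iff.trans ⟨fun h => ?_, fun h => ⟨?_⟩⟩ (q.valuation_lt_one_iff_mem _).symm
    · exact (Ideal.mem_of_liesOver q.asIdeal p X).1 (Ideal.mem_span_singleton_self _)
    · exact ‹p.IsMaximal›.eq_of_le (Ideal.IsPrime.under K[X] q.asIdeal).ne_top
        ((Ideal.span_singleton_le_iff_mem _).2 h)
  have ex : ∀ P ∈ s, ∃ q : HeightOneSpectrum B, q.valuation F = P.v := fun P hP => by
    have : (⟨P.v, P.surj, ((hs P).1 hP).2⟩ : Place K F) ∈ Set.range (FF.toPlace K F (B := B)) := by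
      rw [FF.range_toPlace]
      exact ((FF.v_lt_one_iff P x0).2 ((hs P).1 hP).1).le
    obtain ⟨q, h⟩ := this
    exact ⟨q, congrArg Place.v h⟩
  choose q hq using ex
  have lq : ∀ P hP, (q P hP).asIdeal.LiesOver p := fun P hP =>
    (lo _).2 (hq P hP ▸ (FF.v_lt_one_iff P x0).2 ((hs P).1 hP).1)
  rw [← Ideal.sum_ramification_inertia B L F p0, Nat.cast_sum]
  refine Finset.sum_bij (fun P hP => (q P hP).asIdeal)
    (fun P hP => (IsDedekindDomain.mem_primesOverFinset_iff p0 B).2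
      ⟨(q P hP).isPrime, lq P hP⟩)
    (fun P hP P' hP' h => Place.ext' ?_) (fun Q hQ => ?_) fun P hP => ?_
  · rw [← hq P hP, ← hq P' hP', HeightOneSpectrum.ext h]
  · obtain ⟨h1, h2⟩ := (IsDedekindDomain.mem_primesOverFinset_iff p0 B).1 hQ
    let Q' : HeightOneSpectrum B := ⟨Q, h1, Ideal.ne_bot_of_liesOver_of_ne_bot p0 Q⟩
    let P : Place k F := ⟨Q'.valuation F, Q'.valuation_surjective F, fun c => by
      obtain ⟨c', h⟩ := hk c
      exact h ▸ (FF.toPlace K F Q').triv c'⟩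
    have hP : P ∈ s := (hs P).2 ⟨(FF.v_lt_one_iff P x0).1 ((lo Q').1 h2), (FF.toPlace K F Q').triv⟩
    refine ⟨P, hP, congrArg HeightOneSpectrum.asIdeal
      (HeightOneSpectrum.eq_of_valuation_isEquiv_valuation (K := F) (q := Q') ?_)⟩
    rw [hq P hP]
  · obtain ⟨L', _, _, ρ, E, r1, r2, r3, r4⟩ := hf P hP
    have := lq P hP
    have hv := hq P hP
    have hc := ((hs P).1 hP).2
    have hX := (FF.v_lt_one_iff P x0).2 ((hs P).1 hP).1
    generalize q P hP = Q at this hv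
    have b0 : algebraMap K[X] B X ≠ 0 := fun h => x0 (by rw [FF.alg_tower B, h, map_zero])
    have hB : ∀ b : B, algebraMap B F b ∈ plO P := fun b => by
      rw [mem_plO, ← hv]
      exact Q.valuation_le_one b
    let σ : B →+* L' := (ρ : plO P →+* L').comp ((algebraMap B F).codRestrict (plO P) hB)
    have hσ : ∀ b, σ b = evO (plO P) ρ (algebraMap B F b) := fun b => (evO_of_mem ρ (hB b)).symm
    have cl : ∀ a ∈ plO P, ∀ b ∈ plO P, P.v (a - b) < 1 → evO (plO P) ρ a = evO (plO P) ρ b :=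
      fun a ha b hb h => by
        rw [← sub_eq_zero, ← evO_sub ρ ha hb, r2.eq_zero_iff (sub_mem ha hb)]
        exact (mem_mx_plO P).2 h
    rw [Nat.cast_mul, Ideal.inertiaDeg'_algebraMap, fr_eq p Q.asIdeal E σ (fun y => ?_)
      (fun b => ?_) fun y => ?_, r4, Ideal.IsDedekindDomain.ramificationIdx'_eq_multiplicity
        (Ideal.map_ne_bot_of_ne_bot p0) Q.isPrime, Ideal.map_span, Set.image_singleton,
      ← FF.ord_toPlace (K := K) (F := F) B Q b0, ← FF.alg_tower B, Place.ord, Place.ord,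
      FF.toPlace_v, hv]
    · obtain ⟨g, rfl⟩ := r1 y
      obtain ⟨a, ha⟩ := Q.exists_valuation_sub_lt_of_integer (K := F) (x := g) (hv ▸ g.2) 1
      exact ⟨a, by rw [hσ, cl _ (hB a) _ g.2 (hv ▸ ha), evO_coe]⟩
    · rw [hσ, r2.eq_zero_iff (hB b), mem_mx_plO, ← hv]
      exact Q.valuation_lt_one_iff_mem b
    · rw [r3]
      refine ⟨fun ⟨c, h⟩ => ⟨C c, by rw [hσ, ← FF.alg_tower B, FF.alg_C, h]⟩,
        fun ⟨a, h⟩ => ⟨a.eval 0, ?_⟩⟩
      rw [← h, hσ]
      refine (cl _ (hB _) _ (hc _) ?_).symm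
      rw [← FF.alg_tower B, FF.alg_aeval]
      exact FF.v_aeval_sub_lt (P := ⟨P.v, P.surj, hc⟩) (by rwa [map_zero, sub_zero]) a

variable {k M : Type} [Field k] [Field M] [Algebra k M] {w : M}

theorem ind_iff (hw : AlgebraicIndependent k ![w]) (P : Place k M) :
    Ind (plO P) ![w] ↔ ∀ c : k⟮w⟯, P.v (algebraMap k⟮w⟯ M c) ≤ 1 := by
  refine ⟨fun h c => ?_, fun h => ⟨fun i => ?_, fun p hp => ?_⟩⟩
  · obtain ⟨r, s, e⟩ := (IntermediateField.mem_adjoin_simple_iff k _).1 c.2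
    change (c : M) ∈ plO P
    rw [e]
    by_cases hs : s = 0
    · simp [hs]
    have := h.2 (s.toMvPolynomial 0) fun e =>
      hs (Polynomial.toMvPolynomial_injective 0 (e.trans (map_zero _).symm))
    rw [MvPolynomial.aeval_toMvPolynomial] at this
    exact this.div_mem (FF.v_aeval_le (h.1 0) r)
  · obtain rfl := Subsingleton.elim i 0
    exact h (IntermediateField.AdjoinSimple.gen k w)
  · have h1 : MvPolynomial.aeval ![w] p ∈ k⟮w⟯ := by
      apply IntermediateField.algebra_adjoin_le_adjoin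
      rw [← Matrix.range_cons_empty w ![], Algebra.adjoin_range_eq_range_aeval]
      exact ⟨p, rfl⟩
    exact ⟨fun e => hp (hw (e.trans (map_zero _).symm)), h ⟨_, h1⟩, h ⟨_, inv_mem h1⟩⟩

theorem mem_iff {L : Type} [Field L] [Algebra k L] (hw : Transcendental k w) {O : Subalgebra k M}
    (h : ∀ c : k⟮w⟯, algebraMap k⟮w⟯ M c ∈ O) (ρ : O →ₐ[k] L) (y : L) :
    y ∈ k⟮evO O ρ w⟯ ↔ ∃ c : k⟮w⟯, evO O ρ (algebraMap k⟮w⟯ M c) = y := by
  let θ : k⟮w⟯ →ₐ[k] L := ρ.comp (k⟮w⟯.val.codRestrict O h)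
  have e : ∀ c, evO O ρ (algebraMap k⟮w⟯ M c) = θ c := fun c => evO_of_mem ρ (h c)
  have e1 : evO O ρ w = θ (IntermediateField.AdjoinSimple.gen k w) :=
    e (IntermediateField.AdjoinSimple.gen k w)
  simp only [e, e1]
  refine ⟨fun hy => ?_, ?_⟩
  · exact (IntermediateField.adjoin_simple_le_iff (K := θ.fieldRange)).2 ⟨_, rfl⟩ hy
  · rintro ⟨c, rfl⟩
    obtain ⟨p, q, -, rfl⟩ := (FF.isRat_adjoin hw).gen c
    rw [map_div₀, ← aeval_algHom_apply, ← aeval_algHom_apply]
    exact (IntermediateField.mem_adjoin_simple_iff k _).2 ⟨p, q, rfl⟩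

end Deg2

open Deg2 in
theorem deg2_stmt : Deg2Stmt := by
  intro k M _ _ _ _ w u s f hi hfin hs hf
  have hw : AlgebraicIndependent k ![w] := by
    have := hi.comp (fun _ : Fin 1 => 0) fun _ _ _ => Subsingleton.elim _ _
    rwa [show (![w, u] ∘ fun _ : Fin 1 => 0) = ![w] from funext fun i => by
      obtain rfl := Subsingleton.elim i 0
      rfl] at this
  have hu : Transcendental k⟮w⟯ u := by
    have := hi.transcendental_adjoin (s := {0}) (i := 1) (by simp)
    rw [Set.image_singleton] at this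
    exact IntermediateField.transcendental_adjoin_iff.2 this
  rw [← IntermediateField.adjoin_simple_adjoin_simple] at hfin ⊢
  have : FiniteDimensional k⟮w⟯⟮u⟯ M := hfin
  have : CharZero k⟮w⟯ := charZero_of_injective_algebraMap (algebraMap k k⟮w⟯).injective
  have hs' : ∀ P, P ∈ s ↔ 0 < P.ord u ∧ ∀ c : k⟮w⟯, P.v (algebraMap k⟮w⟯ M c) ≤ 1 := fun P => by
    rw [hs, ind_iff hw]
  refine core (K := k⟮w⟯) (L := k⟮w⟯⟮u⟯) (fun c => ⟨algebraMap k _ c, rfl⟩) (FF.isRat_adjoin hu)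
    s f hs' fun P hP => ?_
  obtain ⟨L, _, _, ρ, h1, h2, h3⟩ := hf P hP
  exact ⟨L, _, _, ρ, _, h1, h2, mem_iff (w := w) (hi.transcendental 0) ((hs' P).1 hP).2 ρ, h3⟩

end Pool.Agent.MP_e8e0b6_ag.R2
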