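import Pool.Agent.MP_e8e0b6_ag.R2.CSpec

set_option autoImplicit false

namespace Pool.Agent.MP_e8e0b6_ag.R2

open Pool.Agent.MP_79c67d_ag Pool.Agent.MP_20d318_ag.AG Pool.Agent.MP_20d318_ag.BV
open Pool.Agent.MP_20d318_ag.CB
open scoped IntermediateField

namespace Deg3

variable {k M : Type} [Field k] [Field M] [Algebra k M]

theorem range_two {α : Type} (a b : α) : Set.range ![a, b] = {a, b} := by
  rw [Matrix.range_cons_cons_empty]

/-- A function with a transcendental residue and a nonzero function that vanishes are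
independent. -/
theorem indep {O : Subalgebra k M} (hO : IsLocalRing O) {w u : M} (hw : Ind O ![w])
    (hu : u ∈ mx O) (h0 : u ≠ 0) : AlgebraicIndependent k ![w, u] := by
  have h1 : AlgebraicIndependent k ![w] :=
    algebraicIndependent_iff.2 fun p hp => by_contra fun hn => (hw.2 p hn).1 hp
  have hA : ∀ a : Algebra.adjoin k (Set.range ![w]), (a : M) ∈ O := fun a =>
    Algebra.adjoin_le (Set.range_subset_iff.2 hw.1) a.2
  have hU : ∀ a : Algebra.adjoin k (Set.range ![w]), a ≠ 0 → IsU O (a : M) := by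
    rintro ⟨a, ha⟩ hn
    rw [Algebra.adjoin_range_eq_range_aeval] at ha
    obtain ⟨p, rfl⟩ := ha
    exact hw.2 p fun e => hn (Subtype.ext (by simp [e]))
  have hP : ∀ q : Polynomial (Algebra.adjoin k (Set.range ![w])), Polynomial.aeval u q ∈ O := by
    intro q
    rw [Polynomial.aeval_eq_sum_range]
    exact O.sum_mem fun i _ => O.mul_mem (hA _) (O.pow_mem hu.1 i)
  have h2 : Transcendental (Algebra.adjoin k (Set.range ![w])) u := by
    rintro ⟨q, hq, hq0⟩
    obtain ⟨r, e, hr⟩ := Polynomial.exists_eq_pow_rootMultiplicity_mul_and_not_dvd q hq 0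
    rw [map_zero, sub_zero] at e hr
    rw [e, map_mul, map_pow, Polynomial.aeval_X] at hq0
    have h3 := (mul_eq_zero.1 hq0).resolve_left (pow_ne_zero _ h0)
    rw [← r.divX_mul_X_add, map_add, map_mul, Polynomial.aeval_X, Polynomial.aeval_C,
      add_comm] at h3
    exact ((hU _ (mt Polynomial.X_dvd_iff.2 hr)).add_mx hO (mx_mul_left (hP _) hu)).1 h3
  have h3 := ((h1.option_iff_transcendental u).2 h2).comp ![some 0, none] (by decide)
  have e : ((fun o : Option (Fin 1) => o.elim u ![w]) ∘ ![some 0, none]) = ![w, u] := by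
    funext i
    fin_cases i <;> rfl
  rwa [e] at h3

theorem basis {x y : M} (h : GenP k x y) : IsTranscendenceBasis k ![x, y] := by
  refine h.ind.isTranscendenceBasis_iff_isAlgebraic.2 ?_
  rw [← IntermediateField.isAlgebraic_adjoin_iff_top, range_two, h.top]
  exact ⟨fun a => isAlgebraic_algebraMap (⟨a, trivial⟩ : (⊤ : IntermediateField k M))⟩

theorem fin {x y w u : M} (h : GenP k x y) (hi : AlgebraicIndependent k ![w, u]) :
    FiniteDimensional k⟮w, u⟯ M := by
  have h3 := (hi.isTranscendenceBasis_of_trdeg_le_of_finite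
    (basis h).cardinalMk_eq_trdeg.ge).isAlgebraic_field
  rw [range_two] at h3
  have h4 : FiniteDimensional k⟮w, u⟯ (IntermediateField.adjoin k⟮w, u⟯ ({x, y} : Set M)) :=
    IntermediateField.finiteDimensional_adjoin fun a _ => Algebra.IsIntegral.isIntegral a
  have h5 : IntermediateField.adjoin k⟮w, u⟯ ({x, y} : Set M) = ⊤ := by
    rw [eq_top_iff]
    intro a _
    have h6 : a ∈ IntermediateField.adjoin k ({x, y} : Set M) := h.top ▸ trivial
    exact (IntermediateField.adjoin_le_iff (T := (IntermediateField.adjoin k⟮w, u⟯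
      ({x, y} : Set M)).restrictScalars k)).2 (IntermediateField.subset_adjoin k⟮w, u⟯ _) h6
  rw [h5] at h4
  exact IntermediateField.topEquiv.toLinearEquiv.finiteDimensional

theorem indep' {x y a b : M} (h : GenP k x y) (hf : FiniteDimensional k⟮a, b⟯ M) :
    AlgebraicIndependent k ![a, b] := by
  have : Algebra.IsAlgebraic (Algebra.adjoin k (Set.range ![a, b])) M := by
    rw [← IntermediateField.isAlgebraic_adjoin_iff_top, range_two]
    infer_instance
  exact (Algebra.IsAlgebraic.isTranscendenceBasis_of_le_trdeg_of_finite k ![a, b]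
    (basis h).cardinalMk_eq_trdeg.le).1

theorem field_eq {a₀ a₁ a₂ : M} (h0 : a₀ ≠ 0) (h1 : a₁ ≠ 0) :
    k⟮a₁ / a₀, a₂ / a₀⟯ = k⟮a₂ / a₁, a₀ / a₁⟯ := by
  refine le_antisymm (IntermediateField.adjoin_le_iff.2 ?_) (IntermediateField.adjoin_le_iff.2 ?_)
  · have e1 := IntermediateField.subset_adjoin k {a₂ / a₁, a₀ / a₁} (Or.inl rfl)
    have e2 := IntermediateField.subset_adjoin k {a₂ / a₁, a₀ / a₁} (Or.inr rfl)
    rintro _ (rfl | rfl)
    · simpa using inv_mem e2
    · have := div_mem e1 e2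
      rwa [div_div_div_cancel_right₀ h1] at this
  · have e1 := IntermediateField.subset_adjoin k {a₁ / a₀, a₂ / a₀} (Or.inl rfl)
    have e2 := IntermediateField.subset_adjoin k {a₁ / a₀, a₂ / a₀} (Or.inr rfl)
    rintro _ (rfl | rfl)
    · have := div_mem e2 e1
      rwa [div_div_div_cancel_right₀ h0] at this
    · simpa using inv_mem e1

/-- A point below a ring where `w` has a transcendental residue is not rational. -/
theorem not_rat {O V : Subalgebra k M} (hd : Dom O V) {w : M} (hw : Ind V ![w])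
    (h : w ∈ O ∨ w⁻¹ ∈ O) : ¬ RatPt O := fun hr => by
  rcases h with h | h
  · obtain ⟨c, hc⟩ := hr w h
    exact (hd.mx hc).2 (ind_one hw c)
  · obtain ⟨c, hc⟩ := hr _ h
    have h0 : IsU V w := by simpa using ind_one hw 0
    have h1 := mx_mul_left h0.mem (hd.mx hc)
    rw [mul_sub, mul_inv_cancel₀ h0.1] at h1
    refine h1.2 ?_
    have h2 := hw.2 (1 - MvPolynomial.X 0 * MvPolynomial.C c) fun e => by
      simpa using congrArg (MvPolynomial.eval fun _ => 0) e
    simpa using h2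

end Deg3

open Deg3 in
theorem deg3_stmt : Deg3Stmt := by
  intro h1 h2 k M I _ _ _ _ _ _ S G a₀ a₁ a₂ h N
  have hF := h.a1.nice.toFine
  have hl : ∀ O ∈ S.T, S.lb G O ≠ 0 := fun O hO => S.lb_ne (h.a1.gne O hO) G
  have hm : ∀ O ∈ S.T, ∀ a ∈ ({a₀, a₁, a₂} : Set M), a * S.lb G O ∈ O := fun O hO a ha => by
    simpa using (N.gn O hO).1 a ha
  have hfin := hF.fin_cart (h.a1.pcart G a₀ N.ne)
  have hs : ∀ P, P ∈ hfin.toFinset ↔ plO P ∈ S.T ∧ 0 < P.ord (a₀ * S.lb G (plO P)) := fun P => by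
    rw [Set.Finite.mem_toFinset]
    exact and_congr_right fun hP => ⟨fun e => lt_of_le_of_ne
      (mem_plO_ord.1 (hm _ hP a₀ (by simp))) (Ne.symm e), fun e => e.ne'⟩
  have hdv := h.a2.dv G a₀ hfin.toFinset N.ne (fun P hP => ((hs P).1 hP).1) fun P hP hn =>
    by_contra fun e => hn (hfin.mem_toFinset.2 ⟨hP, e⟩)
  generalize hfin.toFinset = s at hs hdv
  have hd := fun P (hP : P ∈ s) => h1 k M I S G a₀ a₁ a₂ h N P ((hs P).1 hP).1 ((hs P).1 hP).2
  obtain ⟨P₀, hP₀⟩ : s.Nonempty := by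
    refine Finset.nonempty_iff_ne_empty.2 fun e => ?_
    rw [e, Finset.sum_empty] at hdv
    have h3 := h.s.span S.A fun c hc => absurd (N.pos c hc) (by
      rw [hdv]; exact (ip_zero_left c).le.not_gt)
    have h4 := h.s.Af
    rw [h3, ip_zero_left] at h4
    exact h4.false
  have ha₁ : a₁ ≠ 0 := left_ne_zero_of_mul (hd P₀ hP₀).1.1
  have ho : ∀ P : Place k M, plO P ∈ S.T → P.ord (a₀ / a₁) =
      P.ord (a₀ * S.lb G (plO P)) - P.ord (a₁ * S.lb G (plO P)) := fun P hP => by
    rw [← P.ord_div (mul_ne_zero N.ne (hl _ hP)) (mul_ne_zero ha₁ (hl _ hP)),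
      mul_div_mul_right _ _ (hl _ hP)]
  have ho' : ∀ P ∈ s, P.ord (a₀ / a₁) = P.ord (a₀ * S.lb G (plO P)) := fun P hP => by
    rw [ho P ((hs P).1 hP).1, ((isU_plO' P).1 (hd P hP).1).2, sub_zero]
  have hiff : ∀ P, P ∈ s ↔ 0 < P.ord (a₀ / a₁) ∧ Ind (plO P) ![a₂ / a₁] := fun P => by
    refine ⟨fun hP => ⟨ho' P hP ▸ ((hs P).1 hP).2, (hd P hP).2.1⟩, fun ⟨e, hw⟩ => ?_⟩
    obtain ⟨O, hO, hdom⟩ := hF.cpl _ (plO_isVal P)
    have h3 : a₂ / a₁ ∈ O ∨ (a₂ / a₁)⁻¹ ∈ O := by
      obtain ⟨b, hb, hg⟩ := (N.gn O hO).exists_mem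
      rcases hb with rfl | rfl | rfl
      · have h4 := mem_plO_ord.1 (hdom.1 (hg.1 a₁ (by simp)))
        rw [← inv_div, P.ord_inv] at h4
        omega
      · exact Or.inl (hg.1 a₂ (by simp))
      · exact Or.inr (by rw [inv_div]; exact hg.1 a₁ (by simp))
    have hP : plO P ∈ S.T := by
      rcases h.a1.tri O hO with rfl | h4 | ⟨P', rfl⟩
      · exact absurd (top_le_iff.1 hdom.1) (plO_ne_top P)
      · exact absurd h4 (not_rat hdom hw h3)
      · exact (plO_isVal P').eq_of_dom hdom ▸ hO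
    have h4 := mem_plO_ord.1 (hm _ hP a₁ (by simp))
    have h5 := ho P hP
    exact (hs P).2 ⟨hP, by omega⟩
  have hu : a₀ / a₁ ≠ 0 := div_ne_zero N.ne ha₁
  have hi := indep (plO_isVal P₀).isLocalRing (hd P₀ hP₀).2.1
    ((mx_plO hu).2 ((hiff P₀).1 hP₀).1) hu
  obtain ⟨x, y, hxy, -⟩ := h.a1.chart ⊤ hF.top
  have hf := fin hxy hi
  have h3 := h2 k M _ _ s (fun P => S.i G (S.cl P)) hi hf hiff fun P hP => (hd P hP).2.2
  rw [← field_eq N.ne ha₁] at hf h3
  refine ⟨indep' hxy hf, hf, ?_⟩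
  rw [← h3]
  refine ((congrArg (ip S.B G) hdv).trans ?_).symm
  rw [ip_sum_right]
  exact Finset.sum_congr rfl fun P hP => by rw [ip_smul_right, ho' P hP]

end Pool.Agent.MP_e8e0b6_ag.R2
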