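import Pool.Agent.MP_e8e0b6_ag.R2.SpecA

/-!
The local ring of the closed fibre is finite over the lifted plane.
-/

set_option autoImplicit false

namespace Pool.Agent.MP_e8e0b6_ag.R2

open Pool.Agent.MP_79c67d_ag Pool.Agent.MP_20d318_ag Pool.Agent.MP_20d318_ag.AG
  Pool.Agent.MP_20d318_ag.BV Pool.Agent.MP_20d318_ag.CB
open scoped IntermediateField

theorem del_stmt : DelStmt := by
  intro hVN k F M I _ _ _ _ _ _ R H ξ ρ S x y L hx hy hi hv e _ he hs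
  set P := fr (pl R (x, y)) ξ with hP
  have hxy : ∀ i, ![x, y] i ∈ ξ := fun i => by fin_cases i <;> simpa
  have hA : Algebra.adjoin k {x, y} ≤ pl R (x, y) := le_sup_right
  have hpl : pl R (x, y) ≤ ξ :=
    sup_le L.fib.dom.1 (Algebra.adjoin_le (by rintro _ (rfl | rfl) <;> assumption))
  have hd : Dom P ξ := ⟨fr_le hpl, fun u hu h => ⟨h.1, hu, inv_mem_fr hu hpl h⟩⟩
  have hξ := L.xb.loc ξ L.fib.mem
  have hl : IsLocalRing P := isLocalRing_of fun a ha b hb =>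
    mx_of_le hd.1 (P.add_mem ha.1 hb.1) (mx_add hξ (hd.mx ha) (hd.mx hb))
  have hR : Dom R P := L.fib.dom.of_le ((le_sup_left : R ≤ pl R (x, y)).trans le_fr) hd.1
  have ev : ∀ p : MvPolynomial (Fin 2) k, evO ξ ρ (MvPolynomial.aeval ![x, y] p) =
      MvPolynomial.aeval ![evO ξ ρ x, evO ξ ρ y] p := fun p => by
    rw [evO_aeval ρ hxy]
    congr 2
    funext i; fin_cases i <;> rfl
  have hu : ∀ a ∈ ξ, evO ξ ρ a ≠ 0 → IsU ξ a := fun a ha h =>
    isU_of_not_mx ha fun hm => h ((L.lh.eq_zero_iff ha).2 hm)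
  have hin : ∀ p : MvPolynomial (Fin 2) k, MvPolynomial.aeval ![x, y] p ∈ P := fun p =>
    le_fr (hA (mem_adjoin_pair.2 ⟨p, rfl⟩))
  have h1 : ξ ∈ Pts (P ⊔ Algebra.adjoin k H) := by
    refine Pts_of_le ((L.xb.pts 1 L.one ξ).2 ⟨L.fib.mem, gn_of_mem L.one one_ne_zero
      (by simpa using L.sub)⟩) (ch_le.2 ⟨hR.1.trans le_sup_left, fun a ha => ?_⟩)
      (sup_le hd.1 (Algebra.adjoin_le L.sub))
    rw [div_one]
    exact (le_sup_right : _ ≤ P ⊔ Algebra.adjoin k H) (Algebra.subset_adjoin ha)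
  have h2 : ∀ V : Subalgebra k F, IsVal V → Dom P V → Dom ξ V := fun V hV h => by
    obtain ⟨O, hO, h3⟩ := L.xb.val V hV (hR.1.trans h.1)
    have h4 : Dom R O := (hR.trans h).of_le (L.xb.le O hO) h3.1
    have h5 : Ind V ![x, y] := by
      refine ⟨fun i => h.1 ?_, fun p hp => (hd.2 _ (hin p) (hu _ (hd.1 (hin p)) ?_)).mono h.1⟩
      · simpa using hin (MvPolynomial.X i)
      · rw [ev]
        exact fun h0 => hp (algebraicIndependent_iff.1 hi p h0)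
    obtain ⟨h6, h7⟩ := hv O hO h4 V hV h3 h5
    have h8 : ∀ i, ![x, y] i ∈ O := fun i => by fin_cases i <;> simpa
    have hle := L.fib.le O hO h4
    have h9 : ¬ Dim (red ξ ρ O) 1 := fun h0 => h0 ⟨![evO ξ ρ x, evO ξ ρ y], fun i => by
      fin_cases i
      · exact (L.mem O hle _).2 ⟨x, h6, rfl⟩
      · exact (L.mem O hle _).2 ⟨y, h7, rfl⟩, fun p hp => by
      rw [← ev]
      exact (L.isU O hO h4 _ (aeval_mem h8 p)).2 (h3.2 _ (aeval_mem h8 p) (h5.2 p hp))⟩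
    have hT : red ξ ρ O ∈ S.T := L.eq ▸ ⟨O, ⟨hO, h4⟩, rfl⟩
    rcases L.mf.all.a1.tri _ hT with h0 | h0 | ⟨Q, h0⟩
    · rwa [le_antisymm hle (L.rle ξ L.fib.mem L.fib.dom O hO h4 (h0 ▸ le_top))] at h3
    · exact (h9 h0.dim.succ).elim
    · exact (h9 (h0 ▸ (L.mf.all.a1.dim Q (h0 ▸ hT)).2)).elim
  obtain ⟨W, hW, hz⟩ := hVN k F P ξ H hl L.fm.fin h1 h2
  have h3 : ∀ c ∈ k⟮evO ξ ρ x, evO ξ ρ y⟯, ∃ a ∈ P, evO ξ ρ a = c := fun c hc => by
    obtain ⟨r, hr, s, hs, rfl⟩ := IntermediateField.mem_adjoin_iff_div.1 hc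
    obtain ⟨p, rfl⟩ := mem_adjoin_pair.1 hr
    obtain ⟨q, rfl⟩ := mem_adjoin_pair.1 hs
    rw [← ev, ← ev]
    by_cases h0 : evO ξ ρ (MvPolynomial.aeval ![x, y] q) = 0
    · exact ⟨0, P.zero_mem, by rw [h0, div_zero, evO_zero]⟩
    · have h4 := hu _ (hd.1 (hin q)) h0
      exact ⟨_, (hd.2 _ (hin q) h4).div_mem (hin p), evO_div ρ (hd.1 (hin p)) h4⟩
  have h4 : ∀ a ∈ Submodule.span P e, a ∈ ξ := fun a ha => by
    simpa using span_div_mem (a := 1) (fun u hu => by simpa using he u hu) hd.1 ha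
  have h5 : ∀ m ∈ Submodule.span k⟮evO ξ ρ x, evO ξ ρ y⟯ (evO ξ ρ '' e),
      ∃ a ∈ Submodule.span P e, evO ξ ρ a = m := fun m hm => by
    induction hm using Submodule.span_induction with
    | mem _ h =>
      obtain ⟨a, ha, rfl⟩ := h
      exact ⟨a, Submodule.subset_span ha, rfl⟩
    | zero => exact ⟨0, zero_mem _, evO_zero ρ⟩
    | add _ _ _ _ g1 g2 =>
      obtain ⟨a, ha, rfl⟩ := g1
      obtain ⟨b, hb, rfl⟩ := g2
      exact ⟨a + b, add_mem ha hb, evO_add ρ (h4 a ha) (h4 b hb)⟩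
    | smul c _ _ g1 =>
      obtain ⟨a, ha, rfl⟩ := g1
      obtain ⟨b, hb, g2⟩ := h3 c c.2
      refine ⟨b * a, Submodule.smul_mem _ (⟨b, hb⟩ : P) ha, ?_⟩
      rw [evO_mul ρ (hd.1 hb) (h4 a ha), g2]
      rfl
  have h6 : ∀ a ∈ Submodule.span ξ (mx R), ∀ c ∈ ξ,
      c * a ∈ IsLocalRing.maximalIdeal P • Submodule.span P W := fun a ha => by
    induction ha using Submodule.span_induction with
    | mem a h =>
      intro c hc
      rw [mul_comm]
      exact Submodule.smul_mem_smul (r := (⟨a, hR.1 h.1⟩ : P))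
        ((mem_mx_iff _).1 (hR.mx h)) ((hz c).1 hc)
    | zero => intro c _; rw [mul_zero]; exact zero_mem _
    | add a b _ _ g1 g2 => intro c hc; rw [mul_add]; exact add_mem (g1 c hc) (g2 c hc)
    | smul r a _ g1 =>
      intro c hc
      change c * ((r : F) * a) ∈ _
      rw [← mul_assoc]
      exact g1 _ (ξ.mul_mem hc r.2)
  intro z hz'
  refine Submodule.le_of_le_smul_of_le_jacobson_bot (Submodule.fg_span hW)
    (IsLocalRing.maximalIdeal_le_jacobson _) (fun w hw => ?_) ((hz z).1 hz')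
  have hw' := (hz w).2 hw
  obtain ⟨a, ha, h7⟩ := h5 (evO ξ ρ w) (hs ▸ Submodule.mem_top)
  have h8 := ξ.sub_mem hw' (h4 a ha)
  have h9 := h6 _ (L.fib.red ξ L.fib.mem L.fib.dom _ h8 ((L.lh.eq_zero_iff h8).1
    (by rw [evO_sub ρ hw' (h4 a ha), h7, sub_self]))) 1 ξ.one_mem
  rw [one_mul] at h9
  simpa using Submodule.add_mem_sup ha h9

end Pool.Agent.MP_e8e0b6_ag.R2
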