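import Pool.Agent.MP_e8e0b6_ag.R2.SpecT

/-!
The class of a line bundle on the family is a difference of classes of systems.
-/

set_option autoImplicit false

namespace Pool.Agent.MP_e8e0b6_ag.R2

open Pool.Agent.MP_79c67d_ag Pool.Agent.MP_20d318_ag Pool.Agent.MP_20d318_ag.AG
  Pool.Agent.MP_20d318_ag.BV Pool.Agent.MP_20d318_ag.CB

theorem dif_stmt (h1 : CtrStmt) (h2 : ClExStmt) : DifStmt := by
  intro k F Ω E J _ _ _ _ _ _ _ _ C H μ S' γ c hG hS ⟨U, V, hU, hV, h⟩ ⟨φ, φ0, hφ⟩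
  have ctr : ∀ O' ∈ S'.T, ∃ O ∈ XX C H, ∀ a ∈ O, μ a ∈ O' :=
    fun O' hO' => h1 k F Ω E C H μ hG.base O' (hG.eq ▸ hO')
  have un : ∀ {O : Subalgebra k F} {O' : Subalgebra Ω E}, (∀ a ∈ O, μ a ∈ O') →
      ∀ {u}, IsU O u → IsU O' (μ u) := fun hle u hu =>
    ⟨(map_ne_zero μ).2 hu.ne, hle _ hu.mem, map_inv₀ μ u ▸ hle _ hu.inv_mem⟩
  have up : ∀ {O : Subalgebra k F} {O' : Subalgebra Ω E}, (∀ a ∈ O, μ a ∈ O') →
      ∀ {W a}, Gn W O a → Gn (μ '' W) O' (μ a) := fun hle W a ha =>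
    ⟨by rintro _ ⟨w, hw, rfl⟩; exact map_div₀ μ w a ▸ hle _ (ha.1 w hw), by
      obtain ⟨w, hw, hu⟩ := ha.2
      exact ⟨_, ⟨w, hw, rfl⟩, map_div₀ μ w a ▸ un hle hu⟩⟩
  have cl : ∀ W, Sys (XX C H) W → ∃ d, Cl S' (μ '' W) d := fun W hW =>
    h2 Ω E J S' _ hS (hW.1.image μ) fun O' hO' => by
      obtain ⟨O, hO, hle⟩ := ctr O' hO'
      obtain ⟨a, ha⟩ := hW.2 O hO
      exact ⟨_, up hle ha⟩
  obtain ⟨c₁, φ₁, n1, g1⟩ := cl U hU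
  obtain ⟨c₂, φ₂, n2, g2⟩ := cl V hV
  refine ⟨U, V, c₁, c₂, hU, hV, ⟨φ₁, n1, g1⟩, ⟨φ₂, n2, g2⟩, sub_eq_zero.1
    (hS.a1.zero _ (φ * φ₁ / φ₂) fun O' hO' => ?_)⟩
  obtain ⟨O, hO, hle⟩ := ctr O' hO'
  obtain ⟨a, b, ha, hb, hu⟩ := h O hO
  have g := hS.a1.gne O' hO'
  have u := (((un hle hu).div (hφ O' hO' O hO hle)).div ((up hle ha).unit (g1 O' hO'))).mul
    ((up hle hb).unit (g2 O' hO'))
  have a0 := (up hle ha).ne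
  have b0 := (up hle hb).ne
  have c0 := (div_ne_zero_iff.1 (hφ O' hO' O hO hle).ne).1
  have l := S'.lb_ne g
  have l0 := l c
  have l1 := l c₁
  have l2 := l c₂
  rw [S'.lb_sub g, S'.lb_sub g]
  convert u using 1
  rw [map_div₀, map_mul]
  field_simp

end Pool.Agent.MP_e8e0b6_ag.R2
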