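import Pool.Agent.MP_e8e0b6_ag.R2.SpecT

/-!
Descent of a multiplier between two spaces defined over a subfield.
-/

set_option autoImplicit false

namespace Pool.Agent.MP_e8e0b6_ag.R2

open Pool.Agent.MP_79c67d_ag Pool.Agent.MP_20d318_ag Pool.Agent.MP_20d318_ag.AG
  Pool.Agent.MP_20d318_ag.BV Pool.Agent.MP_20d318_ag.CB

namespace DscA

variable {L Ω E' E : Type} [Field L] [Field Ω] [Field E'] [Field E] [Algebra L Ω]
  [Algebra L E'] [Algebra Ω E] [Algebra L E] [IsScalarTower L Ω E]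

theorem half (β : BC L E' Ω E) {W W' : Submodule L E'} {φ : E} (fd : FiniteDimensional L W)
    (hW : W ≠ ⊥) (h0 : φ ≠ 0) (h : ∀ z ∈ W, φ * β.μ z ∈ Submodule.span Ω (β.μ '' W')) :
    ∃ ψ : E', ψ ≠ 0 ∧ ∀ z ∈ W, ψ * z ∈ W' := by
  obtain ⟨n, w, hw⟩ := Submodule.fg_iff_exists_fin_generating_family.1
    ((Submodule.fg_iff_finiteDimensional W).2 fd)
  obtain ⟨w1, hw1, h1⟩ := (Submodule.ne_bot_iff W).1 hW
  have hm : ∀ y ∈ Submodule.span Ω (β.μ '' W'), y * β.μ w1⁻¹ ∈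
      Submodule.span Ω (β.μ.toLinearMap '' (⊤ : Submodule L E')) := fun y hy => by
    induction hy using Submodule.span_induction with
    | mem y hy =>
      obtain ⟨v, -, rfl⟩ := hy
      exact Submodule.subset_span ⟨v * w1⁻¹, trivial, map_mul β.μ _ _⟩
    | zero => simp
    | add a b _ _ ha hb => rw [add_mul]; exact add_mem ha hb
    | smul c a _ ha => rw [smul_mul_assoc]; exact Submodule.smul_mem _ c ha
  have hφ := hm _ (h w1 hw1)
  rw [mul_assoc, ← map_mul, mul_inv_cancel₀ h1, map_one, mul_one] at hφ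
  have key := fbc_fin β.inj' (fun i => LinearMap.mulLeft L (w i))
    (fun i => LinearMap.mulLeft Ω (β.μ (w i))) (fun i v => by simp) (fun _ => W') hφ fun i => by
      have := h (w i) (hw ▸ Submodule.subset_span ⟨i, rfl⟩)
      rwa [mul_comm] at this
  obtain ⟨ψ, hψ, p0⟩ : ∃ ψ : E', (∀ i, w i * ψ ∈ W') ∧ ψ ≠ 0 := by
    by_contra hn
    refine h0 ((Submodule.span_eq_bot.2 ?_).le key)
    rintro _ ⟨v, hv, rfl⟩
    have : v = 0 := by_contra fun c => hn ⟨v, hv, c⟩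
    simp [this]
  refine ⟨ψ, p0, fun z hz => ?_⟩
  rw [← hw] at hz
  induction hz using Submodule.span_induction with
  | mem y hy =>
    obtain ⟨i, rfl⟩ := hy
    rw [mul_comm]
    exact hψ i
  | zero => simp
  | add a b _ _ ha hb => rw [mul_add]; exact add_mem ha hb
  | smul c a _ ha => rw [mul_smul_comm]; exact Submodule.smul_mem _ c ha

end DscA

theorem dsc_stmt : DscStmt := by
  intro L Ω E' E _ _ _ _ _ _ _ _ _ β W W' φ fd fd' hW h0 h
  obtain ⟨ψ, p0, hψ⟩ := DscA.half β fd hW h0 fun z hz =>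
    (h _).1 (Submodule.subset_span ⟨z, hz, rfl⟩)
  have hW' : W' ≠ ⊥ := by
    obtain ⟨w1, hw1, h1⟩ := (Submodule.ne_bot_iff W).1 hW
    exact (Submodule.ne_bot_iff W').2 ⟨_, hψ w1 hw1, mul_ne_zero p0 h1⟩
  obtain ⟨ψ', p1, hψ'⟩ := DscA.half β (W' := W) fd' hW' (inv_ne_zero h0) fun z hz =>
    (h _).2 (by
      rw [mul_inv_cancel_left₀ h0]
      exact Submodule.subset_span ⟨z, hz, rfl⟩)
  refine ⟨ψ, p0, fun z => ⟨hψ z, fun hz => ?_⟩⟩
  have inj : Function.Injective (LinearMap.mulLeft L (ψ' * ψ)) :=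
    mul_right_injective₀ (mul_ne_zero p1 p0)
  have e : W.map (LinearMap.mulLeft L (ψ' * ψ)) = W := Submodule.eq_of_le_of_finrank_le (by
    rintro _ ⟨y, hy, rfl⟩
    rw [LinearMap.mulLeft_apply, mul_assoc]
    exact hψ' _ (hψ y hy)) (Submodule.equivMapOfInjective _ inj W).finrank_eq.le
  have h2 := hψ' _ hz
  rw [← e, ← mul_assoc] at h2
  obtain ⟨y, hy, e'⟩ := h2
  exact inj e' ▸ hy

end Pool.Agent.MP_e8e0b6_ag.R2
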