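import Pool.Agent.MP_e8e0b6_ag.R2.SpecA

/-!
Line bundles on a family: generation by sections after a twist, and rational classes.
-/

set_option autoImplicit false

namespace Pool.Agent.MP_e8e0b6_ag.R2

open Pool.Agent.MP_79c67d_ag Pool.Agent.MP_20d318_ag Pool.Agent.MP_20d318_ag.AG
  Pool.Agent.MP_20d318_ag.BV Pool.Agent.MP_20d318_ag.CB
open scoped Pointwise

namespace DtA

variable {k F : Type} [Field k] [Field F] [Algebra k F] {C O : Subalgebra k F} {H U : Set F}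

/-- The inverse of a principal fractional ideal. -/
theorem unit {a₀ a j : F} {N : ℕ} (h₀ : Gn U O a₀) (ha : a ≠ 0) (hj : j ≠ 0)
    (h : ∀ b, (∀ u ∈ U, b * u ∈ O) ↔ b * j ^ N / a ∈ O) : IsU O (a₀ * a / j ^ N) := by
  have n0 := h₀.ne
  have n1 := pow_ne_zero N hj
  refine ⟨div_ne_zero (mul_ne_zero n0 ha) n1, ?_, ?_⟩
  · obtain ⟨u, hu, v⟩ := h₀.2
    have n2 := (div_ne_zero_iff.1 v.1).1
    have h1 := (h (a / j ^ N)).2 (by
      rw [div_mul_cancel₀ _ n1, div_self ha]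
      exact O.one_mem) u hu
    have e : a₀ * a / j ^ N = a / j ^ N * u / (u / a₀) := by field_simp
    exact e ▸ v.div_mem h1
  · have h1 := (h a₀⁻¹).1 fun u hu => by
      rw [inv_mul_eq_div]
      exact h₀.1 u hu
    have e : (a₀ * a / j ^ N)⁻¹ = a₀⁻¹ * j ^ N / a := by field_simp
    exact e ▸ h1

theorem top_mem (fm : Fm C H) : ⊤ ∈ XX C H :=
  fm.ne.elim fun j hj => ⟨j, hj, top_mem_Pts (fm.frac j hj)⟩

theorem gen (hI : InvStmt) : Gen := by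
  intro k F _ _ _ C H γ xb ⟨U, V, hU, hV, h⟩
  obtain ⟨u, hu, g⟩ := (hU.2 ⊤ (top_mem xb.fm)).exists_mem
  obtain ⟨N, V', fin, hV'⟩ := hI k F C H U xb.fm hU.1 ⟨u, hu, g.ne⟩
  refine ⟨N, V * V', hV.1.mul fin, fun O hO j' gj' => ?_⟩
  obtain ⟨a, b, g1, g2, v⟩ := h O hO
  obtain ⟨a', j, g3, g4, hb⟩ := hV' O hO
  refine (gn_mul g2 g3).of_unit ?_
  have := g1.ne; have := g2.ne; have := g3.ne; have := g4.ne
  have e : γ O * j' ^ N / (b * a') = γ O * a / b * (j' / j) ^ N / (a * a' / j ^ N) := by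
    rw [div_pow]
    field_simp
  exact e ▸ (v.mul ((gj'.unit g4).pow N)).div (unit g1 g3.ne g4.ne hb)

variable {Ω E J : Type} [Field Ω] [Field E] [Algebra k E] [Algebra Ω E] [Fintype J]
  {μ : F →ₐ[k] E} {S' : Sd Ω E J}

theorem one (hI : InvStmt) (xb : Xb C H) (gm : Gm C H μ S') (hU : U.Finite) {c : J → ℤ}
    (hc : Cl S' (μ '' U) c) : ∃ γ, Dt (XX C H) γ ∧ Lg (XX C H) μ S' c γ := by
  obtain ⟨φ, h0, hφ⟩ := hc
  obtain ⟨_, ⟨u₀, hu₀, rfl⟩, g₀⟩ := (hφ ⊤ gm.mf.all.a1.nice.toFine.top).exists_mem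
  obtain ⟨N, V, fin, hV⟩ := hI k F C H U xb.fm hU ⟨u₀, hu₀, fun e => g₀.ne (by rw [e, map_zero])⟩
  have sV : Sys (XX C H) V := ⟨fin, fun O hO => by
    obtain ⟨a, -, g, -⟩ := hV O hO
    exact g.prin⟩
  have dt := sV.dt.inv.mul (xb.sys.dt.pow N)
  refine ⟨_, dt, φ⁻¹, inv_ne_zero h0, fun O' hO' O hO hle => ?_⟩
  obtain ⟨O₁, hO₁, e₁⟩ := gm.bg O' hO'
  have up : ∀ z, IsU O₁ z ↔ IsU O' (μ z) := fun z => by
    simp only [IsU, e₁, map_inv₀, ne_eq, map_eq_zero]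
  have cm := dt.cmp hO hO₁ fun a ha => (e₁ a).2 (hle a ha)
  obtain ⟨_, ⟨u, hu, rfl⟩, g⟩ := (hφ O' hO').exists_mem
  have n0 : u ≠ 0 := fun e => g.ne (by rw [e, map_zero])
  have gu : Gn U O₁ u := gn_of_mem hu n0 fun b hb => (e₁ _).2 (by
    rw [map_div₀]
    exact g.1 _ ⟨b, hb, rfl⟩)
  obtain ⟨a, j, g3, g4, hb⟩ := hV O₁ hO₁
  have g5 := gn_spec g3.prin
  have g6 := gn_spec g4.prin
  have u1 := (((unit gu g3.ne g4.ne hb).mul (g5.unit g3)).mul ((g4.unit g6).pow N)).mul cm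
  have e2 : ((fun O => (gn V O)⁻¹)⁻¹ * (fun O => (gn H O)⁻¹) ^ N : Subalgebra k F → F) O₁ =
      gn V O₁ / gn H O₁ ^ N := by
    simp only [Pi.mul_apply, Pi.inv_apply, Pi.pow_apply, inv_inv, inv_pow, div_eq_mul_inv]
  rw [e2] at u1
  generalize ((fun O => (gn V O)⁻¹)⁻¹ * (fun O => (gn H O)⁻¹) ^ N : Subalgebra k F → F) O = z
    at u1 ⊢
  have u2 : IsU O₁ (u * z) := by
    have := g3.ne; have := g4.ne; have := g5.ne; have := g6.ne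
    have e : u * z = u * a / j ^ N * (gn V O₁ / a) * (j / gn H O₁) ^ N *
        (z / (gn V O₁ / gn H O₁ ^ N)) := by
      rw [div_pow]
      field_simp
    exact e ▸ u1
  have u3 := ((up _).1 u2).div (g.unit (hφ O' hO'))
  have := g.ne
  have e : μ z / (φ⁻¹ * S'.lb c O') = μ (u * z) / (μ u / (φ * (S'.lb c O')⁻¹)) := by
    rw [map_mul]
    field_simp
  exact e ▸ u3

end DtA

theorem dtA_stmt : DtAStmt := by
  intro hX hM hB hL hI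
  refine ⟨DtA.gen hI, ?_⟩
  intro k F Ω E J _ _ _ _ _ _ _ _ _ _ C H μ S' fm gc rat c
  have xb := hX k F C H fm
  have gm : Gm C H μ S' := ⟨gc, hM Ω E J S' gc.mrk, hB k F Ω E J C H μ S' xb gc⟩
  have lw := hL k F Ω E J C H μ S' xb gm
  obtain ⟨U, V, c₁, c₂, hU, hV, h1, h2, rfl⟩ := rat c
  obtain ⟨γ₁, d1, l1⟩ := DtA.one hI xb gm hU h1
  obtain ⟨γ₂, d2, l2⟩ := DtA.one hI xb gm hV h2
  exact ⟨γ₁ * γ₂⁻¹, d1.mul d2.inv, sub_eq_add_neg c₁ c₂ ▸ lw.mul _ _ _ _ l1 (lw.inv _ _ l2)⟩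

end Pool.Agent.MP_e8e0b6_ag.R2
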