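import Pool.Agent.MP_e8e0b6_ag.R2.SpecA

/-!
Extension of the constants commutes with intersections.
-/

set_option autoImplicit false

namespace Pool.Agent.MP_e8e0b6_ag.R2

section dual

variable {k F Ω E : Type} [Field k] [Field F] [Field Ω] [Field E] [Algebra k F] [Algebra k E]
  [Algebra Ω E] (μ : F →ₐ[k] E)

theorem dual_span (K : IntermediateField k F) (hK : ∀ c ∈ K, μ c ∈ Set.range (algebraMap Ω E))
    (s : Set F) {z : F} (hz : z ∈ Submodule.span K s) : μ z ∈ Submodule.span Ω (μ '' s) := by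
  induction hz using Submodule.span_induction with
  | mem x hx => exact Submodule.subset_span ⟨x, hx, rfl⟩
  | zero => simp
  | add x y _ _ hx hy => rw [map_add]; exact add_mem hx hy
  | smul r x _ hx =>
    obtain ⟨ω, e⟩ := hK r r.2
    have e1 : μ (r • x) = ω • μ x := by
      rw [Algebra.smul_def ω, e, ← map_mul]
      rfl
    rw [e1]
    exact Submodule.smul_mem _ _ hx

theorem dual_field (K : IntermediateField k F) (hK : ∀ c ∈ K, μ c ∈ Set.range (algebraMap Ω E))
    (hl : ∀ (ι : Type) (v : ι → F), LinearIndependent K v → LinearIndependent Ω fun i => μ (v i))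
    (P P' : Submodule K F) : Submodule.span Ω (μ '' P) ⊓ Submodule.span Ω (μ '' P') ≤
      Submodule.span Ω (μ '' (P ⊓ P' : Submodule K F)) := by
  obtain ⟨R, hR⟩ := Submodule.exists_isCompl (P ⊓ P')
  have hb : ∀ Q : Submodule K F, ∃ (ι : Type) (v : ι → F), LinearIndependent K v ∧
      Submodule.span K (Set.range v) = Q := fun Q => by
    obtain ⟨b, -, h1, h2⟩ := exists_linearIndependent K (Q : Set F)
    exact ⟨b, Subtype.val, h2, by rw [Subtype.range_coe, h1, Submodule.span_eq]⟩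
  obtain ⟨ι, v, h1, h2⟩ := hb P
  obtain ⟨κ, w, h3, h4⟩ := hb (R ⊓ P')
  have h5 : Disjoint (Submodule.span K (Set.range v)) (Submodule.span K (Set.range w)) := by
    rw [h2, h4, Submodule.disjoint_def]
    exact fun z a b => Submodule.disjoint_def.1 hR.disjoint z ⟨a, b.2⟩ b.1
  have h6 := (linearIndependent_sum.1 (hl _ _ (h1.sum_type h3 h5))).2.2
  have h7 : ∀ {ι : Type} (v : ι → F), Submodule.span Ω (μ '' Submodule.span K (Set.range v)) ≤
      Submodule.span Ω (Set.range fun i => μ (v i)) := fun v => by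
    refine Submodule.span_le.2 ?_
    rintro _ ⟨z, hz, rfl⟩
    have := dual_span μ K hK _ hz
    rwa [← Set.range_comp] at this
  have h8 : Submodule.span Ω (μ '' P') ≤ Submodule.span Ω (μ '' (P ⊓ P' : Submodule K F)) ⊔
      Submodule.span Ω (μ '' (R ⊓ P' : Submodule K F)) := by
    refine Submodule.span_le.2 ?_
    rintro _ ⟨z, hz, rfl⟩
    have h9 : z ∈ (P ⊓ P') ⊔ (R ⊓ P') := by
      rw [← sup_inf_assoc_of_le R inf_le_right, hR.sup_eq_top, top_inf_eq]
      exact hz
    obtain ⟨a, ha, b, hb, rfl⟩ := Submodule.mem_sup.1 h9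
    rw [map_add]
    exact Submodule.add_mem_sup (Submodule.subset_span ⟨a, ha, rfl⟩)
      (Submodule.subset_span ⟨b, hb, rfl⟩)
  intro x hx
  obtain ⟨a, ha, b, hb, rfl⟩ := Submodule.mem_sup.1 (h8 hx.2)
  have h9 : b ∈ Submodule.span Ω (μ '' P) :=
    (Submodule.add_mem_iff_right _ (Submodule.span_mono (Set.image_mono fun _ h => h.1) ha)).1 hx.1
  rw [← h2] at h9
  rw [← h4] at hb
  rw [Submodule.disjoint_def.1 h6 b (h7 v h9) (h7 w hb), add_zero]
  exact ha

theorem dual_frac (C : Subalgebra k F) {z : F}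
    (hz : z ∈ IntermediateField.adjoin k (C : Set F)) : ∃ a ∈ C, ∃ b ∈ C, b ≠ 0 ∧ z = a / b := by
  obtain ⟨a, ha, b, hb, e⟩ := IntermediateField.mem_adjoin_iff_div.1 hz
  rw [Algebra.adjoin_eq] at ha hb
  by_cases h : b = 0
  · exact ⟨0, C.zero_mem, 1, C.one_mem, one_ne_zero, by simp [e, h]⟩
  · exact ⟨a, ha, b, hb, h, e⟩

/-- The elements with a multiple in `N`. -/
def dualSat (C : Subalgebra k F) (N : Submodule C F) :
    Submodule (IntermediateField.adjoin k (C : Set F)) F where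
  carrier := {z | ∃ c ∈ C, c ≠ 0 ∧ c * z ∈ N}
  zero_mem' := ⟨1, C.one_mem, one_ne_zero, by simp⟩
  add_mem' := by
    rintro x y ⟨c, hc, c0, hx⟩ ⟨d, hd, d0, hy⟩
    refine ⟨c * d, C.mul_mem hc hd, mul_ne_zero c0 d0, ?_⟩
    have e : c * d * (x + y) = (⟨d, hd⟩ : C) • (c * x) + (⟨c, hc⟩ : C) • (d * y) := by
      change _ = d * (c * x) + c * (d * y)
      ring
    rw [e]
    exact N.add_mem (N.smul_mem _ hx) (N.smul_mem _ hy)
  smul_mem' := by
    rintro r x ⟨c, hc, c0, hx⟩
    obtain ⟨a, ha, b, hb, b0, e⟩ := dual_frac C r.2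
    refine ⟨c * b, C.mul_mem hc hb, mul_ne_zero c0 b0, ?_⟩
    have e1 : c * b * (r • x) = (⟨a, ha⟩ : C) • (c * x) := by
      change c * b * ((r : F) * x) = a * (c * x)
      rw [e]
      field_simp
    rw [e1]
    exact N.smul_mem _ hx

end dual

theorem dual_stmt : DualStmt := by
  intro k F Ω E _ _ _ _ _ _ _ C μ hC hl N N'
  have hK : ∀ c ∈ IntermediateField.adjoin k (C : Set F), μ c ∈ Set.range (algebraMap Ω E) := by
    intro c hc
    obtain ⟨a, ha, b, hb, -, rfl⟩ := dual_frac C hc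
    obtain ⟨α, e1⟩ := hC a ha
    obtain ⟨β, e2⟩ := hC b hb
    exact ⟨α / β, by rw [map_div₀, map_div₀, e1, e2]⟩
  have h1 := dual_field μ _ hK (fun ι v hv => hl ι v ?_) (dualSat C N) (dualSat C N')
  · have h2 : ∀ N : Submodule C F, (N : Set F) ⊆ dualSat C N := fun N z hz =>
      ⟨1, C.one_mem, one_ne_zero, by simpa using hz⟩
    refine (inf_le_inf (Submodule.span_mono (Set.image_mono (h2 N)))
      (Submodule.span_mono (Set.image_mono (h2 N')))).trans (h1.trans (Submodule.span_le.2 ?_))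
    rintro _ ⟨z, ⟨⟨c, hc, c0, hx⟩, ⟨d, hd, d0, hy⟩⟩, rfl⟩
    have h3 : c * d * z ∈ N ⊓ N' := by
      refine ⟨?_, ?_⟩
      · have e : c * d * z = (⟨d, hd⟩ : C) • (c * z) := by
          change _ = d * (c * z)
          ring
        rw [e]
        exact N.smul_mem _ hx
      · rw [mul_assoc]
        exact N'.smul_mem (⟨c, hc⟩ : C) hy
    obtain ⟨ω, e⟩ := hC _ (C.mul_mem hc hd)
    have h4 : μ (c * d) ≠ 0 := (map_ne_zero μ).2 (mul_ne_zero c0 d0)
    have e1 : μ z = ω⁻¹ • μ (c * d * z) := by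
      rw [Algebra.smul_def, map_inv₀, e, map_mul μ (c * d), inv_mul_cancel_left₀ h4]
    rw [e1]
    exact Submodule.smul_mem _ _ (Submodule.subset_span ⟨_, h3, rfl⟩)
  · rw [linearIndependent_iff'] at hv ⊢
    intro s g h i hi
    have h5 := hv s (fun i => ⟨g i, IntermediateField.subset_adjoin k _ (g i).2⟩) h i hi
    have h6 : (g i : F) = 0 := congrArg Subtype.val h5
    exact Subtype.ext h6

end Pool.Agent.MP_e8e0b6_ag.R2
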