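import Pool.Agent.MP_e8e0b6_ag.R2.SpecA

/-! Exactness of the multiples of the hyperplane class passes to the blow-up. -/

set_option autoImplicit false

namespace Pool.Agent.MP_e8e0b6_ag.R2

open Pool.Agent.MP_79c67d_ag Pool.Agent.MP_20d318_ag Pool.Agent.MP_20d318_ag.AG
  Pool.Agent.MP_20d318_ag.BV Pool.Agent.MP_20d318_ag.CB

namespace Exb

variable {k M : Type} [Field k] [Field M] [Algebra k M]

theorem ind_poly {O : Subalgebra k M} {t : M} (h : Ind O ![t]) {q : Polynomial k} (hq : q ≠ 0) :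
    IsU O (Polynomial.aeval t q) := by
  have := h.2 (q.toMvPolynomial 0) fun e => hq
    (Polynomial.toMvPolynomial_injective (0 : Fin 1) (e.trans (map_zero _).symm))
  rwa [MvPolynomial.aeval_toMvPolynomial] at this

theorem rank_step {V V' : Submodule k M} [FiniteDimensional k V] (hle : V' ≤ V) (u t : M) (n : ℕ)
    (h1 : ∀ l < n, u * t ^ l ∈ V)
    (h2 : ∀ q : Polynomial k, q ≠ 0 → u * Polynomial.aeval t q ∉ V') :
    Module.finrank k V' + n ≤ Module.finrank k V := by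
  let L : Polynomial.degreeLT k n →ₗ[k] M :=
    LinearMap.mulLeft k u ∘ₗ (Polynomial.aeval t).toLinearMap ∘ₗ (Polynomial.degreeLT k n).subtype
  have hL : ∀ q, L q = u * Polynomial.aeval t q.1 := fun _ => rfl
  have k0 : ∀ q, L q ∈ V' → q = 0 := fun q hq => by
    by_contra e
    exact h2 q.1 (fun e' => e (Subtype.ext e')) hq
  have inj : Function.Injective L := (injective_iff_map_eq_zero L).2 fun q hq =>
    k0 q (hq ▸ V'.zero_mem)
  have le : LinearMap.range L ≤ V := by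
    rintro _ ⟨q, rfl⟩
    by_cases e : q.1 = 0
    · rw [hL, e, map_zero, mul_zero]
      exact V.zero_mem
    rw [hL, Polynomial.aeval_eq_sum_range'
      ((Polynomial.natDegree_lt_iff_degree_lt e).2 (Polynomial.mem_degreeLT.1 q.2)), Finset.mul_sum]
    refine V.sum_mem fun l hl => ?_
    rw [mul_smul_comm]
    exact V.smul_mem _ (h1 l (Finset.mem_range.1 hl))
  have bot : V' ⊓ LinearMap.range L = ⊥ := eq_bot_iff.2 <| by
    rintro _ ⟨hq, q, rfl⟩
    rw [k0 q hq, map_zero]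
    exact Submodule.zero_mem _
  have : FiniteDimensional k V' := Submodule.finiteDimensional_of_le hle
  have : FiniteDimensional k (LinearMap.range L) := Submodule.finiteDimensional_of_le le
  have e := Submodule.finrank_sup_add_finrank_inf_eq V' (LinearMap.range L)
  rw [bot, finrank_bot, add_zero, LinearMap.finrank_range_of_inj inj,
    (Polynomial.degreeLTEquiv k n).finrank_eq, Module.finrank_fin_fun] at e
  rw [← e]
  exact Submodule.finrank_mono (sup_le hle le)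

end Exb

open Exb in
theorem exb_stmt : ExbStmt := by
  intro k M I _ _ _ _ _ _ S O₀ a b H' e E h s s' m hm
  have l2 : ∀ O, S.lb ((2 : ℤ) • S.h) O = S.lb S.h O ^ 2 := fun O => by
    rw [S.lb_zsmul, zpow_ofNat]
  have lm : ∀ O, S.lb ((2 * m) • S.h) O = S.lb S.h O ^ (2 * m) := fun O => by
    rw [← natCast_zsmul, S.lb_zsmul, zpow_natCast]
  obtain ⟨s0, hs0, u0⟩ := (s.s.gH O₀ h.mem).2
  rw [div_inv_eq_mul] at u0
  have m0 : ∀ O ∈ S.T, s0 * S.lb S.h O ∈ O := fun O hO =>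
    div_inv_eq_mul s0 _ ▸ (s.s.gH O hO).1 s0 hs0
  have sec : ∀ α ∈ H', ∀ O ∈ S.T, α * S.lb S.h O ^ 2 ∈ O := fun α hα O hO =>
    l2 O ▸ ((h.sec ((2 : ℤ) • S.h) (-1) α).1 fun O hO =>
      div_inv_eq_mul α _ ▸ (h.gH O hO).1 α hα).1 O hO
  obtain ⟨j, hj, hpt⟩ : plO E ∈ mp k (fun _ : Unit => H') := h.mE
  have hm' : ∀ α ∈ H', α / j () ∈ plO E := fun α hα =>
    hpt.2.1 (Algebra.subset_adjoin (Set.mem_iUnion.2 ⟨(), α, hα, rfl⟩))
  obtain ⟨α, hα, hi⟩ : ∃ α ∈ H', Ind (plO E) ![α / j ()] := by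
    by_contra hc
    refine (s'.a1.dim E h.mE).1 (ratPt_of hpt rfl fun g hg => ?_)
    obtain ⟨⟨⟩, α, hα, rfl⟩ := Set.mem_iUnion.1 hg
    exact (s'.a1.ind E h.mE _ (hm' α hα)).resolve_left fun k1 => hc ⟨α, hα, k1⟩
  have j0 : j () ≠ 0 := h.fam.nz () _ (hj ())
  have e0 : e (plO E) ≠ 0 := h.cart.ne h.mE
  have vj : E.v (j () * S.lb S.h O₀ ^ 2) = WithZero.exp (-1) := by
    have u1 := (gn_of_mem (hj ()) j0 hm').unit (h.gH _ h.mE)
    rw [div_inv_eq_mul] at u1
    change IsU _ (_ * (S.blow H' e).lb (pb _ _) _) at u1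
    rw [lb_pb, (h.ov _ h.mE h.dE).1, l2, zpow_neg_one, ← mul_assoc, isU_plO, map_mul, map_inv₀,
      mul_inv_eq_one₀ ((Valuation.ne_zero_iff _).2 e0)] at u1
    have e2 := h.oe
    rw [Place.ord, neg_eq_iff_eq_neg] at e2
    rw [u1, ← e2, WithZero.exp_log ((Valuation.ne_zero_iff _).2 e0)]
  have v0 : E.v (s0 * S.lb S.h O₀) = 1 := (isU_plO E).1 (u0.mono h.dE.1)
  have step : ∀ i < m, (S.blow H' e).h0 (pb ((2 * m) • S.h) (-((i + 1 : ℕ) : ℤ))) + (i + 1 : ℕ) ≤
      (S.blow H' e).h0 (pb ((2 * m) • S.h) (-(i : ℤ))) := by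
    intro i him
    obtain ⟨r, rfl⟩ := Nat.exists_eq_add_of_le him.le
    have := s'.s.fd (pb ((2 * (i + r)) • S.h) (-(i : ℤ)))
    have vq : ∀ z : M, E.v (s0 ^ (2 * r) * j () ^ i * z * S.lb ((2 * (i + r)) • S.h) O₀) =
        WithZero.exp (-(i : ℤ)) * E.v z := fun z => by
      rw [lm, show s0 ^ (2 * r) * j () ^ i * z * S.lb S.h O₀ ^ (2 * (i + r)) =
        (s0 * S.lb S.h O₀) ^ (2 * r) * (j () * S.lb S.h O₀ ^ 2) ^ i * z by ring, map_mul, map_mul,
        map_pow, map_pow, v0, vj, one_pow, one_mul, ← WithZero.exp_nsmul]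
      simp
    have := rank_step (V := (S.blow H' e).Sec (pb ((2 * (i + r)) • S.h) (-(i : ℤ))))
      (V' := (S.blow H' e).Sec (pb ((2 * (i + r)) • S.h) (-((i + 1 : ℕ) : ℤ))))
      (fun φ hφ => ?_) (s0 ^ (2 * r) * j () ^ i) (α / j ()) (i + 1) (fun l hl => ?_) fun q hq hφ => ?_
    · unfold Sd.h0
      exact_mod_cast this
    · rw [h.sec] at hφ ⊢
      exact ⟨hφ.1, hφ.2.trans (WithZero.exp_le_exp.2 (by push_cast; omega))⟩
    · rw [h.sec]
      refine ⟨fun O hO => ?_, ?_⟩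
      · obtain ⟨n, rfl⟩ := Nat.exists_eq_add_of_le (Nat.lt_succ_iff.1 hl)
        rw [lm, show s0 ^ (2 * r) * j () ^ (l + n) * (α / j ()) ^ l *
            S.lb S.h O ^ (2 * (l + n + r)) = (s0 * S.lb S.h O) ^ (2 * r) *
            (α * S.lb S.h O ^ 2) ^ l * (j () * S.lb S.h O ^ 2) ^ n by
              rw [div_pow, pow_add (j ()) l n]; field_simp; ring]
        exact O.mul_mem (O.mul_mem (O.pow_mem (m0 O hO) _) (O.pow_mem (sec α hα O hO) _))
          (O.pow_mem (sec _ (hj ()) O hO) _)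
      · rw [Place.Ge, vq, neg_neg]
        exact mul_le_of_le_one_right' ((plO E).pow_mem (hm' α hα) l)
    · have k1 := ((h.sec _ _ _).1 hφ).2
      rw [Place.Ge, vq, (isU_plO E).1 (ind_poly hi hq), mul_one, WithZero.exp_le_exp] at k1
      push_cast at k1
      omega
  have main : ∀ i ≤ m, 2 * (S.blow H' e).h0 (pb ((2 * m) • S.h) (-(i : ℤ))) + i * (i + 1) ≤
      2 * S.h0 ((2 * m) • S.h) := by
    intro i
    induction i with
    | zero =>
      intro _
      have := s.s.fd ((2 * m) • S.h)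
      have := Submodule.finrank_mono (show (S.blow H' e).Sec (pb ((2 * m) • S.h) (-((0 : ℕ) : ℤ))) ≤
        S.Sec ((2 * m) • S.h) from fun φ hφ => ((h.sec _ _ _).1 hφ).1)
      unfold Sd.h0
      push_cast at this ⊢
      omega
    | succ i ih =>
      intro hi
      have h1 := ih (by omega)
      have h2 := step i (by omega)
      push_cast at h1 h2 ⊢
      linarith
  have e1 : m • (S.blow H' e).h = pb ((2 * m) • S.h) (-(m : ℤ)) := by
    funext o
    cases o <;> simp [Sd.blow, pb]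
    ring
  have h3 := main m le_rfl
  unfold Ex chi2 at hm ⊢
  rw [e1]
  change _ ≤ _ - ip _ (pb S.K 1) _ + 2
  rw [ip_pb, ip_pb]
  linarith

end Pool.Agent.MP_e8e0b6_ag.R2
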