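import Pool.Agent.MP_e8e0b6_ag.R2.SpecA

/-! The multiples of the hyperplane class of a marked tower are exact. -/

set_option autoImplicit false

namespace Pool.Agent.MP_e8e0b6_ag.R2

open Pool.Agent.MP_79c67d_ag Pool.Agent.MP_20d318_ag Pool.Agent.MP_20d318_ag.AG
  Pool.Agent.MP_20d318_ag.BV Pool.Agent.MP_20d318_ag.CB

theorem exh_stmt : ExhStmt := fun h1 h2 h3 k M I _ _ _ _ _ _ S h => by
  induction h with
  | p2 x y L h =>
    intro m
    have e : m • (p2 k x y).h = (p2 k x y).K + ((m : ℤ) + 3) • (p2 k x y).A := by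
      funext i
      simp [p2]
    rw [Ex, e]
    exact (h1 k M _ _ (.p2 x y L h)).1.s.ub _ (by omega)
  | fn n x y F G h =>
    have nl := h2 k M _ _ (h1 k M _ _ (.fn n x y F G h)).1
    have key : ∀ a b : ℕ, Ex (fn k n x y) ![a, b] := by
      intro a b
      induction a with
      | zero =>
        induction b with
        | zero => convert nl.ex0 using 1; funext i; fin_cases i <;> rfl
        | succ b ih =>
          refine nl.up _ ⟨1, G, h.pG⟩ (by simp [Sd.i, CB.ip, fn]; ring) _ ?_ ?_
          · simp [Sd.i, CB.ip, fn]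
            nlinarith [mul_nonneg (Int.natCast_nonneg b) (Int.natCast_nonneg n),
              Int.natCast_nonneg n]
          · convert ih using 1; funext i; fin_cases i <;> simp
      | succ a ih =>
        refine nl.up _ ⟨1, F, h.pF⟩ (by simp [Sd.i, CB.ip, fn]) _ ?_ ?_
        · simp [Sd.i, CB.ip, fn]
        · convert ih using 1; funext i; fin_cases i <;> simp
    intro m
    convert key m m using 1
    funext i
    fin_cases i <;> simp [fn]
  | bl S O a b H' e E hS h ih =>
    exact fun m => h3 k M _ S O a b H' e E h (h1 k M _ S hS).1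
      (h1 k M _ _ (.bl S O a b H' e E hS h)).1 m (ih _)

end Pool.Agent.MP_e8e0b6_ag.R2
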