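import Pool.Agent.MP_e8e0b6_ag.R2.SpecB

/-!
The generic point of a fibre.
-/

set_option autoImplicit false

open Polynomial AlgebraicGeometry CategoryTheory Limits TensorProduct

namespace Pool.Agent.MP_e8e0b6_ag.R2

open Pool.Agent.MP_79c67d_ag Pool.Agent.MP_20d318_ag Pool.Agent.MP_20d318_ag.AG
  Pool.Agent.MP_20d318_ag.BV Pool.Agent.MP_20d318_ag.CB

namespace FibrA

/-- Elements that vanish on the fibre. -/
theorem fib_zero {A B L : Type} [CommRing A] [AddCommGroup B] [Module A B] [Field L] [Algebra A L]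
    {b : B} (h : (1 : L) ⊗ₜ[A] b = 0) : ∃ t : A, algebraMap A L t ≠ 0 ∧
      t • b ∈ RingHom.ker (algebraMap A L) • (⊤ : Submodule A B) := by
  by_contra hn
  let p : Ideal A := RingHom.ker (algebraMap A L)
  have : p.IsPrime := RingHom.ker_isPrime _
  let _ : Algebra (A ⧸ p) L := (RingHom.kerLift (algebraMap A L)).toAlgebra
  have : IsScalarTower A (A ⧸ p) L :=
    IsScalarTower.of_algebraMap_eq fun a => (RingHom.kerLift_mk (algebraMap A L) a).symm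
  have : Module.Flat (A ⧸ p) L := flat_field (RingHom.kerLift_injective (algebraMap A L))
  have li : LinearIndependent (A ⧸ p) fun _ : Unit => (1 : A ⧸ p) ⊗ₜ[A] b := by
    rw [Fintype.linearIndependent_iff]
    intro c hc i
    obtain ⟨t, ht⟩ := Ideal.Quotient.mk_surjective (c ())
    rw [Fintype.sum_unique, TensorProduct.smul_tmul', smul_eq_mul, mul_one] at hc
    change c () ⊗ₜ[A] b = 0 at hc
    change c () = 0
    rw [← ht] at hc ⊢
    have h1 := congrArg (TensorProduct.quotTensorEquivQuotSMul B p) hc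
    rw [TensorProduct.quotTensorEquivQuotSMul_mk_tmul, map_zero,
      Submodule.Quotient.mk_eq_zero] at h1
    exact Ideal.Quotient.eq_zero_iff_mem.2 (by_contra fun h2 => hn ⟨t, h2, h1⟩)
  refine (Module.Flat.linearIndependent_one_tmul (S := L) li).ne_zero () ?_
  apply (TensorProduct.AlgebraTensorModule.cancelBaseChange A (A ⧸ p) L L B).injective
  rw [TensorProduct.AlgebraTensorModule.cancelBaseChange_tmul, one_smul, h, map_zero]

variable {k A B F M : Type} [Field k] [CommRing A] [CommRing B] [Field F] [Field M] [Algebra k F]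
  [Algebra k M]

/-- The local ring at the kernel of a map to a field. -/
theorem ex_pt (D : Subalgebra k F) (θ : B →+* F) (τ : B →+* M) (hi : Function.Injective θ)
    (hD : ∀ z, z ∈ D ↔ z ∈ Set.range θ)
    (hk : ∀ c : k, ∃ b, θ b = algebraMap k F c ∧ τ b = algebraMap k M c) :
    ∃ ξ ∈ Pts D, ∃ ρ : ξ →ₐ[k] M, LocHom ξ ρ ∧ ∀ b, evO ξ ρ (θ b) = τ b := by
  have m : ∀ b, θ b ∈ D := fun b => (hD _).2 ⟨b, rfl⟩
  let e : B ≃+* D := RingEquiv.ofBijective (θ.codRestrict D m)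
    ⟨fun a b h => hi (congrArg Subtype.val h), fun z => by
      obtain ⟨b, hb⟩ := (hD z).1 z.2
      exact ⟨b, Subtype.ext hb⟩⟩
  have he : ∀ b, e.symm ⟨θ b, m b⟩ = b := fun b => e.symm_apply_apply b
  let φ : D →ₐ[k] M :=
    { τ.comp e.symm.toRingHom with
      commutes' := fun c => by
        obtain ⟨b, h1, h2⟩ := hk c
        have : algebraMap k D c = ⟨θ b, m b⟩ := Subtype.ext h1.symm
        change τ (e.symm (algebraMap k D c)) = _
        rw [this, he, h2] }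
  obtain ⟨ξ, h1, ρ, h2, h3⟩ := exists_ext φ
  refine ⟨ξ, h1, ρ, h2, fun b => ?_⟩
  rw [h3 _ (m b), evO_of_mem φ (m b)]
  exact congrArg τ (he b)

theorem isU_of {ξ : Subalgebra k F} {ρ : ξ →ₐ[k] M} (h : LocHom ξ ρ) {a : F} (ha : a ∈ ξ)
    (h0 : evO ξ ρ a ≠ 0) : IsU ξ a :=
  isU_of_not_mx ha fun hm => h0 ((h.eq_zero_iff ha).2 hm)

/-- Two maps that agree on generators. -/
theorem gen_ext [Algebra A B] {ι : Type} {ξ : Subalgebra k F} (ρ : ξ →ₐ[k] M) (r : ι → B)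
    (hr : Algebra.adjoin A (Set.range r) = ⊤) (θ : B →+* F) (τ : B →+* M)
    (h1 : ∀ a, θ (algebraMap A B a) ∈ ξ ∧ evO ξ ρ (θ (algebraMap A B a)) = τ (algebraMap A B a))
    (h2 : ∀ l, θ (r l) ∈ ξ ∧ evO ξ ρ (θ (r l)) = τ (r l)) (b : B) :
    θ b ∈ ξ ∧ evO ξ ρ (θ b) = τ b := by
  have hb : b ∈ Algebra.adjoin A (Set.range r) := hr ▸ Algebra.mem_top
  induction hb using Algebra.adjoin_induction with
  | mem x hx =>
    obtain ⟨l, rfl⟩ := hx
    exact h2 l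
  | algebraMap a => exact h1 a
  | add x y _ _ hx hy =>
    rw [map_add, map_add, evO_add ρ hx.1 hy.1, hx.2, hy.2]
    exact ⟨ξ.add_mem hx.1 hy.1, rfl⟩
  | mul x y _ _ hx hy =>
    rw [map_mul, map_mul, evO_mul ρ hx.1 hy.1, hx.2, hy.2]
    exact ⟨ξ.mul_mem hx.1 hy.1, rfl⟩

/-- Functions that vanish on the fibre lie in the ideal generated by the maximal ideal. -/
theorem span_of [Algebra A B] {L : Type} [Field L] [Algebra A L] {R O : Subalgebra k F}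
    (hle : R ≤ O) (θ : B →+* F) (hθ : ∀ b, θ b ∈ O) (hR : ∀ a, θ (algebraMap A B a) ∈ R)
    (hp : ∀ a, IsU R (θ (algebraMap A B a)) ↔ algebraMap A L a ≠ 0) {b : B}
    (h : (1 : L) ⊗ₜ[A] b = 0) : θ b ∈ Submodule.span O (mx R) := by
  obtain ⟨t, ht, hb⟩ := fib_zero h
  have key : ∀ x ∈ RingHom.ker (algebraMap A L) • (⊤ : Submodule A B),
      θ x ∈ Submodule.span O (mx R) := fun x hx => by
    refine Submodule.smul_induction_on hx (fun a ha y _ => ?_) fun x y hx hy => ?_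
    · rw [Algebra.smul_def, map_mul, mul_comm]
      exact C.span_mul (hθ y) (Submodule.subset_span ⟨hR a, fun u => (hp a).1 u ha⟩)
    · rw [map_add]
      exact Submodule.add_mem _ hx hy
  have u := ((hp t).2 ht).mono hle
  have := C.span_mul u.inv_mem (key _ hb)
  rwa [Algebra.smul_def, map_mul, inv_mul_cancel_left₀ u.1] at this

end FibrA

open FibrA in
theorem fibr_stmt : FibrStmt := by
  intro k A F L M _ _ _ _ _ _ _ _ _ _ _ N 𝓡 g h h' R em fb hR hp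
  let _ : Algebra k M := ((algebraMap A M).comp (algebraMap k A)).toAlgebra
  have hne : ∀ i, h' i ≠ 0 → h i ≠ 0 := fun i hi e => by
    obtain ⟨τ, -⟩ := fb.emb i hi
    have := em.zero i e
    exact one_ne_zero ((map_one τ).symm.trans
      ((congrArg τ (Subsingleton.elim 1 0)).trans (map_zero τ)))
  obtain ⟨i₀, hi₀⟩ := fb.ne
  obtain ⟨θ₀, a1, a2, a3, a4⟩ := em.emb i₀ (hne i₀ hi₀)
  obtain ⟨τ₀, b1, -⟩ := fb.emb i₀ hi₀
  obtain ⟨ξ, hξ, ρ, lh, ev⟩ := ex_pt (k := k) _ θ₀ τ₀.toRingHom a1 a4 fun c =>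
    ⟨algebraMap A _ (algebraMap k A c), (a2 _).trans (g.commutes c), τ₀.commutes _⟩
  have m0 : ∀ b, θ₀ b ∈ ξ := fun b => hξ.2.1 ((a4 _).2 ⟨b, rfl⟩)
  have eg : ∀ a, g a ∈ ξ ∧ evO ξ ρ (g a) = algebraMap A M a := fun a => by
    rw [← a2]
    exact ⟨m0 _, (ev _).trans (τ₀.commutes a)⟩
  have e0 : ∀ l, h l / h i₀ ∈ ξ ∧ evO ξ ρ (h l / h i₀) = h' l / h' i₀ := fun l => by
    rw [← a3]
    exact ⟨m0 _, (ev _).trans (b1 l)⟩
  have eh : ∀ i, h' i ≠ 0 → ∀ l, h l / h i ∈ ξ ∧ evO ξ ρ (h l / h i) = h' l / h' i := fun i hi l => by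
    have u : IsU ξ (h i / h i₀) := isU_of lh (e0 i).1 (by rw [(e0 i).2]; exact div_ne_zero hi hi₀)
    rw [← div_div_div_cancel_right₀ (hne i₀ hi₀) (h l) (h i), evO_div ρ (e0 l).1 u, (e0 l).2,
      (e0 i).2, div_div_div_cancel_right₀ hi₀]
    exact ⟨u.div_mem (e0 l).1, rfl⟩
  have ug : ∀ a, IsU ξ (g a) ↔ IsU R (g a) := fun a => by
    rw [hp, ← map_ne_zero (algebraMap L M), ← IsScalarTower.algebraMap_apply, ← (eg a).2]
    exact ⟨evO_ne ρ, isU_of lh (eg a).1⟩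
  have dom : AG.Dom R ξ := by
    refine ⟨fun f hf => ?_, fun f hf u => ?_⟩
    · obtain ⟨_, ⟨a, rfl⟩, _, ⟨b, rfl⟩, u, rfl⟩ := hR.2.2 f hf
      exact ((ug b).2 u).div_mem (eg a).1
    · obtain ⟨_, ⟨a, rfl⟩, _, ⟨b, rfl⟩, v, rfl⟩ := hR.2.2 f hf
      have := u.mul ((ug b).2 v)
      erw [div_mul_cancel₀ _ v.1] at this
      exact ((ug a).1 this).div v
  have key : ∀ O ∈ XX R (nz h), AG.Dom R O → ∀ f ∈ O, ∃ a ∈ ξ, ∃ s, IsU O s ∧ IsU ξ s ∧ f = a / s ∧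
      (a ∈ mx ξ → a ∈ Submodule.span O (mx R)) := by
    rintro O ⟨_, ⟨⟨i, rfl⟩, hi⟩, hO⟩ hd f hf
    obtain ⟨θ, c1, c2, c3, c4⟩ := em.emb i hi
    have hle : ch g.range (nz h) (h i) ≤ O :=
      C.ch_le (hR.2.1.trans hd.1) fun _ ha => hO.2.1 (C.div_mem_ch ha)
    have hO' : O ∈ Pts (ch g.range (nz h) (h i)) := by
      refine C.pts2 hO hle (C.ch_le (fun f hf => ?_) fun _ ha => C.le_fr (C.div_mem_ch ha))
      obtain ⟨a, ha, b, hb, u, rfl⟩ := hR.2.2 f hf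
      exact C.mem_fr ((le_sup_left : g.range ≤ _) ha) ((le_sup_left : g.range ≤ _) hb) (u.mono hd.1)
    have sp : ∀ b : 𝓡.B i, (1 : L) ⊗ₜ[A] b = 0 → θ b ∈ Submodule.span O (mx R) := fun b hb =>
      span_of hd.1 θ (fun b => hle ((c4 _).2 ⟨b, rfl⟩)) (fun a => by
        rw [c2]; exact hR.2.1 ⟨a, rfl⟩) (fun a => by rw [c2]; exact hp a) hb
    have sm : ∀ x ∈ Submodule.span O (mx R), x ∈ mx O := fun x hx =>
      C.span_mx hO.1 le_rfl (fun _ hy => hd.mx hy) hx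
    have hi' : h' i ≠ 0 := fun e => by
      have := fb.zero i e
      have h1 := sm _ (sp 1 (Subsingleton.elim _ _))
      rw [map_one] at h1
      exact one_not_mem_mx h1
    obtain ⟨τ, d1, d2⟩ := fb.emb i hi'
    have sp' : ∀ b, τ b = 0 → θ b ∈ Submodule.span O (mx R) := fun b hb =>
      sp b (d2 (by rw [tens_tmul, hb, mul_zero, map_zero]))
    have ge := gen_ext ρ (𝓡.r i) (𝓡.gen i) θ τ.toRingHom (fun a => by
      rw [c2]; exact ⟨(eg a).1, (eg a).2.trans (τ.commutes a).symm⟩) fun l => by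
      rw [c3]; exact ⟨(eh i hi' l).1, (eh i hi' l).2.trans (d1 l).symm⟩
    obtain ⟨a, ha, s, hs, u, rfl⟩ := hO'.2.2 f hf
    obtain ⟨a, rfl⟩ := (c4 _).1 ha
    obtain ⟨s, rfl⟩ := (c4 _).1 hs
    exact ⟨θ a, (ge a).1, θ s, u, isU_of lh (ge s).1 fun e =>
      u.not_mx (sm _ (sp' s ((ge s).2.symm.trans e))), rfl,
      fun hm => sp' a ((ge a).2.symm.trans ((lh.eq_zero_iff hm.1).2 hm))⟩
  refine ⟨ξ, ρ.toRingHom, ⟨C.xx_base ⟨h i₀, ⟨⟨i₀, rfl⟩, hne i₀ hi₀⟩, hξ⟩ hR.2.1 dom.1, dom,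
    fun O hO hd f hf => ?_, fun O hO hd f hf hm => ?_⟩, lh,
    fun a m => (evO_of_mem ρ m).symm.trans (eg a).2, fun i hi => ⟨hne i hi, fun l =>
      ⟨(eh i hi l).1, (evO_of_mem ρ _).symm.trans (eh i hi l).2⟩⟩⟩
  · obtain ⟨a, ha, s, -, v, rfl, -⟩ := key O hO hd f hf
    exact v.div_mem ha
  · obtain ⟨a, ha, s, u, v, rfl, w⟩ := key O hO hd f hf
    have h1 := mx_mul_right hm v.mem
    rw [div_mul_cancel₀ _ v.1] at h1
    rw [div_eq_inv_mul]
    exact C.span_mul u.inv_mem (w h1)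

end Pool.Agent.MP_e8e0b6_ag.R2
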