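import Pool.Agent.MP_e8e0b6_ag.R2.SpecS

/-!
Finiteness of the module of sections of a line bundle on a projective family.
-/

set_option autoImplicit false

open Polynomial

namespace Pool.Agent.MP_e8e0b6_ag.R2

open Pool.Agent.MP_79c67d_ag Pool.Agent.MP_20d318_ag Pool.Agent.MP_20d318_ag.AG
  Pool.Agent.MP_20d318_ag.BV Pool.Agent.MP_20d318_ag.CB

namespace FinA

/-- Finiteness of the integral closure of an affine domain in characteristic zero. -/
theorem icl (k D K : Type) [Field k] [CharZero k] [CommRing D] [IsDomain D] [Algebra k D]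
    [Algebra.FiniteType k D] [Field K] [Algebra k K] [Algebra D K] [IsScalarTower k D K]
    [IsFractionRing D K] : Module.Finite D (integralClosure D K) := by
  have : Algebra.EssFiniteType D K := .of_isLocalization K (nonZeroDivisors D)
  have : Algebra.EssFiniteType k K := .comp k D K
  have : Algebra.IsAlgebraic D K := IsLocalization.isAlgebraic K (nonZeroDivisors D)
  obtain ⟨s, g, hg, hg'⟩ := exists_finite_inj_algHom_of_fg k D
  let P := MvPolynomial (Fin s) k
  let _ : Algebra P D := g.toRingHom.toAlgebra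
  let _ : Algebra P K := ((algebraMap D K).comp g.toRingHom).toAlgebra
  have : IsScalarTower P D K := .of_algebraMap_eq fun _ => rfl
  have : IsScalarTower k P K := .of_algebraMap_eq fun c => by
    rw [IsScalarTower.algebraMap_apply k D K, ← g.commutes]; rfl
  have : Module.Finite P D := hg'
  have : FaithfulSMul P D := (faithfulSMul_iff_algebraMap_injective _ _).2 hg
  have : FaithfulSMul P K := (faithfulSMul_iff_algebraMap_injective _ _).2
    ((FaithfulSMul.algebraMap_injective D K).comp hg)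
  let _ := FractionRing.liftAlgebra P K
  have : Algebra.IsAlgebraic P K := .trans P D K
  have : Algebra.IsAlgebraic (FractionRing P) K := .extendScalars (R := P)
    (IsFractionRing.injective P _)
  have : IsScalarTower k (FractionRing P) K := .to₁₃₄ k P _ _
  have : Algebra.EssFiniteType (FractionRing P) K := .of_comp k _ _
  have : FiniteDimensional (FractionRing P) K := Algebra.finite_of_essFiniteType_of_isAlgebraic
  have : CharZero (FractionRing P) :=
    charZero_of_injective_algebraMap (algebraMap k (FractionRing P)).injective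
  have h : Module.Finite P (integralClosure P K) :=
    IsIntegralClosure.finite P (FractionRing P) K _
  have : Module.Finite P (integralClosure D K) := Module.Finite.of_surjective
    (M := integralClosure P K) (LinearMap.codRestrict
      ((integralClosure D K).toSubmodule.restrictScalars P) (integralClosure P K).val.toLinearMap
      fun x => x.2.tower_top) fun x => ⟨⟨x.1, isIntegral_trans _ x.2⟩, rfl⟩
  exact Module.Finite.of_restrictScalars_finite P _ _

variable {k F : Type} [Field k] [Field F] [Algebra k F]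

/-- Polynomials whose `n`-th coefficient lies in the `n`-th power of `N`. -/
def rees (A : Subalgebra k F) (N : Submodule A F) : Subalgebra k F[X] where
  carrier := {p | ∀ n, p.coeff n ∈ N ^ n}
  mul_mem' {p q} hp hq n := by
    rw [coeff_mul]
    refine sum_mem fun x hx => ?_
    rw [← Finset.HasAntidiagonal.mem_antidiagonal.1 hx, pow_add]
    exact Submodule.mul_mem_mul (hp _) (hq _)
  add_mem' {p q} hp hq n := by rw [coeff_add]; exact add_mem (hp n) (hq n)
  algebraMap_mem' c n := by
    rw [Polynomial.algebraMap_apply, coeff_C]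
    split_ifs with h
    · rw [h, pow_zero]; exact Submodule.mem_one.2 ⟨⟨_, A.algebraMap_mem c⟩, rfl⟩
    · exact zero_mem _

/-- Functions that are bounded by `U` along all valuations lie in a finite module. -/
theorem core [CharZero k] (A : Subalgebra k F) (hA : Algebra.FiniteType k A) (U : Set F)
    (hU : U.Finite) (u₀ : F) (h0 : u₀ ∈ U) (hne : u₀ ≠ 0)
    (hF : ∀ W : Subfield F, (∀ a ∈ A, a ∈ W) → (∀ u ∈ U, u / u₀ ∈ W) → ∀ f, f ∈ W) :
    ∃ N : Submodule A F, N.FG ∧ ∀ y : F,
      (∀ V : Subalgebra k F, IsVal V → A ≤ V → ∃ u ∈ U, u ≠ 0 ∧ y / u ∈ V) → y ∈ N := by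
  obtain ⟨G, hG, hG'⟩ := Subalgebra.fg_def.1 (A.fg_top.1 hA.out)
  let K := FractionRing F[X]
  let B : Subalgebra k F[X] := Algebra.adjoin k (C '' G ∪ (fun u => C u * X) '' U)
  have hBA : ∀ a ∈ A, C a ∈ B := fun a ha => by
    have : A ≤ B.comap (IsScalarTower.toAlgHom k F F[X]) :=
      hG' ▸ Algebra.adjoin_le fun g hg => Algebra.subset_adjoin (Or.inl ⟨g, hg, rfl⟩)
    exact this ha
  have hBU : ∀ u ∈ U, C u * X ∈ B := fun u hu => Algebra.subset_adjoin (Or.inr ⟨u, hu, rfl⟩)
  have : Algebra.FiniteType k B := (Subalgebra.fg_iff_finiteType _).1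
    (Subalgebra.fg_def.2 ⟨_, (hG.image _).union (hU.image _), rfl⟩)
  have hi : Function.Injective (algebraMap F[X] K) := IsFractionRing.injective _ _
  have : FaithfulSMul B K := (faithfulSMul_iff_algebraMap_injective _ _).2
    (hi.comp Subtype.val_injective)
  let γ : F →+* K := (algebraMap F[X] K).comp C
  have hX : algebraMap F[X] K X ≠ 0 := fun h => X_ne_zero (hi (h.trans (map_zero _).symm))
  have hγ : ∀ u, algebraMap F[X] K (C u * X) = γ u * algebraMap F[X] K X := fun u => map_mul _ _ _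
  have : IsFractionRing B K := by
    let W := Subfield.closure (Set.range (algebraMap B K))
    have h1 : ∀ p ∈ B, algebraMap F[X] K p ∈ W := fun p hp => Subfield.subset_closure ⟨⟨p, hp⟩, rfl⟩
    have h2 : ∀ f, γ f ∈ W := hF (W.comap γ) (fun a ha => h1 _ (hBA a ha)) fun u hu => by
      have := W.div_mem (h1 _ (hBU u hu)) (h1 _ (hBU u₀ h0))
      rwa [hγ, hγ, mul_div_mul_right _ _ hX, ← map_div₀] at this
    have h3 : algebraMap F[X] K X ∈ W := by
      have := W.div_mem (h1 _ (hBU u₀ h0)) (h2 u₀)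
      rwa [hγ, mul_div_cancel_left₀ _ ((map_ne_zero γ).2 hne)] at this
    have h4 : ∀ p, algebraMap F[X] K p ∈ W := fun p => by
      induction p using Polynomial.induction_on' with
      | add p q hp hq => rw [map_add]; exact add_mem hp hq
      | monomial n c =>
        rw [← C_mul_X_pow_eq_monomial, map_mul, map_pow]
        exact mul_mem (h2 c) (pow_mem h3 n)
    refine IsFractionRing.of_field B K fun z => ?_
    obtain ⟨p, q, -, rfl⟩ := IsFractionRing.div_surjective (A := F[X]) z
    obtain ⟨a, ha, b, hb, e⟩ := Subfield.mem_closure_iff.1 (W.div_mem (h4 p) (h4 q))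
    rw [← RingHom.coe_range, Subring.closure_eq] at ha hb
    obtain ⟨a, rfl⟩ := ha
    obtain ⟨b, rfl⟩ := hb
    exact ⟨a, b, e.symm⟩
  have hfin := icl k B K
  obtain ⟨f, hf0, hf⟩ := FractionalIdeal.isFractional_of_fg (S := nonZeroDivisors B)
    (I := (integralClosure B K).toSubmodule) (Module.Finite.iff_fg.1 hfin)
  have hf1 : (f : F[X]).leadingCoeff ≠ 0 := leadingCoeff_ne_zero.2 fun h =>
    nonZeroDivisors.ne_zero hf0 (Subtype.ext h)
  have hB : B ≤ rees A (Submodule.span A U) := by
    refine Algebra.adjoin_le ?_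
    rintro _ (⟨g, hg, rfl⟩ | ⟨u, hu, rfl⟩) n
    · rw [coeff_C]
      split_ifs with h
      · rw [h, pow_zero]
        exact Submodule.mem_one.2 ⟨⟨g, hG' ▸ Algebra.subset_adjoin hg⟩, rfl⟩
      · exact zero_mem _
    · rw [coeff_C_mul_X]
      split_ifs with h
      · rw [h, pow_one]; exact Submodule.subset_span hu
      · exact zero_mem _
  refine ⟨(Submodule.span A U ^ ((f : F[X]).natDegree + 1)).map
    (LinearMap.mulLeft A (f : F[X]).leadingCoeff⁻¹),
    ((Submodule.fg_span hU).pow _).map _, fun y hy => ?_⟩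
  have h1 : algebraMap F[X] K (C y * X) ∈ (integralClosure B K).toSubmodule := by
    have h2 : algebraMap F[X] K (C y * X) ∈
        (integralClosure (Subring.closure (Set.range (algebraMap B K))) K).toSubring := by
      rw [← iInf_valuationSubring_superset, Subring.mem_iInf]
      rintro ⟨V, hV⟩
      have h3 : ∀ p ∈ B, algebraMap F[X] K p ∈ V := fun p hp => hV ⟨⟨p, hp⟩, rfl⟩
      let V₀ : Subalgebra k F :=
        { (V.toSubring.comap γ).toSubsemiring with
          algebraMap_mem' := fun c => h3 _ (hBA _ (A.algebraMap_mem c)) }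
      obtain ⟨u, hu, hu0, h4⟩ := hy V₀
        (fun f => (V.mem_or_inv_mem (γ f)).imp_right fun h => by
          change γ f⁻¹ ∈ V
          rwa [map_inv₀])
        fun a ha => h3 _ (hBA a ha)
      have h5 := V.mul_mem _ _ (show γ (y / u) ∈ V from h4) (h3 _ (hBU u hu))
      rwa [hγ, ← mul_assoc, ← map_mul, div_mul_cancel₀ _ hu0, ← hγ] at h5
    rw [← RingHom.coe_range, Subring.closure_eq] at h2
    let e := RingEquiv.ofBijective (algebraMap B K).rangeRestrict
      ⟨fun a b h => FaithfulSMul.algebraMap_injective B K (congrArg Subtype.val h),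
        RingHom.rangeRestrict_surjective _⟩
    exact IsIntegral.map_of_comp_eq e.symm.toRingHom (RingHom.id K)
      (RingHom.ext fun x => congrArg Subtype.val (e.apply_symm_apply x)) h2
  obtain ⟨b, hb⟩ := hf _ h1
  have h2 : (b : F[X]) = (f : F[X]) * (C y * X) :=
    hi (by rw [map_mul]; exact hb.trans (Algebra.smul_def _ _))
  have h3 := hB b.2 ((f : F[X]).natDegree + 1)
  rw [h2, ← mul_assoc, coeff_mul_X, coeff_mul_C] at h3
  exact ⟨_, h3, inv_mul_cancel_left₀ hf1 y⟩

end FinA

theorem fin_stmt : FinStmt := by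
  intro k F _ _ _ _ A H γ hF hA ⟨U, V, hU, hV, h⟩
  obtain ⟨O₀, hO₀, -⟩ := C.xx_ctr hF (V := ⊤) (fun _ => Or.inl trivial) le_top
  obtain ⟨a₀, b₀, ⟨-, u₀, hu₀, ha₀⟩, ⟨-, v, hv, hb₀⟩, -⟩ := h O₀ hO₀
  have hu0 : u₀ ≠ 0 := (div_ne_zero_iff.1 ha₀.ne).1
  have hv0 : v ≠ 0 := (div_ne_zero_iff.1 hb₀.ne).1
  obtain ⟨j, hj⟩ := hF.ne
  have hj0 := hF.nz j hj
  obtain ⟨N, hN, key⟩ := FinA.core A hA (Set.image2 (· * ·) U H) (hU.1.image2 _ hF.fin) (u₀ * j)
    ⟨u₀, hu₀, j, hj, rfl⟩ (mul_ne_zero hu0 hj0) fun W h1 h2 f => by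
      let T : Subalgebra k F :=
        { W.toSubring.toSubsemiring with algebraMap_mem' := fun c => h1 _ (A.algebraMap_mem c) }
      have hT : ch A H j ≤ T := C.ch_le h1 fun a ha => by
        have := h2 _ ⟨u₀, hu₀, a, ha, rfl⟩
        rwa [mul_div_mul_left _ _ hu0] at this
      obtain ⟨a, ha, b, hb, -, rfl⟩ := hF.frac j hj f
      exact W.div_mem (hT ha) (hT hb)
  obtain ⟨W, hW, hW'⟩ := Submodule.fg_def.1 (hN.map (LinearMap.mulLeft A (v * j)⁻¹))
  refine ⟨W, hW, fun z hz => hW' ▸ ⟨v * j * z, key _ fun V' hV' hle => ?_,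
    inv_mul_cancel_left₀ (mul_ne_zero hv0 hj0) z⟩⟩
  obtain ⟨O, hO, hd⟩ := C.xx_ctr hF hV' hle
  obtain ⟨a, b, ha, hb, hu⟩ := h O hO
  obtain ⟨u, hu1, hu2⟩ := ha.2
  obtain ⟨j', hj', hO'⟩ := id hO
  have h1 : u ≠ 0 := (div_ne_zero_iff.1 hu2.ne).1
  refine ⟨_, ⟨u, hu1, j', hj', rfl⟩, mul_ne_zero h1 (hF.nz j' hj'), hd.1 ?_⟩
  have h2 := O.mul_mem (hu2.div_mem (hu.div_mem (O.mul_mem (hz O hO) (hb.1 v hv))))
    (hO'.2.1 (C.div_mem_ch hj))
  have h3 := ha.ne
  have h4 := hb.ne
  have h5 : γ O ≠ 0 := left_ne_zero_of_mul (div_ne_zero_iff.1 hu.ne).1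
  have h6 := hF.nz j' hj'
  convert h2 using 1
  field_simp

end Pool.Agent.MP_e8e0b6_ag.R2
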