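import Pool.Agent.MP_e8e0b6_ag.R2.SpecT

/-!
A surface is a family over the ground field.
-/

set_option autoImplicit false

open Polynomial

namespace Pool.Agent.MP_e8e0b6_ag.R2

open Pool.Agent.MP_79c67d_ag Pool.Agent.MP_20d318_ag Pool.Agent.MP_20d318_ag.AG
  Pool.Agent.MP_20d318_ag.BV Pool.Agent.MP_20d318_ag.CB

namespace Fm0A

variable {k M : Type} [Field k] [Field M] [Algebra k M] {O A : Subalgebra k M} {H : Set M}

theorem xx_eq (H : Set M) : XX (⊥ : Subalgebra k M) H = mp k fun _ : Unit => H := by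
  ext O
  constructor
  · rintro ⟨j, hj, h⟩
    refine ⟨fun _ => j, fun _ => hj, ?_⟩
    rwa [cht, Set.iUnion_const, ← bot_sup_eq (Algebra.adjoin k _)]
  · rintro ⟨j, hj, h⟩
    refine ⟨j (), hj (), ?_⟩
    rw [ch, bot_sup_eq]
    obtain ⟨j, rfl⟩ : ∃ j₀ : M, j = fun _ => j₀ := ⟨j (), rfl⟩
    rwa [cht, Set.iUnion_const] at h

theorem bot_unit {u : M} (hu : u ∈ (⊥ : Subalgebra k M)) (h0 : u ≠ 0) : IsU O u := by
  obtain ⟨c, rfl⟩ := Algebra.mem_bot.1 hu
  exact isU_const fun e => h0 (by rw [e, map_zero])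

theorem bot_dom : AG.Dom ⊥ O := ⟨bot_le, fun _ hu h => bot_unit hu h.ne⟩

theorem bot_field : IsField (⊥ : Subalgebra k M) :=
  (Algebra.botEquiv k M).toMulEquiv.isField (Field.toIsField k)

theorem bot_loc : IsLocalRing (⊥ : Subalgebra k M) :=
  letI := (bot_field (k := k) (M := M)).toField
  inferInstance

theorem eq_bot (h : O ∈ Pts (⊥ : Subalgebra k M)) : O = ⊥ :=
  le_antisymm (fun f hf => by
    obtain ⟨a, ha, b, hb, hu, rfl⟩ := h.2.2 f hf
    exact (bot_unit hb hu.ne).div_mem ha) bot_le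

/-- A localisation of a factorial ring is factorial. -/
theorem ufd_of (h : O ∈ Pts A) (hA : UniqueFactorizationMonoid A) :
    UniqueFactorizationMonoid O := by
  let _ : Algebra A O := (Subalgebra.inclusion h.2.1).toRingHom.toAlgebra
  let N : Submonoid A :=
    { carrier := {b | IsU O (b : M)}
      mul_mem' := fun ha hb => ha.mul hb
      one_mem' := isU_one }
  have : IsLocalization N O := by
    refine (isLocalization_iff _ _).2 ⟨fun b => (isU_iff_isUnit _).1 b.2, fun f => ?_,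
      fun {a b} e => ⟨1, ?_⟩⟩
    · obtain ⟨a, ha, b, hb, hu, e⟩ := h.2.2 f f.2
      refine ⟨(⟨a, ha⟩, ⟨⟨b, hb⟩, hu⟩), Subtype.ext ?_⟩
      change (f : M) * b = a
      rw [e, div_mul_cancel₀ _ hu.ne]
    · rw [Subalgebra.inclusion_injective h.2.1 e]
  exact UniqueFactorizationMonoid.of_isLocalization N O

theorem ufd_cht {a b : M} (h : Cht O a b) : UniqueFactorizationMonoid O := by
  refine ufd_of h.2 ?_
  rw [← Matrix.range_cons_cons_empty a b ![]]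
  exact h.1.ind.aevalEquiv.toMulEquiv.uniqueFactorizationMonoid inferInstance

theorem frac_ch (hz : ∀ a ∈ H, a ≠ 0) (ht : ⊤ ∈ XX (⊥ : Subalgebra k M) H) {j : M} (hj : j ∈ H) :
    Frac (ch (⊥ : Subalgebra k M) H j) := by
  obtain ⟨j₀, h0, h⟩ := ht
  have hm : ∀ a ∈ H, a / j ∈ ch (⊥ : Subalgebra k M) H j := fun a ha =>
    (le_sup_right : _ ≤ ch ⊥ H j) (Algebra.subset_adjoin ⟨a, ha, rfl⟩)
  have hle : ch ⊥ H j₀ ≤ fr (ch (⊥ : Subalgebra k M) H j) ⊤ := by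
    refine sup_le bot_le (Algebra.adjoin_le ?_)
    rintro _ ⟨a, ha, rfl⟩
    exact ⟨_, hm a ha, _, hm j₀ h0, isU_top.2 (div_ne_zero (hz _ h0) (hz _ hj)),
      (div_div_div_cancel_right₀ (hz _ hj) a j₀).symm⟩
  intro f
  obtain ⟨a, ha, b, hb, hu, rfl⟩ := h.2.2 f trivial
  obtain ⟨a1, ha1, a2, ha2, hu1, rfl⟩ := hle ha
  obtain ⟨b1, hb1, b2, hb2, -, rfl⟩ := hle hb
  exact ⟨a1 * b2, mul_mem ha1 hb2, a2 * b1, mul_mem ha2 hb1,
    mul_ne_zero hu1.ne (div_ne_zero_iff.1 hu.ne).1, by rw [div_div_div_eq]⟩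

theorem fib (ht : ⊤ ∈ XX (⊥ : Subalgebra k M) H) : Fib (⊥ : Subalgebra k M) H ⊤ :=
  ⟨ht, bot_dom, fun _ _ _ => le_top, fun _ _ _ _ _ h => mem_mx_top.1 h ▸ zero_mem _⟩

theorem ev_top (u : M) : evO ⊤ (⊤ : Subalgebra k M).val u = u := evO_of_mem _ Algebra.mem_top

theorem red_top (O : Subalgebra k M) : red ⊤ (⊤ : Subalgebra k M).val O = O := by
  ext a
  exact ⟨fun ⟨b, hb, e⟩ => e ▸ hb, fun h => ⟨⟨a, trivial⟩, h, rfl⟩⟩

theorem li_bot {ι : Type} {v : ι → M} (h : LinearIndependent k v) :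
    LinearIndependent (⊥ : Subalgebra k M) v := by
  refine linearIndependent_iff'.2 fun s g hg i hi => ?_
  choose c hc using fun i => Algebra.mem_bot.1 (g i).2
  have h1 := linearIndependent_iff'.1 h s c (by
    rw [← hg]
    exact Finset.sum_congr rfl fun i _ => by rw [Algebra.smul_def, hc]; rfl) i hi
  exact Subtype.ext (by rw [← hc, h1, map_zero]; rfl)

end Fm0A

open Fm0A in
theorem fm0_stmt : Fm0Stmt := by
  intro k M I _ _ _ _ S H h hT hfin hz
  have e : XX ⊥ H = S.T := (xx_eq H).trans hT.symm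
  have ht : ⊤ ∈ XX (⊥ : Subalgebra k M) H := e ▸ h.a1.nice.toFine.top
  have hfm : Fm (⊥ : Subalgebra k M) H :=
    { fin := hfin
      ne := ⟨_, ht.choose_spec.1⟩
      nz := hz
      frac := fun j hj => frac_ch hz ht hj
      noeth := isNoetherianRing_of_ringEquiv k (Algebra.botEquiv k M).symm.toRingEquiv
      ufdC := fun R hR => eq_bot hR ▸
        (Algebra.botEquiv k M).symm.toMulEquiv.uniqueFactorizationMonoid inferInstance
      ufd := fun O hO => (h.a1.chart O (e ▸ hO)).elim fun _ h1 => h1.elim fun _ => ufd_cht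
      fib := fun R hR => ⟨⊤, eq_bot hR ▸ fib ht⟩
      flat := fun O _ _ => RingHom.Flat.of_isField bot_field _ }
  refine ⟨e, hfm, fun hm => ⟨hfm, bot_loc, fun f hf => ?_, fib ht, fun u hu => isU_top.2 hu,
    fun a => ⟨⟨a, trivial⟩, rfl⟩, fun ι v _ hv => li_bot (by simpa only [ev_top] using hv), hm,
    ?_⟩, fun d => ⟨?_, fun O hO _ => ?_⟩⟩
  · obtain ⟨c, rfl⟩ := Algebra.mem_bot.1 hf
    exact ⟨c, by rw [sub_self]; exact zero_mem_mx⟩
  · ext O
    exact ⟨fun hO => ⟨O, ⟨e ▸ hO, bot_dom⟩, red_top O⟩,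
      fun ⟨O', hO, e'⟩ => e' ▸ (red_top O').symm ▸ e ▸ hO.1⟩
  · obtain ⟨c, ⟨V, hV, -, gV⟩, U, hU, -, gU⟩ := h.s.dif d
    rw [e]
    refine ⟨U, V, ⟨hU, fun O hO => (gU O hO).prin⟩, ⟨hV, fun O hO => (gV O hO).prin⟩,
      fun O hO => ⟨_, _, gU O hO, gV O hO, ?_⟩⟩
    have h1 := S.lb_ne (h.a1.gne O hO) c
    have h2 := S.lb_ne (h.a1.gne O hO) d
    rw [S.lb_add (h.a1.gne O hO), show S.lb d O * (S.lb c O * S.lb d O)⁻¹ / (S.lb c O)⁻¹ = 1 by
      field_simp]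
    exact isU_one
  · have h2 := S.lb_ne (h.a1.gne O (e ▸ hO)) d
    rw [ev_top, red_top, div_self h2]
    exact ⟨isU_top.2 h2, isU_one⟩

end Pool.Agent.MP_e8e0b6_ag.R2
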