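import Pool.Agent.MP_e8e0b6_ag.R2.SpecA

/-!
Forms and charts.
-/

set_option autoImplicit false

namespace Pool.Agent.MP_e8e0b6_ag.R2

namespace FormP

variable {A G : Type} [CommRing A] [Field G] [Algebra A G] {H : Set G} {I : Ideal A}
  {L x y Z : Submodule A G} {j z : G} {d : ℕ}

theorem up (hj : j ∈ L) {n m : ℕ} (h : z * j ^ n ∈ L ^ n) (hm : n ≤ m) : z * j ^ m ∈ L ^ m := by
  obtain ⟨c, rfl⟩ := Nat.exists_eq_add_of_le hm
  rw [pow_add, pow_add, ← mul_assoc]
  exact Submodule.mul_mem_mul h (Submodule.pow_mem_pow _ hj c)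

theorem chart (hj : j ∈ H) (h0 : j ≠ 0) (hz : z ∈ Ad A H j) :
    ∃ n, z * j ^ n ∈ Submodule.span A H ^ n := by
  have m : j ∈ Submodule.span A H := Submodule.subset_span hj
  change z ∈ Algebra.adjoin A _ at hz
  induction hz using Algebra.adjoin_induction with
  | mem w hw =>
    obtain ⟨a, ha, rfl⟩ := hw
    exact ⟨1, by simpa [h0] using Submodule.subset_span ha⟩
  | algebraMap r => exact ⟨0, by simp⟩
  | add u v _ _ hu hv =>
    obtain ⟨n, hn⟩ := hu
    obtain ⟨n', hn'⟩ := hv
    refine ⟨n + n', ?_⟩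
    rw [add_mul]
    exact Submodule.add_mem _ (up m hn (by omega)) (up m hn' (by omega))
  | mul u v _ _ hu hv =>
    obtain ⟨n, hn⟩ := hu
    obtain ⟨n', hn'⟩ := hv
    refine ⟨n + n', ?_⟩
    rw [pow_add, pow_add, mul_mul_mul_comm]
    exact Submodule.mul_mem_mul hn hn'

theorem one (hj : j ∈ H) (h0 : j ≠ 0) (hz : z ∈ I • Ad A H j) :
    ∃ n₀, ∀ n ≥ n₀, z * j ^ n ∈ I • Fo A H n := by
  refine Submodule.smul_induction_on hz (fun r hr w hw => ?_) fun u v hu hv => ?_
  · obtain ⟨n₀, h⟩ := chart hj h0 hw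
    refine ⟨n₀, fun n hn => ?_⟩
    rw [smul_mul_assoc]
    exact Submodule.smul_mem_smul hr (up (Submodule.subset_span hj) h hn)
  · obtain ⟨n₁, h1⟩ := hu
    obtain ⟨n₂, h2⟩ := hv
    refine ⟨n₁ + n₂, fun n hn => ?_⟩
    rw [add_mul]
    exact Submodule.add_mem _ (h1 n (by omega)) (h2 n (by omega))

theorem sup_pow (hx : x ≤ L) (hy : y ≤ L) (n m : ℕ) :
    (x ⊔ y) ^ (n + m) ≤ x ^ n * L ^ m ⊔ y ^ m * L ^ n := by
  induction n generalizing m with
  | zero =>
    refine le_sup_of_le_left ?_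
    rw [zero_add, pow_zero, one_mul]
    exact pow_le_pow_left' (sup_le hx hy) m
  | succ n ih =>
    induction m with
    | zero =>
      refine le_sup_of_le_right ?_
      rw [add_zero, pow_zero, one_mul]
      exact pow_le_pow_left' (sup_le hx hy) _
    | succ m ih' =>
      rw [← add_assoc, pow_succ', Submodule.sup_mul]
      refine sup_le ?_ ?_
      · rw [add_right_comm, add_assoc]
        refine (mul_le_mul' le_rfl (ih (m + 1))).trans ?_
        rw [Submodule.mul_sup]
        refine sup_le_sup (le_of_eq (by ring)) ?_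
        calc _ ≤ L * (y ^ (m + 1) * L ^ n) := mul_le_mul' hx le_rfl
          _ = _ := by ring
      · refine (mul_le_mul' le_rfl ih').trans ?_
        rw [Submodule.mul_sup]
        refine sup_le_sup ?_ (le_of_eq (by ring))
        calc _ ≤ L * (x ^ (n + 1) * L ^ m) := mul_le_mul' hy le_rfl
          _ = _ := by ring

/-- Large powers of `x` multiply `Z` into `I • L ^ (d + n)`. -/
def Good (I : Ideal A) (L Z : Submodule A G) (d : ℕ) (x : Submodule A G) : Prop :=
  x ≤ L ∧ ∃ N, ∀ n ≥ N, Z * x ^ n ≤ I • L ^ (d + n)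

theorem Good.sup (hx : Good I L Z d x) (hy : Good I L Z d y) : Good I L Z d (x ⊔ y) := by
  obtain ⟨h1, N, h2⟩ := hx
  obtain ⟨h3, N', h4⟩ := hy
  refine ⟨sup_le h1 h3, N + N', fun n hn => ?_⟩
  obtain ⟨m, rfl⟩ := Nat.exists_eq_add_of_le (show N ≤ n by omega)
  refine (mul_le_mul' le_rfl (sup_pow h1 h3 N m)).trans ?_
  rw [Submodule.mul_sup, ← mul_assoc, ← mul_assoc]
  refine sup_le ((mul_le_mul' (h2 N le_rfl) le_rfl).trans_eq ?_)
    ((mul_le_mul' (h4 m (by omega)) le_rfl).trans_eq ?_)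
  · rw [smul_mul_assoc, ← pow_add, add_assoc]
  · rw [smul_mul_assoc, ← pow_add, add_assoc, add_comm m]

end FormP

open FormP in
theorem form_stmt : FormStmt := by
  intro A G _ _ _ H I hH h0
  refine ⟨fun j hj z hz => one hj (h0 j hj) hz, fun d z hz => ?_⟩
  have key : Good I (Submodule.span A H) (Submodule.span A {z}) d (Submodule.span A H) := by
    refine Set.Finite.induction_on_subset
      (motive := fun s _ => Good I (Submodule.span A H) (Submodule.span A {z}) d
        (Submodule.span A s)) H hH ?_ fun {j s} hj _ _ ih => ?_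
    · exact ⟨by simp, 1, fun n hn => by simp [Submodule.bot_pow (show n ≠ 0 by omega)]⟩
    · rw [Submodule.span_insert]
      refine Good.sup ⟨Submodule.span_mono (by simpa using hj), ?_⟩ ih
      obtain ⟨N, hN⟩ := one hj (h0 j hj) (hz j hj)
      refine ⟨N, fun n hn => ?_⟩
      rw [Submodule.span_pow, Submodule.span_mul_span, Set.singleton_pow,
        Set.singleton_mul_singleton, Submodule.span_singleton_le_iff_mem]
      have := hN (d + n) (by omega)
      rwa [pow_add j, ← mul_assoc, div_mul_cancel₀ _ (pow_ne_zero d (h0 j hj))] at this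
  obtain ⟨-, N, hN⟩ := key
  exact ⟨N, fun n hn w hw =>
    hN n hn (Submodule.mul_mem_mul (Submodule.mem_span_singleton_self z) hw)⟩

end Pool.Agent.MP_e8e0b6_ag.R2
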