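import Pool.Agent.MP_e8e0b6_ag.R2.SpecS

/-!
A section that vanishes on no fibre near a line.
-/

set_option autoImplicit false

open Polynomial AlgebraicGeometry CategoryTheory

namespace Pool.Agent.MP_e8e0b6_ag.R2

open Pool.Agent.MP_79c67d_ag Pool.Agent.MP_20d318_ag Pool.Agent.MP_20d318_ag.AG
  Pool.Agent.MP_20d318_ag.BV Pool.Agent.MP_20d318_ag.CB

namespace FrameA

variable {k F : Type} [Field k] [Field F] [Algebra k F] {B R : Subalgebra k F}

theorem li_lz (lz : Lz B R) {m : ℕ} {ψ : Fin m → F} (li : LinearIndependent B ψ) :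
    LinearIndependent R ψ := by
  rw [Fintype.linearIndependent_iff] at li ⊢
  intro c hc l
  choose a ha b hb hu e using fun l => lz.2 (c l) (c l).2
  have hm : ∀ l, (∏ j, b j) * (c l : F) ∈ B := fun l => by
    rw [← Finset.prod_erase_mul _ _ (Finset.mem_univ l), e l, mul_assoc, mul_div_cancel₀ _ (hu l).ne]
    exact mul_mem (prod_mem fun j _ => hb j) (ha l)
  have h1 := li (fun l => ⟨_, hm l⟩) (by
    have := congrArg ((∏ j, b j) * ·) hc
    simpa [Finset.mul_sum, Subalgebra.smul_def, mul_assoc] using this) l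
  exact Subtype.ext ((mul_eq_zero.1 (congrArg Subtype.val h1)).resolve_left
    (Finset.prod_ne_zero_iff.2 fun j _ => (hu j).ne))

/-- A member of a basis is a unimodular combination of any generating family. -/
theorem exists_unit (hR : IsLocalRing R) {m n : ℕ} {ψ : Fin m → F} {w : Fin n → F}
    (li : LinearIndependent R ψ) (hw : ∀ i, w i ∈ Submodule.span R (Set.range ψ)) (l : Fin m)
    (r : Fin n → R) (hr : ∑ i, r i • w i = ψ l) : ∃ i, IsU R (r i) := by
  by_contra hn
  choose a ha using fun i => (Submodule.mem_span_range_iff_exists_fun R).1 (hw i)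
  have h1 := Fintype.linearIndependent_iffₛ.1 li (fun j => ∑ i, r i * a i j) (Pi.single l 1) (by
    simp only [Finset.sum_smul, mul_smul]
    rw [Finset.sum_comm]
    simp only [← Finset.smul_sum, ha, hr]
    simp [Pi.single_apply]) l
  have h2 : ∑ i, (r i : F) * a i l ∈ mx R :=
    mx_sum hR fun i _ => mx_mul_right ⟨(r i).2, fun u => hn ⟨i, u⟩⟩ (a i l).2
  have h3 : ∑ i, (r i : F) * a i l = 1 := by simpa using congrArg Subtype.val h1
  exact one_not_mem_mx (h3 ▸ h2)

theorem mem_span {N : Set F} {s z : F} (hs : IsU R s) (h : s * z ∈ Submodule.span R N) :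
    z ∈ Submodule.span R N := by
  have := C.span_mul hs.inv_mem h
  rwa [inv_mul_cancel_left₀ hs.ne] at this

end FrameA

open FrameA in
theorem frame_stmt (h1 : FinStmt) (h2 : SclStmt) (h3 : LocfStmt) (h4 : FrmStmt) (h5 : LzStmt) :
    FrameStmt := by
  intro k A F _ _ _ _ _ _ _ _ g x H γ et hg fm dt hA
  have := et.finiteType
  have ft : Algebra.FiniteType k g.range := by
    have : Algebra.FiniteType k A[X] := .trans (S := A) inferInstance inferInstance
    exact Algebra.FiniteType.of_surjective g.rangeRestrict g.rangeRestrict_surjective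
  let N : Submodule g.range F :=
    { carrier := Sc (XX g.range H) γ
      add_mem' := fun ha hb O hO => by rw [add_mul]; exact add_mem (ha O hO) (hb O hO)
      zero_mem' := fun O _ => by rw [zero_mul]; exact zero_mem _
      smul_mem' := fun c z hz O hO => by
        rw [smul_mul_assoc]; exact mul_mem (C.xx_le hO c.2) (hz O hO) }
  obtain ⟨W, hW, sW⟩ := h1 k F _ H γ fm ft dt
  have sub := fun e => (h5 k F _ _ H (lp_lz (e := e) hg)).1
  have loc := fun e => h3 k F (lp g e) H γ (hA e) (by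
    obtain ⟨U, V, u, v, h⟩ := dt
    exact ⟨U, V, ⟨u.1, fun O hO => u.2 O (sub e hO)⟩, ⟨v.1, fun O hO => v.2 O (sub e hO)⟩,
      fun O hO => h O (sub e hO)⟩)
  choose n w li iff un using loc
  have hw : ∀ e i, ∃ s, IsU (lp g e) s ∧ s * w e i ∈ N := fun e i => by
    obtain ⟨s, -, u⟩ := h2 k F _ _ H γ fm (lp_lz hg) dt (w e i)
      ((iff e _).2 (Submodule.subset_span ⟨i, rfl⟩))
    exact ⟨s, u⟩
  have hN : ∀ e, ∀ z ∈ N, z ∈ Submodule.span (lp g e) (Set.range (w e)) := fun e z hz =>
    (iff e z).1 fun O hO => hz O (sub e hO)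
  obtain ⟨h, m, ψ, hx, mem, lψ, sp⟩ := h4 k A F g x N W et hg hW sW fun e => ⟨_, w e, li e,
    le_antisymm (Submodule.span_le.2 (hN e)) (Submodule.span_le.2 (by
      rintro _ ⟨i, rfl⟩
      obtain ⟨s, u, v⟩ := hw e i
      exact mem_span u (Submodule.subset_span v)))⟩
  have hw' : ∀ e : A[X] →ₐ[k] k, e (C h) ≠ 0 → ∀ i,
      w e i ∈ Submodule.span (lp g e) (Set.range ψ) := fun e he i => by
    obtain ⟨s, u, v⟩ := hw e i
    exact mem_span u (mem_span ((isU_lp hg).2 he) (C.span_up range_le_lp (sp _ v)))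
  obtain rfl | ⟨m, rfl⟩ : m = 0 ∨ ∃ m', m = m' + 1 := by rcases m with _ | m <;> simp
  · have := hw' (SB.basePt x) (by rwa [SB.basePt_apply, eval_C]) 0
    rw [Set.range_eq_empty, Submodule.span_empty, Submodule.mem_bot] at this
    exact ((li _).ne_zero 0 this).elim
  refine ⟨h, ψ 0, hx, lψ.ne_zero 0, mem 0, fun e he ξ hξ => ?_⟩
  obtain ⟨r, hr⟩ := (Submodule.mem_span_range_iff_exists_fun _).1 (hN e _ (mem 0))
  rw [← hr]
  exact un e ξ hξ (fun i => r i) (fun i => (r i).2)
    (exists_unit (lp_pts hg).1 (li_lz (lp_lz hg) lψ) (hw' e he) 0 r hr)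

end Pool.Agent.MP_e8e0b6_ag.R2
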