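import Pool.Agent.MP_e8e0b6_ag.R2.SpecS

/-!
A locally free submodule of a field over `A[X]` is free near the line over a rational point.
-/

set_option autoImplicit false

open Polynomial AlgebraicGeometry CategoryTheory

namespace Pool.Agent.MP_e8e0b6_ag.R2

open Pool.Agent.MP_79c67d_ag Pool.Agent.MP_20d318_ag Pool.Agent.MP_20d318_ag.AG
  Pool.Agent.MP_20d318_ag.BV Pool.Agent.MP_20d318_ag.CB

namespace FrmA

variable {k B F : Type} [Field k] [CommRing B] [Algebra k B] [Field F] [Algebra k F]
  [Algebra B F] {g : B →ₐ[k] F} (hB : ∀ a, algebraMap B F a = g a)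
include hB

theorem mem_span (s : Set F) (y : F) :
    y ∈ Submodule.span B s ↔ y ∈ Submodule.span g.range s := by
  constructor
  · intro hy
    induction hy using Submodule.span_induction with
    | mem y h => exact Submodule.subset_span h
    | zero => exact zero_mem _
    | add a b _ _ ha hb => exact add_mem ha hb
    | smul c a _ ha =>
      rw [Algebra.smul_def, hB]
      exact Submodule.smul_mem _ (⟨g c, c, rfl⟩ : g.range) ha
  · intro hy
    induction hy using Submodule.span_induction with
    | mem y h => exact Submodule.subset_span h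
    | zero => exact zero_mem _
    | add a b _ _ ha hb => exact add_mem ha hb
    | smul c a _ ha =>
      obtain ⟨_, c, rfl⟩ := c
      have := Submodule.smul_mem _ c ha
      rwa [Algebra.smul_def, hB] at this

theorem indep {m : ℕ} {ψ : Fin m → F} (h : LinearIndependent B ψ) :
    LinearIndependent g.range ψ := by
  rw [Fintype.linearIndependent_iff] at h ⊢
  intro c hc i
  choose a ha using fun i => (c i).2
  have := h a (by
    rw [← hc]
    refine Finset.sum_congr rfl fun i _ => ?_
    rw [Algebra.smul_def, hB]
    exact congrArg (· * ψ i) (ha i)) i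
  exact Subtype.ext ((ha i).symm.trans (by rw [this]; exact map_zero _))

theorem flat [IsAlgClosed k] [IsDomain B] [Algebra.FiniteType k B] (hg : Function.Injective g)
    (N : Submodule B F) (hl : ∀ e : B →ₐ[k] k, ∃ (n : ℕ) (w : Fin n → F),
      LinearIndependent (lp g e) w ∧
        Submodule.span (lp g e) (N : Set F) = Submodule.span (lp g e) (Set.range w)) :
    Module.Flat B N := by
  refine flat_of_local_ext fun m hm => ?_
  obtain ⟨e, he⟩ := exists_point (k := k) m hm.ne_top
  obtain ⟨n, w, h1, h2⟩ := hl e
  let : Algebra B (lp g e) :=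
    ((g : B →+* F).codRestrict (lp g e) fun a => range_le_lp ⟨a, rfl⟩).toAlgebra
  have : IsLocalization.AtPrime (lp g e) (kerPt e) :=
    isLocalization_locS (r := (g : B →+* F)) hg (kerPt e)
  have : IsScalarTower B (lp g e) F := .of_algebraMap_eq fun a => hB a
  have := IsLocalization.flat (lp g e) (kerPt e).primeCompl
  have hj : Function.Injective ((LinearMap.id : F →ₗ[B] F).liftBaseChange (lp g e)) := by
    have : (LinearMap.id : F →ₗ[B] F).liftBaseChange (lp g e) =
        (IsLocalization.moduleLid (kerPt e).primeCompl (lp g e) F).toLinearMap := by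
      ext y
      exact (one_smul (lp g e) y).trans
        ((IsLocalization.moduleLid (kerPt e).primeCompl (lp g e) F).symm_apply_eq.1 rfl)
    rw [this]
    exact (IsLocalization.moduleLid (kerPt e).primeCompl (lp g e) F).injective
  have h3 : Submodule.span (lp g e) ((LinearMap.id : F →ₗ[B] F) '' N) =
      Submodule.span (lp g e) (Set.range w) := by
    rw [← h2]
    simp
  have : Module.Free (lp g e) (Submodule.span (lp g e) ((LinearMap.id : F →ₗ[B] F) '' N)) :=
    h3 ▸ .of_basis (.span h1)
  refine ⟨lp g e, inferInstance, inferInstance, inferInstance, fun h => ?_,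
    .of_linearEquiv (spanEquiv (lp g e) LinearMap.id hj N)⟩
  have := IsLocalization.AtPrime.isLocalRing (lp g e) (kerPt e)
  have h4 := (Ideal.map_mono (f := algebraMap B (lp g e)) he).trans
    (IsLocalization.AtPrime.map_eq_maximalIdeal (kerPt e) (lp g e)).le
  exact (IsLocalRing.maximalIdeal.isMaximal _).ne_top (top_le_iff.1 (h ▸ h4))

end FrmA

open FrmA in
theorem frm_stmt : FrmStmt := by
  intro k A F _ _ _ _ _ _ _ _ g x N W hE hg hW hN hl
  obtain ⟨d, z, hz⟩ := hE
  have := finiteType_of_etale z hz
  have : Algebra.FiniteType k A[X] := .trans (S := A) inferInstance inferInstance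
  have := Algebra.FiniteType.isNoetherianRing k A[X]
  let : Algebra A[X] F := (g : A[X] →+* F).toAlgebra
  have hB : ∀ a, algebraMap A[X] F a = g a := fun _ => rfl
  let N' : Submodule A[X] F :=
    { carrier := N
      add_mem' := N.add_mem
      zero_mem' := N.zero_mem
      smul_mem' := fun c _ hy => N.smul_mem (⟨g c, c, rfl⟩ : g.range) hy }
  have := Module.Finite.span_of_finite A[X] hW
  have : Module.Finite A[X] N' := .of_injective (Submodule.inclusion
    (p' := Submodule.span A[X] W) fun y hy => (mem_span hB W y).2 (hN hy))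
      (Submodule.inclusion_injective _)
  have := flat hB hg N' hl
  obtain ⟨m, ψ, h, h1, h2, h3, h4⟩ := SB.exists_frame x
    (lindel z hz x (Localization.AtPrime (kerPt x))) hg N'
  exact ⟨h, m, ψ, h1, h2, indep hB h3, fun y hy => (mem_span hB _ _).1 (h4 y hy)⟩

end Pool.Agent.MP_e8e0b6_ag.R2
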