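import Pool.Agent.MP_e8e0b6_ag.R2.SpecA

/-!
Row GBS: forms of large degree have bases with independent residues.
-/

set_option autoImplicit false

namespace Pool.Agent.MP_e8e0b6_ag.R2

open Pool.Agent.MP_79c67d_ag Pool.Agent.MP_20d318_ag Pool.Agent.MP_20d318_ag.AG
  Pool.Agent.MP_20d318_ag.BV Pool.Agent.MP_20d318_ag.CB

namespace Gbs

variable {k F M I : Type} [Field k] [Field F] [Field M] [Algebra k F] [Algebra k M] [Fintype I]
  {R ξ : Subalgebra k F} {H : Set F} {ρ : ξ →ₐ[k] M} {S : Sd k M I} {s j : F}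

theorem fo_le (L : Ln R H ξ ρ S) {n : ℕ} (hs : s ∈ Fo R H n) : s ∈ ξ := by
  simpa using Fo.div_mem (gn_of_mem L.one one_ne_zero (by simpa using L.sub)) L.fib.dom.1 hs

/-- A form that vanishes on the closed fibre vanishes there on every chart. -/
theorem chart (L : Ln R H ξ ρ S) {d : ℕ} (hs : s ∈ Fo R H d) (hm : s ∈ mx ξ) (hj : j ∈ H) :
    s / j ^ d ∈ Submodule.span (ch R H j) (mx R) := by
  refine glob _ fun O hO => Submodule.span_mono Submodule.subset_span ?_
  obtain ⟨hX, hg⟩ := (L.xb.pts j hj O).1 hO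
  have h1 : s / j ^ d ∈ O := Fo.div_mem hg (L.xb.le O hX) hs
  by_cases hd : Dom R O
  · exact L.fib.red O hX hd _ h1 (mx_div hm ((L.gnU O hX hd j hg).1.pow d))
  · obtain ⟨u, hu, h2, h3⟩ : ∃ u ∈ R, IsU O u ∧ ¬ IsU R u := by
      by_contra hn
      exact hd ⟨L.xb.le O hX, fun u hu h => by_contra fun h' => hn ⟨u, hu, h, h'⟩⟩
    have := Submodule.smul_mem (Submodule.span O (mx R)) ⟨_, h2.div_mem h1⟩
      (Submodule.subset_span (⟨hu, h3⟩ : u ∈ mx R))
    rwa [show (⟨_, h2.div_mem h1⟩ : O) • u = s / j ^ d from div_mul_cancel₀ _ h2.ne] at this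

theorem span_ad [IsLocalRing R] (hs : s ∈ Submodule.span (ch R H j) (mx R)) :
    s ∈ IsLocalRing.maximalIdeal R • Ad R H j := by
  induction hs using Submodule.span_induction with
  | mem x hx =>
    have := Submodule.smul_mem_smul (r := (⟨x, hx.1⟩ : R)) (I := IsLocalRing.maximalIdeal R)
      (fun hu => hx.2 ((isU_iff_isUnit _).2 hu)) (mem_ch.1 (ch R H j).one_mem)
    exact (mul_one x) ▸ this
  | zero => exact zero_mem _
  | add x y _ _ hx hy => exact add_mem hx hy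
  | smul c x _ hx =>
    change (c : F) * x ∈ _
    refine Submodule.smul_induction_on (p := fun x => (c : F) * x ∈ _) hx (fun r hr a ha => ?_)
      fun a b ha hb => ?_
    · rw [mul_smul_comm]
      exact Submodule.smul_mem_smul hr (mem_ch.1 ((ch R H j).mul_mem c.2 (mem_ch.2 ha)))
    · rw [mul_add]; exact add_mem ha hb

/-- Combinations of residues lift. -/
theorem lift (hR : R ≤ ξ) {T : Set F} (hT : ∀ a ∈ T, a ∈ ξ) {m : M}
    (hm : m ∈ Submodule.span k (evO ξ ρ '' T)) : ∃ w ∈ Submodule.span R T, evO ξ ρ w = m := by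
  have hx : ∀ w ∈ Submodule.span R T, w ∈ ξ := fun w hw => by
    simpa using span_div_mem (a := 1) (by simpa using hT) hR hw
  induction hm using Submodule.span_induction with
  | mem x h =>
    obtain ⟨a, ha, rfl⟩ := h
    exact ⟨a, Submodule.subset_span ha, rfl⟩
  | zero => exact ⟨0, zero_mem _, evO_zero ρ⟩
  | add x y _ _ h1 h2 =>
    obtain ⟨a, ha, rfl⟩ := h1
    obtain ⟨b, hb, rfl⟩ := h2
    exact ⟨a + b, add_mem ha hb, evO_add ρ (hx a ha) (hx b hb)⟩
  | smul c x _ h =>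
    obtain ⟨a, ha, rfl⟩ := h
    exact ⟨algebraMap k F c * a, Submodule.smul_mem _ (⟨_, R.algebraMap_mem c⟩ : R) ha, by
      rw [evO_mul ρ (ξ.algebraMap_mem c) (hx a ha), evO_const, Algebra.smul_def]⟩

/-- Nakayama's lemma for a saturated module. -/
theorem gb [IsLocalRing R] (hR : R ≤ ξ) (hρ : LocHom ξ ρ) {N : Submodule R F} (hN : N.FG)
    (hx : ∀ s ∈ N, s ∈ ξ) (h : ∀ s ∈ N, s ∈ mx ξ → s ∈ IsLocalRing.maximalIdeal R • N) :
    Gb R ξ ρ N := by
  obtain ⟨n, g, hg⟩ := Submodule.fg_iff_exists_fin_generating_family.1 hN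
  obtain ⟨κ, a, ha, h1, h2⟩ := exists_linearIndependent' k (evO ξ ρ ∘ g)
  have : Finite κ := Finite.of_injective a ha
  obtain ⟨m, ⟨e⟩⟩ := Finite.exists_equiv_fin κ
  have hgN : ∀ i, g i ∈ N := fun i => hg ▸ Submodule.subset_span ⟨i, rfl⟩
  have hle : Submodule.span R (Set.range (g ∘ a)) ≤ N :=
    Submodule.span_le.2 (by rintro _ ⟨i, rfl⟩; exact hgN _)
  refine ⟨m, g ∘ a ∘ e.symm, fun i => hx _ (hgN _), ?_, h2.comp _ e.symm.injective⟩
  rw [← Function.comp_assoc, e.symm.surjective.range_comp]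
  refine le_antisymm (Submodule.le_of_le_smul_of_le_jacobson_bot hN
    (IsLocalRing.maximalIdeal_le_jacobson _) ?_) hle
  conv_lhs => rw [← hg]
  refine Submodule.span_le.2 ?_
  rintro _ ⟨i, rfl⟩
  obtain ⟨w, hw, e1⟩ := lift (ρ := ρ) (m := evO ξ ρ (g i)) hR (T := Set.range (g ∘ a))
    (by rintro _ ⟨i, rfl⟩; exact hx _ (hgN _))
    (by rw [← Set.range_comp, ← Function.comp_assoc, h1]; exact Submodule.subset_span ⟨i, rfl⟩)
  have h3 := N.sub_mem (hgN i) (hle hw)
  have h4 := h _ h3 ((hρ.eq_zero_iff (hx _ h3)).1 (by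
    rw [evO_sub ρ (hx _ (hgN i)) (hx _ (hle hw)), e1, sub_self]))
  exact Submodule.mem_sup.2 ⟨w, hw, _, h4, by ring⟩

end Gbs

open Gbs in
theorem gbs_stmt : GbsStmt := by
  intro hF hS k F M I _ _ _ _ _ _ R H ξ ρ S L
  have := L.loc
  have := L.fm.noeth
  have hl := L.lh.isLocalRing
  have hfg : (Submodule.span R H).FG := Submodule.fg_span L.fm.fin
  obtain ⟨m₀, h⟩ := hS R F (Submodule.span R H) (IsLocalRing.maximalIdeal R)
    { carrier := mx ξ, add_mem' := fun ha hb => mx_add hl ha hb, zero_mem' := zero_mem_mx } hfg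
    (fun n w hw s hs => mx_mul_left (fo_le L hw) hs)
    (fun d s hs hm => (hF R F H _ L.fm.fin L.fm.nz).2 d s fun j hj => span_ad (chart L hs hm hj))
  exact ⟨m₀, fun m hm => gb L.fib.dom.1 L.lh (hfg.pow m) (fun s hs => fo_le L hs) (h m hm)⟩

end Pool.Agent.MP_e8e0b6_ag.R2
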