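import Pool.Agent.MP_e8e0b6_ag.R2.SpecT

/-! GCUP: linear disjointness for an intermediate base. -/

set_option autoImplicit false

open Polynomial

namespace Pool.Agent.MP_e8e0b6_ag.R2

open Pool.Agent.MP_79c67d_ag Pool.Agent.MP_20d318_ag Pool.Agent.MP_20d318_ag.AG
  Pool.Agent.MP_20d318_ag.BV Pool.Agent.MP_20d318_ag.CB

namespace GcUpA

theorem core {K Ω V E A ι : Type} [Field K] [Field Ω] [AddCommGroup V] [Module K V] [Algebra K Ω]
    [AddCommGroup E] [Module K E] [Module Ω E] [IsScalarTower K Ω E] (f : V →ₗ[K] E) (u : A → V)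
    (hu : LinearIndependent Ω fun a => f (u a)) (v : ι → V) (hv : LinearIndependent K v)
    (h : ∀ i, v i ∈ Submodule.span K (Set.range u)) : LinearIndependent Ω fun i => f (v i) := by
  have h1 : LinearIndependent K u := LinearIndependent.of_comp f (hu.restrict_scalars' K)
  let W := Submodule.span K (Set.range u)
  let Φ := LinearMap.liftBaseChange Ω (f.comp W.subtype)
  let b := Algebra.TensorProduct.basis Ω (Module.Basis.span h1)
  have e : Φ = b.constr ℕ fun a => f (u a) := b.ext fun a => by
    rw [Module.Basis.constr_basis]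
    simp [Φ, b, Module.Basis.span_apply]
  have inj : Function.Injective Φ := e ▸ b.injective_constr_of_linearIndependent hu
  have h2 : LinearIndependent K fun i => (⟨v i, h i⟩ : W) := LinearIndependent.of_comp W.subtype hv
  have h3 := (Module.Flat.linearIndependent_one_tmul (S := Ω) h2).map' Φ
    (LinearMap.ker_eq_bot.2 inj)
  have e2 : (fun i => f (v i)) = Φ ∘ fun i => (1 : Ω) ⊗ₜ[K] (⟨v i, h i⟩ : W) := by
    funext i
    simp [Φ]
  rwa [e2]

end GcUpA

theorem gcUp_stmt : GcUpStmt := by
  intro k F F' Ω E J _ _ _ _ _ _ _ _ _ _ C H μ S' ν μ' C' hG hμ hC hb ⟨j, _, hF⟩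
  have hμ' : ∀ a, μ' (ν a) = μ a := fun a => DFunLike.congr_fun hμ a
  refine ⟨hG.mrk, ?_, hb, fun ι v hv => ?_⟩
  · rw [hG.eq, Set.image_image]
    simp only [hμ']
  let g : C' →+* Ω := ((algebraMap Ω E).rangeRestrictFieldEquiv.symm : _ →+* Ω).comp
    (((μ' : F' →+* E).comp C'.val.toRingHom).codRestrict (algebraMap Ω E).fieldRange
      fun c => hb c c.2)
  have hg : ∀ c : C', algebraMap Ω E (g c) = μ' c := fun c =>
    (algebraMap Ω E).rangeRestrictFieldEquiv_apply_symm_apply _
  let _ : Algebra C' Ω := g.toAlgebra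
  have _ : FaithfulSMul C' Ω := (faithfulSMul_iff_algebraMap_injective _ _).2 fun a b e =>
    Subtype.ext (μ'.injective ((hg a).symm.trans ((congrArg _ e).trans (hg b))))
  let K := FractionRing C'
  let _ : Algebra K F' := FractionRing.liftAlgebra C' F'
  let _ : Algebra K Ω := FractionRing.liftAlgebra C' Ω
  have _ : IsScalarTower C' K F' := FractionRing.isScalarTower_liftAlgebra C' F'
  have _ : IsScalarTower C' K Ω := FractionRing.isScalarTower_liftAlgebra C' Ω
  let _ : Algebra K E := ((algebraMap Ω E).comp (algebraMap K Ω)).toAlgebra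
  have _ : IsScalarTower K Ω E := IsScalarTower.of_algebraMap_eq' rfl
  have hK : (μ' : F' →+* E).comp (algebraMap K F') = algebraMap K E :=
    IsLocalization.ringHom_ext (nonZeroDivisors C') (RingHom.ext fun c => by
      change μ' (algebraMap K F' (algebraMap C' K c)) =
        algebraMap Ω E (algebraMap K Ω (algebraMap C' K c))
      rw [← IsScalarTower.algebraMap_apply C' K F', ← IsScalarTower.algebraMap_apply C' K Ω]
      exact (hg c).symm)
  let f : F' →ₐ[K] E := ⟨μ', fun c => DFunLike.congr_fun hK c⟩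
  let K₀ := FractionRing C
  let _ : Algebra K₀ F := FractionRing.liftAlgebra C F
  have _ : IsScalarTower C K₀ F := FractionRing.isScalarTower_liftAlgebra C F
  let b := Module.Basis.ofVectorSpace K₀ F
  have hu := hG.ld _ b ((LinearIndependent.iff_fractionRing C K₀).2 b.linearIndependent)
  have hW : ∀ a, ν a ∈ Submodule.span K (Set.range fun i => ν (b i)) := fun a => by
    have ha : a ∈ Submodule.span K₀ (Set.range b) := b.span_eq ▸ Submodule.mem_top
    induction ha using Submodule.span_induction with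
    | mem x hx =>
      obtain ⟨i, rfl⟩ := hx
      exact Submodule.subset_span ⟨i, rfl⟩
    | zero => rw [map_zero]; exact Submodule.zero_mem _
    | add x y _ _ hx hy => rw [map_add]; exact Submodule.add_mem _ hx hy
    | smul c x _ hx =>
      obtain ⟨p, q, -, rfl⟩ := IsFractionRing.div_surjective (A := C) c
      have e : ν ((algebraMap C K₀ p / algebraMap C K₀ q) • x) =
          (algebraMap C' K ⟨ν p, hC ⟨p, p.2, rfl⟩⟩ / algebraMap C' K ⟨ν q, hC ⟨q, q.2, rfl⟩⟩) •
            ν x := by
        rw [Algebra.smul_def, Algebra.smul_def, map_div₀, map_div₀,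
          ← IsScalarTower.algebraMap_apply, ← IsScalarTower.algebraMap_apply,
          ← IsScalarTower.algebraMap_apply, ← IsScalarTower.algebraMap_apply, map_mul, map_div₀]
        rfl
      rw [e]
      exact Submodule.smul_mem _ _ hx
  let T : Subalgebra k F' :=
    { (Algebra.adjoin K (Set.range ν)).toSubsemiring with
      algebraMap_mem' := fun c => Algebra.subset_adjoin ⟨algebraMap k F c, ν.commutes c⟩ }
  have hT : ch C' (ν '' H) (ν j) ≤ T := sup_le (fun c hc => by
      have := (Algebra.adjoin K (Set.range ν)).algebraMap_mem (algebraMap C' K ⟨c, hc⟩)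
      rwa [← IsScalarTower.algebraMap_apply] at this)
    (Algebra.adjoin_le (by
      rintro _ ⟨_, ⟨a, -, rfl⟩, rfl⟩
      exact Algebra.subset_adjoin ⟨a / j, map_div₀ ν a j⟩))
  have hT' : ∀ z ∈ T, z ∈ Submodule.span K (Set.range fun i => ν (b i)) := fun z hz => by
    have h1 : z ∈ Subalgebra.toSubmodule (Algebra.adjoin K (Set.range ν)) := hz
    rw [Algebra.adjoin_eq_span] at h1
    refine Submodule.span_le.2 (fun y hy => ?_) h1
    obtain ⟨a, rfl⟩ : y ∈ ν.range.toSubmonoid := (Submonoid.closure_le (S := ν.range.toSubmonoid)).2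
      (fun _ h => h) hy
    exact hW a
  rw [linearIndependent_iff_finset_linearIndependent]
  intro s
  classical
  choose p hp q hq hq0 e using fun i : s => hF (v i)
  have d0 : ∏ i, q i ≠ 0 := Finset.prod_ne_zero_iff.2 fun i _ => hq0 i
  have h1 : LinearIndependent K fun i : s => (∏ i, q i) * v i :=
    (((LinearIndependent.iff_fractionRing C' K).1 hv).comp _ Subtype.val_injective).map'
      (LinearMap.mulLeft K (∏ i, q i)) (LinearMap.ker_eq_bot.2 (mul_right_injective₀ d0))
  simp only [← hμ'] at hu
  have h2 := GcUpA.core f.toLinearMap (fun i => ν (b i)) hu _ h1 fun i => hT' _ (hT (by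
      rw [e i, ← Finset.mul_prod_erase _ _ (Finset.mem_univ i), mul_comm (q i), mul_assoc,
        mul_div_cancel₀ _ (hq0 i)]
      exact mul_mem (prod_mem fun l _ => hq l) (hp i)))
  refine LinearIndependent.of_comp (LinearMap.mulLeft Ω (μ' (∏ i, q i))) ?_
  have e2 : (LinearMap.mulLeft Ω (μ' (∏ i, q i)) ∘ (fun i => μ' (v i)) ∘ (Subtype.val : s → ι)) =
      fun i : s => f.toLinearMap ((∏ i, q i) * v i) := funext fun i => (map_mul μ' _ _).symm
  rwa [e2]

end Pool.Agent.MP_e8e0b6_ag.R2
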