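import Pool.Agent.MP_e8e0b6_ag.R2.SpecS

/-!
Cells and a section give a line through a given section with a given derivative.
-/

set_option autoImplicit false

open Polynomial AlgebraicGeometry CategoryTheory IsLocalRing TrivSqZeroExt

namespace Pool.Agent.MP_e8e0b6_ag.R2

theorem germ_stmt : GermStmt := by
  intro k A _ _ _ _ _ _ Y q x n s₀ v hsep hft hA h hsec h0 hv h6
  have := hA.finiteType
  have : LocallyOfFiniteType (sp (algebraMap k A[X])) :=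
    (HasRingHomProperty.Spec_iff (P := @LocallyOfFiniteType)
      (φ := CommRingCat.ofHom (algebraMap k A[X]))).2
      (RingHom.finiteType_algebraMap.2 inferInstance)
  obtain ⟨A₁, _, _, _, ε₁, x₁, s, f1, _, f2, f3⟩ := hsec
  have f4 : (x₁ : A₁ →+* k).comp (ε₁ : A →+* A₁) = (x : A →+* k) :=
    RingHom.ext fun a => DFunLike.congr_fun f2 a
  have f5 : sp constantCoeff ≫ s ≫ q = sp (ε₁ : A →+* A₁) ≫ s₀ ≫ q := by
    rw [f3, h0, sp_comp, sp_comp]
    congr 1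
    ext <;> simp
  obtain ⟨c, -, hc⟩ := h (sp (x : A →+* k) ≫ s₀ ≫ q) (by
      rw [h0, sp_comp, sp_comp, ← sp_id]
      exact congrArg sp (RingHom.ext fun b => by simp))
    {sp (x₁ : A₁ →+* k) ≫ sp (ε₁ : A →+* A₁) ≫ s₀, sp ((x₁ : A₁ →+* k).comp constantCoeff) ≫ s}
    (Set.toFinite _) (by
      rintro _ (rfl | rfl)
      · rw [sp_comp_assoc, f4, Category.assoc]
      · rw [← sp_comp_assoc, Category.assoc, Category.assoc, f5, sp_comp_assoc, f4])
  have key : ∀ {D : Type} [CommRing D] (y : D →+* k) (g : Spec (.of D) ⟶ Y), c.Has (sp y ≫ g) →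
      ∃ p, y p ≠ 0 ∧ ∀ w : PrimeSpectrum D, p ∉ w.asIdeal → g w ∈ c.h.opensRange :=
    fun y g ⟨a, ha⟩ => by
      obtain ⟨p, g1, g2⟩ := Z.exists_basic (σ := g) (U := c.h.opensRange) (sp y (closedPoint k))
        ⟨_, congrArg (fun u => u (closedPoint k)) ha⟩
      exact ⟨p, fun e => g1 (by change y p ∈ maximalIdeal k; rw [e]; exact zero_mem _), g2⟩
  obtain ⟨g, g1, g2⟩ := key _ _ (hc _ (.inl rfl))
  obtain ⟨p, g3, g4⟩ := key _ _ (hc _ (.inr rfl))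
  obtain ⟨A₂, _, _, _, ε₂, x₂, -, _, f6, -, f7, -⟩ := f1.loc x₁ (t := g * p.coeff 0)
    (by rw [map_mul]; exact mul_ne_zero g1 g3)
  have f8 : (x₂ : A₂ →+* k).comp (ε₂ : A₁ →+* A₂) = (x₁ : A₁ →+* k) :=
    RingHom.ext fun a => DFunLike.congr_fun f6 a
  rw [map_mul] at f7
  obtain ⟨κ, hκ⟩ := T.exists_lift c.h (sp (ε₂ : A₁ →+* A₂) ≫ sp (ε₁ : A →+* A₁) ≫ s₀)
    (Z.mem_of_unit g2 (isUnit_of_mul_isUnit_left f7))
  have f9 : sp (fstR k) ≫ v = sp ((x₂ : A₂ →+* k).comp κ) ≫ c.h := by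
    rw [← sp_comp_assoc, hκ, sp_comp_assoc, sp_comp_assoc, f8, f4]
    exact h6
  obtain ⟨κ', hκ'⟩ := exists_factor v c.h (by
    rw [← sp_closedPoint (fstR k) fun _ => isUnit_iff_isUnit_fst.2]
    exact ⟨_, congrArg (fun u => u (closedPoint k)) f9.symm⟩)
  obtain ⟨Φ, h7, h8, h9⟩ := T.exists_germ c (sp (mapRingHom (ε₂ : A₁ →+* A₂)) ≫ s) (by
      rw [Category.assoc, reassoc_of% f3, sp_comp, sp_comp]
      exact congrArg sp (RingHom.ext fun b => by simp))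
    (p := p.map (ε₂ : A₁ →+* A₂)) (by rw [coeff_map]; exact isUnit_of_mul_isUnit_right f7)
    (fun w hw => g4 (PrimeSpectrum.comap (mapRingHom (ε₂ : A₁ →+* A₂)) w) hw) x₂ κ κ'
    (sp_cancel c.h (by rw [← sp_comp_assoc, hκ', f9])) (by
      rw [reassoc_of% hκ, ← f5, Category.assoc, sp_comp_assoc, sp_comp_assoc]
      congr 2
      ext <;> simp) (by
      rw [reassoc_of% hκ', hv, Category.assoc, f3, sp_comp, sp_comp, ← f4, ← f8]
      congr 2
      ext <;> simp)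
  have e : sp ((ε₂.comp ε₁ : A →ₐ[k] A₂) : A →+* A₂) =
      sp (ε₂ : A₁ →+* A₂) ≫ sp (ε₁ : A →+* A₁) := (sp_comp _ _).symm
  refine ⟨A₂, _, _, ε₂.comp ε₁, x₂, Φ, ?_, h7, ?_, h9.trans hκ'⟩
  · rw [e]; infer_instance
  · rw [e, Category.assoc]; exact h8.trans hκ

end Pool.Agent.MP_e8e0b6_ag.R2
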