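import Pool.Agent.MP_e8e0b6_ag.R2.SpecA

/-! A class whose members are lines in all fibres. -/

set_option autoImplicit false

namespace Pool.Agent.MP_e8e0b6_ag.R2

open Pool.Agent.MP_79c67d_ag Pool.Agent.MP_20d318_ag Pool.Agent.MP_20d318_ag.AG
  Pool.Agent.MP_20d318_ag.BV Pool.Agent.MP_20d318_ag.CB

namespace GoodA

variable {k M I : Type} [Field k] [Field M] [Algebra k M] [Fintype I] {S : Sd k M I}

theorem ef_pos {h : I → ℤ} (pos : ∀ c ∈ S.PP, 0 < ip S.B h c) {c : I → ℤ} (hc : c ∈ S.Ef) :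
    c = 0 ∨ 0 < ip S.B h c := by
  induction hc using AddSubmonoid.closure_induction with
  | mem x hx => exact Or.inr (pos x hx)
  | zero => exact Or.inl rfl
  | add x y _ _ hx hy =>
    rcases hx with rfl | hx
    · rwa [zero_add]
    · rcases hy with rfl | hy
      · exact Or.inr (by rwa [add_zero])
      · exact Or.inr (by rw [ip_add_right]; exact add_pos hx hy)

theorem nc_exc (mf : Mf S) (nl : Nl S) {d : I → ℤ} (hd : d ∈ S.PP) (mo : Mo S d) : Nc S d := by
  have m1 : ip S.B d d = -1 := mo.1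
  have m2 : ip S.B S.K d = -1 := mo.2
  have hp := mf.all.a1.hpos d hd
  have ef : d ∈ S.Ef := AddSubmonoid.subset_closure hd
  have e : ∀ n : ℕ, ip S.B (2 • S.h + n • d) d = 2 * ip S.B S.h d - n := fun n => by
    rw [← natCast_zsmul, ← natCast_zsmul, ip_add_left, ip_smul_left, ip_smul_left, m1]
    push_cast
    ring
  have ex : ∀ n : ℕ, (n : ℤ) ≤ 2 * ip S.B S.h d → Ex S (2 • S.h + n • d) := by
    intro n
    induction n with
    | zero => intro _; simpa using mf.exh 2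
    | succ n ih =>
      intro hn
      refine nl.up d hd (by rw [Sd.i, Sd.i, m1, m2]; rfl) _ (by rw [Sd.i, e]; omega) ?_
      rw [succ_nsmul d n, ← add_assoc, add_sub_cancel_right]
      exact ih (by push_cast at hn; omega)
  obtain ⟨j, hj⟩ : ∃ j : ℕ, (j : ℤ) = 2 * ip S.B S.h d - 2 :=
    ⟨(2 * ip S.B S.h d - 2).toNat, by omega⟩
  refine nl.nc d ef (by rw [Sd.i, Sd.i, m1, m2]; rfl) (by rw [Sd.i, m1])
    (Or.inr ⟨hd, by rw [Sd.i, m1]; decide⟩) (2 • S.h + j • d)
    (add_mem (nsmul_mem mf.all.a2.heff 2) (nsmul_mem ef j)) (ex j (by omega)) ?_ mf.kne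
  rw [Sd.i, ip_add_left, e, m1]
  omega

end GoodA

open GoodA in
theorem goodA_stmt : GoodAStmt := by
  intro hM hN hR hC hP Ω E J _ _ _ _ _ _ S' h' mk' hef hpos
  have mf' := hM _ _ _ S' mk'
  obtain ⟨c0, r1, r2⟩ := hR _ _ _ S' mk' mf'
  have card : ∀ {k M I : Type} [Field k] [Field M] [Algebra k M] [Fintype I] {S : Sd k M I}
      {σ : (J → ℤ) ≃+ (I → ℤ)}, Mf S → (∀ c c', ip S.B (σ c) (σ c') = ip S'.B c c') →
      σ S'.K = S.K → Fintype.card I = Fintype.card J := by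
    intro k M I _ _ _ _ S σ mf iso can
    have n1 := mf.all.s.noe
    have n2 := mf'.all.s.noe
    rw [← can, iso] at n1
    omega
  rcases (show Fintype.card J = 1 ∨ Fintype.card J = 2 ∨ 3 ≤ Fintype.card J by omega) with
    c | c | c
  · obtain ⟨l', hl', -⟩ := r1 c
    refine ⟨l', fun k M I _ _ _ _ _ _ S σ mk iso can _ _ => ?_⟩
    have mf := hM _ _ _ S mk
    obtain ⟨l, hl, nc⟩ := (hR _ _ _ S mk mf).2.1 ((card mf iso can).trans c)
    rw [hl', hl, map_zsmul] at can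
    have : σ l' = l := funext fun i => by
      have := congrFun can i
      simp only [Pi.smul_apply, smul_eq_mul] at this
      omega
    exact this ▸ nc
  · obtain ⟨f', g', zf', -, all', -⟩ := r2 c
    obtain ⟨ε, zε, mn⟩ : ∃ ε, Zf S' ε ∧ ∀ c, Zf S' c → S'.i h' ε ≤ S'.i h' c := by
      by_cases e : Zf S' g' ∧ S'.i h' g' < S'.i h' f'
      · refine ⟨g', e.1, fun c hc => ?_⟩
        rcases all' c hc with rfl | rfl
        exacts [e.2.le, le_rfl]
      · refine ⟨f', zf', fun c hc => ?_⟩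
        rcases all' c hc with rfl | rfl
        exacts [le_rfl, not_lt.1 fun e' => e ⟨hc, e'⟩]
    refine ⟨ε, fun k M I _ _ _ _ _ _ S σ mk iso can _ pos => ?_⟩
    have mf := hM _ _ _ S mk
    obtain ⟨f, g, zf, nc, all, alt⟩ := (hR _ _ _ S mk mf).2.2 ((card mf iso can).trans c)
    have z : ∀ c, Zf S (σ c) ↔ Zf S' c := fun c => by
      rw [Zf, Zf, Sd.i, Sd.i, ← can, iso, iso]
    rcases all _ ((z ε).2 zε) with e | e
    · exact e ▸ nc
    rcases alt with nc' | lt
    · exact e ▸ nc'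
    obtain ⟨f₀, rfl⟩ := σ.surjective f
    have h1 := lt _ pos
    rw [← e, Sd.i, Sd.i, iso, iso] at h1
    exact absurd h1 (not_lt.2 (mn f₀ ((z f₀).1 zf)))
  · have sq : 0 < ip S'.B h' h' := (ef_pos hpos hef).resolve_left fun h0 => by
      obtain ⟨e, he, -⟩ := mf'.lt.neg c
      have := hpos e he
      rw [h0, ip_zero_left] at this
      exact lt_irrefl _ this
    obtain ⟨e, he, mo, nef⟩ := hC _ _ _ S' h' mf'.all mf'.hg mf'.lt ⟨hpos, sq⟩ c
    refine ⟨e, fun k M I _ _ _ _ _ _ S σ mk iso can ef pos => ?_⟩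
    have mf := hM _ _ _ S mk
    refine nc_exc mf (hN _ _ _ S mf.all) (hP _ _ _ _ _ _ S' S σ h' e mf'.all mf.all mf.lt
      ⟨iso, can, ef⟩ ⟨pos, sq.trans_eq (iso h' h').symm⟩ he mo nef) ⟨?_, ?_⟩
    · exact (iso e e).trans mo.1
    · rw [← can]
      exact (iso _ e).trans mo.2

end Pool.Agent.MP_e8e0b6_ag.R2
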