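import Pool.Agent.MP_e8e0b6_ag.R2.SpecA

/-!
Semicontinuity and base change: the assembly.
-/

set_option autoImplicit false

namespace Pool.Agent.MP_e8e0b6_ag.R2

open Pool.Agent.MP_79c67d_ag Pool.Agent.MP_20d318_ag Pool.Agent.MP_20d318_ag.AG
  Pool.Agent.MP_20d318_ag.BV Pool.Agent.MP_20d318_ag.CB
open scoped Pointwise

namespace GrRow

theorem fin_sub {k F M : Type} [Field k] [AddCommGroup M] [Module k M] (f : F → M) (W : Set F)
    (Z : Submodule k M) [FiniteDimensional k Z] (h : Z ≤ Submodule.span k (f '' W)) :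
    ∃ W₀ ⊆ W, W₀.Finite ∧ Z ≤ Submodule.span k (f '' W₀) := by
  obtain ⟨T, hT⟩ := (Submodule.fg_iff_finiteDimensional Z).2 inferInstance
  have key : ∀ t ∈ T, ∃ V ⊆ W, V.Finite ∧ t ∈ Submodule.span k (f '' V) := by
    intro t ht
    obtain ⟨T', h1, h2⟩ := Submodule.mem_span_finite_of_mem_span
      (h (hT ▸ Submodule.subset_span ht))
    obtain ⟨V, h3, h4, h5⟩ := Set.Finite.exists_subset_finite_image_eq T'.finite_toSet h1
    exact ⟨V, h3, h4, h5 ▸ h2⟩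
  choose! V h1 h2 h3 using key
  refine ⟨⋃ t ∈ T, V t, Set.iUnion₂_subset h1, T.finite_toSet.biUnion h2, ?_⟩
  rw [← hT, Submodule.span_le]
  intro t ht
  exact Submodule.span_mono (Set.image_mono (Set.subset_biUnion_of_mem (u := V) ht)) (h3 t ht)

variable {k F M Ω E I J : Type} [Field k] [Field F] [Field M] [Field Ω]
  [Field E] [Algebra k F] [Algebra k M] [Algebra k E] [Algebra Ω E] [Fintype I] [Fintype J]
  {R : Subalgebra k F} {H : Set F} {ξ : Subalgebra k F} {ρ : ξ →ₐ[k] M} {S : Sd k M I}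
  {μ : F →ₐ[k] E} {S' : Sd Ω E J} {γ : Subalgebra k F → F} {c : J → ℤ} {d : I → ℤ}

theorem lin (N : Submodule R F) (A : Set M) (Z : Set F) (B : Set E) (U : Set F)
    (hb : ∀ r ∈ R, μ r ∈ Set.range (algebraMap Ω E))
    (h : ∀ u ∈ U, u ∈ ξ ∧ (∀ s ∈ A, s * evO ξ ρ u ∈ Submodule.span k (evO ξ ρ '' N)) ∧
      (∀ z ∈ Z, z * u ∈ N) ∧ ∀ y ∈ B, y * μ u ∈ Submodule.span Ω (μ '' N)) :
    ∀ u ∈ Submodule.span k U, u ∈ ξ ∧
      (∀ s ∈ A, s * evO ξ ρ u ∈ Submodule.span k (evO ξ ρ '' N)) ∧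
      (∀ z ∈ Z, z * u ∈ N) ∧ ∀ y ∈ B, y * μ u ∈ Submodule.span Ω (μ '' N) := by
  intro u hu
  induction hu using Submodule.span_induction with
  | mem x hx => exact h x hx
  | zero => simp [evO_zero]
  | add x y _ _ hx hy =>
    refine ⟨ξ.add_mem hx.1 hy.1, fun s hs => ?_, fun z hz => ?_, fun w hw => ?_⟩
    · rw [evO_add ρ hx.1 hy.1, mul_add]
      exact Submodule.add_mem _ (hx.2.1 s hs) (hy.2.1 s hs)
    · rw [mul_add]
      exact N.add_mem (hx.2.2.1 z hz) (hy.2.2.1 z hz)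
    · rw [map_add, mul_add]
      exact Submodule.add_mem _ (hx.2.2.2 w hw) (hy.2.2.2 w hw)
  | smul r x _ hx =>
    refine ⟨ξ.smul_mem hx.1 r, fun s hs => ?_, fun z hz => ?_, fun w hw => ?_⟩
    · rw [Algebra.smul_def, evO_mul ρ (ξ.algebraMap_mem r) hx.1, evO_const, mul_left_comm,
        ← Algebra.smul_def]
      exact Submodule.smul_mem _ _ (hx.2.1 s hs)
    · rw [Algebra.smul_def, mul_left_comm]
      exact N.smul_mem ⟨_, R.algebraMap_mem r⟩ (hx.2.2.1 z hz)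
    · obtain ⟨t, e⟩ := hb _ (R.algebraMap_mem r)
      rw [Algebra.smul_def, map_mul, ← e, mul_left_comm, ← Algebra.smul_def]
      exact Submodule.smul_mem _ _ (hx.2.2.2 w hw)

theorem core [CharZero k] (form : FormStmt) (gen : Gen) (gbs : Gbs) (gra : Gra) (twk : Twk)
    (twg : Twg) (cp1 : Cp1) (cp2 : Cp2Stmt) (ln : Ln R H ξ ρ S) (gm : Gm R H μ S')
    (pr : Pr R H ξ ρ S μ S' γ c d) (Z : Set F) (hZ : Z.Finite) (hS : Z ⊆ Sc (XX R H) γ) :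
    ∃ Y : Submodule R F, Z ⊆ Y ∧ (∀ z ∈ Y, z ∈ Sc (XX R H) γ) ∧ S'.h0 c ≤ S.h0 d ∧
      (S.h0 d ≤ S'.h0 c → (∀ s ∈ S.Sec d, ∃ z ∈ Y, evO ξ ρ z = s) ∧ ∀ W ⊆ (Y : Set F),
        S.Sec d ≤ Submodule.span k (evO ξ ρ '' W) → ∀ z ∈ Y, z ∈ Submodule.span R W) := by
  obtain ⟨hD, ⟨φ, hφ0, hφ⟩, hb⟩ := pr
  obtain ⟨m₁, W, hWf, hW⟩ := gen k F R H γ ln.xb hD
  have du : ∀ w ∈ W, Du R H γ m₁ w := fun w hw O hO j hj => (hW O hO j hj).1 w hw
  have ne : ∀ O ∈ XX R H, γ O ≠ 0 := fun O hO => hD.ne hO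
  obtain ⟨m₀, hm₀⟩ := gbs k F M I R H ξ ρ S ln
  have e1 : ∀ᶠ n in Filter.atTop, ∀ w ∈ W, ∀ h ∈ Fo R H n, ∀ s ∈ S.Sec d,
      s * evO ξ ρ (w * h) ∈ Submodule.span k (evO ξ ρ '' Fo R H (m₁ + n)) :=
    (Filter.eventually_all_finite hWf).2 fun w hw =>
      Filter.eventually_atTop.2 (twk k F M I R H ξ ρ S γ d m₁ w ln hb (du w hw))
  have e2 : ∀ᶠ n in Filter.atTop, ∀ w ∈ W, ∀ z ∈ Z, ∀ h ∈ Fo R H n,
      z * (w * h) ∈ Fo R H (m₁ + n) :=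
    (Filter.eventually_all_finite hWf).2 fun w hw =>
      (Filter.eventually_all_finite hZ).2 fun z hz => Filter.eventually_atTop.2
        ((twg k F Ω E J R H μ S' γ m₁ w ln.xb gm (du w hw) ne).1 z (hS hz))
  have e3 : ∀ᶠ n in Filter.atTop, ∀ w ∈ W, ∀ h ∈ Fo R H n, ∀ y ∈ S'.Sec c,
      y / φ * μ (w * h) ∈ Submodule.span Ω (μ '' Fo R H (m₁ + n)) :=
    (Filter.eventually_all_finite hWf).2 fun w hw => Filter.eventually_atTop.2
      ((twg k F Ω E J R H μ S' γ m₁ w ln.xb gm (du w hw) ne).2 c φ hφ)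
  obtain ⟨n, ⟨⟨h1, h2⟩, h3⟩, hn⟩ :=
    (((e1.and e2).and e3).and (Filter.eventually_ge_atTop m₀)).exists
  have hU : ∀ O ∈ XX R H, ∀ j, Gn H O j → Gn (W * H ^ n) O (γ O * j ^ (m₁ + n)) := by
    intro O hO j hj
    rw [pow_add, ← mul_assoc]
    exact gn_mul (hW O hO j hj) (gn_pow hj n)
  have g1 : Gn H ξ 1 := gn_of_mem ln.one one_ne_zero fun a ha => by simpa using ln.sub a ha
  have uγ : IsU ξ (γ ξ) := (hb ξ ln.fib.mem ln.fib.dom).1
  have inξ : ∀ {u : F}, u / (γ ξ * 1 ^ (m₁ + n)) ∈ ξ → u ∈ ξ := fun {u} h => by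
    have := ξ.mul_mem h uγ.mem
    rwa [one_pow, mul_one, div_mul_cancel₀ _ uγ.ne] at this
  have hl := lin (ρ := ρ) (μ := μ) (Ω := Ω) (Fo R H (m₁ + n)) (S.Sec d) Z
    ((fun y => y / φ) '' S'.Sec c) (W * H ^ n) gm.base (by
      rintro _ ⟨w, hw, h, hh, rfl⟩
      have hh' : h ∈ Fo R H n := by
        rw [Fo, Submodule.span_pow]; exact Submodule.subset_span hh
      refine ⟨inξ ((hU ξ ln.fib.mem 1 g1).1 _ (Set.mul_mem_mul hw hh)), h1 w hw h hh',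
        fun z hz => h2 w hw z hz h hh', ?_⟩
      rintro _ ⟨y, hy, rfl⟩
      exact h3 w hw h hh' y hy)
  obtain ⟨a, ha, a', ha', cp⟩ := cp1 k F M I R H ξ ρ S γ d (m₁ + n) _ ln hb hU
  obtain ⟨c1, c2⟩ := cp2 k F M I R H ξ ρ S γ d (m₁ + n) a a' ln hD hb cp
  obtain ⟨a0, a1, a2, a3⟩ := hl a ha
  obtain ⟨b0, b1, b2, b3⟩ := hl a' ha'
  have pt : ξ ∈ Pts (ch R H 1) := (ln.xb.pts 1 ln.one ξ).2 ⟨ln.fib.mem, g1⟩
  obtain ⟨p, hp, q, hq, uq, ep⟩ := pt.2.2 a a0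
  obtain ⟨p', hp', q', hq', uq', ep'⟩ := pt.2.2 a' b0
  have fo : ∀ z ∈ ch R H 1, ∀ᶠ n in Filter.atTop, z ∈ Fo R H n := fun z hz => by
    have := (form R F H ⊤ ln.fm.fin ln.fm.nz).1 1 ln.one z (by
      rw [Submodule.top_smul]; exact mem_ch.1 hz)
    simpa only [one_pow, mul_one, Submodule.top_smul] using Filter.eventually_atTop.2 this
  obtain ⟨n', f1, f2⟩ := ((fo _ ((ch R H 1).mul_mem hp hq')).and
    (fo _ ((ch R H 1).mul_mem hp' hq))).exists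
  have key := gra k F M Ω E I J R H ξ ρ S μ S' (Fo R H (m₁ + n)) (Fo R H (n' + (m₁ + n))) a a'
    (q * q') (S.Sec d) _ ln gm.toGc (hm₀ _ (by omega)) (hm₀ _ (by omega)) cp.ua b0 (uq.mul uq')
    (fun w hw => by
      have e : a * (q * q') = p * q' := by rw [ep]; field_simp [uq.ne]
      have e' : a' * (q * q') = p' * q := by rw [ep']; field_simp [uq'.ne]
      rw [e, e', Fo, pow_add _ n']
      exact ⟨Submodule.mul_mem_mul f1 hw, Submodule.mul_mem_mul f2 hw⟩)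
    (le_antisymm (fun s hs => mem_Zs.2 ⟨a1 s hs, b1 s hs⟩) c1) rfl
  obtain ⟨fd, le1, k2⟩ := key
  have le0 : Module.finrank Ω (S'.Sec c) ≤ Module.finrank Ω
      (Zs (Submodule.span Ω (μ '' Fo R H (m₁ + n))) (μ a) (μ a')) := by
    refine LinearMap.finrank_le_finrank_of_injective (f := LinearMap.codRestrict _
      ((LinearMap.mulRight Ω φ⁻¹).domRestrict (S'.Sec c)) fun y => ?_) fun y y' e => ?_
    · have e : (LinearMap.mulRight Ω φ⁻¹).domRestrict (S'.Sec c) y = y.1 / φ :=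
        (div_eq_mul_inv _ _).symm
      rw [e]
      exact mem_Zs.2 ⟨a3 _ ⟨_, y.2, rfl⟩, b3 _ ⟨_, y.2, rfl⟩⟩
    · have e' : y.1 * φ⁻¹ = y'.1 * φ⁻¹ := congrArg Subtype.val e
      exact Subtype.ext (mul_right_cancel₀ (inv_ne_zero hφ0) e')
  refine ⟨Zs (Fo R H (m₁ + n)) a a', fun z hz => mem_Zs.2 ⟨a2 z hz, b2 z hz⟩, c2, ?_,
    fun h => k2 ?_⟩
  · unfold Sd.h0
    exact_mod_cast le0.trans le1
  · unfold Sd.h0 at h
    exact le_trans (by exact_mod_cast h) le0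

end GrRow

theorem gr_stmt : GrStmt := by
  intro form gen gbs gra twk twg cp1 cp2 k F M Ω E I J _ _ _ _ _ _ _ _ _ _ _ _ R H ξ ρ S μ S' γ c d
    ln gm pr
  obtain ⟨Y, -, h1, h2, h3⟩ := GrRow.core form gen gbs gra twk twg cp1 cp2 ln gm pr ∅
    Set.finite_empty (Set.empty_subset _)
  refine ⟨h2, fun h => ⟨fun s hs => ?_, fun W hW hle z hz => ?_⟩⟩
  · obtain ⟨z, hz, e⟩ := (h3 h).1 s hs
    exact ⟨z, h1 z hz, e⟩
  · have := ln.mf.all.s.fd d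
    obtain ⟨W₀, s0, f0, l0⟩ := GrRow.fin_sub _ W _ hle
    obtain ⟨Y', g0, -, -, g3⟩ := GrRow.core form gen gbs gra twk twg cp1 cp2 ln gm pr
      (insert z W₀) (f0.insert z) (Set.insert_subset hz (s0.trans hW))
    exact Submodule.span_mono s0 ((g3 h).2 W₀ ((Set.subset_insert _ _).trans g0) l0 z
      (g0 (Set.mem_insert _ _)))

end Pool.Agent.MP_e8e0b6_ag.R2
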