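import Pool.Agent.MP_e8e0b6_ag.R2.CSpec

/-! Row GR1: semicontinuity of the kernel of a matrix over a local domain. -/

set_option autoImplicit false

namespace Pool.Agent.MP_e8e0b6_ag.R2

namespace Gr1

open Matrix Module

lemma ker_dim {F n r : Type} [Field F] [Fintype n] [Fintype r] [DecidableEq r] (C : Matrix r n F)
    (V : Matrix n r F) (h : C * V = 1) :
    finrank F (LinearMap.ker C.mulVecLin) + Fintype.card r = Fintype.card n := by
  have h1 := LinearMap.finrank_range_add_finrank_ker C.mulVecLin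
  have h2 : LinearMap.range C.mulVecLin = ⊤ := LinearMap.range_eq_top.2 fun y =>
    ⟨V *ᵥ y, by rw [mulVecLin_apply, mulVec_mulVec, h, one_mulVec]⟩
  rw [h2, finrank_top, finrank_fintype_fun_eq_card, finrank_fintype_fun_eq_card] at h1
  omega

lemma split {k n n' : Type} [Field k] [Fintype n] [Fintype n'] (A : Matrix n' n k) :
    ∃ (r : ℕ) (B : Matrix (Fin r) n' k) (V : Matrix n (Fin r) k), B * A * V = 1 ∧
      finrank k (LinearMap.ker A.mulVecLin) + r = Fintype.card n := by
  classical
  obtain ⟨s, hs⟩ := A.mulVecLin.rangeRestrict.exists_rightInverse_of_surjective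
    A.mulVecLin.range_rangeRestrict
  obtain ⟨t, ht⟩ := (LinearMap.range A.mulVecLin).subtype.exists_leftInverse_of_injective
    (Submodule.ker_subtype _)
  let φ := (Module.finBasis k (LinearMap.range A.mulVecLin)).equivFun
  refine ⟨_, LinearMap.toMatrix' (φ.toLinearMap ∘ₗ t), LinearMap.toMatrix' (s ∘ₗ φ.symm.toLinearMap),
    ?_, ?_⟩
  · refine Matrix.toLin'.injective (LinearMap.ext fun y => ?_)
    have e1 : A *ᵥ s (φ.symm y) = (φ.symm y : n' → k) :=
      congrArg Subtype.val (LinearMap.congr_fun hs (φ.symm y))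
    have e2 : t (φ.symm y : n' → k) = φ.symm y := LinearMap.congr_fun ht (φ.symm y)
    rw [toLin'_mul, toLin'_mul, toLin'_toMatrix', toLin'_toMatrix', toLin'_one]
    show φ (t (A *ᵥ s (φ.symm y))) = y
    rw [e1, e2, LinearEquiv.apply_symm_apply]
  · have h1 := LinearMap.finrank_range_add_finrank_ker A.mulVecLin
    rw [finrank_fintype_fun_eq_card] at h1
    omega

lemma lift_mat {k R a b : Type} [Field k] [CommRing R] {e : R →+* k} (he : Function.Surjective e)
    (X : Matrix a b k) : ∃ Y : Matrix a b R, Y.map e = X := by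
  choose g hg using he
  exact ⟨X.map g, by ext i l; simp [hg]⟩

lemma split' {k R n n' : Type} [Field k] [CommRing R] [IsLocalRing R] [Fintype n] [Fintype n']
    {e : R →+* k} (he : Function.Surjective e) (A : Matrix n' n R) :
    ∃ (r : ℕ) (B : Matrix (Fin r) n' R) (V : Matrix n (Fin r) R), B * A * V = 1 ∧
      finrank k (LinearMap.ker (A.map e).mulVecLin) + r = Fintype.card n := by
  obtain ⟨r, B0, V0, h1, h2⟩ := split (A.map e)
  obtain ⟨B, rfl⟩ := lift_mat he B0
  obtain ⟨V, rfl⟩ := lift_mat he V0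
  have := IsLocalHom.of_surjective e he
  have hu : IsUnit (B * A * V).det := by
    refine isUnit_of_map_unit e _ ?_
    rw [RingHom.map_det, RingHom.mapMatrix_apply, Matrix.map_mul, Matrix.map_mul, h1, det_one]
    exact isUnit_one
  exact ⟨r, (B * A * V)⁻¹ * B, V, by
    rw [Matrix.mul_assoc _ B, Matrix.mul_assoc _ (B * A), nonsing_inv_mul _ hu], h2⟩

lemma red_mulVec {k R a b : Type} [CommRing k] [CommRing R] [Fintype b] (e : R →+* k)
    (X : Matrix a b R) (w : b → R) : (fun i => e ((X *ᵥ w) i)) = X.map e *ᵥ fun i => e (w i) :=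
  funext fun i => RingHom.map_mulVec e X w i

end Gr1

open Matrix Module in
theorem gr1_stmt : Gr1Stmt := by
  intro k R Ω n n' _ _ _ _ _ _ e j A he hj
  classical
  obtain ⟨r, B, V, h1, h2⟩ := Gr1.split' he A
  have h3 := Gr1.ker_dim ((B * A).map j) (V.map j)
    (by rw [← Matrix.map_mul, h1, Matrix.map_one _ (map_zero j) (map_one j)])
  rw [Fintype.card_fin] at h3
  have hle : LinearMap.ker (A.map j).mulVecLin ≤ LinearMap.ker ((B * A).map j).mulVecLin := by
    rw [Matrix.map_mul, mulVecLin_mul]
    exact LinearMap.ker_le_ker_comp _ _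
  have h4 := Submodule.finrank_mono hle
  refine ⟨by omega, fun h5 => ?_⟩
  have heq := Submodule.eq_of_le_of_finrank_le hle (by omega)
  obtain ⟨P, hP⟩ : ∃ P : Matrix n n R, P = 1 - V * (B * A) := ⟨_, rfl⟩
  have hAP : ∀ w, A *ᵥ (P *ᵥ w) = 0 := by
    intro w
    have e1 : (B * A) *ᵥ (P *ᵥ w) = 0 := by
      rw [mulVec_mulVec, hP, Matrix.mul_sub, Matrix.mul_one, ← Matrix.mul_assoc, h1,
        Matrix.one_mul, sub_self, zero_mulVec]
    have e2 : (fun i => j ((P *ᵥ w) i)) ∈ LinearMap.ker (A.map j).mulVecLin := by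
      rw [heq, LinearMap.mem_ker, mulVecLin_apply, ← Gr1.red_mulVec, e1]
      exact funext fun _ => map_zero j
    rw [LinearMap.mem_ker, mulVecLin_apply, ← Gr1.red_mulVec] at e2
    exact funext fun i => hj ((congrFun e2 i).trans (map_zero j).symm)
  have hPw : ∀ w, P *ᵥ w = w - (V * B) *ᵥ (A *ᵥ w) := fun w => by
    rw [hP, sub_mulVec, one_mulVec, mulVec_mulVec, Matrix.mul_assoc]
  refine ⟨fun v hv => ?_, fun W hW hsp w hw => ?_⟩
  · choose g hg using he
    refine ⟨P *ᵥ fun i => g (v i), hAP _, fun i => ?_⟩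
    have e1 := congrFun (Gr1.red_mulVec e (V * B) (A *ᵥ fun i => g (v i))) i
    rw [Gr1.red_mulVec e A] at e1
    simp only [hg, hv, mulVec_zero, Pi.zero_apply] at e1
    rw [hPw, Pi.sub_apply, map_sub, hg, e1, sub_zero]
  · have hN : LinearMap.ker A.mulVecLin = LinearMap.range P.mulVecLin := by
      apply le_antisymm
      · exact fun x hx => ⟨x, by
          rw [mulVecLin_apply, hPw, show A *ᵥ x = 0 from hx, mulVec_zero, sub_zero]⟩
      · rintro _ ⟨x, rfl⟩
        exact hAP x
    have hWN : Submodule.span R W ≤ LinearMap.ker A.mulVecLin := Submodule.span_le.2 hW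
    refine Submodule.le_of_le_smul_of_le_jacobson_bot (I := RingHom.ker e)
      (N' := LinearMap.ker A.mulVecLin) ?_ ?_ (fun x hx => ?_) hw
    · rw [hN, ← Submodule.map_top]
      exact Module.Finite.fg_top.map _
    · rw [IsLocalRing.jacobson_eq_maximalIdeal ⊥ bot_ne_top]
      exact IsLocalRing.le_maximalIdeal (RingHom.ker_ne_top e)
    · have key : ∀ v ∈ Submodule.span k ((fun w i => e (w i)) '' W),
          ∃ y ∈ Submodule.span R W, (fun i => e (y i)) = v := by
        intro v hv
        induction hv using Submodule.span_induction with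
        | mem v hv =>
          obtain ⟨y, hy, rfl⟩ := hv
          exact ⟨y, Submodule.subset_span hy, rfl⟩
        | zero => exact ⟨0, zero_mem _, funext fun _ => map_zero e⟩
        | add u v _ _ hu hv =>
          obtain ⟨y, hy, rfl⟩ := hu
          obtain ⟨z, hz, rfl⟩ := hv
          exact ⟨y + z, add_mem hy hz, funext fun _ => map_add e _ _⟩
        | smul c v _ hv =>
          obtain ⟨y, hy, rfl⟩ := hv
          obtain ⟨c, rfl⟩ := he c
          exact ⟨c • y, Submodule.smul_mem _ _ hy, funext fun _ => map_mul e _ _⟩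
      obtain ⟨y, hy, hxy⟩ := key _ (hsp (fun i => e (x i)) (by
        rw [← Gr1.red_mulVec, show A *ᵥ x = 0 from hx]
        exact funext fun _ => map_zero e))
      have hd : A *ᵥ (x - y) = 0 := sub_mem hx (hWN hy)
      have e1 : x - y = ∑ i, (x - y) i • P *ᵥ Pi.single i 1 := by
        conv_lhs => rw [← sub_zero (x - y), ← mulVec_zero (V * B), ← hd, ← hPw,
          ← Finset.univ_sum_single (x - y), mulVec_sum]
        exact Finset.sum_congr rfl fun i _ => by
          rw [← mulVec_smul, ← Pi.single_smul', smul_eq_mul, mul_one]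
      rw [← add_sub_cancel y x]
      refine Submodule.add_mem_sup hy ?_
      rw [e1]
      refine Submodule.sum_mem _ fun i _ => Submodule.smul_mem_smul ?_ (hAP _)
      rw [RingHom.mem_ker, Pi.sub_apply, map_sub, sub_eq_zero]
      exact (congrFun hxy i).symm

end Pool.Agent.MP_e8e0b6_ag.R2
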