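import Pool.Agent.MP_e8e0b6_ag.R2.SpecA

/-!
The three kernels: over the residue field, over the local ring and over the generic field.
-/

set_option autoImplicit false

namespace Pool.Agent.MP_e8e0b6_ag.R2

open Pool.Agent.MP_79c67d_ag Pool.Agent.MP_20d318_ag Pool.Agent.MP_20d318_ag.AG
  Pool.Agent.MP_20d318_ag.BV Pool.Agent.MP_20d318_ag.CB

namespace GraP

section abs

variable {T G n n' : Type} [CommRing T] [Field G] [Algebra T G] [Fintype n] [Fintype n']

/-- The matrix of the map `(u, v) ↦ b * (a' * u - a * v)` in the bases `s` and `t`. -/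
structure Dat (s : n → G) (t : n' → G) (a a' b : G) (A : Matrix n' (n ⊕ n) T) : Prop where
  hs : LinearIndependent T s
  ht : LinearIndependent T t
  ha : a ≠ 0
  hb : b ≠ 0
  l : ∀ i, ∑ l, A l (.inl i) • t l = a' * b * s i
  r : ∀ i, ∑ l, A l (.inr i) • t l = -(a * b * s i)

/-- The function attached to a vector. -/
noncomputable def Phi (T : Type) [CommRing T] [Algebra T G] (s : n → G) (a : G) :
    (n ⊕ n → T) →ₗ[T] G where
  toFun v := (∑ i, v (.inl i) • s i) / a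
  map_add' v w := by simp [add_smul, Finset.sum_add_distrib, add_div]
  map_smul' c v := by
    simp only [Pi.smul_apply, smul_eq_mul, mul_smul, RingHom.id_apply, ← Finset.smul_sum]
    rw [div_eq_mul_inv, div_eq_mul_inv, smul_mul_assoc]

theorem Phi_apply (s : n → G) (a : G) (v : n ⊕ n → T) :
    Phi T s a v = (∑ i, v (.inl i) • s i) / a := rfl

variable {s : n → G} {t : n' → G} {a a' b : G} {A : Matrix n' (n ⊕ n) T}

theorem Dat.ker_iff (D : Dat s t a a' b A) (v : n ⊕ n → T) : A.mulVec v = 0 ↔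
    a' * ∑ i, v (.inl i) • s i = a * ∑ i, v (.inr i) • s i := by
  have e : ∑ l, A.mulVec v l • t l =
      b * (a' * ∑ i, v (.inl i) • s i - a * ∑ i, v (.inr i) • s i) := by
    have : ∀ l, A.mulVec v l • t l = ∑ x, v x • (A l x • t l) := fun l => by
      rw [Matrix.mulVec, dotProduct, Finset.sum_smul]
      exact Finset.sum_congr rfl fun x _ => by rw [mul_comm, mul_smul]
    simp only [this]
    rw [Finset.sum_comm, Fintype.sum_sum_type]
    simp only [← Finset.smul_sum, D.l, D.r]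
    simp only [Finset.mul_sum, sub_eq_add_neg, mul_add, ← Finset.sum_neg_distrib, Algebra.smul_def]
    congr 1 <;> exact Finset.sum_congr rfl fun i _ => by ring
  rw [← sub_eq_zero (a := a' * _), ← mul_eq_zero_iff_left D.hb, ← e]
  exact ⟨fun h => by simp [h], fun h => funext (Fintype.linearIndependent_iff.1 D.ht _ h)⟩

theorem sum_mem_span (c : n → T) : ∑ i, c i • s i ∈ Submodule.span T (Set.range s) :=
  (Submodule.mem_span_range_iff_exists_fun T).2 ⟨c, rfl⟩

theorem Dat.mem (D : Dat s t a a' b A) {v : n ⊕ n → T} (h : A.mulVec v = 0) :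
    Phi T s a v ∈ Zs (Submodule.span T (Set.range s)) a a' := by
  rw [D.ker_iff] at h
  rw [mem_Zs, Phi_apply, div_mul_cancel₀ _ D.ha, div_mul_eq_mul_div, mul_comm _ a', h,
    mul_div_cancel_left₀ _ D.ha]
  exact ⟨sum_mem_span _, sum_mem_span _⟩

theorem Dat.surj (D : Dat s t a a' b A) {z : G}
    (h : z ∈ Zs (Submodule.span T (Set.range s)) a a') :
    ∃ v, A.mulVec v = 0 ∧ Phi T s a v = z := by
  obtain ⟨p, hp⟩ := (Submodule.mem_span_range_iff_exists_fun T).1 (mem_Zs.1 h).1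
  obtain ⟨q, hq⟩ := (Submodule.mem_span_range_iff_exists_fun T).1 (mem_Zs.1 h).2
  refine ⟨Sum.elim p q, (D.ker_iff _).2 ?_, ?_⟩
  · simp only [Sum.elim_inl, Sum.elim_inr, hp, hq]
    ring
  · simp only [Phi_apply, Sum.elim_inl, hp, mul_div_cancel_right₀ _ D.ha]

theorem Dat.inj (D : Dat s t a a' b A) {v : n ⊕ n → T} (h : A.mulVec v = 0)
    (h0 : Phi T s a v = 0) : v = 0 := by
  rw [D.ker_iff] at h
  rw [Phi_apply, div_eq_zero_iff, or_iff_left D.ha] at h0
  rw [h0, mul_zero, eq_comm, mul_eq_zero, or_iff_right D.ha] at h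
  funext x
  rcases x with i | i
  · exact Fintype.linearIndependent_iff.1 D.hs _ h0 i
  · exact Fintype.linearIndependent_iff.1 D.hs _ h i

/-- The kernel of the matrix is the module of common multipliers. -/
noncomputable def Dat.equiv (D : Dat s t a a' b A) :
    LinearMap.ker A.mulVecLin ≃ₗ[T] Zs (Submodule.span T (Set.range s)) a a' :=
  LinearEquiv.ofBijective (((Phi T s a).domRestrict _).codRestrict _ fun v => D.mem v.2)
    ⟨(injective_iff_map_eq_zero _).2 fun v h =>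
      Subtype.ext (D.inj v.2 (congrArg Subtype.val h)),
    fun z => (D.surj z.2).elim fun v h => ⟨⟨v, h.1⟩, Subtype.ext h.2⟩⟩

end abs

section red

variable {k F M T n n' : Type} [Field k] [Field F] [Field M] [Field T] [Algebra k F] [Algebra k M]
  [Algebra T M] [Fintype n] [Fintype n'] {R ξ : Subalgebra k F} {ρ : ξ →ₐ[k] M} {e : R →+* T}
  {s : n → F} {t : n' → F} {a a' b : F} {A : Matrix n' (n ⊕ n) R}

theorem sum_mem (hR : R ≤ ξ) (hs : ∀ i, s i ∈ ξ) (c : n → R) : ∑ i, c i • s i ∈ ξ :=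
  ξ.sum_mem fun i _ => ξ.mul_mem (hR (c i).2) (hs i)

theorem ev_sum (hR : R ≤ ξ) (he : ∀ r : R, evO ξ ρ r = algebraMap T M (e r))
    (hs : ∀ i, s i ∈ ξ) (c : n → R) :
    evO ξ ρ (∑ i, c i • s i) = ∑ i, e (c i) • evO ξ ρ (s i) := by
  have h : ∑ i, c i • s i = ((∑ i, (⟨c i, hR (c i).2⟩ : ξ) * ⟨s i, hs i⟩ : ξ) : F) := by
    rw [AddSubmonoidClass.coe_finsetSum]
    rfl
  rw [h, evO_coe, map_sum]
  refine Finset.sum_congr rfl fun i _ => ?_
  rw [map_mul, Algebra.smul_def, ← he, evO_of_mem ρ (hR (c i).2), evO_of_mem ρ (hs i)]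

theorem span_ev (hR : R ≤ ξ) (he : ∀ r : R, evO ξ ρ r = algebraMap T M (e r))
    (hs : ∀ i, s i ∈ ξ) :
    Submodule.span T (evO ξ ρ '' (Submodule.span R (Set.range s) : Submodule R F)) =
      Submodule.span T (Set.range fun i => evO ξ ρ (s i)) := by
  refine le_antisymm (Submodule.span_le.2 ?_) (Submodule.span_mono ?_)
  · rintro _ ⟨z, hz, rfl⟩
    obtain ⟨c, rfl⟩ := (Submodule.mem_span_range_iff_exists_fun R).1 hz
    rw [ev_sum hR he hs]
    exact sum_mem_span _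
  · rintro _ ⟨i, rfl⟩
    exact ⟨s i, Submodule.subset_span ⟨i, rfl⟩, rfl⟩

omit [Fintype n] in
theorem Dat.map (D : Dat s t a a' b A) (hR : R ≤ ξ)
    (he : ∀ r : R, evO ξ ρ r = algebraMap T M (e r)) (hs : ∀ i, s i ∈ ξ) (ht : ∀ i, t i ∈ ξ)
    (ha : IsU ξ a) (ha' : a' ∈ ξ) (hb : IsU ξ b)
    (is : LinearIndependent T fun i => evO ξ ρ (s i))
    (it : LinearIndependent T fun i => evO ξ ρ (t i)) :
    Dat (fun i => evO ξ ρ (s i)) (fun i => evO ξ ρ (t i)) (evO ξ ρ a) (evO ξ ρ a') (evO ξ ρ b)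
      (A.map e) where
  hs := is
  ht := it
  ha := evO_ne ρ ha
  hb := evO_ne ρ hb
  l i := by
    have := congrArg (evO ξ ρ) (D.l i)
    rwa [ev_sum hR he ht, evO_mul ρ (ξ.mul_mem ha' hb.mem) (hs i), evO_mul ρ ha' hb.mem] at this
  r i := by
    have := congrArg (evO ξ ρ) (D.r i)
    rwa [ev_sum hR he ht, evO_neg ρ (ξ.mul_mem (ξ.mul_mem ha.mem hb.mem) (hs i)),
      evO_mul ρ (ξ.mul_mem ha.mem hb.mem) (hs i), evO_mul ρ ha.mem hb.mem] at this

theorem ev_Phi (hR : R ≤ ξ) (he : ∀ r : R, evO ξ ρ r = algebraMap T M (e r))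
    (hs : ∀ i, s i ∈ ξ) (ha : IsU ξ a) (w : n ⊕ n → R) :
    evO ξ ρ (Phi R s a w) = Phi T (fun i => evO ξ ρ (s i)) (evO ξ ρ a) fun x => e (w x) := by
  rw [Phi_apply, Phi_apply, evO_div ρ (sum_mem hR hs _) ha, ev_sum hR he hs]

theorem exists_j {Ω E : Type} [Field Ω] [Field E] [Algebra k E] [Algebra Ω E] (μ : F →ₐ[k] E)
    (h : ∀ c ∈ R, μ c ∈ Set.range (algebraMap Ω E)) :
    ∃ j : R →+* Ω, ∀ r : R, μ r = algebraMap Ω E (j r) := by
  choose g hg using h
  have inj := (algebraMap Ω E).injective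
  exact ⟨{
    toFun r := g r r.2
    map_one' := inj (by simp [hg])
    map_mul' x y := inj (by simp [hg])
    map_zero' := inj (by simp [hg])
    map_add' x y := inj (by simp [hg]) }, fun r => (hg _ _).symm⟩

end red

end GraP

open GraP in
theorem gra_stmt : GraStmt := by
  intro gr1 k F M Ω E I J _ _ _ _ _ _ _ _ _ _ _ R H ξ ρ S μ S' N N' a a' b Z Z' ln gc hN hN' ha ha'
    hb hm hZ hZ'
  obtain ⟨n, σ, σm, rfl, σi⟩ := hN
  obtain ⟨n', τ, τm, rfl, τi⟩ := hN'
  obtain ⟨e, es, he⟩ := ln.res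
  obtain ⟨j, hj⟩ := exists_j μ gc.base
  have hR : R ≤ ξ := ln.fib.dom.1
  have := ln.loc
  have m : ∀ i, σ i ∈ Submodule.span R (Set.range σ) := fun i => Submodule.subset_span ⟨i, rfl⟩
  choose c hc using fun i => (Submodule.mem_span_range_iff_exists_fun R).1 (hm _ (m i)).2
  choose d hd using fun i => (Submodule.mem_span_range_iff_exists_fun R).1
    (Submodule.neg_mem _ (hm _ (m i)).1)
  let A : Matrix (Fin n') (Fin n ⊕ Fin n) R := fun l => Sum.elim (fun i => c i l) fun i => d i l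
  have D : Dat σ τ a a' b A := ⟨ln.ind _ _ σm σi, ln.ind _ _ τm τi, ha.1, hb.1, hc, hd⟩
  have Dk := D.map hR he σm τm ha ha' hb σi τi
  have eμ : evO ⊤ (μ.comp (⊤ : Subalgebra k F).val) = μ :=
    funext fun u => evO_of_mem _ Algebra.mem_top
  have hj' : ∀ r : R, evO ⊤ (μ.comp (⊤ : Subalgebra k F).val) r = algebraMap Ω E (j r) := by
    rwa [eμ]
  have DΩ := D.map (ξ := ⊤) le_top hj' (fun _ => Algebra.mem_top) (fun _ => Algebra.mem_top)
    ⟨ha.1, Algebra.mem_top, Algebra.mem_top⟩ Algebra.mem_top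
    ⟨hb.1, Algebra.mem_top, Algebra.mem_top⟩ (by rw [eμ]; exact gc.ld _ _ D.hs)
    (by rw [eμ]; exact gc.ld _ _ D.ht)
  have sΩ := span_ev (s := σ) (ξ := ⊤) le_top hj' fun _ => Algebra.mem_top
  rw [eμ] at DΩ sΩ
  rw [span_ev hR he σm] at hZ
  rw [sΩ] at hZ'
  subst hZ hZ'
  have ji : Function.Injective j := fun x y h =>
    Subtype.ext (μ.toRingHom.injective (show μ x = μ y by rw [hj, hj, h]))
  obtain ⟨g1, g2⟩ := gr1 k R Ω _ _ e j A es ji
  rw [Dk.equiv.finrank_eq, DΩ.equiv.finrank_eq] at g1 g2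
  refine ⟨DΩ.equiv.finiteDimensional, g1, fun h => ⟨fun s hs => ?_, fun W hW hs z hz => ?_⟩⟩
  · obtain ⟨v, hv, rfl⟩ := Dk.surj hs
    obtain ⟨w, hw, k1⟩ := (g2 h).1 v hv
    exact ⟨_, D.mem hw, by rw [ev_Phi hR he σm ha, funext k1]⟩
  · obtain ⟨w, hw, rfl⟩ := D.surj hz
    have k0 : ∀ w, A.mulVec w = 0 → (A.map e).mulVec (fun x => e (w x)) = 0 := fun w hw => by
      funext l
      have := RingHom.map_mulVec e A w l
      rw [hw] at this
      exact this.symm.trans (map_zero e)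
    have k1 := (g2 h).2 {w | A.mulVec w = 0 ∧ Phi R σ a w ∈ W} (fun w hw => hw.1)
      (fun v hv => ?_) w hw
    · have k2 := Submodule.mem_map_of_mem (f := Phi R σ a) k1
      rw [Submodule.map_span] at k2
      refine Submodule.span_mono ?_ k2
      rintro _ ⟨w, hw, rfl⟩
      exact hw.2
    · have k2 : Submodule.span k (evO ξ ρ '' W) ≤ (Submodule.span k ((fun w i => e (w i)) ''
          {w | A.mulVec w = 0 ∧ Phi R σ a w ∈ W})).map
            (Phi k (fun i => evO ξ ρ (σ i)) (evO ξ ρ a)) := by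
        refine Submodule.span_le.2 ?_
        rintro _ ⟨z, hz, rfl⟩
        obtain ⟨w, hw, rfl⟩ := D.surj (hW hz)
        exact ⟨_, Submodule.subset_span ⟨w, ⟨hw, hz⟩, rfl⟩, (ev_Phi hR he σm ha w).symm⟩
      obtain ⟨v', h1, h2⟩ := k2 (hs (Dk.mem hv))
      have k3 : v' ∈ LinearMap.ker (A.map e).mulVecLin := by
        refine Submodule.span_le.2 ?_ h1
        rintro _ ⟨w, hw, rfl⟩
        exact k0 w hw.1
      have k4 : v' - v = 0 := Dk.inj (Submodule.sub_mem _ k3
        (show v ∈ LinearMap.ker (A.map e).mulVecLin from hv)) (by rw [map_sub, h2, sub_self])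
      exact sub_eq_zero.1 k4 ▸ h1

end Pool.Agent.MP_e8e0b6_ag.R2
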