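import Pool.Agent.MP_e8e0b6_ag.R2.CSpec

/-! The hyperplane class of any projective embedding is ample. -/

set_option autoImplicit false

namespace Pool.Agent.MP_e8e0b6_ag.R2

open Pool.Agent.MP_79c67d_ag Pool.Agent.MP_20d318_ag.AG Pool.Agent.MP_20d318_ag.BV
open Pool.Agent.MP_20d318_ag.CB

theorem hcl_stmt : HclStmt := by
  intro k M I _ _ _ _ _ _ S H h μ s hT hG
  have e : ∀ a O, a / μ * S.lb h O = a / (μ / S.lb h O) := fun a O => by
    rw [div_div_eq_mul_div, div_mul_eq_mul_div]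
  have sec : ∀ a ∈ H, a / μ ∈ S.Sec h := fun a ha O hO => e a O ▸ (hG O hO).1 a ha
  have pos : ∀ c ∈ S.PP, 0 < S.i h c := by
    rintro c ⟨φ, P, hp⟩
    have hP : plO P ∈ S.T := hp.2.1
    obtain ⟨j, hj, hpt⟩ : plO P ∈ mp k (fun _ : Unit => H) := hT ▸ hP
    have hm : ∀ a ∈ H, a / j () ∈ plO P := fun a ha =>
      hpt.2.1 (Algebra.subset_adjoin (Set.mem_iUnion.2 ⟨(), a, ha, rfl⟩))
    obtain ⟨a, ha, hn⟩ : ∃ a ∈ H, ∀ l : k, a / j () - algebraMap k M l ∉ mx (plO P) := by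
      by_contra hc
      refine (s.a1.dim P hP).1 (ratPt_of hpt rfl fun g hg => ?_)
      obtain ⟨⟨⟩, a, ha, rfl⟩ := Set.mem_iUnion.1 hg
      by_contra k1
      exact hc ⟨a, ha, fun l hl => k1 ⟨l, hl⟩⟩
    have j0 : j () ≠ 0 := fun h0 => hn 0 (by
      rw [h0, div_zero, map_zero, sub_zero]
      exact zero_mem_mx)
    have u1 : IsU (plO P) (j () / μ * S.lb h (plO P)) :=
      e _ _ ▸ (gn_of_mem (hj ()) j0 hm).unit (hG _ hP)
    obtain ⟨n1, n2⟩ := s.a2.nn c φ P hp h _ (sec _ (hj ())) u1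
    refine lt_of_le_of_ne n1 fun h0 => ?_
    obtain ⟨ν, hν, -⟩ := s.a1.cur P hP
    obtain ⟨Q⟩ := exists_pl ν
    have hle : ν.pt Q ≤ plO P := hν ▸ ν.pt_le Q
    have u2 := n2.1 h0.symm _ (ν.pt_mem Q) hle
    have e2 : ∀ (l : k) O, (a / μ - l • (j () / μ)) * S.lb h O =
        (a / j () - algebraMap k M l) * (j () / μ * S.lb h O) := fun l O => by
      rw [Algebra.smul_def, ← mul_assoc, sub_mul (a / j ()), div_mul_div_cancel₀ j0]
    have m1 : a / j () ∈ ν.pt Q := by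
      have := u2.div_mem (sec a ha _ (ν.pt_mem Q))
      have e3 := e2 0 (ν.pt Q)
      rw [zero_smul, sub_zero, map_zero, sub_zero] at e3
      rwa [e3, mul_div_cancel_right₀ _ u2.1] at this
    obtain ⟨l, hl⟩ := pt_rat ν Q _ m1
    have u3 := (s.a2.nn c φ P hp h _ ((S.Sec h).sub_mem (sec a ha)
      ((S.Sec h).smul_mem l (sec _ (hj ())))) (e2 l _ ▸ (isU_of_not_mx
        ((plO P).sub_mem (hm a ha) ((plO P).algebraMap_mem l)) (hn l)).mul u1)).2.1 h0.symm _
      (ν.pt_mem Q) hle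
    rw [e2] at u3
    exact u3.not_mx (mx_mul_right hl u2.mem)
  refine ⟨pos, ?_⟩
  obtain ⟨a, ha, hu⟩ := (hG ⊤ s.a1.nice.toFine.top).2
  have ef := s.a2.eff1 h _ (sec a ha) (left_ne_zero_of_mul (e a ⊤ ▸ hu.1))
  have key : ∀ c ∈ S.Ef, c = 0 ∨ 0 < S.i h c := fun c hc => by
    induction hc using AddSubmonoid.closure_induction with
    | mem x hx => exact Or.inr (pos x hx)
    | zero => exact Or.inl rfl
    | add x y _ _ hx hy =>
      rcases hx with rfl | hx
      · rwa [zero_add]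
      · rcases hy with rfl | hy
        · exact Or.inr (by rwa [add_zero])
        · exact Or.inr (by rw [Sd.i, ip_add_right]; exact add_pos hx hy)
  refine (key h ef).resolve_left fun h0 => ?_
  have z : ∀ c : I → ℤ, c = 0 := fun c => s.s.span c fun c' hc' => by
    have := pos c' hc'
    rw [h0, Sd.i, ip_zero_left] at this
    exact absurd this (lt_irrefl _)
  have n := s.s.noe
  rw [z S.K, ip_zero_left] at n
  obtain ⟨i⟩ := Fintype.card_pos_iff.1 (by omega : 0 < Fintype.card I)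
  exact one_ne_zero (congrFun (z 1) i)

end Pool.Agent.MP_e8e0b6_ag.R2
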