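import Pool.Agent.MP_e8e0b6_ag.R2.SpecA

/-! The inverse of a finite set of functions on a locally factorial projective family. -/

set_option autoImplicit false

namespace Pool.Agent.MP_e8e0b6_ag.R2

open Pool.Agent.MP_79c67d_ag Pool.Agent.MP_20d318_ag Pool.Agent.MP_20d318_ag.AG
  Pool.Agent.MP_20d318_ag.BV Pool.Agent.MP_20d318_ag.CB

namespace InvA

variable {k F : Type} [Field k] [Field F] [Algebra k F] {A O : Subalgebra k F} {U : Set F}
  {b u : F}

/-- The functions that multiply `U` into `A`. -/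
def col (A : Subalgebra k F) (U : Set F) : Submodule A F where
  carrier := {b | ∀ u ∈ U, b * u ∈ A}
  add_mem' ha hb u hu := by rw [add_mul]; exact A.add_mem (ha u hu) (hb u hu)
  zero_mem' u _ := by rw [zero_mul]; exact A.zero_mem
  smul_mem' c b hb u hu := by
    change (c : F) * b * u ∈ A
    rw [mul_assoc]; exact A.mul_mem c.2 (hb u hu)

theorem fg (hA : IsNoetherianRing A) (hu : u ∈ U) (h0 : u ≠ 0) :
    ∃ G : Set F, G.Finite ∧ ∀ b, (∀ u ∈ U, b * u ∈ A) ↔ b ∈ Submodule.span A G := by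
  obtain ⟨G, hG, e⟩ := Submodule.fg_def.1 ((Submodule.fg_span_singleton (R := A) u⁻¹).of_le
    (S := col A U) fun b hb => Submodule.mem_span_singleton.2
      ⟨⟨b * u, hb u hu⟩, mul_inv_cancel_right₀ h0 b⟩)
  exact ⟨G, hG, fun b => by rw [e]; rfl⟩

theorem clear_den (h : O ∈ Pts A) (hU : U.Finite) (hb : ∀ u ∈ U, b * u ∈ O) :
    ∃ s ∈ A, IsU O s ∧ ∀ u ∈ U, s * b * u ∈ A := by
  induction U, hU using Set.Finite.induction_on with
  | empty => exact ⟨1, A.one_mem, isU_one, fun _ h => h.elim⟩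
  | @insert u U _ _ ih =>
    obtain ⟨s, hs, h1, h2⟩ := ih fun v hv => hb v (Or.inr hv)
    obtain ⟨p, hp, q, hq, h3, e⟩ := h.2.2 _ (hb u (Or.inl rfl))
    refine ⟨q * s, A.mul_mem hq hs, h3.mul h1, ?_⟩
    rintro v (rfl | hv)
    · rw [show q * s * b * v = s * (b * v * q) by ring, e, div_mul_cancel₀ _ h3.ne]
      exact A.mul_mem hs hp
    · rw [show q * s * b * v = q * (s * b * v) by ring]
      exact A.mul_mem hq (h2 v hv)

/-- The intersection of two principal fractional ideals of a factorial ring is principal. -/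
theorem inter (hF : Frac O) (hO : UniqueFactorizationMonoid O) {β β' : F} (h : β ≠ 0)
    (h' : β' ≠ 0) : ∃ γ : F, γ ≠ 0 ∧ ∀ b, b / β ∈ O ∧ b / β' ∈ O ↔ b / γ ∈ O := by
  obtain ⟨p, hp, q, hq, h0, e⟩ := hF (β / β')
  obtain ⟨q', p', c, hr, e1, e2⟩ := UniqueFactorizationMonoid.exists_reduced_factors
    (⟨q, hq⟩ : O) (fun e => h0 (congrArg Subtype.val e)) ⟨p, hp⟩
  have e3 : (c : F) * q' = q := congrArg Subtype.val e1
  have e4 : (c : F) * p' = p := congrArg Subtype.val e2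
  have c0 : (c : F) ≠ 0 := left_ne_zero_of_mul (e3 ▸ h0)
  have q0 : (q' : F) ≠ 0 := right_ne_zero_of_mul (e3 ▸ h0)
  have e5 : β * q' = β' * p' := by
    rw [← e3, ← e4, mul_div_mul_left _ _ c0, div_eq_div_iff h' q0] at e
    rw [e, mul_comm]
  have p0 : (p' : F) ≠ 0 := right_ne_zero_of_mul (e5 ▸ mul_ne_zero h q0)
  refine ⟨β * q', mul_ne_zero h q0, fun b => ⟨fun ⟨h1, h2⟩ => ?_, fun h1 => ⟨?_, ?_⟩⟩⟩
  · obtain ⟨z, hz⟩ : q' ∣ ⟨b / β, h1⟩ := hr.dvd_of_dvd_mul_right ⟨⟨b / β', h2⟩, Subtype.ext (by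
      change b / β * p' = q' * (b / β')
      rw [div_mul_eq_mul_div, mul_div_assoc', div_eq_div_iff h h']
      linear_combination -b * e5)⟩
    have e6 : b / β = q' * z := congrArg Subtype.val hz
    rw [← div_div, e6, mul_div_cancel_left₀ _ q0]
    exact z.2
  · have := O.mul_mem h1 q'.2
    rwa [← div_div, div_mul_cancel₀ _ q0] at this
  · have := O.mul_mem h1 p'.2
    rwa [e5, ← div_div, div_mul_cancel₀ _ p0] at this

theorem prin (hF : Frac O) (hO : UniqueFactorizationMonoid O) (hU : U.Finite) (hu : u ∈ U)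
    (h0 : u ≠ 0) : ∃ β : F, β ≠ 0 ∧ ∀ b, (∀ u ∈ U, b * u ∈ O) ↔ b / β ∈ O := by
  have key : ∀ V : Set F, V.Finite →
      ∃ β : F, β ≠ 0 ∧ ∀ b, (b * u ∈ O ∧ ∀ v ∈ V, b * v ∈ O) ↔ b / β ∈ O := fun V hV => by
    induction V, hV using Set.Finite.induction_on with
    | empty => exact ⟨u⁻¹, inv_ne_zero h0, fun b => by simp⟩
    | @insert v V _ _ ih =>
      obtain ⟨β, h1, h2⟩ := ih
      by_cases hv : v = 0
      · exact ⟨β, h1, fun b => by rw [← h2, hv]; simp⟩
      · obtain ⟨γ, h3, h4⟩ := inter hF hO h1 (inv_ne_zero hv)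
        refine ⟨γ, h3, fun b => ?_⟩
        rw [← h4, ← h2, div_inv_eq_mul, Set.forall_mem_insert]
        tauto
  obtain ⟨β, h1, h2⟩ := key U hU
  exact ⟨β, h1, fun b => by rw [← h2]; exact ⟨fun h => ⟨h u hu, h⟩, fun h => h.2⟩⟩

end InvA

open InvA in
theorem invA_stmt : InvAStmt := by
  rintro hx hf k F _ _ _ C H U fm hU ⟨u, hu, h0⟩
  have xb := hx k F C H fm
  choose! G hG hG' using fun j (hj : j ∈ H) => fg (xb.chn j hj) hu h0
  obtain ⟨N, hN⟩ : ∃ N : ℕ, ∀ j ∈ H, ∀ g ∈ G j, ∀ v ∈ U, g * v * j ^ N ∈ Fo C H N := by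
    refine Filter.Eventually.exists (f := Filter.atTop) ((Filter.eventually_all_finite fm.fin).2
      fun j hj => (Filter.eventually_all_finite (hG j hj)).2 fun g hg =>
        (Filter.eventually_all_finite hU).2 fun v hv => Filter.eventually_atTop.2 ?_)
    simpa only [Submodule.top_smul] using (hf C F H ⊤ fm.fin fm.nz).1 j hj (g * v) (by
      rw [Submodule.top_smul]
      exact mem_ch.1 ((hG' j hj g).2 (Submodule.subset_span hg) v hv))
  refine ⟨N, ⋃ j ∈ H, (fun g => g * j ^ N) '' G j, fm.fin.biUnion fun j hj => (hG j hj).image _,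
    fun O hO => ?_⟩
  obtain ⟨β, b0, hβ⟩ := prin (xb.frac O hO) (fm.ufd O hO) hU hu h0
  obtain ⟨j, hj, hO'⟩ := id hO
  have gj := ((xb.pts j hj O).1 hO').2
  have j0 : j ^ N ≠ 0 := pow_ne_zero _ gj.ne
  refine ⟨β * j ^ N, j, ?_, gj, fun b => by rw [mul_div_mul_right _ _ j0]; exact hβ b⟩
  refine Gn.of_span hO'.1 (gn_of_mem (S := {β * j ^ N}) rfl (mul_ne_zero b0 j0) (by
    rintro _ rfl
    rw [div_self (mul_ne_zero b0 j0)]; exact O.one_mem)) (fun a ha => ?_) ?_
  · obtain ⟨i, hi, g, hg, rfl⟩ := Set.mem_iUnion₂.1 ha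
    rw [mul_comm β, ← div_div]
    refine (hβ _).1 fun v hv => ?_
    rw [show g * i ^ N / j ^ N * v = g * v * i ^ N / j ^ N by ring]
    exact Fo.div_mem gj (xb.le O hO) (hN i hi g hg v hv)
  · rintro _ rfl
    obtain ⟨s, -, h1, h2⟩ := clear_den hO' hU ((hβ β).2 (by rw [div_self b0]; exact O.one_mem))
    have key : ∀ x ∈ Submodule.span (ch C H j) (G j), x * j ^ N ∈
        Submodule.span O (⋃ j ∈ H, (fun g => g * j ^ N) '' G j) := fun x hx => by
      induction hx using Submodule.span_induction with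
      | mem g hg => exact Submodule.subset_span (Set.mem_iUnion₂.2 ⟨j, hj, g, hg, rfl⟩)
      | zero => rw [zero_mul]; exact zero_mem _
      | add x y _ _ hx hy => rw [add_mul]; exact add_mem hx hy
      | smul c x _ hx =>
        change (c : F) * x * j ^ N ∈ _
        rw [mul_assoc]
        exact Submodule.smul_mem _ (⟨c, hO'.2.1 c.2⟩ : O) hx
    have := Submodule.smul_mem _ (⟨s⁻¹, h1.inv_mem⟩ : O) (key _ ((hG' j hj _).1 h2))
    rwa [show (⟨s⁻¹, h1.inv_mem⟩ : O) • (s * β * j ^ N) = β * j ^ N by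
      change s⁻¹ * (s * β * j ^ N) = _
      rw [mul_assoc, inv_mul_cancel_left₀ h1.ne]] at this

end Pool.Agent.MP_e8e0b6_ag.R2
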