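import Pool.Agent.MP_e8e0b6_ag.R2.SpecA

/-!
The degrees of the two fibres over the plane agree.
-/

set_option autoImplicit false

namespace Pool.Agent.MP_e8e0b6_ag.R2

open Pool.Agent.MP_79c67d_ag Pool.Agent.MP_20d318_ag Pool.Agent.MP_20d318_ag.AG
  Pool.Agent.MP_20d318_ag.BV Pool.Agent.MP_20d318_ag.CB
open scoped IntermediateField Pointwise

namespace Iso1

/-- A monomial in two elements. -/
def mo {A : Type} [CommRing A] (x y : A) (m : Fin 2 →₀ ℕ) : A := x ^ m 0 * y ^ m 1

theorem aeval_mo {k A : Type} [Field k] [CommRing A] [Algebra k A] (x y : A) (m : Fin 2 →₀ ℕ)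
    (c : k) : MvPolynomial.aeval ![x, y] (MvPolynomial.monomial m c) = c • mo x y m := by
  rw [MvPolynomial.aeval_monomial, Finsupp.prod_fintype _ _ (by simp), Fin.prod_univ_two,
    Algebra.smul_def, mo]
  rfl

theorem up {k M ι : Type} [Field k] [Field M] [Algebra k M] {x y : M}
    (h : AlgebraicIndependent k ![x, y]) {e : ι → M} (he : LinearIndependent k⟮x, y⟯ e) :
    LinearIndependent k fun p : (Fin 2 →₀ ℕ) × ι => mo x y p.1 * e p.2 := by
  have hx : x ∈ k⟮x, y⟯ := IntermediateField.subset_adjoin _ _ (by simp)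
  have hy : y ∈ k⟮x, y⟯ := IntermediateField.subset_adjoin _ _ (by simp)
  have h1 : LinearIndependent k (mo x y) := by
    have := (MvPolynomial.basisMonomials (Fin 2) k).linearIndependent.map'
      (MvPolynomial.aeval (R := k) ![x, y]).toLinearMap (LinearMap.ker_eq_bot.2 h)
    have e0 : (MvPolynomial.aeval (R := k) ![x, y]).toLinearMap ∘
        MvPolynomial.basisMonomials (Fin 2) k = mo x y := by
      funext m
      simp only [Function.comp, MvPolynomial.coe_basisMonomials, AlgHom.toLinearMap_apply]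
      rw [aeval_mo, one_smul]
    rwa [e0] at this
  have h2 : LinearIndependent k (mo (⟨x, hx⟩ : k⟮x, y⟯) ⟨y, hy⟩) := by
    exact LinearIndependent.of_comp (k⟮x, y⟯.val.toLinearMap) h1
  exact linearIndependent_smul h2 he

open scoped IntermediateField.algebraAdjoinAdjoin in
theorem down {Ω E ι : Type} [Field Ω] [Field E] [Algebra Ω E] [Fintype ι] {x y : E} {e : ι → E}
    (h : LinearIndependent Ω fun p : (Fin 2 →₀ ℕ) × ι => mo x y p.1 * e p.2) :
    LinearIndependent Ω⟮x, y⟯ e := by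
  classical
  refine (LinearIndependent.iff_fractionRing (Algebra.adjoin Ω ({x, y} : Set E)) Ω⟮x, y⟯).1 ?_
  refine Fintype.linearIndependent_iff.2 fun g hg i => ?_
  have hp : ∀ i, ∃ p : MvPolynomial (Fin 2) Ω, MvPolynomial.aeval ![x, y] p = (g i : E) := by
    intro i
    have h1 : (g i : E) ∈ Algebra.adjoin Ω (Set.range ![x, y]) := by
      simpa [Set.pair_comm] using (g i).2
    rwa [Algebra.adjoin_range_eq_range_aeval] at h1
  choose p hp using hp
  set T := Finset.univ.biUnion fun i => (p i).support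
  have hT : ∀ i, p i = ∑ m ∈ T, MvPolynomial.monomial m ((p i).coeff m) := fun i => by
    conv_lhs => rw [(p i).as_sum]
    refine Finset.sum_subset (Finset.subset_biUnion_of_mem (fun i => (p i).support)
      (Finset.mem_univ i)) fun m _ hm => ?_
    rw [MvPolynomial.notMem_support_iff.1 hm, map_zero]
  have h0 := linearIndependent_iff'.1 h (T ×ˢ Finset.univ) (fun q => (p q.2).coeff q.1) (by
    rw [Finset.sum_product_right, ← hg]
    refine Finset.sum_congr rfl fun j _ => ?_
    change _ = (g j : E) * e j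
    rw [← hp j]
    conv_rhs => rw [hT j, map_sum, Finset.sum_mul]
    refine Finset.sum_congr rfl fun m _ => ?_
    rw [aeval_mo, smul_mul_assoc])
  apply Subtype.ext
  change (g i : E) = 0
  rw [← hp i, hT i, map_sum]
  refine Finset.sum_eq_zero fun m hm => ?_
  rw [h0 (m, i) (Finset.mem_product.2 ⟨hm, Finset.mem_univ i⟩), map_zero, map_zero]

end Iso1

open Iso1 in
theorem iso1_stmt : Iso1Stmt := by
  intro k F M Ω E I J _ _ _ _ _ _ _ _ _ _ _ R H ξ ρ S μ S' x y ln gm hx hy hi hfd dl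
  let b := Module.finBasis k⟮evO ξ ρ x, evO ξ ρ y⟯ M
  choose e he using fun i => ln.surj (b i)
  have hev : ∀ i, evO ξ ρ (e i) = b i := fun i => (evO_coe ρ (e i)).trans (he i)
  have hmo : ∀ m, mo x y m ∈ ξ := fun m => ξ.mul_mem (ξ.pow_mem hx _) (ξ.pow_mem hy _)
  have h1 := gm.ld _ _ (ln.ind _ (fun p : (Fin 2 →₀ ℕ) × Fin _ => mo x y p.1 * e p.2)
    (fun p => ξ.mul_mem (hmo _) (e _).2) (by
      convert up hi b.linearIndependent using 2 with p
      rw [evO_mul ρ (hmo _) (e _).2, hev, mo, evO_mul ρ (ξ.pow_mem hx _) (ξ.pow_mem hy _),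
        evO_pow ρ hx, evO_pow ρ hy, mo]))
  have h2 : LinearIndependent Ω⟮μ x, μ y⟯ fun i => μ (e i) := down (by
    convert h1 using 2 with p
    simp only [mo, map_mul, map_pow])
  have hbase : ∀ c ∈ R, μ c ∈ Ω⟮μ x, μ y⟯ := fun c hc => by
    obtain ⟨a, ha⟩ := gm.base c hc
    exact ha ▸ IntermediateField.algebraMap_mem _ a
  let P : Subalgebra k F :=
    { carrier := {a | μ a ∈ Ω⟮μ x, μ y⟯}
      mul_mem' := fun {a b} ha hb => by
        change μ (a * b) ∈ Ω⟮μ x, μ y⟯
        rw [map_mul]; exact mul_mem ha hb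
      add_mem' := fun {a b} ha hb => by
        change μ (a + b) ∈ Ω⟮μ x, μ y⟯
        rw [map_add]; exact add_mem ha hb
      algebraMap_mem' := fun c => hbase _ (R.algebraMap_mem c) }
  have hP : pl R (x, y) ≤ P := sup_le hbase (Algebra.adjoin_le (by
    rintro a (rfl | rfl)
    · exact IntermediateField.subset_adjoin Ω _ (by simp)
    · exact IntermediateField.subset_adjoin Ω _ (by simp)))
  set N := Submodule.span Ω⟮μ x, μ y⟯ (Set.range fun i => μ (e i)) with hN
  have hξ : ∀ z ∈ ξ, μ z ∈ N := by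
    intro z hz
    have h3 := dl (Set.range fun i => (e i : F)) (Set.finite_range _)
      (by rintro _ ⟨i, rfl⟩; exact (e i).2) (by
        rw [← Set.range_comp, ← b.span_eq]
        congr 2
        exact funext hev) z hz
    clear hz
    induction h3 using Submodule.span_induction with
    | mem _ h => obtain ⟨i, rfl⟩ := h; exact Submodule.subset_span ⟨i, rfl⟩
    | zero => rw [map_zero]; exact N.zero_mem
    | add _ _ _ _ h h' => rw [map_add]; exact N.add_mem h h'
    | smul r w _ h =>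
      obtain ⟨r, a, ha, c, hc, -, rfl⟩ := r
      have h4 : μ (a / c) ∈ Ω⟮μ x, μ y⟯ := by
        rw [map_div₀]; exact div_mem (hP ha) (hP hc)
      have := N.smul_mem ⟨_, h4⟩ h
      change μ (a / c * w) ∈ N
      rw [map_mul]
      exact this
  have hmul : N * N ≤ N := by
    rw [hN, Submodule.span_mul_span, Submodule.span_le]
    rintro _ ⟨_, ⟨i, rfl⟩, _, ⟨j, rfl⟩, rfl⟩
    have := hξ _ (ξ.mul_mem (e i).2 (e j).2)
    rwa [map_mul] at this
  let B : Subalgebra Ω⟮μ x, μ y⟯ E := N.toSubalgebra (by simpa using hξ 1 ξ.one_mem)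
    fun a c ha hc => hmul (Submodule.mul_mem_mul ha hc)
  have hdiv : ∀ a ∈ B, ∀ c ∈ B, a / c ∈ B := fun a ha c hc => by
    rw [div_eq_mul_inv]
    exact B.mul_mem ha (B.inv_mem_of_algebraic (x := ⟨c, hc⟩) (IsIntegral.of_mem_of_fg B
      (Submodule.fg_span (Set.finite_range _)) c hc).isAlgebraic)
  have htop : ⊤ ≤ N := by
    intro f _
    have h5 := gm.mf.all.a1.nice.toFine.top
    rw [gm.eq] at h5
    obtain ⟨j, hj, -, -, h6⟩ := h5
    have h7 : cht Ω (fun _ : Unit => μ '' H) j ≤ B.restrictScalars Ω := Algebra.adjoin_le (by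
      intro z hz
      obtain ⟨l, _, ⟨a, ha, rfl⟩, rfl⟩ := Set.mem_iUnion.1 hz
      obtain ⟨c, hc, e⟩ := hj l
      exact hdiv _ (hξ a (ln.sub a ha)) _ (e ▸ hξ c (ln.sub c hc)))
    obtain ⟨a, ha, c, hc, -, rfl⟩ := h6 f trivial
    exact hdiv a (h7 ha) c (h7 hc)
  rw [Module.finrank_eq_card_basis (Module.Basis.mk h2 htop), Fintype.card_fin]

end Pool.Agent.MP_e8e0b6_ag.R2
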