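import Pool.Agent.MP_e8e0b6_ag.R2.SpecA

/-!
The squares of a positive globally generated line bundle on the two fibres agree.
-/

set_option autoImplicit false

namespace Pool.Agent.MP_e8e0b6_ag.R2

open Pool.Agent.MP_79c67d_ag Pool.Agent.MP_20d318_ag Pool.Agent.MP_20d318_ag.AG
  Pool.Agent.MP_20d318_ag.BV Pool.Agent.MP_20d318_ag.CB
open scoped IntermediateField Pointwise

namespace Iso2

variable {k F M I : Type} [Field k] [Field F] [Field M] [Algebra k F] [Algebra k M] [Fintype I]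
  {R ξ O : Subalgebra k F} {H V : Set F} {ρ : ξ →ₐ[k] M} {S : Sd k M I}
  {γ : Subalgebra k F → F} {d : I → ℤ}

theorem up {Ω E : Type} [Field Ω] [Field E] [Algebra k E] [Algebra Ω E] (μ : F →ₐ[k] E)
    {O' : Subalgebra Ω E} (hle : ∀ z ∈ O, μ z ∈ O') {b : F} (h : Gn V O b) :
    Gn (μ '' V) O' (μ b) := by
  obtain ⟨z, hz, hu⟩ := h.2
  refine ⟨?_, μ z, ⟨z, hz, rfl⟩, ?_⟩
  · rintro _ ⟨w, hw, rfl⟩
    rw [← map_div₀]
    exact hle _ (h.1 w hw)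
  · rw [← map_div₀]
    exact ⟨(_root_.map_ne_zero _).2 hu.ne, hle _ hu.mem, map_inv₀ μ _ ▸ hle _ hu.inv_mem⟩

/-- Generators can be tested on the closed fibre. -/
theorem gn_iff (ln : Ln R H ξ ρ S) (hb : Lb R H ξ ρ S d γ) (hO : O ∈ XX R H) (hd : Dom R O)
    (hV : ∀ a ∈ V, a ∈ ξ) (hm : ∀ a ∈ V, a / (γ O)⁻¹ ∈ O) :
    Gn V O (γ O)⁻¹ ↔ Gn (evO ξ ρ '' V) (red ξ ρ O) (S.lb d (red ξ ρ O))⁻¹ := by
  obtain ⟨u1, u2⟩ := hb O hO hd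
  have e : ∀ a ∈ V, evO ξ ρ a / (evO ξ ρ (γ O))⁻¹ = evO ξ ρ (a / (γ O)⁻¹) := fun a ha => by
    rw [evO_div ρ (hV a ha) u1.inv, evO_inv ρ u1]
  have m : ∀ a ∈ evO ξ ρ '' V, a / (evO ξ ρ (γ O))⁻¹ ∈ red ξ ρ O := by
    rintro _ ⟨a, ha, rfl⟩
    exact (ln.mem O (ln.fib.le O hO hd) _).2 ⟨_, hm a ha, (e a ha).symm⟩
  constructor
  · rintro ⟨-, a, ha, hu⟩
    refine Gn.of_unit ⟨m, _, ⟨a, ha, rfl⟩, ?_⟩ (by rwa [inv_div_inv])
    rw [e a ha]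
    exact (ln.isU O hO hd _ (hm a ha)).2 hu
  · intro h
    obtain ⟨-, _, ⟨a, ha, rfl⟩, hu⟩ := h.of_unit (γ' := (evO ξ ρ (γ O))⁻¹)
      (by rw [inv_div_inv, ← inv_div]; exact u2.inv)
    rw [e a ha] at hu
    exact ⟨hm, a, ha, (ln.isU O hO hd _ (hm a ha)).1 hu⟩

/-- Linear combinations lift. -/
theorem lift (hV : ∀ a ∈ V, a ∈ ξ) {b : M} (hb : b ∈ Submodule.span k (evO ξ ρ '' V)) :
    ∃ a ∈ ξ, evO ξ ρ a = b ∧ ∀ (O : Subalgebra k F) (g : F), (∀ u ∈ V, u / g ∈ O) → a / g ∈ O := by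
  induction hb using Submodule.span_induction with
  | mem x hx =>
    obtain ⟨a, ha, rfl⟩ := hx
    exact ⟨a, hV a ha, rfl, fun _ _ h => h a ha⟩
  | zero => exact ⟨0, ξ.zero_mem, evO_zero ρ, fun O _ _ => by simp⟩
  | add x y _ _ hx hy =>
    obtain ⟨a, ha, rfl, h1⟩ := hx
    obtain ⟨b, hb, rfl, h2⟩ := hy
    exact ⟨a + b, ξ.add_mem ha hb, evO_add ρ ha hb, fun O g h => by
      rw [add_div]; exact O.add_mem (h1 O g h) (h2 O g h)⟩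
  | smul c x _ hx =>
    obtain ⟨a, ha, rfl, h1⟩ := hx
    exact ⟨algebraMap k F c * a, ξ.mul_mem (ξ.algebraMap_mem c) ha, by
      rw [evO_mul ρ (ξ.algebraMap_mem c) ha, evO_const, Algebra.smul_def], fun O g h => by
      rw [mul_div_assoc]; exact O.mul_mem (O.algebraMap_mem c) (h1 O g h)⟩

theorem hv {a₀ a₁ a₂ : F} (h0 : a₀ ≠ 0) (h : ∀ O ∈ XX R H, Prin {a₀, a₁, a₂} O) :
    Hv R H (a₁ / a₀) (a₂ / a₀) := by
  intro O hO _ V _ hV hI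
  have h1 : IsU V (a₁ / a₀) := by simpa using hI.2 (MvPolynomial.X 0) (MvPolynomial.X_ne_zero _)
  have h2 : IsU V (a₂ / a₀) := by simpa using hI.2 (MvPolynomial.X 1) (MvPolynomial.X_ne_zero _)
  obtain ⟨g, hg, hn⟩ := (h O hO).exists_mem
  have hu : IsU O (a₀ / g) := hV.2 _ (hn.1 _ (by simp)) (by
    rcases hg with rfl | rfl | rfl
    · rw [div_self h0]; exact isU_one
    · rw [← inv_div]; exact h1.inv
    · rw [← inv_div]; exact h2.inv)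
  exact ⟨div_div_div_cancel_right₀ hn.ne a₁ a₀ ▸ hu.div_mem (hn.1 _ (by simp)),
    div_div_div_cancel_right₀ hn.ne a₂ a₀ ▸ hu.div_mem (hn.1 _ (by simp))⟩

end Iso2

open Iso2 in
theorem iso2_stmt : Iso2Stmt := by
  intro h3 hdeg hdel h1 k F M Ω E I J _ _ _ _ _ _ _ _ _ _ _ _ _ _ _ R H ξ ρ S μ S' γ c d tw
    ⟨hD, ⟨φ, φ0, hg⟩, hb⟩ gg
  obtain ⟨pc, pd, U, -, hU⟩ := gg trivial
  have ln := tw.ln
  have hξ : ∀ a ∈ U, a ∈ ξ := fun a ha => by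
    have u := (hb ξ ln.fib.mem ln.fib.dom).1
    have := u.div_mem ((hU ξ ln.fib.mem).1 a ha)
    rwa [div_inv_eq_mul, mul_div_cancel_right₀ _ u.ne] at this
  obtain ⟨b₀, m0, b₁, m1, b₂, m2, n0, hn⟩ := h3 k M I S d (evO ξ ρ '' U) ln.mf.all fun O' hO' => by
    obtain ⟨O, ⟨hO, hd⟩, rfl⟩ := ln.eq ▸ hO'
    exact (gn_iff ln hb hO hd hξ (hU O hO).1).1 (hU O hO)
  obtain ⟨a₀, x0, rfl, y0⟩ := lift hξ m0
  obtain ⟨a₁, x1, rfl, y1⟩ := lift hξ m1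
  obtain ⟨a₂, x2, rfl, y2⟩ := lift hξ m2
  have u0 : IsU ξ a₀ := isU_of_not_mx x0 fun h => n0 ((ln.lh.eq_zero_iff x0).2 h)
  have ga : ∀ O ∈ XX R H, Gn {a₀, a₁, a₂} O (γ O)⁻¹ := fun O hO => by
    obtain ⟨O₁, hO₁, hd, hle⟩ := ln.spc O hO
    refine (((gn_iff ln hb hO₁ hd ?_ ?_).2 ?_).mono hle).of_unit ?_
    · rintro _ (rfl | rfl | rfl) <;> assumption
    · rintro _ (rfl | rfl | rfl)
      exacts [y0 _ _ (hU _ hO₁).1, y1 _ _ (hU _ hO₁).1, y2 _ _ (hU _ hO₁).1]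
    · rw [Set.image_insert_eq, Set.image_pair]
      exact hn _ (ln.eq ▸ ⟨O₁, ⟨hO₁, hd⟩, rfl⟩)
    · rw [inv_div_inv]
      exact hD.cmp hO₁ hO hle
  obtain ⟨i1, i2, i3⟩ := hdeg k M I S d _ _ _ ln.mf.all ⟨hn, n0, pd⟩
  obtain ⟨-, -, i4⟩ := hdeg Ω E J S' c (φ * μ a₀) (φ * μ a₁) (φ * μ a₂) tw.gm.mf.all
    ⟨fun O' hO' => by
      obtain ⟨O, hO, e⟩ := tw.gm.bg O' hO'
      have := (up μ (fun z hz => (e z).1 hz) (ga O hO)).smul φ0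
      rw [Set.image_insert_eq, Set.image_pair, Set.image_insert_eq, Set.image_pair] at this
      refine this.of_unit ?_
      convert hg O' hO' O hO fun z hz => (e z).1 hz using 1
      rw [map_inv₀]
      field_simp, mul_ne_zero φ0 ((_root_.map_ne_zero _).2 u0.ne), pc⟩
  rw [mul_div_mul_left _ _ φ0, mul_div_mul_left _ _ φ0, ← map_div₀, ← map_div₀] at i4
  rw [← evO_div ρ x1 u0, ← evO_div ρ x2 u0] at i1 i2 i3
  rw [← i3, ← i4, h1 k F M Ω E I J R H ξ ρ S μ S' _ _ ln tw.gm (u0.div_mem x1) (u0.div_mem x2) i1 i2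
    (hdel k F M I R H ξ ρ S _ _ ln (u0.div_mem x1) (u0.div_mem x2) i1
      (hv u0.ne fun O hO => (ga O hO).prin))]

end Pool.Agent.MP_e8e0b6_ag.R2
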