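import Pool.Agent.MP_e8e0b6_ag.R2.SpecA

/-!
Squares of classes agree on the two fibres: reduction to positive generated line bundles.
-/

set_option autoImplicit false

namespace Pool.Agent.MP_e8e0b6_ag.R2

open Pool.Agent.MP_79c67d_ag Pool.Agent.MP_20d318_ag Pool.Agent.MP_20d318_ag.AG
  Pool.Agent.MP_20d318_ag.BV Pool.Agent.MP_20d318_ag.CB
open scoped Pointwise

namespace Iso3A

theorem gg_of {k M I : Type} [Field k] [Field M] [Algebra k M] [Fintype I] {S : Sd k M I}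
    {U : Set M} {c : I → ℤ} (hU : U.Finite) (h : ∀ O ∈ S.T, Gn U O (S.lb c O)⁻¹) : S.GG c :=
  ⟨U \ {0}, hU.subset Set.sdiff_subset, fun _ ha => ha.2, fun O hO =>
    ⟨fun a ha => (h O hO).1 a ha.1, (h O hO).2.imp fun _ ha =>
      ⟨⟨ha.1, (div_ne_zero_iff.1 ha.2.1).1⟩, ha.2⟩⟩⟩

theorem fin_pow {F : Type} [Field F] {H : Set F} (h : H.Finite) (n : ℕ) : (H ^ n).Finite := by
  induction n with
  | zero => rw [pow_zero]; exact Set.finite_one
  | succ n ih => rw [pow_succ]; exact ih.mul h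

variable {k F M Ω E I J : Type} [Field k] [Field F] [Field M] [Field Ω] [Field E] [Algebra k F]
  [Algebra k M] [Algebra k E] [Algebra Ω E] [Fintype I] [Fintype J] {R : Subalgebra k F}
  {H : Set F} {ξ : Subalgebra k F} {ρ : ξ →ₐ[k] M} {S : Sd k M I} {μ : F →ₐ[k] E} {S' : Sd Ω E J}
  {γ η : Subalgebra k F → F} {U : Set F} {c h' : J → ℤ} {d h : I → ℤ}

theorem ggg (t : Gm R H μ S') (h1 : Lg (XX R H) μ S' c γ) (hU : U.Finite)
    (h2 : ∀ O ∈ XX R H, Gn U O (γ O)⁻¹) : S'.GG c := by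
  obtain ⟨φ, h0, h1⟩ := h1
  refine gg_of ((hU.image μ).image fun a => φ * a) fun O' hO' => ?_
  obtain ⟨O, hO, e⟩ := t.bg O' hO'
  have u := h1 O' hO' O hO fun a => (e a).1
  have g := h2 O hO
  have g1 : Gn (μ '' U) O' (μ (γ O)⁻¹) := by
    refine ⟨?_, ?_⟩
    · rintro _ ⟨a, ha, rfl⟩
      rw [← map_div₀]
      exact (e _).1 (g.1 a ha)
    · obtain ⟨a, ha, v⟩ := g.2
      refine ⟨_, ⟨a, ha, rfl⟩, ?_⟩
      rw [← map_div₀]
      exact ⟨(map_ne_zero μ).2 v.1, (e _).1 v.2.1, by rw [← map_inv₀]; exact (e _).1 v.2.2⟩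
  have g2 := (g1.of_unit (γ' := (φ * S'.lb c O')⁻¹) (by
    rwa [map_inv₀, inv_div_inv])).smul h0
  rwa [mul_inv, mul_inv_cancel_left₀ h0] at g2

theorem ggb (t : Ln R H ξ ρ S) (h1 : Lb R H ξ ρ S d γ) (hU : U.Finite)
    (h2 : ∀ O ∈ XX R H, Gn U O (γ O)⁻¹) : S.GG d := by
  refine gg_of (hU.image (evO ξ ρ)) fun O'' hO'' => ?_
  rw [t.eq] at hO''
  obtain ⟨O, ⟨hO, hd⟩, rfl⟩ := hO''
  obtain ⟨u, v⟩ := h1 O hO hd
  have hle := t.fib.le O hO hd
  have g := h2 O hO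
  have e : ∀ a ∈ U, evO ξ ρ a / (S.lb d (red ξ ρ O))⁻¹ =
      evO ξ ρ (a / (γ O)⁻¹) / (evO ξ ρ (γ O) / S.lb d (red ξ ρ O)) := fun a ha => by
    have ha' : a ∈ ξ := by
      have := ξ.mul_mem (hle (g.1 a ha)) u.inv_mem
      rwa [div_mul_cancel₀ _ g.ne] at this
    have := evO_ne ρ u
    rw [evO_div ρ ha' u.inv, evO_inv ρ u]
    field_simp
  refine ⟨?_, ?_⟩
  · rintro _ ⟨a, ha, rfl⟩
    rw [e a ha]
    exact v.div_mem ((t.mem O hle _).2 ⟨_, g.1 a ha, rfl⟩)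
  · obtain ⟨a, ha, w⟩ := g.2
    refine ⟨_, ⟨a, ha, rfl⟩, ?_⟩
    rw [e a ha]
    exact ((t.isU O hO hd _ w.mem).2 w).div v

theorem pr_tw (t : Tw R H ξ ρ S μ S') (p : Pr R H ξ ρ S μ S' γ c d) (q : Pr R H ξ ρ S μ S' η h' h)
    (n : ℕ) : Pr R H ξ ρ S μ S' (γ * η ^ n) (c + n • h') (d + n • h) := by
  induction n with
  | zero => simpa using p
  | succ n ih =>
    rw [pow_succ, ← mul_assoc, succ_nsmul, succ_nsmul, ← add_assoc, ← add_assoc]
    exact ⟨ih.1.mul q.1, t.lg.mul _ _ _ _ ih.2.1 q.2.1, t.lb.mul _ _ _ _ ih.2.2 q.2.2⟩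

end Iso3A

open Iso3A in
theorem iso3_stmt : Iso3Stmt := by
  intro gen iso k F M Ω E I J _ _ _ _ _ _ _ _ _ _ _ _ _ _ _ R H ξ ρ S μ S' γ c d t p _
  obtain ⟨u, h', h, hu, q, a', a⟩ := t.hyp
  obtain ⟨m, W, hW, g⟩ := gen k F R H γ⁻¹ t.ln.xb p.1.inv
  have key : ∀ s : ℕ, ∃ U : Set F, U.Finite ∧ ∀ O ∈ XX R H,
      Gn U O ((γ * (fun O => u * (gn H O)⁻¹) ^ (m + s) : Subalgebra k F → F) O)⁻¹ := by
    intro s
    refine ⟨(fun x => (u ^ (m + s))⁻¹ * x) '' (W * H ^ s),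
      (hW.mul (fin_pow t.ln.fm.fin s)).image _, fun O hO => ?_⟩
    have j := gn_spec (t.ln.xb.sys.2 O hO)
    convert (gn_mul (g O hO _ j) (gn_pow j s)).smul (inv_ne_zero (pow_ne_zero (m + s) hu.1))
      using 1
    simp only [Pi.mul_apply, Pi.pow_apply, Pi.inv_apply, mul_pow, mul_inv, inv_pow, inv_inv,
      pow_add]
    ring
  obtain ⟨U, hU, gU⟩ := key 0
  have n1 := t.gm.mf.all.a2.gg _ (ggg t.gm (pr_tw t p q (m + 0)).2.1 hU gU)
  have n2 := t.ln.mf.all.a2.gg _ (ggb t.ln (pr_tw t p q (m + 0)).2.2 hU gU)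
  have e : ∀ s : ℕ, S.i (d + (m + (s + 1)) • h) (d + (m + (s + 1)) • h) =
      S'.i (c + (m + (s + 1)) • h') (c + (m + (s + 1)) • h') := fun s =>
    iso k F M Ω E I J R H ξ ρ S μ S' _ _ _ t (pr_tw t p q (m + (s + 1))) fun _ =>
      ⟨fun x hx => by
        have b1 := n1 x hx
        have b2 := a'.pos x hx
        simp only [Sd.i, ip_add_left, ip_nsmul_left] at b1 b2 ⊢
        push_cast at b1 ⊢
        nlinarith [mul_nonneg (Int.natCast_nonneg s) b2.le], fun x hx => by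
        have b1 := n2 x hx
        have b2 := a.pos x hx
        simp only [Sd.i, ip_add_left, ip_nsmul_left] at b1 b2 ⊢
        push_cast at b1 ⊢
        nlinarith [mul_nonneg (Int.natCast_nonneg s) b2.le], key _⟩
  have e0 := e 0
  have e1 := e 1
  have e2 := e 2
  simp only [Sd.i, ip_add_left, ip_add_right, ip_nsmul_left, ip_nsmul_right] at e0 e1 e2 ⊢
  push_cast at e0 e1 e2
  have h2 : 2 * ip S.B d d = 2 * ip S'.B c c := by
    linear_combination ((m : ℤ) + 2) * (m + 3) * e0 - 2 * ((m : ℤ) + 1) * (m + 3) * e1 +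
      ((m : ℤ) + 1) * (m + 2) * e2
  omega

end Pool.Agent.MP_e8e0b6_ag.R2
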