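import Pool.Agent.MP_e8e0b6_ag.R2.CSpec

/-! Row LAT: a group of pairs of classes with equal squares is the graph of an isometry. -/

set_option autoImplicit false

namespace Pool.Agent.MP_e8e0b6_ag.R2

open Pool.Agent.MP_79c67d_ag Pool.Agent.MP_20d318_ag.AG Pool.Agent.MP_20d318_ag.BV
open Pool.Agent.MP_20d318_ag.CB

namespace Lat

theorem nd {I : Type} [Fintype I] {B : I → I → ℤ} (h : Hg B) {c : I → ℤ}
    (hc : ∀ y, ip B c y = 0) : c = 0 :=
  toR_inj ((h.nd (toR c) fun y => by rw [ip_toR, hc y, Int.cast_zero]).trans toR_zero.symm)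

theorem main {J I : Type} [Fintype J] [Fintype I] {B' : J → J → ℤ} {B : I → I → ℤ}
    (Γ : AddSubgroup ((J → ℤ) × (I → ℤ))) (s' : ∀ i j, B' i j = B' j i) (s : ∀ i j, B i j = B j i)
    (g' : Hg B') (g : Hg B) (uni : ∀ d : (J → ℤ) →+ ℤ, ∃ z : J → ℤ, ∀ c, ip B' c z = d c)
    (A : J → ℤ) (hA : 0 < ip B' A A) (h1 : ∀ c', ∃ c, (c', c) ∈ Γ)
    (h2 : ∀ p ∈ Γ, ip B p.2 p.2 = ip B' p.1 p.1) :
    ∃ β : (J → ℤ) →+ (I → ℤ), (∀ p ∈ Γ, β p.1 = p.2) ∧ (∀ c c', ip B (β c) (β c') = ip B' c c') ∧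
      Function.Injective β ∧ (Fintype.card J = Fintype.card I → Function.Surjective β) := by
  have pol : ∀ p ∈ Γ, ∀ q ∈ Γ, ip B p.2 q.2 = ip B' p.1 q.1 := fun p hp q hq => by
    have e := h2 _ (Γ.add_mem hp hq)
    simp only [Prod.fst_add, Prod.snd_add, ip_add_left, ip_add_right] at e
    have e1 := h2 p hp
    have e2 := h2 q hq
    have e3 := ip_comm s p.2 q.2
    have e4 := ip_comm s' p.1 q.1
    omega
  have ker : ∀ d, ((0 : J → ℤ), d) ∈ Γ → d = 0 := fun d hd => by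
    obtain ⟨a, ha⟩ := h1 A
    have e1 : ip B a a = ip B' A A := h2 _ ha
    have e2 : ip B d a = 0 := (pol _ hd _ ha).trans (ip_zero_left _)
    have e3 : ip B d d = 0 := (h2 _ hd).trans (ip_zero_left _)
    by_contra h0
    have := g.neg (toR a) (toR d) (by rw [ip_toR, e1]; exact_mod_cast hA)
      (by rw [ip_toR, e2, Int.cast_zero]) fun h => h0 (toR_inj (h.trans toR_zero.symm))
    rw [ip_toR, e3, Int.cast_zero] at this
    exact lt_irrefl _ this
  choose b hb using h1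
  have uq : ∀ p ∈ Γ, b p.1 = p.2 := fun p hp => by
    have := Γ.sub_mem (hb p.1) hp
    rw [show ((p.1, b p.1) - p : (J → ℤ) × (I → ℤ)) = (0, b p.1 - p.2) from
      Prod.ext (sub_self _) rfl] at this
    exact sub_eq_zero.1 (ker _ this)
  let β : (J → ℤ) →+ (I → ℤ) := AddMonoidHom.mk' b fun c c' => uq _ (Γ.add_mem (hb c) (hb c'))
  have iso : ∀ c c', ip B (β c) (β c') = ip B' c c' := fun c c' => pol _ (hb c) _ (hb c')
  have inj : Function.Injective β := (injective_iff_map_eq_zero β).2 fun c hc =>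
    nd g' fun y => by rw [← iso, hc, ip_zero_left]
  refine ⟨β, uq, iso, inj, fun hc c => ?_⟩
  obtain ⟨z, hz⟩ := uni (AddMonoidHom.mk' (fun c' => ip B (β c') c) fun u v => by
    rw [map_add, ip_add_left])
  refine ⟨z, (sub_eq_zero.1 (nd g fun y => ?_))⟩
  have hr : Module.finrank ℤ (LinearMap.range β.toIntLinearMap) = Module.finrank ℤ (I → ℤ) := by
    rw [LinearMap.finrank_range_of_inj inj, Module.finrank_fintype_fun_eq_card,
      Module.finrank_fintype_fun_eq_card, hc]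
  have ht : Module.IsTorsion ℤ ((I → ℤ) ⧸ LinearMap.range β.toIntLinearMap) := by
    rw [← Module.finrank_eq_zero_iff_isTorsion]
    have := Submodule.finrank_quotient_add_finrank (LinearMap.range β.toIntLinearMap)
    omega
  obtain ⟨n, hn⟩ := @ht (Submodule.Quotient.mk y)
  rw [Submonoid.smul_def, ← Submodule.Quotient.mk_smul, Submodule.Quotient.mk_eq_zero] at hn
  obtain ⟨w, hw⟩ := hn
  have e : ip B (β z - c) ((n : ℤ) • y) = 0 := by
    rw [← hw, ip_sub_left, ip_comm s c]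
    have e1 : ip B' w z = ip B (β w) c := hz w
    have e2 : ip B (β z) (β w) = ip B' z w := iso z w
    exact sub_eq_zero.2 (e2.trans ((ip_comm s' z w).trans e1))
  rw [ip_smul_right] at e
  exact (mul_eq_zero.1 e).resolve_left (nonZeroDivisors.coe_ne_zero n)

end Lat

theorem lat_stmt : LatStmt := by
  intro Ω N J k M I _ _ _ _ _ _ _ _ S' S Γ a' a g' g l h1 h2 hK
  obtain ⟨β, b1, b2, b3, b4⟩ := Lat.main Γ a'.s.sym a.s.sym g' g l.uni S'.A l.AA h1 h2
  have e : ip S.B S.K S.K = ip S'.B S'.K S'.K := h2 _ hK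
  have e1 := a'.s.noe
  have e2 := a.s.noe
  exact ⟨AddEquiv.ofBijective β ⟨b3, b4 (by omega)⟩, b1, b2⟩

end Pool.Agent.MP_e8e0b6_ag.R2
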