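import Pool.Agent.MP_e8e0b6_ag.R2.SpecA

/-!
The group laws for the restriction of line bundles to the closed fibre.
-/

set_option autoImplicit false

namespace Pool.Agent.MP_e8e0b6_ag.R2

open Pool.Agent.MP_79c67d_ag Pool.Agent.MP_20d318_ag Pool.Agent.MP_20d318_ag.AG
  Pool.Agent.MP_20d318_ag.BV Pool.Agent.MP_20d318_ag.CB

namespace Lwb

variable {k F M I : Type} [Field k] [Field F] [Field M] [Algebra k F] [Algebra k M] [Fintype I]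
  {R : Subalgebra k F} {H : Set F} {ξ : Subalgebra k F} {ρ : ξ →ₐ[k] M} {S : Sd k M I}

theorem memT (L : Ln R H ξ ρ S) {O : Subalgebra k F} (hO : O ∈ XX R H) (hd : Dom R O) :
    red ξ ρ O ∈ S.T := L.eq ▸ ⟨O, ⟨hO, hd⟩, rfl⟩

/-- The class of the restriction of a system. -/
theorem cls (L : Ln R H ξ ρ S) {U : Set F} (hU : Sys (XX R H) U) : ∃ (a₀ : F) (c : I → ℤ) (φ : M),
    φ ≠ 0 ∧ ∀ O ∈ XX R H, Dom R O → ∀ a, Gn U O a → IsU ξ (a / a₀) ∧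
      IsU (red ξ ρ O) (φ * S.lb c (red ξ ρ O) / evO ξ ρ (a / a₀)) := by
  obtain ⟨a₀, g₀⟩ := hU.2 ξ L.fib.mem
  have key : ∀ O ∈ XX R H, Dom R O → ∀ a, Gn U O a → IsU ξ (a / a₀) ∧
      Gn ((fun u => evO ξ ρ (u / a₀)) '' U) (red ξ ρ O) (evO ξ ρ (a / a₀)) := by
    intro O hO hd a g
    have hle : O ≤ ξ := L.fib.le O hO hd
    have u0 : IsU ξ (a / a₀) := (g.mono hle).unit g₀
    have e : ∀ u ∈ U, evO ξ ρ (u / a₀) / evO ξ ρ (a / a₀) = evO ξ ρ (u / a) := fun u hu => by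
      rw [← evO_div ρ (g₀.1 u hu) u0, div_div_div_cancel_right₀ g₀.ne]
    obtain ⟨b, hb, ub⟩ := g.2
    refine ⟨u0, ?_, _, ⟨b, hb, rfl⟩, ?_⟩
    · rintro _ ⟨u, hu, rfl⟩
      exact (L.mem O hle _).2 ⟨_, g.1 u hu, (e u hu).symm⟩
    · rw [e b hb]
      exact (L.isU O hO hd _ ub.2.1).2 ub
  obtain ⟨c, φ, h0, h⟩ := L.mf.all.a2.pic (gn ((fun u => evO ξ ρ (u / a₀)) '' U))
    (isCart_of_gn (hU.1.image _) fun O' hO' => by
      rw [L.eq] at hO'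
      obtain ⟨O, ⟨hO, hd⟩, rfl⟩ := hO'
      obtain ⟨a, g⟩ := hU.2 O hO
      exact gn_spec (key O hO hd a g).2.prin)
  refine ⟨a₀, c, φ, h0, fun O hO hd a g => ⟨(key O hO hd a g).1, ?_⟩⟩
  have g' := (key O hO hd a g).2
  have := (h _ (memT L hO hd)).mul ((gn_spec g'.prin).unit g')
  rwa [div_mul_div_cancel₀ (gn_spec g'.prin).ne] at this

end Lwb

open Lwb in
theorem lwb_stmt : LwbStmt := by
  intro hc k F M I _ _ _ _ _ _ _ _ R H ξ ρ S L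
  have ne := fun O hO hd => L.mf.all.a1.gne _ (memT (O := O) L hO hd)
  refine ⟨fun O hO hd => ?_, fun γ γ' d d' h h' O hO hd => ?_, fun γ d h O hO hd => ?_,
    fun γ ⟨U, V, hU, hV, h⟩ => ?_, fun u d h => ?_⟩
  · rw [Pi.one_apply, evO_one, Sd.lb_zero, div_one]
    exact ⟨isU_one, isU_one⟩
  · obtain ⟨u1, u2⟩ := h O hO hd
    obtain ⟨u3, u4⟩ := h' O hO hd
    rw [Pi.mul_apply, evO_mul ρ u1.2.1 u3.2.1, S.lb_add (ne O hO hd), mul_div_mul_comm]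
    exact ⟨u1.mul u3, u2.mul u4⟩
  · obtain ⟨u1, u2⟩ := h O hO hd
    rw [Pi.inv_apply, evO_inv ρ u1, S.lb_neg, inv_div_inv, ← inv_div]
    exact ⟨u1.inv, u2.inv⟩
  · obtain ⟨a₀, c, φ, h0, h1⟩ := cls L hU
    obtain ⟨b₀, c', φ', h0', h2⟩ := cls L hV
    obtain ⟨w, hw⟩ := L.surj (φ / φ')
    have uw : IsU ξ w := L.lh w (by rw [hw]; exact div_ne_zero h0 h0')
    rw [← evO_coe] at hw
    obtain ⟨a₁, b₁, g1, g2, -⟩ := h ξ L.fib.mem
    have n1 : a₀ ≠ 0 := (div_ne_zero_iff.1 (h1 ξ L.fib.mem L.fib.dom _ g1).1.1).2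
    have n2 : b₀ ≠ 0 := (div_ne_zero_iff.1 (h2 ξ L.fib.mem L.fib.dom _ g2).1.1).2
    refine ⟨w * (a₀ / b₀), mul_ne_zero uw.1 (div_ne_zero n1 n2), c' - c, fun O hO hd => ?_⟩
    obtain ⟨a, b, g3, g4, u⟩ := h O hO
    obtain ⟨u1, u2⟩ := h1 O hO hd a g3
    obtain ⟨u3, u4⟩ := h2 O hO hd b g4
    have u5 := u.mono (L.fib.le O hO hd)
    have e : (w : F) * (a₀ / b₀) * γ O = w * (γ O * a / b) * (b / b₀) / (a / a₀) := by
      have := g3.ne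
      have := g4.ne
      field_simp
    dsimp only
    rw [e, evO_div ρ ((uw.mul u5).mul u3).2.1 u1, evO_mul ρ (uw.mul u5).2.1 u3.2.1,
      evO_mul ρ uw.2.1 u5.2.1, hw, S.lb_sub (ne O hO hd)]
    refine ⟨((uw.mul u5).mul u3).div u1, ?_⟩
    convert (((L.isU O hO hd _ u.2.1).2 u).mul u2).div u4 using 1
    have := evO_ne ρ u1
    have := evO_ne ρ u3
    have := S.lb_ne (ne O hO hd) c
    have := S.lb_ne (ne O hO hd) c'
    field_simp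
  · have g := fun O hO hd => L.gnU O hO hd _ (gn_spec (L.xb.sys.2 O hO))
    have uu : IsU ξ u := by
      have u1 := (g ξ L.fib.mem L.fib.dom).1
      simpa [u1.1] using (h ξ L.fib.mem L.fib.dom).1.mul u1
    refine ⟨uu, hc k M I S _ d (evO ξ ρ u) L.mf.all L.eqT fun O' hO' => ?_⟩
    rw [L.eq] at hO'
    obtain ⟨O, ⟨hO, hd⟩, rfl⟩ := hO'
    obtain ⟨u1, g1⟩ := g O hO hd
    refine g1.of_unit ?_
    have := (h O hO hd).2
    dsimp only at this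
    rwa [← div_eq_mul_inv, evO_div ρ uu.2.1 u1, div_right_comm] at this

end Pool.Agent.MP_e8e0b6_ag.R2
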