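import Pool.Agent.MP_e8e0b6_ag.R2.Nrm

/-! The group laws for the classes on the geometric generic fibre. -/

set_option autoImplicit false

namespace Pool.Agent.MP_e8e0b6_ag.R2

open Pool.Agent.MP_79c67d_ag Pool.Agent.MP_20d318_ag Pool.Agent.MP_20d318_ag.AG
  Pool.Agent.MP_20d318_ag.BV Pool.Agent.MP_20d318_ag.CB

namespace LwgR

variable {k F Ω E J : Type} [Field k] [Field F] [Field Ω] [Field E] [Algebra k F] [Algebra k E]
  [Algebra Ω E] [Fintype J] {O : Subalgebra k F} {O' : Subalgebra Ω E} {U : Set F} {a : F}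
  {μ : F →ₐ[k] E} {S' : Sd Ω E J} {X : Set (Subalgebra k F)} {γ γ' : Subalgebra k F → F}
  {c c' : J → ℤ}

theorem isU (e : ∀ a ∈ O, μ a ∈ O') (h : IsU O a) : IsU O' (μ a) :=
  ⟨(map_ne_zero μ).2 h.1, e _ h.mem, map_inv₀ μ a ▸ e _ h.inv_mem⟩

theorem gn (e : ∀ a ∈ O, μ a ∈ O') (h : Gn U O a) : Gn (μ '' U) O' (μ a) := by
  obtain ⟨u, hu, v⟩ := h.2
  refine ⟨?_, μ u, ⟨u, hu, rfl⟩, map_div₀ μ u a ▸ isU e v⟩
  rintro _ ⟨b, hb, rfl⟩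
  exact map_div₀ μ b a ▸ e _ (h.1 b hb)

theorem mul (h0 : ∀ O ∈ S'.T, ∀ i, S'.g i O ≠ 0) (h : Lg X μ S' c γ) (h' : Lg X μ S' c' γ') :
    Lg X μ S' (c + c') (γ * γ') := by
  obtain ⟨φ, φ0, h⟩ := h
  obtain ⟨ψ, ψ0, h'⟩ := h'
  refine ⟨φ * ψ, mul_ne_zero φ0 ψ0, fun O' hO' O hO e => ?_⟩
  convert (h O' hO' O hO e).mul (h' O' hO' O hO e) using 1
  rw [Pi.mul_apply, map_mul, S'.lb_add (h0 O' hO'), mul_mul_mul_comm, mul_div_mul_comm]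

theorem inv (h : Lg X μ S' c γ) : Lg X μ S' (-c) γ⁻¹ := by
  obtain ⟨φ, φ0, h⟩ := h
  refine ⟨φ⁻¹, inv_ne_zero φ0, fun O' hO' O hO e => ?_⟩
  convert (h O' hO' O hO e).inv using 1
  rw [Pi.inv_apply, map_inv₀, S'.lb_neg, ← mul_inv, inv_div_inv, inv_div]

theorem sys (hU : Sys X U) (h : Cl S' (μ '' U) c) : Lg X μ S' c fun O => (BV.gn U O)⁻¹ := by
  obtain ⟨φ, φ0, h⟩ := h
  refine ⟨φ⁻¹, inv_ne_zero φ0, fun O' hO' O hO e => ?_⟩
  convert (h O' hO').unit (gn e (gn_spec (hU.2 O hO))) using 1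
  rw [map_inv₀]
  field_simp

theorem congr (h : Lg X μ S' c γ) (u : ∀ O ∈ X, IsU O (γ' O / γ O)) : Lg X μ S' c γ' := by
  obtain ⟨φ, φ0, h⟩ := h
  refine ⟨φ, φ0, fun O' hO' O hO e => ?_⟩
  convert (isU e (u O hO)).mul (h O' hO' O hO e) using 1
  rw [map_div₀, div_mul_div_cancel₀ ((map_ne_zero μ).2 (div_ne_zero_iff.1 (u O hO).1).2)]

end LwgR

open LwgR in
theorem lwg_stmt : LwgStmt := fun k F Ω E J _ _ _ _ _ _ _ _ _ _ C H μ S' _ g => by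
  have a := g.mf.all
  have cl : ∀ U, Sys (XX C H) U → ∃ c, Lg (XX C H) μ S' c fun O => (BV.gn U O)⁻¹ := fun U hU => by
    obtain ⟨c, hc⟩ := exists_cl a (hU.1.image μ) fun O' hO' => by
      obtain ⟨O, hO, e⟩ := g.bg O' hO'
      exact (LwgR.gn (fun a => (e a).1) (gn_spec (hU.2 O hO))).prin
    exact ⟨c, sys hU hc⟩
  refine ⟨⟨1, one_ne_zero, fun O' _ O _ _ => by simpa [Sd.lb_zero] using isU_one⟩,
    fun _ _ _ _ => mul a.a1.gne, fun _ _ => inv, ?_, ?_, ?_, fun _ _ => sys⟩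
  · rintro γ c u hu ⟨φ, φ0, h⟩
    have := (map_ne_zero μ).2 hu
    refine ⟨μ u * φ, mul_ne_zero this φ0, fun O' hO' O hO e => ?_⟩
    rw [map_mul, mul_assoc, mul_div_mul_left _ _ this]
    exact h O' hO' O hO e
  · rintro γ ⟨U, V, hU, hV, h⟩
    obtain ⟨c, hc⟩ := cl U hU
    obtain ⟨c', hc'⟩ := cl V hV
    refine ⟨_, congr (mul a.a1.gne hc (inv hc')) fun O hO => ?_⟩
    obtain ⟨x, y, g1, g2, u⟩ := h O hO
    have := g1.ne; have := g2.ne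
    convert (u.mul ((gn_spec (hU.2 O hO)).unit g1)).div ((gn_spec (hV.2 O hO)).unit g2) using 1
    simp only [Pi.mul_apply, Pi.inv_apply]
    field_simp
  · rintro γ c c' ⟨φ, φ0, h⟩ ⟨ψ, ψ0, h'⟩
    refine sub_eq_zero.1 (a.a1.zero _ (φ / ψ) fun O' hO' => ?_)
    obtain ⟨O, hO, e⟩ := g.bg O' hO'
    have u := h O' hO' O hO fun a => (e a).1
    have := (div_ne_zero_iff.1 u.1).1
    convert (h' O' hO' O hO fun a => (e a).1).div u using 1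
    rw [S'.lb_sub (a.a1.gne O' hO')]
    field_simp

end Pool.Agent.MP_e8e0b6_ag.R2
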