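import Pool.Agent.MP_e8e0b6_ag.R2.SpecA
import Pool.Agent.MP_20d318_ag.CB.Ex2
import Pool.Agent.MP_20d318_ag.CB.FnD

/-! Towers are marked towers, and marked towers have all the structure of a surface. -/

set_option autoImplicit false

namespace Pool.Agent.MP_e8e0b6_ag.R2

open Pool.Agent.MP_79c67d_ag Pool.Agent.MP_20d318_ag Pool.Agent.MP_20d318_ag.AG
  Pool.Agent.MP_20d318_ag.BV Pool.Agent.MP_20d318_ag.CB

theorem Mk.surf {k M I : Type} [Field k] [CharZero k] [IsAlgClosed k] [Field M] [Algebra k M]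
    [Fintype I] {S : Sd k M I} (h : Mk S) : Surf S := by
  have ha := aff_stmt plane_stmt k M
  cases h with
  | p2 x y L h =>
    have h0 := p2B_stmt plane_stmt mult_stmt k M x y L ha h
    obtain ⟨h1, h2, h3⟩ := p2C_stmt k M x y L ha h
    exact ⟨h0, h1, h2, fun c φ P hp =>
      Or.inl ((a1_stmt plane_stmt curve_stmt k M _ _ h0).hpos c ⟨φ, P, hp⟩), h3⟩
  | fn n x y F G h =>
    obtain ⟨h0, h1, h3⟩ := fnL_stmt k M n x y F G h (fnD_stmt mult_stmt k M n x y F G h)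
    exact ⟨h0, h1, fnR_stmt k M n x y F G ha h,
      fun c φ P hp => Or.inl ((a1_stmt plane_stmt curve_stmt k M _ _ h0).hpos c ⟨φ, P, hp⟩), h3⟩
  | bl S O a b H' e E _ h =>
    obtain ⟨h1, h2, h3⟩ := blE_stmt k M _ S O a b H' e E h
      (blC_stmt mult_stmt k M _ S O a b H' e E h)
    exact ⟨h1, h2, blD_stmt k M _ S O a b H' e E h, blF_stmt plane_stmt k M _ S O a b H' e E h, h3⟩

theorem mka_stmt : MkaStmt := fun _ _ I _ _ _ _ _ _ S h =>
  ⟨sAll h.surf, hg_stmt I S.B h.surf.sym h.surf.hodge⟩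

theorem mk1 : Mk1Stmt := fun k M _ _ _ _ _ T h => by
  induction h with
  | plane x y hg =>
    obtain ⟨L, h⟩ := p2A_stmt plane_stmt k M x y ⟨hg.1, hg.2⟩
    exact ⟨Unit, inferInstance, p2 k x y, h.eq, .p2 x y L h⟩
  | hirz n x y hg =>
    obtain ⟨F, G, h⟩ := fnP_stmt plane_stmt k M n x y (aff_stmt plane_stmt k M)
      (fnA_stmt plane_stmt k M n x y ⟨hg.1, hg.2⟩)
    exact ⟨Fin 2, inferInstance, fn k n x y, h.eq, .fn n x y F G h⟩
  | blow T O _ hO hr ih =>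
    obtain ⟨I, _, S, rfl, hS⟩ := ih
    have a := sAll hS.surf
    obtain ⟨x, hx, y, hy, hc⟩ := a.a1.cen O hO hr
    obtain ⟨H', e, h0⟩ := blA_stmt k M I S O x y ⟨a.s, a.a1, a.jc, hO, hr, hx, hy, hc⟩
    obtain ⟨E, h⟩ := blP_stmt plane_stmt k M I S O x y H' e
      (blB_stmt plane_stmt k M I S O x y H' e h0)
    exact ⟨Option I, inferInstance, S.blow H' e, h0.eq, .bl S O x y H' e E hS h⟩

end Pool.Agent.MP_e8e0b6_ag.R2
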