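import Pool.Agent.MP_e8e0b6_ag.R2.SpecA
import Pool.Agent.MP_20d318_ag.CB.FnD

/-!
Row MKL: the lattice data of a marked tower.
-/

set_option autoImplicit false

namespace Pool.Agent.MP_e8e0b6_ag.R2

open Pool.Agent.MP_79c67d_ag Pool.Agent.MP_20d318_ag Pool.Agent.MP_20d318_ag.AG
  Pool.Agent.MP_20d318_ag.BV Pool.Agent.MP_20d318_ag.CB

namespace MklA

variable {k M : Type} [Field k] [Field M] [Algebra k M]

theorem ip1 (x y : M) (c c' : Unit → ℤ) : ip (p2 k x y).B c c' = c () * c' () := by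
  simp [CB.ip, p2]

theorem ip2 (n : ℕ) (x y : M) (c c' : Fin 2 → ℤ) :
    ip (fn k n x y).B c c' = c 0 * c' 1 + c 1 * c' 0 + n * (c 1 * c' 1) := by
  simp [CB.ip, fn, Fin.sum_univ_two]
  ring

theorem lt_p2 {x y : M} {L : Place k M} (h : P2 k x y L) : Lt (p2 k x y) := by
  have hg : (p2 k x y).GG fun _ => 1 := ⟨{x, y, 1}, h.fam.fin (), h.fam.nz (), fun O hO => by
    rw [h.lb, zpow_neg_one, inv_inv]
    exact h.gH O hO⟩
  refine ⟨fun d => ⟨fun _ => d fun _ => 1, fun c => ?_⟩, hg, ?_, hg, ?_, fun h3 => ?_⟩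
  · have e : c = c () • fun _ => 1 := by
      funext u
      simp
    show ip _ _ _ = _
    rw [ip1]
    conv_rhs => rw [e, map_zsmul, smul_eq_mul]
  · show ip _ _ _ ≤ _
    rw [ip1]
    show (-3 : ℤ) * 1 ≤ -2
    norm_num
  · show 0 < ip _ _ _
    rw [ip1]
    show (0 : ℤ) < 1 * 1
    norm_num
  · simp at h3

theorem lt_fn {n : ℕ} {x y : M} {F G : Place k M} (h : Fn1 k n x y F G) : Lt (fn k n x y) := by
  have hx : x ≠ 0 := by simpa using h.gen.x_ne 0
  refine ⟨fun d => ⟨![d ![0, 1] - n * d ![1, 0], d ![1, 0]], fun c => ?_⟩,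
    ⟨{1, x}, Set.toFinite _, ?_, fun O hO => ?_⟩, ?_,
    ⟨(fn k n x y).H, h.fam.fin (), h.fam.nz (), h.gH⟩, ?_, fun h3 => ?_⟩
  · have e : c = c 0 • ![1, 0] + c 1 • ![0, 1] := by
      funext u
      fin_cases u <;> simp
    show ip _ _ _ = _
    rw [ip2]
    conv_rhs => rw [e, map_add, map_zsmul, map_zsmul, smul_eq_mul, smul_eq_mul]
    simp only [Matrix.cons_val_zero, Matrix.cons_val_one]
    ring
  · rintro a (rfl | rfl)
    · exact one_ne_zero
    · exact hx
  · have e : ((fn k n x y).lb (fn k n x y).f O)⁻¹ = gn (fF n x y 0) O := by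
      rw [h.lb]
      simp [fn]
    rw [e]
    exact h.gF O hO 0
  · show ip _ _ _ ≤ _
    rw [ip2]
    simp [fn]
  · show 0 < ip _ _ _
    rw [ip2]
    simp only [fn, Matrix.cons_val_zero, Matrix.cons_val_one]
    positivity
  · simp at h3

theorem lt_bl {I : Type} [Fintype I] {S : Sd k M I} {O₀ : Subalgebra k M} {a b : M} {H' : Set M}
    {e : Subalgebra k M → M} {E : Place k M} (h : Bl2 S O₀ a b H' e E) (l : Lt S) :
    Lt (S.blow H' e) := by
  refine ⟨fun d => ?_, BlE.gg_pb h l.ggf, ?_, BlE.gg_pb h l.ggA, ?_,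
    fun _ => ⟨pb 0 1, ⟨_, _, BlE.prmE h⟩, ?_, ?_⟩⟩
  · obtain ⟨z, hz⟩ := l.uni (AddMonoidHom.mk' (fun c => d (pb c 0)) fun c c' => by
      rw [← map_add, pb_add, add_zero])
    refine ⟨pb z (-d (pb 0 1)), fun c => ?_⟩
    obtain ⟨c₀, m, rfl⟩ := exists_pb c
    have e1 : pb c₀ m = pb c₀ 0 + m • pb (0 : I → ℤ) 1 := by
      funext o
      cases o <;> simp [pb]
    have e2 : ip S.B c₀ z = d (pb c₀ 0) := hz c₀
    show ip _ _ _ = _
    rw [ip_pb, e2]
    conv_rhs => rw [e1, map_add, map_zsmul, smul_eq_mul]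
    ring
  · change ip _ (pb S.K 1) (pb S.f 0) ≤ _
    rw [ip_pb, mul_zero, sub_zero]
    exact l.Kf
  · change _ < ip _ (pb S.A 0) (pb S.A 0)
    rw [ip_pb, mul_zero, sub_zero]
    exact l.AA
  · change ip _ _ _ = _
    rw [ip_pb, ip_zero_left]
    norm_num
  · change ip _ (pb S.K 1) _ = _
    rw [ip_pb, ip_zero_right]
    norm_num

theorem lt {I : Type} [Fintype I] {S : Sd k M I} (h : Mk S) : Lt S := by
  induction h with
  | p2 x y L h => exact lt_p2 h
  | fn n x y F G h => exact lt_fn h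
  | bl S O₀ a b H' e E _ h ih => exact lt_bl h ih

end MklA

theorem mkl_stmt : MklStmt := by
  intro hA k M I _ _ _ _ _ _ S h
  have l := MklA.lt h
  have s := (hA k M I S h).1
  refine ⟨l, fun hK => ?_⟩
  have key : ∀ c ∈ S.Ef, 0 ≤ ip S.B S.f c := fun c hc => by
    induction hc using AddSubmonoid.closure_induction with
    | mem c hc => exact s.a2.gg _ l.ggf c hc
    | zero => rw [ip_zero_right]
    | add c c' _ _ h1 h2 =>
      rw [ip_add_right]
      exact add_nonneg h1 h2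
  have h1 := key _ hK
  have h2 : ip S.B S.K S.f ≤ -2 := l.Kf
  rw [ip_comm s.s.sym] at h1
  omega

end Pool.Agent.MP_e8e0b6_ag.R2
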