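import Pool.Agent.MP_e8e0b6_ag.R2.SpecA

/-!
Exact classes and classes of lines.
-/

set_option autoImplicit false

namespace Pool.Agent.MP_e8e0b6_ag.R2

open Pool.Agent.MP_79c67d_ag Pool.Agent.MP_20d318_ag Pool.Agent.MP_20d318_ag.AG
  Pool.Agent.MP_20d318_ag.BV Pool.Agent.MP_20d318_ag.CB

namespace NlA

variable {k M I : Type} [Field k] [Field M] [Algebra k M] [Fintype I] {S : Sd k M I}

theorem ex0 (h : SAll S) : Ex S 0 := by
  have h1 : S.Sec 0 ≤ Submodule.span k {(1 : M)} := by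
    intro φ hφ
    obtain ⟨a, rfl⟩ := h.a2.const φ fun O hO => by
      have := hφ O hO
      rwa [Sd.lb_zero, mul_one] at this
    exact Submodule.mem_span_singleton.2 ⟨a, (Algebra.algebraMap_eq_smul_one a).symm⟩
  have h2 := (Submodule.finrank_mono h1).trans (finrank_span_singleton (K := k)
    (one_ne_zero : (1 : M) ≠ 0)).le
  have h3 : S.h0 0 ≤ 1 := by unfold Sd.h0; exact_mod_cast h2
  unfold Ex chi2
  rw [ip_zero_right, ip_zero_right]
  omega

theorem chi_sub (h : SAll S) (D c : I → ℤ) : chi2 S.B S.K (D - c) =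
    chi2 S.B S.K D - 2 * ip S.B D c + (ip S.B c c + ip S.B S.K c) := by
  unfold chi2
  rw [ip_sub_left, ip_sub_right, ip_sub_right, ip_sub_right, ip_comm h.s.sym c D]
  ring

theorem up (h : SAll S) {c : I → ℤ} (hc : c ∈ S.PP) (h2 : ip S.B c c + ip S.B S.K c = -2)
    {D : I → ℤ} (hD : -1 ≤ ip S.B D c) (hE : Ex S (D - c)) : Ex S D := by
  obtain ⟨φ, P, hP⟩ := hc
  have h3 := h.a3.res c φ P hP D
  rw [max_eq_right (by omega)] at h3
  unfold Ex at hE ⊢
  rw [chi_sub h, h2] at hE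
  omega

theorem hdeg (h : SAll S) {c : I → ℤ} (hc : c ∈ S.Ef) : c = 0 ∨ 0 < ip S.B S.h c := by
  induction hc using AddSubmonoid.closure_induction with
  | mem x hx => exact Or.inr (h.a1.hpos x hx)
  | zero => exact Or.inl rfl
  | add x y _ _ hx hy =>
    rcases hx with rfl | hx
    · rwa [zero_add]
    · rcases hy with rfl | hy
      · rw [add_zero]; exact Or.inr hx
      · rw [ip_add_right]; exact Or.inr (add_pos hx hy)

theorem hnn (h : SAll S) {c : I → ℤ} (hc : c ∈ S.Ef) : 0 ≤ ip S.B S.h c := by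
  rcases hdeg h hc with rfl | h1
  · rw [ip_zero_right]
  · exact h1.le

theorem hz (h : SAll S) {c : I → ℤ} (hc : c ∈ S.Ef) (h0 : ip S.B S.h c ≤ 0) : c = 0 :=
  (hdeg h hc).resolve_right (not_lt.2 h0)

theorem sub_mem (h : SAll S) {d c : I → ℤ} (hd : d ∈ S.PP) (hc : c ∈ S.Ef) :
    0 ≤ ip S.B d c ∨ c - d ∈ S.Ef := by
  induction hc using AddSubmonoid.closure_induction with
  | mem x hx =>
    by_cases e : d = x
    · right; rw [e, sub_self]; exact S.Ef.zero_mem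
    · exact Or.inl (h.a2.pos d hd x hx e)
  | zero => left; rw [ip_zero_right]
  | add x y hx' hy' hx hy =>
    rcases hx with hx | hx
    · rcases hy with hy | hy
      · left; rw [ip_add_right]; exact add_nonneg hx hy
      · right; rw [add_sub_assoc]; exact S.Ef.add_mem hx' hy
    · right; rw [add_sub_right_comm]; exact S.Ef.add_mem hx hy'

theorem irr (h : SAll S) {d : I → ℤ} (hd : ip S.B S.h d = 1 ∨ (d ∈ S.PP ∧ ip S.B d d < 0))
    {c c' : I → ℤ} (hc : c ∈ S.Ef) (hc' : c' ∈ S.Ef) (e : d = c + c') : c = 0 ∨ c' = 0 := by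
  have n1 := hnn h hc
  have n2 := hnn h hc'
  have n3 : ip S.B S.h d = ip S.B S.h c + ip S.B S.h c' := by rw [e, ip_add_right]
  rcases hd with hd | ⟨hd, hn⟩
  · by_cases h0 : ip S.B S.h c ≤ 0
    · exact Or.inl (hz h hc h0)
    · exact Or.inr (hz h hc' (by omega))
  · have n4 : ip S.B d d = ip S.B d c + ip S.B d c' := by rw [← ip_add_right, ← e]
    rcases sub_mem h hd hc with h1 | h1
    · rcases sub_mem h hd hc' with h2 | h2
      · omega
      · have := hnn h h2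
        rw [ip_sub_right] at this
        exact Or.inl (hz h hc (by omega))
    · have := hnn h h1
      rw [ip_sub_right] at this
      exact Or.inr (hz h hc' (by omega))

theorem prm (h : SAll S) {d : I → ℤ} (hd0 : d ≠ 0)
    (hi : ∀ c ∈ S.Ef, ∀ c' ∈ S.Ef, d = c + c' → c = 0 ∨ c' = 0) {φ : M} (hφ : φ ∈ S.Sec d)
    (h0 : φ ≠ 0) : ∃ P, S.Prm d φ P := by
  classical
  have hfin := h.a1.nice.toFine.fin_cart (h.a1.pcart d φ h0)
  have hs : ∀ P, P ∈ hfin.toFinset ↔ plO P ∈ S.T ∧ P.ord (φ * S.lb d (plO P)) ≠ 0 :=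
    fun P => hfin.mem_toFinset
  generalize hfin.toFinset = s at hs
  have hdv := h.a2.dv d φ s h0 (fun P hP => ((hs P).1 hP).1) fun P hP hn => by
    by_contra h1
    exact hn ((hs P).2 ⟨hP, h1⟩)
  have hpp : ∀ P ∈ s, S.cl P ∈ S.PP := fun P hP =>
    (h.a2.cl P ((hs P).1 hP).1).elim fun ψ hψ => ⟨ψ, P, hψ⟩
  have hef : ∀ P ∈ s, ∀ n : ℤ, 0 ≤ n → n • S.cl P ∈ S.Ef := by
    intro P hP n hn
    obtain ⟨m, rfl⟩ := Int.eq_ofNat_of_zero_le hn
    rw [natCast_zsmul]
    exact S.Ef.nsmul_mem (AddSubmonoid.subset_closure (hpp P hP)) m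
  have hord : ∀ P ∈ s, 1 ≤ P.ord (φ * S.lb d (plO P)) := by
    intro P hP
    have h1 := mem_plO_ord.1 (hφ _ ((hs P).1 hP).1)
    have h2 := ((hs P).1 hP).2
    omega
  obtain ⟨P, hP⟩ : s.Nonempty := by
    rw [Finset.nonempty_iff_ne_empty]
    rintro rfl
    exact hd0 (by simpa using hdv)
  rw [← Finset.add_sum_erase s _ hP] at hdv
  have hr : ∑ Q ∈ s.erase P, Q.ord (φ * S.lb d (plO Q)) • S.cl Q ∈ S.Ef :=
    S.Ef.sum_mem fun Q hQ => hef Q (Finset.mem_of_mem_erase hQ) _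
      (zero_le_one.trans (hord Q (Finset.mem_of_mem_erase hQ)))
  have h1 := hef P hP (P.ord (φ * S.lb d (plO P)) - 1) (by have := hord P hP; omega)
  have hp := h.a1.hpos _ (hpp P hP)
  have h2 := (hi (S.cl P) (AddSubmonoid.subset_closure (hpp P hP)) _ (S.Ef.add_mem h1 hr) (by
    rw [← add_assoc, sub_smul, one_smul, add_sub_cancel]; exact hdv)).resolve_left fun e => by
      rw [e, ip_zero_right] at hp
      exact lt_irrefl _ hp
  have h3 := congrArg (ip S.B S.h) h2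
  rw [ip_add_right, ip_zero_right, ip_smul_right] at h3
  have h4 := hnn h hr
  have h5 : P.ord (φ * S.lb d (plO P)) = 1 := by
    have := hord P hP
    by_contra hne
    have : 0 < (P.ord (φ * S.lb d (plO P)) - 1) * ip S.B S.h (S.cl P) := mul_pos (by omega) hp
    omega
  rw [h5, sub_self, zero_mul, zero_add, ip_sum_right] at h3
  refine ⟨P, h0, ((hs P).1 hP).1, fun Q hQ => ?_⟩
  split_ifs with e
  · rw [e, h5]
  · by_contra hne
    have hQs : Q ∈ s.erase P := Finset.mem_erase.2 ⟨e, (hs Q).2 ⟨hQ, hne⟩⟩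
    refine (Finset.sum_pos (fun R hR => ?_) ⟨Q, hQs⟩).ne' h3
    rw [ip_smul_right]
    exact mul_pos (zero_lt_one.trans_le (hord R (Finset.mem_of_mem_erase hR)))
      (h.a1.hpos _ (hpp R (Finset.mem_of_mem_erase hR)))

end NlA

theorem nl_stmt : NlStmt := by
  intro k M I _ _ _ _ _ _ S h
  refine ⟨NlA.ex0 h, fun c hc h2 D hD hE => NlA.up h hc h2 hD hE, ?_⟩
  intro d hd h2 h1 hc D hD hE h3 hK
  have hd0 : d ≠ 0 := by
    rintro rfl
    simp only [ip_zero_right] at h2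
    omega
  have hp : ∀ φ ∈ S.Sec d, φ ≠ 0 → ∃ P, S.Prm d φ P := fun φ hφ h0 =>
    NlA.prm h hd0 (fun c hc1 c' hc2 e => NlA.irr h hc hc1 hc2 e) hφ h0
  have hpp : d ∈ S.PP := by
    obtain ⟨φ, hφ, h0⟩ := h.a2.eff2 d hd
    exact ⟨φ, hp φ hφ h0⟩
  have h3' : ip S.B (D + d) d = 1 := h3
  have h2' : ip S.B d d + ip S.B S.K d = -2 := h2
  refine ⟨NlA.up h hpp h2 h1 (by rw [sub_self]; exact NlA.ex0 h), hd, hp, D + d, h3,
    NlA.up h hpp h2 (by omega) (by rwa [add_sub_cancel_right]), ?_⟩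
  have h4 := h.a4.rr2 (D + d) fun hm => hK (by
    have := S.Ef.add_mem hm (S.Ef.add_mem hD hd)
    rwa [sub_add_cancel] at this)
  have h5 := NlA.chi_sub h (D + d) d
  rw [add_sub_cancel_right] at h5 ⊢
  unfold Ex at hE
  omega

end Pool.Agent.MP_e8e0b6_ag.R2
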