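import Pool.Agent.MP_e8e0b6_ag.R2.Xb

/-! Normalization of the homogeneous coordinates, and the reduction of the specialization theorem
to normalized families. -/

set_option autoImplicit false

namespace Pool.Agent.MP_e8e0b6_ag.R2

open Pool.Agent.MP_79c67d_ag Pool.Agent.MP_20d318_ag Pool.Agent.MP_20d318_ag.AG
  Pool.Agent.MP_20d318_ag.BV Pool.Agent.MP_20d318_ag.CB

section nrm

variable {k F M Ω E I J : Type} [Field k] [Field F] [Field M] [Field Ω] [Field E] [Algebra k F]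
  [Algebra k M] [Algebra k E] [Algebra Ω E] [Fintype I] [Fintype J] {C R ξ : Subalgebra k F}
  {H : Set F} {t : F} {ρ : ξ →ₐ[k] M} {S : Sd k M I} {μ : F →ₐ[k] E} {S' : Sd Ω E J}

theorem ch_div (ht : t ≠ 0) (j : F) : ch C ((fun a => a / t) '' H) (j / t) = ch C H j := by
  rw [ch, ch, Set.image_image]
  simp only [div_div_div_cancel_right₀ ht]

theorem XX_div (ht : t ≠ 0) : XX C ((fun a => a / t) '' H) = XX C H := Set.ext fun O =>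
  ⟨fun ⟨_, ⟨j, hj, e⟩, h⟩ => ⟨j, hj, by rwa [← e, ch_div ht] at h⟩,
    fun ⟨j, hj, h⟩ => ⟨j / t, ⟨j, hj, rfl⟩, by rwa [ch_div ht]⟩⟩

theorem Fib.div (h : Fib R H ξ) (ht : t ≠ 0) : Fib R ((fun a => a / t) '' H) ξ :=
  ⟨by rw [XX_div ht]; exact h.mem, h.dom, by rw [XX_div ht]; exact h.le,
    by rw [XX_div ht]; exact h.red⟩

theorem Fm.div (h : Fm C H) (ht : t ≠ 0) : Fm C ((fun a => a / t) '' H) :=
  ⟨h.fin.image _, h.ne.image _, by rintro _ ⟨a, ha, rfl⟩; exact div_ne_zero (h.nz a ha) ht,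
    by rintro _ ⟨a, ha, rfl⟩; rw [ch_div ht a]; exact h.frac a ha, h.noeth, h.ufdC,
    by rw [XX_div ht]; exact h.ufd, fun R hR => (h.fib R hR).imp fun _ f => f.div ht,
    by rw [XX_div ht]; exact h.flat⟩

theorem Lc.div (h : Lc R H ξ ρ S) (ht : t ≠ 0) : Lc R ((fun a => a / t) '' H) ξ ρ S :=
  ⟨h.fm.div ht, h.loc, h.rat, h.fib.div ht, h.lh, h.surj, h.ind, h.mrk,
    by rw [XX_div ht]; exact h.eq⟩

theorem map_div_im (μ : F →ₐ[k] E) :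
    μ '' ((fun a => a / t) '' H) = (fun a => a / μ t) '' (μ '' H) := by
  simp only [Set.image_image, map_div₀]

theorem Gc.div (h : Gc C H μ S') (ht : t ≠ 0) : Gc C ((fun a => a / t) '' H) μ S' :=
  ⟨h.mrk, by rw [h.eq, map_div_im, mp_eq_XX, mp_eq_XX, XX_div ((map_ne_zero μ).2 ht)], h.base, h.ld⟩

theorem Lb_div (ht : t ≠ 0) : Lb R ((fun a => a / t) '' H) ξ ρ S = Lb R H ξ ρ S := by
  funext d γ
  rw [Lb, Lb, XX_div ht]

theorem Cl.div {U : Set M} {c : I → ℤ} {s : M} (h : Cl S U c) (hs : s ≠ 0) :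
    Cl S ((fun a => a / s) '' U) c := by
  obtain ⟨φ, h0, h⟩ := h
  refine ⟨s⁻¹ * φ, mul_ne_zero (inv_ne_zero hs) h0, fun O hO => ?_⟩
  simpa only [div_eq_inv_mul, mul_assoc] using (h O hO).smul (inv_ne_zero hs)

/-- The class of a system. -/
theorem exists_cl (h : SAll S) {U : Set M} (hU : U.Finite) (hP : ∀ O ∈ S.T, Prin U O) :
    ∃ c, Cl S U c := by
  obtain ⟨c, φ, h0, u⟩ := h.a2.pic _ (isCart_of_gn hU fun O hO => gn_spec (hP O hO)).inv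
  refine ⟨c, φ⁻¹, inv_ne_zero h0, fun O hO => (gn_spec (hP O hO)).of_unit ?_⟩
  convert (u O hO).inv using 1
  rw [Pi.inv_apply]
  field_simp

theorem Lc.exists_nrm (h : Lc R H ξ ρ S) :
    ∃ t : F, t ≠ 0 ∧ 1 ∈ (fun a => a / t) '' H ∧ ∀ a ∈ (fun a => a / t) '' H, a ∈ ξ := by
  obtain ⟨j, hj, g⟩ := (xb_stmt k F R H h.fm).gn ξ h.fib.mem
  exact ⟨j, g.ne, ⟨j, hj, div_self g.ne⟩, by rintro _ ⟨a, ha, rfl⟩; exact g.1 a ha⟩

end nrm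

theorem amp_of (hH : HclStmt) : AmpStmt := fun k M I _ _ _ _ _ _ S H h hf nz e => by
  have hP : ∀ O ∈ S.T, Prin H O := fun O hO => by
    rw [e, mp_eq_XX] at hO
    obtain ⟨j, hj, hO⟩ := hO
    exact (XbR.gn_of nz hj hO.2.1).prin
  obtain ⟨c, φ, h0, g⟩ := exists_cl h hf hP
  refine ⟨c, ⟨φ, h0, g⟩, ?_, (hH k M I S H c φ h e fun O hO => div_eq_mul_inv φ _ ▸ g O hO).pos⟩
  obtain ⟨a, ha, -⟩ := (g ⊤ h.a1.nice.toFine.top).2
  refine h.a2.eff1 c (a / φ) (fun O hO => ?_) (div_ne_zero (nz a ha) h0)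
  convert (g O hO).1 a ha using 1
  field_simp

theorem tw_of (hH : HclStmt) (hM : MfAll) (hL : LnStmt) (hB : Bg) (hG : LwgStmt) (hW : LwbStmt)
    {k F M Ω E I J : Type} [Field k] [CharZero k] [IsAlgClosed k] [Field F] [Field M] [Field Ω]
    [CharZero Ω] [IsAlgClosed Ω] [Field E] [Algebra k F] [Algebra k M] [Algebra k E] [Algebra Ω E]
    [Fintype I] [Fintype J] {R ξ : Subalgebra k F} {H : Set F} {ρ : ξ →ₐ[k] M} {S : Sd k M I}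
    {μ : F →ₐ[k] E} {S' : Sd Ω E J} (h : Lc R H ξ ρ S) (g : Gc R H μ S') (h1 : 1 ∈ H)
    (h2 : ∀ a ∈ H, a ∈ ξ) : Tw R H ξ ρ S μ S' := by
  have xb := xb_stmt k F R H h.fm
  have ln := hL k F M I R H ξ ρ S h xb (hM k M I S h.mrk) h1 h2
  have gm : Gm R H μ S' := ⟨g, hM Ω E J S' g.mrk, hB k F Ω E J R H μ S' xb g⟩
  have lg := hG k F Ω E J R H μ S' xb gm
  have lb := hW hH k F M I R H ξ ρ S ln
  obtain ⟨u, u0, d, hd⟩ := lb.ex _ xb.sys.dt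
  obtain ⟨c, φ, φ0, hc⟩ := lg.ex _ (xb.sys.dt.scal u0)
  refine ⟨ln, gm, lg, lb, u, c, d, (lb.hyp u d hd).1, ⟨xb.sys.dt.scal u0, ⟨φ, φ0, hc⟩, hd⟩,
    hH Ω E J S' (μ '' H) c (μ u / φ) gm.mf.all g.eq fun O' hO' => ?_, (lb.hyp u d hd).2⟩
  obtain ⟨O, hO, e⟩ := gm.bg O' hO'
  have g1 := gn_spec (xb.sys.2 O hO)
  have g2 : Gn (μ '' H) O' (μ (gn H O)) := by
    obtain ⟨a, ha, v⟩ := g1.2
    refine ⟨?_, μ a, ⟨a, ha, rfl⟩, map_div₀ μ _ _ ▸ ⟨(map_ne_zero μ).2 v.1, (e _).1 v.mem,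
      map_inv₀ μ _ ▸ (e _).1 v.inv_mem⟩⟩
    rintro _ ⟨b, hb, rfl⟩
    exact map_div₀ μ _ _ ▸ (e _).1 (g1.1 b hb)
  refine g2.of_unit ?_
  convert hc O' hO' O hO fun a => (e a).1 using 1
  rw [map_mul, map_inv₀]
  field_simp

theorem sp_of (hH : HclStmt) (hM : MfAll) (hL : LnStmt) (hB : Bg) (hG : LwgStmt) (hW : LwbStmt)
    (hD : DtStmt) (hS : Spn) : SpStmt :=
  fun k F M Ω E I J _ _ _ _ _ _ _ _ _ _ _ _ _ _ _ R H ξ ρ S μ S' h g hr => by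
  obtain ⟨t, ht, h1, h2⟩ := h.exists_nrm
  obtain ⟨la, σ, sp⟩ := (hS k F M Ω E I J R _ ξ ρ S μ S'
    (tw_of hH hM hL hB hG hW (h.div ht) (g.div ht) h1 h2)).1
    (hD k F Ω E J R _ μ S' (h.fm.div ht) (g.div ht) hr)
  have e1 := la.ex
  have e2 := la.surj
  have e3 := la.span
  have e4 := sp.rel
  rw [XX_div ht, Lb_div ht] at e1 e2 e3 e4
  exact ⟨⟨e1, e2, e3⟩, σ, sp.iso, sp.can, sp.eff, e4, fun h' hc =>
    sp.amp h' (map_div_im μ ▸ hc.div ((map_ne_zero μ).2 ht))⟩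

theorem ratOf_of (hH : HclStmt) (hM : MfAll) (hL : LnStmt) (hB : Bg) (hG : LwgStmt) (hW : LwbStmt)
    (hS : Spn) : RatOfStmt :=
  fun k F M Ω E I J _ _ _ _ _ _ _ _ _ _ _ _ _ _ _ R H ξ ρ S μ S' h g hr => by
  obtain ⟨t, ht, h1, h2⟩ := h.exists_nrm
  have := (hS k F M Ω E I J R _ ξ ρ S μ S'
    (tw_of hH hM hL hB hG hW (h.div ht) (g.div ht) h1 h2)).2
  rw [XX_div ht, Lb_div ht] at this
  exact this hr

theorem mfAll_of (h1 : MkaStmt) (h2 : MklStmt) (h3 : NlStmt) (h4 : ExbStmt) (h5 : ExhStmt) :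
    MfAll := fun k M I _ _ _ _ _ _ S h =>
  ⟨⟨(h1 k M I S h).1, (h2 h1 k M I S h).1.uni, (h2 h1 k M I S h).2, h5 h1 h3 h4 k M I S h⟩,
    (h1 k M I S h).2, (h2 h1 k M I S h).1⟩

end Pool.Agent.MP_e8e0b6_ag.R2
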