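import Pool.Agent.MP_e8e0b6_ag.R2.CSpec

/-! An exceptional curve contracted by a nef class stays prime under specialisation. -/

set_option autoImplicit false

namespace Pool.Agent.MP_e8e0b6_ag.R2

open Pool.Agent.MP_79c67d_ag Pool.Agent.MP_20d318_ag.AG Pool.Agent.MP_20d318_ag.BV
open Pool.Agent.MP_20d318_ag.CB

namespace Prime

variable {k M I : Type} [Field k] [Field M] [Algebra k M] [Fintype I] {S : Sd k M I}

theorem nn {D c : I → ℤ} (h : Nef S D) (hc : c ∈ S.Ef) : 0 ≤ S.i D c := by
  induction hc using AddSubmonoid.closure_induction with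
  | mem x hx => exact h x hx
  | zero => exact (ip_zero_right D).ge
  | add x y _ _ hx hy => exact (add_nonneg hx hy).trans (ip_add_right D x y).ge

theorem core {D c : I → ℤ} (h : Nef S D) (h0 : ∀ x ∈ S.PP, S.i D x = 0 → S.i S.K x ≤ -1)
    (hc : c ∈ S.Ef) : S.i D c = 0 → c = 0 ∨ (S.i S.K c ≤ -1 ∧ (S.i S.K c = -1 → c ∈ S.PP)) := by
  induction hc using AddSubmonoid.closure_induction with
  | mem x hx => exact fun e => .inr ⟨h0 x hx e, fun _ => hx⟩
  | zero => exact fun _ => .inl rfl
  | add x y hx hy ix iy =>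
    intro e
    have a := nn h hx
    have b := nn h hy
    have e1 : S.i D (x + y) = S.i D x + S.i D y := ip_add_right D x y
    have e2 : S.i S.K (x + y) = S.i S.K x + S.i S.K y := ip_add_right S.K x y
    rcases ix (by omega) with rfl | ⟨p, p'⟩
    · rw [zero_add]; exact iy (by omega)
    rcases iy (by omega) with rfl | ⟨q, -⟩
    · rw [add_zero]; exact .inr ⟨p, p'⟩
    · exact .inr ⟨by omega, fun _ => by omega⟩

end Prime

theorem prime_stmt : PrimeStmt := by
  intro Ω N J k M I _ _ _ _ _ _ _ _ _ _ _ _ S' S β h e hS' hS hL hβ hA he hM hN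
  have ef : β e ∈ S.Ef := hβ.ef e (AddSubmonoid.subset_closure he)
  set τ := S'.i h e with hτ
  have τ0 : 0 ≤ τ := by
    rw [hτ, ← hβ.ip]
    exact Prime.nn (fun c hc => (hA.pos c hc).le) ef
  have ex : ∀ c, S.i (β (h + τ • S'.K)) c = S.i (β h) c + τ * S.i S.K c := fun c => by
    rw [map_add, map_zsmul, hβ.can]
    exact (ip_add_left _ _ _).trans (congrArg _ (ip_smul_left τ S.K c))
  have nef : Nef S (β (h + τ • S'.K)) := by
    intro c hc
    by_cases hK : 0 ≤ S.i S.K c
    · rw [ex]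
      exact add_nonneg (hA.pos c hc).le (mul_nonneg τ0 hK)
    obtain ⟨c', rfl⟩ := β.surjective c
    have a : -2 ≤ S.i (β c') (β c') + S.i S.K (β c') := hS.a4.adj _ hc
    have b : S'.i S'.K c' ≤ S'.i c' c' := by
      rw [← hβ.ip, ← hβ.ip, hβ.can]
      omega
    rcases hS'.a4.rr c' b with q | q
    · rw [hβ.ip]
      exact Prime.nn hN q
    · have q' := S.Ef.add_mem (hβ.ef _ q) (AddSubmonoid.subset_closure hc)
      rw [map_sub, sub_add_cancel, hβ.can] at q'
      have f0 : 0 ≤ S.i S.f S.K := Prime.nn (hS.a2.gg _ hL.ggf) q'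
      have f1 : S.i S.f S.K = S.i S.K S.f := ip_comm hS.s.sym _ _
      have := hL.Kf
      omega
  have kK : S.i S.K (β e) = -1 := by rw [← hβ.can, hβ.ip]; exact hM.2
  rcases Prime.core nef (fun x hx e0 => by
    by_contra hK
    rw [ex] at e0
    have := hA.pos x hx
    have := mul_nonneg τ0 (show 0 ≤ S.i S.K x by omega)
    omega) ef (by rw [ex, kK, hβ.ip]; omega) with z | ⟨-, p⟩
  · rw [z] at kK
    exact absurd (kK.symm.trans (ip_zero_right S.K)) (by norm_num)
  · exact p kK

end Pool.Agent.MP_e8e0b6_ag.R2
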