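import Pool.Agent.MP_e8e0b6_ag.R2.SpecA

/-!
Marked towers of Picard number one and two.
-/

set_option autoImplicit false

namespace Pool.Agent.MP_e8e0b6_ag.R2

open Pool.Agent.MP_79c67d_ag Pool.Agent.MP_20d318_ag Pool.Agent.MP_20d318_ag.AG
  Pool.Agent.MP_20d318_ag.BV Pool.Agent.MP_20d318_ag.CB

section

variable {k M : Type} [Field k] [Field M] [Algebra k M]

theorem rk_card {I : Type} [Fintype I] {S : Sd k M I} (h : Mk S) : 0 < Fintype.card I := by
  cases h <;> simp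

theorem rk_ef {I : Type} [Fintype I] {S : Sd k M I} {c : I → ℤ} (h : c ∈ S.PP) : c ∈ S.Ef :=
  AddSubmonoid.subset_closure h

theorem rk_pos {I : Type} [Fintype I] {S : Sd k M I} {h c : I → ℤ} (hp : Pos S h)
    (hc : c ∈ S.Ef) : c = 0 ∨ 0 < S.i h c := by
  induction hc using AddSubmonoid.closure_induction with
  | mem c hc => exact Or.inr (hp c hc)
  | zero => exact Or.inl rfl
  | add a b _ _ ha hb =>
    rcases ha with rfl | ha
    · simpa using hb
    rcases hb with rfl | hb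
    · simpa using Or.inr ha
    refine Or.inr ?_
    have := CB.ip_add_right (B := S.B) h a b
    simp only [Sd.i] at *
    omega

/-- A class of hyperplane degree one next to a prime class of arithmetic genus zero. -/
theorem rk_nc {I : Type} [Fintype I] {S : Sd k M I} (nl : Nl S) (hK : S.K ∉ S.Ef) {d D : I → ℤ}
    (hd : d ∈ S.Ef) (z : Zf S d) (h1 : S.i S.h d = 1) (hD : D ∈ S.PP)
    (g : S.i D D + S.i S.K D = -2) (hDD : -1 ≤ S.i D D) (e : S.i D d = 1) : Nc S d := by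
  refine nl.nc d hd (by rw [z.1, z.2]; rfl) (by rw [z.1]; decide) (Or.inl h1) D (rk_ef hD)
    (nl.up D hD g D hDD (by rw [sub_self]; exact nl.ex0)) ?_ hK
  have := CB.ip_add_left (B := S.B) D d d
  have z1 := z.1
  simp only [Sd.i] at *
  omega

theorem rk_p2 (x y : M) (c c' : Unit → ℤ) : CB.ip (p2 k x y).B c c' = c () * c' () := by
  simp [CB.ip, p2]

theorem rk_fn (n : ℕ) (x y : M) (c c' : Fin 2 → ℤ) :
    CB.ip (fn k n x y).B c c' = c 0 * c' 1 + c 1 * c' 0 + n * (c 1 * c' 1) := by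
  simp [CB.ip, fn, Fin.sum_univ_two]
  ring

theorem rk_sec {n : ℕ} {x y : M} (h : Fn0 k n x y) : y ∈ (fn k n x y).Sec ![-(n : ℤ), 1] := by
  intro O hO
  have h0 := h.gF O hO 0
  have h1 := h.gF O hO 1
  rw [h.lb]
  set g0 := gn (fF n x y 0) O
  set g1 := gn (fF n x y 1) O
  have e : y * (g0 ^ (-(![-(n : ℤ), 1] : Fin 2 → ℤ) 0) * g1 ^ (-(![-(n : ℤ), 1] : Fin 2 → ℤ) 1)) =
      y / g1 * g0 ^ n := by
    simp [div_eq_mul_inv]
    ring
  rw [e]
  obtain ⟨a, ha, hu⟩ := h0.2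
  have ha' : a = 1 ∨ a = x := by simpa [fF] using ha
  rcases ha' with rfl | rfl
  · have : g0 ∈ O := by simpa using hu.2.2
    exact O.mul_mem (h1.1 y (by simp [fF])) (O.pow_mem this n)
  · have h2 : g0 / a ∈ O := by simpa using hu.2.2
    have ha0 : a ≠ 0 := by simpa using h.gen.x_ne 0
    have e2 : y / g1 * g0 ^ n = a ^ n * y / g1 * (g0 / a) ^ n := by
      rw [div_pow]
      field_simp
    rw [e2]
    exact O.mul_mem (h1.1 _ (by simp [fF])) (O.pow_mem h2 n)

theorem rk_two_fn {n : ℕ} {x y : M} {F G : Place k M} (h : Fn1 k n x y F G)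
    (mf : Mf (fn k n x y)) (nl : Nl (fn k n x y)) :
    ∃ f g, Zf (fn k n x y) f ∧ Nc (fn k n x y) f ∧ (∀ c, Zf (fn k n x y) c → c = f ∨ c = g) ∧
      (Nc (fn k n x y) g ∨ ∀ h', Pos (fn k n x y) h' →
        (fn k n x y).i h' f < (fn k n x y).i h' g) := by
  have hK : (fn k n x y).K = ![(n : ℤ) - 2, -2] := rfl
  have hh : (fn k n x y).h = ![1, 1] := rfl
  have pF : ![1, 0] ∈ (fn k n x y).PP := ⟨1, F, h.pF⟩
  have pG : ![0, 1] ∈ (fn k n x y).PP := ⟨1, G, h.pG⟩
  have zf : Zf (fn k n x y) ![1, 0] := by constructor <;> simp [Sd.i, rk_fn, hK]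
  have nf : Nc (fn k n x y) ![1, 0] :=
    rk_nc nl mf.kne (rk_ef pF) zf (by simp [Sd.i, rk_fn, hh]) pG
      (by simp [Sd.i, rk_fn, hK]; ring) (by simp [Sd.i, rk_fn]) (by simp [Sd.i, rk_fn])
  have key : ∀ c, Zf (fn k n x y) c → c = ![1, 0] ∨ (c 1 = 1 ∧ 2 * c 0 = -n) := by
    intro c hc
    have h1 := hc.1
    have h2 := hc.2
    simp [Sd.i, rk_fn, hK] at h1 h2
    have h3 : c 1 * (2 * c 0 + n * c 1) = 0 := by linarith
    rcases mul_eq_zero.1 h3 with h4 | h4
    · left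
      rw [h4] at h2
      funext i
      fin_cases i
      · simp
        linarith
      · simpa using h4
    · have h5 : c 1 = 1 := by linarith
      rw [h5] at h4
      exact Or.inr ⟨h5, by linarith⟩
  rcases Nat.even_or_odd' n with ⟨r, hr | hr⟩
  · refine ⟨![1, 0], ![-(r : ℤ), 1], zf, nf, fun c hc => (key c hc).imp id fun h4 => ?_, ?_⟩
    · funext i
      fin_cases i
      · have := h4.2
        simp
        omega
      · simpa using h4.1
    rcases Nat.eq_zero_or_pos r with rfl | hp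
    · left
      have hn : (n : ℤ) = 0 := by omega
      have e : (![-((0 : ℕ) : ℤ), 1] : Fin 2 → ℤ) = ![0, 1] := by simp
      rw [e]
      exact rk_nc nl mf.kne (rk_ef pG) (by constructor <;> simp [Sd.i, rk_fn, hK, hn])
        (by simp [Sd.i, rk_fn, hh, hn]) pF (by simp [Sd.i, rk_fn, hK]) (by simp [Sd.i, rk_fn])
        (by simp [Sd.i, rk_fn])
    · right
      intro h' hp'
      have hs := mf.all.a2.eff1 _ y (rk_sec h.toFn0) (by simpa using h.gen.y_ne 0)
      have h6 := (rk_pos hp' hs).resolve_left fun e => by simpa using congrFun e 1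
      have h7 := hp' _ pF
      have hn : (n : ℤ) = 2 * r := by omega
      have hr' : (1 : ℤ) ≤ r := by omega
      simp [Sd.i, rk_fn] at h6 h7 ⊢
      rw [hn] at *
      nlinarith
  · refine ⟨![1, 0], ![1, 0], zf, nf, fun c hc => Or.inl ((key c hc).resolve_right fun h4 => ?_),
      Or.inl nf⟩
    have := h4.2
    omega

theorem rk_two_bl {x y : M} {O₀ : Subalgebra k M} {a b : M} {H' : Set M}
    {e : Subalgebra k M → M} {E : Place k M} (h : Bl2 (p2 k x y) O₀ a b H' e E)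
    (mf : Mf ((p2 k x y).blow H' e)) (nl : Nl ((p2 k x y).blow H' e)) :
    ∃ f, Zf ((p2 k x y).blow H' e) f ∧ Nc ((p2 k x y).blow H' e) f ∧
      ∀ c, Zf ((p2 k x y).blow H' e) c → c = f := by
  have hK : ((p2 k x y).blow H' e).K = pb (fun _ => -3) 1 := rfl
  have hh : ((p2 k x y).blow H' e).h = pb ((2 : ℤ) • fun _ => 1) (-1) := rfl
  have hf : ((p2 k x y).blow H' e).f = pb (fun _ => 1) 0 := rfl
  have pE : pb 0 1 ∈ ((p2 k x y).blow H' e).PP :=
    ⟨1, E, (h.prm 0 1 1 E).2 (Or.inl ⟨rfl, rfl, rfl, fun O _ =>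
      ⟨one_ne_zero, O.one_mem, by simp⟩⟩)⟩
  have zf : Zf ((p2 k x y).blow H' e) (pb (fun _ => 1) (-1)) := by
    constructor <;> simp [Sd.i, ip_pb, rk_p2, hK]
  have ef : pb (fun _ => 1) (-1) ∈ ((p2 k x y).blow H' e).Ef := by
    have h1 := mf.all.s.rr (pb (fun _ => 1) (-1)) (by simp [ip_pb, rk_p2, hf])
    have h2 : chi2 ((p2 k x y).blow H' e).B ((p2 k x y).blow H' e).K (pb (fun _ => 1) (-1)) = 4 := by
      simp [chi2, ip_pb, rk_p2, hK]
    rw [h2, Sd.h0] at h1
    have h3 : ((p2 k x y).blow H' e).Sec (pb (fun _ => 1) (-1)) ≠ ⊥ := fun h0 => by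
      rw [h0, finrank_bot] at h1
      omega
    obtain ⟨φ, hφ, h4⟩ := (Submodule.ne_bot_iff _).1 h3
    exact mf.all.a2.eff1 _ φ hφ h4
  refine ⟨_, zf, rk_nc nl mf.kne ef zf (by simp [Sd.i, ip_pb, rk_p2, hh]) pE
    (by simp [Sd.i, ip_pb, rk_p2, hK]) (by simp [Sd.i, ip_pb, rk_p2])
    (by simp [Sd.i, ip_pb, rk_p2]), fun c hc => ?_⟩
  obtain ⟨c₀, m, rfl⟩ := exists_pb c
  have h1 := hc.1
  have h2 := hc.2
  simp only [Sd.i, ip_pb, rk_p2, hK] at h1 h2
  have h3 : m = 2 - 3 * c₀ () := by linarith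
  have h4 : (2 * c₀ () - 1) * (c₀ () - 1) = 0 := by
    rw [h3] at h1
    linarith
  have h5 : c₀ () = 1 := by
    rcases mul_eq_zero.1 h4 with h5 | h5 <;> omega
  have h6 : c₀ = fun _ => 1 := funext fun _ => h5
  rw [h3, h6]
  rfl

end

theorem rk_stmt : RkStmt := by
  intro hnl k M I _ _ _ _ _ _ S hS mf
  have nl := hnl k M I S mf.all
  refine ⟨rk_card hS, ?_⟩
  cases hS with
  | p2 x y L h =>
    refine ⟨fun _ => ⟨fun _ => 1, rfl, ?_⟩, fun hc => absurd hc (by simp)⟩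
    have hK : (p2 k x y).K = fun _ => -3 := rfl
    have hh : (p2 k x y).h = fun _ => 1 := rfl
    exact nl.nc _ mf.all.a2.heff (by simp [Sd.i, rk_p2, hK, hh]) (by simp [Sd.i, rk_p2, hh])
      (Or.inl (by simp [Sd.i, rk_p2, hh])) 0 (zero_mem _) nl.ex0 (by simp [Sd.i, rk_p2, hh]) mf.kne
  | fn n x y F G h => exact ⟨fun hc => absurd hc (by simp), fun _ => rk_two_fn h mf nl⟩
  | bl S O₀ a b H' e E hS h =>
    have h0 := rk_card hS
    refine ⟨fun hc => ?_, fun hc => ?_⟩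
    · rw [Fintype.card_option] at hc
      omega
    rw [Fintype.card_option] at hc
    cases hS with
    | p2 x y L h' =>
      obtain ⟨f, h1, h2, h3⟩ := rk_two_bl h mf nl
      exact ⟨f, f, h1, h2, fun c hc => Or.inl (h3 c hc), Or.inl h2⟩
    | fn n x y F G h' => exact absurd hc (by simp)
    | bl S' O₁ a' b' H'' e' E' hS' h' =>
      have h1 := rk_card hS'
      rw [Fintype.card_option] at hc
      omega

end Pool.Agent.MP_e8e0b6_ag.R2
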