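import Pool.Agent.MP_e8e0b6_ag.R2.SpecA

/-!
Sections on the geometric generic fibre are spanned by sections on the family.
-/

set_option autoImplicit false

namespace Pool.Agent.MP_e8e0b6_ag.R2

open Pool.Agent.MP_79c67d_ag Pool.Agent.MP_20d318_ag Pool.Agent.MP_20d318_ag.AG
  Pool.Agent.MP_20d318_ag.BV Pool.Agent.MP_20d318_ag.CB

namespace S1A

variable {k F Ω E : Type} [Field k] [Field F] [Field Ω] [Field E] [Algebra k F] [Algebra k E]
  [Algebra Ω E]

/-- The functions that multiply `v` into a module over a larger ring. -/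
def nn {C A : Subalgebra k F} (h : C ≤ A) (M : Submodule A F) (v : F) : Submodule C F where
  carrier := {z | z * v ∈ M}
  add_mem' := fun {a b} ha hb => by
    change (a + b) * v ∈ M
    rw [add_mul]
    exact M.add_mem ha hb
  zero_mem' := by
    change 0 * v ∈ M
    rw [zero_mul]
    exact M.zero_mem
  smul_mem' := fun c a ha => by
    change (c : F) * a * v ∈ M
    rw [mul_assoc]
    exact M.smul_mem ⟨c, h c.2⟩ ha

/-- The extension of a module over a chart is a module over the chart of the fibre. -/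
theorem mul_mem {C : Subalgebra k F} {H : Set F} {j : F} (μ : F →ₐ[k] E)
    (M : Submodule (ch C H j) F) {r w : E} (hr : r ∈ ch (⊥ : Subalgebra Ω E) (μ '' H) (μ j))
    (hw : w ∈ Submodule.span Ω (μ '' M)) : r * w ∈ Submodule.span Ω (μ '' M) := by
  let T : Subalgebra Ω E :=
    { carrier := {r | ∀ w ∈ Submodule.span Ω (μ '' M), r * w ∈ Submodule.span Ω (μ '' M)}
      mul_mem' := fun {a b} ha hb w hw => by
        rw [mul_assoc]
        exact ha _ (hb w hw)
      add_mem' := fun {a b} ha hb w hw => by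
        rw [add_mul]
        exact add_mem (ha w hw) (hb w hw)
      algebraMap_mem' := fun c w hw => by
        rw [← Algebra.smul_def]
        exact Submodule.smul_mem _ c hw }
  refine (ch_le (O := T)).2 ⟨bot_le, ?_⟩ hr w hw
  rintro _ ⟨a, ha, rfl⟩ w hw
  induction hw using Submodule.span_induction with
  | mem _ h =>
    obtain ⟨m, hm, rfl⟩ := h
    rw [← map_div₀, ← map_mul]
    exact Submodule.subset_span ⟨_, M.smul_mem ⟨_, div_mem_ch ha⟩ hm, rfl⟩
  | zero => rw [mul_zero]; exact zero_mem _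
  | add x y _ _ hx hy => rw [mul_add]; exact add_mem hx hy
  | smul c x _ hx => rw [mul_smul_comm]; exact Submodule.smul_mem _ c hx

theorem div_mem {C A : Subalgebra k F} (h : C ≤ A) (μ : F →ₐ[k] E) (M : Submodule A F) {v : F}
    (hv : v ≠ 0) {w : E} (hw : w ∈ Submodule.span Ω (μ '' M)) :
    w / μ v ∈ Submodule.span Ω (μ '' nn h M v) := by
  induction hw using Submodule.span_induction with
  | mem _ h =>
    obtain ⟨m, hm, rfl⟩ := h
    rw [← map_div₀]
    refine Submodule.subset_span ⟨_, ?_, rfl⟩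
    change m / v * v ∈ M
    rwa [div_mul_cancel₀ _ hv]
  | zero => rw [zero_div]; exact zero_mem _
  | add x y _ _ hx hy => rw [add_div]; exact add_mem hx hy
  | smul c x _ hx => rw [smul_div_assoc]; exact Submodule.smul_mem _ c hx

end S1A

theorem s1A_stmt : S1AStmt := by
  intro hX hD hB k F Ω E J _ _ _ _ _ _ _ _ C H μ S' γ hF hG hγ y hy
  obtain ⟨U, V, -, hV, hγ⟩ := hγ
  let N : F × F → Submodule C F := fun i =>
    S1A.nn (le_ch (H := H) (j := i.1)) (Submodule.span _ U) i.2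
  have h1 : ∀ i ∈ H ×ˢ (V \ {0}), y ∈ Submodule.span Ω (μ '' N i) := by
    rintro ⟨j, v⟩ ⟨hj, hv, hv0⟩
    have h2 : y * μ v ∈ Submodule.span (ch (⊥ : Subalgebra Ω E) (μ '' H) (μ j)) (μ '' U) := by
      refine glob _ fun O' hO' => ?_
      have hT : O' ∈ S'.T := by
        rw [hG.eq, mp_eq_XX]
        exact ⟨_, ⟨j, hj, rfl⟩, hO'⟩
      obtain ⟨O, hO, he⟩ := hB k F Ω E J C H μ S' (hX k F C H hF) hG O' hT
      obtain ⟨a, b, g1, g2, hu⟩ := hγ O hO
      obtain ⟨u, hu1, hu2⟩ := g1.2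
      have h3 := O'.mul_mem (hy O' hT O hO fun a => (he a).1)
        ((he _).1 (hu2.div_mem (hu.div_mem (g2.1 v hv))))
      have h4 : γ O * (v / b / (γ O * a / b) / (u / a)) * u = v := by
        have := g1.ne
        have := g2.ne
        have := (div_ne_zero_iff.1 hu2.1).1
        have := left_ne_zero_of_mul (div_ne_zero_iff.1 hu.1).1
        field_simp
      rw [← h4, map_mul, map_mul, ← mul_assoc, ← mul_assoc]
      exact Submodule.smul_mem _ (⟨_, h3⟩ : O')
        (Submodule.subset_span (Submodule.subset_span ⟨u, hu1, rfl⟩))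
    have h5 : ∀ w ∈ Submodule.span (ch (⊥ : Subalgebra Ω E) (μ '' H) (μ j)) (μ '' U),
        w ∈ Submodule.span Ω (μ '' Submodule.span (ch C H j) U) := fun w hw => by
      induction hw using Submodule.span_induction with
      | mem _ h =>
        obtain ⟨u, hu, rfl⟩ := h
        exact Submodule.subset_span ⟨u, Submodule.subset_span hu, rfl⟩
      | zero => exact zero_mem _
      | add x y _ _ hx hy => exact add_mem hx hy
      | smul c x _ hx => exact S1A.mul_mem μ _ c.2 hx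
    have h6 := S1A.div_mem (le_ch (H := H) (j := j)) μ _ hv0 (h5 _ h2)
    rwa [mul_div_cancel_right₀ _ ((map_ne_zero μ).2 hv0)] at h6
  have h7 : ∀ s : Set (F × F), s.Finite → (∀ i ∈ s, y ∈ Submodule.span Ω (μ '' N i)) →
      ∀ N₀ : Submodule C F, y ∈ Submodule.span Ω (μ '' N₀) →
        ∃ N' : Submodule C F, y ∈ Submodule.span Ω (μ '' N') ∧ ∀ i ∈ s, N' ≤ N i := by
    intro s hs
    induction s, hs using Set.Finite.induction_on with
    | empty => exact fun _ N₀ h => ⟨N₀, h, fun _ h => h.elim⟩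
    | @insert i s _ _ ih =>
      intro h N₀ h0
      obtain ⟨N', h8, h9⟩ := ih (fun i hi => h i (Or.inr hi)) N₀ h0
      refine ⟨N' ⊓ N i, hD k F Ω E C μ hG.base hG.ld N' (N i) ⟨h8, h i (Or.inl rfl)⟩, ?_⟩
      rintro _ (rfl | hi)
      · exact inf_le_right
      · exact inf_le_left.trans (h9 _ hi)
  obtain ⟨j₀, hj₀⟩ := hF.ne
  obtain ⟨-, b₀, -, g₀, -⟩ := hγ ⊤ ⟨j₀, hj₀, top_mem_Pts (hF.frac j₀ hj₀)⟩
  obtain ⟨v₀, hv₀, hu₀⟩ := g₀.2
  obtain ⟨N', h8, h9⟩ := h7 _ (hF.fin.prod (hV.1.subset Set.sdiff_subset)) h1 _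
    (h1 (j₀, v₀) ⟨hj₀, hv₀, (div_ne_zero_iff.1 hu₀.1).1⟩)
  refine Submodule.span_mono (Set.image_mono fun z hz O hO => ?_) h8
  obtain ⟨a, b, g1, g2, hu⟩ := hγ O hO
  obtain ⟨j, hj, hO'⟩ := hO
  obtain ⟨v, hv, hv'⟩ := g2.2
  have hv0 := (div_ne_zero_iff.1 hv'.1).1
  have h10 : z * v / a ∈ O := span_div_mem g1.1 hO'.2.1 (h9 (j, v) ⟨hj, hv, hv0⟩ hz)
  convert hv'.div_mem (O.mul_mem h10 hu.mem) using 1
  have := g1.ne
  have := g2.ne
  field_simp

end Pool.Agent.MP_e8e0b6_ag.R2
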