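import Pool.Agent.MP_e8e0b6_ag.R2.SpecA

/-!
The specialization of classes for normalized families.
-/

set_option autoImplicit false

namespace Pool.Agent.MP_e8e0b6_ag.R2

open Pool.Agent.MP_79c67d_ag Pool.Agent.MP_20d318_ag Pool.Agent.MP_20d318_ag.AG
  Pool.Agent.MP_20d318_ag.BV Pool.Agent.MP_20d318_ag.CB

namespace SpnA

theorem ef_iff {k M I : Type} [Field k] [Field M] [Algebra k M] [Fintype I] {S : Sd k M I}
    (h : SAll S) (c : I → ℤ) : c ∈ S.Ef ↔ 0 < S.h0 c := by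
  have := h.s.fd c
  rw [Sd.h0, Int.natCast_pos, Module.finrank_pos_iff, Submodule.nontrivial_iff_ne_bot,
    Submodule.ne_bot_iff]
  exact ⟨h.a2.eff2 c, fun ⟨φ, h1, h2⟩ => h.a2.eff1 c φ h1 h2⟩

variable {k F M Ω E I J : Type} [Field k] [Field F] [Field M] [Field Ω] [Field E] [Algebra k F]
  [Algebra k M] [Algebra k E] [Algebra Ω E] [Fintype I] [Fintype J] {R : Subalgebra k F}
  {H : Set F} {ξ : Subalgebra k F} {ρ : ξ →ₐ[k] M} {S : Sd k M I} {μ : F →ₐ[k] E} {S' : Sd Ω E J}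

/-- The pairs of classes of line bundles on the family. -/
def Gam (t : Tw R H ξ ρ S μ S') : AddSubgroup ((J → ℤ) × (I → ℤ)) where
  carrier := {p | ∃ γ, Pr R H ξ ρ S μ S' γ p.1 p.2}
  zero_mem' := ⟨1, Dt.one, t.lg.one, t.lb.one⟩
  add_mem' := fun ⟨γ, a1, a2, a3⟩ ⟨γ', b1, b2, b3⟩ =>
    ⟨γ * γ', a1.mul b1, t.lg.mul _ _ _ _ a2 b2, t.lb.mul _ _ _ _ a3 b3⟩
  neg_mem' := fun ⟨γ, a1, a2, a3⟩ => ⟨γ⁻¹, a1.inv, t.lg.inv _ _ a2, t.lb.inv _ _ a3⟩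

theorem part1 (t : Tw R H ξ ρ S μ S') (β : (J → ℤ) ≃+ (I → ℤ))
    (gr : ∀ γ c d, Pr R H ξ ρ S μ S' γ c d → GrC R H ξ ρ S S' γ c d)
    (hex : ∀ c, ∃ d, (c, d) ∈ Gam t) (hb : ∀ p ∈ Gam t, β p.1 = p.2)
    (hi : ∀ c c', S.i (β c) (β c') = S'.i c c') (hK : β S'.K = S.K) :
    LA R H ξ ρ S ∧ Sp R H ξ ρ S μ S' β := by
  have eff : ∀ c ∈ S'.Ef, β c ∈ S.Ef := fun c hc => by
    obtain ⟨d, γ, hγ⟩ := hex c
    rw [hb (c, d) ⟨γ, hγ⟩, ef_iff t.ln.mf.all]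
    exact ((ef_iff t.gm.mf.all c).1 hc).trans_le (gr γ c d hγ).1
  have key : ∀ d γ, Dt (XX R H) γ → Lb R H ξ ρ S d γ → Ex S d →
      (∀ s ∈ S.Sec d, ∃ z ∈ Sc (XX R H) γ, evO ξ ρ z = s) ∧
      ∀ W ⊆ Sc (XX R H) γ, S.Sec d ≤ Submodule.span k (evO ξ ρ '' W) →
        ∀ z ∈ Sc (XX R H) γ, z ∈ Submodule.span R W := by
    intro d γ h1 h2 h3
    obtain ⟨c, hc⟩ := t.lg.ex γ h1
    have e : β c = d := hb (c, d) ⟨γ, h1, hc, h2⟩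
    refine (gr γ c d ⟨h1, hc, h2⟩).2 ?_
    by_cases hq : S'.K - c ∈ S'.Ef
    · have h4 := eff _ hq
      rw [map_sub, hK, e] at h4
      have h5 : ¬ 0 < S.h0 d := fun h => t.ln.mf.kne (by
        simpa using S.Ef.add_mem h4 ((ef_iff t.ln.mf.all d).2 h))
      exact (not_lt.1 h5).trans (Int.natCast_nonneg _)
    · have h4 := t.gm.mf.all.a4.rr2 c hq
      have h5 : chi2 S.B S.K d = chi2 S'.B S'.K c := by
        have i1 := hi c c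
        have i2 := hi S'.K c
        rw [e] at i1
        rw [e, hK] at i2
        unfold chi2
        rw [← Sd.i, ← Sd.i, i1, i2]
      unfold Ex at h3
      omega
  refine ⟨⟨fun d => ?_, fun d γ h1 h2 h3 => (key d γ h1 h2 h3).1,
    fun d γ h1 h2 h3 => (key d γ h1 h2 h3).2⟩, hi, hK, eff, fun c γ h1 h2 => ?_,
    fun h' hh => ?_⟩
  · obtain ⟨d', γ, hγ⟩ := hex (β.symm d)
    have e := hb (_, d') ⟨γ, hγ⟩
    rw [AddEquiv.apply_symm_apply] at e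
    exact ⟨γ, hγ.1, e ▸ hγ.2.2⟩
  · obtain ⟨u, hu, d, hd⟩ := t.lb.ex γ h1
    have e : β c = d := hb (c, d) ⟨_, h1.scal hu, t.lg.scal _ _ u hu h2, hd⟩
    exact ⟨u, hu, e ▸ hd⟩
  · obtain ⟨u, h₁, h, hu, hp, -, ha⟩ := t.hyp
    have e : h' = h₁ := t.lg.uniq _ _ _
      (t.lg.scal _ _ u hu.1 (t.lg.sys H h' t.ln.xb.sys hh)) hp.2.1
    have e2 : β h₁ = h := hb (h₁, h) ⟨_, hp⟩
    rw [e, e2]
    exact ha.pos

end SpnA

open SpnA in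
theorem spn_stmt : SpnStmt := by
  intro lat gr iso can k F M Ω E I J _ _ _ _ _ _ _ _ _ _ _ _ _ _ _ R H ξ ρ S μ S' t
  have hsq : ∀ p ∈ Gam t, S.i p.2 p.2 = S'.i p.1 p.1 := fun p ⟨γ, hγ⟩ =>
    iso k F M Ω E I J R H ξ ρ S μ S' γ p.1 p.2 t hγ False.elim
  have hK : (S'.K, S.K) ∈ Gam t := can k F M Ω E I J R H ξ ρ S μ S' t.ln t.gm
  refine ⟨fun hc => ?_, fun hd c => ?_⟩
  · have hex : ∀ c, ∃ d, (c, d) ∈ Gam t := fun c => by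
      obtain ⟨γ, h1, h2⟩ := hc c
      obtain ⟨u, hu, d, hd⟩ := t.lb.ex γ h1
      exact ⟨d, _, h1.scal hu, t.lg.scal _ _ u hu h2, hd⟩
    obtain ⟨β, hb, hi⟩ := lat Ω E J k M I S' S (Gam t) t.gm.mf.all t.ln.mf.all t.gm.mf.hg
      t.ln.mf.hg t.gm.mf.lt hex hsq hK
    have h := part1 t β (fun γ c d => gr k F M Ω E I J R H ξ ρ S μ S' γ c d t.ln t.gm) hex hb hi
      (hb _ hK)
    exact ⟨h.1, β, h.2⟩
  · have hex : ∀ d, ∃ c, (d, c) ∈ (Gam t).comap (AddEquiv.prodComm : _ ≃+ _).toAddMonoidHom :=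
      fun d => by
        obtain ⟨γ, h1, h2⟩ := hd d
        obtain ⟨c, hc⟩ := t.lg.ex γ h1
        exact ⟨c, γ, h1, hc, h2⟩
    obtain ⟨β, hb, -⟩ := lat k M I Ω E J S S' _ t.ln.mf.all t.gm.mf.all t.ln.mf.hg t.gm.mf.hg
      t.ln.mf.lt hex (fun p hp => (hsq _ hp).symm) hK
    obtain ⟨c', hc'⟩ := hex (β.symm c)
    have e := hb _ hc'
    rw [AddEquiv.apply_symm_apply] at e
    obtain ⟨γ, h1, h2, -⟩ := hc'
    exact ⟨γ, h1, e ▸ h2⟩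

end Pool.Agent.MP_e8e0b6_ag.R2
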