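import Pool.Agent.MP_e8e0b6_ag.R2.SpecA

/-! A graded module that is killed by powers of the variables vanishes in large degree. -/

set_option autoImplicit false

namespace Pool.Agent.MP_e8e0b6_ag.R2

open Polynomial

namespace Stab

variable {A G : Type} [CommRing A] [Field G] [Algebra A G] {S : Set G}

theorem coeff_mem {q : G[X]} (h : q ∈ Algebra.adjoin A ((fun a => monomial 1 a) '' S)) (i : ℕ) :
    q.coeff i ∈ Submodule.span A S ^ i := by
  induction h using Algebra.adjoin_induction generalizing i with
  | mem x hx =>
    obtain ⟨a, ha, rfl⟩ := hx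
    rw [coeff_monomial]
    split_ifs with e
    · rw [← e, pow_one]
      exact Submodule.subset_span ha
    · exact Submodule.zero_mem _
  | algebraMap r =>
    rw [Polynomial.algebraMap_apply, coeff_C]
    split_ifs with e
    · rw [e, pow_zero]
      exact Submodule.algebraMap_mem r
    · exact Submodule.zero_mem _
  | add x y _ _ hx hy => rw [coeff_add]; exact Submodule.add_mem _ (hx i) (hy i)
  | mul x y _ _ hx hy =>
    rw [coeff_mul]
    refine Submodule.sum_mem _ fun c hc => ?_
    rw [← Finset.HasAntidiagonal.mem_antidiagonal.1 hc, pow_add]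
    exact Submodule.mul_mem_mul (hx _) (hy _)

theorem one_mem' {a : G} (h : a ∈ Submodule.span A S) :
    monomial 1 a ∈ Algebra.adjoin A ((fun a => monomial 1 a) '' S) := by
  induction h using Submodule.span_induction with
  | mem x hx => exact Algebra.subset_adjoin ⟨x, hx, rfl⟩
  | zero => simp
  | add x y _ _ hx hy => rw [map_add]; exact Subalgebra.add_mem _ hx hy
  | smul r x _ hx => rw [← smul_monomial]; exact Subalgebra.smul_mem _ hx r

theorem mono_mem (m : ℕ) {s : G} (h : s ∈ Submodule.span A S ^ m) :
    monomial m s ∈ Algebra.adjoin A ((fun a => monomial 1 a) '' S) := by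
  induction m generalizing s with
  | zero =>
    rw [pow_zero, Submodule.mem_one] at h
    obtain ⟨r, rfl⟩ := h
    exact Subalgebra.algebraMap_mem _ r
  | succ m ih =>
    rw [pow_succ] at h
    refine Submodule.mul_induction_on h (fun x hx y hy => ?_) fun x y hx hy => ?_
    · rw [← monomial_mul_monomial]
      exact Subalgebra.mul_mem _ (ih hx) (one_mem' hy)
    · rw [map_add]
      exact Subalgebra.add_mem _ hx hy

end Stab

theorem stab_stmt : StabStmt := by
  classical
  rintro A G _ _ _ _ _ I p ⟨S, rfl⟩ h1 h2
  set B := Algebra.adjoin A ((fun a => monomial 1 a) '' (S : Set G)) with hB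
  have : IsNoetherianRing B := isNoetherianRing_of_fg
    (Subalgebra.fg_def.2 ⟨_, S.finite_toSet.image _, rfl⟩)
  let J : Ideal B :=
    { carrier := {q | ∀ i, (q : G[X]).coeff i ∈ p}
      add_mem' := fun hx hy i => by
        rw [Subalgebra.coe_add, coeff_add]
        exact p.add_mem (hx i) (hy i)
      zero_mem' := fun i => by simp
      smul_mem' := fun c x hx i => by
        rw [smul_eq_mul, Subalgebra.coe_mul, coeff_mul]
        exact p.sum_mem fun a _ => h1 _ _ (Stab.coeff_mem c.2 _) _ (hx _) }
  obtain ⟨T, hT⟩ := IsNoetherian.noetherian J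
  have hm : ∀ q ∈ T, q ∈ J := fun q hq => hT ▸ Submodule.subset_span hq
  choose! f hf using fun (q : B) (hq : q ∈ T) (i : ℕ) =>
    h2 i _ (Stab.coeff_mem q.2 i) (hm q hq i)
  refine ⟨T.sup fun q => (q : G[X]).support.sup fun i => i + f q i, fun m hm0 s hs hp => ?_⟩
  have key : ∀ x ∈ Submodule.span B (T : Set B), ∀ b : B,
      ((b * x : B) : G[X]).coeff m ∈ I • Submodule.span A (S : Set G) ^ m := by
    intro x hx
    induction hx using Submodule.span_induction with
    | mem q hq =>
      intro b
      rw [Subalgebra.coe_mul, coeff_mul]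
      refine Submodule.sum_mem _ fun c hc => ?_
      have e := Finset.HasAntidiagonal.mem_antidiagonal.1 hc
      by_cases h0 : c.2 ∈ (q : G[X]).support
      · have a : c.2 + f q c.2 ≤ m := le_trans (le_trans
          (Finset.le_sup (f := fun i => i + f q i) h0)
          (Finset.le_sup (f := fun q : B => (q : G[X]).support.sup fun i => i + f q i) hq)) hm0
        rw [mul_comm, ← e, add_comm]
        exact hf q hq c.2 c.1 (by omega) _ (Stab.coeff_mem b.2 _)
      · rw [notMem_support_iff.1 h0, mul_zero]
        exact Submodule.zero_mem _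
    | zero => intro b; simp
    | add x y _ _ hx hy =>
      intro b
      rw [mul_add, Subalgebra.coe_add, coeff_add]
      exact Submodule.add_mem _ (hx b) (hy b)
    | smul c x _ hx =>
      intro b
      rw [smul_eq_mul, ← mul_assoc]
      exact hx _
  have hJ : (⟨monomial m s, Stab.mono_mem m hs⟩ : B) ∈ J := fun i => by
    change (monomial m s).coeff i ∈ p
    rw [coeff_monomial]
    split_ifs
    exacts [hp, p.zero_mem]
  have := key _ (hT ▸ hJ) 1
  rw [one_mul] at this
  change (monomial m s).coeff m ∈ _ at this
  rwa [coeff_monomial, if_pos rfl] at this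

end Pool.Agent.MP_e8e0b6_ag.R2
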