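import Pool.Agent.MP_e8e0b6_ag.R2.SpecA

/-!
Twisted sections on the generic fibre and on the family are forms.
-/

set_option autoImplicit false

namespace Pool.Agent.MP_e8e0b6_ag.R2

open Pool.Agent.MP_79c67d_ag Pool.Agent.MP_20d318_ag Pool.Agent.MP_20d318_ag.AG
  Pool.Agent.MP_20d318_ag.BV Pool.Agent.MP_20d318_ag.CB
open scoped Pointwise

namespace TwgA

variable {k F Ω E : Type} [Field k] [Field F] [Field Ω] [Field E] [Algebra k F] [Algebra k E]
  [Algebra Ω E] {R : Subalgebra k F} {H : Set F} {μ : F →ₐ[k] E}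

theorem lin (hb : ∀ c ∈ R, μ c ∈ Set.range (algebraMap Ω E)) {a : F}
    (ha : a ∈ Submodule.span R H) : μ a ∈ Submodule.span Ω (μ '' H) := by
  induction ha using Submodule.span_induction with
  | mem x hx => exact Submodule.subset_span ⟨x, hx, rfl⟩
  | zero => rw [map_zero]; exact zero_mem _
  | add x y _ _ hx hy => rw [map_add]; exact add_mem hx hy
  | smul r x _ hx =>
    obtain ⟨e, he⟩ := hb r r.2
    change μ (r * x) ∈ _
    rw [map_mul, ← he, ← Algebra.smul_def]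
    exact Submodule.smul_mem _ _ hx

theorem down (hb : ∀ c ∈ R, μ c ∈ Set.range (algebraMap Ω E)) {n : ℕ} {a : F}
    (ha : a ∈ Fo R H n) : μ a ∈ Fo Ω (μ '' H) n := by
  induction ha using Submodule.pow_induction_on_left' with
  | algebraMap r =>
    rw [Fo, pow_zero]
    exact Submodule.mem_one.2 (hb r r.2)
  | add x y i _ _ hx hy => rw [map_add]; exact add_mem hx hy
  | mem_mul m hm i x _ hx =>
    rw [map_mul, Fo, pow_succ']
    exact Submodule.mul_mem_mul (lin hb hm) hx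

theorem up (n : ℕ) : Fo Ω (μ '' H) n ≤ Submodule.span Ω (μ '' Fo R H n) := by
  induction n with
  | zero =>
    rw [Fo, pow_zero, Submodule.one_le]
    exact Submodule.subset_span ⟨1, Submodule.one_le.1 (pow_zero _).ge, map_one μ⟩
  | succ n ih =>
    rw [Fo, pow_succ']
    refine (mul_le_mul_right ih _).trans ?_
    rw [Submodule.span_mul_span, Submodule.span_le]
    rintro _ ⟨_, ⟨a, ha, rfl⟩, _, ⟨b, hb, rfl⟩, rfl⟩
    refine Submodule.subset_span ⟨a * b, ?_, map_mul μ a b⟩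
    rw [Fo, pow_succ']
    exact Submodule.mul_mem_mul (Submodule.subset_span ha) hb

end TwgA

open TwgA in
theorem twg_stmt : TwgStmt := by
  intro form k F Ω E J _ _ _ _ _ _ _ _ R H μ S' γ m w xb gm hd hγ
  refine ⟨fun z hz => ?_, fun c φ hφ => ?_⟩
  · obtain ⟨n₀, h₀⟩ := (form R F H ⊤ xb.fm.fin xb.fm.nz).2 m (z * w) fun j hj => by
      rw [Submodule.top_smul]
      refine mem_ch.1 (mem_of_pts fun O hO => ?_)
      obtain ⟨hX, g⟩ := (xb.pts j hj O).1 hO
      have n1 := hγ O hX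
      refine Eq.mp (congrArg (· ∈ _) ?_) (mul_mem (hz O hX) (hd O hX j g))
      field_simp
    exact ⟨n₀, fun n hn h hh => by
      have := h₀ n hn h hh
      rwa [Submodule.top_smul, mul_assoc] at this⟩
  have key : ∀ y ∈ S'.Sec c, ∃ n₀, ∀ n ≥ n₀, ∀ v ∈ Fo Ω (μ '' H) n,
      y / φ * μ w * v ∈ (⊤ : Ideal Ω) • Fo Ω (μ '' H) (m + n) := fun y hy => by
    refine (form Ω E _ ⊤ (xb.fm.fin.image _) ?_).2 m _ ?_
    · rintro _ ⟨j, hj, rfl⟩
      exact (map_ne_zero μ).2 (xb.fm.nz j hj)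
    rintro _ ⟨j, hj, rfl⟩
    rw [Submodule.top_smul]
    refine mem_of_pts (C := Algebra.adjoin Ω _) fun O' hO' => ?_
    have hT : O' ∈ S'.T := by
      rw [gm.eq, mp_eq_XX]
      exact ⟨μ j, ⟨j, hj, rfl⟩, by rwa [ch, bot_sup_eq]⟩
    obtain ⟨O, hO, hb⟩ := gm.bg O' hT
    have g : Gn H O j := gn_of_mem hj (xb.fm.nz j hj) fun a ha => (hb _).2 (by
      rw [map_div₀]
      exact hO'.2.1 (Algebra.subset_adjoin ⟨μ a, ⟨a, ha, rfl⟩, rfl⟩))
    have u := hφ O' hT O hO fun a ha => (hb a).1 ha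
    have h1 := (hb _).1 (hd O hO j g)
    rw [map_div₀, map_mul, map_pow] at h1
    obtain ⟨n1, n2⟩ := div_ne_zero_iff.1 u.ne
    obtain ⟨n3, n4⟩ := mul_ne_zero_iff.1 n2
    refine Eq.mp (congrArg (· ∈ _) ?_) (mul_mem (mul_mem (hy O' hT) u.mem) h1)
    field_simp
  have := gm.mf.all.s.fd c
  obtain ⟨t, ht⟩ : (S'.Sec c).FG := Module.Finite.iff_fg.1 this
  choose! f hf using key
  refine ⟨t.sup f, fun n hn h hh y hy => ?_⟩
  rw [map_mul, div_mul_comm, mul_comm]
  refine up _ ((Submodule.span_le (p := (Fo Ω _ (m + n)).comap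
    (LinearMap.mulRight Ω (μ w * μ h / φ)))).2 (fun x hx => ?_) (ht ▸ hy))
  have := hf x (ht ▸ Submodule.subset_span hx) n ((Finset.le_sup hx).trans hn) _ (down gm.base hh)
  rwa [Submodule.top_smul, mul_assoc, div_mul_comm, mul_comm] at this

end Pool.Agent.MP_e8e0b6_ag.R2
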