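import Pool.Agent.MP_e8e0b6_ag.R2.SpecA

/-!
Twisted sections on the closed fibre are forms.
-/

set_option autoImplicit false

namespace Pool.Agent.MP_e8e0b6_ag.R2

open Pool.Agent.MP_79c67d_ag Pool.Agent.MP_20d318_ag Pool.Agent.MP_20d318_ag.AG
  Pool.Agent.MP_20d318_ag.BV Pool.Agent.MP_20d318_ag.CB
open scoped Pointwise

namespace TwkA

variable {k F M I : Type} [Field k] [Field F] [Field M] [Algebra k F] [Algebra k M] [Fintype I]
  {R ξ : Subalgebra k F} {H : Set F} {ρ : ξ →ₐ[k] M} {S : Sd k M I}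

theorem lin (L : Ln R H ξ ρ S) {a : F} (ha : a ∈ Submodule.span R H) :
    a ∈ ξ ∧ evO ξ ρ a ∈ Submodule.span k (evO ξ ρ '' H \ {0}) := by
  obtain ⟨e, -, he⟩ := L.res
  induction ha using Submodule.span_induction with
  | mem x hx =>
    refine ⟨L.sub x hx, ?_⟩
    by_cases h : evO ξ ρ x = 0
    · exact (congrArg (· ∈ _) h).mpr (zero_mem _)
    · exact Submodule.subset_span ⟨⟨x, hx, rfl⟩, h⟩
  | zero => exact ⟨ξ.zero_mem, (evO_zero ρ).symm ▸ zero_mem _⟩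
  | add x y _ _ hx hy => exact ⟨ξ.add_mem hx.1 hy.1, (evO_add ρ hx.1 hy.1).symm ▸ add_mem hx.2 hy.2⟩
  | smul r x _ hx =>
    have hr := L.fib.dom.1 r.2
    refine ⟨ξ.mul_mem hr hx.1, ?_⟩
    change evO ξ ρ (r * x) ∈ _
    rw [evO_mul ρ hr hx.1, he, ← Algebra.smul_def]
    exact Submodule.smul_mem _ _ hx.2

theorem down (L : Ln R H ξ ρ S) {n : ℕ} {a : F} (ha : a ∈ Fo R H n) :
    a ∈ ξ ∧ evO ξ ρ a ∈ Fo k (evO ξ ρ '' H \ {0}) n := by
  obtain ⟨e, -, he⟩ := L.res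
  induction ha using Submodule.pow_induction_on_left' with
  | algebraMap r =>
    refine ⟨L.fib.dom.1 r.2, ?_⟩
    rw [Fo, pow_zero]
    exact Submodule.mem_one.2 ⟨e r, (he r).symm⟩
  | add x y i _ _ hx hy =>
    exact ⟨ξ.add_mem hx.1 hy.1, (evO_add ρ hx.1 hy.1).symm ▸ add_mem hx.2 hy.2⟩
  | mem_mul m hm i x _ hx =>
    refine ⟨ξ.mul_mem (lin L hm).1 hx.1, ?_⟩
    rw [evO_mul ρ (lin L hm).1 hx.1, Fo, pow_succ']
    exact Submodule.mul_mem_mul (lin L hm).2 hx.2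

theorem up (L : Ln R H ξ ρ S) (n : ℕ) :
    Fo k (evO ξ ρ '' H \ {0}) n ≤ Submodule.span k (evO ξ ρ '' Fo R H n) := by
  induction n with
  | zero =>
    rw [Fo, pow_zero, Submodule.one_le]
    exact Submodule.subset_span ⟨1, Submodule.one_le.1 (pow_zero _).ge, evO_one ρ⟩
  | succ n ih =>
    rw [Fo, pow_succ']
    refine (mul_le_mul_right ih _).trans ?_
    rw [Submodule.span_mul_span, Submodule.span_le]
    rintro _ ⟨_, ⟨⟨a, ha, rfl⟩, -⟩, _, ⟨b, hb, rfl⟩, rfl⟩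
    refine Submodule.subset_span ⟨a * b, ?_, evO_mul ρ (L.sub a ha) (down L hb).1⟩
    rw [Fo, pow_succ']
    exact Submodule.mul_mem_mul (Submodule.subset_span ha) hb

end TwkA

open TwkA in
theorem twk_stmt : TwkStmt := by
  intro form k F M I _ _ _ _ _ _ R H ξ ρ S γ d m w L hb hd
  have hw : w ∈ ξ := by
    have hu := (hb ξ L.fib.mem L.fib.dom).1
    have := ξ.mul_mem (hd ξ L.fib.mem 1 (gn_one L.sub ⟨1, L.one, isU_one⟩)) hu.mem
    rwa [one_pow, mul_one, div_mul_cancel₀ _ hu.ne] at this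
  have key : ∀ s ∈ S.Sec d, ∃ n₀, ∀ n ≥ n₀, ∀ v ∈ Fo k (evO ξ ρ '' H \ {0}) n,
      s * evO ξ ρ w * v ∈ (⊤ : Ideal k) • Fo k (evO ξ ρ '' H \ {0}) (m + n) := fun s hs => by
    refine (form k M _ ⊤ ((L.fm.fin.image _).sdiff) fun j hj => hj.2).2 m _ fun j₀ hj₀ => ?_
    rw [Submodule.top_smul]
    refine mem_of_pts (C := Algebra.adjoin k _) fun O' hO' => ?_
    have hT : O' ∈ S.T := by
      rw [L.eqT, mp_eq_XX]
      exact ⟨j₀, hj₀, by rwa [ch, bot_sup_eq]⟩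
    have g₀ := gn_of_mem hj₀ hj₀.2 fun a ha => hO'.2.1 (Algebra.subset_adjoin ⟨a, ha, rfl⟩)
    have hs' := hs O' hT
    obtain ⟨O, ⟨hO, hR⟩, rfl⟩ := L.eq ▸ hT
    obtain ⟨j, -, g⟩ := L.xb.gn O hO
    obtain ⟨uj, g₁⟩ := L.gnU O hO hR j g
    obtain ⟨u1, u2⟩ := hb O hO hR
    have h1 := (L.mem O (L.fib.le O hO hR) _).2 ⟨_, hd O hO j g, rfl⟩
    rw [evO_div ρ hw (u1.mul (uj.pow m)), evO_mul ρ u1.mem (uj.pow m).mem,
      evO_pow ρ uj.mem] at h1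
    have h2 := mul_mem (mul_mem (mul_mem hs' u2.mem) h1) (pow_mem (g₁.unit g₀).mem m)
    have n1 := (div_ne_zero_iff.1 u2.ne).2
    have n2 := evO_ne ρ u1
    have n3 := g₁.ne
    refine Eq.mp (congrArg (· ∈ _) ?_) h2
    rw [div_pow]
    field_simp
  have := L.mf.all.s.fd d
  obtain ⟨t, ht⟩ : (S.Sec d).FG := Module.Finite.iff_fg.1 this
  choose! f hf using key
  refine ⟨t.sup f, fun n hn h hh s hs => ?_⟩
  rw [evO_mul ρ hw (down L hh).1]
  refine up L _ ((Submodule.span_le (p := (Fo k _ (m + n)).comap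
    (LinearMap.mulRight k (evO ξ ρ w * evO ξ ρ h)))).2 (fun x hx => ?_) (ht ▸ hs))
  have := hf x (ht ▸ Submodule.subset_span hx) n ((Finset.le_sup hx).trans hn) _ (down L hh).2
  rwa [Submodule.top_smul, mul_assoc] at this

end Pool.Agent.MP_e8e0b6_ag.R2
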