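import Pool.Agent.MP_e8e0b6_ag.R2.Spec1

/-! Row VN: a local ring dominated by all valuation rings over `P` is finite over `P`. -/

set_option autoImplicit false

namespace Pool.Agent.MP_e8e0b6_ag.R2

open Pool.Agent.MP_20d318_ag.AG

namespace Vn

open Polynomial Algebra IsLocalRing in
set_option backward.isDefEq.respectTransparency.types false in
theorem exists_dom {K : Type} [Field K] {x : K} {R : LocalSubring K}
    (hxR : ¬ IsIntegral R.toSubring x) :
    ∃ V : ValuationSubring K, R ≤ V.toLocalSubring ∧ x ∉ V := by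
  obtain rfl | hx0 := eq_or_ne x 0
  · exact (hxR isIntegral_zero).elim
  let := invertibleOfNonzero hx0
  let B := Algebra.adjoin R.toSubring {x⁻¹}
  let xinv : B.toSubring := ⟨x⁻¹, subset_adjoin rfl⟩
  have : (maximalIdeal R.toSubring).map (algebraMap _ B) + .span {xinv} ≠ ⊤ := fun eq ↦ hxR <|
    have ⟨p, hp, hpx⟩ := exists_aeval_invOf_eq_zero_of_idealMap_adjoin_sup_span_eq_top _ _
      (maximalIdeal.isMaximal R.toSubring).ne_top eq
    have H : IsUnit p.leadingCoeff := of_not_not fun h ↦ by simpa using sub_mem h hp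
    ⟨.C H.unit⁻¹.1 * p, by simp [Polynomial.Monic], by simpa using .inr hpx⟩
  have ⟨V, hV⟩ := Ideal.image_subset_nonunits_valuationSubring (A := B.toSubring) _ this
  refine ⟨V, ⟨fun r hr ↦ hV.1 (B.algebraMap_mem ⟨r, hr⟩),
    ((local_hom_TFAE _).out 3 0).mp fun r hr ↦ ?_⟩, (V.inv_mem_nonunits_iff.mp <|
      hV.2 ⟨_, le_add_self (α := Ideal B) (Ideal.subset_span rfl), rfl⟩).resolve_left hx0⟩
  rw [← V.image_maximalIdeal] at hV
  obtain ⟨⟨r, _⟩, hr, rfl⟩ :=
    hV.2 ⟨_, le_self_add (α := Ideal B) (Ideal.mem_map_of_mem _ hr), rfl⟩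
  exact hr

variable {k N : Type} [Field k] [Field N] [Algebra k N]

theorem integral {P O : Subalgebra k N} (hw : IsLocalRing P)
    (h : ∀ V : Subalgebra k N, IsVal V → Dom P V → Dom O V) {f : N} (hf : f ∈ O) :
    IsIntegral P f := by
  by_contra hn
  obtain ⟨B, h1, h2⟩ := exists_dom (R := @LocalSubring.mk N _ P.toSubring hw) hn
  obtain ⟨V, h3, h4, h5⟩ := dom_of_le_valuationSubring hw B h1
  exact h2 ((h5 f).1 ((h V h3 h4).1 hf))

theorem inv_mem {R : Type} [CommRing R] [Algebra R N] {A : Subalgebra R N} {b : N} (hb : b ∈ A)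
    (h0 : b ≠ 0) (hi : IsIntegral A b⁻¹) : b⁻¹ ∈ A := by
  have h1 : Function.Injective (algebraMap A (integralClosure A N)) := fun x y h =>
    Subtype.ext (congrArg (fun z : integralClosure A N => (z : N)) h)
  have h2 := RingHom.IsIntegral.isLocalHom (f := algebraMap A (integralClosure A N))
    (fun x => Algebra.IsIntegral.isIntegral x) h1
  obtain ⟨c, hc⟩ := isUnit_iff_exists_inv.1 (h2.1 ⟨b, hb⟩
    (isUnit_iff_exists_inv.2 ⟨⟨b⁻¹, hi⟩, Subtype.ext (mul_inv_cancel₀ h0)⟩))
  exact eq_inv_of_mul_eq_one_right (congrArg Subtype.val hc : b * c = 1) ▸ c.2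

end Vn

theorem vn : VnStmt := by
  intro k F _ _ _ P O G hl hG ⟨_, h1, h2⟩ hV
  have hP : P ≤ O := le_sup_left.trans h1
  have hO : G ⊆ O := fun g hg => (le_sup_right.trans h1) (Algebra.subset_adjoin hg)
  obtain ⟨W, hW, e⟩ := Submodule.fg_def.1
    (fg_adjoin_of_finite hG fun g hg => Vn.integral hl hV (hO hg))
  have h3 : P ⊔ Algebra.adjoin k G ≤ (Algebra.adjoin P G).restrictScalars k :=
    sup_le (fun a ha => (Algebra.adjoin P G).algebraMap_mem ⟨a, ha⟩)
      (Algebra.adjoin_le (Algebra.subset_adjoin (R := P)))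
  refine ⟨W, hW, fun z => ?_⟩
  rw [e, Subalgebra.mem_toSubmodule]
  refine ⟨fun hz => ?_, fun hz => ?_⟩
  · obtain ⟨a, ha, b, hb, hu, rfl⟩ := h2 z hz
    rw [div_eq_mul_inv]
    exact mul_mem (h3 ha) (Vn.inv_mem (h3 hb) hu.1 (Vn.integral hl hV hu.2.2).tower_top)
  · induction hz using Algebra.adjoin_induction with
    | mem x hx => exact hO hx
    | algebraMap r => exact hP r.2
    | add x y _ _ hx hy => exact O.add_mem hx hy
    | mul x y _ _ hx hy => exact O.mul_mem hx hy

end Pool.Agent.MP_e8e0b6_ag.R2
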