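import Pool.Agent.MP_e8e0b6_ag.R2.Avoid
import Pool.Agent.MP_e8e0b6_ag.R2.Bg
import Pool.Agent.MP_e8e0b6_ag.R2.Can0
import Pool.Agent.MP_e8e0b6_ag.R2.Can1
import Pool.Agent.MP_e8e0b6_ag.R2.Can2
import Pool.Agent.MP_e8e0b6_ag.R2.Can3
import Pool.Agent.MP_e8e0b6_ag.R2.Cone
import Pool.Agent.MP_e8e0b6_ag.R2.ConeA
import Pool.Agent.MP_e8e0b6_ag.R2.ConeB
import Pool.Agent.MP_e8e0b6_ag.R2.ConeC
import Pool.Agent.MP_e8e0b6_ag.R2.ConeI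
import Pool.Agent.MP_e8e0b6_ag.R2.ConeR
import Pool.Agent.MP_e8e0b6_ag.R2.Cp1
import Pool.Agent.MP_e8e0b6_ag.R2.Cp2
import Pool.Agent.MP_e8e0b6_ag.R2.Deg1
import Pool.Agent.MP_e8e0b6_ag.R2.Deg2
import Pool.Agent.MP_e8e0b6_ag.R2.Deg3
import Pool.Agent.MP_e8e0b6_ag.R2.Del
import Pool.Agent.MP_e8e0b6_ag.R2.DtA
import Pool.Agent.MP_e8e0b6_ag.R2.Dual
import Pool.Agent.MP_e8e0b6_ag.R2.Exb
import Pool.Agent.MP_e8e0b6_ag.R2.Exh
import Pool.Agent.MP_e8e0b6_ag.R2.Form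
import Pool.Agent.MP_e8e0b6_ag.R2.Gbs
import Pool.Agent.MP_e8e0b6_ag.R2.GoodA
import Pool.Agent.MP_e8e0b6_ag.R2.Gr
import Pool.Agent.MP_e8e0b6_ag.R2.Gr1
import Pool.Agent.MP_e8e0b6_ag.R2.Gra
import Pool.Agent.MP_e8e0b6_ag.R2.Hcl
import Pool.Agent.MP_e8e0b6_ag.R2.InvA
import Pool.Agent.MP_e8e0b6_ag.R2.Iso1
import Pool.Agent.MP_e8e0b6_ag.R2.Iso2
import Pool.Agent.MP_e8e0b6_ag.R2.Iso3
import Pool.Agent.MP_e8e0b6_ag.R2.Lat
import Pool.Agent.MP_e8e0b6_ag.R2.Ln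
import Pool.Agent.MP_e8e0b6_ag.R2.Lwb
import Pool.Agent.MP_e8e0b6_ag.R2.Lwg
import Pool.Agent.MP_e8e0b6_ag.R2.Mka
import Pool.Agent.MP_e8e0b6_ag.R2.Mkl
import Pool.Agent.MP_e8e0b6_ag.R2.Nl
import Pool.Agent.MP_e8e0b6_ag.R2.Nrm
import Pool.Agent.MP_e8e0b6_ag.R2.Prime
import Pool.Agent.MP_e8e0b6_ag.R2.Rk
import Pool.Agent.MP_e8e0b6_ag.R2.S1A
import Pool.Agent.MP_e8e0b6_ag.R2.Spn
import Pool.Agent.MP_e8e0b6_ag.R2.Stab
import Pool.Agent.MP_e8e0b6_ag.R2.Three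
import Pool.Agent.MP_e8e0b6_ag.R2.Twg
import Pool.Agent.MP_e8e0b6_ag.R2.Twk
import Pool.Agent.MP_e8e0b6_ag.R2.Vn

/-! The specialization theorem and the facts about marked towers. -/

set_option autoImplicit false

namespace Pool.Agent.MP_e8e0b6_ag.R2

theorem mfAll : MfAll := mfAll_of mka_stmt mkl_stmt nl_stmt exb_stmt exh_stmt

theorem mk2 : Mk2Stmt := fun k M I _ _ _ _ _ _ S h => (mfAll k M I S h).toMkF

theorem good : GoodStmt := goodA_stmt mfAll nl_stmt (rk_stmt nl_stmt)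
  (cone_stmt (coneC_stmt coneA_stmt) (coneI_stmt coneA_stmt coneB_stmt) (coneR_stmt coneA_stmt))
  prime_stmt

theorem amp : AmpStmt := amp_of hcl_stmt

theorem inv : InvStmt := invA_stmt xb_stmt form_stmt

theorem bg : Bg := bg_stmt dual_stmt

theorem gen : Gen := (dtA_stmt xb_stmt mfAll bg lwg_stmt inv).1

theorem dt : DtStmt := (dtA_stmt xb_stmt mfAll bg lwg_stmt inv).2

theorem s1 : S1Stmt := s1A_stmt xb_stmt dual_stmt bg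

theorem del : Del := del_stmt vn

theorem gr : Gr := gr_stmt form_stmt gen (gbs_stmt form_stmt stab_stmt) (gra_stmt gr1_stmt)
  (twk_stmt form_stmt) (twg_stmt form_stmt) (cp1_stmt avoid_stmt) cp2_stmt

theorem spn : Spn := spn_stmt lat_stmt gr (iso3_stmt gen (iso2_stmt (three_stmt avoid_stmt)
  (deg3_stmt deg1_stmt deg2_stmt) del iso1_stmt)) (can3_stmt can0_stmt (can2_stmt can1_stmt))

theorem sp_ : SpStmt := sp_of hcl_stmt mfAll ln_stmt bg lwg_stmt lwb_stmt dt spn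

theorem ratOf : RatOfStmt := ratOf_of hcl_stmt mfAll ln_stmt bg lwg_stmt lwb_stmt spn

end Pool.Agent.MP_e8e0b6_ag.R2
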