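import Pool.Agent.MP_e8e0b6_ag.R2.SpecB

/-!
Independence of residues implies independence over a local ring.
-/

set_option autoImplicit false

open Polynomial AlgebraicGeometry CategoryTheory Limits TensorProduct

namespace Pool.Agent.MP_e8e0b6_ag.R2

open Pool.Agent.MP_79c67d_ag Pool.Agent.MP_20d318_ag Pool.Agent.MP_20d318_ag.AG
  Pool.Agent.MP_20d318_ag.BV Pool.Agent.MP_20d318_ag.CB

theorem ind_stmt : IndStmt := by
  intro k F M _ _ _ _ _ R ξ ρ h hR rat hd lh fl ι v hv li
  obtain ⟨e, he⟩ := (lh.restrict hd).factor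
  let _ : Algebra R ξ := (Subalgebra.inclusion h).toRingHom.toAlgebra
  have : Module.Flat R ξ := fl
  let _ : Algebra R M := (ρ.comp (Subalgebra.inclusion h)).toRingHom.toAlgebra
  let _ : Algebra (IsLocalRing.ResidueField R) M := e.toRingHom.toAlgebra
  have : IsScalarTower R (IsLocalRing.ResidueField R) M :=
    IsScalarTower.of_algebraMap_eq fun r => (AlgHom.congr_fun he r).symm
  let φ : ξ →ₗ[R] M := { toFun := ρ, map_add' := map_add ρ, map_smul' := fun _ _ => map_mul ρ _ _ }
  let ψ : ξ →ₗ[R] F := { toFun := Subtype.val, map_add' := fun _ _ => rfl, map_smul' := fun _ _ => rfl }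
  have sj : Function.Surjective (algebraMap k (IsLocalRing.ResidueField R)) := fun z => by
    obtain ⟨r, rfl⟩ := IsLocalRing.residue_surjective z
    obtain ⟨c, hc⟩ := rat r r.2
    exact ⟨c, (Ideal.Quotient.eq.2 ((mem_mx_iff (r - algebraMap k R c)).1 hc)).symm⟩
  have h1 := li.map_of_surjective_injective _ (AddMonoidHom.id M) sj (fun _ u => u) fun c m => by
    rw [AddMonoidHom.id_apply, AddMonoidHom.id_apply, Algebra.smul_def, Algebra.smul_def,
      ← e.commutes]
    rfl
  have h2 := Module.IsLocalRing.linearIndependent_of_flat (R := R) (fun i => (⟨v i, hv i⟩ : ξ))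
    (LinearIndependent.of_comp (φ.liftBaseChange (IsLocalRing.ResidueField R)) (by
      convert h1 using 1
      funext i
      simp [φ, evO_of_mem ρ (hv i)]))
  exact h2.map' ψ (LinearMap.ker_eq_bot.2 Subtype.val_injective)

end Pool.Agent.MP_e8e0b6_ag.R2
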