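import Pool.Agent.MP_e8e0b6_ag.R2.SpecB

/-!
The family over a dominant family of lines.
-/

set_option autoImplicit false

open Polynomial AlgebraicGeometry CategoryTheory Limits TensorProduct

namespace Pool.Agent.MP_e8e0b6_ag.R2

open Pool.Agent.MP_79c67d_ag Pool.Agent.MP_20d318_ag Pool.Agent.MP_20d318_ag.AG
  Pool.Agent.MP_20d318_ag.BV Pool.Agent.MP_20d318_ag.CB

namespace M3A

theorem smooth_of_et {k A : Type} [Field k] [CommRing A] [Algebra k A] (h : T.Et k A) :
    Algebra.Smooth k A := by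
  obtain ⟨d, z, hz⟩ := h
  algebraize [z.toRingHom]
  have := IsScalarTower.of_algebraMap_eq' z.comp_algebraMap.symm
  have : Algebra.Smooth k (MvPolynomial (Fin d) k) := {}
  exact Algebra.Smooth.comp k (MvPolynomial (Fin d) k) A

theorem exists_om (k B : Type) [Field k] [CommRing B] [IsDomain B] [Algebra k B] :
    ∃ (K Ω : Type) (_ : Field K) (_ : Field Ω) (_ : IsAlgClosed Ω) (_ : Algebra k Ω)
      (_ : Algebra B Ω) (_ : IsScalarTower k B Ω) (β : B →+* K) (ι : K →+* Ω),
      Function.Injective (algebraMap B Ω) ∧ ι.comp β = algebraMap B Ω ∧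
      (∀ z : K, ∃ a b : B, ι z = algebraMap B Ω a / algebraMap B Ω b) ∧
      ∀ a : Ω, IsAlgebraic B a := by
  have e : (algebraMap (FractionRing B) (AlgebraicClosure (FractionRing B))).comp
      (algebraMap B (FractionRing B)) = algebraMap B (AlgebraicClosure (FractionRing B)) :=
    (IsScalarTower.algebraMap_eq _ _ _).symm
  refine ⟨FractionRing B, AlgebraicClosure (FractionRing B), inferInstance, inferInstance,
    inferInstance, inferInstance, inferInstance, inferInstance, algebraMap _ _, algebraMap _ _,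
    ?_, e, fun z => ?_, fun a => ?_⟩
  · rw [← e]
    exact (algebraMap (FractionRing B) _).injective.comp (IsFractionRing.injective B _)
  · obtain ⟨a, b, -, rfl⟩ := IsFractionRing.div_surjective (A := B) z
    exact ⟨a, b, by rw [map_div₀, ← e]; rfl⟩
  · exact (IsFractionRing.isAlgebraic_iff B (FractionRing B) _).2
      (Algebra.IsAlgebraic.isAlgebraic a)

theorem triv_mono {Ω E J : Type} [Field Ω] [Field E] [Algebra Ω E] [Fintype J] {Z Z' : Set E}
    {S' : Sd Ω E J} (h : Triv Z S') (hZ : Z ⊆ Z') : Triv Z' S' :=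
  fun τ h1 h2 => h τ h1 fun z hz => h2 z (hZ hz)

end M3A

theorem m3_stmt (h1 : M1Stmt) (h2 : UniStmt) (h3 : MkfStmt) (h4 : Br1Stmt) (h5 : Br2bStmt)
    (h6 : Br3Stmt) (h7 : Br6Stmt) (h8 : Mk2Stmt) : M3Stmt := by
  intro k _ _ _ N X S f π e P hS hsc A _ _ _ σ hEt hσ hdom
  obtain ⟨K, Ω, _, _, _, _, _, _, β, ι, inj, hβ, hι, halg⟩ := M3A.exists_om k A[X]
  have hs : (sp (algebraMap A[X] Ω) ≫ σ) ≫ f = sp (algebraMap k Ω) := by
    rw [Category.assoc, hσ, sp_comp, ← IsScalarTower.algebraMap_eq]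
  have hd : IsDominant (sp (algebraMap A[X] Ω) ≫ σ) := by
    have := isDominant_sp inj
    infer_instance
  obtain ⟨E, _, _, η, h, J, _, S', geo, mk, hT, triv⟩ :=
    h1 k N X S f π e P hS hsc Ω (sp (algebraMap A[X] Ω) ≫ σ) hs hd
  let : Algebra k E := ((algebraMap Ω E).comp (algebraMap k Ω)).toAlgebra
  have : IsScalarTower k Ω E := IsScalarTower.of_algebraMap_eq fun _ => rfl
  let : Algebra A[X] E := ((algebraMap Ω E).comp (algebraMap A[X] Ω)).toAlgebra
  have : IsScalarTower A[X] Ω E := IsScalarTower.of_algebraMap_eq fun _ => rfl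
  have : CharZero Ω := charZero_of_injective_algebraMap (algebraMap k Ω).injective
  have one : (1 : E) ∈ nz h := ⟨geo.one, one_ne_zero⟩
  obtain ⟨F, _, _, μ, g, H, hH, hg, frac⟩ := h3 k A[X] E
    ((IsScalarTower.toAlgHom k Ω E).comp (IsScalarTower.toAlgHom k A[X] Ω)) (nz h) one
    fun a ha => ha.2
  have hg' : ∀ a, μ (g a) = algebraMap Ω E (algebraMap A[X] Ω a) := fun a => DFunLike.congr_fun hg a
  have ginj : Function.Injective g := fun a b hab =>
    inj ((algebraMap Ω E).injective (by rw [← hg', ← hg', hab]))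
  obtain ⟨𝓡, j, pc⟩ := h4 k N X S f π e P A[X] σ
  have fb : 𝓡.Fb Ω E h := h5 k A[X] Ω E N X S π e σ _ 𝓡 j η h rfl pc geo
  obtain ⟨h', -, rfl, em, -⟩ := h6 k A[X] F Ω E N 𝓡 g μ H h ginj hg' fb hH frac
  obtain ⟨η', j', lk⟩ := h7 k N X S f π e P A[X] F σ 𝓡 j g h' hσ pc em
  have uni : Uni (g.range.map μ) (μ '' nz h') S' := by
    rw [← AlgHom.range_comp, hg, hH]
    exact h2 k N X S f π e P Ω E J _ η h S' geo mk hT A[X] (IsScalarTower.toAlgHom k A[X] Ω) σ
      inj rfl
  have sm : Algebra.Smooth k A := M3A.smooth_of_et hEt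
  have : Algebra.Smooth A A[X] := {}
  have : Algebra.Smooth k A[X] := Algebra.Smooth.comp k A A[X]
  have gd : Gd g.range (nz h') μ S' := uni F μ g.range (nz h') rfl le_rfl
    (by rintro _ ⟨a, rfl⟩; exact ⟨_, (hg' a).symm⟩)
    (Algebra.Smooth.of_equiv (AlgEquiv.ofInjective g ginj)) frac
  refine ⟨F, Ω, E, J, inferInstance, inferInstance, inferInstance, inferInstance, inferInstance,
    inferInstance, inferInstance, inferInstance, inferInstance, inferInstance, g, nz h', μ, S', η',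
    j', ⟨ginj, sm, ?_, gd.fm, gd.gc, (h8 Ω E J S' mk).all, uni, fun a => ?_, ?_⟩, lk⟩
  · rw [← hH] at one
    obtain ⟨a, ha, e1⟩ := one
    rwa [μ.injective (e1.trans (map_one μ).symm)] at ha
  · refine (halg a).ringHom_of_comp_eq
      (((μ.comp g).codRestrict (g.range.map μ) fun b => ⟨g b, ⟨b, rfl⟩, rfl⟩ :
        A[X] →ₐ[k] g.range.map μ) : A[X] →+* g.range.map μ) (algebraMap Ω E)
      (fun b c hbc => ginj (μ.injective (congrArg Subtype.val hbc))) ?_
    exact RingHom.ext fun b => hg' b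
  · refine M3A.triv_mono (triv K ι (sp β ≫ σ) (by rw [← Category.assoc, sp_comp, hβ])) ?_
    rintro z (⟨_, ⟨y, rfl⟩, rfl⟩ | hz)
    · obtain ⟨a, b, hab⟩ := hι y
      exact ⟨g a / g b, by rw [map_div₀, hg', hg', hab, map_div₀]⟩
    · rw [← hH] at hz
      exact Set.image_subset_range _ _ hz

end Pool.Agent.MP_e8e0b6_ag.R2
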