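import Pool.Agent.MP_e8e0b6_ag.R2.SpecB

/-!
Smooth projective families of rational surfaces over an elliptic simply connected base.
-/

set_option autoImplicit false

open AlgebraicGeometry CategoryTheory Limits IsLocalRing Polynomial TrivSqZeroExt

namespace Pool.Agent.MP_e8e0b6_ag.R2

theorem main_stmt (hM : M3Stmt) (hP : ParStmt) (hG : GermStmt) : MainStmt := by
  intro k _ _ _ N X S f π e hf hX eS hS
  have := hX.separated
  have := hX.integral
  have := hX.smooth
  have := eS.1.separated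
  have := eS.1.integral
  have := hf.sm
  have := hf.sep
  have := isSeparated_of (π ≫ f)
  refine elliptic_of_germs hX fun v hv => ?_
  obtain ⟨U, hU, hL⟩ := exists_line eS (v ≫ π) (by rwa [Category.assoc])
  obtain ⟨A, _, j, _, φ, h1, h2, h3, h4⟩ := exists_piece (π ≫ f) (v (closedPoint _)) (π ⁻¹ᵁ U) hU
    RingHom.IsStandardSmooth fun A _ j _ φ h => (smooth_of_chart j h).locally_isStandardSmooth
  obtain ⟨θ, rfl⟩ := exists_factor v j h1
  have := θ.domain_nontrivial
  have := isDomain_chart j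
  let := φ.toAlgebra
  have h5 : θ.comp φ = algebraMap k _ := sp_inj (by rw [← sp_comp, ← h3, ← Category.assoc, hv]; rfl)
  let x : A →ₐ[k] k := ⟨(fstR k).comp θ, fun a => congrArg fst (DFunLike.congr_fun h5 a)⟩
  have h6 : epsPoint k ≫ sp θ = sp (x : A →+* k) := sp_comp _ _
  obtain ⟨σ, e1, e2, e3⟩ := hL A (j ≫ π) x (by rintro _ ⟨p, rfl⟩; exact h2 ⟨p, rfl⟩)
    (by rw [← h6]; simp)
  have e4 : σ ≫ f = sp (algebraMap k A[X]) := by rw [e1, Category.assoc, h3, sp_comp]
  obtain ⟨d, z, hz, hz'⟩ := h4.exists_etale_mvPolynomial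
  have hE : T.Et k A := ⟨d, ⟨z, DFunLike.congr_fun hz⟩, hz'⟩
  have hd : IsDominant σ := by
    have : IsDominant (sp constantCoeff ≫ σ) := by
      rw [e2]
      exact ⟨(j ≫ π).isOpenMap.isOpen_range.dense (Set.range_nonempty _)⟩
    exact IsDominant.of_comp (sp constantCoeff) σ
  obtain ⟨F, Ω, E, J, _, _, _, _, _, _, _, _, _, _, g, H₀, μ, S', η, c, hT, hK⟩ :=
    hM k N X S f π e hf eS.1 hS A σ hE e4 hd
  have H := IsPullback.of_hasPullback π σ
  obtain ⟨c1, c2⟩ := hP k A F Ω E J g x H₀ μ S' _ _ η c _ hE hT hK (H.lift_snd j _ e2.symm)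
  obtain ⟨A₂, _, _, ε, e₂, Φ, h7, h8, h9, h10⟩ := hG k A _ (pullback.snd π σ) x 2 _ _
    (isSeparated_of (pullback.snd π σ)) inferInstance hE c1 c2 (H.lift_snd j _ e2.symm)
    (H.lift_snd (sp θ ≫ j) _ e3.symm) (H.hom_ext
      (by simp [← h6]) (by
        rw [Category.assoc (epsPoint k), Category.assoc (sp (x : A →+* k)), H.lift_snd, H.lift_snd,
          sp_comp]
        refine (sp_comp _ _).trans (congrArg sp ?_)
        ext <;> simp [algebraMap_eq_inl]))
  refine ⟨A₂, _, sp (ε : A →+* A₂) ≫ j, inferInstance, Φ ≫ pullback.fst π σ, e₂, ?_, ?_, ?_⟩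
  · rw [Category.assoc, H.w_assoc, e4, h8, Category.assoc, h3, sp_comp, sp_comp]
    exact congrArg sp (RingHom.ext fun a => congrArg C (ε.commutes a).symm)
  · rw [reassoc_of% h9, H.lift_fst]
  · rw [reassoc_of% h10, H.lift_fst]

end Pool.Agent.MP_e8e0b6_ag.R2
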