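import Pool.Agent.MP_e8e0b6_ag.R2.SpecS

/-!
The centre of a local ring of the residue field on the divisor.
-/

set_option autoImplicit false

open Polynomial

namespace Pool.Agent.MP_e8e0b6_ag.R2

open Pool.Agent.MP_79c67d_ag Pool.Agent.MP_20d318_ag Pool.Agent.MP_20d318_ag.AG
  Pool.Agent.MP_20d318_ag.BV Pool.Agent.MP_20d318_ag.CB

namespace ZcA

variable {k F κ : Type} [Field k] [Field F] [Field κ] [Algebra k F] [Algebra k κ]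
  {R D : Subalgebra k F} {H : Set F} {ρ : D →ₐ[k] κ} {j j' a : F} {H' : Set κ}
  {W : Subalgebra k κ}

/-- The functions whose residue lies in `W`. -/
def pre (D : Subalgebra k F) (ρ : D →ₐ[k] κ) (W : Subalgebra k κ) : Subalgebra k F :=
  (W.comap ρ).map D.val

theorem mem_pre : a ∈ pre D ρ W ↔ a ∈ D ∧ evO D ρ a ∈ W :=
  ⟨by rintro ⟨b, hb, rfl⟩; exact ⟨b.2, (evO_coe ρ b).symm ▸ hb⟩,
    fun h => ⟨⟨a, h.1⟩, (evO_of_mem ρ h.1 ▸ h.2 : ρ ⟨a, h.1⟩ ∈ W), rfl⟩⟩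

theorem unit (h : LocHom D ρ) (ha : a ∈ D) (h0 : evO D ρ a ≠ 0) : IsU D a :=
  isU_of_not_mx ha fun hm => h0 ((h.eq_zero_iff ha).2 hm)

theorem isU_pre (h : LocHom D ρ) (ha : a ∈ D) : IsU (pre D ρ W) a ↔ IsU W (evO D ρ a) := by
  refine ⟨fun hu => ?_, fun hu => ?_⟩
  · have h1 : IsU D a := hu.mono fun _ hb => (mem_pre.1 hb).1
    exact ⟨evO_ne ρ h1, (mem_pre.1 hu.mem).2, evO_inv ρ h1 ▸ (mem_pre.1 hu.inv_mem).2⟩
  · have h1 := unit h ha hu.ne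
    exact ⟨h1.ne, mem_pre.2 ⟨ha, hu.mem⟩,
      mem_pre.2 ⟨h1.inv_mem, (evO_inv ρ h1).symm ▸ hu.inv_mem⟩⟩

theorem loc_pre (h : LocHom D ρ) (hW : IsLocalRing W) : IsLocalRing (pre D ρ W) :=
  isLocalRing_of fun a ha b hb => ⟨add_mem ha.1 hb.1, fun hu => by
    obtain ⟨a1, a2⟩ := mem_pre.1 ha.1
    obtain ⟨b1, b2⟩ := mem_pre.1 hb.1
    rw [isU_pre h (add_mem a1 b1), evO_add ρ a1 b1] at hu
    exact hu.not_mx (mx_add hW ⟨a2, fun h' => ha.2 ((isU_pre h a1).2 h')⟩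
      ⟨b2, fun h' => hb.2 ((isU_pre h b1).2 h')⟩)⟩

theorem ev_div (h : Rd H D ρ j H') (hu : IsU D (j' / j)) (ha : a ∈ H) :
    a / j' ∈ D ∧ evO D ρ (a / j') = evO D ρ (a / j) / evO D ρ (j' / j) := by
  rw [← div_div_div_cancel_right₀ (div_ne_zero_iff.1 hu.ne).2 a j']
  exact ⟨hu.div_mem (h.gen a ha), evO_div ρ (h.gen a ha) hu⟩

theorem ch_pre (hR : R ≤ D) (h : Rd H D ρ j H') (hu : IsU D (j' / j)) (h1 : red D ρ R ≤ W)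
    (h2 : ∀ b ∈ H', b / evO D ρ (j' / j) ∈ W) : ch R H j' ≤ pre D ρ W :=
  C.ch_le (fun _ hr => mem_pre.2 ⟨hR hr, h1 (C.ev_mem hR hr)⟩) fun a ha =>
    mem_pre.2 ⟨(ev_div h hu ha).1, (ev_div h hu ha).2 ▸ h2 _ (h.eq ▸ ⟨a, ha, rfl⟩)⟩

end ZcA

theorem zc_stmt : ZcStmt := by
  intro k F κ _ _ _ _ _ R D H ρ j H' hH hR h
  refine ⟨fun W hW h1 h2 => ?_, fun O hO hD => ?_⟩
  · obtain ⟨b, hb, hg⟩ := h2.exists_mem
    obtain ⟨j', hj', rfl⟩ := h.eq ▸ hb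
    have hu := ZcA.unit h.lh (h.gen j' hj') hg.ne
    obtain ⟨O, hO, hd⟩ := exists_ctr (ZcA.loc_pre h.lh hW) (ZcA.ch_pre hR h hu h1 hg.1)
    have hD : O ≤ D := fun a ha => (ZcA.mem_pre.1 (hd.1 ha)).1
    refine ⟨O, ⟨j', hj', hO⟩, hD, fun m hm => ?_, fun m hm hm' => ?_⟩ <;>
      obtain ⟨a, ha, -, rfl⟩ := C.mem_red.1 hm
    · exact (ZcA.mem_pre.1 (hd.1 ha)).2
    · exact C.ev_unit hD (hd.2 a ha ((ZcA.isU_pre h.lh (hD ha)).2 hm'))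
  · obtain ⟨j', hj', hO'⟩ := id hO
    have hu : IsU D (j' / j) := ⟨div_ne_zero (hH j' hj') (hH j h.mem), h.gen j' hj', by
      rw [inv_div]; exact hD (hO'.2.1 (C.div_mem_ch h.mem))⟩
    have h1 : ∀ b ∈ H', b / evO D ρ (j' / j) ∈ red D ρ O := fun b hb => by
      obtain ⟨a, ha, rfl⟩ := h.eq ▸ hb
      exact (ZcA.ev_div h hu ha).2 ▸ C.ev_mem hD (hO'.2.1 (C.div_mem_ch ha))
    refine ⟨⟨_, gn_of_mem (h.eq ▸ ⟨j', hj', rfl⟩) (evO_ne ρ hu) h1⟩,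
      (fun b => b / evO D ρ (j' / j)) '' H', fun hf => (h.eq ▸ hf.image _ : H'.Finite).image _,
      C.red_loc hD hO'.1, sup_le (C.red_mono (C.xx_le hO)) (Algebra.adjoin_le ?_), fun m hm => ?_⟩
    · rintro _ ⟨b, hb, rfl⟩
      exact h1 b hb
    · obtain ⟨a, ha, -, rfl⟩ := C.mem_red.1 hm
      obtain ⟨p, hp, q, hq, hq', rfl⟩ := hO'.2.2 a ha
      have h2 := ZcA.ch_pre (W := red D ρ R ⊔ Algebra.adjoin k
        ((fun b => b / evO D ρ (j' / j)) '' H')) hR h hu le_sup_left fun b hb =>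
          (le_sup_right : Algebra.adjoin k _ ≤ _) (Algebra.subset_adjoin ⟨b, hb, rfl⟩)
      exact ⟨_, (ZcA.mem_pre.1 (h2 hp)).2, _, (ZcA.mem_pre.1 (h2 hq)).2, C.ev_unit hD hq',
        evO_div ρ (hD (hO'.2.1 hp)) (hq'.mono hD)⟩

end Pool.Agent.MP_e8e0b6_ag.R2
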