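import Pool.Agent.MP_e8e0b6_ag.R2.SpecB
import Pool.Agent.MP_e8e0b6_ag.R2.Zc

/-!
The closed fibre is the variety with the reduced coordinates.
-/

set_option autoImplicit false

namespace Pool.Agent.MP_e8e0b6_ag.R2

open Pool.Agent.MP_79c67d_ag Pool.Agent.MP_20d318_ag Pool.Agent.MP_20d318_ag.AG
  Pool.Agent.MP_20d318_ag.BV Pool.Agent.MP_20d318_ag.CB

namespace RedtA

variable {k F M : Type} [Field k] [Field F] [Field M] [Algebra k F] [Algebra k M] {N : ℕ}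
  {R ξ : Subalgebra k F} {ρ : ξ →ₐ[k] M} {h : Fin (N + 1) → F} {h' : Fin (N + 1) → M}
  {W : Subalgebra k M} {i : Fin (N + 1)}

theorem up (hr : RatPt R) (hd : AG.Dom R ξ) (hρ : LocHom ξ ρ)
    (H : ∀ l, h l / h i ∈ ξ ∧ evO ξ ρ (h l / h i) = h' l / h' i)
    (hW : cht k (fun _ : Unit => nz h') (fun _ => h' i) ≤ W) :
    ch R (nz h) (h i) ≤ ZcA.pre ξ ρ W := by
  refine C.ch_le (fun r hr' => ZcA.mem_pre.2 ⟨hd.1 hr', ?_⟩) ?_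
  · obtain ⟨c, hc⟩ := hr r hr'
    have h1 := (hρ.eq_zero_iff (hd.1 hc.1)).2 (hd.mx hc)
    rw [evO_sub ρ (hd.1 hr') (ξ.algebraMap_mem c), evO_const, sub_eq_zero] at h1
    rw [h1]
    exact W.algebraMap_mem c
  · rintro _ ⟨⟨l, rfl⟩, -⟩
    refine ZcA.mem_pre.2 ⟨(H l).1, ?_⟩
    rw [(H l).2]
    by_cases h0 : h' l = 0
    · rw [h0, zero_div]; exact W.zero_mem
    · exact hW (Algebra.subset_adjoin (Set.mem_iUnion.2 ⟨(), _, ⟨⟨l, rfl⟩, h0⟩, rfl⟩))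

theorem down (hn : ∀ l, h' l ≠ 0 → h l ≠ 0)
    (H : ∀ l, h l / h i ∈ ξ ∧ evO ξ ρ (h l / h i) = h' l / h' i) :
    cht k (fun _ : Unit => nz h') (fun _ => h' i) ≤ red ξ ρ (ch R (nz h) (h i)) := by
  refine Algebra.adjoin_le fun m hm => ?_
  obtain ⟨_, _, ⟨⟨l, rfl⟩, h0⟩, rfl⟩ := Set.mem_iUnion.1 hm
  exact C.mem_red.2 ⟨_, C.div_mem_ch ⟨⟨l, rfl⟩, hn l h0⟩, (H l).1, (H l).2⟩

end RedtA

theorem redt_stmt : RedtStmt := by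
  intro k F M _ _ _ _ _ N R ξ ρ h h' hr hf hρ ⟨i₀, hi₀⟩ H
  have hn : ∀ l, h' l ≠ 0 → h l ≠ 0 := fun l hl => (H l hl).1
  ext W
  constructor
  · rintro ⟨j, hj, hW⟩
    obtain ⟨⟨i, e⟩, h0⟩ := hj ()
    obtain rfl : j = fun _ => h' i := funext fun _ => e.symm
    obtain ⟨O, hO, hd⟩ := exists_ctr (ZcA.loc_pre hρ hW.1) (RedtA.up hr hf.dom hρ (H i h0).2 hW.2.1)
    have hle : O ≤ ξ := fun a ha => (ZcA.mem_pre.1 (hd.1 ha)).1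
    refine ⟨O, ⟨⟨h i, ⟨⟨i, rfl⟩, hn i h0⟩, hO⟩, le_sup_left.trans hO.2.1,
      fun u hu w => hf.dom.2 u hu (w.mono hle)⟩, le_antisymm (fun m hm => ?_) fun m hm => ?_⟩
    · obtain ⟨a, ha, -, rfl⟩ := C.mem_red.1 hm
      exact (ZcA.mem_pre.1 (hd.1 ha)).2
    · obtain ⟨a, ha, b, hb, hu, rfl⟩ := hW.2.2 m hm
      obtain ⟨p, hp, p1, rfl⟩ := C.mem_red.1 (RedtA.down (R := R) hn (H i h0).2 ha)
      obtain ⟨q, hq, q1, rfl⟩ := C.mem_red.1 (RedtA.down (R := R) hn (H i h0).2 hb)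
      have hq' := hd.2 q (hO.2.1 hq) ((ZcA.isU_pre hρ q1).2 hu)
      rw [← evO_div ρ p1 (hq'.mono hle)]
      exact C.ev_mem hle (hq'.div_mem (hO.2.1 hp))
  · rintro ⟨O, ⟨hX, hd⟩, rfl⟩
    have hle := hf.le O hX hd
    obtain ⟨_, ⟨⟨i, rfl⟩, hi⟩, hO⟩ := hX
    have hu : IsU ξ (h i / h i₀) := ⟨div_ne_zero hi (hn i₀ hi₀), ((H i₀ hi₀).2 i).1, by
      rw [inv_div]; exact hle (hO.2.1 (C.div_mem_ch ⟨⟨i₀, rfl⟩, hn i₀ hi₀⟩))⟩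
    have h0 : h' i ≠ 0 := fun e => evO_ne ρ hu (by rw [((H i₀ hi₀).2 i).2, e, zero_div])
    refine ⟨fun _ => h' i, fun _ => ⟨⟨i, rfl⟩, h0⟩, C.red_loc hle hO.1,
      (RedtA.down hn (H i h0).2).trans (C.red_mono hO.2.1), fun m hm => ?_⟩
    obtain ⟨a, ha, -, rfl⟩ := C.mem_red.1 hm
    obtain ⟨p, hp, q, hq, hq', rfl⟩ := hO.2.2 a ha
    have h2 := RedtA.up hr hf.dom hρ (H i h0).2 le_rfl
    exact ⟨_, (ZcA.mem_pre.1 (h2 hp)).2, _, (ZcA.mem_pre.1 (h2 hq)).2, C.ev_unit hle hq',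
      evO_div ρ (hle (hO.2.1 hp)) (hq'.mono hle)⟩

end Pool.Agent.MP_e8e0b6_ag.R2
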