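import Pool.Agent.MP_e8e0b6_ag.R2.SpecB

/-!
The local rings of an integral scheme on an affine chart.
-/

set_option autoImplicit false

open Polynomial AlgebraicGeometry CategoryTheory Limits TensorProduct

namespace Pool.Agent.MP_e8e0b6_ag.R2

theorem stalk_stmt : StalkStmt := by
  intro Y _ B _ j _ κ hκ p
  let O := (Spec (.of B)).presheaf.stalk p
  let t : CommRingCat.of B ⟶ O := StructureSheaf.toStalk B p
  let _ : Algebra B O := t.hom.toAlgebra
  have : IsLocalization.AtPrime O p.asIdeal := StructureSheaf.IsLocalization.to_stalk B p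
  let σ : Y.presheaf.stalk (j p) ⟶ Y.functionField :=
    Y.presheaf.stalkSpecializes (genericPoint_specializes (j p))
  let τ : O ⟶ Y.functionField := inv (j.stalkMap p) ≫ σ
  have e0 : j.stalkMap p ≫ τ = σ := IsIso.hom_inv_id_assoc _ _
  have et : Spec.map t = (Spec (.of B)).fromSpecStalk p := (Spec.fromSpecStalk_eq' (.of B) p).symm
  have e1 : (t ≫ τ).hom = κ := sp_cancel j (by
    rw [hκ, sp, CommRingCat.ofHom_hom, Spec.map_comp, Category.assoc, et,
      ← Scheme.SpecMap_stalkMap_fromSpecStalk, ← Category.assoc, ← Spec.map_comp, e0, gen,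
      Scheme.SpecMap_stalkSpecializes_fromSpecStalk])
  have e2 : ∀ b, τ.hom (algebraMap B O b) = κ b := DFunLike.congr_fun e1
  ext ω
  constructor
  · rintro ⟨y, rfl⟩
    obtain ⟨⟨a, s⟩, h⟩ := IsLocalization.surj p.asIdeal.primeCompl ((j.stalkMap p).hom y : O)
    refine ⟨a, s, s.2, ?_⟩
    rw [← e2, ← e2, ← h, map_mul]
    congr 1
    exact (DFunLike.congr_fun (congrArg CommRingCat.Hom.hom e0) y).symm
  · rintro ⟨a, s, hs, h⟩
    have u := (IsLocalization.map_units O (⟨s, hs⟩ : p.asIdeal.primeCompl)).map τ.hom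
    refine ⟨(inv (j.stalkMap p)).hom (IsLocalization.mk' O a (⟨s, hs⟩ : p.asIdeal.primeCompl)),
      u.mul_right_cancel ?_⟩
    change τ.hom _ * _ = _
    rw [← map_mul, IsLocalization.mk'_spec, e2, e2, h]

end Pool.Agent.MP_e8e0b6_ag.R2
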