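import Pool.Agent.MP_e8e0b6_ag.R2.SpecB

/-!
The local rings of a smooth variety are factorial.
-/

set_option autoImplicit false

namespace Pool.Agent.MP_e8e0b6_ag.R2

open Pool.Agent.MP_79c67d_ag Pool.Agent.MP_20d318_ag Pool.Agent.MP_20d318_ag.AG
  Pool.Agent.MP_20d318_ag.BV Pool.Agent.MP_20d318_ag.CB

theorem ufds_stmt : UfdsStmt := by
  intro k F _ _ _ _ _ B hB O h
  have := h.1
  let _ : Algebra B O := (Subalgebra.inclusion h.2.1).toRingHom.toAlgebra
  let N : Submonoid B :=
    { carrier := {b | IsU O (b : F)}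
      mul_mem' := fun ha hb => ha.mul hb
      one_mem' := isU_one }
  have : IsLocalization N O := by
    refine (isLocalization_iff _ _).2 ⟨fun b => (isU_iff_isUnit _).1 b.2, fun f => ?_,
      fun {a b} e => ⟨1, ?_⟩⟩
    · obtain ⟨a, ha, b, hb, hu, e⟩ := h.2.2 f f.2
      refine ⟨(⟨a, ha⟩, ⟨⟨b, hb⟩, hu⟩), Subtype.ext ?_⟩
      change (f : F) * b = a
      rw [e, div_mul_cancel₀ _ hu.ne]
    · rw [Subalgebra.inclusion_injective h.2.1 e]
  obtain ⟨m, hm, hle⟩ := Ideal.exists_le_maximal
    ((IsLocalRing.maximalIdeal O).comap (algebraMap B O)) (Ideal.IsPrime.ne_top inferInstance)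
  have hu : ∀ b : m.primeCompl, IsUnit (algebraMap B O b) := fun b => by
    by_contra a
    exact b.2 (hle (Ideal.mem_comap.2 ((IsLocalRing.mem_maximalIdeal _).2 a)))
  have hN : m.primeCompl ≤ N := fun b hb => (isU_iff_isUnit (algebraMap B O b)).2 (hu ⟨b, hb⟩)
  let _ : Algebra (Localization.AtPrime m) O := (IsLocalization.lift hu).toAlgebra
  have : IsScalarTower B (Localization.AtPrime m) O :=
    .of_algebraMap_eq fun b => (IsLocalization.lift_eq hu b).symm
  have := IsLocalization.isLocalization_of_submonoid_le (Localization.AtPrime m) O _ N hN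
  have := SB.ufd_smooth (k := k) m
  exact UniqueFactorizationMonoid.of_isLocalization (N.map (algebraMap B (Localization.AtPrime m))) O

end Pool.Agent.MP_e8e0b6_ag.R2
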