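import Pool.Agent.MP_e8e0b6_ag.R2.SpecB

/-!
All smooth base changes of a smooth projective family of rational surfaces are good.
-/

set_option autoImplicit false

open Polynomial AlgebraicGeometry CategoryTheory Limits TensorProduct

namespace Pool.Agent.MP_e8e0b6_ag.R2

open Pool.Agent.MP_79c67d_ag Pool.Agent.MP_20d318_ag Pool.Agent.MP_20d318_ag.AG
  Pool.Agent.MP_20d318_ag.BV Pool.Agent.MP_20d318_ag.CB

namespace UniA

theorem lift {A B E : Type} [CommRing A] [CommRing B] [CommRing E] (ψ : A →+* E) (ι : B →+* E)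
    (hι : Function.Injective ι) (h : ∀ a, ∃ b, ι b = ψ a) : ∃ φ : A →+* B, ∀ a, ι (φ a) = ψ a := by
  choose φ e using h
  exact ⟨⟨⟨⟨φ, hι (by rw [e, map_one, map_one])⟩, fun a b => hι (by rw [map_mul, e, e, e, map_mul])⟩,
    hι (by rw [map_zero]; exact (e 0).trans (map_zero ψ)),
    fun a b => hι (by rw [map_add]; exact (e _).trans ((map_add ψ a b).trans (by rw [← e, ← e])))⟩, e⟩

end UniA

theorem uni_stmt (h1 : Br1Stmt) (h2 : Br2aStmt) (h3 : Br2bStmt) (h4 : Br3Stmt) (h5 : Br4Stmt)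
    (h6 : Br5Stmt) : UniStmt := by
  intro k _ _ _ N X S f π e pf Ω E J _ _ _ _ _ _ _ s η h S' geo mk eq A _ _ g σ ginj hs F _ _ μ C H
    hH hC hb sm fr
  obtain ⟨l, hl⟩ := UniA.lift ((μ : F →+* E).comp (C.val : C →+* F)) (algebraMap Ω E)
    (algebraMap Ω E).injective fun c => hb c c.2
  obtain ⟨φ, hφ⟩ := UniA.lift ((algebraMap Ω E).comp (g : A →+* Ω))
    ((μ : F →+* E).comp (C.val : C →+* F)) ((μ : F →+* E).injective.comp Subtype.val_injective)
    fun a => by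
      obtain ⟨c, hc, e⟩ := hC ⟨a, rfl⟩
      exact ⟨⟨c, hc⟩, e⟩
  have e1 : sp l ≫ sp φ ≫ σ = s := by
    rw [sp_comp_assoc, show l.comp φ = g from
      RingHom.ext fun a => (algebraMap Ω E).injective ((hl _).trans (hφ a)), hs]
  let : Algebra C Ω := l.toAlgebra
  let : Algebra C E := ((algebraMap Ω E).comp l).toAlgebra
  have : IsScalarTower C Ω E := IsScalarTower.of_algebraMap_eq fun _ => rfl
  obtain ⟨𝓡, j, pc⟩ := h1 k N X S f π e pf C (sp φ ≫ σ)
  obtain ⟨h', -, rfl, em, ld⟩ := h4 k C F Ω E N 𝓡 C.val μ H h Subtype.val_injective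
    (fun a => (hl a).symm) (h3 k C Ω E N X S π e _ s 𝓡 j η h e1 pc geo) hH
    (by rw [Subalgebra.range_val]; exact fr)
  have fbs : 𝓡.Fbs := fun L _ _ _ => by
    obtain ⟨M, _, _, η', h'', geo'⟩ := h2 k N X S f π e pf L (sp (algebraMap C L) ≫ sp φ ≫ σ)
    let : Algebra C M := ((algebraMap L M).comp (algebraMap C L)).toAlgebra
    have : IsScalarTower C L M := IsScalarTower.of_algebraMap_eq fun _ => rfl
    exact ⟨M, _, _, _, this, h'', h3 k C L M N X S π e _ _ 𝓡 j η' h'' rfl pc geo', geo'.tw⟩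
  have fm := h5 k C F N 𝓡 C.val h' sm em fbs
  have lc := h6 k C F N 𝓡 C.val h' em fbs fm
  rw [Subalgebra.range_val] at fm lc ld
  exact ⟨sm, fm, ⟨mk, hH.symm ▸ eq, hb, ld⟩, lc⟩

end Pool.Agent.MP_e8e0b6_ag.R2
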