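import Pool.Agent.MP_e8e0b6_ag.R2.SpecB

/-!
Row XF: the geometric fibre over a larger field.
-/

set_option autoImplicit false

open Polynomial AlgebraicGeometry CategoryTheory Limits TensorProduct

namespace Pool.Agent.MP_e8e0b6_ag.R2

open Pool.Agent.MP_79c67d_ag Pool.Agent.MP_20d318_ag Pool.Agent.MP_20d318_ag.AG
  Pool.Agent.MP_20d318_ag.BV Pool.Agent.MP_20d318_ag.CB

attribute [local instance] MvPolynomial.gradedAlgebra

namespace XfA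

variable {k Ω E M : Type} [Field k] [Field Ω] [Field E] [Field M] [Algebra Ω E] {N : ℕ}

theorem nz_map (ν : M →+* E) (h : Fin (N + 1) → M) : ν '' nz h = nz fun l => ν (h l) := by
  ext a
  constructor
  · rintro ⟨_, ⟨⟨l, rfl⟩, h0⟩, rfl⟩
    exact ⟨⟨l, rfl⟩, (map_ne_zero ν).2 h0⟩
  · rintro ⟨⟨l, rfl⟩, h0⟩
    exact ⟨h l, ⟨⟨l, rfl⟩, (map_ne_zero ν).1 h0⟩, rfl⟩

theorem nz_div (h : Fin (N + 1) → E) {c : E} (hc : c ≠ 0) :
    nz (fun l => h l / c) = (fun a => a / c) '' nz h := by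
  ext a
  constructor
  · rintro ⟨⟨l, rfl⟩, h0⟩
    exact ⟨h l, ⟨⟨l, rfl⟩, (div_ne_zero_iff.1 h0).1⟩, rfl⟩
  · rintro ⟨_, ⟨⟨l, rfl⟩, h0⟩, rfl⟩
    exact ⟨⟨l, rfl⟩, div_ne_zero h0 hc⟩

theorem cht_div (H : Set E) (c : E) (j : Unit → E) :
    cht Ω (fun _ : Unit => (fun a => a / c) '' H) j = cht Ω (fun _ : Unit => H) fun l => c * j l := by
  simp only [cht, Set.image_image, div_div]

theorem mp_div (H : Set E) {c : E} (hc : c ≠ 0) :
    mp Ω (fun _ : Unit => (fun a => a / c) '' H) = mp Ω fun _ : Unit => H := by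
  ext O
  constructor
  · rintro ⟨j, hj, hO⟩
    refine ⟨fun l => c * j l, fun l => ?_, cht_div (Ω := Ω) H c j ▸ hO⟩
    obtain ⟨a, ha, e⟩ := hj l
    show c * j l ∈ H
    rwa [← e, mul_div_cancel₀ _ hc]
  · rintro ⟨j, hj, hO⟩
    refine ⟨fun l => j l / c, fun l => ⟨j l, hj l, rfl⟩, ?_⟩
    rw [cht_div]
    simpa only [mul_div_cancel₀ _ hc] using hO

/-- homogeneous coordinates may be scaled -/
theorem scale {X S : Scheme.{0}} {π : X ⟶ S} {e : X ⟶ projSpace k N} {s : Spec (.of Ω) ⟶ S}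
    {η : Spec (.of E) ⟶ pullback π s} {h : Fin (N + 1) → E} (G : Geo π e s η h)
    {i : Fin (N + 1)} (hi : h i ≠ 0) : Geo π e s η fun l => h l / h i where
  int := G.int
  dom := G.dom
  base := G.base
  one := ⟨i, div_self hi⟩
  co i' h0 := by
    obtain ⟨ρ, h1, h2⟩ := G.co i' (div_ne_zero_iff.1 h0).1
    exact ⟨ρ, h1, fun l => by rw [h2, div_div_div_cancel_right₀ hi]⟩
  mem i' ρ h1 := div_ne_zero (G.mem i' ρ h1) hi
  tw := by
    rw [nz_div h hi, mp_div _ hi]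
    exact G.tw

end XfA

theorem xf_stmt (h1 : Br1Stmt) (h2 : Br2aStmt) (h3 : Br2bStmt) (h4 : Br3Stmt) (h5 : XfrStmt)
    (h6 : Mk1Stmt) (h7 : Mk2Stmt) (h8 : Fm0Stmt) : XfStmt := by
  intro k _ _ _ N X S f π e P K Ω M _ _ _ _ _ _ _ _ s₀ s η₀ h hs G
  obtain ⟨𝓡, j, hc⟩ := h1 k N X S f π e P K s₀
  have F0 : 𝓡.Fb K M h := h3 k K K M N X S π e s₀ s₀ 𝓡 j η₀ h
    (by rw [Algebra.algebraMap_self, sp_id, Category.id_comp]) hc G
  obtain ⟨E, _, _, η, h', G'⟩ := h2 k N X S f π e P Ω s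
  let _ : Algebra K E := ((algebraMap Ω E).comp (algebraMap K Ω)).toAlgebra
  have : IsScalarTower K Ω E := IsScalarTower.of_algebraMap_eq fun _ => rfl
  obtain ⟨I, _, S₀, hT, hM⟩ := h6 K M _ G.tw
  have fm := (h8 K M I S₀ (nz h) (h7 K M I S₀ hM).all hT
    ((Set.finite_range h).subset fun _ ha => ha.1) fun _ ha => ha.2).2.1
  obtain ⟨i, hi⟩ := G.one
  obtain ⟨ν, hne, hν⟩ := h5 K M Ω E N 𝓡 h h' i F0 (h3 k K Ω E N X S π e s₀ s 𝓡 j η h' hs hc G')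
    hi (fm.frac 1 ⟨⟨i, hi⟩, one_ne_zero⟩)
  have G'' : Geo π e s η fun l => ν (h l) := by
    rw [funext hν]
    exact XfA.scale G' hne
  obtain ⟨_, -, -, -, ld⟩ := h4 K K M Ω E N 𝓡 (Algebra.ofId K M) ν (nz h) (fun l => ν (h l))
    (algebraMap K M).injective (fun a => ν.commutes a)
    (h3 k K Ω E N X S π e s₀ s 𝓡 j η _ hs hc G'') (XfA.nz_map (ν : M →+* E) h) fm.frac
  exact ⟨E, _, _, _, this, η, ν, G'', ld⟩

end Pool.Agent.MP_e8e0b6_ag.R2
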