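import Pool.Agent.MP_e8e0b6_ag.R2.SpecB

/-!
Extension of the field of constants: the function field of a fibre maps to the function field of
the geometric fibre.
-/

set_option autoImplicit false

open Polynomial AlgebraicGeometry CategoryTheory Limits TensorProduct

namespace Pool.Agent.MP_e8e0b6_ag.R2

open Pool.Agent.MP_79c67d_ag Pool.Agent.MP_20d318_ag Pool.Agent.MP_20d318_ag.AG
  Pool.Agent.MP_20d318_ag.BV Pool.Agent.MP_20d318_ag.CB

namespace XfrA

variable {K L F B : Type} [Field K] [Field L] [Field F] [CommRing B] [Algebra K B] [Algebra K L]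

theorem right_inj :
    Function.Injective (Algebra.TensorProduct.includeRight : B →ₐ[K] L ⊗[K] B) :=
  Algebra.TensorProduct.includeRight_injective (algebraMap K L).injective

theorem inj_of_tens [Algebra L F] [Algebra K F] [IsScalarTower K L F] (θ : B →ₐ[K] F)
    (h : Function.Injective (tens L θ)) : Function.Injective θ := by
  intro a b e
  apply right_inj (K := K) (L := L)
  apply h
  simp only [Algebra.TensorProduct.includeRight_apply, tens_tmul, e]

end XfrA

theorem xfr_stmt : XfrStmt := by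
  intro K M Ω E _ _ _ _ _ _ _ _ _ N 𝓡 h h' i f1 f2 hi hfr
  obtain ⟨θ, hθ, iθ⟩ := f1.emb i (by rw [hi]; exact one_ne_zero)
  have jθ := XfrA.inj_of_tens θ iθ
  have nt : Nontrivial (𝓡.B i) := θ.toRingHom.domain_nontrivial
  have hi' : h' i ≠ 0 := by
    intro e
    have s1 := f2.zero i e
    have s2 : Subsingleton (𝓡.B i) := (XfrA.right_inj (L := Ω) (K := K)).subsingleton
    exact not_subsingleton _ s2
  obtain ⟨θ', hθ', iθ'⟩ := f2.emb i hi'
  have jθ' := XfrA.inj_of_tens θ' iθ'
  have hle : ch (⊥ : Subalgebra K M) (nz h) 1 ≤ θ.range := by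
    refine sup_le bot_le (Algebra.adjoin_le ?_)
    rintro _ ⟨a, ⟨⟨l, rfl⟩, -⟩, rfl⟩
    exact ⟨𝓡.r i l, by rw [← hi]; exact hθ l⟩
  obtain ⟨φ, hφ⟩ := exists_lift_frac (r := θ.toRingHom) jθ (fun ω => by
    obtain ⟨a, ha, b, hb, b0, e⟩ := hfr ω
    obtain ⟨x, rfl⟩ := hle ha
    obtain ⟨y, rfl⟩ := hle hb
    refine ⟨x, y, ?_, ?_⟩
    · rintro rfl
      exact b0 (map_zero _)
    · rw [e]
      exact div_mul_cancel₀ _ b0) (g := θ'.toRingHom) jθ'
  refine ⟨⟨φ, fun c => ?_⟩, hi', fun l => ?_⟩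
  · have := hφ (algebraMap K _ c)
    simpa using this
  · have := hφ (𝓡.r i l)
    have e1 : θ (𝓡.r i l) = h l := by rw [hθ l, hi, div_one]
    rw [← hθ' l, ← e1]
    exact this

end Pool.Agent.MP_e8e0b6_ag.R2
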