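import Pool.Agent.MP_e8e0b6_ag.R2.GlueS
import Pool.Agent.MP_e8e0b6_ag.R2.Br1
import Pool.Agent.MP_e8e0b6_ag.R2.Br2a
import Pool.Agent.MP_e8e0b6_ag.R2.Br2b
import Pool.Agent.MP_e8e0b6_ag.R2.Br3
import Pool.Agent.MP_e8e0b6_ag.R2.Br4
import Pool.Agent.MP_e8e0b6_ag.R2.Br5
import Pool.Agent.MP_e8e0b6_ag.R2.Br6
import Pool.Agent.MP_e8e0b6_ag.R2.Fibr
import Pool.Agent.MP_e8e0b6_ag.R2.Germ
import Pool.Agent.MP_e8e0b6_ag.R2.IndB
import Pool.Agent.MP_e8e0b6_ag.R2.M1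
import Pool.Agent.MP_e8e0b6_ag.R2.M3
import Pool.Agent.MP_e8e0b6_ag.R2.MainB
import Pool.Agent.MP_e8e0b6_ag.R2.Redt
import Pool.Agent.MP_e8e0b6_ag.R2.Stalk
import Pool.Agent.MP_e8e0b6_ag.R2.Ufds
import Pool.Agent.MP_e8e0b6_ag.R2.UniB
import Pool.Agent.MP_e8e0b6_ag.R2.Xf
import Pool.Agent.MP_e8e0b6_ag.R2.Xfr

/-! Families of rational surfaces over an elliptic base: the assembly. -/

set_option autoImplicit false

open AlgebraicGeometry CategoryTheory Limits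

namespace Pool.Agent.MP_e8e0b6_ag.R2

theorem br2a_all : Br2aStmt := br2a_stmt br1_stmt stalk_stmt

theorem uni_all : UniStmt :=
  uni_stmt br1_stmt br2a_all br2b_stmt br3_stmt (br4_stmt ufds_stmt fibr_stmt)
    (br5_stmt mk1 mk2 fibr_stmt lz_stmt ind_stmt redt_stmt)

theorem m1_all : M1Stmt :=
  m1_stmt br2a_all (xf_stmt br1_stmt br2a_all br2b_stmt br3_stmt xfr_stmt mk1 mk2 fm0_stmt) uni_all
    gal_all trf_all mk1

theorem main_all : MainStmt :=
  main_stmt (m3_stmt m1_all uni_all mkf_stmt br1_stmt br2b_stmt br3_stmt br6_stmt mk2) par_all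
    germ_stmt

theorem elliptic_of_surfaces {k : Type} [Field k] [IsAlgClosed k] [CharZero k] {X S : Scheme.{0}}
    {f : S ⟶ Spec (.of k)} {π : X ⟶ S} {N : ℕ} {i : X ⟶ pullback (projStr k N) f}
    (hi : IsClosedImmersion i) (h : i ≫ pullback.snd _ _ = π) [Smooth π]
    (hX : SmoothVariety (π ≫ f)) (eS : Elliptic f) (hS : SimplyConnected S)
    (hF : ∀ (Ω : Type) [Field Ω] [IsAlgClosed Ω] (s : Spec (.of Ω) ⟶ S),
      RationalSurface (pullback.snd π s)) : Elliptic (π ≫ f) := by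
  have := hX.separated
  have h1 : (i ≫ pullback.fst _ _) ≫ projStr k N = π ≫ f := by
    rw [Category.assoc, pullback.condition, ← h, Category.assoc]
  have h2 : pullback.lift _ π h1 = i :=
    pullback.hom_ext (pullback.lift_fst ..) ((pullback.lift_snd ..).trans h.symm)
  exact main_all k N X S f π _ ⟨h1, by rwa [h2], inferInstance, IsSeparated.of_comp π f, hF⟩ hX eS hS

end Pool.Agent.MP_e8e0b6_ag.R2
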