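import Pool.Agent.MP_e8e0b6_ag.R2.SpecS
import Pool.Agent.MP_20d318_ag.BV.XAlg

/-!
The residue field of a divisor on a family of surfaces is transcendental over the base.
-/

set_option autoImplicit false

open Polynomial AlgebraicGeometry CategoryTheory

namespace Pool.Agent.MP_e8e0b6_ag.R2

open Pool.Agent.MP_79c67d_ag Pool.Agent.MP_20d318_ag Pool.Agent.MP_20d318_ag.AG
  Pool.Agent.MP_20d318_ag.BV Pool.Agent.MP_20d318_ag.CB

namespace HtA

theorem core {k K : Type} [Field k] [Field K] [Algebra k K] (G : Set K) (c : Fin 2 → K)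
    (D : Subalgebra k K) (hG : G.Finite) (hF : Frac (Algebra.adjoin k G))
    (hc : AlgebraicIndependent k c) (hP : D ∈ Pts (Algebra.adjoin k G))
    (hrk : ∀ a ∈ mx D, ∀ b ∈ D, b ≠ 0 → ∃ n : ℕ, a ^ n / b ∈ D) :
    ∃ r ∈ D, ∀ p : k[X], p ≠ 0 → IsU D (aeval r p) := by
  set A := Algebra.adjoin k G with hA
  have : Algebra.FiniteType k A := Algebra.FiniteType.adjoin_of_finite hG
  obtain ⟨s, g, hinj, hint⟩ := exists_integral_inj_algHom_of_fg k A
  have hs := Ht1.card_le hF g hint hc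
  have := hP.1
  let p : Ideal A := (IsLocalRing.maximalIdeal D).comap (Subalgebra.inclusion hP.2.1)
  have hp : ∀ a : A, a ∈ p ↔ (a : K) ∈ mx D := fun a => by
    rw [Ideal.mem_comap, ← mem_mx_iff]; rfl
  have : p.IsPrime := Ideal.comap_isPrime _ _
  let : Algebra (MvPolynomial (Fin s) k) A := g.toRingHom.toAlgebra
  have : Algebra.IsIntegral (MvPolynomial (Fin s) k) A := ⟨hint⟩
  have : FaithfulSMul (MvPolynomial (Fin s) k) A :=
    (faithfulSMul_iff_algebraMap_injective _ _).2 hinj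
  have key : ∃ e : Fin (0 + 1) → Fin s,
      ∀ F : MvPolynomial (Fin (0 + 1)) k, F ≠ 0 → g (MvPolynomial.rename e F) ∉ p := by
    by_cases hq : p.under (MvPolynomial (Fin s) k) = ⊥
    · refine ⟨Fin.castLE (by omega), fun F hF0 h => hF0 ?_⟩
      have h1 : MvPolynomial.rename (Fin.castLE (show 0 + 1 ≤ s by omega)) F ∈
          p.under (MvPolynomial (Fin s) k) := h
      rw [hq, Ideal.mem_bot] at h1
      exact MvPolynomial.rename_injective _ (Fin.castLE_injective _) (by rw [h1, map_zero])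
    obtain ⟨π, hπq, hπ⟩ := Ideal.IsPrime.exists_mem_prime_of_ne_bot inferInstance hq
    have : (Ideal.span {π}).IsPrime := (Ideal.span_singleton_prime hπ.ne_zero).2 hπ
    obtain ⟨p', hle, hp', hov⟩ := Ideal.exists_ideal_le_liesOver_of_le
      (p := Ideal.span {π}) (q := p.under (MvPolynomial (Fin s) k)) p
      ((Ideal.span_singleton_le_iff_mem _).2 hπq)
    have hmem : ∀ F, g F ∈ p' ↔ π ∣ F := fun F => by
      rw [← Ideal.mem_span_singleton, hov.over]; rfl
    obtain ⟨e, -, he⟩ := Ht1.avoid (n := 0) hs hπ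
    refine ⟨e, fun F hF0 h => he F hF0 ((hmem _).1 ?_)⟩
    have h0 : (g π : K) ≠ 0 := fun h0 =>
      hπ.ne_zero (hinj (by rw [map_zero]; exact Subtype.ext h0))
    obtain ⟨m, h1⟩ := hrk _ ((hp _).1 h) _ (hP.2.1 (g π).2) h0
    obtain ⟨a, ha, b, hb, hu, hab⟩ := hP.2.2 _ h1
    have h2 : (⟨b, hb⟩ : A) * g (MvPolynomial.rename e F) ^ m = g π * ⟨a, ha⟩ := by
      apply Subtype.ext
      rw [div_eq_div_iff h0 hu.1] at hab
      push_cast
      linear_combination hab
    have h3 : (⟨b, hb⟩ : A) * g (MvPolynomial.rename e F) ^ m ∈ p' :=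
      h2 ▸ p'.mul_mem_right _ ((hmem π).2 dvd_rfl)
    rcases hp'.mem_or_mem h3 with h4 | h4
    · exact absurd ((hp _).1 (hle h4)) hu.not_mx
    · exact hp'.mem_of_pow_mem _ h4
  obtain ⟨e, he⟩ := key
  refine ⟨(g (MvPolynomial.X (e 0)) : K), hP.2.1 (g _).2, fun F hF0 => ?_⟩
  let φ : k[X] →ₐ[k] MvPolynomial (Fin (0 + 1)) k := aeval (MvPolynomial.X 0)
  have hφ : φ F ≠ 0 := fun h => hF0 (by
    have h1 : (MvPolynomial.aeval fun _ : Fin (0 + 1) => (X : k[X])).comp φ = AlgHom.id k _ := by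
      ext1; simp [φ]
    have h2 := DFunLike.congr_fun h1 F
    rw [AlgHom.comp_apply, h, map_zero] at h2
    exact h2.symm)
  have h1 : aeval (g (MvPolynomial.X (e 0)) : K) F = (g (MvPolynomial.rename e (φ F)) : K) := by
    have : aeval (g (MvPolynomial.X (e 0)) : K) =
        A.val.comp (g.comp ((MvPolynomial.rename e).comp φ)) := by
      ext1; simp [φ]
    rw [this]; rfl
  rw [h1]
  exact isU_of_not_mx (hP.2.1 (g _).2) fun h => he _ hφ ((hp _).2 h)

end HtA

theorem ht_stmt : HtStmt := by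
  intro k F _ _ _ R D G a b hG hF hD hR hab hrk
  let K := FractionRing R
  let : Algebra K F := FractionRing.liftAlgebra R F
  have : IsScalarTower R K F := FractionRing.isScalarTower_liftAlgebra R F
  have hRD : R ≤ D := le_sup_left.trans hD.2.1
  have hK : ∀ c : K, algebraMap K F c ∈ D := fun c => by
    obtain ⟨x, y, hy, rfl⟩ := IsFractionRing.div_surjective (A := R) c
    rw [map_div₀, ← IsScalarTower.algebraMap_apply, ← IsScalarTower.algebraMap_apply]
    exact (hR _ y.2 fun h => nonZeroDivisors.ne_zero hy (Subtype.ext h)).div_mem (hRD x.2)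
  let D' : Subalgebra K F := { D.toSubring with algebraMap_mem' := hK }
  have hsub : ∀ x ∈ R ⊔ Algebra.adjoin k G, x ∈ Algebra.adjoin K G := by
    have hRA : ∀ x ∈ R, x ∈ Algebra.adjoin K G := fun x hx => by
      have := (Algebra.adjoin K G).algebraMap_mem (algebraMap R K ⟨x, hx⟩)
      rwa [← IsScalarTower.algebraMap_apply] at this
    let A' : Subalgebra k F := { (Algebra.adjoin K G).toSubring with
      algebraMap_mem' := fun c => hRA _ (R.algebraMap_mem c) }
    have h1 : R ⊔ Algebra.adjoin k G ≤ A' :=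
      sup_le hRA (Algebra.adjoin_le (Algebra.subset_adjoin (R := K)))
    exact fun x hx => h1 hx
  have : Algebra.IsAlgebraic R K := IsLocalization.isAlgebraic K (nonZeroDivisors R)
  have hc : AlgebraicIndependent K ![a, b] := hab.extendScalars K
  have hle : Algebra.adjoin K G ≤ D' :=
    Algebra.adjoin_le fun x hx => hD.2.1 (le_sup_right (a := R) (Algebra.subset_adjoin hx))
  obtain ⟨r, hr, h⟩ := HtA.core G ![a, b] D' hG (fun f => by
      obtain ⟨x, hx, y, hy, h0, h⟩ := hF f
      exact ⟨x, hsub x hx, y, hsub y hy, h0, h⟩) hc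
    ⟨isLocalRing_of fun x hx y hy => mx_add (O := D) hD.1 hx hy, hle, fun f hf => by
      obtain ⟨x, hx, y, hy, h0, h⟩ := hD.2.2 f hf
      exact ⟨x, hsub x hx, y, hsub y hy, h0, h⟩⟩ hrk
  refine ⟨r, hr, fun p hp => ?_⟩
  have h1 := h (p.map (algebraMap R K))
    ((Polynomial.map_ne_zero_iff (IsFractionRing.injective R K)).2 hp)
  rwa [aeval_map_algebraMap] at h1

end Pool.Agent.MP_e8e0b6_ag.R2
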