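import Pool.Agent.MP_e8e0b6_ag.R2.SpecS

/-!
Row LN: a line on the family.
-/

set_option autoImplicit false

open Polynomial AlgebraicGeometry CategoryTheory

namespace Pool.Agent.MP_e8e0b6_ag.R2

open Pool.Agent.MP_79c67d_ag Pool.Agent.MP_20d318_ag Pool.Agent.MP_20d318_ag.AG
  Pool.Agent.MP_20d318_ag.BV Pool.Agent.MP_20d318_ag.CB

namespace LneA

variable {k B F κ : Type} [Field k] [CommRing B] [Field F] [Field κ] [Algebra k B] [Algebra k F]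
  [Algebra k κ] {g : B →ₐ[k] F} {e e' : B →ₐ[k] k} {H : Set F} {z : Subalgebra k F → F}
  {D D' : Subalgebra k F}

theorem dt_mono {X Y : Set (Subalgebra k F)} (h : Y ⊆ X) (hd : Dt X z) : Dt Y z := by
  obtain ⟨U, V, h1, h2, h3⟩ := hd
  exact ⟨U, V, ⟨h1.1, fun O hO => h1.2 O (h hO)⟩, ⟨h2.1, fun O hO => h2.2 O (h hO)⟩,
    fun O hO => h3 O (h hO)⟩

theorem unit_of (hg : Function.Injective g) (h : Dd (lp g e) H z D) {b : B} (hb : b ≠ 0) :
    IsU D (g b) :=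
  h.hor _ (range_le_lp ⟨b, rfl⟩) fun h0 => hb (hg (h0.trans (map_zero g).symm))

theorem range_le (h : Dd (lp g e) H z D) : g.range ≤ D := range_le_lp.trans (C.xx_le h.mem)

theorem lp_le (hg : Function.Injective g) (h : Dd (lp g e) H z D) : lp g e' ≤ D := fun f hf => by
  obtain ⟨a, b, hb, h1⟩ := mem_lp.1 hf
  have hu := unit_of hg h (b := b) (fun h0 => hb (by rw [h0, map_zero]))
  rw [eq_div_of_mul_eq hu.ne h1]
  exact hu.div_mem (range_le h ⟨a, rfl⟩)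

theorem dd_le (h6 : LzStmt) (hg : Function.Injective g) (h : Dd (lp g e) H z D)
    (h' : Dd (lp g e') H z D') : D ≤ D' :=
  (h'.iff D ((h6 k F _ _ H (lp_lz hg)).2.1 D ((h6 k F _ _ H (lp_lz hg)).1 h.mem)
    (lp_le hg h))).1 ((h.iff D h.mem).2 le_rfl)

theorem red_lp (hg : Function.Injective g) (h : Dd (lp g e) H z D) (ρ : D →ₐ[k] κ)
    (g' : B →ₐ[k] κ) (hg' : ∀ p, evO D ρ (g p) = g' p) : red D ρ (lp g e') = lp g' e' := by
  refine le_antisymm (fun m hm => ?_) fun m hm => ?_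
  · obtain ⟨f, hf, hfD, rfl⟩ := C.mem_red.1 hm
    obtain ⟨a, b, hb, h1⟩ := mem_lp.1 hf
    refine mem_lp.2 ⟨a, b, hb, ?_⟩
    have hb' : g b ∈ D := range_le h ⟨b, rfl⟩
    rw [← hg', ← hg', ← evO_mul ρ hfD hb', h1]
  · obtain ⟨a, b, hb, h1⟩ := mem_lp.1 hm
    have hu := unit_of hg h (b := b) (fun h0 => hb (by rw [h0, map_zero]))
    have ha : g a ∈ D := range_le h ⟨a, rfl⟩
    refine C.mem_red.2 ⟨g a / g b, mem_lp.2 ⟨a, b, hb, div_mul_cancel₀ _ hu.ne⟩, hu.div_mem ha, ?_⟩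
    rw [evO_div ρ ha hu, hg', hg', ← h1]
    exact mul_div_cancel_right₀ _ (hg' b ▸ evO_ne ρ hu)

theorem frac_red {ρ : D →ₐ[k] κ} {j : F} {H' : Set κ} (hR : Rd H D ρ j H')
    (hD : D ∈ Pts (ch g.range H j)) (g' : B →ₐ[k] κ) (hg' : ∀ p, evO D ρ (g p) = g' p) :
    Frac (ch g'.range H' 1) := by
  have key : ch g.range H j ≤ ((ch g'.range H' 1).comap ρ).map D.val := by
    refine C.ch_le ?_ fun a ha => ⟨⟨a / j, hR.gen a ha⟩, ?_, rfl⟩
    · rintro _ ⟨p, rfl⟩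
      have hp : g p ∈ D := hD.2.1 ((le_sup_left : g.range ≤ ch g.range H j) ⟨p, rfl⟩)
      refine ⟨⟨g p, hp⟩, ?_, rfl⟩
      change ρ _ ∈ ch g'.range H' 1
      rw [← evO_of_mem ρ hp, hg']
      exact (le_sup_left : g'.range ≤ ch g'.range H' 1) ⟨p, rfl⟩
    · change ρ _ ∈ ch g'.range H' 1
      rw [← evO_of_mem ρ (hR.gen a ha), ← div_one (evO D ρ (a / j))]
      exact C.div_mem_ch (hR.eq ▸ ⟨a, ha, rfl⟩)
  have k2 : ∀ a ∈ ch g.range H j, evO D ρ a ∈ ch g'.range H' 1 := fun a ha => by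
    obtain ⟨b, hb, rfl⟩ := key ha
    change evO D ρ (b : F) ∈ _
    rw [evO_coe]
    exact hb
  intro f
  obtain ⟨u, rfl⟩ := hR.surj f
  obtain ⟨a, ha, b, hb, hu, h1⟩ := hD.2.2 u u.2
  refine ⟨_, k2 a ha, _, k2 b hb, evO_ne ρ hu, ?_⟩
  rw [← evO_coe, h1, evO_div ρ (hD.2.1 ha) hu]

end LneA

theorem lne_stmt (h1 : FrameStmt) (h2 : AzStmt) (h3 : DdStmt) (h4 : CrvStmt) (h5 : SecbStmt)
    (h6 : LzStmt) : LneStmt := by
  intro k A F _ _ _ _ _ _ _ _ g x H γ hEt hg hF hDt hAt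
  obtain ⟨h, ψ, hxh, -, hψ, hu⟩ := h1 k A F g x H γ hEt hg hF hDt hAt
  have hAz : ∀ e : A[X] →ₐ[k] k, e (Polynomial.C h) ≠ 0 → Az (lp g e) H fun O => ψ * γ O :=
    fun e he =>
      have hs := (h6 k F _ _ H (lp_lz (e := e) hg)).1
      h2 k F _ H γ ψ (hAt e) (LneA.dt_mono hs hDt) (fun O hO => hψ O (hs hO)) (hu e he)
  let e₀ : A[X] →ₐ[k] k := x.comp ((aeval (0 : A) : A[X] →ₐ[A] A).restrictScalars k)
  have he₀ : e₀ (Polynomial.C h) ≠ 0 := by simpa [e₀] using hxh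
  obtain ⟨D, hD⟩ : ∃ D, Dd (lp g e₀) H (fun O => ψ * γ O) D := by
    obtain ⟨M, _, _, I, _, ξ, ρ, S, d, φ, P, w, hZ, -⟩ := hAz e₀ he₀
    exact h3 k F M I _ H ξ ρ S d φ P _ hZ
  obtain ⟨j, hj, hDj⟩ := (h6 k F _ _ H (lp_lz (e := e₀) hg)).1 hD.mem
  have : IsLocalRing D := hDj.1
  have hle : g.range ≤ D := LneA.range_le hD
  let g' : A[X] →ₐ[k] IsLocalRing.ResidueField D :=
    (resid D).comp (g.codRestrict D fun p => hle ⟨p, rfl⟩)
  have hg' : ∀ p, evO D (resid D) (g p) = g' p := fun p => evO_of_mem _ (hle ⟨p, rfl⟩)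
  have hR : Rd H D (resid D) j ((fun a => evO D (resid D) (a / j)) '' H) :=
    ⟨resid_loc, resid_surj, hj, fun a ha => hDj.2.1 (C.div_mem_ch ha), rfl⟩
  have hinj : Function.Injective g' := (injective_iff_map_eq_zero g').2 fun p hp =>
    by_contra fun h0 => evO_ne (resid D) (LneA.unit_of hg hD h0) ((hg' p).trans hp)
  obtain ⟨h', w, a1, a2, a3⟩ := h5 k A _ g' x _ h hEt hinj (hF.fin.image _)
    ⟨j, hj, by simp only [div_self (hF.nz j hj), evO_one]⟩ (LneA.frac_red hR hDj g' hg') hxh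
    (fun e he => by
      obtain ⟨M, _, _, I, _, ξ, ρ, S, d, φ, P, w, hZ, hW⟩ := hAz e he
      obtain ⟨D', hD'⟩ := h3 k F M I _ H ξ ρ S d φ P _ hZ
      obtain rfl : D = D' := le_antisymm (LneA.dd_le h6 hg hD hD') (LneA.dd_le h6 hg hD' hD)
      have h7 : Pw (red D (resid D) (lp g e)) _ (evO D (resid D) w) :=
        h4 k F M _ I _ H ξ ρ S d φ P _ w D (resid D) j _ hZ hW hD' hR
      rw [LneA.red_lp hg hD (resid D) g' hg'] at h7
      exact ⟨_, h7⟩)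
  exact ⟨D, _, inferInstance, inferInstance, resid D, j, _, g', h', w, hR, hle, hg', hinj, a1, a2,
    a3⟩

end Pool.Agent.MP_e8e0b6_ag.R2
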