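import Pool.Agent.MP_e8e0b6_ag.R2.SpecS

/-!
Row LOCF: the module of sections over a local ring is free.
-/

set_option autoImplicit false

open Polynomial AlgebraicGeometry CategoryTheory

namespace Pool.Agent.MP_e8e0b6_ag.R2

open Pool.Agent.MP_79c67d_ag Pool.Agent.MP_20d318_ag Pool.Agent.MP_20d318_ag.AG
  Pool.Agent.MP_20d318_ag.BV Pool.Agent.MP_20d318_ag.CB

namespace LocfA

variable {k F M : Type} [Field k] [Field F] [Field M] [Algebra k F] [Algebra k M]

theorem dt_scal {X : Set (Subalgebra k F)} {γ : Subalgebra k F → F} {u : F} (h : Dt X γ)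
    (hu : u ≠ 0) : Dt X fun O => u * γ O := by
  obtain ⟨U, V, h1, h2, h⟩ := h
  refine ⟨U, (fun a => u * a) '' V, h1,
    ⟨h2.1.image _, fun O hO => (h2.2 O hO).elim fun b hb => ⟨_, hb.smul hu⟩⟩, fun O hO => ?_⟩
  obtain ⟨a, b, ha, hb, h3⟩ := h O hO
  refine ⟨a, _, ha, hb.smul hu, ?_⟩
  rwa [mul_assoc, mul_div_mul_left _ _ hu]

theorem ev_sum {ι : Type} {O : Subalgebra k F} (ρ : O →ₐ[k] M) {f : ι → F} (hf : ∀ i, f i ∈ O)
    (s : Finset ι) : evO O ρ (∑ i ∈ s, f i) = ∑ i ∈ s, evO O ρ (f i) := by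
  classical
  induction s using Finset.induction_on with
  | empty => simpa using evO_zero ρ
  | insert a s ha ih =>
    rw [Finset.sum_insert ha, Finset.sum_insert ha,
      evO_add ρ (hf a) (O.sum_mem fun i _ => hf i), ih]

end LocfA

theorem locf_stmt : LocfStmt := by
  rintro k F _ _ _ R H γ ⟨M, _, _, I, _, ξ, ρ, S, d, u, L, hS, hA, hN, hu, hb⟩ hγ
  have hD := LocfA.dt_scal hγ hu
  have := hS.s.fd d
  obtain ⟨φ, hφ, h0⟩ := hS.a2.eff2 d hN.eff
  have : Nontrivial (S.Sec d) := ⟨⟨⟨φ, hφ⟩, 0, fun e => h0 (congrArg Subtype.val e)⟩⟩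
  obtain ⟨n, hn⟩ : ∃ n, Module.finrank k (S.Sec d) = n + 1 :=
    Nat.exists_eq_succ_of_ne_zero Module.finrank_pos.ne'
  let b := Module.finBasisOfFinrankEq k (S.Sec d) hn
  choose z hz hev using fun i => hA.surj d _ hD hb hN.ex (b i) (b i).2
  have hzξ : ∀ i, z i ∈ ξ := fun i => C.sc_mem L hb (hz i)
  have hli : LinearIndependent k fun i => evO ξ ρ (z i) := by
    simp only [hev]
    exact b.linearIndependent.map' (S.Sec d).subtype (Submodule.ker_subtype _)
  have hsp : S.Sec d ≤ Submodule.span k (evO ξ ρ '' Set.range z) := fun s hs => by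
    have e : s = ∑ i, b.repr ⟨s, hs⟩ i • evO ξ ρ (z i) := by
      have := congrArg (S.Sec d).subtype (b.sum_repr ⟨s, hs⟩)
      simp only [map_sum, map_smul, Submodule.subtype_apply] at this
      simp only [hev]
      exact this.symm
    rw [e]
    exact Submodule.sum_mem _ fun i _ => Submodule.smul_mem _ _
      (Submodule.subset_span ⟨z i, ⟨i, rfl⟩, rfl⟩)
  refine ⟨n, fun i => z i * u, ?_, fun y => ⟨fun hy => ?_, fun hy O hO => ?_⟩, ?_⟩
  · exact (L.ind _ z hzξ hli).map' (LinearMap.mulRight R u)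
      (LinearMap.ker_eq_bot.2 (mul_left_injective₀ hu))
  · obtain ⟨c, hc⟩ := (Submodule.mem_span_range_iff_exists_fun R).1
      (hA.span d _ hD hb hN.ex (Set.range z) (by rintro _ ⟨i, rfl⟩; exact hz i) hsp (y / u)
        fun O hO => by
          have := hy O hO
          rwa [← mul_assoc, div_mul_cancel₀ _ hu])
    refine (Submodule.mem_span_range_iff_exists_fun R).2 ⟨c, ?_⟩
    simp only [← smul_mul_assoc]
    rw [← Finset.sum_mul, hc, div_mul_cancel₀ _ hu]
  · obtain ⟨c, rfl⟩ := (Submodule.mem_span_range_iff_exists_fun R).1 hy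
    rw [Finset.sum_mul]
    refine O.sum_mem fun i _ => ?_
    rw [smul_mul_assoc, mul_assoc]
    exact O.mul_mem (C.xx_le hO (c i).2) (hz i O hO)
  · rintro ξ' h' r hr ⟨i0, hi0⟩
    obtain rfl : ξ = ξ' :=
      le_antisymm (h'.le ξ L.fib.mem L.fib.dom) (L.fib.le ξ' h'.mem h'.dom)
    have hrξ : ∀ i, r i ∈ ξ := fun i => L.fib.dom.1 (hr i)
    choose c hc using fun i => L.rat (r i) (hr i)
    have he : ∀ i, evO ξ ρ (r i) = algebraMap k M (c i) := fun i => by
      have h1 := L.fib.dom.mx (hc i)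
      have h2 := (L.lh.eq_zero_iff h1.1).2 h1
      rwa [evO_sub ρ (hrξ i) (ξ.algebraMap_mem _), evO_const, sub_eq_zero] at h2
    have hU : IsU ξ (∑ i, r i * z i) := by
      refine C.xi_unit L (ξ.sum_mem fun i _ => ξ.mul_mem (hrξ i) (hzξ i)) fun h1 => ?_
      rw [LocfA.ev_sum ρ fun i => ξ.mul_mem (hrξ i) (hzξ i)] at h1
      have h2 : c i0 = 0 := Fintype.linearIndependent_iff.1 hli c (by
        rw [← h1]
        exact Finset.sum_congr rfl fun i _ => by
          rw [evO_mul ρ (hrξ i) (hzξ i), he, Algebra.smul_def]) i0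
      have h3 := hc i0
      rw [h2, map_zero, sub_zero] at h3
      exact hi0.not_mx h3
    have h4 := hU.mul (hb ξ L.fib.mem L.fib.dom).1
    simp only [← mul_assoc]
    rwa [← Finset.sum_mul, mul_assoc]

end Pool.Agent.MP_e8e0b6_ag.R2
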