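import Pool.Agent.MP_e8e0b6_ag.R2.SpecS

/-!
An affine open subset of a family.
-/

set_option autoImplicit false

open Polynomial AlgebraicGeometry CategoryTheory

namespace Pool.Agent.MP_e8e0b6_ag.R2

open Pool.Agent.MP_79c67d_ag Pool.Agent.MP_20d318_ag Pool.Agent.MP_20d318_ag.AG
  Pool.Agent.MP_20d318_ag.BV Pool.Agent.MP_20d318_ag.CB

namespace OiA

variable {k F L : Type} [Field k] [Field F] [Field L] [Algebra k F] {B D P : Subalgebra k F}
  {G : Set F}

/-- The localisation at a prime. -/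
def lq (B : Subalgebra k F) (p : Ideal B) [p.IsPrime] : Subalgebra k F :=
  { locS (B.val : B →+* F) p with
    algebraMap_mem' := fun c => map_mem_locS (r := (B.val : B →+* F)) (algebraMap k B c) }

variable {p : Ideal B} [p.IsPrime]

theorem isU_lq {x : B} : IsU (lq B p) x ↔ x ∉ p :=
  Iff.trans ⟨fun h => ⟨h.2.1, h.1, h.2.2⟩, fun h => ⟨h.2.1, h.1, h.2.2⟩⟩
    (un_locS (r := (B.val : B →+* F)) Subtype.val_injective)

theorem lq_pts : lq B p ∈ Pts B :=
  ⟨loc_iff.1 (loc_locS (r := (B.val : B →+* F)) (p := p) Subtype.val_injective),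
    fun x hx => map_mem_locS (r := (B.val : B →+* F)) ⟨x, hx⟩,
    fun _ ⟨a, s, hs, e⟩ => ⟨a, a.2, s, s.2, isU_lq.2 hs, eq_div_of_mul_eq (isU_lq.2 hs).ne e⟩⟩

/-- Homomorphisms to a field extend to the localisation. -/
theorem extd (χ : B →+* L) (h : ∀ s ∉ p, χ s ≠ 0) : ∃ χ' : lq B p →+* L,
    χ'.comp (Subalgebra.inclusion (lq_pts (p := p)).2.1 : B →+* lq B p) = χ := by
  let _ := (Subalgebra.inclusion (lq_pts (p := p)).2.1 : B →+* lq B p).toAlgebra
  have : IsLocalization.AtPrime (lq B p) p :=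
    ⟨fun y => (isU_iff_isUnit _).1 (isU_lq.2 y.2), fun ⟨z, a, s, hs, e⟩ =>
      ⟨(a, ⟨s, hs⟩), Subtype.ext e⟩, fun h => ⟨1, by
        rw [Subalgebra.inclusion_injective lq_pts.2.1 h]⟩⟩
  exact ⟨_, IsLocalization.lift_comp (M := p.primeCompl) fun y => (h y y.2).isUnit⟩

/-- A basic open neighbourhood on which finitely many functions are regular. -/
theorem nbh (hP : P ∈ Pts D) (hG : G.Finite) (h : ∀ c ∈ G, c ∈ P) :
    ∃ (W : Subalgebra k F) (hW : D ≤ W), W ≤ P ∧ (∀ c ∈ G, c ∈ W) ∧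
      IsOpenImmersion (sp (Subalgebra.inclusion hW : D →+* W)) := by
  obtain ⟨b, hb, hu, hc⟩ : ∃ b ∈ D, IsU P b ∧ ∀ c ∈ G, c * b ∈ D := by
    induction G, hG using Set.Finite.induction_on with
    | empty => exact ⟨1, D.one_mem, isU_one, fun _ h => h.elim⟩
    | @insert c G _ _ ih =>
      obtain ⟨b, hb, hu, hc⟩ := ih fun c hc => h c (Set.mem_insert_of_mem _ hc)
      obtain ⟨x, hx, y, hy, hv, e⟩ := hP.2.2 c (h c (Set.mem_insert _ _))
      refine ⟨b * y, D.mul_mem hb hy, hu.mul hv, ?_⟩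
      rintro z (rfl | hz)
      · rw [e, mul_left_comm, div_mul_cancel₀ _ hv.ne]
        exact D.mul_mem hb hx
      · rw [← mul_assoc]
        exact D.mul_mem (hc z hz) hy
  let W : Subalgebra k F :=
    { carrier := {f | ∃ n : ℕ, f * b ^ n ∈ D}
      mul_mem' := fun {x y} ⟨m, hm⟩ ⟨n, hn⟩ => ⟨m + n, by
        convert D.mul_mem hm hn using 1
        ring⟩
      add_mem' := fun {x y} ⟨m, hm⟩ ⟨n, hn⟩ => ⟨m + n, by
        convert D.add_mem (D.mul_mem hm (D.pow_mem hb n)) (D.mul_mem hn (D.pow_mem hb m)) using 1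
        ring⟩
      algebraMap_mem' := fun c => ⟨0, by simp⟩ }
  have hW : D ≤ W := fun x hx => ⟨0, by simpa using hx⟩
  refine ⟨W, hW, fun x ⟨n, hn⟩ => ?_, fun c h => ⟨1, by simpa using hc c h⟩, ?_⟩
  · have := (hu.pow n).div_mem (hP.2.1 hn)
    rwa [mul_div_cancel_right₀ _ (hu.pow n).ne] at this
  · let _ := (Subalgebra.inclusion hW : D →+* W).toAlgebra
    have : IsLocalization.Away (⟨b, hb⟩ : D) W := IsLocalization.Away.mk _
      ((isU_iff_isUnit _).1 ⟨hu.ne, hW hb, 1, by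
        change b⁻¹ * b ^ 1 ∈ D
        simp [hu.ne]⟩)
      (fun ⟨z, n, hn⟩ => ⟨n, ⟨_, hn⟩, rfl⟩)
      fun x y h => ⟨0, by rw [Subalgebra.inclusion_injective hW h]⟩
    exact IsOpenImmersion.of_isLocalization (⟨b, hb⟩ : D)

end OiA

open OiA in
theorem oi_stmt : OiStmt := by
  intro k A F _ _ _ _ _ g H Y q η j lk B G hG hB _ hX
  have := lk.sep
  have := lk.ft
  have hg : g.range ≤ B := hB ▸ le_sup_left
  obtain ⟨Φ, -, hΦ⟩ := exists_glue (r := (B.val : B →+* F)) Subtype.val_injective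
    (sp ((g : A →+* F).codRestrict B fun a => hg ⟨a, rfl⟩)) q η
    (by rw [lk.base, sp_comp]; rfl) fun p _ => by
      obtain ⟨a, ha, h⟩ := hX (lq_pts (p := p))
      refine ⟨sp (Subalgebra.inclusion h.2.1 : ch g.range H a →+* lq B p) ≫ j ⟨a, ha⟩, ?_⟩
      rw [← lk.gen ⟨a, ha⟩]
      exact sp_comp_assoc _ _ _
  have key : ∀ (p : Ideal B) [p.IsPrime], ∃ (W : Subalgebra k F) (hW : B ≤ W), W ≤ lq B p ∧
      IsOpenImmersion (sp (Subalgebra.inclusion hW : B →+* W) ≫ Φ) := fun p _ => by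
    obtain ⟨a, ha, h⟩ := hX (lq_pts (p := p))
    obtain ⟨W, h1, h2, h3, h4⟩ := nbh h hG fun c hc =>
      lq_pts.2.1 (hB ▸ (le_sup_right : _ ≤ g.range ⊔ _) (Algebra.subset_adjoin hc))
    have hW : B ≤ W := hB ▸ sup_le (le_sup_left.trans h1) (Algebra.adjoin_le h3)
    have := lk.opn ⟨a, ha⟩
    refine ⟨W, hW, h2, ?_⟩
    rw [ext_sp (r := (W.val : W →+* F)) Subtype.val_injective
      (g := sp (Subalgebra.inclusion hW : B →+* W) ≫ Φ)
      (g' := sp (Subalgebra.inclusion h1 : ch g.range H a →+* W) ≫ j ⟨a, ha⟩) (by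
        rw [sp_comp_assoc, sp_comp_assoc]
        exact hΦ.trans (lk.gen ⟨a, ha⟩).symm)]
    infer_instance
  refine ⟨Φ, T.isOpenImmersion_of_local Φ (fun L _ χ χ' hχ e => ?_) fun w => ?_, hΦ⟩
  · have := RingHom.ker_isPrime χ'
    obtain ⟨W, hW, h1, h2⟩ := key (RingHom.ker χ')
    obtain ⟨ψ, rfl⟩ := extd (p := RingHom.ker χ') χ fun s hs h =>
      hs (by rw [hχ (h.trans (map_zero χ).symm)]; exact zero_mem _)
    obtain ⟨ψ', h3⟩ := extd (p := RingHom.ker χ') χ' fun s hs => hs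
    have h4 := sp_cancel (sp (Subalgebra.inclusion hW : B →+* W) ≫ Φ)
      (ρ := ψ.comp (Subalgebra.inclusion h1 : W →+* lq B (RingHom.ker χ')))
      (ρ' := ψ'.comp (Subalgebra.inclusion h1 : W →+* lq B (RingHom.ker χ'))) (by
        rw [sp_comp_assoc, sp_comp_assoc]
        exact e.trans (congrArg (sp · ≫ Φ) h3.symm))
    exact (congrArg (·.comp (Subalgebra.inclusion hW : B →+* W)) h4).trans h3
  · obtain ⟨W, hW, h1, h2⟩ := key w.asIdeal
    have := (lq_pts (p := w.asIdeal)).1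
    refine ⟨W, inferInstance, _, h2, sp (Subalgebra.inclusion h1 : W →+* lq B w.asIdeal)
      (IsLocalRing.closedPoint (lq B w.asIdeal)), ?_⟩
    rw [Scheme.Hom.comp_apply]
    refine congrArg Φ (PrimeSpectrum.ext (Ideal.ext fun x => ?_))
    exact (not_congr ((isU_iff_isUnit _).symm.trans isU_lq)).trans not_not

end Pool.Agent.MP_e8e0b6_ag.R2
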