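import Pool.Agent.MP_e8e0b6_ag.R2.SpecS

/-! Row PAR: cells and a section. -/

set_option autoImplicit false

open Polynomial AlgebraicGeometry CategoryTheory

namespace Pool.Agent.MP_e8e0b6_ag.R2

open Pool.Agent.MP_79c67d_ag Pool.Agent.MP_20d318_ag Pool.Agent.MP_20d318_ag.AG
  Pool.Agent.MP_20d318_ag.BV Pool.Agent.MP_20d318_ag.CB

theorem Par.et_poly {k A : Type} [Field k] [CommRing A] [Algebra k A] (h : T.Et k A) :
    T.Et k A[X] := by
  obtain ⟨d, z, hz⟩ := T.Multi.et_mv h 1
  let e : MvPolynomial (Fin 1) A ≃ₐ[k] A[X] :=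
    (MvPolynomial.uniqueAlgEquiv A (Fin 1)).restrictScalars k
  exact ⟨d, e.toAlgHom.comp z,
    RingHom.Etale.stableUnderComposition _ _ hz (RingHom.Etale.of_bijective e.bijective)⟩

theorem par_stmt (h1 : TsenStmt) (h2 : AtsStmt) (h3 : PtsStmt) (h4 : LneStmt) (h5 : SeccStmt)
    (h6 : CellStmt) : ParStmt := by
  intro k A F Ω E J _ _ _ _ _ _ _ _ _ _ _ _ _ _ _ _ g x H μ S' Y q η j s₀ hA hT hL hs
  obtain ⟨a, θ, -, hθ⟩ := h3 k A[X] F g H Y q η j hL (FractionRing A)
    (sp (algebraMap A (FractionRing A)) ≫ s₀)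
    ((algebraMap A (FractionRing A)).comp constantCoeff) (by rw [Category.assoc, hs, sp_comp])
  let θ' : ch g.range H a →ₐ[k] FractionRing A :=
    { θ with
      commutes' := fun c => by
        have h : g (algebraMap k A[X] c) ∈ ch g.range H a := by
          rw [g.commutes]; exact Subalgebra.algebraMap_mem _ c
        have := hθ _ h
        rw [show (⟨_, h⟩ : ch g.range H a) = algebraMap k _ c from Subtype.ext (g.commutes c)]
          at this
        refine this.trans ?_
        simp [IsScalarTower.algebraMap_apply k A (FractionRing A)] }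
  have hR := h1 k A F Ω E J g H μ S' a θ' hT a.2 fun p h => (hθ p h).trans (by
    simp [coeff_zero_eq_eval_zero])
  have := hT.sm
  have : Algebra.Smooth A A[X] := ⟨inferInstance, inferInstance⟩
  have : Algebra.Smooth k A[X] := .comp k A _
  have : CharZero Ω := charZero_of_injective_algebraMap (algebraMap k Ω).injective
  obtain ⟨γ, hγ, h⟩ := h2 k F Ω E J g.range H μ S' (hT.uni F μ g.range H rfl le_rfl hT.gc.base
    (.of_equiv (AlgEquiv.ofInjective g hT.inj)) hT.fm.frac) hR
  exact ⟨h6 k A[X] F g H Y q η j (Par.et_poly hA) hL hT.fm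
      fun e => (h _ (lp_pts hT.inj) (lp_rat hT.inj)).2,
    h5 k A F g x H Y q η j hA hL (h4 k A F g x H γ hA hT.inj hT.fm hγ
      fun e => (h _ (lp_pts hT.inj) (lp_rat hT.inj)).1)⟩

end Pool.Agent.MP_e8e0b6_ag.R2
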