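import Pool.Agent.MP_e8e0b6_ag.R2.SpecS

/-!
Sections over a localisation of the base.
-/

set_option autoImplicit false

namespace Pool.Agent.MP_e8e0b6_ag.R2

open Pool.Agent.MP_79c67d_ag Pool.Agent.MP_20d318_ag Pool.Agent.MP_20d318_ag.AG
  Pool.Agent.MP_20d318_ag.BV Pool.Agent.MP_20d318_ag.CB

namespace SclA

variable {k F : Type} [Field k] [Field F] [Algebra k F] {C R B : Subalgebra k F} {z : F}

/-- An element of all local rings lies in the ring. -/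
theorem mem_of_pts (h : ∀ O ∈ Pts B, z ∈ O) : z ∈ B := by
  by_contra hz
  let I : Ideal B :=
    { carrier := {b | (b : F) * z ∈ B}
      add_mem' := fun {a b} ha hb => by
        show ((a : F) + b) * z ∈ B
        rw [add_mul]
        exact B.add_mem ha hb
      zero_mem' := by simp
      smul_mem' := fun c a ha => by
        show ((c : F) * a) * z ∈ B
        rw [mul_assoc]
        exact B.mul_mem c.2 ha }
  obtain ⟨m, hm, hle⟩ := Ideal.exists_le_maximal I fun e => hz (by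
    have : ((1 : B) : F) * z ∈ B := (Ideal.eq_top_iff_one I).1 e
    simpa using this)
  obtain ⟨O, hO, hU⟩ := exists_loc B {x | ∃ h : x ∈ B, (⟨x, h⟩ : B) ∈ m} ⟨B.zero_mem, m.zero_mem⟩
    (fun ⟨_, h⟩ => hm.ne_top ((Ideal.eq_top_iff_one _).2 h))
    (fun a ha b hb ⟨_, h1⟩ ⟨_, h2⟩ => ⟨B.add_mem ha hb, m.add_mem h1 h2⟩)
    (fun a ha b hb => ⟨fun ⟨_, h1⟩ => (hm.isPrime.mem_or_mem (x := ⟨a, ha⟩) (y := ⟨b, hb⟩) h1).imp
      (fun h => ⟨ha, h⟩) fun h => ⟨hb, h⟩, fun h1 => ⟨B.mul_mem ha hb, h1.elim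
        (fun ⟨_, h⟩ => m.mul_mem_right (⟨b, hb⟩ : B) h) fun ⟨_, h⟩ =>
          m.mul_mem_left (⟨a, ha⟩ : B) h⟩⟩)
  obtain ⟨a, ha, b, hb, u, e⟩ := hO.2.2 z (h O hO)
  refine (hU b hb).1 u ⟨hb, hle (show b * z ∈ B from ?_)⟩
  rwa [e, mul_div_cancel₀ _ u.1]

/-- Denominators come from the base. -/
theorem den (h : Lz C R) (A : Subalgebra k F) (hz : z ∈ R ⊔ A) :
    ∃ s ∈ C, IsU R s ∧ s * z ∈ C ⊔ A := by
  have l : ∀ s ∈ C, s ∈ C ⊔ A := fun s hs => le_sup_left (a := C) hs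
  let T : Subalgebra k F :=
    { carrier := {f | ∃ s ∈ C, IsU R s ∧ s * f ∈ C ⊔ A}
      mul_mem' := fun {a b} ⟨s, hs, u, ha⟩ ⟨t, ht, v, hb⟩ => ⟨s * t, C.mul_mem hs ht, u.mul v, by
        rw [mul_mul_mul_comm]
        exact mul_mem ha hb⟩
      add_mem' := fun {a b} ⟨s, hs, u, ha⟩ ⟨t, ht, v, hb⟩ => ⟨s * t, C.mul_mem hs ht, u.mul v, by
        rw [show s * t * (a + b) = t * (s * a) + s * (t * b) by ring]
        exact add_mem (mul_mem (l t ht) ha) (mul_mem (l s hs) hb)⟩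
      algebraMap_mem' := fun c => ⟨1, C.one_mem, isU_one, by
        rw [one_mul]
        exact Subalgebra.algebraMap_mem _ c⟩ }
  refine (sup_le (fun f hf => ?_) (fun f hf => ⟨1, C.one_mem, isU_one, ?_⟩) : R ⊔ A ≤ T) hz
  · obtain ⟨a, ha, b, hb, u, rfl⟩ := h.2 f hf
    exact ⟨b, hb, u, by rw [mul_div_cancel₀ _ u.1]; exact l a ha⟩
  · rw [one_mul]
    exact le_sup_right (a := C) hf

theorem common {α : Type} {T : Set α} (hT : T.Finite) (f : α → F) (A : α → Subalgebra k F)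
    (h : ∀ t ∈ T, ∃ s ∈ C, IsU R s ∧ s * f t ∈ C ⊔ A t) :
    ∃ s ∈ C, IsU R s ∧ ∀ t ∈ T, s * f t ∈ C ⊔ A t := by
  induction T, hT using Set.Finite.induction_on with
  | empty => exact ⟨1, C.one_mem, isU_one, fun _ h => h.elim⟩
  | insert _ _ ih =>
    obtain ⟨s, hs, u, h1⟩ := h _ (Set.mem_insert _ _)
    obtain ⟨s', hs', u', h2⟩ := ih fun t ht => h t (Set.mem_insert_of_mem _ ht)
    refine ⟨s * s', C.mul_mem hs hs', u.mul u', ?_⟩
    rintro t (rfl | ht)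
    · rw [mul_comm s, mul_assoc]
      exact mul_mem (le_sup_left (a := C) hs') h1
    · rw [mul_assoc]
      exact mul_mem (le_sup_left (a := C) hs) (h2 t ht)

end SclA

theorem scl_stmt (h1 : LzStmt) : SclStmt := by
  intro k F _ _ _ C R H γ fm lz ⟨U, V, hU, hV, h⟩ z hz
  obtain ⟨s, hs, us, key⟩ := SclA.common (C := C) (R := R)
    (fm.fin.prod ((hU.1.subset (Set.sdiff_subset (t := {0}))).prod hV.1))
    (fun t => z * t.2.2 / t.2.1)
    (fun t => Algebra.adjoin k ((fun a => a / t.1) '' H ∪ (fun a => a / t.2.1) '' U))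
    fun ⟨j, u, v⟩ ⟨hj, hu, hv⟩ => SclA.den lz _ (SclA.mem_of_pts fun O hO => by
      have hR : R ≤ O := le_sup_left.trans hO.2.1
      have hA := Algebra.adjoin_le_iff.1 (le_sup_right.trans hO.2.1)
      obtain ⟨O', hO', hd⟩ := exists_ctr hO.1
        (R2.C.ch_le (j := j) hR fun a ha => hA (Or.inl ⟨a, ha, rfl⟩))
      have m : O' ∈ XX R H := ⟨j, hj, hO'⟩
      obtain ⟨a, b, g1, g2, w⟩ := h O' ((h1 k F C R H lz).1 m)
      have g3 : Gn U O u := gn_of_mem hu.1 hu.2 fun c hc => hA (Or.inr ⟨c, hc, rfl⟩)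
      have n1 := g1.ne
      have n2 := g2.ne
      have n3 := g3.ne
      have n4 : γ O' ≠ 0 := fun e => w.1 (by simp [e])
      have e : z * v / u = z * γ O' * (v / b) / (γ O' * a / b) * (a / u) := by field_simp
      show z * v / u ∈ O
      rw [e]
      exact O.mul_mem (hd.1 (w.div_mem (O'.mul_mem (hz O' m) (g2.1 v hv))))
        ((g1.mono hd.1).unit g3).mem)
  refine ⟨s, hs, us, fun O hO => ?_⟩
  obtain ⟨a, b, g1, g2, w⟩ := h O hO
  obtain ⟨j, hj, hO'⟩ := hO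
  obtain ⟨u, hu, g3⟩ := g1.exists_mem
  obtain ⟨v, hv, w'⟩ := g2.2
  have m : s * (z * v / u) ∈ O := (sup_le (le_sup_left.trans hO'.2.1) (Algebra.adjoin_le (by
    rintro _ (⟨c, hc, rfl⟩ | ⟨c, hc, rfl⟩)
    · exact hO'.2.1 (R2.C.div_mem_ch hc)
    · exact g3.1 c hc)) : _ ≤ O) (key (j, u, v) ⟨hj, ⟨hu, g3.ne⟩, hv⟩)
  have n1 := g1.ne
  have n2 := g2.ne
  have n3 := g3.ne
  have n4 := (div_ne_zero_iff.1 w'.1).1
  have e : s * z * γ O = s * (z * v / u) * (γ O * a / b) * (u / a) / (v / b) := by field_simp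
  rw [e]
  exact w'.div_mem (O.mul_mem (O.mul_mem m w.mem) (g3.unit g1).mem)

end Pool.Agent.MP_e8e0b6_ag.R2
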