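import Pool.Agent.MP_e8e0b6_ag.R2.SpecS

/-!
A global coordinate on a family of projective lines over an affine line.
-/

set_option autoImplicit false

open Polynomial TensorProduct

namespace Pool.Agent.MP_e8e0b6_ag.R2

open Pool.Agent.MP_79c67d_ag Pool.Agent.MP_20d318_ag Pool.Agent.MP_20d318_ag.AG
  Pool.Agent.MP_20d318_ag.BV Pool.Agent.MP_20d318_ag.CB

namespace Secb0A

section
variable {B F ι : Type} [CommRing B] [Field F] [Algebra B F] {w : F}

theorem hinj_of (h : Transcendental B w) : HInj B ![w, 1] := fun d p hp e => by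
  have h1 : MvPolynomial.aeval ![(X : B[X]), 1] p = 0 := transcendental_iff.1 h _ (by
    rw [← AlgHom.comp_apply, MvPolynomial.comp_aeval, ← e]
    congr 2
    funext i
    fin_cases i <;> simp)
  rw [← homogenize_eq_of_isHomogeneous hp h1, homogenize_zero]

theorem tr_of {ψ : Fin 2 → F} (h : HInj B ψ) : Transcendental B (ψ 0 / ψ 1) :=
  transcendental_iff.2 fun p hp => eq_zero_of_homogenize_eq_zero le_rfl
    ((h.div (h.ne 1)) _ _ (isHomogeneous_homogenize p) (by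
      rw [aeval_homogenize_of_eq_one le_rfl _ (div_self (h.ne 1))]; exact hp))

theorem rt_iff {O : Subring F} (h0 : w ≠ 0) : Rt ![w, 1] O ↔ w ∈ O ∨ w⁻¹ ∈ O := by
  simp [Rt, Fin.exists_fin_two, Fin.forall_fin_two, h0, or_comm]

variable [IsDomain B] (𝒜 : Atlas B F ι)

theorem exists_tr (M : Submonoid B) (hM : M ≤ nonZeroDivisors B) (hw : Transcendental B w)
    (h : ∀ O, Loc O → (∀ c, algebraMap B F c ∈ O) → (∀ c ∈ M, Un O (algebraMap B F c)) →
      (𝒜.P O ↔ w ∈ O ∨ w⁻¹ ∈ O)) : ∃ T : Tr (Fin 2) 𝒜, IsLocalization M T.B := by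
  have h1 := hinj_of hw
  have h0 : ∀ c ∈ M, algebraMap B F c ≠ 0 := fun c hc =>
    (map_ne_zero_iff _ h1.inj).2 (nonZeroDivisors.ne_zero (hM hc))
  have hU : ∀ y : M, IsUnit (algebraMap B F y) := fun y => (h0 y y.2).isUnit
  let L := Localization M
  let := (IsLocalization.lift (S := L) hU).toAlgebra
  have : IsScalarTower B L F := .of_algebraMap_eq fun a => (IsLocalization.lift_eq hU a).symm
  have := IsLocalization.flat L M
  have := IsLocalization.isDomain_of_le_nonZeroDivisors L hM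
  have e := IsScalarTower.algebraMap_apply B L F
  let β : BC B F L F := ⟨AlgHom.id _ _, by
    have : tens L (AlgHom.id B F) = IsLocalization.algebraLid M L F := by
      ext y
      have := IsLocalization.tensorProduct_compatibleSMul M L L F
      exact (tens_tmul _ 1 y).trans ((Algebra.smul_def (1 : L) y).symm.trans
        (Algebra.TensorProduct.lidOfCompatibleSMul_tmul B L F 1 y).symm)
    exact this ▸ (IsLocalization.algebraLid M L F).injective, fun ω =>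
      ⟨1 ⊗ₜ ω, 1, fun h => by simpa using congrArg (tens L (AlgHom.id B F)) h, by simp⟩⟩
  refine ⟨⟨L, IsLocalization.injective L hM, F, β, ![w, 1],
    h1.transfer (RingHom.id F) fun _ _ h => h.localization L M, fun O hO hL => ?_⟩,
    (inferInstance : IsLocalization M L)⟩
  refine (h O hO (fun c => e c ▸ hL _) fun c hc => ⟨e c ▸ hL _, h0 c hc, ?_⟩).trans
    (rt_iff (h1.ne 0)).symm
  obtain ⟨u, hu⟩ := IsLocalization.map_units L (⟨c, hc⟩ : M)
  rw [e, ← show (u : L) = algebraMap B L c from hu, ← map_units_inv]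
  exact hL _

variable {k : Type} [Field k] [CharZero k] [IsAlgClosed k] [Algebra k B] [Algebra.Smooth k B]

theorem lt_of (h : ∀ e : B →ₐ[k] k, ∃ (w : F) (s : B), e s ≠ 0 ∧ Transcendental B w ∧ ∀ O, Loc O →
    (∀ c, algebraMap B F c ∈ O) → Un O (algebraMap B F s) → (𝒜.P O ↔ w ∈ O ∨ w⁻¹ ∈ O)) :
    LT (Fin 2) 𝒜 := by
  choose w s hs hw h using h
  have key : ∀ m : Ideal B, m.IsMaximal → ∃ e : B →ₐ[k] k, m = kerPt e := fun m hm =>
    (exists_point m hm.ne_top).imp fun e he => hm.eq_of_le (Ideal.IsPrime.ne_top inferInstance) he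
  refine ⟨fun m hm => ?_, ?_⟩
  · obtain ⟨e, rfl⟩ := key m hm
    obtain ⟨T, hT⟩ := exists_tr 𝒜 _ (kerPt e).primeCompl_le_nonZeroDivisors (hw e)
      fun O hO hB hu => h e O hO hB (hu _ (hs e))
    have := SB.ufd_smooth (k := k) (kerPt e)
    exact ⟨T, (IsLocalization.algEquiv (kerPt e).primeCompl (Localization.AtPrime (kerPt e))
      T.B).toMulEquiv.uniqueFactorizationMonoid this,
      (IsLocalization.map_algebraMap_ne_top_iff_disjoint (kerPt e).primeCompl T.B _).2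
        (Set.disjoint_left.2 fun _ h => h),
      fun c hc => IsLocalization.map_units T.B (⟨c, hc⟩ : (kerPt e).primeCompl)⟩
  · choose T hT using fun e => exists_tr 𝒜 (.powers (s e))
      (powers_le_nonZeroDivisors_of_noZeroDivisors fun h0 => hs e (by rw [h0, map_zero])) (hw e)
      fun O hO hB hu => h e O hO hB (hu _ (Submonoid.mem_powers _))
    have h1 : Ideal.span (Set.range s) = ⊤ := by
      by_contra h1
      obtain ⟨e, he⟩ := exists_point (k := k) _ h1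
      exact hs e (he (Ideal.subset_span ⟨e, rfl⟩))
    obtain ⟨t, h2, h3⟩ := (Ideal.span_eq_top_iff_finite _).1 h1
    choose f hf using fun a : t => h2 a.2
    refine ⟨t, inferInstance, fun a => T (f a), fun a => IsLocalization.isAlgebraic _
      (.powers (s (f a))), fun m hm => ?_⟩
    by_contra! h4
    refine hm.ne_top (top_le_iff.1 (h3 ▸ Ideal.span_le.2 fun a ha => by_contra fun h5 => ?_))
    exact (IsLocalization.map_algebraMap_ne_top_iff_disjoint (.powers (s (f ⟨a, ha⟩))) _ _).2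
      ((Ideal.disjoint_powers_iff_notMem_of_isPrime _).2 (by rwa [hf])) (h4 ⟨a, ha⟩)

end

section
variable {k A F ι : Type} [Field k] [CharZero k] [IsAlgClosed k] [CommRing A] [IsDomain A]
  [Algebra k A] [Field F] [Algebra A[X] F] [Finite ι] [Nonempty ι]

theorem coords (𝒜 : Atlas A[X] F ι) (x : A →ₐ[k] k) (hA : T.Et k A)
    (h : ∀ e : A[X] →ₐ[k] k, ∃ (w : F) (s : A[X]), e s ≠ 0 ∧ Transcendental A[X] w ∧ ∀ O, Loc O →
      (∀ c, algebraMap A[X] F c ∈ O) → Un O (algebraMap A[X] F s) → (𝒜.P O ↔ w ∈ O ∨ w⁻¹ ∈ O)) :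
    ∃ (h : A) (w : F), x h ≠ 0 ∧ Transcendental A[X] w ∧ ∀ O, Loc O →
      (∀ c, algebraMap A[X] F c ∈ O) → Un O (algebraMap A[X] F (C h)) → w ∈ O → 𝒜.P O := by
  obtain ⟨d, z, hz⟩ := hA
  have : Algebra.Smooth k A := by
    algebraize [z.toRingHom]
    have := IsScalarTower.of_algebraMap_eq' z.comp_algebraMap.symm
    have : Algebra.Smooth k (MvPolynomial (Fin d) k) := {}
    exact .comp k (MvPolynomial (Fin d) k) A
  have : Algebra.Smooth A A[X] := {}
  have := Algebra.Smooth.comp k A A[X]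
  have := Algebra.FiniteType.isNoetherianRing k A[X]
  have := isJacobsonRing_of_finiteType (A := k) (B := A[X])
  have H' := lt_of 𝒜 h
  obtain ⟨w, s, hs, hw, hO⟩ := h (SB.basePt x)
  have h0 := hinj_of hw
  have hy : PG A[X] 𝒜.P ![w, 1] := ⟨h0, fun O h1 h2 => (hO O h1 (mem_of_un h2)
    (h2 s fun e => hs (by rw [e, map_zero]))).trans (rt_iff (h0.ne 0)).symm⟩
  have hj : ![w, 1] 1 = 1 := rfl
  have := H'.finite hy hj
  have := H'.flat hy hj
  obtain ⟨m, ψ, h, hx, h1, h2, h3⟩ := SB.exists_frame x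
    (lindel z hz x (Localization.AtPrime (kerPt x))) h0.inj (𝒜.hull ![w, 1])
  obtain rfl : m = 2 := by
    simpa using H'.card hy hj h1 h3 h2 (m := kerPt (SB.basePt x)) inferInstance
      (by simpa [mem_kerPt, SB.basePt_apply])
  obtain ⟨h4, h5⟩ := H'.pc hy hj h1 h3 (C_ne_zero.2 fun e => hx (by simp [e]))
  exact ⟨h, _, hx, tr_of h4, fun O h6 h7 h8 h9 => (h5 O h6 h7 h8).2
    ⟨1, Fin.forall_fin_two.2 ⟨h9, by rw [div_self (h4.ne 1)]; exact O.one_mem⟩⟩⟩

end

section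
variable {k B F : Type} [Field k] [CommRing B] [Field F] [Algebra k B] [Algebra k F]
  {g : B →ₐ[k] F} {e : B →ₐ[k] k} {H : Set F} {w : F}

theorem prin_iff {O : Subalgebra k F} : Prin H O ↔ ∃ j ∈ H, j ≠ 0 ∧ ∀ a ∈ H, a / j ∈ O :=
  ⟨fun h => h.exists_mem.imp fun _ ⟨h1, h2, _, _, h3⟩ =>
    ⟨h1, (div_ne_zero_iff.1 h3.ne).2, h2⟩, fun ⟨_, h1, h2, h3⟩ => ⟨_, gn_of_mem h1 h2 h3⟩⟩

theorem prin_pair {O : Subalgebra k F} (h0 : w ≠ 0) : Prin {w, 1} O ↔ w ∈ O ∨ w⁻¹ ∈ O :=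
  ⟨fun h => by simpa using h.pair, fun h => h.elim
    (fun h => ⟨_, gn_right one_ne_zero (by simpa using h)⟩)
    fun h => ⟨_, gn_left h0 (by simpa using h)⟩⟩

theorem spread (h2 : SprStmt) (hg : Function.Injective g) (hH : H.Finite)
    (hw : Pw (lp g e) H w) : ∃ s, e s ≠ 0 ∧ ∀ O : Subring F, Loc O → (∀ c, g c ∈ O) → Un O (g s) →
      ((∃ j ∈ H, j ≠ 0 ∧ ∀ a ∈ H, a / j ∈ O) ↔ w ∈ O ∨ w⁻¹ ∈ O) := by
  classical
  have h0 : w ≠ 0 := fun h => hw.tr (h ▸ isAlgebraic_zero)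
  have key : ∀ G U : Set F, U.Finite → (∀ O : Subalgebra k F, IsLocalRing O → lp g e ≤ O → G ⊆ O →
      Prin U O) → ∃ s, e s ≠ 0 ∧ ∀ O : Subalgebra k F, IsLocalRing O → g.range ≤ O → ∀ t,
        IsU O (g (s * t)) → G ⊆ O → Prin U O := fun G U hU h => by
    obtain ⟨_, ⟨s, rfl⟩, h3, h4⟩ := h2 k F _ _ G U (lp_lz hg) hU fun O hO hle =>
      h O hO (le_sup_left.trans hle) (Algebra.adjoin_le_iff.1 (le_sup_right.trans hle))
    exact ⟨s, (isU_lp hg).1 h3, fun O hO h5 t h6 h7 => h4 O hO (sup_le h5 (Algebra.adjoin_le h7))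
      (.of_mul (h5 ⟨s, rfl⟩) (h5 ⟨t, rfl⟩) (by simpa using h6))⟩
  have := (hH.subset (Set.sep_subset H fun j => j ≠ 0)).fintype
  choose s hs h3 using fun j : {j ∈ H | j ≠ 0} => key ((fun a => a / j.1) '' H) {w, 1}
    (Set.toFinite _) fun O hO h3 h4 => (prin_pair h0).2 ((hw.iff O hO h3).1
      (prin_iff.2 ⟨j, j.2.1, j.2.2, fun a ha => h4 ⟨a, ha, rfl⟩⟩))
  obtain ⟨s1, h4, h5⟩ := key {w} H hH fun O hO h4 h5 => (hw.iff O hO h4).2 (.inl (h5 rfl))
  obtain ⟨s2, h6, h7⟩ := key {w⁻¹} H hH fun O hO h4 h5 => (hw.iff O hO h4).2 (.inr (h5 rfl))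
  refine ⟨s1 * (s2 * ∏ j, s j), by simp [h4, h6, hs, Finset.prod_ne_zero_iff],
    fun O hO h8 h9 => ?_⟩
  let O' : Subalgebra k F := { O with algebraMap_mem' := fun c => g.commutes c ▸ h8 _ }
  have h10 : IsLocalRing O' := loc_iff.1 hO
  have h11 : g.range ≤ O' := by rintro _ ⟨c, rfl⟩; exact h8 c
  have h12 : IsU O' (g (s1 * (s2 * ∏ j, s j))) := ⟨h9.2.1, h9.1, h9.2.2⟩
  refine ⟨fun ⟨j, h13, h14, h15⟩ => (prin_pair (O := O') h0).1 (h3 ⟨j, h13, h14⟩ O' h10 h11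
    (s1 * s2 * ∏ i ∈ Finset.univ.erase ⟨j, h13, h14⟩, s i) ?_ ?_), fun h => (prin_iff (O := O')).1
      (h.elim (fun h => h5 O' h10 h11 _ h12 (Set.singleton_subset_iff.2 h)) fun h =>
        h7 O' h10 h11 _ (by rwa [mul_left_comm] at h12) (Set.singleton_subset_iff.2 h))⟩
  · rwa [mul_left_comm, Finset.mul_prod_erase _ _ (Finset.mem_univ _), mul_assoc]
  · rintro _ ⟨a, ha, rfl⟩
    exact h15 a ha

end

end Secb0A

open Secb0A in
theorem secb0_stmt (h1 : AtlStmt) (h2 : SprStmt) : Secb0Stmt := by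
  rintro k A κ _ _ _ _ _ _ _ _ g x H _ hA hg hH hH1 hF rfl hP
  let := (g : A[X] →+* κ).toAlgebra
  have : IsScalarTower k A[X] κ := .of_algebraMap_eq fun c => (g.commutes c).symm
  choose w hw using fun e => hP e (by simp)
  choose s hs h3 using fun e => spread h2 hg hH (hw e)
  have h4 : ∀ e, Transcendental A[X] (w e) := fun e =>
    Transcendental.of_ringHom_of_comp_eq (g.codRestrict (lp g e) fun c => range_le_lp ⟨c, rfl⟩)
      (RingHom.id κ) (hw e).tr ((AlgHom.injective_codRestrict _ _ _).2 hg) rfl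
  obtain ⟨𝒜, h5⟩ := h1 A[X] κ H (w (SB.basePt x)) hH hH1 (fun ω => by
    have h5 : ch g.range H 1 ≤ (Algebra.adjoin A[X] H).restrictScalars k := C.ch_le
      (by rintro _ ⟨c, rfl⟩; exact (Algebra.adjoin A[X] H).algebraMap_mem c)
      fun a ha => by simpa using Algebra.subset_adjoin ha
    obtain ⟨a, ha, b, hb, h6, rfl⟩ := hF ω
    exact ⟨a, h5 ha, b, h5 hb, h6, div_mul_cancel₀ a h6⟩) (h4 _) (fun ω => by
    let S := (aeval (w (SB.basePt x)) : A[X][X] →ₐ[A[X]] κ).range.toSubring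
    let K := Subfield.closure (S : Set κ)
    have h5 : ∀ c, g c ∈ K := fun c => Subfield.subset_closure ⟨C c, aeval_C _ _⟩
    obtain ⟨j, -, h6, h7⟩ := (h3 (SB.basePt x) K.toSubring (fun a ha => (em (a = 0)).symm.imp
      (fun h => ⟨ha, h, K.inv_mem ha⟩) fun h => by simpa [h] using Un.one) h5
      ⟨h5 _, (map_ne_zero_iff _ hg).2 fun h => hs _ (by rw [h, map_zero]), K.inv_mem (h5 _)⟩).2
      (.inl (Subfield.subset_closure ⟨X, aeval_X _⟩))
    have h8 : ch g.range H 1 ≤ { K.toSubring with algebraMap_mem' := fun c => g.commutes c ▸ h5 _ } :=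
      C.ch_le (by rintro _ ⟨c, rfl⟩; exact h5 c) fun a ha => by
        have := K.div_mem (h7 a ha) (h7 1 hH1)
        rwa [div_div_div_cancel_right₀ h6] at this
    obtain ⟨a, ha, b, hb, -, h9⟩ := hF ω
    obtain ⟨_, h10, _, h11, rfl⟩ := Subfield.mem_closure_iff.1
      (show ω ∈ K from h9 ▸ K.div_mem (h8 ha) (h8 hb))
    rw [Subring.closure_eq] at h10 h11
    obtain ⟨p, rfl⟩ := h10
    obtain ⟨q, rfl⟩ := h11
    by_cases h12 : q = 0
    · exact ⟨0, 1, one_ne_zero, by simp [h12]⟩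
    · exact ⟨p, q, h12, div_mul_cancel₀ _ fun h => h12 (transcendental_iff.1 (h4 _) q h)⟩)
  have : Finite {j // j ∈ H ∧ j ≠ 0} := hH.subset (Set.sep_subset H fun j => j ≠ 0)
  have : Nonempty {j // j ∈ H ∧ j ≠ 0} := ⟨⟨1, hH1, one_ne_zero⟩⟩
  obtain ⟨h, u, h6, h7, h8⟩ := coords 𝒜 x hA fun e => ⟨w e, s e, hs e, h4 e,
    fun O h6 h7 h8 => (h5 O h7).trans (h3 e O h6 h7 h8)⟩
  refine ⟨h, u, h6, h7.ringHom_of_comp_eq g.rangeRestrict (RingHom.id κ)
    g.rangeRestrict_surjective Function.injective_id rfl, fun O h9 h10 h11 h12 => ?_⟩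
  have h13 : ∀ c, algebraMap A[X] κ c ∈ O.toSubring := fun c => h10 ⟨c, rfl⟩
  exact prin_iff.2 ((h5 _ h13).1 (h8 O.toSubring (loc_iff.2 h9) h13
    ⟨h11.mem, h11.ne, h11.inv_mem⟩ h12))

end Pool.Agent.MP_e8e0b6_ag.R2
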