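import Pool.Agent.MP_e8e0b6_ag.R2.SpecS

/-!
The global coordinate after inverting a function of the base.
-/

set_option autoImplicit false

open Polynomial AlgebraicGeometry CategoryTheory

namespace Pool.Agent.MP_e8e0b6_ag.R2

open Pool.Agent.MP_79c67d_ag Pool.Agent.MP_20d318_ag Pool.Agent.MP_20d318_ag.AG
  Pool.Agent.MP_20d318_ag.BV Pool.Agent.MP_20d318_ag.CB

namespace SecbA

theorem surj {A E : Type} [CommRing A] [CommRing E] [Algebra A E] (h : A)
    [IsLocalization.Away h E] (p : E[X]) :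
    ∃ (n : ℕ) (q : A[X]), p * (C h ^ n : A[X]).map (algebraMap A E) = q.map (algebraMap A E) := by
  let := Polynomial.algebra A E
  have := Polynomial.isLocalization (Submonoid.powers h) E
  rw [Submonoid.map_powers] at this
  obtain ⟨⟨q, _, n, rfl⟩, hq⟩ := IsLocalization.surj (Submonoid.powers (C h : A[X])) p
  exact ⟨n, q, hq⟩

end SecbA

open SecbA in
theorem secb_stmt (h1 : Secb0Stmt) : SecbStmt := by
  intro k A κ _ _ _ _ _ _ _ _ g x H h het hg hfin hone hfr hx hw
  have h0 : h ≠ 0 := fun e => hx (by rw [e, map_zero])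
  have le := powers_le_nonZeroDivisors_of_noZeroDivisors h0
  let E := Localization.Away h
  have : IsDomain E := IsLocalization.isDomain_of_le_nonZeroDivisors _ le
  have hgh : g (C h) ≠ 0 := fun e => h0 (C_eq_zero.1 (hg (by rw [e, map_zero])))
  let x1 : E →ₐ[k] k := IsLocalization.liftAlgHom (M := .powers h) (f := x) fun y => by
    obtain ⟨_, i, rfl⟩ := y
    exact Ne.isUnit (by rw [map_pow]; exact pow_ne_zero _ hx)
  have hx1 : ∀ a, x1 (algebraMap A E a) = x a := fun a => IsLocalization.lift_eq _ _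
  let φ : E →ₐ[k] κ := IsLocalization.liftAlgHom (M := .powers h) (f := g.comp CAlgHom) fun y => by
    obtain ⟨_, i, rfl⟩ := y
    exact Ne.isUnit (by rw [map_pow]; exact pow_ne_zero _ hgh)
  have hφ : ∀ a, φ (algebraMap A E a) = g (C a) := fun a => IsLocalization.lift_eq _ _
  let g1 : E[X] →ₐ[k] κ := Polynomial.eval₂AlgHom φ (g X) fun _ => Commute.all _ _
  have hg1C : ∀ a, g1 (C a) = φ a := fun a => eval₂_C _ _
  have hg1X : g1 X = g X := eval₂_X _ _
  have hg1 : ∀ p : A[X], g1 (p.map (algebraMap A E)) = g p := fun p => by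
    induction p using Polynomial.induction_on with
    | C a => rw [map_C, hg1C, hφ]
    | add p q hp hq => rw [Polynomial.map_add, map_add, map_add, hp, hq]
    | monomial n a ih =>
      rw [pow_succ, ← mul_assoc, Polynomial.map_mul, map_mul, map_mul g, ih, map_X, hg1X]
  have hu : ∀ n : ℕ, IsUnit ((C h ^ n : A[X]).map (algebraMap A E)) := fun n => by
    rw [Polynomial.map_pow, map_C]
    exact ((IsLocalization.Away.algebraMap_isUnit h).map C).pow n
  have hinj : Function.Injective g1 := by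
    rw [injective_iff_map_eq_zero]
    intro p hp
    obtain ⟨n, q, hq⟩ := surj h p
    have h2 : g q = 0 := by rw [← hg1, ← hq, map_mul, hp, zero_mul]
    rw [hg (h2.trans (map_zero g).symm), Polynomial.map_zero] at hq
    exact (hu n).mul_left_eq_zero.1 hq
  have hle : g.range ≤ g1.range := by
    rintro _ ⟨p, rfl⟩
    exact ⟨p.map (algebraMap A E), hg1 p⟩
  have hlp : ∀ e1 : E[X] →ₐ[k] k, lp g1 e1 =
      lp g (e1.comp (mapAlgHom (IsScalarTower.toAlgHom k A E))) := fun e1 => by
    have he : ∀ p : A[X], (e1.comp (mapAlgHom (IsScalarTower.toAlgHom k A E))) p =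
        e1 (p.map (algebraMap A E)) := fun _ => rfl
    ext f
    rw [mem_lp, mem_lp]
    constructor
    · rintro ⟨a, b, hb, hf⟩
      obtain ⟨n, qa, ha⟩ := surj h a
      obtain ⟨m, qb, hb'⟩ := surj h b
      refine ⟨qa * C h ^ m, qb * C h ^ n, ?_, ?_⟩
      · rw [he, Polynomial.map_mul, ← hb', map_mul, map_mul]
        exact mul_ne_zero (mul_ne_zero hb ((hu m).map e1).ne_zero) ((hu n).map e1).ne_zero
      · rw [map_mul, map_mul, ← hg1 qa, ← hg1 qb, ← ha, ← hb', map_mul, map_mul, hg1, hg1, ← hf]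
        ring
    · rintro ⟨a, b, hb, hf⟩
      exact ⟨a.map (algebraMap A E), b.map (algebraMap A E), hb, by rw [hg1, hg1, hf]⟩
  obtain ⟨h2, w, hx2, htr, hO⟩ := h1 k E κ g1 x1 H 1 (het.away h E) hinj hfin hone
    (fun f => by
      obtain ⟨a, ha, b, hb, hb0, rfl⟩ := hfr f
      have : ch g.range H 1 ≤ ch g1.range H 1 := sup_le_sup_right hle _
      exact ⟨a, this ha, b, this hb, hb0, rfl⟩) rfl
    (fun e1 _ => by
      rw [hlp]
      refine hw _ ?_
      have := ((hu 1).map e1).ne_zero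
      rwa [pow_one] at this)
  obtain ⟨⟨a, _, n, rfl⟩, ha⟩ := IsLocalization.surj (Submonoid.powers h) h2
  simp only at ha
  refine ⟨a * h, w, ?_, fun hal => htr (hal.tower_top_of_subalgebra_le hle), fun O hloc hgO hU hwO =>
    ?_⟩
  · rw [map_mul, ← hx1 a, ← ha, map_mul, hx1, map_pow]
    exact mul_ne_zero (mul_ne_zero hx2 (pow_ne_zero _ hx)) hx
  · rw [map_mul, map_mul] at hU
    have hmem : ∀ p, g p ∈ O := fun p => hgO ⟨p, rfl⟩
    have ha0 : g (C a) ≠ 0 := left_ne_zero_of_mul hU.1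
    have hi : (g (C h))⁻¹ ∈ O := by
      have := mul_mem (hmem (C a)) hU.2.2
      rwa [mul_inv, ← mul_assoc, mul_inv_cancel₀ ha0, one_mul] at this
    have hia : (g (C a))⁻¹ ∈ O := by
      have := mul_mem hU.2.2 (hmem (C h))
      rwa [mul_inv, mul_assoc, inv_mul_cancel₀ hgh, mul_one] at this
    have hv : g1 (C h2) = g (C a) * (g (C h))⁻¹ ^ n := by
      rw [← hφ a, ← ha, map_mul, hφ, hg1C, map_pow, map_pow, mul_assoc, ← mul_pow,
        mul_inv_cancel₀ hgh, one_pow, mul_one]
    refine hO O hloc ?_ ⟨?_, ?_, ?_⟩ hwO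
    · rintro _ ⟨p, rfl⟩
      obtain ⟨m, q, hq⟩ := surj h p
      have h3 : g1 p = g q * (g (C h))⁻¹ ^ m := by
        rw [← hg1 q, ← hq, map_mul, hg1, map_pow, mul_assoc, ← mul_pow, mul_inv_cancel₀ hgh,
          one_pow, mul_one]
      change g1 p ∈ O
      rw [h3]
      exact mul_mem (hmem q) (pow_mem hi m)
    · rw [hv]
      exact mul_ne_zero ha0 (pow_ne_zero _ (inv_ne_zero hgh))
    · rw [hv]
      exact mul_mem (hmem _) (pow_mem hi n)
    · rw [hv, mul_inv, ← inv_pow, inv_inv]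
      exact mul_mem hia (pow_mem (hmem _) n)

end Pool.Agent.MP_e8e0b6_ag.R2
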