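import Pool.Agent.MP_e8e0b6_ag.R2.SpecS

/-! A line on the family gives a section near the line over a point. -/

set_option autoImplicit false

open Polynomial AlgebraicGeometry CategoryTheory

namespace Pool.Agent.MP_e8e0b6_ag.R2

open Pool.Agent.MP_79c67d_ag Pool.Agent.MP_20d318_ag Pool.Agent.MP_20d318_ag.AG
  Pool.Agent.MP_20d318_ag.BV Pool.Agent.MP_20d318_ag.CB

namespace SeccA

variable {k B F κ : Type} [Field k] [CommRing B] [Field F] [Field κ] [Algebra k B] [Algebra k F]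
  [Algebra k κ] {g : B →ₐ[k] F} {g' : B →ₐ[k] κ} {H : Set F} {D : Subalgebra k F}
  {ρ : D →ₐ[k] κ} {j₀ : F} {H' : Set κ} {w : κ}

theorem inj (hg : Function.Injective g') (hw : Transcendental g'.range w)
    (p : B[X]) (hp : eval₂ (g' : B →+* κ) w p = 0) : p = 0 := by
  by_contra h0
  refine hw ⟨p.map (g'.rangeRestrict : B →+* g'.range), (Polynomial.map_ne_zero_iff fun a b e =>
    hg (congrArg Subtype.val e)).2 h0, ?_⟩
  rw [aeval_def, eval₂_map]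
  exact hp

theorem chart (rd : Rd H D ρ j₀ H') (hle : g.range ≤ D) (hg : ∀ p, evO D ρ (g p) = g' p)
    {O : Subalgebra k κ} (h5 : g'.range ≤ O) (hP : Prin H' O) : ∃ a ∈ H,
      ∃ l : ch g.range H a ≤ D, ∀ z, ρ (Subalgebra.inclusion l z) ∈ O := by
  obtain ⟨b, hb, gb⟩ := hP.exists_mem
  rw [rd.eq] at hb gb
  obtain ⟨a, ha, rfl⟩ := hb
  have u : IsU D (a / j₀) := isU_of_not_mx (rd.gen a ha) fun hm =>
    gb.ne ((rd.lh.eq_zero_iff (rd.gen a ha)).2 hm)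
  have e : ∀ c, c / a = c / j₀ / (a / j₀) := fun c =>
    (div_div_div_cancel_right₀ (div_ne_zero_iff.1 u.ne).2 c a).symm
  have l1 : ch g.range H a ≤ (O.comap ρ).map D.val := C.ch_le (by
    rintro _ ⟨y, rfl⟩
    refine ⟨⟨g y, hle ⟨y, rfl⟩⟩, show ρ _ ∈ O from ?_, rfl⟩
    rw [← evO_of_mem ρ, hg]
    exact h5 ⟨y, rfl⟩)
    fun c hc => ⟨⟨c / a, e c ▸ u.div_mem (rd.gen c hc)⟩, show ρ _ ∈ O by
      rw [← evO_of_mem ρ, e, evO_div ρ (rd.gen c hc) u]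
      exact gb.1 _ ⟨c, hc, rfl⟩, rfl⟩
  have l2 : ch g.range H a ≤ D := fun z hz => by
    obtain ⟨y, -, rfl⟩ := l1 hz
    exact y.2
  refine ⟨a, ha, l2, fun z => ?_⟩
  obtain ⟨y, h7, h8⟩ := l1 z.2
  have h9 : y = Subalgebra.inclusion l2 z := Subtype.ext h8
  exact h9 ▸ h7

theorem point {Y : Scheme.{0}} {q : Y ⟶ Spec (.of B)} {η : Spec (.of F) ⟶ Y}
    {j : ∀ a : H, Spec (.of (ch g.range H a)) ⟶ Y} (lk : Lk g H q η j) (rd : Rd H D ρ j₀ H')
    (hle : g.range ≤ D) (hg : ∀ p, evO D ρ (g p) = g' p) : ∃ η' : Spec (.of κ) ⟶ Y,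
      η' ≫ q = sp (g' : B →+* κ) ∧ ∀ O : Subalgebra k κ, g'.range ≤ O → Prin H' O →
        ∃ ψ : Spec (.of O.toSubring) ⟶ Y, sp O.toSubring.subtype ≫ ψ = η' := by
  have := lk.sep
  have l0 : ch g.range H j₀ ≤ D := C.ch_le hle rd.gen
  have d1 : ∀ (a : H) (l : ch g.range H a ≤ D), sp (D.val : D →+* F) ≫
      sp (Subalgebra.inclusion l : _ →+* D) ≫ j a = η := fun a l =>
    (sp_comp_assoc _ _ _).trans (lk.gen a)
  obtain ⟨δ, d0, d2⟩ : ∃ δ : Spec (.of D) ⟶ Y, sp (D.val : D →+* F) ≫ δ = η ∧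
      ∀ (a : H) (l : ch g.range H a ≤ D), sp (Subalgebra.inclusion l : _ →+* D) ≫ j a = δ :=
    ⟨_, d1 ⟨j₀, rd.mem⟩ l0, fun a l => ext_sp (r := (D.val : D →+* F)) Subtype.val_injective
      ((d1 a l).trans (d1 ⟨j₀, rd.mem⟩ l0).symm)⟩
  have d3 : δ ≫ q = sp ((g : B →+* F).codRestrict D fun p => hle ⟨p, rfl⟩) :=
    ext_sp (r := (D.val : D →+* F)) Subtype.val_injective (by
      rw [← Category.assoc, d0, lk.base, sp_comp]; rfl)
  refine ⟨sp (ρ : D →+* κ) ≫ δ, ?_, fun O h1 h2 => ?_⟩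
  · rw [Category.assoc, d3, sp_comp]
    exact congrArg sp (RingHom.ext fun y => (evO_of_mem ρ (hle ⟨y, rfl⟩)).symm.trans (hg y))
  · obtain ⟨a, ha, l, h3⟩ := chart rd hle hg h1 h2
    refine ⟨sp (((ρ : D →+* κ).comp (Subalgebra.inclusion l : _ →+* D)).codRestrict O.toSubring
      h3) ≫ j ⟨a, ha⟩, ?_⟩
    rw [← d2 ⟨a, ha⟩ l, sp_comp_assoc, sp_comp_assoc]
    rfl

theorem glue {Y : Scheme.{0}} [Y.IsSeparated] {q : Y ⟶ Spec (.of B)} [LocallyOfFiniteType q]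
    {η' : Spec (.of κ) ⟶ Y} (h1 : η' ≫ q = sp (g' : B →+* κ)) (gi : Function.Injective g')
    (tr : Transcendental g'.range w) {t : B} (h0 : t ≠ 0) (hP : ∀ O : Subalgebra k κ,
      IsLocalRing O → g'.range ≤ O → IsU O (g' t) → w ∈ O →
        ∃ ψ : Spec (.of O.toSubring) ⟶ Y, sp O.toSubring.subtype ≫ ψ = η')
    (L : Type) [CommRing L] [Algebra B[X] L] [IsLocalization.Away (C t : B[X]) L] :
    ∃ Ψ : Spec (.of L) ⟶ Y, Ψ ≫ q = sp ((algebraMap B[X] L).comp C) := by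
  obtain ⟨r, h2⟩ : ∃ r : L →+* κ, ∀ p, r (algebraMap B[X] L p) = eval₂ (g' : B →+* κ) w p :=
    ⟨IsLocalization.Away.lift (C t : B[X]) (g := eval₂RingHom (g' : B →+* κ) w)
      (Ne.isUnit fun e => h0 (C_eq_zero.1 (inj gi tr _ e))), IsLocalization.Away.lift_eq _ _⟩
  have h3 : Function.Injective r := SB.inj_loc (Submonoid.powers (C t : B[X])) (g := r)
    fun p hp => inj gi tr p (by rwa [← h2])
  refine (exists_glue h3 (sp ((algebraMap B[X] L).comp C)) q η' (by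
    rw [h1, sp_comp]
    exact congrArg sp (RingHom.ext fun y => (eval₂_C _ _).symm.trans (h2 _).symm))
    fun p hp => ?_).imp fun _ h => h.1
  have h5 : ∀ y, g' y ∈ locS r p := fun y => by
    have := map_mem_locS (r := r) (p := p) (algebraMap B[X] L (C y))
    rwa [h2, eval₂_C] at this
  have h6 := (un_locS h3).2 fun h' => hp.ne_top (p.eq_top_of_isUnit_mem h'
    (IsLocalization.Away.algebraMap_isUnit (C t : B[X])))
  have h7 := map_mem_locS (r := r) (p := p) (algebraMap B[X] L X)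
  rw [h2, eval₂_C] at h6
  rw [h2, eval₂_X] at h7
  exact hP { locS r p with algebraMap_mem' := fun c => g'.commutes c ▸ h5 _ }
    (loc_iff.1 (loc_locS h3)) (by rintro _ ⟨y, rfl⟩; exact h5 y) ⟨h6.2.1, h6.1, h6.2.2⟩ h7

end SeccA

open SeccA in
theorem secc_stmt : SeccStmt := by
  rintro k A F _ _ _ _ _ _ g x H Y q η j hA lk
    ⟨D, κ, _, _, ρ, j₀, H', g', h, w, rd, hle, hg', gi, hx, tr, hP⟩
  obtain ⟨E, _, _, _, ε, x', hE, ho, e0, -, hu, -⟩ := hA.loc x hx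
  have := lk.sep
  have := lk.ft
  obtain ⟨η', h1, h2⟩ := point lk rd hle hg'
  obtain ⟨Ψ, h4⟩ := glue h1 gi tr (t := C h) (fun e => hx (by rw [C_eq_zero.1 e, map_zero]))
    (fun O h3 h4 h5 h6 => h2 O h4 (hP O h3 h4 h5 h6)) (Localization.Away (C (C h) : A[X][X]))
  obtain ⟨θ, h5⟩ : ∃ θ : Localization.Away (C (C h) : A[X][X]) →+* E[X], ∀ p,
      θ (algebraMap A[X][X] _ p) = mapRingHom (ε : A →+* E) (eval 0 p) :=
    ⟨IsLocalization.Away.lift (C (C h) : A[X][X])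
      (g := (mapRingHom (ε : A →+* E)).comp (evalRingHom 0)) (by simpa using hu.map C),
      IsLocalization.Away.lift_eq _ _⟩
  refine ⟨E, _, ‹_›, _, ε, x', sp θ ≫ Ψ, hE, ho, e0, ?_⟩
  rw [Category.assoc, h4, sp_comp]
  exact congrArg sp (RingHom.ext fun y => (h5 _).trans (congrArg _ eval_C))

end Pool.Agent.MP_e8e0b6_ag.R2
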