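import Pool.Agent.MP_e8e0b6_ag.R2.SpecS

/-!
Row SPR: spreading out.
-/

set_option autoImplicit false

open Polynomial AlgebraicGeometry CategoryTheory

namespace Pool.Agent.MP_e8e0b6_ag.R2

open Pool.Agent.MP_79c67d_ag Pool.Agent.MP_20d318_ag Pool.Agent.MP_20d318_ag.AG
  Pool.Agent.MP_20d318_ag.BV Pool.Agent.MP_20d318_ag.CB

namespace SprA

variable {k F : Type} [Field k] [Field F] [Algebra k F]

/-- A common denominator. -/
theorem den {B O : Subalgebra k F} (hO : O ∈ Pts B) {T : Set F} (hT : T.Finite) (h : T ⊆ O) :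
    ∃ b ∈ B, IsU O b ∧ ∀ t ∈ T, b * t ∈ B := by
  induction T, hT using Set.Finite.induction_on with
  | empty => exact ⟨1, B.one_mem, isU_one, fun _ ht => ht.elim⟩
  | @insert t T _ _ ih =>
    obtain ⟨b, hb, hu, hb'⟩ := ih fun x hx => h (Or.inr hx)
    obtain ⟨a, ha, c, hc, hu', e⟩ := hO.2.2 t (h (Or.inl rfl))
    refine ⟨c * b, B.mul_mem hc hb, hu'.mul hu, ?_⟩
    rintro x (rfl | hx)
    · rw [e, mul_right_comm, mul_div_cancel₀ _ hu'.ne]
      exact B.mul_mem ha hb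
    · rw [mul_assoc]
      exact B.mul_mem hc (hb' x hx)

/-- A set that contains a unit at every point over `R` spans an element of `C` that is a unit
of `R`. -/
theorem spread {C R B : Subalgebra k F} (hL : Lz C R) (T : Set B)
    (h : ∀ O ∈ Pts B, R ≤ O → ∃ t ∈ T, IsU O (t : F)) (hC : C ≤ B) :
    ∃ s ∈ C, IsU R s ∧ ∀ O : Subalgebra k F, IsLocalRing O → B ≤ O → IsU O s →
      ∃ t ∈ T, IsU O (t : F) := by
  let S : Submonoid B :=
    { carrier := {s | (s : F) ∈ C ∧ IsU R (s : F)}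
      mul_mem' := fun ha hb => ⟨C.mul_mem ha.1 hb.1, ha.2.mul hb.2⟩
      one_mem' := ⟨C.one_mem, isU_one⟩ }
  by_cases hd : Disjoint ((Ideal.span T : Ideal B) : Set B) S
  · obtain ⟨p, hp, h1, h2⟩ := Ideal.exists_le_prime_disjoint _ S hd
    have hm : ∀ b : B, (b : F) ∈ Subtype.val '' (p : Set B) ↔ b ∈ p := fun b =>
      Subtype.val_injective.mem_set_image
    obtain ⟨O, hO, hu⟩ := exists_loc B (Subtype.val '' (p : Set B)) ((hm 0).2 p.zero_mem)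
      (fun h' => hp.ne_top ((Ideal.eq_top_iff_one p).2 ((hm 1).1 h')))
      (fun a ha b hb h3 h4 => (hm (⟨a, ha⟩ + ⟨b, hb⟩)).2
        (p.add_mem ((hm ⟨a, ha⟩).1 h3) ((hm ⟨b, hb⟩).1 h4)))
      (fun a ha b hb => (hm (⟨a, ha⟩ * ⟨b, hb⟩)).trans
        (hp.mul_mem_iff_mem_or_mem.trans (or_congr (hm ⟨a, ha⟩).symm (hm ⟨b, hb⟩).symm)))
    obtain ⟨t, ht, htu⟩ := h O hO fun f hf => by
      obtain ⟨a, ha, b, hb, hbu, rfl⟩ := hL.2 f hf
      refine IsU.div_mem ((hu b (hC hb)).2 fun h' => ?_) (hO.2.1 (hC ha))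
      exact Set.disjoint_left.1 h2 ((hm ⟨b, hC hb⟩).1 h') ⟨hb, hbu⟩
    exact absurd ((hm t).2 (h1 (Ideal.subset_span ht))) ((hu t t.2).1 htu)
  · obtain ⟨s, hs, hs'⟩ := Set.not_disjoint_iff.1 hd
    refine ⟨s, hs'.1, hs'.2, fun O hO hB hu => by_contra fun hn => hu.not_mx ?_⟩
    replace hs : s ∈ Ideal.span T := hs
    clear hs' hu
    induction hs using Submodule.span_induction with
    | mem t ht => exact ⟨hB t.2, fun h' => hn ⟨t, ht, h'⟩⟩
    | zero => exact zero_mem_mx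
    | add a b _ _ ha hb => exact mx_add hO ha hb
    | smul a b _ hb => exact mx_mul_left (hB a.2) hb

end SprA

theorem spr_stmt : SprStmt := by
  intro k F _ _ _ C R G U hL hU h
  obtain ⟨s, hs, hu, hO⟩ := SprA.spread (B := C ⊔ Algebra.adjoin k G) hL
    {b | ∃ u ∈ U, u ≠ 0 ∧ ∀ u' ∈ U, (b : F) * (u' / u) ∈ C ⊔ Algebra.adjoin k G}
    (fun O hO hR => by
      obtain ⟨u, huU, hg⟩ := (h O hO.1 (sup_le hR (le_sup_right.trans hO.2.1))).exists_mem
      obtain ⟨b, hb, hbu, hb'⟩ := SprA.den hO (hU.image fun u' => u' / u) (by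
        rintro _ ⟨u', hu', rfl⟩
        exact hg.1 u' hu')
      exact ⟨⟨b, hb⟩, ⟨u, huU, hg.ne, fun u' hu' => hb' _ ⟨u', hu', rfl⟩⟩, hbu⟩) le_sup_left
  refine ⟨s, hs, hu, fun O h1 h2 h3 => ?_⟩
  obtain ⟨b, ⟨u, huU, h0, hb⟩, hbu⟩ := hO O h1 h2 h3
  refine ⟨u, gn_of_mem huU h0 fun u' hu' => ?_⟩
  have := hbu.div_mem (h2 (hb u' hu'))
  rwa [mul_div_cancel_left₀ _ hbu.ne] at this

end Pool.Agent.MP_e8e0b6_ag.R2
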