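import Pool.Agent.MP_e8e0b6_ag.R2.SpecS

/-!
Spreading out an open subset.
-/

set_option autoImplicit false

namespace Pool.Agent.MP_e8e0b6_ag.R2

open Pool.Agent.MP_79c67d_ag Pool.Agent.MP_20d318_ag Pool.Agent.MP_20d318_ag.AG
  Pool.Agent.MP_20d318_ag.BV Pool.Agent.MP_20d318_ag.CB

namespace Spr2A

variable {k F : Type} [Field k] [Field F] [Algebra k F] {C R : Subalgebra k F}

theorem clear (h : Lz C R) (H : Set F) {x : F} (hx : x ∈ R ⊔ Algebra.adjoin k H) :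
    ∃ s ∈ C, IsU R s ∧ s * x ∈ C ⊔ Algebra.adjoin k H := by
  have l1 : C ≤ C ⊔ Algebra.adjoin k H := le_sup_left
  have l2 : Algebra.adjoin k H ≤ C ⊔ Algebra.adjoin k H := le_sup_right
  let D : Subalgebra k F :=
    { carrier := {x | ∃ s ∈ C, IsU R s ∧ s * x ∈ C ⊔ Algebra.adjoin k H}
      mul_mem' := by
        rintro a b ⟨s, hs, us, ha⟩ ⟨t, ht, ut, hb⟩
        exact ⟨s * t, C.mul_mem hs ht, us.mul ut, by
          rw [mul_mul_mul_comm]; exact mul_mem ha hb⟩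
      add_mem' := by
        rintro a b ⟨s, hs, us, ha⟩ ⟨t, ht, ut, hb⟩
        exact ⟨s * t, C.mul_mem hs ht, us.mul ut, by
          rw [show s * t * (a + b) = t * (s * a) + s * (t * b) by ring]
          exact add_mem (mul_mem (l1 ht) ha) (mul_mem (l1 hs) hb)⟩
      algebraMap_mem' := fun c => ⟨1, C.one_mem, isU_one, by
        rw [one_mul]; exact Subalgebra.algebraMap_mem _ c⟩ }
  have : R ⊔ Algebra.adjoin k H ≤ D := by
    refine sup_le (fun f hf => ?_) fun f hf => ⟨1, C.one_mem, isU_one, by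
      rw [one_mul]; exact l2 hf⟩
    obtain ⟨a, ha, b, hb, hu, rfl⟩ := h.2 f hf
    exact ⟨b, hb, hu, by rw [mul_div_cancel₀ _ hu.ne]; exact l1 ha⟩
  exact this hx

/-- a common multiplier for finitely many elements -/
theorem common {D : Subalgebra k F} {G' : Set F} (hG : G'.Finite) (A : Subalgebra k F)
    (hA : D ≤ A) (O : Subalgebra k F) (b : F)
    (h : ∀ c ∈ G', ∃ s ∈ D, IsU O s ∧ s * (b * c) ∈ A) :
    ∃ s ∈ D, IsU O s ∧ ∀ c ∈ G', s * (b * c) ∈ A := by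
  induction G', hG using Set.Finite.induction_on with
  | empty => exact ⟨1, D.one_mem, isU_one, by simp⟩
  | @insert c G' _ _ ih =>
    obtain ⟨s, hs, us, h1⟩ := ih fun d hd => h d (Set.mem_insert_of_mem _ hd)
    obtain ⟨t, ht, ut, h2⟩ := h c (Set.mem_insert _ _)
    refine ⟨s * t, D.mul_mem hs ht, us.mul ut, ?_⟩
    rintro d (rfl | hd)
    · rw [mul_assoc]
      exact mul_mem (hA hs) h2
    · rw [mul_comm s, mul_assoc]
      exact mul_mem (hA ht) (h1 d hd)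

end Spr2A

open Spr2A in
theorem spr2_stmt : Spr2Stmt := by
  intro k F _ _ _ C R G G' hL hG h
  have lG : ∀ D : Subalgebra k F, D ⊔ Algebra.adjoin k G ≤ D ⊔ Algebra.adjoin k (G ∪ G') :=
    fun D => sup_le_sup_left (Algebra.adjoin_mono Set.subset_union_left) _
  let J : Ideal (R ⊔ Algebra.adjoin k (G ∪ G') : Subalgebra k F) :=
    { carrier := {x | ∃ s ∈ C, IsU R s ∧ ∀ O : Subalgebra k F, IsLocalRing O →
        C ⊔ Algebra.adjoin k (G ∪ G') ≤ O → (∀ b ∈ C ⊔ Algebra.adjoin k G,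
          (∀ c ∈ G', b * c ∈ C ⊔ Algebra.adjoin k G) → ¬ IsU O b) → s * x.1 ∈ mx O}
      add_mem' := by
        rintro a b ⟨s, hs, us, ha⟩ ⟨t, ht, ut, hb⟩
        refine ⟨s * t, C.mul_mem hs ht, us.mul ut, fun O hO hle hn => ?_⟩
        rw [show s * t * (a + b).1 = t * (s * a.1) + s * (t * b.1) by push_cast; ring]
        exact mx_add hO (mx_mul_left ((le_sup_left.trans hle) ht) (ha O hO hle hn))
          (mx_mul_left ((le_sup_left.trans hle) hs) (hb O hO hle hn))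
      zero_mem' := ⟨1, C.one_mem, isU_one, fun O _ _ _ => by simpa using zero_mem_mx⟩
      smul_mem' := by
        rintro t a ⟨s, hs, us, ha⟩
        obtain ⟨r, hr, ur, ht⟩ := clear hL _ t.2
        refine ⟨r * s, C.mul_mem hr hs, ur.mul us, fun O hO hle hn => ?_⟩
        rw [show r * s * (t • a).1 = (r * t.1) * (s * a.1) by
          rw [smul_eq_mul]; push_cast; ring]
        exact mx_mul_left (hle ht) (ha O hO hle hn) }
  by_cases hJ : J = ⊤
  · obtain ⟨s, hs, us, h1⟩ : (1 : (R ⊔ Algebra.adjoin k (G ∪ G') : Subalgebra k F)) ∈ J :=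
      hJ ▸ Submodule.mem_top
    refine ⟨s, hs, us, fun O hO hle hu c hc => ?_⟩
    by_contra hn
    refine hu.not_mx (by simpa using h1 O hO hle fun b hb hbc ub => hn ⟨b * c, hbc c hc, b, hb, ub,
      (mul_div_cancel_left₀ c ub.ne).symm⟩)
  exfalso
  obtain ⟨m, hm, hJm⟩ := Ideal.exists_le_maximal J hJ
  obtain ⟨O, hO, hU⟩ := exists_loc (R ⊔ Algebra.adjoin k (G ∪ G'))
    {x | ∃ hx : x ∈ R ⊔ Algebra.adjoin k (G ∪ G'), (⟨x, hx⟩ : (R ⊔ Algebra.adjoin k (G ∪ G') :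
      Subalgebra k F)) ∈ m} ⟨zero_mem _, m.zero_mem⟩
    (fun ⟨_, h1⟩ => hm.ne_top ((Ideal.eq_top_iff_one m).2 h1))
    (fun a ha b hb ⟨_, h1⟩ ⟨_, h2⟩ => ⟨add_mem ha hb, m.add_mem h1 h2⟩)
    (fun a ha b hb => ⟨fun ⟨_, h1⟩ => (hm.isPrime.mem_or_mem (x := ⟨a, ha⟩) (y := ⟨b, hb⟩) h1).imp
      (fun h => ⟨ha, h⟩) fun h => ⟨hb, h⟩, fun h1 => ⟨mul_mem ha hb, h1.elim
        (fun ⟨_, h2⟩ => m.mul_mem_right ⟨b, hb⟩ h2) fun ⟨_, h2⟩ => m.mul_mem_left ⟨a, ha⟩ h2⟩⟩)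
  obtain ⟨b, hb, ub, hbc⟩ := common hG (R ⊔ Algebra.adjoin k G) le_rfl O 1 fun c hc => by
    obtain ⟨a, ha, b, hb, ub, rfl⟩ := h O hO.1 hO.2.1 hc
    exact ⟨b, hb, ub, by rwa [one_mul, mul_div_cancel₀ _ ub.ne]⟩
  refine (hU b (lG R hb)).1 ub ⟨lG R hb, hJm ?_⟩
  obtain ⟨s, hs, us, h1⟩ := clear hL G hb
  obtain ⟨t, ht, ut, h2⟩ := common hG (C ⊔ Algebra.adjoin k G) le_sup_left R b fun c hc =>
    clear hL G (by simpa using hbc c hc)
  have l1 : C ≤ C ⊔ Algebra.adjoin k G := le_sup_left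
  have h3 : t * s * b ∈ C ⊔ Algebra.adjoin k G := by
    rw [mul_assoc]
    exact mul_mem (l1 ht) h1
  refine ⟨t * s, C.mul_mem ht hs, ut.mul us, fun O' hO' hle hn =>
    ⟨hle (lG C h3), hn _ h3 fun c hc => ?_⟩⟩
  rw [show t * s * b * c = s * (t * (b * c)) by ring]
  exact mul_mem (l1 hs) (h2 c hc)

end Pool.Agent.MP_e8e0b6_ag.R2
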