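import Pool.Agent.MP_e8e0b6_ag.R2.GlueT
import Pool.Agent.MP_e8e0b6_ag.R2.Atl
import Pool.Agent.MP_e8e0b6_ag.R2.Ats
import Pool.Agent.MP_e8e0b6_ag.R2.AzR
import Pool.Agent.MP_e8e0b6_ag.R2.CellS
import Pool.Agent.MP_e8e0b6_ag.R2.Cellr
import Pool.Agent.MP_e8e0b6_ag.R2.Crd
import Pool.Agent.MP_e8e0b6_ag.R2.Crv
import Pool.Agent.MP_e8e0b6_ag.R2.CrvA
import Pool.Agent.MP_e8e0b6_ag.R2.CrvB
import Pool.Agent.MP_e8e0b6_ag.R2.CrvC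
import Pool.Agent.MP_e8e0b6_ag.R2.Cw2
import Pool.Agent.MP_e8e0b6_ag.R2.DdR
import Pool.Agent.MP_e8e0b6_ag.R2.FinR
import Pool.Agent.MP_e8e0b6_ag.R2.Frame
import Pool.Agent.MP_e8e0b6_ag.R2.Frm
import Pool.Agent.MP_e8e0b6_ag.R2.Ht
import Pool.Agent.MP_e8e0b6_ag.R2.Lne
import Pool.Agent.MP_e8e0b6_ag.R2.Locf
import Pool.Agent.MP_e8e0b6_ag.R2.Oi
import Pool.Agent.MP_e8e0b6_ag.R2.Par
import Pool.Agent.MP_e8e0b6_ag.R2.PtsR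
import Pool.Agent.MP_e8e0b6_ag.R2.Scl
import Pool.Agent.MP_e8e0b6_ag.R2.Secb0
import Pool.Agent.MP_e8e0b6_ag.R2.SecbR
import Pool.Agent.MP_e8e0b6_ag.R2.Secc
import Pool.Agent.MP_e8e0b6_ag.R2.Spr
import Pool.Agent.MP_e8e0b6_ag.R2.Spr2
import Pool.Agent.MP_e8e0b6_ag.R2.Zc

/-! Sections and cells: the assembly. -/

set_option autoImplicit false

namespace Pool.Agent.MP_e8e0b6_ag.R2

theorem crv_all : CrvStmt :=
  crv_stmt (crvA_stmt zc_stmt) (crvB_stmt zc_stmt (crvA_stmt zc_stmt) cw2_stmt vn) crvC_stmt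
    ht_stmt C.nrm

theorem lne_all : LneStmt :=
  lne_stmt (frame_stmt fin_stmt (scl_stmt lz_stmt) locf_stmt frm_stmt lz_stmt) (az_stmt crd_stmt)
    (dd_stmt C.wex) crv_all (secb_stmt (secb0_stmt atl_stmt spr_stmt)) lz_stmt

theorem par_all : ParStmt :=
  par_stmt tsen_all (ats_stmt mk2 amp good dt sp_ ch_all lz_stmt) pts_stmt lne_all secc_stmt
    (cell_stmt pts_stmt oi_stmt (cellr_stmt lz_stmt spr_stmt spr2_stmt))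

end Pool.Agent.MP_e8e0b6_ag.R2
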