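import Pool.Agent.MP_e8e0b6_ag.R2.SpecT

/-!
Generic smoothness.
-/

set_option autoImplicit false

namespace Pool.Agent.MP_e8e0b6_ag.R2

open Pool.Agent.MP_79c67d_ag Pool.Agent.MP_20d318_ag Pool.Agent.MP_20d318_ag.AG
  Pool.Agent.MP_20d318_ag.BV Pool.Agent.MP_20d318_ag.CB

theorem gs_stmt : GsStmt := by
  intro k L _ _ _ _ G hG hF
  let A := Algebra.adjoin k G
  have : Algebra.FiniteType k A :=
    (Subalgebra.fg_iff_finiteType A).1 (Subalgebra.fg_def.2 ⟨G, hG, rfl⟩)
  have : Algebra.FinitePresentation k A := Algebra.FinitePresentation.of_finiteType.1 this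
  have : IsFractionRing A L := IsFractionRing.of_field A L fun z => by
    obtain ⟨a, ha, b, hb, -, e⟩ := hF z
    exact ⟨⟨a, ha⟩, ⟨b, hb⟩, e⟩
  have : Algebra.EssFiniteType A L := .of_isLocalization L (nonZeroDivisors A)
  have : Algebra.EssFiniteType k L := .comp k A L
  have : IsLocalization (⊥ : Ideal A).primeCompl L := by
    rw [Ideal.primeCompl_bot]; infer_instance
  have : Algebra.IsSmoothAt k (⊥ : Ideal A) := Algebra.FormallySmooth.of_equiv
    ((IsLocalization.algEquiv (⊥ : Ideal A).primeCompl L _).restrictScalars k)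
  obtain ⟨f, hf, hs⟩ := Algebra.IsSmoothAt.exists_notMem_smooth k (⊥ : Ideal A)
  have hu : IsUnit (A.val f) := IsUnit.mk0 _ fun h => hf (Subtype.ext h)
  let φ : Localization.Away f →ₐ[k] L := IsLocalization.Away.liftAlgHom f hu
  have h1 : ∀ a : A, φ (algebraMap A _ a) = a := fun a => IsLocalization.Away.lift_eq f hu a
  have h2 : Function.Injective φ := (IsLocalization.lift_injective_iff _).2 fun x y =>
    ⟨fun h => (h1 x).symm.trans ((congrArg φ h).trans (h1 y)),
      fun h => congrArg _ (Subtype.ext h)⟩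
  exact ⟨φ.range, fun a ha => ⟨_, h1 ⟨a, ha⟩⟩, .of_equiv (AlgEquiv.ofInjective φ h2)⟩

end Pool.Agent.MP_e8e0b6_ag.R2
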