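import Pool.Agent.MP_e8e0b6_ag.R2.SpecT

/-!
Existence of the base change to `L[X]`.
-/

set_option autoImplicit false

open Polynomial

namespace Pool.Agent.MP_e8e0b6_ag.R2

open Pool.Agent.MP_79c67d_ag Pool.Agent.MP_20d318_ag Pool.Agent.MP_20d318_ag.AG
  Pool.Agent.MP_20d318_ag.BV Pool.Agent.MP_20d318_ag.CB

namespace LvA

/-- An injective map on `A[X]` extends to an injective map on `L[X]`. -/
theorem inj_ext {A L E : Type} [CommRing A] [Field L] [Field E] [Algebra A L]
    [Algebra.IsAlgebraic A L] (G : L[X] →+* E)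
    (h : Function.Injective fun p : A[X] => G (p.map (algebraMap A L))) : Function.Injective G := by
  let _ : Algebra L E := (G.comp C).toAlgebra
  let _ : Algebra A E := ((G.comp C).comp (algebraMap A L)).toAlgebra
  have : IsScalarTower A L E := IsScalarTower.of_algebraMap_eq fun _ => rfl
  have e1 : ∀ p : L[X], aeval (G X) p = G p := fun p => by
    induction p using Polynomial.induction_on' with
    | add p q hp hq => rw [map_add, map_add, hp, hq]
    | monomial n a =>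
      rw [aeval_monomial, ← C_mul_X_pow_eq_monomial, map_mul, map_pow]
      rfl
  have e2 : ∀ p : A[X], aeval (G X) p = G (p.map (algebraMap A L)) := fun p => by
    rw [← e1 (p.map (algebraMap A L)), aeval_map_algebraMap]
  have t1 : Transcendental A (G X) := by
    rw [transcendental_iff_injective]
    intro p q hpq
    rw [e2, e2] at hpq
    exact h hpq
  have t2 := transcendental_iff_injective.1 (t1.extendScalars L)
  intro p q hpq
  rw [← e1 p, ← e1 q] at hpq
  exact t2 hpq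

/-- A map of fields factors through a map with larger range. -/
theorem factor {k F F₀ E : Type} [Field k] [Field F] [Field F₀] [Field E] [Algebra k F]
    [Algebra k F₀] [Algebra k E] (μ : F →ₐ[k] E) (μ₀ : F₀ →ₐ[k] E) (h : ∀ z, μ z ∈ μ₀.range) :
    ∃ ν : F →ₐ[k] F₀, μ₀.comp ν = μ := by
  refine ⟨(AlgEquiv.ofInjective μ₀ μ₀.toRingHom.injective).symm.toAlgHom.comp
    (μ.codRestrict μ₀.range h), AlgHom.ext fun z => ?_⟩
  have := AlgEquiv.ofInjective_apply μ₀ μ₀.toRingHom.injective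
    ((AlgEquiv.ofInjective μ₀ μ₀.toRingHom.injective).symm (μ.codRestrict μ₀.range h z))
  rw [AlgEquiv.apply_symm_apply] at this
  exact this.symm

end LvA

open LvA in
theorem lv_stmt (h1 : MkfStmt) (h2 : GcUpStmt) : LvStmt := by
  intro k A L F Ω E J _ _ _ _ _ _ _ _ _ _ _ _ _ _ _ _ _ g H μ S' e ts he
  let φ : L →ₐ[k] E := (IsScalarTower.toAlgHom k Ω E).comp e
  let G : L[X] →ₐ[k] E := eval₂AlgHom φ (μ (g X)) fun a => Commute.all _ _
  have GC : ∀ a, G (C a) = algebraMap Ω E (e a) := fun a => eval₂_C _ _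
  have GX : G X = μ (g X) := eval₂_X _ _
  have Gm : ∀ p : A[X], G (p.map (algebraMap A L)) = μ (g p) := fun p => by
    induction p using Polynomial.induction_on' with
    | add p q hp hq => rw [Polynomial.map_add, map_add, map_add, map_add, hp, hq]
    | monomial n a =>
      rw [map_monomial, ← C_mul_X_pow_eq_monomial, ← C_mul_X_pow_eq_monomial]
      simp only [map_mul, map_pow, GC, GX, he]
  have μi : Function.Injective μ := μ.toRingHom.injective
  have Gi : Function.Injective G := inj_ext (A := A) G.toRingHom fun p q hpq =>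
    ts.inj (μi ((Gm p).symm.trans (hpq.trans (Gm q))))
  obtain ⟨F₀, _, _, μ₀, g₀, H', hH, hg, fr⟩ := h1 k L[X] E G (μ '' H) ⟨1, ts.one, map_one μ⟩ (by
    rintro _ ⟨a, ha, rfl⟩
    exact (map_ne_zero μ).2 (ts.fm.nz a ha))
  have μ₀i : Function.Injective μ₀ := μ₀.toRingHom.injective
  have hg' : ∀ p, μ₀ (g₀ p) = G p := fun p => DFunLike.congr_fun hg p
  have le : ch g.range H 1 ≤ μ₀.range.comap μ := by
    refine sup_le ?_ (Algebra.adjoin_le ?_)
    · rintro _ ⟨p, rfl⟩
      exact ⟨g₀ (p.map (algebraMap A L)), (hg' _).trans (Gm p)⟩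
    · rintro _ ⟨a, ha, rfl⟩
      obtain ⟨b, -, hb⟩ : μ a ∈ μ₀ '' H' := hH ▸ ⟨a, ha, rfl⟩
      exact ⟨b, hb.trans (congrArg μ (div_one a).symm)⟩
  obtain ⟨ν, hν⟩ := factor μ μ₀ fun z => by
    obtain ⟨a, ha, b, hb, -, rfl⟩ := ts.fm.frac 1 ts.one z
    obtain ⟨a', ha'⟩ := le ha
    obtain ⟨b', hb'⟩ := le hb
    refine ⟨a' / b', ?_⟩
    change μ₀ a' = μ a at ha'
    change μ₀ b' = μ b at hb'
    change μ₀ (a' / b') = μ (a / b)
    rw [map_div₀, map_div₀, ha', hb']
  have hν' : ∀ z, μ₀ (ν z) = μ z := fun z => DFunLike.congr_fun hν z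
  have eH : ν '' H = H' := by
    apply μ₀i.image_injective
    rw [hH, Set.image_image]
    simp only [hν']
  subst eH
  have cmp : ∀ p, g₀ (p.map (algebraMap A L)) = ν (g p) := fun p =>
    μ₀i ((hg' _).trans ((Gm p).trans (hν' _).symm))
  have fr' : ∀ j ∈ H, Frac (ch g₀.range (ν '' H) (ν j)) := fun j hj => fr _ ⟨j, hj, rfl⟩
  refine ⟨F₀, _, _, g₀, ν, μ₀, ⟨fun p q hpq => Gi ?_, cmp, hν, fun a => (hg' _).trans (GC a), fr'⟩,
    h2 k F F₀ Ω E J g.range H μ S' ν μ₀ g₀.range ts.gc hν ?_ ?_ ⟨1, ts.one, fr' 1 ts.one⟩⟩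
  · rw [← hg', ← hg', hpq]
  · rintro _ ⟨_, ⟨p, rfl⟩, rfl⟩
    exact ⟨_, cmp p⟩
  · rintro _ ⟨p, rfl⟩
    obtain ⟨t, ht⟩ := ts.gc.base (g X) ⟨X, rfl⟩
    change μ₀ (g₀ p) ∈ _
    rw [hg']
    induction p using Polynomial.induction_on' with
    | add p q hp hq =>
      obtain ⟨a, ha⟩ := hp
      obtain ⟨b, hb⟩ := hq
      exact ⟨a + b, by rw [map_add, map_add, ha, hb]⟩
    | monomial n a =>
      refine ⟨e a * t ^ n, ?_⟩
      rw [← C_mul_X_pow_eq_monomial, map_mul, map_mul, map_pow, map_pow, GC, GX, ht]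

end Pool.Agent.MP_e8e0b6_ag.R2
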