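import Pool.Agent.MP_e8e0b6_ag.R2.SpecT

/-!
Localisation of the base of a family.
-/

set_option autoImplicit false

namespace Pool.Agent.MP_e8e0b6_ag.R2

open Pool.Agent.MP_79c67d_ag Pool.Agent.MP_20d318_ag Pool.Agent.MP_20d318_ag.AG
  Pool.Agent.MP_20d318_ag.BV Pool.Agent.MP_20d318_ag.CB

namespace LzA

variable {k F : Type} [Field k] [Field F] [Algebra k F] {C D : Subalgebra k F}

/-- Fractions with numerator in `B` and denominator in `B` invertible in `B'`. -/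
def fr (B B' : Subalgebra k F) : Subalgebra k F where
  carrier := {f | ∃ a ∈ B, ∃ b ∈ B, IsU B' b ∧ f = a / b}
  mul_mem' := by
    rintro _ _ ⟨a, ha, b, hb, u, rfl⟩ ⟨a', ha', b', hb', u', rfl⟩
    exact ⟨a * a', B.mul_mem ha ha', b * b', B.mul_mem hb hb', u.mul u', div_mul_div_comm _ _ _ _⟩
  add_mem' := by
    rintro _ _ ⟨a, ha, b, hb, u, rfl⟩ ⟨a', ha', b', hb', u', rfl⟩
    exact ⟨a * b' + b * a', B.add_mem (B.mul_mem ha hb') (B.mul_mem hb ha'), b * b',
      B.mul_mem hb hb', u.mul u', div_add_div _ _ u.1 u'.1⟩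
  algebraMap_mem' c := ⟨_, B.algebraMap_mem c, 1, B.one_mem, isU_one, (div_one _).symm⟩

theorem sup (h : Lz C D) (A : Subalgebra k F) : Lz (C ⊔ A) (D ⊔ A) := by
  refine ⟨sup_le_sup_right h.1 A, ?_⟩
  have : D ⊔ A ≤ fr (C ⊔ A) (D ⊔ A) := sup_le
    (fun f hf => by
      obtain ⟨a, ha, b, hb, u, e⟩ := h.2 f hf
      exact ⟨a, le_sup_left (a := C) ha, b, le_sup_left (a := C) hb, u.mono le_sup_left, e⟩)
    fun f hf => ⟨f, le_sup_right (a := C) hf, 1, one_mem _, isU_one, (div_one _).symm⟩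
  exact fun f hf => this hf

theorem pts (h : Lz C D) {O : Subalgebra k F} (hO : O ∈ Pts D) : O ∈ Pts C := by
  refine ⟨hO.1, h.1.trans hO.2.1, fun f hf => ?_⟩
  obtain ⟨a, ha, b, hb, u, rfl⟩ := hO.2.2 f hf
  obtain ⟨a1, ha1, a2, ha2, u1, rfl⟩ := h.2 a ha
  obtain ⟨b1, hb1, b2, hb2, u2, rfl⟩ := h.2 b hb
  have u3 : IsU O b1 := by
    have := u.mul (u2.mono hO.2.1)
    rwa [div_mul_cancel₀ _ u2.1] at this
  exact ⟨a1 * b2, C.mul_mem ha1 hb2, a2 * b1, C.mul_mem ha2 hb1, (u1.mono hO.2.1).mul u3,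
    div_div_div_eq _ _ _ _⟩

/-- The elements of `C` that are invertible in `D`. -/
def den (C D : Subalgebra k F) : Submonoid C where
  carrier := {c | IsU D c}
  mul_mem' ha hb := ha.mul hb
  one_mem' := isU_one

theorem loc (h : Lz C D) : @IsLocalization C _ (den C D) D _
    (Subalgebra.inclusion h.1).toRingHom.toAlgebra := by
  letI := (Subalgebra.inclusion h.1).toRingHom.toAlgebra
  refine (isLocalization_iff _ _).2 ⟨fun y => (isU_iff_isUnit _).1 y.2, fun z => ?_,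
    fun {x y} e => ⟨1, ?_⟩⟩
  · obtain ⟨a, ha, b, hb, u, e⟩ := h.2 z z.2
    refine ⟨(⟨a, ha⟩, ⟨⟨b, hb⟩, u⟩), Subtype.ext ?_⟩
    show (z : F) * b = a
    rw [e, div_mul_cancel₀ _ u.1]
  · rw [Subalgebra.inclusion_injective h.1 e]

theorem flat (h : Lz C D) {O : Subalgebra k F} (hD : D ≤ O)
    (hf : (Subalgebra.inclusion (h.1.trans hD)).toRingHom.Flat) :
    (Subalgebra.inclusion hD).toRingHom.Flat := by
  letI := (Subalgebra.inclusion h.1).toRingHom.toAlgebra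
  letI := (Subalgebra.inclusion hD).toRingHom.toAlgebra
  letI := (Subalgebra.inclusion (h.1.trans hD)).toRingHom.toAlgebra
  haveI : IsScalarTower C D O := IsScalarTower.of_algebraMap_eq fun _ => rfl
  haveI := loc h
  exact (Module.flat_iff_of_isLocalization D (den C D) O).2 hf

end LzA

theorem lz_stmt : LzStmt := by
  intro k F _ _ _ C D H h
  have h1 : XX D H ⊆ XX C H := fun O ⟨j, hj, hO⟩ => ⟨j, hj, LzA.pts (LzA.sup h _) hO⟩
  refine ⟨h1, fun O ⟨j, hj, hO⟩ hD => ⟨j, hj, Pts_of_le hO (sup_le_sup_right h.1 _)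
    (sup_le hD (le_sup_right.trans hO.2.1))⟩, fun fm => ⟨fm.fin, fm.ne, fm.nz,
    fun j hj => (fm.frac j hj).mono (sup_le_sup_right h.1 _), ?_,
    fun R hR => fm.ufdC R (LzA.pts h hR), fun O hO => fm.ufd O (h1 hO),
    fun R hR => fm.fib R (LzA.pts h hR), fun O hO hD => LzA.flat h hD (fm.flat O (h1 hO) _)⟩⟩
  letI := (Subalgebra.inclusion h.1).toRingHom.toAlgebra
  haveI := LzA.loc h
  exact IsLocalization.isNoetherianRing (LzA.den C D) D fm.noeth

end Pool.Agent.MP_e8e0b6_ag.R2
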