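import Pool.Agent.MP_e8e0b6_ag.R2.SpecT

/-!
The function field of the family over a given base.
-/

set_option autoImplicit false

namespace Pool.Agent.MP_e8e0b6_ag.R2

open Pool.Agent.MP_79c67d_ag Pool.Agent.MP_20d318_ag Pool.Agent.MP_20d318_ag.AG
  Pool.Agent.MP_20d318_ag.BV Pool.Agent.MP_20d318_ag.CB

theorem mkf_stmt : MkfStmt := by
  intro k A E _ _ _ _ _ g H₀ h1 h0
  let F := IntermediateField.adjoin k (Set.range g ∪ H₀)
  have hH : ∀ a ∈ H₀, a ∈ F := fun a ha => IntermediateField.subset_adjoin k _ (Or.inr ha)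
  let g' : A →ₐ[k] F := g.codRestrict F.toSubalgebra fun a =>
    IntermediateField.subset_adjoin k _ (Or.inl ⟨a, rfl⟩)
  refine ⟨F, inferInstance, inferInstance, F.val, g', F.val ⁻¹' H₀,
    Set.image_preimage_eq_of_subset fun a ha => ⟨⟨a, hH a ha⟩, rfl⟩, rfl, fun j hj f => ?_⟩
  let R := ch g'.range (F.val ⁻¹' H₀) j
  let T := IntermediateField.adjoin k (R : Set F)
  have h2 : ∀ a ∈ F.val ⁻¹' H₀, a / j ∈ T := fun a ha => IntermediateField.subset_adjoin k _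
    ((le_sup_right : _ ≤ R) (Algebra.subset_adjoin ⟨a, ha, rfl⟩))
  have hj0 : j ≠ 0 := fun e => h0 _ hj (by rw [e, map_zero])
  have h3 : F ≤ T.map F.val := IntermediateField.adjoin_le_iff.2 (by
    rintro _ (⟨a, rfl⟩ | ha)
    · exact ⟨g' a, IntermediateField.subset_adjoin k _ ((le_sup_left : _ ≤ R) ⟨a, rfl⟩), rfl⟩
    · refine ⟨⟨_, hH _ ha⟩, ?_, rfl⟩
      have := div_mem (h2 ⟨_, hH _ ha⟩ ha) (h2 1 h1)
      rwa [div_div_div_cancel_right₀ hj0, div_one] at this)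
  obtain ⟨f', h4, h5⟩ := h3 f.2
  obtain rfl : f' = f := Subtype.ext h5
  obtain ⟨r, hr, s, hs, rfl⟩ := IntermediateField.mem_adjoin_iff_div.1 h4
  rw [Algebra.adjoin_eq] at hr hs
  by_cases e : s = 0
  · exact ⟨0, zero_mem _, 1, one_mem _, one_ne_zero, by rw [e, div_zero, zero_div]⟩
  · exact ⟨r, hr, s, hs, e, rfl⟩

end Pool.Agent.MP_e8e0b6_ag.R2
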