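import Pool.Agent.MP_e8e0b6_ag.R2.SpecT

/-!
The fixed point.
-/

set_option autoImplicit false

open Polynomial
open scoped TensorProduct

namespace Pool.Agent.MP_e8e0b6_ag.R2

open Pool.Agent.MP_79c67d_ag Pool.Agent.MP_20d318_ag Pool.Agent.MP_20d318_ag.AG
  Pool.Agent.MP_20d318_ag.BV Pool.Agent.MP_20d318_ag.CB

namespace PtA

variable {k A K L B F₀ : Type} [Field k] [CommRing A] [Field K] [Field L] [CommRing B] [Field F₀]
  [Algebra k K] [Algebra k L] [Algebra A L] [Algebra A K] [IsFractionRing A K] [Algebra K L]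
  [IsScalarTower A K L] [FiniteDimensional K L] [IsGalois K L] [Algebra k B] [Algebra k F₀]

/-- Linear disjointness by means of the trace. -/
theorem ker_le (i : L →ₐ[k] F₀) (n : B →ₐ[k] F₀) (hn : Function.Injective n) (e : K →ₐ[k] L)
    (he : ∀ c, e c = algebraMap K L c) (θ : B →ₐ[k] K) (γ : A → B)
    (h1 : ∀ α, n (γ α) = i (algebraMap A L α)) (h2 : ∀ α, θ (γ α) = algebraMap A K α)
    (a : (L ≃ₐ[K] L) → (F₀ ≃ₐ[k] F₀)) (h3 : ∀ σ c, a σ (i c) = i (σ c))
    (h4 : ∀ σ b, a σ (n b) = n b) (t : L ⊗[k] B)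
    (h : Algebra.TensorProduct.productMap i n t = 0) :
    Algebra.TensorProduct.productMap (AlgHom.id k L) (e.comp θ) t = 0 := by
  have key : ∀ (v : L) (t : L ⊗[k] B), ∃ β : A, algebraMap A K β ≠ 0 ∧ ∃ b : B,
      n (γ β) * ∑ σ, a σ (i v * Algebra.TensorProduct.productMap i n t) = n b ∧
      algebraMap A K β * Algebra.trace K L
        (v * Algebra.TensorProduct.productMap (AlgHom.id k L) (e.comp θ) t) = θ b := by
    intro v t
    induction t using TensorProduct.induction_on with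
    | zero => exact ⟨1, by simp, 0, by simp⟩
    | tmul c b =>
      obtain ⟨⟨α, β⟩, hab⟩ := IsLocalization.surj (nonZeroDivisors A) (Algebra.trace K L (v * c))
      refine ⟨β, (IsLocalization.map_units K β).ne_zero, γ α * b, ?_, ?_⟩
      · simp only [Algebra.TensorProduct.productMap_apply_tmul, ← mul_assoc, ← map_mul i,
          map_mul (a _), h3, h4]
        rw [← Finset.sum_mul, ← map_sum, ← trace_eq_sum_automorphisms, map_mul n, h1, h1,
          ← mul_assoc, ← map_mul i, IsScalarTower.algebraMap_apply A K L,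
          ← map_mul (algebraMap K L), mul_comm _ (Algebra.trace K L _), hab,
          ← IsScalarTower.algebraMap_apply]
      · rw [Algebra.TensorProduct.productMap_apply_tmul, AlgHom.id_apply, AlgHom.comp_apply, he,
          ← mul_assoc, mul_comm (v * c), ← Algebra.smul_def (θ b), map_smul, smul_eq_mul,
          map_mul θ, h2, ← hab]
        ring
    | add t t' ht ht' =>
      obtain ⟨β, h0, b, e1, e2⟩ := ht
      obtain ⟨β', h0', b', e1', e2'⟩ := ht'
      have h5 : n (γ (β * β')) = n (γ β) * n (γ β') := by rw [h1, h1, h1, map_mul, map_mul]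
      refine ⟨β * β', by rw [map_mul]; exact mul_ne_zero h0 h0', γ β' * b + γ β * b', ?_, ?_⟩
      · simp only [map_add, mul_add, Finset.sum_add_distrib, map_mul n, h5, ← e1, ← e1']
        ring
      · simp only [map_add, mul_add, map_mul θ, map_mul (algebraMap A K), h2, ← e2, ← e2']
        ring
  refine (traceForm_nondegenerate K L).1 _ fun v => ?_
  obtain ⟨β, h0, b, e1, e2⟩ := key v t
  obtain rfl : b = 0 := hn (by simpa [h] using e1.symm)
  rw [map_zero, mul_eq_zero, mul_comm] at e2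
  exact e2.resolve_left h0

end PtA

theorem pt_stmt : PtStmt := by
  intro k A K L F F₀ _ _ _ _ _ _ _ _ _ _ _ _ _ _ _ _ _ _ _ _ g H g₀ ν a j θ hg hν ha hz hj hθ
  let e : K →ₐ[k] L := ⟨algebraMap K L, fun c => by
    change algebraMap K L _ = _
    rw [IsScalarTower.algebraMap_apply k A K, ← IsScalarTower.algebraMap_apply,
      ← IsScalarTower.algebraMap_apply]⟩
  have hm : ∀ p, g p ∈ ch g.range H j := fun p => (le_sup_left : _ ≤ ch _ H j) ⟨p, rfl⟩
  let i : L →ₐ[k] F₀ := g₀.comp CAlgHom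
  let n := ν.comp (ch g.range H j).val
  let Φ := Algebra.TensorProduct.productMap i n
  let Ψ := Algebra.TensorProduct.productMap (AlgHom.id k L) (e.comp θ)
  have hk : ∀ t, Φ t = 0 → Ψ t = 0 := PtA.ker_le i n (ν.injective.comp Subtype.val_injective) e
    (fun _ => rfl) θ (fun α => ⟨g (C α), hm _⟩)
    (fun α => (hν (C α)).symm.trans (congrArg g₀ (map_C _))) (fun α => by rw [hθ, eval_C]) a ha
    fun σ b => hz σ b
  have hi : ∀ c, Φ (c ⊗ₜ 1) = g₀ (C c) := fun c => Algebra.TensorProduct.productMap_left_apply i n c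
  have hn : ∀ b, Φ (1 ⊗ₜ b) = ν b := fun b => Algebra.TensorProduct.productMap_right_apply i n b
  have E : ch g₀.range (ν '' H) (ν j) = Φ.range := by
    refine le_antisymm (sup_le ?_ (Algebra.adjoin_le ?_)) ?_
    · rintro _ ⟨p, rfl⟩
      change g₀ p ∈ _
      induction p using Polynomial.induction_on' with
      | add p q hp hq => rw [map_add]; exact add_mem hp hq
      | monomial m c =>
        rw [← C_mul_X_pow_eq_monomial, map_mul, map_pow]
        have h1 : g₀ X ∈ Φ.range :=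
          ⟨_, (hn ⟨_, hm X⟩).trans ((hν X).symm.trans (congrArg g₀ (map_X _)))⟩
        exact mul_mem ⟨_, hi c⟩ (pow_mem h1 m)
    · rintro _ ⟨_, ⟨x, hx, rfl⟩, rfl⟩
      exact ⟨_, (hn ⟨x / j, (le_sup_right : _ ≤ ch _ H j)
        (Algebra.subset_adjoin ⟨x, hx, rfl⟩)⟩).trans (map_div₀ ν x j)⟩
    · have h1 : ch g.range H j ≤ (ch g₀.range (ν '' H) (ν j)).comap ν := by
        refine sup_le ?_ (Algebra.adjoin_le ?_)
        · rintro _ ⟨p, rfl⟩
          exact (le_sup_left : _ ≤ ch g₀.range (ν '' H) (ν j)) ⟨_, hν p⟩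
        · rintro _ ⟨x, hx, rfl⟩
          exact (le_sup_right : _ ≤ ch g₀.range (ν '' H) (ν j))
            (Algebra.subset_adjoin ⟨_, ⟨x, hx, rfl⟩, (map_div₀ ν x j).symm⟩)
      rintro _ ⟨t, rfl⟩
      change Φ t ∈ _
      induction t using TensorProduct.induction_on with
      | zero => rw [map_zero]; exact zero_mem _
      | tmul c b => exact mul_mem ((le_sup_left : _ ≤ ch _ _ _) ⟨C c, rfl⟩) (h1 b.2)
      | add t t' ht ht' => rw [map_add]; exact add_mem ht ht'
  have act : ∀ σ t, ∃ t', Φ t' = a σ (Φ t) ∧ Ψ t' = σ (Ψ t) := fun σ t => by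
    induction t using TensorProduct.induction_on with
    | zero => exact ⟨0, by simp⟩
    | tmul c b =>
      refine ⟨σ c ⊗ₜ b, ?_, ?_⟩
      · change g₀ (C (σ c)) * ν b = a σ (g₀ (C c) * ν b)
        rw [map_mul, ha, hz]
      · change σ c * algebraMap K L (θ b) = σ (c * algebraMap K L (θ b))
        rw [map_mul, σ.commutes]
    | add t s ht hs =>
      obtain ⟨t', h1, h2⟩ := ht
      obtain ⟨s', h3, h4⟩ := hs
      exact ⟨t' + s', by simp only [map_add, h1, h3], by simp only [map_add, h2, h4]⟩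
  let θ₀ : Φ.range →ₐ[k] L := AlgHom.liftOfSurjective Φ.rangeRestrict Φ.rangeRestrict_surjective Ψ
    fun t ht => hk t (congrArg Subtype.val ht)
  obtain ⟨O, hO, ρ, hρ, h1⟩ := exists_ext θ₀
  have h2 : ∀ t, Φ t ∈ O := fun t => hO.2.1 ⟨t, rfl⟩
  have h3 : ∀ t, evO O ρ (Φ t) = Ψ t := fun t => by
    rw [h1 (Φ t) ⟨t, rfl⟩, evO_of_mem θ₀ (u := Φ t) ⟨t, rfl⟩]
    exact AlgHom.liftOfSurjective_apply _ _ _ _ t
  refine ⟨O, ⟨ν j, ⟨j, hj, rfl⟩, E ▸ hO⟩, (i.comp ρ : O →ₐ[k] F₀), fun z => ⟨C (ρ z), rfl⟩,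
    ?_, fun σ z => ?_⟩
  · rintro z ⟨h0, ⟨p, hp⟩, q, hq⟩
    have h4 : p * q = 1 := hg (by
      rw [map_mul, map_one]
      exact (congrArg₂ (· * ·) hp hq).trans (mul_inv_cancel₀ h0))
    obtain ⟨c, -, rfl⟩ := Polynomial.isUnit_iff.1 (IsUnit.of_mul_eq_one q h4)
    have h5 : (z : F₀) = Φ (c ⊗ₜ 1) := hp.symm.trans (hi c).symm
    change g₀ (C (ρ z)) = z
    rw [← evO_coe, h5, h3, hi, Algebra.TensorProduct.productMap_left_apply]
    rfl
  · obtain ⟨_, ⟨t, rfl⟩, _, ⟨s, rfl⟩, hu, hts⟩ := hO.2.2 z z.2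
    obtain ⟨t', e1, e2⟩ := act σ t
    obtain ⟨s', e3, e4⟩ := act σ s
    have hu : IsU O (Φ s) := hu
    have hu' : IsU O (Φ s') := hρ ⟨_, h2 s'⟩ (by
      rw [← evO_of_mem, h3, e4, _root_.map_ne_zero, ← h3]; exact evO_ne ρ hu)
    have h4 : (z : F₀) = Φ t / Φ s := hts
    have h5 : a σ z = Φ t' / Φ s' := by rw [h4, map_div₀, e1, e3]
    refine ⟨h5 ▸ hu'.div_mem (h2 t'), ?_⟩
    change g₀ (C (ρ _)) = a σ (g₀ (C (ρ z)))
    rw [ha, ← evO_of_mem, ← evO_coe, h5, h4, evO_div ρ (h2 t') hu', evO_div ρ (h2 t) hu, h3, h3, h3,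
      h3, map_div₀ σ, e2, e4]

end Pool.Agent.MP_e8e0b6_ag.R2
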