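import Pool.Agent.MP_e8e0b6_ag.R2.SpecT

set_option autoImplicit false

open Polynomial

namespace Pool.Agent.MP_e8e0b6_ag.R2

open Pool.Agent.MP_79c67d_ag Pool.Agent.MP_20d318_ag Pool.Agent.MP_20d318_ag.AG
  Pool.Agent.MP_20d318_ag.BV Pool.Agent.MP_20d318_ag.CB

namespace RatGenA
variable {k F Ω E J : Type} [Field k] [Field F] [Field Ω] [Field E] [Algebra k F]
  [Algebra k E] [Algebra Ω E] [Fintype J] {μ : F →ₐ[k] E} {S : Sd Ω E J}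

theorem one : Cl S (μ '' {1}) 0 := ⟨1, one_ne_zero, fun O _ => by
  rw [Sd.lb_zero, inv_one, mul_one]
  exact gn_one (by simp) ⟨1, by simp, isU_one⟩⟩

theorem mul (h : SAll S) {U V : Set F} {c c' : J → ℤ} (a : Cl S (μ '' U) c) (b : Cl S (μ '' V) c') :
    Cl S (μ '' Set.image2 (· * ·) U V) (c + c') := by
  obtain ⟨φ, h1, g⟩ := a
  obtain ⟨ψ, h2, g'⟩ := b
  refine ⟨φ * ψ, mul_ne_zero h1 h2, fun O hO => ?_⟩
  rw [S.lb_add (h.a1.gne O hO), mul_inv, mul_mul_mul_comm]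
  constructor
  · rintro _ ⟨_, ⟨x, hx, y, hy, rfl⟩, rfl⟩
    rw [map_mul, mul_div_mul_comm]
    exact O.mul_mem ((g O hO).1 _ ⟨x, hx, rfl⟩) ((g' O hO).1 _ ⟨y, hy, rfl⟩)
  · obtain ⟨_, ⟨x, hx, rfl⟩, u⟩ := (g O hO).2
    obtain ⟨_, ⟨y, hy, rfl⟩, v⟩ := (g' O hO).2
    refine ⟨_, ⟨_, ⟨x, hx, y, hy, rfl⟩, rfl⟩, ?_⟩
    rw [map_mul, mul_div_mul_comm]
    exact u.mul v

/-- The differences of classes of systems. -/
def sub (μ : F →ₐ[k] E) (h : SAll S) : AddSubgroup (J → ℤ) where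
  carrier := {c | ∃ (U V : Set F) (c₁ c₂ : J → ℤ), U.Finite ∧ V.Finite ∧ Cl S (μ '' U) c₁ ∧
    Cl S (μ '' V) c₂ ∧ c = c₁ - c₂}
  zero_mem' := ⟨{1}, {1}, 0, 0, Set.finite_singleton _, Set.finite_singleton _, one, one, by simp⟩
  add_mem' := by
    rintro _ _ ⟨U, V, c₁, c₂, f1, f2, a1, a2, rfl⟩ ⟨U', V', d₁, d₂, g1, g2, b1, b2, rfl⟩
    exact ⟨_, _, _, _, f1.image2 _ g1, f2.image2 _ g2, mul h a1 b1, mul h a2 b2, by abel⟩
  neg_mem' := by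
    rintro _ ⟨U, V, c₁, c₂, f1, f2, a1, a2, rfl⟩
    exact ⟨V, U, c₂, c₁, f2, f1, a2, a1, neg_sub _ _⟩

end RatGenA

theorem ratGen_stmt : RatGenStmt := by
  intro k F Ω E J _ _ _ _ _ _ _ _ _ μ S h hi c
  have e : c = ∑ i, c i • (Pi.single i 1 : J → ℤ) := by
    ext j
    simp [Finset.sum_apply, Pi.single_apply]
  have : c ∈ RatGenA.sub μ h := by
    rw [e]
    exact sum_mem fun i _ => zsmul_mem (show Pi.single i 1 ∈ RatGenA.sub μ h from hi i) _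
  exact this

end Pool.Agent.MP_e8e0b6_ag.R2
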