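import Pool.Agent.MP_e8e0b6_ag.R2.SpecT

/-!
Global functions on the family come from the base.
-/

set_option autoImplicit false

namespace Pool.Agent.MP_e8e0b6_ag.R2

open Pool.Agent.MP_79c67d_ag Pool.Agent.MP_20d318_ag Pool.Agent.MP_20d318_ag.AG
  Pool.Agent.MP_20d318_ag.BV Pool.Agent.MP_20d318_ag.CB

namespace RegA

variable {k F : Type} [Field k] [Field F] [Algebra k F] {C R O : Subalgebra k F} {H : Set F}

theorem xx_le (h : O ∈ XX C H) : C ≤ O := le_sup_left.trans h.choose_spec.2.2.1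

theorem xx_of (hR : R ∈ Pts C) (h : O ∈ XX R H) : O ∈ XX C H := by
  have hRO := xx_le h
  obtain ⟨j, hj, hO⟩ := h
  have h1 : ch C H j ≤ O := (sup_le_sup_right hR.2.1 _).trans hO.2.1
  have h2 : ch R H j ≤ fr (ch C H j) O := sup_le (fun r hr => by
    obtain ⟨a, ha, b, hb, hu, rfl⟩ := hR.2.2 r hr
    exact ⟨a, (le_sup_left : C ≤ _) ha, b, (le_sup_left : C ≤ _) hb, hu.mono hRO, rfl⟩)
    (le_sup_right.trans le_fr)
  refine ⟨j, hj, hO.1, h1, fun f hf => ?_⟩
  obtain ⟨a, ha, b, hb, hu, rfl⟩ := hO.2.2 f hf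
  exact div_mem_fr (h2 ha) (h2 hb) h1 hu

/-- A fraction that lies in a flat local extension has a denominator that is a unit there. -/
theorem den (hO : IsLocalRing O) (h : C ≤ O) (hf : (Subalgebra.inclusion h).toRingHom.Flat)
    {m : F} (hm : m ∈ O) {s t : C} (ht : t ≠ 0) (e : (s : F) + t * m = 0) :
    ∃ c ∈ C, IsU O c ∧ c * m ∈ C := by
  let _ := (Subalgebra.inclusion h).toRingHom.toAlgebra
  have : Module.Flat C O := hf
  obtain ⟨n, a, y, h1, h2⟩ := Module.Flat.isTrivialRelation_of_sum_smul_eq_zero (R := C) (M := O)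
    (f := ![s, t]) (x := ![1, ⟨m, hm⟩]) (Subtype.ext (by
      rw [Fin.sum_univ_two]
      exact (congrArg (· + _) (mul_one (s : F))).trans e))
  by_contra hn
  have h3 : ∀ j, (a 0 j : F) ∈ mx O := fun j => ⟨h (a 0 j).2, fun hu => hn ⟨_, (a 0 j).2, hu, by
    have e2 : (s : F) * a 0 j + t * a 1 j = 0 := by
      have := congrArg Subtype.val (h2 j)
      rwa [Fin.sum_univ_two] at this
    rw [show (a 0 j : F) * m = a 1 j from mul_left_cancel₀ (fun h0 => ht (Subtype.ext h0))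
      (by linear_combination (a 0 j : F) * e - e2 : (t : F) * _ = t * _)]
    exact (a 1 j).2⟩⟩
  have h4 : (1 : F) = ∑ j, (a 0 j : F) * y j :=
    (congrArg Subtype.val (h1 0)).trans (AddSubmonoidClass.coe_finsetSum _ _)
  exact one_not_mem_mx (h4 ▸ mx_sum hO fun j _ => mx_mul_right (h3 j) (y j).2)

end RegA

open RegA in
theorem reg_stmt (h1 : CtrStmt) : RegStmt := by
  intro k F Ω E J _ _ _ _ _ _ _ _ C H μ S' fm gc all m hm
  obtain ⟨a, ha⟩ := all.a2.const (μ m) fun O' hO' => by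
    obtain ⟨O, hO, h⟩ := h1 k F Ω E C H μ gc.base O' (gc.eq ▸ hO')
    exact h m (hm O hO)
  obtain ⟨s, t, e, ht⟩ : ∃ s t : C, (s : F) + t * m = 0 ∧ t ≠ 0 := by
    by_contra hn
    have := Fintype.linearIndependent_iff.1 (gc.ld _ ![1, m] (LinearIndependent.pair_iff.2
      fun s t e => by
        have e' : (s : F) + t * m = 0 := (congrArg (· + _) (mul_one (s : F))).symm.trans e
        obtain rfl : t = 0 := by_contra fun h => hn ⟨s, t, e', h⟩
        exact ⟨Subtype.ext (by simpa using e'), rfl⟩)) ![-a, 1]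
      (by simp [ha, Algebra.smul_def]) 1
    simp at this
  let I : Ideal C :=
    { carrier := {c | (c : F) * m ∈ C}
      add_mem' := fun {a b} ha hb => by simpa [add_mul] using C.add_mem ha hb
      zero_mem' := by simp
      smul_mem' := fun c a ha => by simpa [mul_assoc] using C.mul_mem c.2 ha }
  by_contra hn
  obtain ⟨M, hM, hI⟩ := I.exists_le_maximal fun h => hn (by
    simpa using show ((1 : C) : F) * m ∈ C from (I.eq_top_iff_one).1 h)
  have mem : ∀ c : C, (c : F) ∈ Subtype.val '' (M : Set C) ↔ c ∈ M := fun c =>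
    Subtype.val_injective.mem_set_image
  obtain ⟨R, hR, hU⟩ := exists_loc C (Subtype.val '' (M : Set C)) ((mem 0).2 M.zero_mem)
    (fun h => hM.ne_top ((M.eq_top_iff_one).2 ((mem 1).1 h)))
    (fun a ha b hb u v => (mem (⟨a, ha⟩ + ⟨b, hb⟩)).2
      (M.add_mem ((mem ⟨a, ha⟩).1 u) ((mem ⟨b, hb⟩).1 v)))
    fun a ha b hb => (mem (⟨a, ha⟩ * ⟨b, hb⟩)).trans (hM.isPrime.mul_mem_iff_mem_or_mem.trans
      (or_congr (mem ⟨a, ha⟩) (mem ⟨b, hb⟩)).symm)
  obtain ⟨ξ, hξ⟩ := fm.fib R hR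
  have hx := xx_of hR hξ.mem
  obtain ⟨c, hc, hu, h⟩ := RegA.den hx.choose_spec.2.1 (xx_le hx) (fm.flat ξ hx _) (hm ξ hx) ht e
  exact (hU c hc).1 (hξ.dom.2 c (hR.2.1 hc) hu) ((mem ⟨c, hc⟩).2 (hI h))

end Pool.Agent.MP_e8e0b6_ag.R2
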