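import Pool.Agent.MP_e8e0b6_ag.R2.SpecT

/-!
A semilinear automorphism that fixes the coordinates permutes the points.
-/

set_option autoImplicit false

open Polynomial

namespace Pool.Agent.MP_e8e0b6_ag.R2

open Pool.Agent.MP_79c67d_ag Pool.Agent.MP_20d318_ag Pool.Agent.MP_20d318_ag.AG
  Pool.Agent.MP_20d318_ag.BV Pool.Agent.MP_20d318_ag.CB

namespace SemiA

variable {Ω E : Type} [Field Ω] [Field E] [Algebra Ω E] {H : Set E} {τ : E ≃+* E}

theorem symm (h : Semi Ω τ) : Semi Ω τ.symm := by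
  unfold Semi at h ⊢
  conv_lhs => rw [← h]
  rw [Set.image_image]
  simp

/-- The preimage of a subalgebra. -/
def cm (h : Semi Ω τ) (O : Subalgebra Ω E) : Subalgebra Ω E where
  carrier := {a | τ a ∈ O}
  mul_mem' ha hb := by simpa using O.mul_mem ha hb
  add_mem' ha hb := by simpa using O.add_mem ha hb
  algebraMap_mem' c := by
    obtain ⟨c', e⟩ : τ (algebraMap Ω E c) ∈ Set.range (algebraMap Ω E) := h ▸ ⟨_, ⟨c, rfl⟩, rfl⟩
    exact show τ _ ∈ O from e ▸ O.algebraMap_mem c'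

theorem isU_cm (h : Semi Ω τ) {O : Subalgebra Ω E} {a : E} : IsU (cm h O) a ↔ IsU O (τ a) :=
  and_congr (map_ne_zero τ).symm (and_congr Iff.rfl (by rw [← map_inv₀]; rfl))

theorem cht_le (h : Semi Ω τ) (fix : ∀ a ∈ H, τ a = a) {j : Unit → E} (hj : ∀ l, j l ∈ H) :
    cht Ω (fun _ => H) j ≤ cm h (cht Ω (fun _ => H) j) := by
  refine Algebra.adjoin_le ?_
  rintro _ ⟨_, ⟨u, rfl⟩, b, hb, rfl⟩
  show τ (b / j u) ∈ cht Ω (fun _ => H) j
  rw [map_div₀, fix b hb, fix _ (hj u)]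
  exact Algebra.subset_adjoin (Set.mem_iUnion.2 ⟨u, b, hb, rfl⟩)

theorem half (h : Semi Ω τ) (fix : ∀ a ∈ H, τ a = a) {O : Subalgebra Ω E}
    (hO : O ∈ mp Ω fun _ : Unit => H) : cm h O ∈ mp Ω fun _ : Unit => H := by
  obtain ⟨j, hj, hl, le, fr⟩ := hO
  have h' := cht_le (symm h) (fun a ha => τ.symm_apply_eq.2 (fix a ha).symm) hj
  refine ⟨j, hj, isLocalRing_of fun f hf g hg => ?_, fun a ha => le (cht_le h fix hj ha),
    fun f hf => ?_⟩
  · have := mx_add hl ⟨hf.1, fun u => hf.2 ((isU_cm h).2 u)⟩ ⟨hg.1, fun u => hg.2 ((isU_cm h).2 u)⟩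
    rw [← map_add] at this
    exact ⟨this.1, fun u => this.2 ((isU_cm h).1 u)⟩
  · obtain ⟨a, ha, b, hb, u, e⟩ := fr _ hf
    refine ⟨_, h' ha, _, h' hb, (isU_cm h).2 (by rwa [τ.apply_symm_apply]), ?_⟩
    rw [← map_div₀, ← e, τ.symm_apply_apply]

end SemiA

open SemiA in
theorem semi_stmt : SemiStmt := fun _ _ _ _ _ _ τ h fix O hO =>
  ⟨⟨_, half h fix hO, fun _ => Iff.rfl⟩, _,
    half (symm h) (fun a ha => τ.symm_apply_eq.2 (fix a ha).symm) hO,
    fun a => by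
      show τ.symm (τ a) ∈ O ↔ _
      rw [τ.symm_apply_apply]⟩

end Pool.Agent.MP_e8e0b6_ag.R2
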