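import Pool.Agent.MP_e8e0b6_ag.R2.SpecT

/-!
Descent of a globally generated class to the function field of a line.
-/

set_option autoImplicit false

open Polynomial

namespace Pool.Agent.MP_e8e0b6_ag.R2

open Pool.Agent.MP_79c67d_ag Pool.Agent.MP_20d318_ag Pool.Agent.MP_20d318_ag.AG
  Pool.Agent.MP_20d318_ag.BV Pool.Agent.MP_20d318_ag.CB

namespace T1A

open TensorProduct

theorem exists_factor {A B E : Type} [CommRing A] [CommRing B] [CommRing E] (f : A →+* E)
    {j : B →+* E} (hj : Function.Injective j) (h : ∀ a, f a ∈ Set.range j) :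
    ∃ ι : A →+* B, ∀ a, j (ι a) = f a := by
  choose ι hι using h
  exact ⟨⟨⟨⟨ι, hj (by simp [hι])⟩, fun a b => hj (by simp [hι])⟩, hj (by simp [hι]),
    fun a b => hj (by simp [hι])⟩, hι⟩

variable {L F Ω E : Type} [Field L] [Field F] [Field Ω] [Field E] [Algebra L F] [Algebra L Ω]
  [Algebra Ω E] [Algebra L E] [IsScalarTower L Ω E]

theorem exists_fin (β : BC L F Ω E) (x : E) : ∃ Λ : Set Ω, Λ.Finite ∧ ∀ K : Subfield E,
    (∀ a ∈ Λ, algebraMap Ω E a ∈ K) → (∀ f, β.μ f ∈ K) → x ∈ K := by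
  have key : ∀ y, ∃ Λ : Set Ω, Λ.Finite ∧ ∀ K : Subfield E,
      (∀ a ∈ Λ, algebraMap Ω E a ∈ K) → (∀ f, β.μ f ∈ K) → tens Ω β.μ y ∈ K := fun y => by
    induction y using TensorProduct.induction_on with
    | zero => exact ⟨∅, Set.finite_empty, fun K _ _ => by simp⟩
    | tmul d f => exact ⟨{d}, Set.finite_singleton d, fun K h h' => K.mul_mem (h d rfl) (h' f)⟩
    | add a b ha hb =>
      obtain ⟨A, hA, h1⟩ := ha
      obtain ⟨B, hB, h2⟩ := hb
      exact ⟨A ∪ B, hA.union hB, fun K h h' => by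
        rw [map_add]
        exact K.add_mem (h1 K (fun a ha => h a (Or.inl ha)) h')
          (h2 K (fun a ha => h a (Or.inr ha)) h')⟩
  obtain ⟨a, s, hs, e⟩ := β.frac x
  obtain ⟨A, hA, h1⟩ := key a
  obtain ⟨B, hB, h2⟩ := key s
  refine ⟨A ∪ B, hA.union hB, fun K h h' => ?_⟩
  rw [eq_div_of_mul_eq ((map_ne_zero_iff _ β.inj).2 hs) e]
  exact K.div_mem (h1 K (fun a ha => h a (Or.inl ha)) h') (h2 K (fun a ha => h a (Or.inr ha)) h')

theorem span_span (ν : F →ₐ[L] E) (S : Set F) :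
    Submodule.span Ω (ν '' (Submodule.span L S : Set F)) = Submodule.span Ω (ν '' S) := by
  have h : ν '' (Submodule.span L S : Set F) = (Submodule.span L (ν '' S) : Set E) :=
    congrArg SetLike.coe (Submodule.map_span ν.toLinearMap S)
  rw [h, Submodule.span_span_of_tower]

theorem act_iff (β : BC L F Ω E) (g : Ω ≃ₐ[L] Ω) {σ : Type} (x : σ → E) (w : E) :
    w ∈ Submodule.span Ω (Set.range x) ↔
      β.act g w ∈ Submodule.span Ω (Set.range fun l => β.act g (x l)) :=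
  ⟨β.act_mem, fun h => by simpa [← BC.act_mul] using β.act_mem (g := g⁻¹) h⟩

theorem mem_range (β : BC L F Ω E) {m : F} (h : β.μ m ∈ Set.range (algebraMap Ω E)) :
    m ∈ Set.range (algebraMap L F) := by
  by_contra h0
  obtain ⟨a, ha⟩ := h
  have h1 := β.linearIndependent _ ![1, m] ((LinearIndependent.pair_iff' one_ne_zero).2
    fun c hc => h0 ⟨c, by simpa [Algebra.smul_def] using hc⟩)
  have h2 : (fun i => (β.μ : F →+* E) (![1, m] i)) = ![1, β.μ m] := by
    funext i; fin_cases i <;> simp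
  rw [h2] at h1
  exact (LinearIndependent.pair_iff' one_ne_zero).1 h1 a (by simpa [Algebra.smul_def] using ha)

theorem dom {L' : Type} [Field L'] [Algebra L L'] [Algebra L' Ω] [IsScalarTower L L' Ω]
    (β : BC L F Ω E) : IsDomain (L' ⊗[L] F) := by
  let r := Algebra.TensorProduct.map (IsScalarTower.toAlgHom L L' Ω) (AlgHom.id L F)
  have hr : Function.Injective r :=
    Module.Flat.rTensor_preserves_injective_linearMap (M := F)
      (IsScalarTower.toAlgHom L L' Ω).toLinearMap (algebraMap L' Ω).injective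
  have := β.inj.isDomain (tens Ω β.μ)
  exact hr.isDomain r

theorem desc2 (h2 : DscStmt) (h3 : CoreStmt) (hL : C1 L) [CharZero F] [Normal L Ω] {L' E' σ : Type}
    [Field L'] [Field E'] [Finite σ] [Algebra L L'] [Algebra L' Ω] [IsScalarTower L L' Ω]
    [FiniteDimensional L L'] [IsGalois L L'] [Algebra L' E'] [Algebra L E'] [IsScalarTower L L' E']
    [Algebra L' E] [IsScalarTower L' Ω E] (β : BC L F Ω E) (β₂ : BC L F L' E') (β₃ : BC L' E' Ω E)
    (hβ : ∀ f, β₃.μ (β₂.μ f) = β.μ f) (x : σ → E') (W : Submodule Ω E)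
    (hW : W = Submodule.span Ω (Set.range fun i => β₃.μ (x i))) (h0 : W ≠ ⊥)
    (hinv : ∀ g, ∃ φ : E, φ ≠ 0 ∧ ∀ z, z ∈ W ↔ β.act g z / φ ∈ W)
    (hmul : ∀ m, (∀ z ∈ W, m * z ∈ W) → m ∈ Set.range (algebraMap Ω E)) :
    ∃ (l : E) (U : Set F), l ≠ 0 ∧ U.Finite ∧ (∀ u ∈ U, l * β.μ u ∈ W) ∧
      ∀ z ∈ W, z / l ∈ Submodule.span Ω (β.μ '' U) := by
  have e1 : ∀ y : σ → E', Submodule.span Ω (β₃.μ '' (Submodule.span L' (Set.range y) : Set E')) =
      Submodule.span Ω (Set.range fun i => β₃.μ (y i)) := fun y => by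
    rw [span_span, ← Set.range_comp]; rfl
  have hm : ∀ z ∈ Submodule.span L' (Set.range x), β₃.μ z ∈ W := fun z hz => by
    rw [hW, ← e1]; exact Submodule.subset_span ⟨z, hz, rfl⟩
  have fd : ∀ y : σ → E', FiniteDimensional L' (Submodule.span L' (Set.range y)) := fun y =>
    Module.Finite.span_of_finite L' (Set.finite_range y)
  have hne : ∃ i, x i ≠ 0 := by
    by_contra! h
    exact h0 (by simp [hW, h])
  obtain ⟨i, hi⟩ := hne
  obtain ⟨l, U, hl, hU, hfix, hz⟩ := h3 L L' E' β₂.act (Submodule.span L' (Set.range x)) hL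
    (fun g c => β₂.act_alg c) (fun g g' z => β₂.act_mul z) β₂.act_one (fd x)
    (fun h => hi (h.le (Submodule.subset_span ⟨i, rfl⟩))) (fun g => by
      have e2 : ∀ z, β₃.μ (β₂.act g z) = β.act (g.liftNormal Ω) (β₃.μ z) :=
        DFunLike.congr_fun (β₂.ext' (φ := (β₃.μ : E' →+* E).comp (β₂.act g))
          (ψ := (β.act (g.liftNormal Ω)).comp (β₃.μ : E' →+* E))
          (fun d => by simp [β₃.alg_alg, AlgEquiv.liftNormal_commutes]) fun f => by simp [hβ])
      obtain ⟨φ, hφ, h⟩ := hinv (g.liftNormal Ω)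
      obtain ⟨ψ, hψ, h'⟩ := h2 L' Ω E' E β₃ (Submodule.span L' (Set.range fun i => β₂.act g (x i)))
        (Submodule.span L' (Set.range x)) φ⁻¹ (fd _) (fd _)
        (fun h => (map_ne_zero (β₂.act g)).2 hi (h.le (Submodule.subset_span ⟨i, rfl⟩)))
        (inv_ne_zero hφ) fun z => by
          rw [e1, e1, ← hW, ← div_eq_inv_mul, ← β.act_inv (g := g.liftNormal Ω) z, ← h, hW]
          simp only [e2]
          exact (act_iff β _ _ _).symm
      exact ⟨ψ⁻¹, inv_ne_zero hψ, fun z => by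
        rw [act_iff β₂ g, h', div_inv_eq_mul, mul_comm]⟩) fun m h => mem_range β₃ (hmul _ fun z hz => by
      rw [hW] at hz
      induction hz using Submodule.span_induction with
      | mem _ h' =>
        obtain ⟨j, rfl⟩ := h'
        rw [← map_mul]; exact hm _ (h _ (Submodule.subset_span ⟨j, rfl⟩))
      | zero => simp
      | add _ _ _ _ a b => rw [mul_add]; exact W.add_mem a b
      | smul c _ _ a => rw [mul_smul_comm]; exact W.smul_mem c a)
  have hs : U ⊆ Set.range β₂.μ := fun z hz => β₂.fixed_mem (MonoidHom.id _) (fun d =>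
    ⟨algebraMap L F (Algebra.trace L L' d), by
      rw [β₂.alg_alg, trace_eq_sum_automorphisms]; rfl⟩) (hfix z hz)
  obtain ⟨V, hV, rfl⟩ : ∃ V : Set F, V.Finite ∧ β₂.μ '' V = U :=
    ⟨_, hU.preimage β₂.μ.injective.injOn, Set.image_preimage_eq_of_subset hs⟩
  have e3 : β₃.μ '' (β₂.μ '' V) = β.μ '' V := by simp only [Set.image_image, hβ]
  refine ⟨β₃.μ l, V, (_root_.map_ne_zero _).2 hl, hV, fun u hu => ?_, fun z hz' => ?_⟩
  · rw [← hβ, ← map_mul]
    refine hm _ ((hz _).2 ?_)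
    rw [mul_div_cancel_left₀ _ hl]
    exact Submodule.subset_span ⟨u, hu, rfl⟩
  · rw [hW] at hz'
    induction hz' using Submodule.span_induction with
    | mem _ h' =>
      obtain ⟨j, rfl⟩ := h'
      rw [← map_div₀, ← e3, ← span_span]
      exact Submodule.subset_span ⟨_, (hz _).1 (Submodule.subset_span ⟨j, rfl⟩), rfl⟩
    | zero => simp
    | add _ _ _ _ a b => rw [add_div]; exact add_mem a b
    | smul c _ _ a => rw [smul_div_assoc]; exact Submodule.smul_mem _ c a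

theorem desc (h2 : DscStmt) (h3 : CoreStmt) (hL : C1 L) [CharZero F] [IsGalois L Ω]
    (β : BC L F Ω E) (W : Submodule Ω E) [FiniteDimensional Ω W] (h0 : W ≠ ⊥)
    (hinv : ∀ g, ∃ φ : E, φ ≠ 0 ∧ ∀ z, z ∈ W ↔ β.act g z / φ ∈ W)
    (hmul : ∀ m, (∀ z ∈ W, m * z ∈ W) → m ∈ Set.range (algebraMap Ω E)) :
    ∃ (l : E) (U : Set F), l ≠ 0 ∧ U.Finite ∧ (∀ u ∈ U, l * β.μ u ∈ W) ∧
      ∀ z ∈ W, z / l ∈ Submodule.span Ω (β.μ '' U) := by
  obtain ⟨n, w, hw⟩ := Submodule.fg_iff_exists_fin_generating_family.1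
    (Module.Finite.iff_fg.1 (inferInstance : Module.Finite Ω W))
  choose Λ hΛ h using fun i => exists_fin β (w i)
  have : Finite (⋃ i, Λ i) := Set.finite_iUnion hΛ
  let L' := FiniteGaloisIntermediateField.adjoin L (⋃ i, Λ i)
  have := dom (L' := L') β
  obtain ⟨E', _, _, _, _, ⟨β₂⟩⟩ := exists_bc (C := L) (D := L') (F := F)
  obtain ⟨β₃, hβ⟩ := β₂.factor (algebraMap L' Ω).injective β
  have hx : ∀ i, w i ∈ (β₃.μ : E' →+* E).fieldRange := fun i => h i _
    (fun a ha => ⟨_, β₃.alg_alg ⟨a, FiniteGaloisIntermediateField.subset_adjoin L _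
      (Set.mem_iUnion.2 ⟨i, ha⟩)⟩⟩) fun f => ⟨_, hβ f⟩
  choose x hx using hx
  exact desc2 h2 h3 hL β β₂ β₃ hβ x W (by rw [← hw, ← funext hx]; rfl) h0 hinv hmul

theorem geo (h1 : T0Stmt) (h2 : DscStmt) (h3 : CoreStmt) (hL : C1 L) [CharZero F] [IsGalois L Ω]
    (β : BC L F Ω E) {J : Type} [Fintype J] {S : Sd Ω E J} {H : Set F} (hS : SAll S)
    (hT : S.T = mp Ω fun _ : Unit => β.μ '' H) (htr : Triv (Set.range β.μ) S) {c : J → ℤ}
    (hc : S.GG c) : ∃ U : Set F, U.Finite ∧ Cl S (β.μ '' U) c := by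
  obtain ⟨U, hU, hU0, hg⟩ := hc
  have := hS.s.fd c
  have hm : ∀ a ∈ U, a ∈ S.Sec c := fun a ha O hO => by simpa using (hg O hO).1 a ha
  have hcl : Cl S U c := ⟨1, one_ne_zero, fun O hO => by simpa using hg O hO⟩
  obtain ⟨l, V, hl, hV, h4, h5⟩ := desc h2 h3 hL β (S.Sec c) (fun h => by
      obtain ⟨a, ha, -⟩ := (hg _ hS.a1.nice.toFine.top).2
      exact hU0 a ha (h.le (hm a ha))) (fun g => by
      let τ : E ≃+* E := RingEquiv.ofRingHom (β.act g) (β.act g⁻¹)
        (RingHom.ext fun z => β.act_inv z) (RingHom.ext fun z => by simp [← BC.act_mul])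
      have hτ : Semi Ω τ := Set.Subset.antisymm
        (by rintro _ ⟨_, ⟨a, rfl⟩, rfl⟩; exact ⟨g a, (β.act_alg a).symm⟩)
        (by rintro _ ⟨a, rfl⟩; exact ⟨_, ⟨g⁻¹ a, rfl⟩, by simp [τ]⟩)
      have hf : ∀ z ∈ Set.range β.μ, τ z = z := by rintro _ ⟨f, rfl⟩; exact β.act_μ f
      exact h1 Ω E J S _ τ U c hT hτ (fun a ha => hf a (Set.image_subset_range _ _ ha)) hcl
        (htr τ hτ hf U c hU hcl)) fun m h => by
      obtain ⟨a, ha⟩ := hS.a2.const m fun O hO => by
        obtain ⟨a, ha, hu⟩ := (hg O hO).2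
        have := hu.div_mem (h a (hm a ha) O hO)
        rwa [div_inv_eq_mul, mul_assoc, mul_div_cancel_right₀ _ (by simpa using hu.1)] at this
      exact ⟨a, ha.symm⟩
  refine ⟨V, hV, l⁻¹, inv_ne_zero hl, fun O hO => ((hg O hO).smul (inv_ne_zero hl)).of_span
    ?_ ?_ ?_⟩
  · obtain ⟨j, -, h⟩ := hO
    exact h.1
  · rintro _ ⟨u, hu, rfl⟩
    rw [← mul_inv, div_inv_eq_mul, ← mul_assoc, mul_comm _ l]
    exact h4 u hu O hO
  · rintro _ ⟨a, ha, rfl⟩
    exact Submodule.span_le_restrictScalars Ω O _ (by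
      simpa only [div_eq_inv_mul] using h5 a (hm a ha))

end T1A

theorem t1_stmt (h1 : T0Stmt) (h2 : DscStmt) (h3 : CoreStmt) (h4 : BcStmt) : T1Stmt := by
  intro k M F Ω E J _ _ _ _ _ _ _ _ _ _ _ _ _ g H μ S hg gc hS halg htr c hc
  let L := FractionRing M[X]
  let j : L →+* F := IsFractionRing.lift (g := (g : M[X] →+* F)) hg
  have hj : ∀ p, j (algebraMap M[X] L p) = g p := fun p => IsFractionRing.lift_algebraMap hg p
  obtain ⟨ι, hι⟩ := T1A.exists_factor ((μ : F →+* E).comp j) (algebraMap Ω E).injective fun a => by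
    obtain ⟨p, q, -, rfl⟩ := IsFractionRing.div_surjective (A := M[X]) a
    rw [RingHom.comp_apply, map_div₀, map_div₀, hj, hj]
    exact (algebraMap Ω E).fieldRange.div_mem (gc.base _ ⟨p, rfl⟩) (gc.base _ ⟨q, rfl⟩)
  let := j.toAlgebra
  let := ι.toAlgebra
  let := ((μ : F →+* E).comp j).toAlgebra
  have : IsScalarTower L Ω E := .of_algebraMap_eq fun a => (hι a).symm
  obtain ⟨β, hβ⟩ := h4 L F Ω E ⟨μ, fun _ => rfl⟩ (fun I v hv => gc.ld I v (by
      obtain ⟨r, hr⟩ := T1A.exists_factor (g.range.val : g.range →+* F) j.injective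
        (by rintro ⟨_, p, rfl⟩; exact ⟨_, hj p⟩)
      exact hv.map_of_injective_injective r (AddMonoidHom.id F)
        (fun a ha => Subtype.ext (by simpa [ha] using (hr a).symm)) (fun _ h => h)
        fun a m => congrArg (· * m) (hr a))) fun W hW hW' => by
    have h := hS.a1.nice.toFine.top
    rw [gc.eq] at h
    obtain ⟨i, hi, -, -, h⟩ := h
    have h5 : cht Ω (fun _ : Unit => μ '' H) i ≤ (W.toIntermediateField hW).toSubalgebra := by
      refine Algebra.adjoin_le (Set.iUnion_subset fun u => ?_)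
      rintro _ ⟨_, ⟨a, -, rfl⟩, rfl⟩
      obtain ⟨b, -, hb⟩ := hi u
      exact W.div_mem (hW' a) (hb ▸ hW' b)
    refine eq_top_iff.2 fun f _ => ?_
    obtain ⟨a, ha, b, hb, -, rfl⟩ := h f trivial
    exact W.div_mem (h5 ha) (h5 hb)
  have e : ⇑β.μ = ⇑μ := by rw [hβ]; rfl
  have : CharZero F := charZero_of_injective_algebraMap (algebraMap L F).injective
  have : Algebra.IsAlgebraic L Ω := ⟨fun a => by
    obtain ⟨r, hr⟩ := T1A.exists_factor ((g.range.map μ).val : g.range.map μ →+* E)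
      (algebraMap L E).injective (by
        rintro ⟨_, _, ⟨p, rfl⟩, rfl⟩; exact ⟨algebraMap M[X] L p, congrArg μ (hj p)⟩)
    exact (isAlgebraic_algebraMap_iff (algebraMap Ω E).injective).1
      ((halg a).ringHom_of_comp_eq r (RingHom.id E)
        (fun a b h => Subtype.ext ((hr a).symm.trans ((congrArg _ h).trans (hr b))))
        (RingHom.ext hr))⟩
  have : IsAlgClosure L Ω := ⟨inferInstance, inferInstance⟩
  rw [← e] at htr ⊢
  exact T1A.geo h1 h2 h3 (tsen (K := M)) β hS (e ▸ gc.eq) htr hc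

end Pool.Agent.MP_e8e0b6_ag.R2
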