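import Pool.Agent.MP_e8e0b6_ag.R2.SpecT

/-!
Two systems with the same class differ by a function.
-/

set_option autoImplicit false

open Polynomial

namespace Pool.Agent.MP_e8e0b6_ag.R2

open Pool.Agent.MP_79c67d_ag Pool.Agent.MP_20d318_ag Pool.Agent.MP_20d318_ag.AG
  Pool.Agent.MP_20d318_ag.BV Pool.Agent.MP_20d318_ag.CB

namespace T2A

variable {k F Ω E J : Type} [Field k] [Field F] [Field Ω] [Field E] [Algebra k F]
  [Algebra k E] [Algebra Ω E] [Fintype J] {D : Subalgebra k F} {H : Set F} {μ : F →ₐ[k] E}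
  {S' : Sd Ω E J} {V V' : Set F} {c : J → ℤ}

theorem up {O : Subalgebra k F} {O' : Subalgebra Ω E} (h : ∀ a ∈ O, μ a ∈ O') {a : F}
    (ha : Gn V O a) : Gn (μ '' V) O' (μ a) := by
  obtain ⟨b, hb, hu⟩ := ha.2
  refine ⟨?_, μ b, ⟨b, hb, rfl⟩, ?_⟩
  · rintro _ ⟨d, hd, rfl⟩
    rw [← map_div₀]
    exact h _ (ha.1 d hd)
  · rw [← map_div₀]
    exact ⟨(map_ne_zero μ).2 hu.ne, h _ hu.mem, by rw [← map_inv₀]; exact h _ hu.inv_mem⟩

theorem dt {X : Set (Subalgebra k F)} (h : Sys X V) (h' : Sys X V') :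
    Dt X fun O => gn V O / gn V' O :=
  ⟨V', V, h', h, fun O hO => ⟨_, _, gn_spec (h'.2 O hO), gn_spec (h.2 O hO), by
    rw [div_mul_cancel₀ _ (gn_spec (h'.2 O hO)).ne, div_self (gn_spec (h.2 O hO)).ne]
    exact isU_one⟩⟩

theorem sec (h1 : S1Stmt) (fm : Fm D H) (gc : Gc D H μ S') (h : Sys (XX D H) V)
    (h' : Sys (XX D H) V') (hc : Cl S' (μ '' V) c) (hc' : Cl S' (μ '' V') c) :
    ∃ z ∈ Sc (XX D H) fun O => gn V O / gn V' O, z ≠ 0 := by
  obtain ⟨φ, h0, hφ⟩ := hc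
  obtain ⟨φ', h0', hφ'⟩ := hc'
  have key := h1 k F Ω E J D H μ S' _ fm gc (dt h h') (φ' / φ) fun O' hO' O hO hle => by
    have a1 := (up hle (gn_spec (h.2 O hO))).div_mem (hφ O' hO').1
    have a2 := (hφ' O' hO').div_mem (up hle (gn_spec (h'.2 O hO))).1
    have := inv_ne_zero (right_ne_zero_of_mul (hφ O' hO').ne)
    rw [inv_inv] at this
    convert O'.mul_mem a1 a2 using 1
    rw [map_div₀]
    field_simp
  by_contra hn
  refine div_ne_zero h0' h0 ((Submodule.mem_bot Ω).1 (Submodule.span_le.2 ?_ key))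
  rintro _ ⟨z, hz, rfl⟩
  rw [show z = 0 from by_contra fun h => hn ⟨z, hz, h⟩, map_zero]
  exact zero_mem _

end T2A

theorem t2_stmt (h1 : S1Stmt) (h2 : RegStmt) (h3 : TrivStmt) : T2Stmt := by
  intro k F Ω E J _ _ _ _ _ _ _ _ D H μ S' V V' c fm gc al pid h h' hc hc'
  obtain ⟨z, hz, z0⟩ := T2A.sec h1 fm gc h h' hc hc'
  obtain ⟨z', hz', z0'⟩ := T2A.sec h1 fm gc h' h hc' hc
  obtain ⟨φ, hφ⟩ := h3 k F D H _ z (z * z') fm pid (T2A.dt h h') hz z0
    (h2 k F Ω E J D H μ S' fm gc al _ fun O hO => by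
      have := (gn_spec (h.2 O hO)).ne
      have := (gn_spec (h'.2 O hO)).ne
      convert O.mul_mem (hz O hO) (hz' O hO) using 1
      field_simp) (mul_ne_zero z0 z0') fun O hO => by
      convert hz' O hO using 1
      field_simp
  refine ⟨φ, fun O hO a ha => (gn_spec (h'.2 O hO)).of_unit ?_⟩
  have := (gn_spec (h.2 O hO)).ne
  convert (hφ O hO).mul (ha.unit (gn_spec (h.2 O hO))) using 1
  field_simp

end Pool.Agent.MP_e8e0b6_ag.R2
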