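import Pool.Agent.MP_e8e0b6_ag.R2.SpecT

/-!
Descent of a system along a finite group with a fixed point.
-/

set_option autoImplicit false

open Polynomial

namespace Pool.Agent.MP_e8e0b6_ag.R2

open Pool.Agent.MP_79c67d_ag Pool.Agent.MP_20d318_ag Pool.Agent.MP_20d318_ag.AG
  Pool.Agent.MP_20d318_ag.BV Pool.Agent.MP_20d318_ag.CB

namespace T3A

variable {k F G : Type} [Field k] [Field F] [Algebra k F] [Group G] {a : G →* (F ≃ₐ[k] F)}
  {D O O₀ : Subalgebra k F} {H V : Set F} {X : Set (Subalgebra k F)}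

theorem le_of (h : O ∈ XX D H) : D ≤ O := le_sup_left.trans h.choose_spec.2.2.1

theorem a_mul (g h : G) (z : F) : a (g * h) z = a g (a h z) := by rw [map_mul]; rfl

theorem perm (hD : ∀ g, ∀ d ∈ D, a g d ∈ D) (hH : ∀ g, ∀ z ∈ H, a g z = z) (g : G)
    (h : O ∈ XX D H) : O.comap (a g : F →ₐ[k] F) ∈ XX D H := by
  obtain ⟨j, hj, h1, h2, h3⟩ := h
  have st : ∀ g, ch D H j ≤ (ch D H j).comap (a g : F →ₐ[k] F) := fun g => by
    refine sup_le (fun d hd => (le_sup_left : D ≤ ch D H j) (hD g d hd)) (Algebra.adjoin_le ?_)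
    rintro _ ⟨z, hz, rfl⟩
    show a g (z / j) ∈ ch D H j
    rw [map_div₀, hH g z hz, hH g j hj]
    exact (le_sup_right : _ ≤ ch D H j) (Algebra.subset_adjoin ⟨z, hz, rfl⟩)
  have iv : ∀ z, a g (a g⁻¹ z) = z := fun z => by rw [← a_mul, mul_inv_cancel, map_one]; rfl
  refine ⟨j, hj, isLocalRing_comap _ h1, fun z hz => h2 (st g hz), fun f hf => ?_⟩
  obtain ⟨p, hp, q, hq, hu, e⟩ := h3 _ hf
  refine ⟨a g⁻¹ p, st _ hp, a g⁻¹ q, st _ hq, (isU_comap _).2 ((iv q).symm ▸ hu), (a g).injective ?_⟩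
  rw [map_div₀, iv, iv]
  exact e

theorem up {Ω E : Type} [Field Ω] [Field E] [Algebra k E] [Algebra Ω E] (μ : F →ₐ[k] E)
    {O' : Subalgebra Ω E} (hle : ∀ z ∈ O, μ z ∈ O') {b : F} (h : Gn V O b) :
    Gn (μ '' V) O' (μ b) := by
  obtain ⟨z, hz, hu⟩ := h.2
  refine ⟨?_, μ z, ⟨z, hz, rfl⟩, ?_⟩
  · rintro _ ⟨w, hw, rfl⟩
    rw [← map_div₀]
    exact hle _ (h.1 w hw)
  · rw [← map_div₀]
    exact ⟨(_root_.map_ne_zero _).2 hu.ne, hle _ hu.mem, map_inv₀ μ _ ▸ hle _ hu.inv_mem⟩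

/-- `φ` carries generators of `V` to generators of the translate of `V`. -/
def Ca (a : G →* (F ≃ₐ[k] F)) (X : Set (Subalgebra k F)) (V : Set F) (g : G) (φ : F) : Prop :=
  ∀ O ∈ X, ∀ b, Gn V O b → Gn (a g '' V) O (φ * b)

theorem tr (g : G) {b : F} (h : Gn V (O.comap (a g : F →ₐ[k] F)) b) : Gn (a g '' V) O (a g b) :=
  (gn_map (a g : F →ₐ[k] F)).2 h

theorem Ca.mul (hp : ∀ g, ∀ O ∈ X, O.comap (a g : F →ₐ[k] F) ∈ X) (hV : Sys X V) {g h : G}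
    {φ ψ : F} (h1 : Ca a X V g φ) (h2 : Ca a X V h ψ) : Ca a X V (g * h) (φ * a g ψ) := by
  intro O hO b hb
  obtain ⟨b', hb'⟩ := hV.2 _ (hp g O hO)
  have h3 := tr g (h2 _ (hp g O hO) b' hb')
  have h4 := (h1 O hO b hb).unit (tr g hb')
  have h5 := h3.ne
  rw [map_mul] at h3 h5
  rw [show a (g * h) '' V = a g '' (a h '' V) by
    rw [Set.image_image]; exact Set.image_congr fun z _ => a_mul g h z]
  refine h3.of_unit ?_
  rwa [mul_comm φ, mul_assoc, mul_div_mul_left _ _ (left_ne_zero_of_mul h5)]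

/-- A normalised family of multipliers is a cocycle. -/
theorem cocycle (hp : ∀ g, ∀ O ∈ X, O.comap (a g : F →ₐ[k] F) ∈ X) (hV : Sys X V)
    (hD : ∀ O ∈ X, D ≤ O) (hR : ∀ m, (∀ O ∈ X, m ∈ O) → m ∈ D) (h0 : O₀ ∈ X) (ev : O₀ →+* F)
    (e1 : ∀ z, ev z ∈ D) (e2 : ∀ z : O₀, IsU D z → ev z = z)
    (e3 : ∀ g (z : O₀), ∃ h : a g z ∈ O₀, ev ⟨_, h⟩ = a g (ev z))
    (hφ : ∀ g, ∃ φ, Ca a X V g φ) :
    ∃ φ : G → F, (∀ g, φ g ≠ 0 ∧ Ca a X V g (φ g)) ∧ ∀ g h, φ (g * h) = φ g * a g (φ h) := by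
  obtain ⟨b₀, hb₀⟩ := hV.2 _ h0
  have b0 := hb₀.ne
  have ne : ∀ {g φ}, Ca a X V g φ → φ ≠ 0 := fun h => left_ne_zero_of_mul (h _ h0 _ hb₀).ne
  have un : ∀ {g φ}, Ca a X V g φ → IsU O₀ (a g b₀ / (φ * b₀)) := fun {g φ} h =>
    (tr g (hb₀.mono fun z hz => (e3 g ⟨z, hz⟩).1)).unit (h _ h0 _ hb₀)
  have nm : ∀ g, ∃ φ, Ca a X V g φ ∧ ∃ r : O₀, (r : F) = a g b₀ / (φ * b₀) ∧ ev r = 1 := fun g => by
    obtain ⟨φ, h⟩ := hφ g
    have hr := un h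
    have hm : ev ⟨_, hr.mem⟩ * ev ⟨_, hr.inv_mem⟩ = 1 := by
      rw [← map_mul, ← map_one ev]
      exact congrArg ev (Subtype.ext (mul_inv_cancel₀ hr.ne))
    have hs : IsU D (ev ⟨_, hr.mem⟩) :=
      ⟨left_ne_zero_of_mul_eq_one hm, e1 _, eq_inv_of_mul_eq_one_right hm ▸ e1 _⟩
    refine ⟨φ * ev ⟨_, hr.mem⟩, fun O hO b hb => (h O hO b hb).of_unit ?_,
      ⟨_, hr.mem⟩ * ⟨_, hD _ h0 hs.inv_mem⟩, ?_, ?_⟩
    · rw [mul_right_comm, mul_div_cancel_left₀ _ (h O hO b hb).ne]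
      exact hs.mono (hD O hO)
    · refine (div_eq_mul_inv _ _).symm.trans ?_
      rw [div_div, mul_right_comm]
    · rw [map_mul, e2 ⟨_, hD _ h0 hs.inv_mem⟩ hs.inv]
      exact mul_inv_cancel₀ hs.ne
  choose φ c1 r c2 c3 using nm
  refine ⟨φ, fun g => ⟨ne (c1 g), c1 g⟩, fun g h => ?_⟩
  have c4 := (c1 g).mul hp hV (c1 h)
  have hu : ∀ O ∈ X, IsU O (φ g * a g (φ h) / φ (g * h)) := fun O hO => by
    obtain ⟨b, hb⟩ := hV.2 O hO
    have := (c4 O hO b hb).unit (c1 _ O hO b hb)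
    rwa [mul_div_mul_right _ _ hb.ne] at this
  have hm : IsU D (φ g * a g (φ h) / φ (g * h)) :=
    ⟨(hu _ h0).ne, hR _ fun O hO => (hu O hO).mem, hR _ fun O hO => (hu O hO).inv_mem⟩
  obtain ⟨m1, m2⟩ := e3 g (r h)
  have e : r (g * h) = ⟨_, m1⟩ * r g * ⟨_, (hu _ h0).mem⟩ := by
    refine Subtype.ext ?_
    show (r (g * h) : F) = a g (r h) * r g * (φ g * a g (φ h) / φ (g * h))
    have n1 := ne (c1 g)
    have n2 : a g (φ h) ≠ 0 := (_root_.map_ne_zero _).2 (ne (c1 h))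
    have n3 : a g b₀ ≠ 0 := (_root_.map_ne_zero _).2 b0
    have n4 := ne (c1 (g * h))
    rw [c2, c2, c2, a_mul, map_div₀, map_mul]
    field_simp
  have := c3 (g * h)
  rw [e, map_mul, map_mul, m2, c3, c3, map_one, one_mul, one_mul, e2 _ hm] at this
  exact ((div_eq_one_iff_eq (ne (c1 _))).1 this).symm

variable [Fintype G] [DecidableEq G]

/-- Hilbert 90. -/
theorem h90 {n : ℕ} {u v : Fin n → F} (huv : ∀ g, ∑ i, u i * a g (v i) = if g = 1 then 1 else 0)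
    {φ : G → F} (h1 : φ 1 ≠ 0) (hc : ∀ g h, φ (g * h) = φ g * a g (φ h)) :
    ∃ ψ : F, ψ ≠ 0 ∧ ∀ g, φ g * a g ψ = ψ := by
  have e : ∑ i, u i * ∑ h, φ h * a h (v i) = φ 1 := by
    simp only [Finset.mul_sum]
    rw [Finset.sum_comm]
    simp only [mul_left_comm (u _), ← Finset.mul_sum, huv]
    simp
  obtain ⟨i, -, hi⟩ := Finset.exists_ne_zero_of_sum_ne_zero (e ▸ h1)
  refine ⟨_, right_ne_zero_of_mul hi, fun g => ?_⟩
  rw [map_sum, Finset.mul_sum, ← Equiv.sum_comp (Equiv.mulLeft g) fun h => φ h * a h (v i)]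
  refine Finset.sum_congr rfl fun h _ => ?_
  rw [Equiv.coe_mulLeft, hc, a_mul, map_mul, mul_assoc]

end T3A

open T3A in
theorem t3_stmt (h1 : T2Stmt) (h2 : RegStmt) (h3 : CtrStmt) : T3Stmt := by
  intro k F Ω E G J _ _ _ _ _ _ _ _ _ _ _ a D H μ S' O₀ ev n u v fm gc all pid hD hH huv hs h0 e1 e2
    e3 V c hV hc
  have hp := fun g O => perm (O := O) hD hH g
  have hc1 : Cl S' (μ '' V) c := by simpa using hc 1
  obtain ⟨φ, c1, c2⟩ := cocycle hp hV (fun _ => le_of) (h2 k F Ω E J D H μ S' fm gc all) h0 ev e1 e2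
    e3 fun g => h1 k F Ω E J D H μ S' V (a g '' V) c fm gc all pid hV
      ⟨hV.1.image _, fun O hO => (hV.2 _ (hp g O hO)).elim fun _ hb => ⟨_, tr g hb⟩⟩ hc1 (hc g)
  obtain ⟨ψ, p0, p1⟩ := h90 hs (c1 1).1 c2
  let T : Fin n → F → F := fun i w => ∑ g, a g (v i * (ψ * w))
  have hU : ∀ O ∈ XX D H, ∀ b, Gn V O b → Gn (Set.image2 T Set.univ V) O (ψ * b) := by
    intro O hO b hb
    refine (hb.smul p0).of_span hO.choose_spec.2.1 ?_ ?_
    · rintro _ ⟨i, -, w, hw, rfl⟩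
      simp only [T, Finset.sum_div]
      refine sum_mem fun g _ => ?_
      have n1 : a g ψ ≠ 0 := (_root_.map_ne_zero _).2 p0
      have e : a g (v i * (ψ * w)) / (ψ * b) = a g (v i) * (a g w / (φ g * b)) := by
        rw [map_mul, map_mul, mul_div_assoc, ← mul_div_mul_left (a g w) _ n1, ← mul_assoc (a g ψ),
          mul_comm (a g ψ) (φ g), p1]
      rw [e]
      exact O.mul_mem (le_of hO (hD g _ (huv i).2)) (((c1 g).2 O hO b hb).1 _ ⟨w, hw, rfl⟩)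
    · rintro _ ⟨w, hw, rfl⟩
      have e : ψ * w = ∑ i, u i * T i w := by
        simp only [T, Finset.mul_sum]
        rw [Finset.sum_comm]
        simp only [map_mul (a _) (v _), ← mul_assoc (u _), ← Finset.sum_mul, hs]
        simp
      show ψ * w ∈ _
      rw [e]
      exact sum_mem fun i _ => Submodule.smul_mem _ (⟨u i, le_of hO (huv i).1⟩ : O)
        (Submodule.subset_span ⟨i, trivial, w, hw, rfl⟩)
  obtain ⟨χ, x0, x1⟩ := hc1
  refine ⟨Set.image2 T Set.univ V, Set.finite_univ.image2 _ hV.1, ?_, μ ψ * χ,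
    mul_ne_zero ((_root_.map_ne_zero _).2 p0) x0, fun O' hO' => ?_⟩
  · rintro _ ⟨i, -, w, -, rfl⟩ g
    simp only [T]
    rw [map_sum, ← Equiv.sum_comp (Equiv.mulLeft g) fun h => a h (v i * (ψ * w))]
    exact Finset.sum_congr rfl fun h _ => (a_mul g h _).symm
  · obtain ⟨O, hO, hle⟩ := h3 k F Ω E D H μ gc.base O' (gc.eq ▸ hO')
    obtain ⟨b, hb⟩ := hV.2 O hO
    refine (up μ hle (hU O hO b hb)).of_unit ?_
    rw [map_mul, mul_assoc, mul_div_mul_left _ _ ((_root_.map_ne_zero _).2 p0)]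
    exact (x1 O' hO').unit (up μ hle hb)

end Pool.Agent.MP_e8e0b6_ag.R2
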