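import Pool.Agent.MP_e8e0b6_ag.R2.SpecT

/-! Row T4B: finitely many constants are enough. -/

set_option autoImplicit false

open Polynomial

namespace Pool.Agent.MP_e8e0b6_ag.R2

theorem t4b_stmt (h1 : RatGenStmt) : T4bStmt := by
  classical
  intro k A M F F₁ Ω E J _ _ _ _ _ _ _ _ _ _ _ _ _ _ _ _ g H μ S' e g₁ ν₁ μ₁ hT hL hR
  let Z : Set M → Subfield E := fun Λ =>
    Subfield.closure ((fun a => algebraMap Ω E (e a)) '' Λ ∪ Set.range μ)
  have mono : ∀ {Λ Λ'}, Λ ⊆ Λ' → Z Λ ≤ Z Λ' := fun h =>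
    Subfield.closure_mono (Set.union_subset_union_left _ (Set.image_mono h))
  have rg : ∀ Λ f, μ f ∈ Z Λ := fun Λ f => Subfield.subset_closure (.inr ⟨f, rfl⟩)
  let W₀ : Subfield F₁ :=
    { carrier := {z | ∃ Λ : Set M, Λ.Finite ∧ μ₁ z ∈ Z Λ}
      mul_mem' := fun ⟨Λ, a, b⟩ ⟨Λ', a', b'⟩ => ⟨Λ ∪ Λ', a.union a', by
        rw [map_mul]
        exact mul_mem (mono Set.subset_union_left b) (mono Set.subset_union_right b')⟩
      one_mem' := ⟨∅, Set.finite_empty, by rw [map_one]; exact one_mem _⟩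
      add_mem' := fun ⟨Λ, a, b⟩ ⟨Λ', a', b'⟩ => ⟨Λ ∪ Λ', a.union a', by
        rw [map_add]
        exact add_mem (mono Set.subset_union_left b) (mono Set.subset_union_right b')⟩
      zero_mem' := ⟨∅, Set.finite_empty, by rw [map_zero]; exact zero_mem _⟩
      neg_mem' := fun ⟨Λ, a, b⟩ => ⟨Λ, a, by rw [map_neg]; exact neg_mem b⟩
      inv_mem' := fun _ ⟨Λ, a, b⟩ => ⟨Λ, a, by rw [map_inv₀]; exact inv_mem b⟩ }
  have nu : ∀ f, ν₁ f ∈ W₀ := fun f => ⟨∅, Set.finite_empty, by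
    rw [show μ₁ (ν₁ f) = μ f from DFunLike.congr_fun hL.mu f]
    exact rg _ f⟩
  let W : IntermediateField k F₁ := W₀.toIntermediateField fun c => by
    rw [← ν₁.commutes]
    exact nu _
  have le : ch g₁.range (ν₁ '' H) (ν₁ 1) ≤ W.toSubalgebra := by
    refine sup_le ?_ (Algebra.adjoin_le ?_)
    · rintro _ ⟨p, rfl⟩
      change g₁ p ∈ W₀
      induction p using Polynomial.induction_on with
      | C a => exact ⟨{a}, Set.finite_singleton a, by
          rw [hL.con]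
          exact Subfield.subset_closure (.inl ⟨a, rfl, rfl⟩)⟩
      | add p q hp hq => rw [map_add]; exact add_mem hp hq
      | monomial n a ih =>
        rw [pow_succ, ← mul_assoc, map_mul]
        refine mul_mem ih ?_
        rw [← map_X (algebraMap A M), hL.cmp]
        exact nu _
    · rintro _ ⟨_, ⟨a, -, rfl⟩, rfl⟩
      exact W₀.div_mem (nu a) (nu 1)
  have all : ∀ z, ∃ Λ : Set M, Λ.Finite ∧ μ₁ z ∈ Z Λ := fun z => by
    obtain ⟨a, ha, b, hb, -, rfl⟩ := hL.frac 1 hT.one z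
    exact W₀.div_mem (le ha) (le hb)
  choose Λ hΛ hZ using all
  choose U V c₁ c₂ hU hV k1 k2 k3 using fun i : J => hR (Pi.single i 1)
  refine ⟨⋃ i, ⋃ z ∈ U i ∪ V i, Λ z, Set.finite_iUnion fun i =>
    ((hU i).union (hV i)).biUnion fun z _ => hΛ z, ?_⟩
  intro L F₀ _ _ _ _ _ e' g₀ ν μ₀ he hL₀
  have key : ∀ i, ∀ z ∈ U i ∪ V i, μ₁ z ∈ Set.range μ₀ := fun i z hz => by
    have : Z (Λ z) ≤ (μ₀ : F₀ →+* E).fieldRange := by
      refine Subfield.closure_le.2 ?_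
      rintro _ (⟨a, ha, rfl⟩ | ⟨f, rfl⟩)
      · obtain ⟨a', h⟩ := he a (Set.mem_iUnion.2 ⟨i, Set.mem_biUnion hz ha⟩)
        exact ⟨g₀ (C a'), (hL₀.con a').trans (by rw [h])⟩
      · exact ⟨ν f, DFunLike.congr_fun hL₀.mu f⟩
    exact this (hZ z)
  have fin : ∀ {X : Set F₁}, X.Finite → (μ₀ ⁻¹' (μ₁ '' X)).Finite := fun h =>
    (h.image _).preimage (μ₀ : F₀ →+* E).injective.injOn
  refine h1 k F₀ Ω E J μ₀ S' hT.all fun i => ⟨μ₀ ⁻¹' (μ₁ '' U i), μ₀ ⁻¹' (μ₁ '' V i), c₁ i, c₂ i,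
    fin (hU i), fin (hV i), ?_, ?_, k3 i⟩
  · rw [Set.image_preimage_eq_of_subset (by rintro _ ⟨z, hz, rfl⟩; exact key i z (.inl hz))]
    exact k1 i
  · rw [Set.image_preimage_eq_of_subset (by rintro _ ⟨z, hz, rfl⟩; exact key i z (.inr hz))]
    exact k2 i

end Pool.Agent.MP_e8e0b6_ag.R2
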