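import Pool.Agent.MP_e8e0b6_ag.R2.SpecT

/-!
The family over `L[X]` for a finite extension `L`.
-/

set_option autoImplicit false

open Polynomial

namespace Pool.Agent.MP_e8e0b6_ag.R2

open Pool.Agent.MP_79c67d_ag Pool.Agent.MP_20d318_ag Pool.Agent.MP_20d318_ag.AG
  Pool.Agent.MP_20d318_ag.BV Pool.Agent.MP_20d318_ag.CB

namespace T4cA

variable {k F : Type} [Field k] [Field F] [Algebra k F]

/-- The quotients `a / b` with `a` in `R` and `b` in a multiplicative part of `R`. -/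
def quo (R : Subalgebra k F) (P : F → Prop) (h0 : ∀ b, P b → b ≠ 0) (hR : ∀ b, P b → b ∈ R)
    (h1 : P 1) (hm : ∀ b c, P b → P c → P (b * c)) : Subalgebra k F where
  carrier := {f | ∃ a ∈ R, ∃ b, P b ∧ f = a / b}
  mul_mem' := by
    rintro _ _ ⟨a, ha, b, hb, rfl⟩ ⟨c, hc, d, hd, rfl⟩
    exact ⟨a * c, R.mul_mem ha hc, b * d, hm b d hb hd, div_mul_div_comm a b c d⟩
  add_mem' := by
    rintro _ _ ⟨a, ha, b, hb, rfl⟩ ⟨c, hc, d, hd, rfl⟩
    exact ⟨a * d + b * c, R.add_mem (R.mul_mem ha (hR d hd)) (R.mul_mem (hR b hb) hc), b * d,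
      hm b d hb hd, div_add_div a c (h0 b hb) (h0 d hd)⟩
  algebraMap_mem' r := ⟨algebraMap k F r, R.algebraMap_mem r, 1, h1, (div_one _).symm⟩

/-- All quotients of elements of `R`. -/
def quo0 (R : Subalgebra k F) : Subalgebra k F :=
  quo R (fun b => b ∈ R ∧ b ≠ 0) (fun _ h => h.2) (fun _ h => h.1) ⟨R.one_mem, one_ne_zero⟩
    fun _ _ hb hc => ⟨R.mul_mem hb.1 hc.1, mul_ne_zero hb.2 hc.2⟩

theorem mem_quo0 {R : Subalgebra k F} {f : F} :
    f ∈ quo0 R ↔ ∃ a ∈ R, ∃ b, (b ∈ R ∧ b ≠ 0) ∧ f = a / b := Iff.rfl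

theorem le_quo0 (R : Subalgebra k F) : R ≤ quo0 R := fun a ha =>
  mem_quo0.2 ⟨a, ha, 1, ⟨R.one_mem, one_ne_zero⟩, (div_one a).symm⟩

theorem frac_of_le {R D : Subalgebra k F} (h : D ≤ quo0 R) (hD : Frac D) : Frac R := by
  intro f
  obtain ⟨a, ha, b, hb, hb0, rfl⟩ := hD f
  obtain ⟨a1, ha1, a2, ⟨ha2, ha0⟩, rfl⟩ := mem_quo0.1 (h ha)
  obtain ⟨b1, hb1, b2, ⟨hb2, hb20⟩, rfl⟩ := mem_quo0.1 (h hb)
  have hb10 : b1 ≠ 0 := fun h0 => hb0 (by rw [h0, zero_div])
  refine ⟨a1 * b2, R.mul_mem ha1 hb2, a2 * b1, R.mul_mem ha2 hb1, mul_ne_zero ha0 hb10, ?_⟩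
  field_simp

theorem frac_ch {C D : Subalgebra k F} (h : Lz C D) (H : Set F) (j : F) (hD : Frac (ch D H j)) :
    Frac (ch C H j) := by
  refine frac_of_le (sup_le ?_ (le_sup_right.trans (le_quo0 (ch C H j)))) hD
  intro f hf
  obtain ⟨a, ha, b, hb, hu, rfl⟩ := h.2 f hf
  have hC : C ≤ ch C H j := le_sup_left
  exact mem_quo0.2 ⟨a, hC ha, b, ⟨hC hb, hu.1⟩, rfl⟩

/-- A finite extension of the fraction field of a finitely generated ring. -/
theorem exists_gen {A K L : Type} [CommRing A] [Field K] [Field L] [Algebra k A] [Algebra k L]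
    [Algebra A L] [IsScalarTower k A L] [Algebra A K] [IsFractionRing A K] [Algebra K L]
    [IsScalarTower A K L] [FiniteDimensional K L] [Algebra.FiniteType k A] :
    ∃ G : Set L, G.Finite ∧ Frac (Algebra.adjoin k G) ∧
      ∀ a, algebraMap A L a ∈ Algebra.adjoin k G := by
  obtain ⟨s, hs⟩ := (Algebra.FiniteType.out : (⊤ : Subalgebra k A).FG)
  obtain ⟨t, ht⟩ := (Module.Finite.fg_top : (⊤ : Submodule K L).FG)
  have hA : ∀ a, algebraMap A L a ∈ Algebra.adjoin k (algebraMap A L '' s ∪ (t : Set L)) := by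
    intro a
    have ha : a ∈ Algebra.adjoin k (s : Set A) := by rw [hs]; trivial
    have h2 : (Algebra.adjoin k (s : Set A)).map (IsScalarTower.toAlgHom k A L) ≤
        Algebra.adjoin k (algebraMap A L '' s ∪ (t : Set L)) := by
      rw [AlgHom.map_adjoin]
      exact Algebra.adjoin_mono Set.subset_union_left
    exact h2 ⟨a, ha, rfl⟩
  refine ⟨algebraMap A L '' s ∪ t, (s.finite_toSet.image _).union t.finite_toSet, ?_, hA⟩
  intro f
  have hf : f ∈ Submodule.span K (t : Set L) := by rw [ht]; trivial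
  have : f ∈ quo0 (Algebra.adjoin k (algebraMap A L '' s ∪ (t : Set L))) := by
    induction hf using Submodule.span_induction with
    | mem x hx => exact le_quo0 _ (Algebra.subset_adjoin (Or.inr hx))
    | zero => exact Subalgebra.zero_mem _
    | add x y _ _ hx hy => exact Subalgebra.add_mem _ hx hy
    | smul c x _ hx =>
      rw [Algebra.smul_def]
      refine Subalgebra.mul_mem _ ?_ hx
      obtain ⟨a, b, hb, rfl⟩ := IsFractionRing.div_surjective A c
      refine mem_quo0.2 ⟨_, hA a, _, ⟨hA b, ?_⟩, ?_⟩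
      · rw [IsScalarTower.algebraMap_apply A K L, _root_.map_ne_zero]
        exact (IsLocalization.map_units K (⟨b, hb⟩ : nonZeroDivisors A)).ne_zero
      · rw [map_div₀, ← IsScalarTower.algebraMap_apply, ← IsScalarTower.algebraMap_apply]
  obtain ⟨a, ha, b, hb, e⟩ := mem_quo0.1 this
  exact ⟨a, ha, b, hb.1, hb.2, e⟩

section

variable {L : Type} [Field L] [Algebra k L]

theorem smooth_range (B : Subalgebra k L) (hB : Algebra.Smooth k B) (g₀ : L[X] →ₐ[k] F)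
    (hg : Function.Injective g₀) : Algebra.Smooth k (g₀.comp (mapAlgHom B.val)).range := by
  have : Algebra.Smooth B B[X] := {}
  have : Algebra.Smooth k B[X] := Algebra.Smooth.comp k B B[X]
  refine Algebra.Smooth.of_equiv (AlgEquiv.ofInjective (g₀.comp (mapAlgHom B.val)) ?_)
  exact hg.comp (Polynomial.map_injective _ Subtype.val_injective)

theorem mem_C (B : Subalgebra k L) (g₀ : L[X] →ₐ[k] F) {a : L} (ha : a ∈ B) :
    g₀ (C a) ∈ (g₀.comp (mapAlgHom B.val)).range :=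
  ⟨C ⟨a, ha⟩, by simp⟩

theorem mem_X (B : Subalgebra k L) (g₀ : L[X] →ₐ[k] F) :
    g₀ X ∈ (g₀.comp (mapAlgHom B.val)).range :=
  ⟨X, by simp⟩

theorem isU_C (g₀ : L[X] →ₐ[k] F) {a : L} (ha : a ≠ 0) : IsU g₀.range (g₀ (C a)) := by
  have h : g₀ (C a) * g₀ (C a⁻¹) = 1 := by
    rw [← map_mul, ← C_mul, mul_inv_cancel₀ ha, C_1, map_one]
  refine ⟨left_ne_zero_of_mul_eq_one h, ⟨_, rfl⟩, C a⁻¹, ?_⟩
  exact eq_inv_of_mul_eq_one_right h

theorem lz_range (B : Subalgebra k L) (hB : Frac B) (g₀ : L[X] →ₐ[k] F) :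
    Lz (g₀.comp (mapAlgHom B.val)).range g₀.range := by
  refine ⟨?_, ?_⟩
  · rintro _ ⟨p, rfl⟩
    exact ⟨_, rfl⟩
  · rintro _ ⟨p, rfl⟩
    let Q := quo (g₀.comp (mapAlgHom B.val)).range
      (fun b => b ∈ (g₀.comp (mapAlgHom B.val)).range ∧ IsU g₀.range b) (fun _ h => h.2.1)
      (fun _ h => h.1) ⟨Subalgebra.one_mem _, one_ne_zero, Subalgebra.one_mem _, by
        rw [inv_one]; exact Subalgebra.one_mem _⟩
      fun b c hb hc => ⟨Subalgebra.mul_mem _ hb.1 hc.1, mul_ne_zero hb.2.1 hc.2.1,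
        Subalgebra.mul_mem _ hb.2.2.1 hc.2.2.1, by
          rw [mul_inv]; exact Subalgebra.mul_mem _ hb.2.2.2 hc.2.2.2⟩
    have hX : g₀ X ∈ Q := ⟨_, mem_X B g₀, g₀ (C 1), ⟨mem_C B g₀ B.one_mem, isU_C g₀ one_ne_zero⟩,
      by rw [C_1, map_one, div_one]⟩
    have hC : ∀ a, g₀ (C a) ∈ Q := by
      intro a
      obtain ⟨b, hb, c, hc, hc0, rfl⟩ := hB a
      refine ⟨_, mem_C B g₀ hb, g₀ (C c), ⟨mem_C B g₀ hc, isU_C g₀ hc0⟩, ?_⟩
      rw [eq_div_iff (isU_C g₀ hc0).1, ← map_mul, ← C_mul, div_mul_cancel₀ _ hc0]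
    have hp : g₀ p ∈ Q := by
      induction p using Polynomial.induction_on' with
      | add p q hp hq => rw [map_add]; exact Q.add_mem hp hq
      | monomial n a =>
        rw [← C_mul_X_pow_eq_monomial, map_mul, map_pow]
        exact Q.mul_mem (hC a) (Q.pow_mem hX n)
    obtain ⟨a, ha, b, hb, e⟩ := hp
    exact ⟨a, ha, b, hb.1, hb.2, e⟩

end

end T4cA

theorem t4c_stmt (h1 : GsStmt) (h2 : LzStmt) : T4cStmt := by
  intro k A K L F F₀ Ω E J _ _ _ _ _ _ _ _ _ _ _ _ _ _ _ _ _ _ _ _ _ _ _ _ g H μ S' e g₀ ν μ₀ ts lv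
  have := ts.sm
  obtain ⟨G, hG, hF, hA⟩ := T4cA.exists_gen (k := k) (A := A) (K := K) (L := L)
  obtain ⟨B, hB, hsm⟩ := h1 k L G hG hF
  have hBF : Frac B := T4cA.frac_of_le (hB.trans (T4cA.le_quo0 B)) hF
  have hlz := T4cA.lz_range B hBF g₀
  have hmu : ∀ z, μ₀ (ν z) = μ z := fun z => DFunLike.congr_fun lv.mu z
  have hgd := ts.uni F₀ μ₀ (g₀.comp (mapAlgHom B.val)).range (ν '' H) ?_ ?_ ?_
    (T4cA.smooth_range B hsm g₀ lv.inj) ?_
  · exact (h2 k F₀ _ _ (ν '' H) hlz).2.2 hgd.fm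
  · rw [Set.image_image]
    exact Set.image_congr fun z _ => hmu z
  · rintro _ ⟨_, ⟨p, rfl⟩, rfl⟩
    refine ⟨ν (g p), ?_, hmu _⟩
    rw [← lv.cmp]
    induction p using Polynomial.induction_on' with
    | add p q hp hq => rw [Polynomial.map_add, map_add]; exact Subalgebra.add_mem _ hp hq
    | monomial n a =>
      rw [Polynomial.map_monomial, ← C_mul_X_pow_eq_monomial, map_mul, map_pow]
      exact Subalgebra.mul_mem _ (T4cA.mem_C B g₀ (hB (hA a)))
        (Subalgebra.pow_mem _ (T4cA.mem_X B g₀) n)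
  · intro c hc
    obtain ⟨p, rfl⟩ := hlz.1 hc
    have hX : μ₀ (g₀ X) ∈ (algebraMap Ω E).range := by
      have := lv.cmp X
      rw [Polynomial.map_X] at this
      rw [this, hmu]
      exact ts.gc.base _ ⟨X, rfl⟩
    clear hc
    change μ₀ (g₀ p) ∈ (algebraMap Ω E).range
    induction p using Polynomial.induction_on' with
    | add p q hp hq => rw [map_add, map_add]; exact Subring.add_mem _ hp hq
    | monomial n a =>
      rw [← C_mul_X_pow_eq_monomial, map_mul, map_mul, map_pow, map_pow, lv.con]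
      exact Subring.mul_mem _ ⟨_, rfl⟩ (Subring.pow_mem _ hX n)
  · rintro _ ⟨j, hj, rfl⟩
    exact T4cA.frac_ch hlz _ _ (lv.frac j hj)

end Pool.Agent.MP_e8e0b6_ag.R2
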