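import Pool.Agent.MP_e8e0b6_ag.R2.SpecT

/-!
Trivial monodromy passes to a larger field of constants.
-/

set_option autoImplicit false

open Polynomial

namespace Pool.Agent.MP_e8e0b6_ag.R2

open Pool.Agent.MP_79c67d_ag Pool.Agent.MP_20d318_ag Pool.Agent.MP_20d318_ag.AG
  Pool.Agent.MP_20d318_ag.BV Pool.Agent.MP_20d318_ag.CB

namespace TrfA

variable {K M Ω E J : Type} [Field K] [Field M] [Field Ω] [Field E] [Algebra K M] [Algebra Ω E]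
  [Fintype J]

theorem gn_hom {G : Type} [FunLike G M E] [RingHomClass G M E] (f : G) {O : Subalgebra K M}
    {O' : Subalgebra Ω E} (h : ∀ a ∈ O, f a ∈ O') {U : Set M} {a : M} (g : Gn U O a) :
    Gn (f '' U) O' (f a) := by
  refine ⟨?_, ?_⟩
  · rintro _ ⟨u, hu, rfl⟩
    rw [← map_div₀]
    exact h _ (g.1 u hu)
  · obtain ⟨u, hu, v⟩ := g.2
    refine ⟨_, ⟨u, hu, rfl⟩, ?_⟩
    rw [← map_div₀]
    exact ⟨(map_ne_zero f).2 v.ne, h _ v.mem, by rw [← map_inv₀]; exact h _ v.inv_mem⟩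

/-- Two systems of the same class differ by a function. -/
theorem exists_mul {S : Sd Ω E J} {U U' : Set E} {c : J → ℤ} (h : Cl S U c) (h' : Cl S U' c) :
    ∃ χ : E, χ ≠ 0 ∧ ∀ O ∈ S.T, ∀ a, Gn U O a → Gn U' O (χ * a) := by
  obtain ⟨φ, h0, h⟩ := h
  obtain ⟨φ', h0', h'⟩ := h'
  refine ⟨φ' / φ, div_ne_zero h0' h0, fun O hO a g => (h' O hO).of_unit ?_⟩
  convert g.unit (h O hO) using 1
  field_simp

theorem cl_of_mul {S : Sd Ω E J} {U U' : Set E} {c : J → ℤ} (h : Cl S U c) {χ : E} (h0 : χ ≠ 0)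
    (h' : ∀ O ∈ S.T, ∃ a, Gn U O a ∧ Gn U' O (χ * a)) : Cl S U' c := by
  obtain ⟨φ, h1, h⟩ := h
  refine ⟨χ * φ, mul_ne_zero h0 h1, fun O hO => ?_⟩
  obtain ⟨a, g, g'⟩ := h' O hO
  refine g'.of_unit ?_
  rw [mul_assoc, mul_div_mul_left _ _ h0]
  exact (h O hO).unit g

/-- The class `c` is invariant. -/
def Inv (S : Sd Ω E J) (τ : E ≃+* E) (c : J → ℤ) : Prop := ∃ ρ : E, ρ ≠ 0 ∧ ∀ O ∈ S.T, ∀ O' ∈ S.T,
  (∀ a ∈ O', τ a ∈ O) → IsU O (ρ * τ (S.lb c O') / S.lb c O)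

variable {S : Sd Ω E J} {τ : E ≃+* E} {U : Set E} {c c' : J → ℤ}

theorem inv_of (h : Cl S U c) (h' : Cl S (τ '' U) c) : Inv S τ c := by
  obtain ⟨φ, h0, h⟩ := h
  obtain ⟨φ', h0', h'⟩ := h'
  have h1 : τ φ ≠ 0 := (map_ne_zero τ).2 h0
  refine ⟨φ' / τ φ, div_ne_zero h0' h1, fun O hO O' hO' m => ?_⟩
  convert (h' O hO).unit (gn_hom τ m (h O' hO')) using 1
  rw [map_mul, map_inv₀]
  field_simp

theorem Inv.sub (hS : SAll S) (h : Inv S τ c) (h' : Inv S τ c') : Inv S τ (c - c') := by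
  obtain ⟨ρ, h0, h⟩ := h
  obtain ⟨ρ', h0', h'⟩ := h'
  refine ⟨ρ / ρ', div_ne_zero h0 h0', fun O hO O' hO' m => ?_⟩
  convert (h O hO O' hO' m).div (h' O hO O' hO' m) using 1
  rw [S.lb_sub (hS.a1.gne O hO), S.lb_sub (hS.a1.gne O' hO'), map_div₀]
  field_simp

theorem Inv.cl (h : Inv S τ c) (ex : ∀ O ∈ S.T, ∃ O' ∈ S.T, ∀ a ∈ O', τ a ∈ O) (hU : Cl S U c) :
    Cl S (τ '' U) c := by
  obtain ⟨ρ, h0, h⟩ := h
  obtain ⟨φ, h1, g⟩ := hU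
  have h2 : τ φ ≠ 0 := (map_ne_zero τ).2 h1
  refine ⟨ρ * τ φ, mul_ne_zero h0 h2, fun O hO => ?_⟩
  obtain ⟨O', hO', m⟩ := ex O hO
  refine (gn_hom τ m (g O' hO')).of_unit ?_
  convert h O hO O' hO' m using 1
  rw [map_mul, map_inv₀]
  field_simp

end TrfA

open TrfA in
theorem trf_stmt (h1 : Mk2Stmt) (h2 : RatOfStmt) (h3 : Fm0Stmt) (h4 : Trf1Stmt) (h5 : SemiStmt)
    (h6 : CtrStmt) (h7 : ClExStmt) (h8 : DifStmt) : TrfStmt := by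
  intro K M Ω E I J _ _ _ _ _ _ _ _ _ _ _ _ _ H S ν S' Z hS eS fin nz gc alg tv τ hτ fix W c _ cl
  have all := (h1 K M I S hS).all
  have all' := (h1 Ω E J S' gc.mrk).all
  obtain ⟨xx, fm, lc, db⟩ := h3 K M I S H all eS fin nz
  obtain ⟨γ, dt, lg⟩ := h2 K M M Ω E I J ⊥ H ⊤ _ S ν S' (lc hS) gc (fun d => ⟨_, db d⟩) c
  obtain ⟨U, V, c₁, c₂, hU, hV, u, v, rfl⟩ := h8 K M Ω E J ⊥ H ν S' γ c gc all' dt lg
  obtain ⟨τ', st, e⟩ := h4 K M E ν H Z τ (fm.ne.imp fun j hj => ⟨hj, fm.frac j hj⟩) alg fix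
  have key : ∀ (U : Set M) (c : J → ℤ), Sys (XX (⊥ : Subalgebra K M) H) U → Cl S' (ν '' U) c →
      Inv S' τ c := fun U c hU u => by
    obtain ⟨d, hd⟩ := h7 K M I S U all hU.1 (xx ▸ hU.2)
    obtain ⟨χ, h0, hχ⟩ := exists_mul hd (tv τ' st
      (fun z hz => ν.injective ((e z).trans (fix _ ⟨z, hz, rfl⟩))) U d hU.1 hd)
    refine inv_of u (cl_of_mul u ((map_ne_zero ν).2 h0) fun O' hO' => ?_)
    obtain ⟨O, hO, m⟩ := h6 K M Ω E ⊥ H ν gc.base O' (gc.eq ▸ hO')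
    obtain ⟨a, g⟩ := hU.2 O hO
    have := gn_hom ν m (hχ O (xx ▸ hO) a g)
    rw [map_mul, Set.image_image] at this
    simp only [e] at this
    exact ⟨_, gn_hom ν m g, by rwa [Set.image_image]⟩
  refine ((key U c₁ hU u).sub all' (key V c₂ hV v)).cl (fun O hO => ?_) cl
  obtain ⟨O', hO', m⟩ := (h5 Ω E (ν '' H) τ hτ
    (fun a ha => fix a (Set.image_mono Set.subset_union_right ha)) O (gc.eq ▸ hO)).1
  exact ⟨O', gc.eq ▸ hO', fun a ha => (m a).1 ha⟩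

end Pool.Agent.MP_e8e0b6_ag.R2
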