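import Pool.Agent.MP_e8e0b6_ag.R2.SpecT

/-!
Restriction of an automorphism to a subfield with algebraically closed constants.
-/

set_option autoImplicit false

open Polynomial

namespace Pool.Agent.MP_e8e0b6_ag.R2

open Pool.Agent.MP_79c67d_ag Pool.Agent.MP_20d318_ag Pool.Agent.MP_20d318_ag.AG
  Pool.Agent.MP_20d318_ag.BV Pool.Agent.MP_20d318_ag.CB

namespace Trf1A

variable {K M E : Type} [Field K] [IsAlgClosed K] [Field M] [Field E] [Algebra K M] [Algebra K E]
  {ν : M →ₐ[K] E} {H : Set M} {Z : Subring K}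

/-- The restriction of an endomorphism. -/
theorem res (τ : E →+* E) (hF : ∃ j ∈ H, Frac (ch (⊥ : Subalgebra K M) H j))
    (ha : ∀ a : K, IsAlgebraic Z a) (hτ : ∀ z ∈ ν '' (algebraMap K M '' Z ∪ H), τ z = z) :
    ∃ b : M →+* M, (∀ m, ν (b m) = τ (ν m)) ∧
      ∀ a, b (algebraMap K M a) ∈ Set.range (algebraMap K M) := by
  have h1 : ∀ a : K, ∃ a', algebraMap K E a' = τ (algebraMap K E a) := fun a => by
    have h2 : IsAlgebraic K ((τ.comp (algebraMap K E)) a) :=
      (ha a).ringHom_of_comp_eq Z.subtype (τ.comp (algebraMap K E)) Subtype.val_injective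
        (RingHom.ext fun z => by
          have := hτ _ ⟨_, Or.inl ⟨z, z.2, rfl⟩, rfl⟩
          rw [ν.commutes] at this
          exact this.symm)
    exact minpoly.mem_range_of_degree_eq_one K _
      (IsAlgClosed.degree_eq_one_of_irreducible K (minpoly.irreducible h2.isIntegral))
  obtain ⟨j, hj, hF⟩ := hF
  let W : Subfield M := ν.toRingHom.fieldRange.comap (τ.comp ν.toRingHom)
  have hH : ∀ h ∈ H, h ∈ W := fun h hh => ⟨h, (hτ _ ⟨h, Or.inr hh, rfl⟩).symm⟩
  let T : Subalgebra K M :=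
    { W.toSubring.toSubsemiring with
      algebraMap_mem' := fun a => (h1 a).elim fun a' e => ⟨algebraMap K M a', by
        change ν _ = τ (ν _)
        rw [ν.commutes, ν.commutes, e]⟩ }
  have hT : ch ⊥ H j ≤ T := sup_le bot_le (Algebra.adjoin_le (by
    rintro _ ⟨h, hh, rfl⟩
    exact W.div_mem (hH h hh) (hH j hj)))
  have hW : ∀ m, τ (ν m) ∈ ν.toRingHom.fieldRange := fun m => by
    obtain ⟨a, ha, b, hb, -, rfl⟩ := hF m
    exact W.div_mem (hT ha) (hT hb)
  let b : M →+* M := ν.toRingHom.rangeRestrictFieldEquiv.symm.toRingHom.comp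
    ((τ.comp ν.toRingHom).codRestrict ν.toRingHom.fieldRange hW)
  have hb : ∀ m, ν (b m) = τ (ν m) := fun m =>
    congrArg Subtype.val (ν.toRingHom.rangeRestrictFieldEquiv.apply_symm_apply ⟨τ (ν m), hW m⟩)
  refine ⟨b, hb, fun a => (h1 a).imp fun a' e => ν.toRingHom.injective ?_⟩
  change ν _ = ν _
  rw [hb, ν.commutes, ν.commutes, e]

end Trf1A

theorem trf1_stmt : Trf1Stmt := by
  intro K M E _ _ _ _ _ _ ν H Z τ hF ha hτ
  obtain ⟨b, hb, hc⟩ := Trf1A.res τ.toRingHom hF ha hτ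
  obtain ⟨b', hb', hc'⟩ := Trf1A.res τ.symm.toRingHom hF ha fun z hz =>
    τ.symm_apply_eq.2 (hτ z hz).symm
  have h1 : ∀ m, b' (b m) = m := fun m => ν.toRingHom.injective (by
    change ν _ = ν _
    rw [hb', hb]
    exact τ.symm_apply_apply _)
  have h2 : ∀ m, b (b' m) = m := fun m => ν.toRingHom.injective (by
    change ν _ = ν _
    rw [hb, hb']
    exact τ.apply_symm_apply _)
  refine ⟨{ b with invFun := b', left_inv := h1, right_inv := h2 }, ?_, hb⟩
  refine subset_antisymm ?_ ?_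
  · rintro _ ⟨_, ⟨a, rfl⟩, rfl⟩
    exact hc a
  · rintro _ ⟨a, rfl⟩
    exact ⟨_, hc' a, h2 _⟩

end Pool.Agent.MP_e8e0b6_ag.R2
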