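import Pool.Agent.MP_e8e0b6_ag.R2.SpecT

/-!
Over a principal ring a generically trivial line bundle is trivial.
-/

set_option autoImplicit false

namespace Pool.Agent.MP_e8e0b6_ag.R2

open Pool.Agent.MP_79c67d_ag Pool.Agent.MP_20d318_ag Pool.Agent.MP_20d318_ag.AG
  Pool.Agent.MP_20d318_ag.BV Pool.Agent.MP_20d318_ag.CB

namespace TrivA

variable {k F : Type} [Field k] [Field F] [Algebra k F] {D O O' W : Subalgebra k F} {H : Set F}
  {γ : Subalgebra k F → F}

theorem xle (h : O ∈ XX D H) : D ≤ O := le_sup_left.trans h.choose_spec.2.2.1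

theorem dtu {X : Set (Subalgebra k F)} (h : Dt X γ) (hO : O ∈ X) (hO' : O' ∈ X) (h1 : O ≤ O') :
    IsU O' (γ O / γ O') := by
  obtain ⟨U, V, -, -, h⟩ := h
  obtain ⟨a, b, ha, hb, hu⟩ := h O hO
  obtain ⟨a', b', ha', hb', hu'⟩ := h O' hO'
  have := (((hu.mono h1).div hu').mul (ha'.unit (ha.mono h1))).mul ((hb.mono h1).unit hb')
  have h3 := ha.ne
  have h4 := ha'.ne
  have h5 := hb.ne
  have h6 := hb'.ne
  have h7 := left_ne_zero_of_mul (div_ne_zero_iff.1 hu'.ne).1
  convert this using 1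
  field_simp

theorem key (h1 : LzStmt) (hF : Fm D H) [IsPrincipalIdealRing D] {π : D} (hπ : Prime π) :
    ∃ ξ ∈ XX D H, (π : F) ∈ mx ξ ∧ ∀ O ∈ XX D H, (π : F) ∈ mx O →
      O ≤ ξ ∧ ∀ a ∈ O, a ∈ mx ξ → a / π ∈ O := by
  have π0 : (π : F) ≠ 0 := fun e => hπ.ne_zero (Subtype.ext e)
  have dv : ∀ a (ha : a ∈ D), a / π ∈ D ↔ π ∣ ⟨a, ha⟩ := fun a ha =>
    ⟨fun h => ⟨⟨_, h⟩, Subtype.ext (mul_div_cancel₀ a π0).symm⟩, fun ⟨c, e⟩ => by
      rw [show a = π * c from congrArg Subtype.val e, mul_div_cancel_left₀ _ π0]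
      exact c.2⟩
  obtain ⟨R, hR, hU⟩ := exists_loc D {a | a / π ∈ D} (by simp)
    (fun h => hπ.not_dvd_one ((dv 1 D.one_mem).1 h))
    (fun a _ b _ ha hb => by
      change (a + b) / π ∈ D
      rw [add_div]
      exact D.add_mem ha hb)
    (fun a ha b hb => by
      change a * b / π ∈ D ↔ a / π ∈ D ∨ b / π ∈ D
      rw [dv _ (D.mul_mem ha hb), dv a ha, dv b hb]
      exact hπ.dvd_mul (a := ⟨a, ha⟩) (b := ⟨b, hb⟩))
  obtain ⟨l1, l2, -⟩ := h1 k F D R H ⟨hR.2.1, hR.2.2⟩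
  obtain ⟨ξ, hξ⟩ := hF.fib R hR
  refine ⟨ξ, l1 hξ.mem, hξ.dom.mx ⟨hR.2.1 π.2, fun hu => (hU _ π.2).1 hu ?_⟩, fun O hO hm => ?_⟩
  · change (π : F) / π ∈ D
    rw [div_self π0]
    exact D.one_mem
  have hl : IsLocalRing O := hO.choose_spec.2.1
  have hD := xle hO
  have un : ∀ b ∈ D, IsU R b → IsU O b := fun b hb hu => by
    obtain ⟨u, v, e⟩ := hπ.coprime_iff_not_dvd.2 fun h => (hU b hb).1 hu ((dv b hb).2 h)
    have e' : (u : F) * π + v * b = 1 := congrArg Subtype.val e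
    refine IsU.of_mul (hD hb) (hD v.2) ?_
    convert isU_one.add_mx hl (mx_neg (mx_mul_left (hD u.2) hm)) using 1
    linear_combination e'
  have hRO : R ≤ O := fun f hf => by
    obtain ⟨a, ha, b, hb, hu, rfl⟩ := hR.2.2 f hf
    exact (un b hb hu).div_mem (hD ha)
  have hd : AG.Dom R O := ⟨hRO, fun f hf hu => by
    obtain ⟨a, ha, b, hb, hb', rfl⟩ := hR.2.2 f hf
    refine ((hU a ha).2 fun h => ?_).div hb'
    have := hu.mul (un b hb hb')
    rw [div_mul_cancel₀ _ hb'.ne] at this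
    have h2 := mx_mul_left (hD h) hm
    rw [div_mul_cancel₀ _ π0] at h2
    exact h2.2 this⟩
  have hO' := l2 O hO hRO
  refine ⟨hξ.le O hO' hd, fun a ha hx => ?_⟩
  have hs := hξ.red O hO' hd a ha hx
  clear ha hx
  induction hs using Submodule.span_induction with
  | mem g hg =>
    obtain ⟨a, ha, b, hb, hb', rfl⟩ := hR.2.2 g hg.1
    have h2 : a / π ∈ D := by_contra fun h => hg.2 (((hU a ha).2 h).div hb')
    rw [div_right_comm]
    exact (un b hb hb').div_mem (hD h2)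
  | zero => rw [zero_div]; exact O.zero_mem
  | add b c _ _ hb hc => rw [add_div]; exact O.add_mem hb hc
  | smul c b _ hb =>
    change (c : F) * b / π ∈ O
    rw [mul_div_assoc]; exact O.mul_mem c.2 hb

end TrivA

open TrivA

theorem triv_stmt (h1 : LzStmt) : TrivStmt := by
  intro k F _ _ _ D H γ z p hF hP hγ hz z0 hp p0 h
  have γ0 : ∀ O ∈ XX D H, γ O ≠ 0 := fun O hO => (div_ne_zero_iff.1 (dtu hγ hO hO le_rfl).ne).1
  lift p to D using hp
  induction p using UniqueFactorizationMonoid.induction_on_prime generalizing z with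
  | h₁ => exact (p0 rfl).elim
  | h₂ x hx =>
    refine ⟨z, fun O hO => ⟨mul_ne_zero z0 (γ0 O hO), hz O hO, ?_⟩⟩
    have := (((isU_iff_isUnit x).2 hx).mono (xle hO)).div_mem (h O hO)
    rwa [div_right_comm, div_self p0, one_div] at this
  | h₃ a π a0 hπ ih =>
    have π0 : (π : F) ≠ 0 := fun e => hπ.ne_zero (Subtype.ext e)
    have a1 : (a : F) ≠ 0 := fun e => a0 (Subtype.ext e)
    obtain ⟨ξ, hξ, hm, hk⟩ := key h1 hF hπ
    have e : ∀ O, z * γ O = z * γ ξ * (γ O / γ ξ) := fun O => by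
      have := γ0 ξ hξ
      field_simp
    rcases isU_or_mx (hz ξ hξ) with c | c
    · refine ih z hz z0 a1 fun O hO => ?_
      rw [show (a : F) / (z * γ O) = (π * a : D) / (z * γ O) / π by
        rw [div_right_comm, Subalgebra.coe_mul, mul_div_cancel_left₀ _ π0]]
      rcases isU_or_mx (xle hO π.2) with u | u
      · exact u.div_mem (h O hO)
      · refine (hk O hO u).2 _ (h O hO) (mx_div (mx_mul_right hm (xle hξ a.2)) ?_)
        rw [e]
        exact c.mul (dtu hγ hO hξ (hk O hO u).1)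
    · refine ih (z / π) (fun O hO => ?_) (div_ne_zero z0 π0) a1 fun O hO => ?_
      · rw [div_mul_eq_mul_div]
        rcases isU_or_mx (xle hO π.2) with u | u
        · exact u.div_mem (hz O hO)
        · refine (hk O hO u).2 _ (hz O hO) ?_
          rw [e]
          exact mx_mul_right c (dtu hγ hO hξ (hk O hO u).1).mem
      · convert h O hO using 1
        rw [Subalgebra.coe_mul, div_mul_eq_mul_div, div_div_eq_mul_div, mul_comm]

end Pool.Agent.MP_e8e0b6_ag.R2
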