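import Pool.Agent.MP_e8e0b6_ag.R2.SpecT

/-!
All classes on the geometric generic fibre of a family with trivial monodromy are rational.
-/

set_option autoImplicit false

open Polynomial

namespace Pool.Agent.MP_e8e0b6_ag.R2

open Pool.Agent.MP_79c67d_ag Pool.Agent.MP_20d318_ag Pool.Agent.MP_20d318_ag.AG
  Pool.Agent.MP_20d318_ag.BV Pool.Agent.MP_20d318_ag.CB

namespace TsenA

/-- An embedding into an algebraically closed field extends to an algebraic extension. -/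
theorem exE {k K M Ω : Type} [Field k] [Field K] [Field M] [Field Ω] [IsAlgClosed Ω] [Algebra k K]
    [Algebra K M] [Algebra k M] [IsScalarTower k K M] [Algebra.IsAlgebraic K M] [Algebra k Ω]
    (ψ : K →ₐ[k] Ω) : ∃ e : M →ₐ[k] Ω, ∀ a, e (algebraMap K M a) = ψ a := by
  let : Algebra K Ω := ψ.toRingHom.toAlgebra
  let e0 : M →ₐ[K] Ω := IsAlgClosed.lift
  have h : ∀ a, e0 (algebraMap K M a) = ψ a := fun a => e0.commutes a
  exact ⟨{ e0.toRingHom with
    commutes' := fun r => by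
      have h2 := h (algebraMap k K r)
      rw [← IsScalarTower.algebraMap_apply, ψ.commutes] at h2
      exact h2 }, h⟩

/-- A finite set lies in a finite Galois extension. -/
theorem exL {K M : Type} [Field K] [Field M] [Algebra K M] [IsGalois K M] (Λ : Set M)
    (h : Λ.Finite) :
    ∃ L : IntermediateField K M, FiniteDimensional K L ∧ IsGalois K L ∧ Λ ⊆ L := by
  have : Finite Λ := h
  exact ⟨(FiniteGaloisIntermediateField.adjoin K Λ).toIntermediateField, inferInstance,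
    inferInstance, FiniteGaloisIntermediateField.subset_adjoin K Λ⟩

section
variable {k A K L F F₀ Ω E J : Type} [Field k] [CommRing A] [Field K] [Field L] [Field F]
  [Field F₀] [Field Ω] [Field E] [Algebra k A] [Algebra k L] [Algebra A L] [Algebra k F]
  [Algebra k F₀] [Algebra k Ω] [Algebra k E] [Algebra Ω E] [Fintype J] {g : A[X] →ₐ[k] F}
  {H : Set F} {μ : F →ₐ[k] E} {S' : Sd Ω E J} {e : L →ₐ[k] Ω} {g₀ : L[X] →ₐ[k] F₀}
  {ν : F →ₐ[k] F₀} {μ₀ : F₀ →ₐ[k] E}

theorem mu_nu (V : Lv g H μ e g₀ ν μ₀) (z : F) : μ₀ (ν z) = μ z := by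
  rw [← V.mu]; rfl

/-- The constants of the base lie in `Ω`. -/
theorem exPhi [IsScalarTower k Ω E] (T : Ts g H μ S') :
    ∃ φ : A →ₐ[k] Ω, Function.Injective φ ∧ ∀ a, algebraMap Ω E (φ a) = μ (g (C a)) := by
  have hi : Function.Injective (IsScalarTower.toAlgHom k Ω E) := (algebraMap Ω E).injective
  have hm : ∀ a : A, (μ.comp (g.comp CAlgHom)) a ∈ (IsScalarTower.toAlgHom k Ω E).range :=
    fun a => T.gc.base _ ⟨C a, rfl⟩
  have key : ∀ a, algebraMap Ω E ((((AlgEquiv.ofInjective _ hi).symm : _ →ₐ[k] Ω).comp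
      ((μ.comp (g.comp CAlgHom)).codRestrict _ hm)) a) = μ (g (C a)) := fun a =>
    congrArg Subtype.val ((AlgEquiv.ofInjective _ hi).apply_symm_apply ⟨_, hm a⟩)
  refine ⟨_, fun a b h => ?_, key⟩
  have h2 := key a
  rw [h, key b] at h2
  exact (C_injective (T.inj (μ.injective h2))).symm

/-- Over the algebraic closure all classes are rational. -/
theorem ratM (h1 : T1Stmt) [CharZero L] [IsAlgClosed L] [IsAlgClosed Ω] (T : Ts g H μ S')
    (V : Lv g H μ e g₀ ν μ₀) (G : Gc g₀.range (ν '' H) μ₀ S') : Rat μ₀ S' := by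
  have hle : g.range.map μ ≤ g₀.range.map μ₀ := by
    rintro _ ⟨_, ⟨p, rfl⟩, rfl⟩
    exact ⟨g₀ (p.map (algebraMap A L)), ⟨_, rfl⟩, by
      rw [V.cmp]; exact mu_nu V _⟩
  have key := h1 k L F₀ Ω E J g₀ (ν '' H) μ₀ S' V.inj G T.all
    (fun a => (T.alg a).tower_top_of_subalgebra_le hle)
    (fun τ h h' => T.triv τ h (by
      rintro _ ⟨z, rfl⟩
      exact h' _ ⟨ν z, mu_nu V z⟩))
  intro c
  obtain ⟨c', hc, hc'⟩ := T.all.s.dif c
  obtain ⟨U, hU, hU'⟩ := key _ hc'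
  obtain ⟨W, hW, hW'⟩ := key _ hc
  exact ⟨U, W, _, _, hU, hW, hU', hW', by abel⟩

/-- A finite set of fixed elements comes from `F`. -/
theorem pull (V : Lv g H μ e g₀ ν μ₀) {U : Set F₀} (hU : U.Finite) (h : U ⊆ Set.range ν)
    {c : J → ℤ} (hc : Cl S' (μ₀ '' U) c) : ∃ W : Set F, W.Finite ∧ Cl S' (μ '' W) c := by
  refine ⟨ν ⁻¹' U, hU.preimage ν.injective.injOn, ?_⟩
  have : μ '' (ν ⁻¹' U) = μ₀ '' U := by
    conv_rhs => rw [← Set.image_preimage_eq_of_subset h, Set.image_image]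
    exact Set.image_congr fun z _ => (mu_nu V z).symm
  rwa [this]

/-- Descent along a finite Galois extension. -/
theorem desc (h4 : T4cStmt) (h5 : AutStmt) (h6 : ActStmt) (h7 : PtStmt) (h8 : T3Stmt)
    (h9 : DtStmt) (h10 : DifStmt) [CharZero k] [IsDomain A] [IsAlgClosed Ω] [Algebra k K]
    [IsScalarTower k A L] [Algebra A K] [IsScalarTower k A K] [IsFractionRing A K] [Algebra K L]
    [IsScalarTower A K L] [FiniteDimensional K L] [IsGalois K L] {j : F}
    (θ : ch g.range H j →ₐ[k] K) (T : Ts g H μ S') (hj : j ∈ H)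
    (hθ : ∀ p (h : g p ∈ ch g.range H j), θ ⟨g p, h⟩ = algebraMap A K (p.eval 0))
    (he : ∀ a, algebraMap Ω E (e (algebraMap A L a)) = μ (g (C a))) (V : Lv g H μ e g₀ ν μ₀)
    (G : Gc g₀.range (ν '' H) μ₀ S') (R : Rat μ₀ S') : Rat μ S' := by
  classical
  have : CharZero Ω := charZero_of_injective_algebraMap (algebraMap k Ω).injective
  have : Algebra.IsAlgebraic A L := IsFractionRing.comap_isAlgebraic_iff.mpr
    (inferInstance : Algebra.IsAlgebraic K L)
  have fm := h4 k A K L F F₀ Ω E J g H μ S' e g₀ ν μ₀ T V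
  obtain ⟨a, a1, a2, a3, a4⟩ := h6 k A K L F F₀ Ω E g H μ e g₀ ν μ₀ T.one V fun σ =>
    h5 k A L F Ω E J g H μ S' e σ.toRingEquiv T he fun x => by
      rw [IsScalarTower.algebraMap_apply A K L]; exact σ.commutes _
  obtain ⟨O₀, hO, ev, e1, e2, e3⟩ := h7 k A K L F F₀ g H g₀ ν a j θ V.inj V.cmp a1 a2 hj hθ
  obtain ⟨n, u, v, huv⟩ := speiser K L
  have pid : IsPrincipalIdealRing g₀.range :=
    IsPrincipalIdealRing.of_surjective g₀.rangeRestrict.toRingHom g₀.rangeRestrict_surjective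
  have hX : g₀ X = ν (g X) := by rw [← V.cmp, Polynomial.map_X]
  have hD : ∀ σ, ∀ d ∈ g₀.range, a σ d ∈ g₀.range := by
    rintro σ _ ⟨p, rfl⟩
    induction p using Polynomial.induction_on' with
    | add p q hp hq =>
      simp only [AlgHom.toRingHom_eq_coe, RingHom.coe_coe, map_add] at hp hq ⊢
      exact add_mem hp hq
    | monomial m c =>
      refine ⟨C (σ c) * X ^ m, ?_⟩
      simp only [AlgHom.toRingHom_eq_coe, RingHom.coe_coe, ← C_mul_X_pow_eq_monomial, map_mul,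
        map_pow, a1, hX, a2]
  have key : ∀ (U : Set F₀) (c : J → ℤ), Sys (XX g₀.range (ν '' H)) U → Cl S' (μ₀ '' U) c →
      ∃ W : Set F, W.Finite ∧ Cl S' (μ '' W) c := by
    intro U c hU hc
    obtain ⟨U', f1, f2, f3⟩ := h8 k F₀ Ω E (L ≃ₐ[K] L) J a g₀.range (ν '' H) μ₀ S' O₀ ev n
      (fun i => g₀ (C (u i))) (fun i => g₀ (C (v i))) fm G T.all pid hD
      (by rintro σ _ ⟨z, -, rfl⟩; exact a2 σ z) (fun i => ⟨⟨_, rfl⟩, ⟨_, rfl⟩⟩)
      (fun σ => by
        have h := congrArg (fun x => g₀ (C x)) (huv σ)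
        simp only [map_sum, map_mul, ← a1] at h
        rw [h]
        split_ifs <;> simp)
      hO e1 e2 e3 U c hU (fun σ => by
        obtain ⟨τ, t1, t2⟩ := a4 σ
        have h := T.triv τ t1 (by
          rintro _ ⟨z, rfl⟩
          rw [← mu_nu V, t2, a2]) _ c (hU.1.image μ₀) hc
        rw [Set.image_image] at h ⊢
        simpa only [t2] using h)
    exact pull V f1 (fun z hz => a3 z (f2 z hz)) f3
  intro c
  obtain ⟨γ, g1, g2⟩ := h9 k F₀ Ω E J g₀.range (ν '' H) μ₀ S' fm G R c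
  obtain ⟨U, W, c₁, c₂, s1, s2, s3, s4, hc⟩ :=
    h10 k F₀ Ω E J g₀.range (ν '' H) μ₀ S' γ c G T.all g1 g2
  obtain ⟨U', u1, u2⟩ := key U c₁ s1 s3
  obtain ⟨W', w1, w2⟩ := key W c₂ s2 s4
  exact ⟨U', W', c₁, c₂, u1, w1, u2, w2, hc⟩

end

end TsenA

open TsenA in
theorem tsen_stmt (h1 : T1Stmt) (h2 : LvStmt) (h3 : T4bStmt) (h4 : T4cStmt) (h5 : AutStmt)
    (h6 : ActStmt) (h7 : PtStmt) (h8 : T3Stmt) (h9 : DtStmt) (h10 : DifStmt) : TsenStmt := by
  intro k A F Ω E J _ _ _ _ _ _ _ _ _ _ _ _ _ _ _ g H μ S' j θ T hj hθ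
  obtain ⟨φ, hφ, hφ'⟩ := exPhi T
  have : CharZero (FractionRing A) :=
    charZero_of_injective_algebraMap (algebraMap k (FractionRing A)).injective
  obtain ⟨e, he⟩ := exE (M := AlgebraicClosure (FractionRing A))
    (IsFractionRing.liftAlgHom hφ : FractionRing A →ₐ[k] Ω)
  have he' : ∀ a, algebraMap Ω E (e (algebraMap A _ a)) = μ (g (C a)) := fun a => by
    rw [IsScalarTower.algebraMap_apply A (FractionRing A), he, IsFractionRing.liftAlgHom_apply,
      IsFractionRing.lift_algebraMap]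
    exact hφ' a
  have : Algebra.IsAlgebraic A (AlgebraicClosure (FractionRing A)) :=
    IsFractionRing.comap_isAlgebraic_iff.mpr
      (inferInstance : Algebra.IsAlgebraic (FractionRing A) _)
  obtain ⟨F₁, _, _, g₁, ν₁, μ₁, V₁, G₁⟩ := h2 k A _ F Ω E J g H μ S' e T he'
  obtain ⟨Λ, hΛ, hL⟩ := h3 k A _ F F₁ Ω E J g H μ S' e g₁ ν₁ μ₁ T V₁ (ratM h1 T V₁ G₁)
  obtain ⟨L, _, _, hs⟩ := exL (K := FractionRing A) Λ hΛ
  have : IsScalarTower k A L := IsScalarTower.of_algebraMap_eq fun x =>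
    Subtype.ext (IsScalarTower.algebraMap_apply k A (AlgebraicClosure (FractionRing A)) x)
  have : Algebra.IsAlgebraic A L := IsFractionRing.comap_isAlgebraic_iff.mpr
    (inferInstance : Algebra.IsAlgebraic (FractionRing A) L)
  have he2 : ∀ a, algebraMap Ω E ((e.comp (L.val.restrictScalars k)) (algebraMap A L a)) =
      μ (g (C a)) := he'
  obtain ⟨F₀, _, _, g₀, ν, μ₀, V, G⟩ := h2 k A L F Ω E J g H μ S' _ T he2
  exact desc h4 h5 h6 h7 h8 h9 h10 θ T hj hθ he2 V G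
    (hL L F₀ _ g₀ ν μ₀ (fun a ha => ⟨⟨a, hs ha⟩, rfl⟩) V)

end Pool.Agent.MP_e8e0b6_ag.R2
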