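import Pool.Agent.MP_e8e0b6_ag.R2.GlueA
import Pool.Agent.MP_e8e0b6_ag.R2.C.ChAll
import Pool.Agent.MP_e8e0b6_ag.R2.C.GalAll
import Pool.Agent.MP_e8e0b6_ag.R2.Act
import Pool.Agent.MP_e8e0b6_ag.R2.Aut
import Pool.Agent.MP_e8e0b6_ag.R2.Bcof
import Pool.Agent.MP_e8e0b6_ag.R2.ClEx
import Pool.Agent.MP_e8e0b6_ag.R2.Core
import Pool.Agent.MP_e8e0b6_ag.R2.Ctr
import Pool.Agent.MP_e8e0b6_ag.R2.Dif
import Pool.Agent.MP_e8e0b6_ag.R2.Dsc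
import Pool.Agent.MP_e8e0b6_ag.R2.Fm0
import Pool.Agent.MP_e8e0b6_ag.R2.GcUp
import Pool.Agent.MP_e8e0b6_ag.R2.Gs
import Pool.Agent.MP_e8e0b6_ag.R2.LvR
import Pool.Agent.MP_e8e0b6_ag.R2.LzR
import Pool.Agent.MP_e8e0b6_ag.R2.Mkf
import Pool.Agent.MP_e8e0b6_ag.R2.Pt
import Pool.Agent.MP_e8e0b6_ag.R2.RatGen
import Pool.Agent.MP_e8e0b6_ag.R2.Reg
import Pool.Agent.MP_e8e0b6_ag.R2.SemiR
import Pool.Agent.MP_e8e0b6_ag.R2.T0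
import Pool.Agent.MP_e8e0b6_ag.R2.T1
import Pool.Agent.MP_e8e0b6_ag.R2.T2
import Pool.Agent.MP_e8e0b6_ag.R2.T3
import Pool.Agent.MP_e8e0b6_ag.R2.T4b
import Pool.Agent.MP_e8e0b6_ag.R2.T4c
import Pool.Agent.MP_e8e0b6_ag.R2.Trf
import Pool.Agent.MP_e8e0b6_ag.R2.Trf1
import Pool.Agent.MP_e8e0b6_ag.R2.TrivR
import Pool.Agent.MP_e8e0b6_ag.R2.Tsen

/-! Descent of divisor classes: the assembly. -/

set_option autoImplicit false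

namespace Pool.Agent.MP_e8e0b6_ag.R2

theorem dif_all : DifStmt := dif_stmt ctr_stmt clEx_stmt

theorem trf_all : TrfStmt :=
  trf_stmt mk2 ratOf fm0_stmt trf1_stmt semi_stmt ctr_stmt clEx_stmt dif_all

theorem t3_all : T3Stmt :=
  t3_stmt (t2_stmt s1 (reg_stmt ctr_stmt) (triv_stmt lz_stmt)) (reg_stmt ctr_stmt) ctr_stmt

theorem tsen_all : TsenStmt :=
  tsen_stmt (t1_stmt (t0_stmt semi_stmt) dsc_stmt core_stmt bc_stmt) (lv_stmt mkf_stmt gcUp_stmt)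
    (t4b_stmt ratGen_stmt) (t4c_stmt gs_stmt lz_stmt) (aut_stmt C.ext) act_stmt pt_stmt t3_all dt
    dif_all

theorem ch_all : ChStmt := C.ch_all mk2 vn

theorem gal_all : C.GalStmt' := C.gal_all mk2 dt sp_

end Pool.Agent.MP_e8e0b6_ag.R2
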