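import Pool.Agent.MP_e8e0b6_ag.R2.SpecA

/-!
Basic properties of a local family with normalized coordinates.
-/

set_option autoImplicit false

namespace Pool.Agent.MP_e8e0b6_ag.R2

open Pool.Agent.MP_79c67d_ag Pool.Agent.MP_20d318_ag Pool.Agent.MP_20d318_ag.AG
  Pool.Agent.MP_20d318_ag.BV Pool.Agent.MP_20d318_ag.CB

namespace LnA

variable {k F M I : Type} [Field k] [Field F] [Field M] [Algebra k F] [Algebra k M] [Fintype I]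
  {R O W ξ : Subalgebra k F} {H : Set F} {ρ : ξ →ₐ[k] M} {S : Sd k M I} {a j : F}
  {B : Subalgebra k M}

/-- Composite valuations. -/
theorem exists_val_le (hR : IsLocalRing R) (hW : IsVal W) (h : R ≤ W) :
    ∃ V : Subalgebra k F, IsVal V ∧ AG.Dom R V ∧ V ≤ W := by
  have hl := hW.isLocalRing
  let T : Subring F :=
    { carrier := {f | ∃ r ∈ R, f - r ∈ mx W}
      mul_mem' := by
        rintro f g ⟨a, ha, hf⟩ ⟨b, hb, hg⟩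
        have hgW : g ∈ W := by simpa using W.add_mem hg.1 (h hb)
        refine ⟨a * b, R.mul_mem ha hb, ?_⟩
        rw [show f * g - a * b = (f - a) * g + a * (g - b) by ring]
        exact mx_add hl (mx_mul_right hf hgW) (mx_mul_left (h ha) hg)
      one_mem' := ⟨1, R.one_mem, by simpa using zero_mem_mx⟩
      add_mem' := by
        rintro f g ⟨a, ha, hf⟩ ⟨b, hb, hg⟩
        exact ⟨a + b, R.add_mem ha hb, by rw [add_sub_add_comm]; exact mx_add hl hf hg⟩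
      zero_mem' := ⟨0, R.zero_mem, by simpa using zero_mem_mx⟩
      neg_mem' := by
        rintro f ⟨a, ha, hf⟩
        exact ⟨-a, R.neg_mem ha, by rw [← neg_sub']; exact mx_neg hf⟩ }
  let J : Ideal T :=
    { carrier := {f | ∃ r ∈ mx R, (f : F) - r ∈ mx W}
      add_mem' := by
        rintro f g ⟨a, ha, hf⟩ ⟨b, hb, hg⟩
        exact ⟨a + b, mx_add hR ha hb, by
          rw [Subring.coe_add, add_sub_add_comm]; exact mx_add hl hf hg⟩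
      zero_mem' := ⟨0, zero_mem_mx, by simpa using zero_mem_mx⟩
      smul_mem' := by
        rintro ⟨g, b, hb, hg⟩ f ⟨a, ha, hf⟩
        have hgW : g ∈ W := by simpa using W.add_mem hg.1 (h hb)
        refine ⟨b * a, mx_mul_left hb ha, ?_⟩
        change g * f - b * a ∈ mx W
        rw [show g * f - b * a = g * (f - a) + (g - b) * a by ring]
        exact mx_add hl (mx_mul_left hgW hf) (mx_mul_right hg (h ha.1)) }
  obtain ⟨V, h1, h2⟩ := Ideal.image_subset_nonunits_valuationSubring J fun e => by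
    obtain ⟨r, hr, h3⟩ := (Ideal.eq_top_iff_one J).1 e
    refine h3.2 (IsU.mono ?_ h)
    simpa [sub_eq_add_neg] using isU_one.add_mx hR (mx_neg hr)
  have h3 : ∀ r ∈ R, r ∈ T := fun r hr => ⟨r, hr, by simpa using zero_mem_mx⟩
  refine ⟨{ V.toSubring.toSubsemiring with
    algebraMap_mem' := fun c => h1 (h3 _ (R.algebraMap_mem c)) }, V.mem_or_inv_mem,
    ⟨fun r hr => h1 (h3 r hr), fun u hu hV => by_contra fun hn => ?_⟩,
    fun f hf => by_contra fun hn => ?_⟩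
  · exact (V.mem_nonunits_iff_or.1 (h2 ⟨⟨u, h3 u hu⟩, ⟨u, ⟨hu, hn⟩, by simpa using zero_mem_mx⟩,
      rfl⟩)).elim hV.1 fun e => e hV.2.2
  · have h4 := hW.inv_mx hn
    exact (V.inv_mem_nonunits_iff.1 (h2 ⟨⟨f⁻¹, 0, R.zero_mem, by simpa using h4⟩,
      ⟨0, zero_mem_mx, by simpa using h4⟩, rfl⟩)).elim (fun e => hn (e ▸ W.zero_mem)) fun e => e hf

theorem mem_red (h : O ≤ ξ) {m : M} : m ∈ red ξ ρ O ↔ ∃ a ∈ O, evO ξ ρ a = m :=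
  ⟨fun ⟨a, ha, e⟩ => ⟨a, ha, (evO_coe ρ a).trans e⟩,
    fun ⟨a, ha, e⟩ => ⟨⟨a, h ha⟩, ha, (evO_of_mem ρ (h ha)).symm.trans e⟩⟩

theorem ev_mem (h : O ≤ ξ) (ha : a ∈ O) : evO ξ ρ a ∈ red ξ ρ O := (mem_red h).2 ⟨a, ha, rfl⟩

theorem ev_unit (h : O ≤ ξ) (ha : IsU O a) : IsU (red ξ ρ O) (evO ξ ρ a) :=
  ⟨evO_ne ρ (ha.mono h), ev_mem h ha.mem, evO_inv ρ (ha.mono h) ▸ ev_mem h ha.inv_mem⟩

variable (ρ) in
/-- The functions whose residue lies in `B`. -/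
def pre (B : Subalgebra k M) : Subalgebra k F := (B.comap ρ).map ξ.val

theorem mem_pre : a ∈ pre ρ B ↔ a ∈ ξ ∧ evO ξ ρ a ∈ B :=
  ⟨fun ⟨b, hb, e⟩ => e ▸ ⟨b.2, (evO_coe ρ b).symm ▸ hb⟩,
    fun ⟨h1, h2⟩ => ⟨⟨a, h1⟩, (evO_of_mem ρ h1 ▸ h2 : ρ ⟨a, h1⟩ ∈ B), rfl⟩⟩

theorem pre_unit (hρ : LocHom ξ ρ) (ha : a ∈ ξ) : IsU (pre ρ B) a ↔ IsU B (evO ξ ρ a) := by
  refine ⟨fun h => ?_, fun h => ?_⟩
  · have hu := h.mono fun _ hb => (mem_pre.1 hb).1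
    exact ⟨evO_ne ρ hu, (mem_pre.1 h.mem).2, evO_inv ρ hu ▸ (mem_pre.1 h.inv_mem).2⟩
  · have hu := isU_of_not_mx ha fun hm => h.ne ((hρ.eq_zero_iff ha).2 hm)
    exact ⟨hu.ne, mem_pre.2 ⟨ha, h.mem⟩,
      mem_pre.2 ⟨hu.inv_mem, (evO_inv ρ hu).symm ▸ h.inv_mem⟩⟩

theorem pre_loc (hρ : LocHom ξ ρ) (hB : IsLocalRing B) : IsLocalRing (pre ρ B) :=
  isLocalRing_of fun a ha b hb => ⟨add_mem ha.1 hb.1, fun hu => by
    obtain ⟨a1, a2⟩ := mem_pre.1 ha.1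
    obtain ⟨b1, b2⟩ := mem_pre.1 hb.1
    rw [pre_unit hρ (ξ.add_mem a1 b1), evO_add ρ a1 b1] at hu
    exact (mx_add hB ⟨a2, fun h => ha.2 ((pre_unit hρ a1).2 h)⟩
      ⟨b2, fun h => hb.2 ((pre_unit hρ b1).2 h)⟩).2 hu⟩

variable (L : Lc R H ξ ρ S)
include L

theorem ev_const (ha : a ∈ R) : evO ξ ρ a ∈ (⊥ : Subalgebra k M) := by
  obtain ⟨c, h⟩ := L.rat a ha
  have h1 := L.fib.dom.mx h
  have h2 := (L.lh.eq_zero_iff h1.1).2 h1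
  rw [evO_sub ρ (L.fib.dom.1 ha) (ξ.algebraMap_mem c), evO_const, sub_eq_zero] at h2
  exact h2 ▸ algebraMap_mem _ c

theorem unit_iff (hO : IsLocalRing O) (hle : O ≤ ξ) (ha : a ∈ O) :
    IsU (red ξ ρ O) (evO ξ ρ a) ↔ IsU O a := by
  refine ⟨fun hu => ?_, ev_unit hle⟩
  obtain ⟨e, he, h1⟩ := (mem_red hle).1 hu.inv_mem
  have h0 := O.sub_mem (O.mul_mem ha he) O.one_mem
  have h2 : a * e - 1 ∈ mx O := mx_of_le hle h0 ((L.lh.eq_zero_iff (hle h0)).1 (by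
    rw [evO_sub ρ (hle (O.mul_mem ha he)) ξ.one_mem, evO_one, evO_mul ρ (hle ha) (hle he), h1,
      mul_inv_cancel₀ hu.ne, sub_self]))
  exact IsU.of_mul ha he (by simpa using isU_one.add_mx hO h2)

theorem ch_pre (hs : ∀ a ∈ H, a ∈ ξ) (hj : IsU ξ j) :
    ch R H j ≤ pre ρ (ch ⊥ (evO ξ ρ '' H \ {0}) (evO ξ ρ j)) := by
  refine ch_le.2 ⟨fun r hr => mem_pre.2 ⟨L.fib.dom.1 hr, le_ch (ev_const L hr)⟩,
    fun a ha => mem_pre.2 ⟨hj.div_mem (hs a ha), ?_⟩⟩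
  rw [evO_div ρ (hs a ha) hj]
  by_cases h0 : evO ξ ρ a = 0
  · rw [h0, zero_div]; exact zero_mem _
  · exact div_mem_ch ⟨⟨a, ha, rfl⟩, h0⟩

omit L in
theorem gnU (h1 : (1 : F) ∈ H) (hs : ∀ a ∈ H, a ∈ ξ) (hle : O ≤ ξ) (hj : Gn H O j) :
    IsU ξ j ∧ Gn (evO ξ ρ '' H \ {0}) (red ξ ρ O) (evO ξ ρ j) := by
  obtain ⟨a, ha, hu⟩ := hj.2
  have h2 : IsU ξ j := by
    refine ⟨hj.ne, ?_, by simpa using hle (hj.1 1 h1)⟩
    have := (hu.mono hle).div_mem (hs a ha)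
    rwa [div_div_cancel₀ (div_ne_zero_iff.1 hu.ne).1] at this
  have h3 := ev_unit (ρ := ρ) hle hu
  rw [evO_div ρ (hs a ha) h2] at h3
  refine ⟨h2, ?_, _, ⟨⟨a, ha, rfl⟩, (div_ne_zero_iff.1 h3.ne).1⟩, h3⟩
  rintro _ ⟨⟨b, hb, rfl⟩, -⟩
  rw [← evO_div ρ (hs b hb) h2]
  exact ev_mem hle (hj.1 b hb)

theorem red_pts (h1 : (1 : F) ∈ H) (hs : ∀ a ∈ H, a ∈ ξ) (hle : O ≤ ξ) (hj : Gn H O j)
    (hO : O ∈ Pts (ch R H j)) (hl : IsLocalRing (red ξ ρ O)) :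
    red ξ ρ O ∈ Pts (ch ⊥ (evO ξ ρ '' H \ {0}) (evO ξ ρ j)) := by
  obtain ⟨h2, h3⟩ := gnU (ρ := ρ) h1 hs hle hj
  refine ⟨hl, ch_le.2 ⟨bot_le, h3.1⟩, fun s hs' => ?_⟩
  obtain ⟨f, hf, rfl⟩ := (mem_red hle).1 hs'
  obtain ⟨a, ha, b, hb, hu, rfl⟩ := hO.2.2 f hf
  exact ⟨_, (mem_pre.1 (ch_pre L hs h2 ha)).2, _, (mem_pre.1 (ch_pre L hs h2 hb)).2,
    ev_unit hle hu, evO_div ρ (hle (hO.2.1 ha)) (hu.mono hle)⟩

end LnA

open LnA in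
theorem ln_stmt : LnStmt := by
  intro k F M I _ _ _ _ _ _ R H ξ ρ S L xb mf h1 hs
  have hU := fun O (hO : O ∈ XX R H) (hd : AG.Dom R O) a (ha : a ∈ O) =>
    unit_iff L (xb.loc O hO) (L.fib.le O hO hd) ha
  have hT : ∀ O ∈ XX R H, AG.Dom R O → red ξ ρ O ∈ S.T := fun O hO hd => L.eq ▸ ⟨O, ⟨hO, hd⟩, rfl⟩
  refine ⟨L, xb, mf, h1, hs, fun O hO => ?_, fun O hO s => mem_red hO, hU, ?_,
    fun O hO hd O' hO' hd' hle => ?_, ?_,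
    fun O hO hd j hj => gnU h1 hs (L.fib.le O hO hd) hj, ?_⟩
  · obtain ⟨W, hW, hd⟩ := AG.exists_val (xb.loc O hO)
    obtain ⟨V, hV, h2, h3⟩ := exists_val_le L.loc hW ((xb.le O hO).trans hd.1)
    obtain ⟨O₁, h4, h5⟩ := xb.val V hV h2.1
    exact ⟨O₁, h4, h2.of_le (xb.le O₁ h4) h5.1, xb.sle O₁ h4 O hO W (h5.1.trans h3) hd⟩
  · exact eq_top_iff.2 fun m _ => (L.surj m).imp fun a ha => ⟨a.2, ha⟩
  · have l1 := L.fib.le O hO hd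
    have l2 := L.fib.le O' hO' hd'
    obtain ⟨j, hj, g⟩ := xb.gn O hO
    obtain ⟨j', hj', g'⟩ := xb.gn O' hO'
    have u := (gnU (ρ := ρ) h1 hs l1 g).1
    have u' := (gnU (ρ := ρ) h1 hs l2 g').1
    have h2 : IsU O' (j / j') := (hU O' hO' hd' _ (g'.1 j hj)).1 ⟨evO_ne ρ (u.div u'),
      ev_mem l2 (g'.1 j hj), by
        rw [← evO_inv ρ (u.div u'), inv_div]; exact hle (ev_mem l1 (g.1 j' hj'))⟩
    have h3 : ch R H j ≤ O' := ch_le.2 ⟨hd'.1, fun a ha => by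
      rw [← div_div_div_cancel_right₀ u'.ne a j]; exact h2.div_mem (g'.1 a ha)⟩
    intro f hf
    obtain ⟨a, ha, b, hb, hu, rfl⟩ := ((xb.pts j hj O).2 ⟨hO, g⟩).2.2 f hf
    exact ((hU O' hO' hd' b (h3 hb)).1 ((ev_unit l1 hu).mono hle)).div_mem (h3 ha)
  · let φ : R →ₐ[k] (⊥ : Subalgebra k M) :=
      (ρ.comp (Subalgebra.inclusion L.fib.dom.1)).codRestrict ⊥ fun r =>
        evO_of_mem ρ (L.fib.dom.1 r.2) ▸ ev_const L r.2
    let e := (Algebra.botEquiv k M : _ →ₐ[k] k).comp φ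
    refine ⟨e, fun c => ⟨algebraMap k R c, e.commutes c⟩, fun r => ?_⟩
    have h2 := (Algebra.botEquiv k M).symm.commutes (e r)
    have h3 : (Algebra.botEquiv k M).symm (e r) = φ r := (Algebra.botEquiv k M).symm_apply_apply _
    exact (evO_of_mem ρ (L.fib.dom.1 r.2)).trans (congrArg Subtype.val (h3.symm.trans h2))
  · rw [mp_eq_XX]
    refine Set.ext fun Q => ⟨fun hQ => ?_, ?_⟩
    · have hl := mf.all.a1.nice.loc Q hQ
      rw [L.eq] at hQ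
      obtain ⟨O, ⟨hO, hd⟩, rfl⟩ := hQ
      obtain ⟨j, hj, g⟩ := xb.gn O hO
      have l1 := L.fib.le O hO hd
      exact ⟨_, ⟨⟨j, hj, rfl⟩, (gnU h1 hs l1 g).2.ne⟩,
        red_pts L h1 hs l1 g ((xb.pts j hj O).2 ⟨hO, g⟩) hl⟩
    · rintro ⟨_, ⟨⟨j, hj, rfl⟩, h0⟩, hQ⟩
      have u : IsU ξ j := isU_of_not_mx (hs j hj) fun hm =>
        h0 ((L.lh.eq_zero_iff (hs j hj)).2 hm)
      obtain ⟨O, hO, hd⟩ := exists_ctr (pre_loc L.lh hQ.1) (R := ch R H j) fun a ha =>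
        mem_pre.2 ((mem_pre.1 (ch_pre L hs u ha)).imp_right fun h => hQ.2.1 h)
      obtain ⟨h2, g⟩ := (xb.pts j hj O).1 hO
      have l1 : O ≤ ξ := fun a ha => (mem_pre.1 (hd.1 ha)).1
      have h3 := hT O h2 (L.fib.dom.of_le (xb.le O h2) l1)
      have h4 := red_pts L h1 hs l1 g hO (mf.all.a1.nice.loc _ h3)
      refine Pts_eq h4 hQ hQ.2.1 h4.2.1 ⟨fun s h5 => ?_, fun s h5 h6 => ?_⟩ (Dom.refl Q) ▸ h3 <;>
        obtain ⟨a, ha, rfl⟩ := (mem_red l1).1 h5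
      · exact (mem_pre.1 (hd.1 ha)).2
      · exact ev_unit l1 (hd.2 a ha ((pre_unit L.lh (l1 ha)).2 h6))

end Pool.Agent.MP_e8e0b6_ag.R2
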