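import Pool.Agent.MP_e8e0b6_ag.R2.SpecB

/-!
Trivial monodromy at a dominant geometric point.
-/

set_option autoImplicit false

open Polynomial AlgebraicGeometry CategoryTheory Limits TensorProduct IsLocalRing

namespace Pool.Agent.MP_e8e0b6_ag.R2

open Pool.Agent.MP_79c67d_ag Pool.Agent.MP_20d318_ag Pool.Agent.MP_20d318_ag.AG
  Pool.Agent.MP_20d318_ag.BV Pool.Agent.MP_20d318_ag.CB

namespace M1A

theorem exists_cl {A Ω : Type} [CommRing A] [IsDomain A] [Field Ω] [IsAlgClosed Ω] (g : A →+* Ω)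
    (hg : Function.Injective g) : ∃ (K : Type) (_ : Field K) (_ : IsAlgClosed K) (g₀ : A →+* K)
      (ι : K →+* Ω), ι.comp g₀ = g ∧ ∀ a : K, IsAlgebraic g₀.range a := by
  let L := FractionRing A
  let K := AlgebraicClosure L
  let : Algebra L Ω := (IsFractionRing.lift (K := L) hg).toAlgebra
  let ι : K →ₐ[L] Ω := IsAlgClosed.lift
  have h0 : Function.Injective (algebraMap A K) := by
    rw [IsScalarTower.algebraMap_eq A L K]
    exact (algebraMap L K).injective.comp (IsFractionRing.injective A L)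
  refine ⟨K, inferInstance, inferInstance, algebraMap A K, ι, RingHom.ext fun a => ?_, fun a => ?_⟩
  · change ι (algebraMap A K a) = _
    rw [IsScalarTower.algebraMap_apply A L K, ι.commutes]
    exact IsFractionRing.lift_algebraMap hg a
  · obtain ⟨p, h1, h2⟩ := (IsFractionRing.isAlgebraic_iff A L K).2
      (Algebra.IsAlgebraic.isAlgebraic a)
    refine ⟨p.map (algebraMap A K).rangeRestrict, (Polynomial.map_ne_zero_iff fun a b h =>
      h0 (congrArg Subtype.val h)).2 h1, ?_⟩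
    rw [aeval_def, eval₂_map]
    exact h2

theorem nz_map {K M E : Type} [Field K] [Field M] [Field E] [Algebra K M] [Algebra K E] {N : ℕ}
    (ν : M →ₐ[K] E) (h : Fin (N + 1) → M) : ν '' nz h = nz fun l => ν (h l) := by
  ext a
  constructor
  · rintro ⟨_, ⟨⟨l, rfl⟩, h0⟩, rfl⟩
    exact ⟨⟨l, rfl⟩, (map_ne_zero ν).2 h0⟩
  · rintro ⟨⟨l, rfl⟩, h0⟩
    exact ⟨h l, ⟨⟨l, rfl⟩, (map_ne_zero ν).1 h0⟩, rfl⟩

end M1A

open M1A in
theorem m1_stmt (h1 : Br2aStmt) (h2 : XfStmt) (h3 : UniStmt) (h4 : C.GalStmt') (h5 : TrfStmt)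
    (h6 : Mk1Stmt) : M1Stmt := by
  intro k _ _ _ N X S f π e hP hS hsc Ω _ _ _ s hs hd
  have := hS.integral
  obtain ⟨A, _, j, _, hj, -⟩ := T.Bun2.exists_aff (s (closedPoint Ω)) ⊤ trivial
  obtain ⟨g, hg⟩ := exists_factor s j hj
  have := g.domain_nontrivial
  have := isDomain_chart j
  have hi : Function.Injective g := by
    have : IsDominant (sp g ≫ j) := hg ▸ hd
    have h7 := (PrimeSpectrum.denseRange_comap_iff_ker_le_nilRadical g).1
      (IsDominant.of_comp_of_isOpenImmersion (sp g) j).1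
    rw [nilradical_eq_zero] at h7
    exact (RingHom.injective_iff_ker_eq_bot g).2 (le_bot_iff.1 h7)
  obtain ⟨K, _, _, g₀, ι, hι, ha⟩ := exists_cl g hi
  obtain ⟨φ, hφ⟩ := sp_surj (j ≫ f)
  let : Algebra k K := (g₀.comp φ).toAlgebra
  let : Algebra K Ω := ι.toAlgebra
  have : CharZero K := charZero_of_injective_algebraMap (algebraMap k K).injective
  have : CharZero Ω := charZero_of_injective_algebraMap (algebraMap k Ω).injective
  have e1 : sp (algebraMap K Ω) ≫ sp g₀ ≫ j = s := by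
    rw [sp_comp_assoc, ← hg, ← hι]
  have e2 : (sp g₀ ≫ j) ≫ f = sp (algebraMap k K) := by
    rw [Category.assoc, ← hφ, sp_comp]
  obtain ⟨M, _, _, η₀, h, G₀⟩ := h1 k N X S f π e hP K (sp g₀ ≫ j)
  obtain ⟨I, _, S₀, t₀, m₀⟩ := h6 K M _ G₀.tw
  let : Algebra k M := ((algebraMap K M).comp (algebraMap k K)).toAlgebra
  have : IsScalarTower k K M := .of_algebraMap_eq' rfl
  have u₀ := h3 k N X S f π e hP K M I _ η₀ h S₀ G₀ m₀ t₀
  have v₀ := h4 k K M I S f _ (nz h) S₀ hS hsc e2 ⟨G₀.one, one_ne_zero⟩ (fun _ h => h.2) u₀ A j g₀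
    rfl (fun a b h => hi (by rw [← hι]; exact congrArg ι h)) ha
  obtain ⟨E, _, _, _, _, η, ν, G, ld⟩ := h2 k N X S f π e hP K Ω M _ s η₀ h e1 G₀
  obtain ⟨J, _, S', t', m'⟩ := h6 Ω E _ G.tw
  have hc : ∀ a, ν (algebraMap K M a) = algebraMap Ω E (ι a) := fun a =>
    (ν.commutes a).trans (IsScalarTower.algebraMap_apply K Ω E a)
  have v := h5 K M Ω E I J (nz h) S₀ ν S' g₀.range m₀ t₀
    ((Set.finite_range h).subset fun _ h => h.1) (fun _ h => h.2)
    ⟨m', by rw [nz_map]; exact t', fun c hc' => by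
      obtain ⟨a, rfl⟩ := Algebra.mem_bot.1 hc'
      exact ⟨_, (hc a).symm⟩, ld⟩ ha v₀
  refine ⟨E, inferInstance, inferInstance, η, _, J, inferInstance, S', G, m', t',
    fun K' _ ι' s₀ hs₀ τ a1 a2 => v τ a1 ?_⟩
  obtain ⟨ρ, hρ⟩ := exists_factor s₀ j (by
    rw [← hs₀, Scheme.Hom.comp_apply] at hj
    rwa [Subsingleton.elim (α := PrimeSpectrum K') (closedPoint K') (sp ι' (closedPoint Ω))])
  have e3 : ι'.comp ρ = g := sp_cancel j (by rw [← sp_comp_assoc, hρ, hs₀, hg])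
  rintro _ ⟨_, ⟨_, ⟨a, rfl⟩, rfl⟩ | hz, rfl⟩
  · refine a2 _ (Or.inl ⟨_, ⟨ρ a, rfl⟩, ?_⟩)
    rw [hc]
    exact congrArg _ ((DFunLike.congr_fun e3 a).trans (DFunLike.congr_fun hι a).symm)
  · exact a2 _ (Or.inr (nz_map ν h ▸ ⟨_, hz, rfl⟩))

end Pool.Agent.MP_e8e0b6_ag.R2
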