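import Pool.Agent.MP_e8e0b6_ag.SB.Defs
import Pool.Agent.MP_e8e0b6_ag.SB.Gal

/-!
The standard charts of projective space.
-/

set_option linter.unusedSectionVars false

open AlgebraicGeometry CategoryTheory Limits MvPolynomial HomogeneousLocalization TensorProduct
open IsLocalRing

namespace Pool.Agent.MP_e8e0b6_ag.R2.Pj

open SB

attribute [local instance] MvPolynomial.gradedAlgebra

variable {k T T' : Type} [Field k] {n : ℕ} [CommRing T] [CommRing T'] {i j : Fin (n + 1)}

variable (k n) in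
/-- The grading. -/
abbrev gr := homogeneousSubmodule (Fin (n + 1)) k

/-- The map from the degree zero part of a localisation. -/
noncomputable def aw (g : MvPolynomial (Fin (n + 1)) k →+* T) (t : MvPolynomial (Fin (n + 1)) k)
    (ht : IsUnit (g t)) : Away (gr k n) t →+* T :=
  (IsLocalization.Away.lift (S := Localization.Away t) t ht).comp
    (algebraMap (Away (gr k n) t) (Localization.Away t))

theorem aw_mk (g : MvPolynomial (Fin (n + 1)) k →+* T) {t : MvPolynomial (Fin (n + 1)) k}
    (ht : IsUnit (g t)) {d : ℕ} (hd : t ∈ gr k n d) (m : ℕ) (a) (ha : a ∈ gr k n (m • d)) :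
    aw g t ht (Away.mk _ hd m a ha) * g t ^ m = g a := by
  have h : (Away.mk _ hd m a ha).val * algebraMap _ (Localization.Away t) (t ^ m) =
      algebraMap _ (Localization.Away t) a := by
    rw [Away.val_mk, Localization.mk_eq_mk']
    exact IsLocalization.mk'_spec _ _ _
  have h2 := congrArg (IsLocalization.Away.lift (S := Localization.Away t) t ht) h
  rw [map_mul, IsLocalization.Away.lift_eq, IsLocalization.Away.lift_eq, map_pow] at h2
  exact h2

variable (k) in
theorem hX (i : Fin (n + 1)) : (X i : MvPolynomial (Fin (n + 1)) k) ∈ gr k n 1 := isHomogeneous_X k i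

variable (k) in
/-- The coordinate ring of a standard chart. -/
abbrev Ch (i : Fin (n + 1)) := Away (gr k n) (X i)

variable (k) in
/-- The standard chart. -/
noncomputable def pchart (i : Fin (n + 1)) : Spec (.of (Ch k i)) ⟶ projSpace k n :=
  Proj.awayι (gr k n) (X i) (hX k i) one_pos

instance : IsOpenImmersion (pchart k i) := inferInstanceAs (IsOpenImmersion (Proj.awayι _ _ _ _))

/-- The constants. -/
noncomputable def cst (t : MvPolynomial (Fin (n + 1)) k) : k →+* Away (gr k n) t :=
  (fromZeroRingHom _ _).comp (algebraMap k (gr k n 0))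

variable (k) in
/-- The affine coordinates. -/
noncomputable def rat (i l : Fin (n + 1)) : Ch k i := Away.mk _ (hX k i) 1 (X l) (hX k l)

theorem rat_self : rat k i i = 1 := val_injective _ (by simp [rat])

theorem pchart_str : pchart k i ≫ projStr k n = sp (cst (X i)) :=
  (Proj.awayι_toSpecZero_assoc _ _ _ _ _).trans (sp_comp _ _)

theorem pchart_cover (z : projSpace k n) : ∃ i, z ∈ Set.range (pchart k i) := by
  have := Proj.iSup_basicOpen_eq_top' (gr k n) X (fun i => ⟨1, hX k i⟩) (by
    refine eq_top_iff.mpr fun p _ => ?_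
    induction p using MvPolynomial.induction_on with
    | C a => exact Subalgebra.algebraMap_mem _ (⟨C a, isHomogeneous_C _ a⟩ : gr k n 0)
    | add p q hp hq => exact add_mem (hp trivial) (hq trivial)
    | mul_X p j hp => exact mul_mem (hp trivial) (Algebra.subset_adjoin ⟨j, rfl⟩))
  obtain ⟨i, hi⟩ := TopologicalSpace.Opens.mem_iSup.mp (this.ge (Set.mem_univ z))
  rw [← Proj.opensRange_awayι _ _ (hX k i) one_pos] at hi
  exact ⟨i, hi⟩

theorem aw_cst (g : MvPolynomial (Fin (n + 1)) k →+* T) {t : MvPolynomial (Fin (n + 1)) k}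
    (ht : IsUnit (g t)) (a : k) : aw g t ht (cst t a) = g (C a) :=
  IsLocalization.Away.lift_eq (S := Localization.Away t) t ht (C a)

theorem aw_rat (g : MvPolynomial (Fin (n + 1)) k →+* T) (ht : IsUnit (g (X i))) (l) :
    aw g _ ht (rat k i l) * g (X i) = g (X l) := by
  simpa only [pow_one, rat] using aw_mk g ht (hX k i) 1 (X l) (hX k l)

theorem aw_eval (g : MvPolynomial (Fin (n + 1)) k →+* T) (ht : IsUnit (g (X i))) {m : ℕ}
    {a : MvPolynomial (Fin (n + 1)) k} (ha : a.IsHomogeneous m) :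
    aw g _ ht (eval₂ (cst (X i)) (rat k i) a) * g (X i) ^ m = g a := by
  let := (g.comp C).toAlgebra
  have h1 := aeval_scale ha (g (X i)) (aw g _ ht ∘ rat k i)
  rw [aeval_def, aeval_def, show (fun l => g (X i) * (aw g _ ht ∘ rat k i) l) = g ∘ X from
    funext fun l => (mul_comm _ _).trans (aw_rat g ht l)] at h1
  rw [eval₂_comp_left, show (aw g _ ht).comp _ = g.comp C from RingHom.ext (aw_cst g ht), mul_comm]
  exact h1.symm.trans ((eval₂_comp_left g C X a).symm.trans (congrArg g (eval₂_eta a)))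

theorem lift_away_self {R S : Type} [CommRing R] [CommRing S] [Algebra R S] (t : R)
    [IsLocalization.Away t S] (h : IsUnit (algebraMap R S t)) (z : S) :
    IsLocalization.Away.lift t h z = z :=
  DFunLike.congr_fun (IsLocalization.ringHom_ext (Submonoid.powers t)
    ((IsLocalization.Away.lift_comp t h).trans (RingHom.id_comp _).symm)) z

theorem aw_val {t : MvPolynomial (Fin (n + 1)) k}
    (h : IsUnit (algebraMap _ (Localization.Away t) t)) (z : Away (gr k n) t) :
    aw (algebraMap _ (Localization.Away t)) t h z = z.val :=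
  lift_away_self t h z.val

theorem exists_eval (z : Ch k i) : ∃ a, eval₂ (cst (X i)) (rat k i) a = z := by
  obtain ⟨m, a, ha, rfl⟩ := Away.mk_surjective _ (hX k i) z
  have h1 := IsLocalization.Away.algebraMap_isUnit
    (S := Localization.Away (X i : MvPolynomial (Fin (n + 1)) k)) (X i : MvPolynomial _ k)
  refine ⟨a, val_injective _ ((h1.pow m).mul_right_cancel ?_)⟩
  have h2 := aw_eval _ h1 (show a.IsHomogeneous m by simpa using ha)
  have h3 := aw_mk _ h1 (hX k i) m a ha
  rw [aw_val] at h2 h3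
  exact h2.trans h3.symm

theorem ch_ext {ρ ρ' : Ch k i →+* T} (h : ∀ a, ρ (cst _ a) = ρ' (cst _ a))
    (h' : ∀ l, ρ (rat k i l) = ρ' (rat k i l)) : ρ = ρ' := RingHom.ext fun z => by
  obtain ⟨a, rfl⟩ := exists_eval z
  rw [eval₂_comp_left, eval₂_comp_left, show ρ.comp _ = ρ'.comp _ from RingHom.ext h]
  exact congrArg (eval₂ _ · a) (funext h')

theorem aw_chart (g : MvPolynomial (Fin (n + 1)) k →+* T) (hi : IsUnit (g (X i)))
    (hj : IsUnit (g (X j))) : sp (aw g _ hi) ≫ pchart k i = sp (aw g _ hj) ≫ pchart k j := by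
  have key : ∀ {i j x} (hi : IsUnit (g (X i))) (hx : x = X i * X j) (h : IsUnit (g x)),
      sp (aw g _ hi) ≫ pchart k i = sp (aw g x h) ≫ Proj.awayι (gr k n) x
        (hx ▸ SetLike.mul_mem_graded (hX k i) (hX k j)) two_pos := fun {i j x} hi hx h => by
    rw [← Proj.SpecMap_awayMap_awayι _ (hX k i) one_pos (hX k j) hx]
    refine Eq.trans ?_ (sp_comp_assoc _ _ _).symm
    congr 2
    refine ch_ext (fun a => ?_) fun l => h.mul_right_cancel ?_
    · exact (aw_cst g hi a).trans ((aw_cst g h a).symm.trans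
        (congrArg _ (awayMap_fromZeroRingHom _ _ hx _).symm))
    · have := aw_mk g h (hx ▸ SetLike.mul_mem_graded (hX k i) (hX k j)) 1 (X l * X j ^ 1)
        (by simpa using SetLike.mul_mem_graded (hX k l) (hX k j))
      rw [RingHom.comp_apply, rat, awayMap_mk, ← pow_one (g x), this, hx, pow_one, pow_one,
        map_mul, map_mul, ← mul_assoc]
      exact congrArg (· * _) (aw_rat g hi l)
  have h : IsUnit (g (X i * X j)) := map_mul g _ _ ▸ hi.mul hj
  rw [key hi rfl h, key hj (mul_comm _ _) h]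

theorem chart_trans {ρ : Ch k i →+* T} {ρ' : Ch k j →+* T}
    (h : sp ρ ≫ pchart k i = sp ρ' ≫ pchart k j) (l) :
    ρ (rat k i l) * ρ' (rat k j i) = ρ' (rat k j l) := by
  let e := Proj.pullbackAwayιIso (gr k n) (hX k i) one_pos (hX k j) one_pos rfl
  obtain ⟨ψ, hψ⟩ := sp_surj (pullback.lift _ _ h ≫ e.hom)
  obtain rfl : ψ.comp (awayMap _ (hX k j) rfl) = ρ := sp_inj (by
    rw [← sp_comp, hψ, Category.assoc]
    exact (_ ≫= Proj.pullbackAwayιIso_hom_SpecMap_awayMap_left ..).trans (pullback.lift_fst ..))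
  obtain rfl : ψ.comp (awayMap _ (hX k i) (mul_comm _ _)) = ρ' := sp_inj (by
    rw [← sp_comp, hψ, Category.assoc]
    exact (_ ≫= Proj.pullbackAwayιIso_hom_SpecMap_awayMap_right ..).trans (pullback.lift_snd ..))
  simp only [RingHom.comp_apply, ← map_mul]
  congr 1
  refine val_injective _ ?_
  simp only [rat, awayMap_mk, val_mul, Away.val_mk, Localization.mk_mul, Localization.mk_eq_mk_iff,
    Localization.r_iff_exists]
  exact ⟨1, by simp; ring⟩

theorem aw_self (ρ : Ch k i →+* T) (h : IsUnit (eval₂Hom (ρ.comp (cst _)) (ρ ∘ rat k i) (X i))) :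
    aw _ _ h = ρ :=
  ch_ext (fun a => (aw_cst _ h a).trans (by simp)) fun l => by
    simpa [rat_self] using aw_rat _ h l

theorem exists_pt {E : Type} [Field E] (ρ : Ch k j →+* E) {O : Subring E}
    (hk : ∀ a, ρ (cst _ a) ∈ O) (h0 : ∀ l, ρ (rat k j l) ≠ 0) (h : Rt (fun l => ρ (rat k j l)) O) :
    ∃ ω : Spec (.of O) ⟶ projSpace k n, sp O.subtype ≫ ω = sp ρ ≫ pchart k j := by
  let g := eval₂Hom (ρ.comp (cst _)) (ρ ∘ rat k j)
  have hj : IsUnit (g (X j)) := by simp [g, rat_self]
  obtain ⟨i, h⟩ := h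
  have hi : IsUnit (g (X i)) := by simp [g, h0]
  have h1 : ∀ z, aw g _ hi z ∈ O := fun z => by
    obtain ⟨a, rfl⟩ := exists_eval z
    let := (ρ.comp (cst (X j))).toAlgebra
    have := ev_mem (B := k) hk h a
    rwa [eval₂_comp_left, show (aw g _ hi).comp _ = algebraMap k E from RingHom.ext fun a =>
      (aw_cst g hi a).trans (eval₂_C _ _ _), show aw g _ hi ∘ rat k i = fun l => ρ (rat k j l) /
        ρ (rat k j i) from funext fun l => eq_div_of_mul_eq (h0 i) (by simpa [g] using aw_rat g hi l)]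
  refine ⟨sp ((aw g _ hi).codRestrict O h1) ≫ pchart k i, ?_⟩
  rw [sp_comp_assoc, ← aw_self ρ hj, ← aw_chart g hi hj]
  rfl

noncomputable instance : Algebra k (Ch k i) := (cst (X i)).toAlgebra

theorem bc_chart {C D A : Type} [CommRing C] [CommRing D] [CommRing A] [Algebra C D] [Algebra C A]
    {Y Z : Scheme.{0}} {q : Y ⟶ Spec (.of C)} {m : Z ⟶ Y} {q' : Z ⟶ Spec (.of D)}
    (H : IsPullback m q' q (sp (algebraMap C D))) (j : Spec (.of A) ⟶ Y) [IsOpenImmersion j]
    (h : j ≫ q = sp (algebraMap C A)) : ∃ j' : Spec (.of (D ⊗[C] A)) ⟶ Z, IsOpenImmersion j' ∧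
      j' ≫ q' = sp (algebraMap D _) ∧
      j' ≫ m = sp (Algebra.TensorProduct.includeRight (R := C) (A := D)).toRingHom ≫ j ∧
      ∀ z, m z ∈ Set.range j → z ∈ Set.range j' := by
  obtain ⟨j', h1, h2, h3⟩ := exists_bc_chart H j h
  refine ⟨j', h1, h2, h3, fun z ⟨y, hy⟩ => ?_⟩
  have P := (isPullback_SpecMap_of_isPushout _ _ _ _ (CommRingCat.isPushout_tensorProduct C D A))
  obtain ⟨w, -, hw⟩ := Scheme.exists_preimage_of_isPullback
    (IsPullback.of_bot (by rw [h, h2]; exact P.flip) h3.symm H) y z hy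
  exact ⟨w, hw⟩

end Pool.Agent.MP_e8e0b6_ag.R2.Pj
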