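import Pool.Agent.MP_e8e0b6_ag.R2.SpecS

/-! Points with values in a local ring lie in a chart. -/

set_option autoImplicit false

open AlgebraicGeometry CategoryTheory IsLocalRing

namespace Pool.Agent.MP_e8e0b6_ag.R2

theorem pts_stmt : PtsStmt := by
  intro k A F _ _ _ _ _ g H Y q η j h T _ _ y e hy
  obtain ⟨a, ha⟩ := h.cov (y (closedPoint T))
  have := h.opn a
  obtain ⟨θ, hθ⟩ := exists_factor y (j a) ha
  obtain ⟨ψ, hψ⟩ := sp_surj (j a ≫ q)
  have h1 : ((ch g.range H a).val : ch g.range H a →+* F).comp ψ = (g : A →+* F) := sp_inj (by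
    rw [← sp_comp, hψ, ← Category.assoc, h.gen a, h.base])
  have h2 : θ.comp ψ = e := sp_inj (by rw [← sp_comp, hψ, ← Category.assoc, hθ, hy])
  refine ⟨a, θ, hθ, fun p hp => ?_⟩
  rw [← h2, RingHom.comp_apply]
  congr 1
  exact Subtype.ext (DFunLike.congr_fun h1 p).symm

end Pool.Agent.MP_e8e0b6_ag.R2
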