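import Pool.Agent.MP_20d318_ag.CB.P2B

/-!
Families of rational surfaces in the language of local rings: the data.
-/

set_option autoImplicit false

namespace Pool.Agent.MP_e8e0b6_ag.R2

open Pool.Agent.MP_79c67d_ag Pool.Agent.MP_20d318_ag Pool.Agent.MP_20d318_ag.AG
  Pool.Agent.MP_20d318_ag.BV Pool.Agent.MP_20d318_ag.CB

/-! ### One surface -/

section surf

variable {k M : Type} [Field k] [Field M] [Algebra k M]

/-- Marked towers. -/
inductive Mk : ∀ {I : Type} [Fintype I], Sd k M I → Prop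
  | p2 (x y : M) (L : Place k M) : P2 k x y L → Mk (p2 k x y)
  | fn (n : ℕ) (x y : M) (F G : Place k M) : Fn1 k n x y F G → Mk (fn k n x y)
  | bl {I : Type} [Fintype I] (S : Sd k M I) (O₀ : Subalgebra k M) (a b : M) (H' : Set M)
      (e : Subalgebra k M → M) (E : Place k M) : Mk S → Bl2 S O₀ a b H' e E → Mk (S.blow H' e)

variable {I I₀ : Type} [Fintype I] [Fintype I₀]

/-- The finite set `U` generates a line bundle of class `c`. -/
def Cl (S : Sd k M I) (U : Set M) (c : I → ℤ) : Prop :=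
  ∃ φ : M, φ ≠ 0 ∧ ∀ O ∈ S.T, Gn U O (φ * (S.lb c O)⁻¹)

/-- There are no more sections than Riemann-Roch predicts. -/
def Ex (S : Sd k M I) (c : I → ℤ) : Prop := 2 * S.h0 c ≤ chi2 S.B S.K c

/-- The Gram matrix is invertible over the integers. -/
def Unim (B : I → I → ℤ) : Prop := ∀ d : (I → ℤ) →+ ℤ, ∃ z : I → ℤ, ∀ c, ip B c z = d c

/-- `S` lies over `S₀` and `p` is the pull-back of classes. -/
structure Pb (S : Sd k M I) (S₀ : Sd k M I₀) (p : (I₀ → ℤ) →+ (I → ℤ)) : Prop where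
  maps : ∀ O ∈ S.T, ∃ O₀ ∈ S₀.T, Dom O₀ O
  lb : ∀ c, ∀ O ∈ S.T, ∀ O₀ ∈ S₀.T, Dom O₀ O → IsU O (S.lb (p c) O / S₀.lb c O₀)
  iso : ∀ c c', ip S.B (p c) (p c') = ip S₀.B c c'
  can : ∀ c, ip S.B S.K (p c) = ip S₀.B S₀.K c
  sec : ∀ c, S.Sec (p c) = S₀.Sec c

/-- A class all of whose members are rational curves with a line bundle of degree one. -/
structure Nc (S : Sd k M I) (d : I → ℤ) : Prop where
  ex : Ex S d
  eff : d ∈ S.Ef
  prm : ∀ φ ∈ S.Sec d, φ ≠ 0 → ∃ P, S.Prm d φ P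
  one : ∃ D, ip S.B D d = 1 ∧ Ex S D ∧ S.h0 (D - d) + 2 ≤ S.h0 D

/-- `w` is a coordinate on the prime divisor `P`. -/
structure Cw (T : Set (Subalgebra k M)) (P : Place k M) (w : M) : Prop where
  ind : Ind (plO P) ![w]
  reg : ∀ O ∈ T, O ≤ plO P → w ∈ O ∨ w⁻¹ ∈ O
  gen : ∀ a ∈ plO P, ∃ p q : Polynomial k, q ≠ 0 ∧
    a * Polynomial.aeval w q - Polynomial.aeval w p ∈ mx (plO P)
  inj : ∀ O ∈ T, ∀ O' ∈ T, O ≤ plO P → O' ≤ plO P →
    ((∃ c : k, w - algebraMap k M c ∈ mx O ∧ w - algebraMap k M c ∈ mx O') ∨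
      (w⁻¹ ∈ mx O ∧ w⁻¹ ∈ mx O')) → O = O'

end surf

/-! ### Families -/

section fam

variable {k F M Ω E I J I₀ : Type} [Field k] [Field F] [Field M] [Field Ω] [Field E] [Algebra k F]
  [Algebra k M] [Algebra k E] [Algebra Ω E] [Fintype I] [Fintype J] [Fintype I₀]

/-- A standard chart. -/
def ch (C : Subalgebra k F) (H : Set F) (j : F) : Subalgebra k F :=
  C ⊔ Algebra.adjoin k ((fun a => a / j) '' H)

/-- The closed subvariety of projective space over `C` with homogeneous coordinates `H`. -/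
def XX (C : Subalgebra k F) (H : Set F) : Set (Subalgebra k F) :=
  {O | ∃ j ∈ H, O ∈ Pts (ch C H j)}

/-- `D` is a ring of fractions of `C`. -/
def Lz (C D : Subalgebra k F) : Prop := C ≤ D ∧ ∀ f ∈ D, ∃ a ∈ C, ∃ b ∈ C, IsU D b ∧ f = a / b

/-- `ξ` is the generic point of the integral closed fibre over the local ring `R`. -/
structure Fib (R : Subalgebra k F) (H : Set F) (ξ : Subalgebra k F) : Prop where
  mem : ξ ∈ XX R H
  dom : Dom R ξ
  le : ∀ O ∈ XX R H, Dom R O → O ≤ ξ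
  red : ∀ O ∈ XX R H, Dom R O → ∀ a ∈ O, a ∈ mx ξ → a ∈ Submodule.span O (mx R)

/-- Locally factorial projective families with integral fibres. -/
structure Fm (C : Subalgebra k F) (H : Set F) : Prop where
  fin : H.Finite
  ne : H.Nonempty
  nz : ∀ a ∈ H, a ≠ 0
  frac : ∀ j ∈ H, Frac (ch C H j)
  noeth : IsNoetherianRing C
  ufdC : ∀ R ∈ Pts C, UniqueFactorizationMonoid R
  ufd : ∀ O ∈ XX C H, UniqueFactorizationMonoid O
  fib : ∀ R ∈ Pts C, ∃ ξ, Fib R H ξ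
  flat : ∀ O ∈ XX C H, ∀ h : C ≤ O, (Subalgebra.inclusion h).toRingHom.Flat

/-- The image of a local ring in the function field of the closed fibre. -/
def red (ξ : Subalgebra k F) (ρ : ξ →ₐ[k] M) (O : Subalgebra k F) : Subalgebra k M :=
  (O.comap ξ.val).map ρ

/-- The family over the local ring of a rational point, with its closed fibre `S`. -/
structure Lc (R : Subalgebra k F) (H : Set F) (ξ : Subalgebra k F) (ρ : ξ →ₐ[k] M)
    (S : Sd k M I) : Prop where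
  fm : Fm R H
  loc : IsLocalRing R
  rat : RatPt R
  fib : Fib R H ξ
  lh : LocHom ξ ρ
  surj : Function.Surjective ρ
  ind : ∀ (ι : Type) (v : ι → F), (∀ i, v i ∈ ξ) →
    LinearIndependent k (fun i => evO ξ ρ (v i)) → LinearIndependent R v
  mrk : Mk S
  eq : S.T = red ξ ρ '' {O | O ∈ XX R H ∧ Dom R O}

/-- A geometric generic fibre `S'`. -/
structure Gc (C : Subalgebra k F) (H : Set F) (μ : F →ₐ[k] E) (S' : Sd Ω E J) : Prop where
  mrk : Mk S'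
  eq : S'.T = mp Ω fun _ : Unit => μ '' H
  base : ∀ c ∈ C, μ c ∈ Set.range (algebraMap Ω E)
  ld : ∀ (ι : Type) (v : ι → F), LinearIndependent C v → LinearIndependent Ω fun i => μ (v i)

/-- A family over a smooth affine base with all its fibres. -/
structure Gd (C : Subalgebra k F) (H : Set F) (μ : F →ₐ[k] E) (S' : Sd Ω E J) : Prop where
  sm : Algebra.Smooth k C
  fm : Fm C H
  gc : Gc C H μ S'
  lc : ∀ R ∈ Pts C, RatPt R → ∃ (M : Type) (_ : Field M) (_ : Algebra k M) (I : Type)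
    (_ : Fintype I) (ξ : Subalgebra k F) (ρ : ξ →ₐ[k] M) (S : Sd k M I), Lc R H ξ ρ S

/-- All smooth base changes inside `Ω` of the family over `C₀` are good. -/
def Uni (C₀ : Subalgebra k E) (H₀ : Set E) (S' : Sd Ω E J) : Prop :=
  ∀ (F : Type) [Field F] [Algebra k F] (μ : F →ₐ[k] E) (C : Subalgebra k F) (H : Set F),
    μ '' H = H₀ → C₀ ≤ C.map μ → (∀ c ∈ C, μ c ∈ Set.range (algebraMap Ω E)) →
    Algebra.Smooth k C → (∀ j ∈ H, Frac (ch C H j)) → Gd C H μ S'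

/-- A finite set that generates a principal fractional ideal at every point. -/
def Sys (X : Set (Subalgebra k F)) (U : Set F) : Prop := U.Finite ∧ ∀ O ∈ X, Prin U O

/-- Local equations of a line bundle: a quotient of two systems. -/
def Dt (X : Set (Subalgebra k F)) (γ : Subalgebra k F → F) : Prop :=
  ∃ U V, Sys X U ∧ Sys X V ∧ ∀ O ∈ X, ∃ a b, Gn U O a ∧ Gn V O b ∧ IsU O (γ O * a / b)

/-- The sections of a line bundle. -/
def Sc (X : Set (Subalgebra k F)) (γ : Subalgebra k F → F) : Set F := {z | ∀ O ∈ X, z * γ O ∈ O}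

/-- The restriction of `γ` to the closed fibre has the equations of the class `d`. -/
def Lb (R : Subalgebra k F) (H : Set F) (ξ : Subalgebra k F) (ρ : ξ →ₐ[k] M) (S : Sd k M I)
    (d : I → ℤ) (γ : Subalgebra k F → F) : Prop :=
  ∀ O ∈ XX R H, Dom R O → IsU ξ (γ O) ∧
    IsU (red ξ ρ O) (evO ξ ρ (γ O) / S.lb d (red ξ ρ O))

/-- The restriction of `γ` to the geometric generic fibre has class `c`. -/
def Lg (X : Set (Subalgebra k F)) (μ : F →ₐ[k] E) (S' : Sd Ω E J) (c : J → ℤ)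
    (γ : Subalgebra k F → F) : Prop :=
  ∃ φ : E, φ ≠ 0 ∧ ∀ O' ∈ S'.T, ∀ O ∈ X, (∀ a ∈ O, μ a ∈ O') →
    IsU O' (μ (γ O) / (φ * S'.lb c O'))

/-- Every class is a difference of classes of systems defined over `F`. -/
def Rat (μ : F →ₐ[k] E) (S' : Sd Ω E J) : Prop :=
  ∀ c, ∃ (U V : Set F) (c₁ c₂ : J → ℤ), U.Finite ∧ V.Finite ∧ Cl S' (μ '' U) c₁ ∧
    Cl S' (μ '' V) c₂ ∧ c = c₁ - c₂

/-- Semilinear automorphisms that fix `Z` act trivially on classes. -/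
def Triv (Z : Set E) (S' : Sd Ω E J) : Prop :=
  ∀ τ : E ≃+* E, τ '' Set.range (algebraMap Ω E) = Set.range (algebraMap Ω E) →
    (∀ z ∈ Z, τ z = z) → ∀ (U : Set E) (c : J → ℤ), U.Finite → Cl S' U c → Cl S' (τ '' U) c

/-- Classes and sections lift from the closed fibre. -/
structure LA (R : Subalgebra k F) (H : Set F) (ξ : Subalgebra k F) (ρ : ξ →ₐ[k] M)
    (S : Sd k M I) : Prop where
  ex : ∀ d, ∃ γ, Dt (XX R H) γ ∧ Lb R H ξ ρ S d γ
  surj : ∀ d γ, Dt (XX R H) γ → Lb R H ξ ρ S d γ → Ex S d → ∀ s ∈ S.Sec d,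
    ∃ z ∈ Sc (XX R H) γ, evO ξ ρ z = s
  span : ∀ d γ, Dt (XX R H) γ → Lb R H ξ ρ S d γ → Ex S d → ∀ W ⊆ Sc (XX R H) γ,
    S.Sec d ≤ Submodule.span k (evO ξ ρ '' W) → ∀ z ∈ Sc (XX R H) γ, z ∈ Submodule.span R W

/-- The specialization of classes. -/
structure Sp (R : Subalgebra k F) (H : Set F) (ξ : Subalgebra k F) (ρ : ξ →ₐ[k] M)
    (S : Sd k M I) (μ : F →ₐ[k] E) (S' : Sd Ω E J) (σ : (J → ℤ) ≃+ (I → ℤ)) : Prop where
  iso : ∀ c c', ip S.B (σ c) (σ c') = ip S'.B c c'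
  can : σ S'.K = S.K
  eff : ∀ c ∈ S'.Ef, σ c ∈ S.Ef
  rel : ∀ c γ, Dt (XX R H) γ → Lg (XX R H) μ S' c γ →
    ∃ u : F, u ≠ 0 ∧ Lb R H ξ ρ S (σ c) fun O => u * γ O
  amp : ∀ h', Cl S' (μ '' H) h' → ∀ c ∈ S.PP, 0 < ip S.B (σ h') c

/-- The affine plane over `R` with coordinates `c`. -/
def pl (R : Subalgebra k F) (c : F × F) : Subalgebra k F := R ⊔ Algebra.adjoin k {c.1, c.2}

/-- A compatible family of lifted charts of the surface `S₀` below the closed fibre. -/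
structure Cf (R : Subalgebra k F) (H : Set F) (ξ : Subalgebra k F) (ρ : ξ →ₐ[k] M)
    (T₀ : Set (Subalgebra k M)) (𝒞 : Set (F × F)) : Prop where
  mem : ∀ c ∈ 𝒞, c.1 ∈ ξ ∧ c.2 ∈ ξ
  gen : ∀ c ∈ 𝒞, GenP k (evO ξ ρ c.1) (evO ξ ρ c.2)
  sub : ∀ c ∈ 𝒞, Pts (Algebra.adjoin k {evO ξ ρ c.1, evO ξ ρ c.2}) ⊆ T₀
  frac : ∀ c ∈ 𝒞, Frac (pl R c)
  reg : ∀ c ∈ 𝒞, ∀ O ∈ XX R H, Dom R O → evO ξ ρ c.1 ∈ red ξ ρ O → evO ξ ρ c.2 ∈ red ξ ρ O →
    c.1 ∈ O ∧ c.2 ∈ O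
  cmp : ∀ c ∈ 𝒞, ∀ c' ∈ 𝒞, ∀ V : Subalgebra k F, IsVal V → pl R c' ≤ V →
    ∀ O ∈ Pts (pl R c), Dom O V → c'.1 ∈ O ∧ c'.2 ∈ O
  cov : ∀ Y ⊆ T₀, Y.Finite → ∃ c ∈ 𝒞, ∀ O ∈ Y, evO ξ ρ c.1 ∈ O ∧ evO ξ ρ c.2 ∈ O

end fam

end Pool.Agent.MP_e8e0b6_ag.R2
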