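import Pool.Agent.MP_e8e0b6_ag.R2.Spec0
import Pool.Agent.MP_e8e0b6_ag.R2.Defs
import Pool.Agent.MP_e8e0b6_ag.S.Tools

/-!
Families of rational surfaces: the statements that link the parts of the proof.
-/

set_option autoImplicit false

open AlgebraicGeometry CategoryTheory

namespace Pool.Agent.MP_e8e0b6_ag.R2

open Pool.Agent.MP_79c67d_ag Pool.Agent.MP_20d318_ag Pool.Agent.MP_20d318_ag.AG
  Pool.Agent.MP_20d318_ag.BV Pool.Agent.MP_20d318_ag.CB

/-- Facts about marked towers. -/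
structure MkF {k M I : Type} [Field k] [Field M] [Algebra k M] [Fintype I] (S : Sd k M I) :
    Prop where
  all : SAll S
  uni : Unim S.B
  kne : S.K ∉ S.Ef
  exh : ∀ m : ℕ, Ex S (m • S.h)

/-- Finitely many points of the closed fibre lie in an affine plane over `R`. -/
def ChO {k F : Type} [Field k] [Field F] [Algebra k F] (R : Subalgebra k F) (H : Set F) : Prop :=
  ∀ Y ⊆ XX R H, Y.Finite → (∀ O ∈ Y, Dom R O) → ∃ c : F × F,
    AlgebraicIndependent R ![c.1, c.2] ∧ Frac (pl R c) ∧ (∀ O ∈ Y, O ∈ Pts (pl R c)) ∧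
      Pts (pl R c) ⊆ XX R H

/-- All affine pieces through which the geometric point `s` factors carry good families. -/
def UniS (k : Type) {Ω E J : Type} [Field k] [Field Ω] [Field E] [Algebra k Ω] [Algebra Ω E]
    [Algebra k E] [IsScalarTower k Ω E] [Fintype J] {S : Scheme.{0}} (s : Spec (.of Ω) ⟶ S)
    (H₀ : Set E) (S' : Sd Ω E J) : Prop :=
  ∀ (A : Type) [CommRing A] [Algebra k A] (g : A →ₐ[k] Ω) (σ : Spec (.of A) ⟶ S),
    Function.Injective g → sp (g : A →+* Ω) ≫ σ = s →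
      Uni ((IsScalarTower.toAlgHom k Ω E).comp g).range H₀ S'

/-- MK1. -/
def Mk1Stmt : Prop := ∀ (k M : Type) [Field k] [CharZero k] [IsAlgClosed k] [Field M]
  [Algebra k M] (T : Set (Subalgebra k M)), RS.Tower T →
    ∃ (I : Type) (_ : Fintype I) (S : Sd k M I), S.T = T ∧ Mk S

/-- MK2. -/
def Mk2Stmt : Prop := ∀ (k M I : Type) [Field k] [CharZero k] [IsAlgClosed k] [Field M]
  [Algebra k M] [Fintype I] (S : Sd k M I), Mk S → MkF S

/-- GOOD: a class whose members are lines in all fibres. -/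
def GoodStmt : Prop := ∀ (Ω E J : Type) [Field Ω] [CharZero Ω] [IsAlgClosed Ω] [Field E]
  [Algebra Ω E] [Fintype J] (S' : Sd Ω E J) (h' : J → ℤ), Mk S' → h' ∈ S'.Ef →
  (∀ c ∈ S'.PP, 0 < ip S'.B h' c) → ∃ ε : J → ℤ, ∀ (k M I : Type) [Field k] [CharZero k]
    [IsAlgClosed k] [Field M] [Algebra k M] [Fintype I] (S : Sd k M I) (σ : (J → ℤ) ≃+ (I → ℤ)),
    Mk S → (∀ c c', ip S.B (σ c) (σ c') = ip S'.B c c') → σ S'.K = S.K →
    (∀ c ∈ S'.Ef, σ c ∈ S.Ef) → (∀ c ∈ S.PP, 0 < ip S.B (σ h') c) → Nc S (σ ε)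

/-- AMP: the class of a projective embedding. -/
def AmpStmt : Prop := ∀ (k M I : Type) [Field k] [CharZero k] [IsAlgClosed k] [Field M]
  [Algebra k M] [Fintype I] (S : Sd k M I) (H : Set M), SAll S → H.Finite → (∀ a ∈ H, a ≠ 0) →
  S.T = mp k (fun _ : Unit => H) → ∃ h, Cl S H h ∧ h ∈ S.Ef ∧ ∀ c ∈ S.PP, 0 < ip S.B h c

/-- INV: the inverse of a finite set of functions. -/
def InvStmt : Prop := ∀ (k F : Type) [Field k] [Field F] [Algebra k F] (C : Subalgebra k F)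
  (H U : Set F), Fm C H → U.Finite → (∃ u ∈ U, u ≠ 0) → ∃ (N : ℕ) (V : Set F), V.Finite ∧
    ∀ O ∈ XX C H, ∃ a j, Gn V O a ∧ Gn H O j ∧ ∀ b, (∀ u ∈ U, b * u ∈ O) ↔ b * j ^ N / a ∈ O

/-- DT: rational classes come from line bundles on the family. -/
def DtStmt : Prop := ∀ (k F Ω E J : Type) [Field k] [Field F] [Field Ω] [CharZero Ω]
  [IsAlgClosed Ω] [Field E] [Algebra k F] [Algebra k E] [Algebra Ω E] [Fintype J]
  (C : Subalgebra k F) (H : Set F) (μ : F →ₐ[k] E) (S' : Sd Ω E J), Fm C H → Gc C H μ S' →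
  Rat μ S' → ∀ c, ∃ γ, Dt (XX C H) γ ∧ Lg (XX C H) μ S' c γ

/-- S1: sections on the geometric generic fibre are spanned by sections on the family. -/
def S1Stmt : Prop := ∀ (k F Ω E J : Type) [Field k] [Field F] [Field Ω] [Field E] [Algebra k F]
  [Algebra k E] [Algebra Ω E] [Fintype J] (C : Subalgebra k F) (H : Set F) (μ : F →ₐ[k] E)
  (S' : Sd Ω E J) (γ : Subalgebra k F → F), Fm C H → Gc C H μ S' → Dt (XX C H) γ → ∀ y : E,
  (∀ O' ∈ S'.T, ∀ O ∈ XX C H, (∀ a ∈ O, μ a ∈ O') → y * μ (γ O) ∈ O') →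
    y ∈ Submodule.span Ω (μ '' Sc (XX C H) γ)

/-- SP: specialization when all generic classes are rational. -/
def SpStmt : Prop := ∀ (k F M Ω E I J : Type) [Field k] [CharZero k] [IsAlgClosed k] [Field F]
  [Field M] [Field Ω] [CharZero Ω] [IsAlgClosed Ω] [Field E] [Algebra k F] [Algebra k M]
  [Algebra k E] [Algebra Ω E] [Fintype I] [Fintype J] (R : Subalgebra k F) (H : Set F)
  (ξ : Subalgebra k F) (ρ : ξ →ₐ[k] M) (S : Sd k M I) (μ : F →ₐ[k] E) (S' : Sd Ω E J),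
  Lc R H ξ ρ S → Gc R H μ S' → Rat μ S' → LA R H ξ ρ S ∧ ∃ σ, Sp R H ξ ρ S μ S' σ

/-- RATOF: if all special classes lift then all generic classes come from the family. -/
def RatOfStmt : Prop := ∀ (k F M Ω E I J : Type) [Field k] [CharZero k] [IsAlgClosed k] [Field F]
  [Field M] [Field Ω] [CharZero Ω] [IsAlgClosed Ω] [Field E] [Algebra k F] [Algebra k M]
  [Algebra k E] [Algebra Ω E] [Fintype I] [Fintype J] (R : Subalgebra k F) (H : Set F)
  (ξ : Subalgebra k F) (ρ : ξ →ₐ[k] M) (S : Sd k M I) (μ : F →ₐ[k] E) (S' : Sd Ω E J),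
  Lc R H ξ ρ S → Gc R H μ S' → (∀ d, ∃ γ, Dt (XX R H) γ ∧ Lb R H ξ ρ S d γ) →
    ∀ c, ∃ γ, Dt (XX R H) γ ∧ Lg (XX R H) μ S' c γ

/-- VN: a local ring that is dominated by all valuation rings over `P` is finite over `P`. -/
def VnStmt : Prop := ∀ (k F : Type) [Field k] [Field F] [Algebra k F] (P O : Subalgebra k F)
  (G : Set F), IsLocalRing P → G.Finite → O ∈ Pts (P ⊔ Algebra.adjoin k G) →
  (∀ V : Subalgebra k F, IsVal V → Dom P V → Dom O V) →
    ∃ W : Set F, W.Finite ∧ ∀ z, z ∈ O ↔ z ∈ Submodule.span P W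

/-- CH: charts. -/
def ChStmt : Prop := ∀ (k F M I : Type) [Field k] [CharZero k] [IsAlgClosed k] [Field F] [Field M]
  [Algebra k F] [Algebra k M] [Fintype I] (R : Subalgebra k F) (H : Set F) (ξ : Subalgebra k F)
  (ρ : ξ →ₐ[k] M) (S : Sd k M I), Lc R H ξ ρ S → LA R H ξ ρ S → ChO R H

/-- EXT: automorphisms of the constants extend to the function field. -/
def ExtStmt : Prop := ∀ (k F Ω E J : Type) [Field k] [Field F] [Field Ω] [Field E] [Algebra k F]
  [Algebra k E] [Algebra Ω E] [Fintype J] (C : Subalgebra k F) (H : Set F) (μ : F →ₐ[k] E)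
  (S' : Sd Ω E J), Gc C H μ S' → ⊤ ∈ S'.T → ∀ g : Ω ≃+* Ω,
  (∀ a, algebraMap Ω E a ∈ μ '' C → g a = a) → ∃ τ : E ≃+* E,
    (∀ a, τ (algebraMap Ω E a) = algebraMap Ω E (g a)) ∧ ∀ z, τ (μ z) = μ z

/-- GAL: the monodromy on classes is trivial. -/
def GalStmt : Prop := ∀ (k Ω E J : Type) [Field k] [CharZero k] [IsAlgClosed k] [Field Ω]
  [IsAlgClosed Ω] [Field E] [Algebra k Ω] [Algebra Ω E] [Algebra k E] [IsScalarTower k Ω E]
  [Fintype J] (S : Scheme.{0}) (f : S ⟶ Spec (.of k)) (s : Spec (.of Ω) ⟶ S) (H₀ : Set E)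
  (S' : Sd Ω E J), SmoothVariety f → SimplyConnected S → s ≫ f = sp (algebraMap k Ω) →
  1 ∈ H₀ → UniS k s H₀ S' → ∀ (A : Type) [CommRing A] (j : Spec (.of A) ⟶ S) [IsOpenImmersion j]
  (g : A →+* Ω), sp g ≫ j = s → Function.Injective g → (∀ a : Ω, IsAlgebraic g.range a) →
    Triv (algebraMap Ω E '' Set.range g ∪ H₀) S'

end Pool.Agent.MP_e8e0b6_ag.R2
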