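import Pool.Agent.MP_e8e0b6_ag.R2.Spec1
import Pool.Agent.MP_e8e0b6_ag.R2.CSpec

/-!
Families of rational surfaces: the rows of the specialization theorem.
-/

set_option autoImplicit false

namespace Pool.Agent.MP_e8e0b6_ag.R2

open Pool.Agent.MP_79c67d_ag Pool.Agent.MP_20d318_ag Pool.Agent.MP_20d318_ag.AG
  Pool.Agent.MP_20d318_ag.BV Pool.Agent.MP_20d318_ag.CB
open Pool.Agent.MP_20d318_ag.RS (jac)
open scoped IntermediateField Pointwise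

/-! ### One surface -/

section surf

variable {k M I : Type} [Field k] [Field M] [Algebra k M] [Fintype I] (S : Sd k M I)

/-- Classes that are positive on all curves. -/
def Pos (h : I → ℤ) : Prop := ∀ c ∈ S.PP, 0 < S.i h c

/-- Classes with the numbers of a fibre. -/
def Zf (c : I → ℤ) : Prop := S.i c c = 0 ∧ S.i S.K c = -2

/-- All facts about a marked tower. -/
structure Mf : Prop extends MkF S where
  hg : Hg S.B
  lt : Lt S

/-- Exact classes and classes of lines. -/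
structure Nl : Prop where
  ex0 : Ex S 0
  up : ∀ c ∈ S.PP, S.i c c + S.i S.K c = -2 → ∀ D, -1 ≤ S.i D c → Ex S (D - c) → Ex S D
  nc : ∀ d ∈ S.Ef, S.i d d + S.i S.K d = -2 → -1 ≤ S.i d d →
    (S.i S.h d = 1 ∨ (d ∈ S.PP ∧ S.i d d < 0)) → ∀ D ∈ S.Ef, Ex S D → S.i (D + d) d = 1 →
      S.K ∉ S.Ef → Nc S d

end surf

/-- MKA. -/
def MkaStmt : Prop := ∀ (k M I : Type) [Field k] [CharZero k] [IsAlgClosed k] [Field M]
  [Algebra k M] [Fintype I] (S : Sd k M I), Mk S → SAll S ∧ Hg S.B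

/-- MKL. -/
def MklStmt : Prop := MkaStmt → ∀ (k M I : Type) [Field k] [CharZero k] [IsAlgClosed k] [Field M]
  [Algebra k M] [Fintype I] (S : Sd k M I), Mk S → Lt S ∧ S.K ∉ S.Ef

/-- NL. -/
def NlStmt : Prop := ∀ (k M I : Type) [Field k] [CharZero k] [IsAlgClosed k] [Field M]
  [Algebra k M] [Fintype I] (S : Sd k M I), SAll S → Nl S

/-- EXB: the step of the exactness of the multiples of the hyperplane class. -/
def ExbStmt : Prop := ∀ (k M I : Type) [Field k] [CharZero k] [IsAlgClosed k] [Field M]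
  [Algebra k M] [Fintype I] (S : Sd k M I) (O₀ : Subalgebra k M) (a b : M) (H' : Set M)
  (e : Subalgebra k M → M) (E : Place k M), Bl2 S O₀ a b H' e E → SAll S → SAll (S.blow H' e) →
  ∀ m : ℕ, Ex S ((2 * m) • S.h) → Ex (S.blow H' e) (m • (S.blow H' e).h)

/-- EXH. -/
def ExhStmt : Prop := MkaStmt → NlStmt → ExbStmt → ∀ (k M I : Type) [Field k] [CharZero k]
  [IsAlgClosed k] [Field M] [Algebra k M] [Fintype I] (S : Sd k M I), Mk S →
  ∀ m : ℕ, Ex S (m • S.h)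

/-- Picard number one and two. -/
def Rk : Prop := ∀ (k M I : Type) [Field k] [CharZero k] [IsAlgClosed k] [Field M]
  [Algebra k M] [Fintype I] (S : Sd k M I), Mk S → Mf S → 0 < Fintype.card I ∧
  (Fintype.card I = 1 → ∃ l, S.K = (-3 : ℤ) • l ∧ Nc S l) ∧
  (Fintype.card I = 2 → ∃ f g, Zf S f ∧ Nc S f ∧ (∀ c, Zf S c → c = f ∨ c = g) ∧
    (Nc S g ∨ ∀ h, Pos S h → S.i h f < S.i h g))

/-- RK. -/
def RkStmt : Prop := NlStmt → Rk

/-- All facts hold for marked towers. -/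
def MfAll : Prop := ∀ (k M I : Type) [Field k] [CharZero k] [IsAlgClosed k] [Field M]
  [Algebra k M] [Fintype I] (S : Sd k M I), Mk S → Mf S

/-- GOODA. -/
def GoodAStmt : Prop := MfAll → NlStmt → Rk → Cone → PrimeStmt → GoodStmt

/-- CAN0: the canonical class in terms of a projective embedding. -/
def Can0Stmt : Prop := ∀ (k M I : Type) [Field k] [CharZero k] [IsAlgClosed k] [Field M]
  [Algebra k M] [Fintype I] (S : Sd k M I) (H : Set M) (D₁ D₂ : Derivation k M M), SAll S →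
  S.T = mp k (fun _ : Unit => H) → (∀ a ∈ H, a ≠ 0) →
  (∀ a b, GenP k a b → jac D₁ D₂ a b ≠ 0) → ∃ ψ : M, ψ ≠ 0 ∧ ∀ O ∈ S.T,
    (∀ x y, Cht O x y → IsU O (jac D₁ D₂ x y * S.lb S.K O / ψ)) ∧ ∀ j, Gn H O j →
    (∀ a ∈ H, ∀ b ∈ H, ∀ c ∈ H, c ^ 3 * jac D₁ D₂ (a / c) (b / c) * S.lb S.K O / (j ^ 3 * ψ) ∈ O) ∧
    (j ∈ H → ∃ a ∈ H, ∃ b ∈ H, IsU O (jac D₁ D₂ (a / j) (b / j) * S.lb S.K O / ψ))

/-! ### General algebra -/

section alg

variable (A : Type) {G : Type} [CommRing A] [Field G] [Algebra A G]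

/-- Forms of degree `n` in `H`. -/
abbrev Fo (H : Set G) (n : ℕ) : Submodule A G := Submodule.span A H ^ n

/-- A chart, as a module. -/
abbrev Ad (H : Set G) (j : G) : Submodule A G :=
  Subalgebra.toSubmodule (Algebra.adjoin A ((fun a => a / j) '' H))

variable {A}

/-- The functions that multiply `a` and `a'` into `N`. -/
def Zs (N : Submodule A G) (a a' : G) : Submodule A G :=
  N.comap (LinearMap.mulRight A a) ⊓ N.comap (LinearMap.mulRight A a')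

theorem mem_Zs {N : Submodule A G} {a a' z : G} : z ∈ Zs N a a' ↔ z * a ∈ N ∧ z * a' ∈ N := Iff.rfl

end alg

/-- FORM: forms and charts. -/
def FormStmt : Prop := ∀ (A G : Type) [CommRing A] [Field G] [Algebra A G] (H : Set G)
  (I : Ideal A), H.Finite → (∀ j ∈ H, j ≠ 0) →
  (∀ j ∈ H, ∀ z ∈ I • Ad A H j, ∃ n₀, ∀ n ≥ n₀, z * j ^ n ∈ I • Fo A H n) ∧
  ∀ (d : ℕ) (z : G), (∀ j ∈ H, z / j ^ d ∈ I • Ad A H j) →
    ∃ n₀, ∀ n ≥ n₀, ∀ w ∈ Fo A H n, z * w ∈ I • Fo A H (d + n)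

/-- STAB: a graded module that is killed by powers of the variables vanishes in large degree. -/
def StabStmt : Prop := ∀ (A G : Type) [CommRing A] [IsNoetherianRing A] [Field G] [Algebra A G]
  (L : Submodule A G) (I : Ideal A) (p : AddSubmonoid G), L.FG →
  (∀ n : ℕ, ∀ w ∈ L ^ n, ∀ s ∈ p, w * s ∈ p) →
  (∀ d : ℕ, ∀ s ∈ L ^ d, s ∈ p → ∃ n₀, ∀ n ≥ n₀, ∀ w ∈ L ^ n, s * w ∈ I • L ^ (d + n)) →
    ∃ m₀, ∀ m ≥ m₀, ∀ s ∈ L ^ m, s ∈ p → s ∈ I • L ^ m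

/-- DUAL: extension of the constants commutes with intersections. -/
def DualStmt : Prop := ∀ (k F Ω E : Type) [Field k] [Field F] [Field Ω] [Field E] [Algebra k F]
  [Algebra k E] [Algebra Ω E] (C : Subalgebra k F) (μ : F →ₐ[k] E),
  (∀ c ∈ C, μ c ∈ Set.range (algebraMap Ω E)) →
  (∀ (ι : Type) (v : ι → F), LinearIndependent C v → LinearIndependent Ω fun i => μ (v i)) →
  ∀ N N' : Submodule C F, Submodule.span Ω (μ '' N) ⊓ Submodule.span Ω (μ '' N') ≤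
    Submodule.span Ω (μ '' (N ⊓ N' : Submodule C F))

/-- CAN1: two lifted coordinates generate the relative differentials. -/
def Can1Stmt : Prop := ∀ (k F : Type) [Field k] [Field F] [Algebra k F] (R O : Subalgebra k F)
  (G : Set F) (x y : F), G.Finite → O ∈ Pts (R ⊔ Algebra.adjoin k G) → Dom R O → x ∈ O → y ∈ O →
  (∀ f ∈ O, ∃ p ∈ Algebra.adjoin k {x, y}, ∃ q ∈ Algebra.adjoin k {x, y}, IsU O q ∧
    f * q - p ∈ Submodule.span O (mx R)) → ∀ f ∈ O, ∃ p ∈ O, ∃ q ∈ O,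
    ∀ (L : Type) [Field L] (π D : F → L), π 1 = 1 →
      (∀ a ∈ O, ∀ b ∈ O, π (a + b) = π a + π b ∧ π (a * b) = π a * π b ∧
        D (a + b) = D a + D b ∧ D (a * b) = π a * D b + π b * D a) → (∀ r ∈ R, D r = 0) →
      D f = π p * D x + π q * D y

/-! ### Families -/

section fam

variable {k F M Ω E I J : Type} [Field k] [Field F] [Field M] [Field Ω] [Field E] [Algebra k F]
  [Algebra k M] [Algebra k E] [Algebra Ω E] [Fintype I] [Fintype J]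

/-- The basic geometry of a family. -/
structure Xb (C : Subalgebra k F) (H : Set F) : Prop where
  fm : Fm C H
  loc : ∀ O ∈ XX C H, IsLocalRing O
  le : ∀ O ∈ XX C H, C ≤ O
  gn : ∀ O ∈ XX C H, ∃ j ∈ H, Gn H O j
  pts : ∀ j ∈ H, ∀ O, O ∈ Pts (ch C H j) ↔ O ∈ XX C H ∧ Gn H O j
  ctr : ∀ W : Subalgebra k F, IsLocalRing W → C ≤ W → Prin H W → ∃ O ∈ XX C H, Dom O W
  val : ∀ V : Subalgebra k F, IsVal V → C ≤ V → ∃ O ∈ XX C H, Dom O V
  sle : ∀ O₁ ∈ XX C H, ∀ O₂ ∈ XX C H, ∀ W : Subalgebra k F, O₁ ≤ W → Dom O₂ W → O₁ ≤ O₂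
  sub : ∀ O₁ ∈ XX C H, ∀ O₂ ∈ XX C H, O₁ ≤ O₂ → O₂ ∈ Pts O₁
  up : ∀ O ∈ XX C H, Pts O ⊆ XX C H
  frac : ∀ O ∈ XX C H, Frac O
  nrm : ∀ O ∈ XX C H, Nrm O
  noeth : ∀ O ∈ XX C H, IsNoetherianRing O
  chn : ∀ j ∈ H, IsNoetherianRing (ch C H j)

variable (R : Subalgebra k F) (H : Set F) (ξ : Subalgebra k F) (ρ : ξ →ₐ[k] M) (S : Sd k M I)
  (μ : F →ₐ[k] E) (S' : Sd Ω E J)

/-- A local family with normalized coordinates and its basic properties. -/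
structure Ln : Prop extends Lc R H ξ ρ S where
  xb : Xb R H
  mf : Mf S
  one : (1 : F) ∈ H
  sub : ∀ a ∈ H, a ∈ ξ
  spc : ∀ O ∈ XX R H, ∃ O₁ ∈ XX R H, Dom R O₁ ∧ O₁ ≤ O
  mem : ∀ O ≤ ξ, ∀ s, s ∈ red ξ ρ O ↔ ∃ a ∈ O, evO ξ ρ a = s
  isU : ∀ O ∈ XX R H, Dom R O → ∀ a ∈ O, IsU (red ξ ρ O) (evO ξ ρ a) ↔ IsU O a
  top : red ξ ρ ξ = ⊤
  rle : ∀ O ∈ XX R H, Dom R O → ∀ O' ∈ XX R H, Dom R O' → red ξ ρ O ≤ red ξ ρ O' → O ≤ O'
  res : ∃ e : R →+* k, Function.Surjective e ∧ ∀ r : R, evO ξ ρ r = algebraMap k M (e r)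
  gnU : ∀ O ∈ XX R H, Dom R O → ∀ j, Gn H O j → IsU ξ j ∧
    Gn (evO ξ ρ '' H \ {0}) (red ξ ρ O) (evO ξ ρ j)
  eqT : S.T = mp k fun _ : Unit => evO ξ ρ '' H \ {0}

/-- A geometric generic fibre with its basic properties. -/
structure Gm : Prop extends Gc R H μ S' where
  mf : Mf S'
  bg : ∀ O' ∈ S'.T, ∃ O ∈ XX R H, ∀ a, a ∈ O ↔ μ a ∈ O'

/-- A line bundle with its generic and its special class. -/
def Pr (γ : Subalgebra k F → F) (c : J → ℤ) (d : I → ℤ) : Prop :=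
  Dt (XX R H) γ ∧ Lg (XX R H) μ S' c γ ∧ Lb R H ξ ρ S d γ

/-- The group laws for generic classes. -/
structure Lwg : Prop where
  one : Lg (XX R H) μ S' 0 1
  mul : ∀ γ γ' c c', Lg (XX R H) μ S' c γ → Lg (XX R H) μ S' c' γ' →
    Lg (XX R H) μ S' (c + c') (γ * γ')
  inv : ∀ γ c, Lg (XX R H) μ S' c γ → Lg (XX R H) μ S' (-c) γ⁻¹
  scal : ∀ γ c (u : F), u ≠ 0 → Lg (XX R H) μ S' c γ → Lg (XX R H) μ S' c fun O => u * γ O
  ex : ∀ γ, Dt (XX R H) γ → ∃ c, Lg (XX R H) μ S' c γ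
  uniq : ∀ γ c c', Lg (XX R H) μ S' c γ → Lg (XX R H) μ S' c' γ → c = c'
  sys : ∀ U c, Sys (XX R H) U → Cl S' (μ '' U) c → Lg (XX R H) μ S' c fun O => (gn U O)⁻¹

/-- The group laws for special classes. -/
structure Lwb : Prop where
  one : Lb R H ξ ρ S 0 1
  mul : ∀ γ γ' d d', Lb R H ξ ρ S d γ → Lb R H ξ ρ S d' γ' → Lb R H ξ ρ S (d + d') (γ * γ')
  inv : ∀ γ d, Lb R H ξ ρ S d γ → Lb R H ξ ρ S (-d) γ⁻¹
  ex : ∀ γ, Dt (XX R H) γ → ∃ u : F, u ≠ 0 ∧ ∃ d, Lb R H ξ ρ S d fun O => u * γ O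
  hyp : ∀ (u : F) d, (Lb R H ξ ρ S d fun O => u * (gn H O)⁻¹) → IsU ξ u ∧ Amp S d

/-- Everything about a local family with its two fibres. -/
structure Tw : Prop where
  ln : Ln R H ξ ρ S
  gm : Gm R H μ S'
  lg : Lwg R H μ S'
  lb : Lwb R H ξ ρ S
  hyp : ∃ (u : F) (h' : J → ℤ) (h : I → ℤ), IsU ξ u ∧
    Pr R H ξ ρ S μ S' (fun O => u * (gn H O)⁻¹) h' h ∧ Amp S' h' ∧ Amp S h

/-- A module with a basis whose residues are independent. -/
def Gb (N : Submodule R F) : Prop := ∃ (n : ℕ) (σ : Fin n → F), (∀ i, σ i ∈ ξ) ∧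
  N = Submodule.span R (Set.range σ) ∧ LinearIndependent k fun i => evO ξ ρ (σ i)

/-- `w` is a section of the dual of `γ` twisted by `m` hyperplanes. -/
def Du (γ : Subalgebra k F → F) (m : ℕ) (w : F) : Prop :=
  ∀ O ∈ XX R H, ∀ j, Gn H O j → w / (γ O * j ^ m) ∈ O

/-- Two such sections without common curve in the closed fibre. -/
structure Cp (γ : Subalgebra k F → F) (m : ℕ) (a a' : F) : Prop where
  ua : IsU ξ a
  du : Du R H γ m a
  du' : Du R H γ m a'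
  cop : ∀ O ∈ XX R H, Dom R O → ∀ P : Place k M, red ξ ρ O = plO P → ∀ j, Gn H O j →
    IsU O (a / (γ O * j ^ m)) ∨ IsU O (a' / (γ O * j ^ m))

/-- Semicontinuity and lifting of sections. -/
def GrC (γ : Subalgebra k F → F) (c : J → ℤ) (d : I → ℤ) : Prop := S'.h0 c ≤ S.h0 d ∧
  (S.h0 d ≤ S'.h0 c → (∀ s ∈ S.Sec d, ∃ z ∈ Sc (XX R H) γ, evO ξ ρ z = s) ∧
    ∀ W ⊆ Sc (XX R H) γ, S.Sec d ≤ Submodule.span k (evO ξ ρ '' W) →
      ∀ z ∈ Sc (XX R H) γ, z ∈ Submodule.span R W)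

/-- Valuations with independent residues of `x, y` are centred at points where these are regular. -/
def Hv (x y : F) : Prop := ∀ O ∈ XX R H, Dom R O → ∀ V : Subalgebra k F, IsVal V → Dom O V →
  Ind V ![x, y] → x ∈ O ∧ y ∈ O

/-- Generators of the function field of the closed fibre lift to generators of `ξ`. -/
def Dl (x y : F) : Prop := ∀ e : Set F, e.Finite → (∀ a ∈ e, a ∈ ξ) →
  Submodule.span k⟮evO ξ ρ x, evO ξ ρ y⟯ (evO ξ ρ '' e) = ⊤ →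
    ∀ z ∈ ξ, z ∈ Submodule.span (fr (pl R (x, y)) ξ) e

/-- A relative Jacobian determinant. -/
structure Jf (D₁ D₂ : Derivation k M M) (D₁' D₂' : Derivation Ω E E) (j₀ : M) (j₀' : E)
    (J : F → F → F) : Prop where
  ne : j₀ ≠ 0
  ne' : j₀' ≠ 0
  n : ∀ a b, GenP k a b → jac D₁ D₂ a b ≠ 0
  n' : ∀ a b, GenP Ω a b → jac D₁' D₂' a b ≠ 0
  g : ∀ a b, μ (J a b) * j₀' = jac D₁' D₂' (μ a) (μ b)
  s : ∀ a ∈ ξ, ∀ b ∈ ξ, J a b ∈ ξ ∧
    evO ξ ρ (J a b) * j₀ = jac D₁ D₂ (evO ξ ρ a) (evO ξ ρ b)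
  o : ∀ O ∈ XX R H, Dom R O → ∀ x ∈ O, ∀ y ∈ O, Cht (red ξ ρ O) (evO ξ ρ x) (evO ξ ρ y) →
    ∀ a ∈ O, ∀ b ∈ O, ∃ r ∈ O, J a b = r * J x y

end fam

/-- XB. -/
def XbStmt : Prop := ∀ (k F : Type) [Field k] [Field F] [Algebra k F] (C : Subalgebra k F)
  (H : Set F), Fm C H → Xb C H

/-- LN. -/
def LnStmt : Prop := ∀ (k F M I : Type) [Field k] [Field F] [Field M] [Algebra k F] [Algebra k M]
  [Fintype I] (R : Subalgebra k F) (H : Set F) (ξ : Subalgebra k F) (ρ : ξ →ₐ[k] M) (S : Sd k M I),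
  Lc R H ξ ρ S → Xb R H → Mf S → 1 ∈ H → (∀ a ∈ H, a ∈ ξ) → Ln R H ξ ρ S

/-- The points below the points of the geometric generic fibre. -/
def Bg : Prop := ∀ (k F Ω E J : Type) [Field k] [Field F] [Field Ω] [Field E] [Algebra k F]
  [Algebra k E] [Algebra Ω E] [Fintype J] (C : Subalgebra k F) (H : Set F) (μ : F →ₐ[k] E)
  (S' : Sd Ω E J), Xb C H → Gc C H μ S' → ∀ O' ∈ S'.T, ∃ O ∈ XX C H, ∀ a, a ∈ O ↔ μ a ∈ O'

/-- BG. -/
def BgStmt : Prop := DualStmt → Bg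

/-- S1A. -/
def S1AStmt : Prop := XbStmt → DualStmt → Bg → S1Stmt

/-- INVA. -/
def InvAStmt : Prop := XbStmt → FormStmt → InvStmt

/-- A twist of a line bundle is generated by finitely many sections. -/
def Gen : Prop := ∀ (k F : Type) [Field k] [Field F] [Algebra k F] (C : Subalgebra k F)
  (H : Set F) (γ : Subalgebra k F → F), Xb C H → Dt (XX C H) γ → ∃ (m : ℕ) (W : Set F),
    W.Finite ∧ ∀ O ∈ XX C H, ∀ j, Gn H O j → Gn W O (γ O * j ^ m)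

/-- LWG. -/
def LwgStmt : Prop := ∀ (k F Ω E J : Type) [Field k] [Field F] [Field Ω] [CharZero Ω]
  [IsAlgClosed Ω] [Field E] [Algebra k F] [Algebra k E] [Algebra Ω E] [Fintype J]
  (C : Subalgebra k F) (H : Set F) (μ : F →ₐ[k] E) (S' : Sd Ω E J), Xb C H → Gm C H μ S' →
  Lwg C H μ S'

/-- LWB. -/
def LwbStmt : Prop := HclStmt → ∀ (k F M I : Type) [Field k] [CharZero k] [IsAlgClosed k] [Field F]
  [Field M] [Algebra k F] [Algebra k M] [Fintype I] (R : Subalgebra k F) (H : Set F)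
  (ξ : Subalgebra k F) (ρ : ξ →ₐ[k] M) (S : Sd k M I), Ln R H ξ ρ S → Lwb R H ξ ρ S

/-- DTA. -/
def DtAStmt : Prop := XbStmt → MfAll → Bg → LwgStmt → InvStmt → Gen ∧ DtStmt

/-- Forms of large degree have good bases. -/
def Gbs : Prop := ∀ (k F M I : Type) [Field k] [Field F] [Field M] [Algebra k F] [Algebra k M]
  [Fintype I] (R : Subalgebra k F) (H : Set F) (ξ : Subalgebra k F) (ρ : ξ →ₐ[k] M) (S : Sd k M I),
  Ln R H ξ ρ S → ∃ m₀, ∀ m ≥ m₀, Gb R ξ ρ (Fo R H m)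

/-- GBS. -/
def GbsStmt : Prop := FormStmt → StabStmt → Gbs

/-- The three kernels. -/
def Gra : Prop := ∀ (k F M Ω E I J : Type) [Field k] [Field F] [Field M] [Field Ω] [Field E]
  [Algebra k F] [Algebra k M] [Algebra k E] [Algebra Ω E] [Fintype I] [Fintype J]
  (R : Subalgebra k F) (H : Set F) (ξ : Subalgebra k F) (ρ : ξ →ₐ[k] M) (S : Sd k M I)
  (μ : F →ₐ[k] E) (S' : Sd Ω E J) (N N' : Submodule R F) (a a' b : F) (Z : Submodule k M)
  (Z' : Submodule Ω E), Ln R H ξ ρ S → Gc R H μ S' → Gb R ξ ρ N → Gb R ξ ρ N' → IsU ξ a → a' ∈ ξ →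
  IsU ξ b → (∀ w ∈ N, a * b * w ∈ N' ∧ a' * b * w ∈ N') →
  Z = Zs (Submodule.span k (evO ξ ρ '' N)) (evO ξ ρ a) (evO ξ ρ a') →
  Z' = Zs (Submodule.span Ω (μ '' N)) (μ a) (μ a') → FiniteDimensional Ω Z' ∧
    Module.finrank Ω Z' ≤ Module.finrank k Z ∧ (Module.finrank k Z ≤ Module.finrank Ω Z' →
      (∀ s ∈ Z, ∃ z ∈ Zs N a a', evO ξ ρ z = s) ∧ ∀ W ⊆ (Zs N a a' : Set F),
        Z ≤ Submodule.span k (evO ξ ρ '' W) → ∀ z ∈ Zs N a a', z ∈ Submodule.span R W)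

/-- GRA. -/
def GraStmt : Prop := Gr1Stmt → Gra

/-- Twisted sections on the closed fibre are forms. -/
def Twk : Prop := ∀ (k F M I : Type) [Field k] [Field F] [Field M] [Algebra k F] [Algebra k M]
  [Fintype I] (R : Subalgebra k F) (H : Set F) (ξ : Subalgebra k F) (ρ : ξ →ₐ[k] M) (S : Sd k M I)
  (γ : Subalgebra k F → F) (d : I → ℤ) (m : ℕ) (w : F), Ln R H ξ ρ S → Lb R H ξ ρ S d γ →
  Du R H γ m w → ∃ n₀, ∀ n ≥ n₀, ∀ h ∈ Fo R H n, ∀ s ∈ S.Sec d,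
    s * evO ξ ρ (w * h) ∈ Submodule.span k (evO ξ ρ '' Fo R H (m + n))

/-- TWK. -/
def TwkStmt : Prop := FormStmt → Twk

/-- Twisted sections on the generic fibre and on the family are forms. -/
def Twg : Prop := ∀ (k F Ω E J : Type) [Field k] [Field F] [Field Ω] [Field E] [Algebra k F]
  [Algebra k E] [Algebra Ω E] [Fintype J] (R : Subalgebra k F) (H : Set F) (μ : F →ₐ[k] E)
  (S' : Sd Ω E J) (γ : Subalgebra k F → F) (m : ℕ) (w : F), Xb R H → Gm R H μ S' → Du R H γ m w →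
  (∀ O ∈ XX R H, γ O ≠ 0) →
  (∀ z ∈ Sc (XX R H) γ, ∃ n₀, ∀ n ≥ n₀, ∀ h ∈ Fo R H n, z * (w * h) ∈ Fo R H (m + n)) ∧
  ∀ (c : J → ℤ) (φ : E), (∀ O' ∈ S'.T, ∀ O ∈ XX R H, (∀ a ∈ O, μ a ∈ O') →
    IsU O' (μ (γ O) / (φ * S'.lb c O'))) → ∃ n₀, ∀ n ≥ n₀, ∀ h ∈ Fo R H n, ∀ y ∈ S'.Sec c,
      y / φ * μ (w * h) ∈ Submodule.span Ω (μ '' Fo R H (m + n))

/-- TWG. -/
def TwgStmt : Prop := FormStmt → Twg

/-- The choice of two coprime sections. -/
def Cp1 : Prop := ∀ (k F M I : Type) [Field k] [CharZero k] [Field F] [Field M] [Algebra k F]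
  [Algebra k M] [Fintype I] (R : Subalgebra k F) (H : Set F) (ξ : Subalgebra k F) (ρ : ξ →ₐ[k] M)
  (S : Sd k M I) (γ : Subalgebra k F → F) (d : I → ℤ) (m : ℕ) (U : Set F), Ln R H ξ ρ S →
  Lb R H ξ ρ S d γ → (∀ O ∈ XX R H, ∀ j, Gn H O j → Gn U O (γ O * j ^ m)) →
    ∃ a ∈ Submodule.span k U, ∃ a' ∈ Submodule.span k U, Cp R H ξ ρ γ m a a'

/-- CP1. -/
def Cp1Stmt : Prop := AvoidStmt → Cp1

/-- CP2: what coprime sections detect. -/
def Cp2Stmt : Prop := ∀ (k F M I : Type) [Field k] [Field F] [Field M] [Algebra k F]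
  [Algebra k M] [Fintype I] (R : Subalgebra k F) (H : Set F) (ξ : Subalgebra k F) (ρ : ξ →ₐ[k] M)
  (S : Sd k M I) (γ : Subalgebra k F → F) (d : I → ℤ) (m : ℕ) (a a' : F), Ln R H ξ ρ S →
  Dt (XX R H) γ → Lb R H ξ ρ S d γ → Cp R H ξ ρ γ m a a' →
  Zs (Submodule.span k (evO ξ ρ '' Fo R H m)) (evO ξ ρ a) (evO ξ ρ a') ≤ S.Sec d ∧
    ∀ z ∈ Zs (Fo R H m) a a', z ∈ Sc (XX R H) γ

/-- The theorem on semicontinuity and base change. -/
def Gr : Prop := ∀ (k F M Ω E I J : Type) [Field k] [CharZero k] [Field F] [Field M] [Field Ω]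
  [Field E] [Algebra k F] [Algebra k M] [Algebra k E] [Algebra Ω E] [Fintype I] [Fintype J]
  (R : Subalgebra k F) (H : Set F) (ξ : Subalgebra k F) (ρ : ξ →ₐ[k] M) (S : Sd k M I)
  (μ : F →ₐ[k] E) (S' : Sd Ω E J) (γ : Subalgebra k F → F) (c : J → ℤ) (d : I → ℤ),
  Ln R H ξ ρ S → Gm R H μ S' → Pr R H ξ ρ S μ S' γ c d → GrC R H ξ ρ S S' γ c d

/-- GR. -/
def GrStmt : Prop := FormStmt → Gen → Gbs → Gra → Twk → Twg → Cp1 → Cp2Stmt → Gr

/-- The local ring of the closed fibre is finite over the lifted plane. -/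
def Del : Prop := ∀ (k F M I : Type) [Field k] [Field F] [Field M] [Algebra k F] [Algebra k M]
  [Fintype I] (R : Subalgebra k F) (H : Set F) (ξ : Subalgebra k F) (ρ : ξ →ₐ[k] M) (S : Sd k M I)
  (x y : F), Ln R H ξ ρ S → x ∈ ξ → y ∈ ξ → AlgebraicIndependent k ![evO ξ ρ x, evO ξ ρ y] →
  Hv R H x y → Dl R ξ ρ x y

/-- DEL. -/
def DelStmt : Prop := VnStmt → Del

/-- ISO1: the degrees of the two fibres over the plane agree. -/
def Iso1Stmt : Prop := ∀ (k F M Ω E I J : Type) [Field k] [Field F] [Field M] [Field Ω] [Field E]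
  [Algebra k F] [Algebra k M] [Algebra k E] [Algebra Ω E] [Fintype I] [Fintype J]
  (R : Subalgebra k F) (H : Set F) (ξ : Subalgebra k F) (ρ : ξ →ₐ[k] M) (S : Sd k M I)
  (μ : F →ₐ[k] E) (S' : Sd Ω E J) (x y : F), Ln R H ξ ρ S → Gm R H μ S' → x ∈ ξ → y ∈ ξ →
  AlgebraicIndependent k ![evO ξ ρ x, evO ξ ρ y] →
  FiniteDimensional k⟮evO ξ ρ x, evO ξ ρ y⟯ M → Dl R ξ ρ x y →
    Module.finrank Ω⟮μ x, μ y⟯ E = Module.finrank k⟮evO ξ ρ x, evO ξ ρ y⟯ M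

/-- Squares agree; if `gg` holds only for positive globally generated line bundles. -/
def Iso (gg : Prop) : Prop := ∀ (k F M Ω E I J : Type) [Field k] [CharZero k] [IsAlgClosed k]
  [Field F] [Field M] [Field Ω] [CharZero Ω] [IsAlgClosed Ω] [Field E] [Algebra k F] [Algebra k M]
  [Algebra k E] [Algebra Ω E] [Fintype I] [Fintype J] (R : Subalgebra k F) (H : Set F)
  (ξ : Subalgebra k F) (ρ : ξ →ₐ[k] M) (S : Sd k M I) (μ : F →ₐ[k] E) (S' : Sd Ω E J)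
  (γ : Subalgebra k F → F) (c : J → ℤ) (d : I → ℤ), Tw R H ξ ρ S μ S' → Pr R H ξ ρ S μ S' γ c d →
  (gg → Pos S' c ∧ Pos S d ∧ ∃ U : Set F, U.Finite ∧ ∀ O ∈ XX R H, Gn U O (γ O)⁻¹) →
    S.i d d = S'.i c c

/-- ISO2. -/
def Iso2Stmt : Prop := Three → Deg → Del → Iso1Stmt → Iso True

/-- ISO3. -/
def Iso3Stmt : Prop := Gen → Iso True → Iso False

/-- Relative Jacobians exist. -/
def Can2 : Prop := ∀ (k F M Ω E I J : Type) [Field k] [CharZero k] [IsAlgClosed k]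
  [Field F] [Field M] [Field Ω] [CharZero Ω] [IsAlgClosed Ω] [Field E] [Algebra k F] [Algebra k M]
  [Algebra k E] [Algebra Ω E] [Fintype I] [Fintype J] (R : Subalgebra k F) (H : Set F)
  (ξ : Subalgebra k F) (ρ : ξ →ₐ[k] M) (S : Sd k M I) (μ : F →ₐ[k] E) (S' : Sd Ω E J),
  Ln R H ξ ρ S → Gm R H μ S' → ∃ D₁ D₂ D₁' D₂' j₀ j₀' J₀,
    Jf (Ω := Ω) R H ξ ρ μ D₁ D₂ D₁' D₂' j₀ j₀' J₀

/-- CAN2. -/
def Can2Stmt : Prop := Can1Stmt → Can2

/-- The canonical classes correspond. -/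
def Can : Prop := ∀ (k F M Ω E I J : Type) [Field k] [CharZero k] [IsAlgClosed k]
  [Field F] [Field M] [Field Ω] [CharZero Ω] [IsAlgClosed Ω] [Field E] [Algebra k F] [Algebra k M]
  [Algebra k E] [Algebra Ω E] [Fintype I] [Fintype J] (R : Subalgebra k F) (H : Set F)
  (ξ : Subalgebra k F) (ρ : ξ →ₐ[k] M) (S : Sd k M I) (μ : F →ₐ[k] E) (S' : Sd Ω E J),
  Ln R H ξ ρ S → Gm R H μ S' → ∃ γ, Pr R H ξ ρ S μ S' γ S'.K S.K

/-- CAN3. -/
def Can3Stmt : Prop := Can0Stmt → Can2 → Can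

/-- The conclusions for normalized families. -/
def Spn : Prop := ∀ (k F M Ω E I J : Type) [Field k] [CharZero k] [IsAlgClosed k]
  [Field F] [Field M] [Field Ω] [CharZero Ω] [IsAlgClosed Ω] [Field E] [Algebra k F] [Algebra k M]
  [Algebra k E] [Algebra Ω E] [Fintype I] [Fintype J] (R : Subalgebra k F) (H : Set F)
  (ξ : Subalgebra k F) (ρ : ξ →ₐ[k] M) (S : Sd k M I) (μ : F →ₐ[k] E) (S' : Sd Ω E J),
  Tw R H ξ ρ S μ S' → ((∀ c, ∃ γ, Dt (XX R H) γ ∧ Lg (XX R H) μ S' c γ) →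
    LA R H ξ ρ S ∧ ∃ σ, Sp R H ξ ρ S μ S' σ) ∧
  ((∀ d, ∃ γ, Dt (XX R H) γ ∧ Lb R H ξ ρ S d γ) → ∀ c, ∃ γ, Dt (XX R H) γ ∧ Lg (XX R H) μ S' c γ)

/-- SPN. -/
def SpnStmt : Prop := LatStmt → Gr → Iso False → Can → Spn

/-! ### Small tools -/

section tools

variable {k F : Type} [Field k] [Field F] [Algebra k F] {C O O' : Subalgebra k F} {H U V : Set F}
  {X : Set (Subalgebra k F)} {γ γ' : Subalgebra k F → F} {a b j z : F}

theorem ch_le : ch C H j ≤ O ↔ C ≤ O ∧ ∀ a ∈ H, a / j ∈ O := by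
  rw [ch, sup_le_iff, Algebra.adjoin_le_iff]
  exact and_congr_right fun _ => ⟨fun h a ha => h ⟨a, ha, rfl⟩, by
    rintro h _ ⟨a, ha, rfl⟩; exact h a ha⟩

theorem le_ch : C ≤ ch C H j := (ch_le.1 le_rfl).1

theorem div_mem_ch (h : a ∈ H) : a / j ∈ ch C H j := (ch_le.1 le_rfl).2 a h

theorem mem_ch : z ∈ ch C H j ↔ z ∈ Ad C H j := by
  have e := Algebra.restrictScalars_adjoin k C ((fun a => a / j) '' H)
  rw [Algebra.adjoin_union, Algebra.adjoin_eq] at e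
  exact (SetLike.ext_iff.1 e z).symm

theorem mp_eq_XX : (mp k fun _ : Unit => H) = XX ⊥ H := by
  have e : ∀ j : Unit → F, cht k (fun _ : Unit => H) j = ch ⊥ H (j ()) := fun j => by
    rw [ch, bot_sup_eq, cht]
    congr 1
    exact Set.ext fun x => ⟨fun h => by obtain ⟨⟨⟩, h⟩ := Set.mem_iUnion.1 h; exact h,
      fun h => Set.mem_iUnion.2 ⟨(), h⟩⟩
  exact Set.ext fun O => ⟨fun ⟨j, h1, h2⟩ => ⟨j (), h1 (), e j ▸ h2⟩,
    fun ⟨j, h1, h2⟩ => ⟨fun _ => j, fun _ => h1, (e fun _ => j) ▸ h2⟩⟩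

/-- Membership in a module can be checked locally. -/
theorem glob (N : Submodule C F) (h : ∀ O ∈ Pts C, z ∈ Submodule.span O (N : Set F)) : z ∈ N := by
  by_contra hz
  obtain ⟨m, hm, hle⟩ := Ideal.exists_le_maximal
    (N.comap (LinearMap.toSpanSingleton C F z)) fun e => hz (by
      simpa using (Ideal.eq_top_iff_one _).1 e)
  obtain ⟨O, hO, hU⟩ := exists_loc C {x | ∃ h : x ∈ C, (⟨x, h⟩ : C) ∈ m} ⟨C.zero_mem, m.zero_mem⟩
    (fun ⟨_, h⟩ => hm.ne_top ((Ideal.eq_top_iff_one _).2 h))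
    (fun a ha b hb ⟨_, h1⟩ ⟨_, h2⟩ => ⟨C.add_mem ha hb, m.add_mem h1 h2⟩)
    (fun a ha b hb => ⟨fun ⟨_, h1⟩ => (hm.isPrime.mem_or_mem (x := ⟨a, ha⟩) (y := ⟨b, hb⟩) h1).imp
      (fun h => ⟨ha, h⟩) fun h => ⟨hb, h⟩, fun h1 => ⟨C.mul_mem ha hb, h1.elim
        (fun ⟨_, h⟩ => m.mul_mem_right (⟨b, hb⟩ : C) h) fun ⟨_, h⟩ =>
          m.mul_mem_left (⟨a, ha⟩ : C) h⟩⟩)
  have key : ∀ w ∈ Submodule.span O (N : Set F), ∃ s ∈ C, IsU O s ∧ s * w ∈ N := by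
    intro w hw
    induction hw using Submodule.span_induction with
    | mem x hx => exact ⟨1, C.one_mem, isU_one, by simpa using hx⟩
    | zero => exact ⟨1, C.one_mem, isU_one, by simp⟩
    | add x y _ _ hx hy =>
      obtain ⟨s, hs, u, h1⟩ := hx
      obtain ⟨t, ht, v, h2⟩ := hy
      refine ⟨s * t, C.mul_mem hs ht, u.mul v, ?_⟩
      have := N.add_mem (N.smul_mem ⟨t, ht⟩ h1) (N.smul_mem ⟨s, hs⟩ h2)
      convert this using 1
      change _ = t * (s * x) + s * (t * y)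
      ring
    | smul r x _ hx =>
      obtain ⟨s, hs, u, h1⟩ := hx
      obtain ⟨p, hp, q, hq, v, e⟩ := hO.2.2 r r.2
      refine ⟨s * q, C.mul_mem hs hq, u.mul v, ?_⟩
      convert N.smul_mem ⟨p, hp⟩ h1 using 1
      change s * q * (r * x) = p * (s * x)
      rw [e]
      field_simp [v.1]
  obtain ⟨s, hs, u, h1⟩ := key z (h O hO)
  exact (hU s hs).1 u ⟨hs, hle h1⟩

theorem mem_of_pts (h : ∀ O ∈ Pts C, z ∈ O) : z ∈ C := by
  have := glob (C := C) (z := z) (Submodule.span C {1}) fun O hO => by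
    have := Submodule.smul_mem (Submodule.span O ((Submodule.span C {(1 : F)} : Submodule C F) :
      Set F)) ⟨z, h O hO⟩ (Submodule.subset_span (Submodule.mem_span_singleton_self 1))
    exact (mul_one z) ▸ this
  obtain ⟨c, e⟩ := Submodule.mem_span_singleton.1 this
  exact e ▸ C.mul_mem c.2 C.one_mem

theorem gn_mul (h : Gn U O a) (h' : Gn V O b) : Gn (U * V) O (a * b) := by
  obtain ⟨u, hu, h1⟩ := h.2
  obtain ⟨v, hv, h2⟩ := h'.2
  refine ⟨?_, u * v, Set.mul_mem_mul hu hv, by rw [mul_div_mul_comm]; exact h1.mul h2⟩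
  rintro _ ⟨x, hx, y, hy, rfl⟩
  rw [mul_div_mul_comm]
  exact O.mul_mem (h.1 x hx) (h'.1 y hy)

theorem gn_pow (h : Gn U O a) (n : ℕ) : Gn (U ^ n) O (a ^ n) := by
  induction n with
  | zero => rw [pow_zero, pow_zero]; exact gn_of_mem (S := {1}) rfl one_ne_zero (by simp)
  | succ n ih => rw [pow_succ, pow_succ]; exact gn_mul ih h

theorem span_div_mem (h : ∀ u ∈ U, u / a ∈ O) (hC : C ≤ O) (hz : z ∈ Submodule.span C U) :
    z / a ∈ O := by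
  induction hz using Submodule.span_induction with
  | mem x hx => exact h x hx
  | zero => simp
  | add x y _ _ hx hy => rw [add_div]; exact O.add_mem hx hy
  | smul r x _ hx => exact (mul_div_assoc (r : F) x a) ▸ O.mul_mem (hC r.2) hx

theorem Fo.div_mem {n : ℕ} (h : Gn H O j) (hC : C ≤ O) (hz : z ∈ Fo C H n) : z / j ^ n ∈ O :=
  span_div_mem (gn_pow h n).1 hC (by rwa [Fo, Submodule.span_pow] at hz)

theorem Sys.mul (h : Sys X U) (h' : Sys X V) : Sys X (U * V) :=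
  ⟨h.1.mul h'.1, fun O hO => (gn_mul (gn_spec (h.2 O hO)) (gn_spec (h'.2 O hO))).prin⟩

theorem Sys.const (h : a ≠ 0) : Sys X {a} := ⟨Set.finite_singleton a, fun O _ =>
  (gn_of_mem (S := {a}) rfl h (by simp [h])).prin⟩

theorem Dt.ne (h : Dt X γ) (hO : O ∈ X) : γ O ≠ 0 := by
  obtain ⟨U, V, -, -, h⟩ := h
  obtain ⟨a, b, -, -, u⟩ := h O hO
  exact fun e => u.1 (by simp [e])

theorem Dt.mul (h : Dt X γ) (h' : Dt X γ') : Dt X (γ * γ') := by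
  obtain ⟨U, V, h1, h2, h⟩ := h
  obtain ⟨U', V', h3, h4, h'⟩ := h'
  refine ⟨_, _, h1.mul h3, h2.mul h4, fun O hO => ?_⟩
  obtain ⟨a, b, g1, g2, u⟩ := h O hO
  obtain ⟨a', b', g3, g4, u'⟩ := h' O hO
  refine ⟨_, _, gn_mul g1 g3, gn_mul g2 g4, ?_⟩
  convert u.mul u' using 1
  rw [Pi.mul_apply]
  ring

theorem Dt.inv (h : Dt X γ) : Dt X γ⁻¹ := by
  obtain ⟨U, V, h1, h2, h⟩ := h
  refine ⟨_, _, h2, h1, fun O hO => ?_⟩
  obtain ⟨a, b, g1, g2, u⟩ := h O hO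
  refine ⟨_, _, g2, g1, ?_⟩
  convert u.inv using 1
  rw [Pi.inv_apply]
  field_simp

theorem Sys.dt (h : Sys X U) : Dt X fun O => (gn U O)⁻¹ :=
  ⟨U, {1}, h, Sys.const one_ne_zero, fun O hO => ⟨_, 1, gn_spec (h.2 O hO),
    gn_of_mem rfl one_ne_zero (by simp), by simpa [(gn_spec (h.2 O hO)).ne] using isU_one⟩⟩

theorem Dt.const (h : a ≠ 0) : Dt X fun _ => a :=
  ⟨{1}, {a}, Sys.const one_ne_zero, Sys.const h, fun O _ => ⟨1, a,
    gn_of_mem rfl one_ne_zero (by simp), gn_of_mem rfl h (by simp [h]), by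
      simpa [h] using isU_one⟩⟩

theorem Dt.one : Dt X 1 := Dt.const one_ne_zero

theorem Dt.scal (h : Dt X γ) (ha : a ≠ 0) : Dt X fun O => a * γ O := (Dt.const ha).mul h

theorem Dt.pow (h : Dt X γ) (n : ℕ) : Dt X (γ ^ n) := by
  induction n with
  | zero => simpa using Dt.one
  | succ n ih => rw [pow_succ]; exact ih.mul h

theorem Dt.cmp (h : Dt X γ) (hO : O ∈ X) (hO' : O' ∈ X) (hle : O ≤ O') : IsU O' (γ O / γ O') := by
  obtain ⟨U, V, -, -, h⟩ := h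
  obtain ⟨a, b, g1, g2, u⟩ := h O hO
  obtain ⟨a', b', g3, g4, u'⟩ := h O' hO'
  have := g1.ne; have := g2.ne; have := g3.ne; have := g4.ne
  convert (((u.mono hle).div u').mul ((g2.mono hle).unit g4)).div ((g1.mono hle).unit g3) using 1
  field_simp

theorem Xb.sys (h : Xb C H) : Sys (XX C H) H :=
  ⟨h.fm.fin, fun O hO => (h.gn O hO).elim fun _ g => g.2.prin⟩

end tools

end Pool.Agent.MP_e8e0b6_ag.R2
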