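import Pool.Agent.MP_e8e0b6_ag.R2.SpecS
import Pool.Agent.MP_e8e0b6_ag.R2.Proj
import Pool.Agent.MP_e8e0b6_ag.R2.C.GSpec

/-!
From schemes to families of local rings: the statements.
-/

set_option autoImplicit false

open Polynomial AlgebraicGeometry CategoryTheory Limits TensorProduct

namespace Pool.Agent.MP_e8e0b6_ag.R2

open Pool.Agent.MP_79c67d_ag Pool.Agent.MP_20d318_ag Pool.Agent.MP_20d318_ag.AG
  Pool.Agent.MP_20d318_ag.BV Pool.Agent.MP_20d318_ag.CB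

attribute [local instance] MvPolynomial.gradedAlgebra

/-- The coordinate rings of the standard charts of a smooth projective scheme over `A`. -/
structure Rp (A : Type) [CommRing A] (N : ℕ) where
  B : Fin (N + 1) → Type
  [ring : ∀ i, CommRing (B i)]
  [alg : ∀ i, Algebra A (B i)]
  r : ∀ i, Fin (N + 1) → B i
  one : ∀ i, r i i = 1
  gen : ∀ i, Algebra.adjoin A (Set.range (r i)) = ⊤
  sm : ∀ i, Algebra.Smooth A (B i)

attribute [instance] Rp.ring Rp.alg Rp.sm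

/-- The nonzero coordinates. -/
def nz {F : Type} [Field F] {N : ℕ} (h : Fin (N + 1) → F) : Set F := {a | a ∈ Set.range h ∧ a ≠ 0}

section
variable {k A F : Type} [Field k] [CommRing A] [Field F] [Algebra k A] [Algebra k F] {N : ℕ}
  (𝓡 : Rp A N)

/-- The fibre over the point `L` is integral with function field inside `M`. -/
structure Rp.Fb (L M : Type) [Field L] [Field M] [Algebra A L] [Algebra L M] [Algebra A M]
    [IsScalarTower A L M] (h : Fin (N + 1) → M) : Prop where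
  ne : ∃ i, h i ≠ 0
  zero : ∀ i, h i = 0 → Subsingleton (L ⊗[A] 𝓡.B i)
  emb : ∀ i, h i ≠ 0 → ∃ θ : 𝓡.B i →ₐ[A] M, (∀ l, θ (𝓡.r i l) = h l / h i) ∧
    Function.Injective (tens L θ)

/-- All geometric fibres are towers. -/
def Rp.Fbs : Prop := ∀ (L : Type) [Field L] [IsAlgClosed L] [Algebra A L],
  ∃ (M : Type) (_ : Field M) (_ : Algebra L M) (_ : Algebra A M) (_ : IsScalarTower A L M)
    (h : Fin (N + 1) → M), 𝓡.Fb L M h ∧ RS.Tower (mp L fun _ : Unit => nz h)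

/-- The charts inside the function field of the family. -/
structure Rp.Em (g : A →ₐ[k] F) (h : Fin (N + 1) → F) : Prop where
  inj : Function.Injective g
  ne : ∃ i, h i ≠ 0
  zero : ∀ i, h i = 0 → Subsingleton (𝓡.B i)
  emb : ∀ i, h i ≠ 0 → ∃ θ : 𝓡.B i →+* F, Function.Injective θ ∧
    (∀ a, θ (algebraMap A _ a) = g a) ∧ (∀ l, θ (𝓡.r i l) = h l / h i) ∧
    ∀ z, z ∈ ch g.range (nz h) (h i) ↔ z ∈ Set.range θ
  frac : ∀ j ∈ nz h, Frac (ch g.range (nz h) j)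

variable {X S : Scheme.{0}} {Ω E : Type} [Field Ω] [Field E] [Algebra Ω E]

/-- A smooth projective family of rational surfaces. -/
structure Pf (f : S ⟶ Spec (.of k)) (π : X ⟶ S) (e : X ⟶ projSpace k N) : Prop where
  ov : e ≫ projStr k N = π ≫ f
  cl : IsClosedImmersion (pullback.lift e π ov)
  sm : Smooth π
  sep : IsSeparated π
  fib : ∀ (Ω : Type) [Field Ω] [IsAlgClosed Ω] (s : Spec (.of Ω) ⟶ S),
    RationalSurface (pullback.snd π s)

/-- The standard charts of the base change to `Spec A`. -/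
structure Pc (π : X ⟶ S) (e : X ⟶ projSpace k N) (σ : Spec (.of A) ⟶ S)
    (j : ∀ i, Spec (.of (𝓡.B i)) ⟶ pullback π σ) : Prop where
  opn : ∀ i, IsOpenImmersion (j i)
  base : ∀ i, j i ≫ pullback.snd π σ = sp (algebraMap A (𝓡.B i))
  co : ∀ i, ∃ ρ : Pj.Ch k i →+* 𝓡.B i, sp ρ ≫ Pj.pchart k i = j i ≫ pullback.fst π σ ≫ e ∧
    ∀ l, ρ (Pj.rat k i l) = 𝓡.r i l
  rng : ∀ i y, (pullback.fst π σ ≫ e) y ∈ Set.range (Pj.pchart k i) → y ∈ Set.range (j i)

/-- The generic point of a geometric fibre with its homogeneous coordinates. -/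
structure Geo (π : X ⟶ S) (e : X ⟶ projSpace k N) (s : Spec (.of Ω) ⟶ S)
    (η : Spec (.of E) ⟶ pullback π s) (h : Fin (N + 1) → E) : Prop where
  int : IsIntegral (pullback π s)
  dom : IsDominant η
  base : η ≫ pullback.snd π s = sp (algebraMap Ω E)
  one : ∃ i, h i = 1
  co : ∀ i, h i ≠ 0 → ∃ ρ : Pj.Ch k i →+* E, sp ρ ≫ Pj.pchart k i = η ≫ pullback.fst π s ≫ e ∧
    ∀ l, ρ (Pj.rat k i l) = h l / h i
  mem : ∀ i (ρ : Pj.Ch k i →+* E), sp ρ ≫ Pj.pchart k i = η ≫ pullback.fst π s ≫ e → h i ≠ 0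
  tw : RS.Tower (mp Ω fun _ : Unit => nz h)

end

/-! ### Rings -/

/-- BR3: the charts embed in the function field of the family. -/
def Br3Stmt : Prop := ∀ (k A F Ω E : Type) [Field k] [CommRing A] [Field F] [Field Ω] [Field E]
  [Algebra k A] [Algebra k F] [Algebra k E] [Algebra A Ω] [Algebra Ω E] [Algebra A E]
  [IsScalarTower A Ω E] (N : ℕ) (𝓡 : Rp A N) (g : A →ₐ[k] F) (μ : F →ₐ[k] E) (H : Set F)
  (h : Fin (N + 1) → E), Function.Injective g → (∀ a, μ (g a) = algebraMap A E a) →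
  𝓡.Fb Ω E h → μ '' H = nz h → (∀ j ∈ H, Frac (ch g.range H j)) →
    ∃ h' : Fin (N + 1) → F, (∀ l, μ (h' l) = h l) ∧ H = nz h' ∧ 𝓡.Em g h' ∧
      ∀ (ι : Type) (v : ι → F), LinearIndependent g.range v → LinearIndependent Ω fun i => μ (v i)

/-- UFDS: the local rings of a smooth variety are factorial. -/
def UfdsStmt : Prop := ∀ (k F : Type) [Field k] [CharZero k] [IsAlgClosed k] [Field F]
  [Algebra k F] (B : Subalgebra k F), Algebra.Smooth k B → ∀ O ∈ Pts B, UniqueFactorizationMonoid O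

/-- FIBR: the generic point of a fibre. -/
def FibrStmt : Prop := ∀ (k A F L M : Type) [Field k] [CommRing A] [Field F] [Field L] [Field M]
  [Algebra k A] [Algebra k F] [Algebra A L] [Algebra L M] [Algebra A M] [IsScalarTower A L M]
  (N : ℕ) (𝓡 : Rp A N) (g : A →ₐ[k] F) (h : Fin (N + 1) → F) (h' : Fin (N + 1) → M)
  (R : Subalgebra k F), 𝓡.Em g h → 𝓡.Fb L M h' → R ∈ Pts g.range →
  (∀ a, IsU R (g a) ↔ algebraMap A L a ≠ 0) → ∃ (ξ : Subalgebra k F) (ρ : ξ →+* M),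
    Fib R (nz h) ξ ∧ (∀ u : ξ, ρ u ≠ 0 → IsU ξ u) ∧
    (∀ a (m : g a ∈ ξ), ρ ⟨g a, m⟩ = algebraMap A M a) ∧
    ∀ i, h' i ≠ 0 → h i ≠ 0 ∧ ∀ l, ∃ m : h l / h i ∈ ξ, ρ ⟨h l / h i, m⟩ = h' l / h' i

/-- BR4: the family is locally factorial with integral fibres. -/
def Br4Stmt : Prop := ∀ (k A F : Type) [Field k] [CharZero k] [IsAlgClosed k] [CommRing A]
  [Field F] [Algebra k A] [Algebra k F] (N : ℕ) (𝓡 : Rp A N) (g : A →ₐ[k] F)
  (h : Fin (N + 1) → F), Algebra.Smooth k A → 𝓡.Em g h → 𝓡.Fbs → Fm g.range (nz h)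

/-- BR5: the closed fibres. -/
def Br5Stmt : Prop := ∀ (k A F : Type) [Field k] [CharZero k] [IsAlgClosed k] [CommRing A]
  [Field F] [Algebra k A] [Algebra k F] (N : ℕ) (𝓡 : Rp A N) (g : A →ₐ[k] F)
  (h : Fin (N + 1) → F), 𝓡.Em g h → 𝓡.Fbs → Fm g.range (nz h) → ∀ R ∈ Pts g.range, RatPt R →
    ∃ (M : Type) (_ : Field M) (_ : Algebra k M) (I : Type) (_ : Fintype I) (ξ : Subalgebra k F)
      (ρ : ξ →ₐ[k] M) (S : Sd k M I), Lc R (nz h) ξ ρ S

/-- IND: independence of residues implies independence over a local ring. -/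
def IndStmt : Prop := ∀ (k F M : Type) [Field k] [Field F] [Field M] [Algebra k F] [Algebra k M]
  (R ξ : Subalgebra k F) (ρ : ξ →ₐ[k] M) (h : R ≤ ξ), IsLocalRing R → RatPt R → AG.Dom R ξ →
  LocHom ξ ρ → (Subalgebra.inclusion h).toRingHom.Flat → ∀ (ι : Type) (v : ι → F),
    (∀ i, v i ∈ ξ) → LinearIndependent k (fun i => evO ξ ρ (v i)) → LinearIndependent R v

/-- REDT: the closed fibre is the variety with the reduced coordinates. -/
def RedtStmt : Prop := ∀ (k F M : Type) [Field k] [Field F] [Field M] [Algebra k F] [Algebra k M]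
  (N : ℕ) (R ξ : Subalgebra k F) (ρ : ξ →ₐ[k] M) (h : Fin (N + 1) → F) (h' : Fin (N + 1) → M),
  RatPt R → Fib R (nz h) ξ → LocHom ξ ρ → (∃ i, h' i ≠ 0) →
  (∀ i, h' i ≠ 0 → h i ≠ 0 ∧ ∀ l, h l / h i ∈ ξ ∧ evO ξ ρ (h l / h i) = h' l / h' i) →
    mp k (fun _ : Unit => nz h') = red ξ ρ '' {O | O ∈ XX R (nz h) ∧ AG.Dom R O}

/-- XFR: extension of the field of constants. -/
def XfrStmt : Prop := ∀ (K M Ω E : Type) [Field K] [Field M] [Field Ω] [Field E] [Algebra K M]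
  [Algebra K Ω] [Algebra Ω E] [Algebra K E] [IsScalarTower K Ω E] (N : ℕ) (𝓡 : Rp K N)
  (h : Fin (N + 1) → M) (h' : Fin (N + 1) → E) (i : Fin (N + 1)), 𝓡.Fb K M h → 𝓡.Fb Ω E h' →
  h i = 1 → Frac (ch (⊥ : Subalgebra K M) (nz h) 1) →
    ∃ ν : M →ₐ[K] E, h' i ≠ 0 ∧ ∀ l, ν (h l) = h' l / h' i

/-! ### Schemes -/

/-- A statement about all smooth projective families of rational surfaces. -/
def AllP (Φ : ∀ (k : Type) [Field k] (N : ℕ) (X S : Scheme.{0}), (S ⟶ Spec (.of k)) → (X ⟶ S) →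
    (X ⟶ projSpace k N) → Prop) : Prop :=
  ∀ (k : Type) [Field k] [CharZero k] [IsAlgClosed k] (N : ℕ) (X S : Scheme.{0})
    (f : S ⟶ Spec (.of k)) (π : X ⟶ S) (e : X ⟶ projSpace k N), Pf f π e → Φ k N X S f π e

/-- BR1: the standard charts. -/
def Br1Stmt : Prop := AllP fun _ _ N _ S _ π e => ∀ (A : Type) [CommRing A]
  (σ : Spec (.of A) ⟶ S), ∃ (𝓡 : Rp A N) (j : ∀ i, Spec (.of (𝓡.B i)) ⟶ pullback π σ),
    Pc 𝓡 π e σ j

/-- STK: the local rings of an integral scheme on an affine chart. -/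
def StalkStmt : Prop := ∀ (Y : Scheme.{0}) [IsIntegral Y] (B : Type) [CommRing B]
  (j : Spec (.of B) ⟶ Y) [IsOpenImmersion j] (κ : B →+* Y.functionField),
  sp κ ≫ j = gen Y → ∀ p : PrimeSpectrum B,
    Set.range (algebraMap (Y.presheaf.stalk (j p)) Y.functionField) = locS κ p.asIdeal

/-- BR2A: the function field of a geometric fibre. -/
def Br2aStmt : Prop := AllP fun _ _ N _ S _ π e => ∀ (Ω : Type) [Field Ω] [IsAlgClosed Ω]
  (s : Spec (.of Ω) ⟶ S), ∃ (E : Type) (_ : Field E) (_ : Algebra Ω E)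
    (η : Spec (.of E) ⟶ pullback π s) (h : Fin (N + 1) → E), Geo π e s η h

/-- BR2B: the charts of a geometric fibre. -/
def Br2bStmt : Prop := ∀ (k A Ω E : Type) [Field k] [CommRing A] [Field Ω] [Field E] [Algebra A Ω]
  [Algebra Ω E] [Algebra A E] [IsScalarTower A Ω E] (N : ℕ) (X S : Scheme.{0}) (π : X ⟶ S)
  (e : X ⟶ projSpace k N) (σ : Spec (.of A) ⟶ S) (s : Spec (.of Ω) ⟶ S) (𝓡 : Rp A N)
  (j : ∀ i, Spec (.of (𝓡.B i)) ⟶ pullback π σ) (η : Spec (.of E) ⟶ pullback π s)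
  (h : Fin (N + 1) → E), sp (algebraMap A Ω) ≫ σ = s → Pc 𝓡 π e σ j → Geo π e s η h →
    𝓡.Fb Ω E h

/-- BR6: the scheme is glued from the charts inside the function field. -/
def Br6Stmt : Prop := AllP fun k _ N _ S f π e => ∀ (A F : Type) [CommRing A] [Field F]
  [Algebra k A] [Algebra k F] (σ : Spec (.of A) ⟶ S) (𝓡 : Rp A N)
  (j : ∀ i, Spec (.of (𝓡.B i)) ⟶ pullback π σ) (g : A →ₐ[k] F) (h : Fin (N + 1) → F),
  σ ≫ f = sp (algebraMap k A) → Pc 𝓡 π e σ j → 𝓡.Em g h →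
    ∃ η j', Lk g (nz h) (pullback.snd π σ) η j'

/-- UNI: all smooth base changes are good. -/
def UniStmt : Prop := AllP fun k _ N _ S _ π e => ∀ (Ω E J : Type) [Field Ω] [Field E]
  [Algebra k Ω] [Algebra Ω E] [Algebra k E] [IsScalarTower k Ω E] [Fintype J]
  (s : Spec (.of Ω) ⟶ S) (η : Spec (.of E) ⟶ pullback π s) (h : Fin (N + 1) → E) (S' : Sd Ω E J),
  Geo π e s η h → Mk S' → S'.T = mp Ω (fun _ : Unit => nz h) → UniS k s (nz h) S'

/-- XF: the geometric fibre over a larger field. -/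
def XfStmt : Prop := AllP fun _ _ N _ S _ π e => ∀ (K Ω M : Type) [Field K] [CharZero K]
  [IsAlgClosed K] [Field Ω] [IsAlgClosed Ω] [Field M] [Algebra K Ω] [Algebra K M]
  (s₀ : Spec (.of K) ⟶ S) (s : Spec (.of Ω) ⟶ S) (η₀ : Spec (.of M) ⟶ pullback π s₀)
  (h : Fin (N + 1) → M), sp (algebraMap K Ω) ≫ s₀ = s → Geo π e s₀ η₀ h →
    ∃ (E : Type) (_ : Field E) (_ : Algebra Ω E) (_ : Algebra K E) (_ : IsScalarTower K Ω E)
      (η : Spec (.of E) ⟶ pullback π s) (ν : M →ₐ[K] E), Geo π e s η (fun l => ν (h l)) ∧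
      ∀ (ι : Type) (v : ι → M), LinearIndependent (⊥ : Subalgebra K M) v →
        LinearIndependent Ω fun i => ν (v i)

/-- M1: trivial monodromy at a dominant geometric point. -/
def M1Stmt : Prop := AllP fun k _ N _ S f π e => SmoothVariety f → SimplyConnected S →
  ∀ (Ω : Type) [Field Ω] [IsAlgClosed Ω] [Algebra k Ω] (s : Spec (.of Ω) ⟶ S),
  s ≫ f = sp (algebraMap k Ω) → IsDominant s → ∃ (E : Type) (_ : Field E) (_ : Algebra Ω E)
    (η : Spec (.of E) ⟶ pullback π s) (h : Fin (N + 1) → E) (J : Type) (_ : Fintype J)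
    (S' : Sd Ω E J), Geo π e s η h ∧ Mk S' ∧ S'.T = mp Ω (fun _ : Unit => nz h) ∧
      ∀ (K : Type) [Field K] (ι : K →+* Ω) (s₀ : Spec (.of K) ⟶ S), sp ι ≫ s₀ = s →
        Triv (algebraMap Ω E '' Set.range ι ∪ nz h) S'

/-- M3: the family over a dominant family of lines. -/
def M3Stmt : Prop := AllP fun k _ _ _ S f π _ => SmoothVariety f → SimplyConnected S →
  ∀ (A : Type) [CommRing A] [IsDomain A] [Algebra k A] (σ : Spec (.of A[X]) ⟶ S), T.Et k A →
  σ ≫ f = sp (algebraMap k A[X]) → IsDominant σ →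
    ∃ (F Ω E J : Type) (_ : Field F) (_ : Field Ω) (_ : IsAlgClosed Ω) (_ : Field E)
      (_ : Algebra k F) (_ : Algebra k Ω) (_ : Algebra k E) (_ : Algebra Ω E)
      (_ : IsScalarTower k Ω E) (_ : Fintype J) (g : A[X] →ₐ[k] F) (H : Set F) (μ : F →ₐ[k] E)
      (S' : Sd Ω E J) (η : Spec (.of F) ⟶ pullback π σ)
      (j : ∀ a : H, Spec (.of (ch g.range H a)) ⟶ pullback π σ),
        Ts g H μ S' ∧ Lk g H (pullback.snd π σ) η j

/-- MAIN. -/
def MainStmt : Prop := AllP fun _ _ _ _ S f π _ => SmoothVariety (π ≫ f) → Elliptic f →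
  SimplyConnected S → Elliptic (π ≫ f)

end Pool.Agent.MP_e8e0b6_ag.R2
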