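import Pool.Agent.MP_e8e0b6_ag.R2.SpecT
import Pool.Agent.MP_e8e0b6_ag.R2.C.Bas
import Pool.Agent.MP_e8e0b6_ag.T.Main

/-!
Sections and cells of a family of rational surfaces: the statements.
-/

set_option autoImplicit false

open Polynomial AlgebraicGeometry CategoryTheory

namespace Pool.Agent.MP_e8e0b6_ag.R2

open Pool.Agent.MP_79c67d_ag Pool.Agent.MP_20d318_ag Pool.Agent.MP_20d318_ag.AG
  Pool.Agent.MP_20d318_ag.BV Pool.Agent.MP_20d318_ag.CB

section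
variable {k A F M κ I : Type} [Field k] [CommRing A] [Field F] [Field M] [Field κ] [Algebra k A]
  [Algebra k F] [Algebra k M] [Algebra k κ] [Fintype I]

/-- The local ring of the base at a rational point. -/
def lp (g : A →ₐ[k] F) (e : A →ₐ[k] k) : Subalgebra k F :=
  { locS (g : A →+* F) (kerPt e) with
    algebraMap_mem' := fun c => g.commutes c ▸ map_mem_locS (r := (g : A →+* F)) (algebraMap k A c) }

variable {g : A →ₐ[k] F} {e : A →ₐ[k] k}

theorem mem_lp {f : F} : f ∈ lp g e ↔ ∃ a b, e b ≠ 0 ∧ f * g b = g a := Iff.rfl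

theorem range_le_lp : g.range ≤ lp g e := by
  rintro _ ⟨a, rfl⟩
  exact ⟨a, 1, by simp [mem_kerPt], by simp⟩

theorem isU_lp (hg : Function.Injective g) {a : A} : IsU (lp g e) (g a) ↔ e a ≠ 0 :=
  Iff.trans ⟨fun h => ⟨h.2.1, h.1, h.2.2⟩, fun h => ⟨h.2.1, h.1, h.2.2⟩⟩
    (un_locS (r := (g : A →+* F)) (p := kerPt e) hg)

theorem lp_lz (hg : Function.Injective g) : Lz g.range (lp g e) :=
  ⟨range_le_lp, fun _ ⟨a, b, hb, h⟩ => ⟨_, ⟨a, rfl⟩, _, ⟨b, rfl⟩, (isU_lp hg).2 hb,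
    eq_div_of_mul_eq ((isU_lp hg).2 hb).ne h⟩⟩

theorem lp_pts (hg : Function.Injective g) : lp g e ∈ Pts g.range :=
  ⟨loc_iff.1 (loc_locS (r := (g : A →+* F)) (p := kerPt e) hg), range_le_lp, (lp_lz hg).2⟩

theorem lp_rat (hg : Function.Injective g) : RatPt (lp g e) := fun f hf => by
  obtain ⟨a, b, hb, h⟩ := mem_lp.1 hf
  have hu := (isU_lp (e := e) hg).2 hb
  refine ⟨e a / e b, sub_mem hf (Subalgebra.algebraMap_mem _ _), fun h1 => ?_⟩
  have h2 := h1.mul hu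
  rw [sub_mul, h, ← g.commutes, ← map_mul, ← map_sub, isU_lp hg] at h2
  exact h2 (by simp [hb])

/-- Over `R` the line bundle `γ` restricts to a class of rational curves. -/
def At (R : Subalgebra k F) (H : Set F) (γ : Subalgebra k F → F) : Prop :=
  ∃ (M : Type) (_ : Field M) (_ : Algebra k M) (I : Type) (_ : Fintype I) (ξ : Subalgebra k F)
    (ρ : ξ →ₐ[k] M) (S : Sd k M I) (d : I → ℤ) (u : F), Lc R H ξ ρ S ∧ SAll S ∧ LA R H ξ ρ S ∧
      Nc S d ∧ u ≠ 0 ∧ Lb R H ξ ρ S d fun O => u * γ O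

/-- A divisor on the family that restricts to the prime divisor `P`. -/
structure Zd (R : Subalgebra k F) (H : Set F) (ξ : Subalgebra k F) (ρ : ξ →ₐ[k] M) (S : Sd k M I)
    (d : I → ℤ) (φ : M) (P : Place k M) (z : Subalgebra k F → F) : Prop where
  lc : Lc R H ξ ρ S
  all : SAll S
  prm : S.Prm d φ P
  dt : Dt (XX R H) z
  mem : ∀ O ∈ XX R H, z O ∈ O
  red : ∀ O ∈ XX R H, AG.Dom R O →
    IsU (red ξ ρ O) (evO ξ ρ (z O) / (φ * S.lb d (red ξ ρ O)))

/-- A lifted coordinate on the prime divisor `P`. -/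
structure Wd (R : Subalgebra k F) (H : Set F) (ξ : Subalgebra k F) (ρ : ξ →ₐ[k] M) (S : Sd k M I)
    (P : Place k M) (w : F) : Prop where
  un : IsU ξ w
  cw : Cw S.T P (evO ξ ρ w)
  cw' : Cw S.T P (evO ξ ρ w⁻¹)
  reg : ∀ O ∈ XX R H, AG.Dom R O → red ξ ρ O ≤ plO P → w ∈ O ∨ w⁻¹ ∈ O

/-- A divisor with a coordinate. -/
def Az (R : Subalgebra k F) (H : Set F) (z : Subalgebra k F → F) : Prop :=
  ∃ (M : Type) (_ : Field M) (_ : Algebra k M) (I : Type) (_ : Fintype I) (ξ : Subalgebra k F)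
    (ρ : ξ →ₐ[k] M) (S : Sd k M I) (d : I → ℤ) (φ : M) (P : Place k M) (w : F),
      Zd R H ξ ρ S d φ P z ∧ Wd R H ξ ρ S P w

/-- `D` is the generic point of the divisor `z`. -/
structure Dd (R : Subalgebra k F) (H : Set F) (z : Subalgebra k F → F) (D : Subalgebra k F) :
    Prop where
  mem : D ∈ XX R H
  iff : ∀ O ∈ XX R H, z O ∈ mx O ↔ O ≤ D
  hor : ∀ c ∈ R, c ≠ 0 → IsU D c
  rk : ∀ a ∈ mx D, ∀ b ∈ D, b ≠ 0 → ∃ n : ℕ, a ^ n / b ∈ D
  dv : ∀ O ∈ XX R H, AG.Dom R O → O ≤ D → ∀ a ∈ O, a ∈ mx D → a / z O ∈ O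

/-- The residue field of `D` and the coordinates `H'` of the divisor. -/
structure Rd (H : Set F) (D : Subalgebra k F) (ρ : D →ₐ[k] κ) (j : F) (H' : Set κ) : Prop where
  lh : LocHom D ρ
  surj : Function.Surjective ρ
  mem : j ∈ H
  gen : ∀ a ∈ H, a / j ∈ D
  eq : H' = (fun a => evO D ρ (a / j)) '' H

/-- `w` identifies the family with coordinates `H` and the projective line over `R`. -/
structure Pw (R : Subalgebra k κ) (H : Set κ) (w : κ) : Prop where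
  tr : Transcendental R w
  iff : ∀ O : Subalgebra k κ, IsLocalRing O → R ≤ O → (Prin H O ↔ w ∈ O ∨ w⁻¹ ∈ O)

/-- An affine line over `A[1/h][X]` that maps to the family. -/
def Lne (g : A[X] →ₐ[k] F) (H : Set F) (x : A →ₐ[k] k) : Prop :=
  ∃ (D : Subalgebra k F) (κ : Type) (_ : Field κ) (_ : Algebra k κ) (ρ : D →ₐ[k] κ) (j : F)
    (H' : Set κ) (g' : A[X] →ₐ[k] κ) (h : A) (w : κ), Rd H D ρ j H' ∧ g.range ≤ D ∧
      (∀ p, evO D ρ (g p) = g' p) ∧ Function.Injective g' ∧ x h ≠ 0 ∧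
      Transcendental g'.range w ∧ ∀ O : Subalgebra k κ, IsLocalRing O → g'.range ≤ O →
        IsU O (g' (C h)) → w ∈ O → Prin H' O

/-- The scheme `Y` is glued from the standard charts. -/
structure Lk (g : A →ₐ[k] F) (H : Set F) {Y : Scheme.{0}} (q : Y ⟶ Spec (.of A))
    (η : Spec (.of F) ⟶ Y) (j : ∀ a : H, Spec (.of (ch g.range H a)) ⟶ Y) : Prop where
  inj : Function.Injective g
  sep : Y.IsSeparated
  ft : LocallyOfFiniteType q
  opn : ∀ a, IsOpenImmersion (j a)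
  cov : ∀ y, ∃ a, y ∈ Set.range (j a)
  base : η ≫ q = sp (g : A →+* F)
  gen : ∀ a : H, sp ((ch g.range H a).val : ch g.range H a →+* F) ≫ j a = η

/-- A section near the line over `x`. -/
def SecAt {Y : Scheme.{0}} (q : Y ⟶ Spec (.of A[X])) (x : A →ₐ[k] k) : Prop :=
  ∃ (A₁ : Type) (_ : CommRing A₁) (_ : IsDomain A₁) (_ : Algebra k A₁) (ε : A →ₐ[k] A₁)
    (x₁ : A₁ →ₐ[k] k) (s : Spec (.of A₁[X]) ⟶ Y), T.Et k A₁ ∧
      IsOpenImmersion (sp (ε : A →+* A₁)) ∧ x₁.comp ε = x ∧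
      s ≫ q = sp (mapRingHom (ε : A →+* A₁))

end

/-- ATS: the class of rational curves on all fibres, and the charts. -/
def AtsStmt : Prop := ∀ (k F Ω E J : Type) [Field k] [CharZero k] [IsAlgClosed k] [Field F]
  [Field Ω] [CharZero Ω] [IsAlgClosed Ω] [Field E] [Algebra k F] [Algebra k E] [Algebra Ω E]
  [Fintype J] (C : Subalgebra k F) (H : Set F) (μ : F →ₐ[k] E) (S' : Sd Ω E J), Gd C H μ S' →
  Rat μ S' → ∃ γ, Dt (XX C H) γ ∧ ∀ R ∈ Pts C, RatPt R → At R H γ ∧ ChO R H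

/-- SCL: sections over a localisation of the base. -/
def SclStmt : Prop := ∀ (k F : Type) [Field k] [Field F] [Algebra k F] (C R : Subalgebra k F)
  (H : Set F) (γ : Subalgebra k F → F), Fm C H → Lz C R → Dt (XX C H) γ →
  ∀ z ∈ Sc (XX R H) γ, ∃ s ∈ C, IsU R s ∧ s * z ∈ Sc (XX C H) γ

/-- FIN: finiteness of the module of sections. -/
def FinStmt : Prop := ∀ (k F : Type) [Field k] [CharZero k] [Field F] [Algebra k F]
  (C : Subalgebra k F) (H : Set F) (γ : Subalgebra k F → F), Fm C H → Algebra.FiniteType k C →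
  Dt (XX C H) γ → ∃ W : Set F, W.Finite ∧ ∀ z ∈ Sc (XX C H) γ, z ∈ Submodule.span C W

/-- LOCF: the module of sections over a local ring is free. -/
def LocfStmt : Prop := ∀ (k F : Type) [Field k] [Field F] [Algebra k F] (R : Subalgebra k F)
  (H : Set F) (γ : Subalgebra k F → F), At R H γ → Dt (XX R H) γ →
  ∃ (n : ℕ) (w : Fin (n + 1) → F), LinearIndependent R w ∧
    (∀ z, z ∈ Sc (XX R H) γ ↔ z ∈ Submodule.span R (Set.range w)) ∧
    ∀ ξ, Fib R H ξ → ∀ r : Fin (n + 1) → F, (∀ i, r i ∈ R) → (∃ i, IsU R (r i)) →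
      IsU ξ ((∑ i, r i * w i) * γ ξ)

/-- FRM: a locally free module over `A[X]` is free near the line over `x`. -/
def FrmStmt : Prop := ∀ (k A F : Type) [Field k] [CharZero k] [IsAlgClosed k] [CommRing A]
  [IsDomain A] [Algebra k A] [Field F] [Algebra k F] (g : A[X] →ₐ[k] F) (x : A →ₐ[k] k)
  (N : Submodule g.range F) (W : Set F), T.Et k A → Function.Injective g → W.Finite →
  N ≤ Submodule.span g.range W → (∀ e : A[X] →ₐ[k] k, ∃ (n : ℕ) (w : Fin n → F),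
    LinearIndependent (lp g e) w ∧
      Submodule.span (lp g e) (N : Set F) = Submodule.span (lp g e) (Set.range w)) →
    ∃ (h : A) (m : ℕ) (ψ : Fin m → F), x h ≠ 0 ∧ (∀ l, ψ l ∈ N) ∧ LinearIndependent g.range ψ ∧
      ∀ y ∈ N, g (C h) * y ∈ Submodule.span g.range (Set.range ψ)

/-- FRAME: a section that vanishes on no fibre near the line over `x`. -/
def FrameStmt : Prop := ∀ (k A F : Type) [Field k] [CharZero k] [IsAlgClosed k] [CommRing A]
  [IsDomain A] [Algebra k A] [Field F] [Algebra k F] (g : A[X] →ₐ[k] F) (x : A →ₐ[k] k)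
  (H : Set F) (γ : Subalgebra k F → F), T.Et k A → Function.Injective g → Fm g.range H →
  Dt (XX g.range H) γ → (∀ e, At (lp g e) H γ) → ∃ (h : A) (ψ : F), x h ≠ 0 ∧ ψ ≠ 0 ∧
    ψ ∈ Sc (XX g.range H) γ ∧ ∀ e : A[X] →ₐ[k] k, e (C h) ≠ 0 → ∀ ξ, Fib (lp g e) H ξ →
      IsU ξ (ψ * γ ξ)

/-- CRD: a coordinate on a curve with a line bundle of degree one. -/
def CrdStmt : Prop := ∀ (k M I : Type) [Field k] [CharZero k] [IsAlgClosed k] [Field M]
  [Algebra k M] [Fintype I] (S : Sd k M I) (d D : I → ℤ) (φ : M) (P : Place k M), SAll S →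
  S.Prm d φ P → ip S.B D d = 1 → S.h0 (D - d) + 2 ≤ S.h0 D → ∃ s ∈ S.Sec D, ∃ s' ∈ S.Sec D,
    s ≠ 0 ∧ s' ≠ 0 ∧ Cw S.T P (s / s') ∧ Cw S.T P (s' / s) ∧
      ∀ O ∈ S.T, O ≤ plO P → IsU O (s * S.lb D O) ∨ IsU O (s' * S.lb D O)

/-- AZ: the divisor of a section. -/
def AzStmt : Prop := ∀ (k F : Type) [Field k] [CharZero k] [IsAlgClosed k] [Field F] [Algebra k F]
  (R : Subalgebra k F) (H : Set F) (γ : Subalgebra k F → F) (ψ : F), At R H γ → Dt (XX R H) γ →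
  ψ ∈ Sc (XX R H) γ → (∀ ξ, Fib R H ξ → IsU ξ (ψ * γ ξ)) → Az R H fun O => ψ * γ O

/-- DD: the generic point of the divisor. -/
def DdStmt : Prop := ∀ (k F M I : Type) [Field k] [CharZero k] [IsAlgClosed k] [Field F] [Field M]
  [Algebra k F] [Algebra k M] [Fintype I] (R : Subalgebra k F) (H : Set F) (ξ : Subalgebra k F)
  (ρ : ξ →ₐ[k] M) (S : Sd k M I) (d : I → ℤ) (φ : M) (P : Place k M) (z : Subalgebra k F → F),
  Zd R H ξ ρ S d φ P z → ∃ D, Dd R H z D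

/-- HT: the residue field of a divisor on a family of surfaces is transcendental. -/
def HtStmt : Prop := ∀ (k F : Type) [Field k] [Field F] [Algebra k F] (R D : Subalgebra k F)
  (G : Set F) (a b : F), G.Finite → Frac (R ⊔ Algebra.adjoin k G) →
  D ∈ Pts (R ⊔ Algebra.adjoin k G) → (∀ c ∈ R, c ≠ 0 → IsU D c) → AlgebraicIndependent R ![a, b] →
  (∀ a ∈ mx D, ∀ b ∈ D, b ≠ 0 → ∃ n : ℕ, a ^ n / b ∈ D) →
    ∃ r ∈ D, ∀ p : R[X], p ≠ 0 → IsU D (aeval r p)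

/-- CW2: functions on the curve near a point. -/
def Cw2Stmt : Prop := ∀ (k M I : Type) [Field k] [CharZero k] [IsAlgClosed k] [Field M]
  [Algebra k M] [Fintype I] (S : Sd k M I) (d : I → ℤ) (φ w : M) (P : Place k M) (c : k),
  SAll S → S.Prm d φ P → Cw S.T P w → ∀ O ∈ S.T, O ≤ plO P → w - algebraMap k M c ∈ mx O →
    ∀ a ∈ O, ∃ p q : k[X], q.eval c ≠ 0 ∧ (a * aeval w q - aeval w p) / (φ * S.lb d O) ∈ O

/-- A statement about a divisor with all its data. -/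
def AllZ (Φ : ∀ (k F κ : Type) [Field k] [Field F] [Field κ] [Algebra k F] [Algebra k κ]
    (_R : Subalgebra k F) (D : Subalgebra k F), (D →ₐ[k] κ) → Set κ → F → Prop) : Prop :=
  ∀ (k F M κ I : Type) [Field k] [CharZero k] [IsAlgClosed k] [Field F] [Field M] [Field κ]
    [Algebra k F] [Algebra k M] [Algebra k κ] [Fintype I] (R : Subalgebra k F) (H : Set F)
    (ξ : Subalgebra k F) (ρ : ξ →ₐ[k] M) (S : Sd k M I) (d : I → ℤ) (φ : M) (P : Place k M)
    (z : Subalgebra k F → F) (w : F) (D : Subalgebra k F) (ρ' : D →ₐ[k] κ) (j : F) (H' : Set κ),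
    Zd R H ξ ρ S d φ P z → Wd R H ξ ρ S P w → Dd R H z D → Rd H D ρ' j H' → Φ k F κ R D ρ' H' w

/-- ZC: the centre on the divisor. -/
def ZcStmt : Prop := ∀ (k F κ : Type) [Field k] [Field F] [Field κ] [Algebra k F] [Algebra k κ]
  (R D : Subalgebra k F) (H : Set F) (ρ : D →ₐ[k] κ) (j : F) (H' : Set κ), (∀ a ∈ H, a ≠ 0) →
  R ≤ D → Rd H D ρ j H' → (∀ W : Subalgebra k κ, IsLocalRing W → red D ρ R ≤ W → Prin H' W →
    ∃ O ∈ XX R H, O ≤ D ∧ AG.Dom (red D ρ O) W) ∧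
    ∀ O ∈ XX R H, O ≤ D → Prin H' (red D ρ O) ∧ ∃ G : Set κ, (H.Finite → G.Finite) ∧
      red D ρ O ∈ Pts (red D ρ R ⊔ Algebra.adjoin k G)

/-- CRVA: the coordinate is a morphism to the projective line. -/
def CrvAStmt : Prop := AllZ fun k _ κ _ _ _ _ _ R D ρ H' w => IsU D w ∧
  ∀ O : Subalgebra k κ, IsLocalRing O → red D ρ R ≤ O → Prin H' O →
    evO D ρ w ∈ O ∨ (evO D ρ w)⁻¹ ∈ O

/-- CRVB: the inverse morphism at the rational points of the closed fibre. -/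
def CrvBStmt : Prop := AllZ fun k _ κ _ _ _ _ _ R D ρ H' w => ∀ (c : k) (O : Subalgebra k κ),
  O ∈ Pts (red D ρ R ⊔ Algebra.adjoin k {evO D ρ w}) → AG.Dom (red D ρ R) O →
    evO D ρ w - algebraMap k κ c ∈ mx O → Prin H' O

/-- CRVC: it is enough to look at the rational points of the closed fibre of the line. -/
def CrvCStmt : Prop := ∀ (k κ : Type) [Field k] [IsAlgClosed k] [Field κ] [Algebra k κ]
  (R : Subalgebra k κ) (H : Set κ) (w : κ), IsLocalRing R → RatPt R →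
  (∀ u, u = w ∨ u = w⁻¹ → ∀ (c : k), ∀ O ∈ Pts (R ⊔ Algebra.adjoin k {u}), AG.Dom R O →
    u - algebraMap k κ c ∈ mx O → Prin H O) →
    ∀ O : Subalgebra k κ, IsLocalRing O → R ≤ O → w ∈ O ∨ w⁻¹ ∈ O → Prin H O

/-- CRV: the divisor is a projective line over `R`. -/
def CrvStmt : Prop := AllZ fun _ _ _ _ _ _ _ _ R D ρ H' w => Pw (red D ρ R) H' (evO D ρ w)

/-- SPR: spreading out. -/
def SprStmt : Prop := ∀ (k F : Type) [Field k] [Field F] [Algebra k F] (C R : Subalgebra k F)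
  (G U : Set F), Lz C R → U.Finite →
  (∀ O : Subalgebra k F, IsLocalRing O → R ⊔ Algebra.adjoin k G ≤ O → Prin U O) →
    ∃ s ∈ C, IsU R s ∧ ∀ O : Subalgebra k F, IsLocalRing O → C ⊔ Algebra.adjoin k G ≤ O →
      IsU O s → Prin U O

/-- SPR2: spreading out an open subset. -/
def Spr2Stmt : Prop := ∀ (k F : Type) [Field k] [Field F] [Algebra k F] (C R : Subalgebra k F)
  (G G' : Set F), Lz C R → G'.Finite →
  (∀ O : Subalgebra k F, IsLocalRing O → R ⊔ Algebra.adjoin k (G ∪ G') ≤ O →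
    G' ⊆ fr (R ⊔ Algebra.adjoin k G) O) → ∃ s ∈ C, IsU R s ∧ ∀ O : Subalgebra k F,
      IsLocalRing O → C ⊔ Algebra.adjoin k (G ∪ G') ≤ O → IsU O s →
        G' ⊆ fr (C ⊔ Algebra.adjoin k G) O

/-- ATL: the standard charts as an atlas. -/
def AtlStmt : Prop := ∀ (A κ : Type) [CommRing A] [IsDomain A] [Field κ] [Algebra A κ] (H : Set κ)
  (w : κ), H.Finite → 1 ∈ H →
  (∀ ω, ∃ a ∈ Algebra.adjoin A H, ∃ s ∈ Algebra.adjoin A H, s ≠ 0 ∧ ω * s = a) →
  Transcendental A w → (∀ ω, ∃ p q : A[X], q ≠ 0 ∧ ω * aeval w q = aeval w p) →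
    ∃ 𝒜 : Atlas A κ {j // j ∈ H ∧ j ≠ 0}, ∀ O : Subring κ, (∀ c, algebraMap A κ c ∈ O) →
      (𝒜.P O ↔ ∃ j ∈ H, j ≠ 0 ∧ ∀ a ∈ H, a / j ∈ O)

/-- A global coordinate on a family of lines; `p` says which points of the base are used. -/
def Secb (p : ∀ (k A : Type) [Field k] [CommRing A] [Algebra k A], (A →ₐ[k] k) → A → Prop) :
    Prop := ∀ (k A κ : Type) [Field k] [CharZero k] [IsAlgClosed k] [CommRing A] [IsDomain A]
  [Algebra k A] [Field κ] [Algebra k κ] (g : A[X] →ₐ[k] κ) (x : A →ₐ[k] k) (H : Set κ) (h : A),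
  T.Et k A → Function.Injective g → H.Finite → 1 ∈ H → Frac (ch g.range H 1) → p k A x h →
  (∀ e : A[X] →ₐ[k] k, e (C h) ≠ 0 → ∃ w, Pw (lp g e) H w) → ∃ (h' : A) (w : κ), x h' ≠ 0 ∧
    Transcendental g.range w ∧ ∀ O : Subalgebra k κ, IsLocalRing O → g.range ≤ O →
      IsU O (g (C h')) → w ∈ O → Prin H O

/-- SECB0. -/
def Secb0Stmt : Prop := Secb fun _ _ _ _ _ _ h => h = 1

/-- SECB. -/
def SecbStmt : Prop := Secb fun _ _ _ _ _ x h => x h ≠ 0

/-- LN: a line on the family. -/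
def LneStmt : Prop := ∀ (k A F : Type) [Field k] [CharZero k] [IsAlgClosed k] [CommRing A]
  [IsDomain A] [Algebra k A] [Field F] [Algebra k F] (g : A[X] →ₐ[k] F) (x : A →ₐ[k] k)
  (H : Set F) (γ : Subalgebra k F → F), T.Et k A → Function.Injective g → Fm g.range H →
  Dt (XX g.range H) γ → (∀ e, At (lp g e) H γ) → Lne g H x

/-- PTS: points with values in a local ring lie in a chart. -/
def PtsStmt : Prop := ∀ (k A F : Type) [Field k] [CommRing A] [Algebra k A] [Field F] [Algebra k F]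
  (g : A →ₐ[k] F) (H : Set F) (Y : Scheme.{0}) (q : Y ⟶ Spec (.of A)) (η : Spec (.of F) ⟶ Y)
  (j : ∀ a : H, Spec (.of (ch g.range H a)) ⟶ Y), Lk g H q η j →
  ∀ (T : Type) [CommRing T] [IsLocalRing T] (y : Spec (.of T) ⟶ Y) (e : A →+* T),
    y ≫ q = sp e → ∃ (a : H) (θ : ch g.range H a →+* T), sp θ ≫ j a = y ∧
      ∀ p (h : g p ∈ ch g.range H a), θ ⟨g p, h⟩ = e p

/-- OI: an affine open subset. -/
def OiStmt : Prop := ∀ (k A F : Type) [Field k] [CommRing A] [Algebra k A] [Field F] [Algebra k F]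
  (g : A →ₐ[k] F) (H : Set F) (Y : Scheme.{0}) (q : Y ⟶ Spec (.of A)) (η : Spec (.of F) ⟶ Y)
  (j : ∀ a : H, Spec (.of (ch g.range H a)) ⟶ Y), Lk g H q η j →
  ∀ (B : Subalgebra k F) (G : Set F), G.Finite → B = g.range ⊔ Algebra.adjoin k G → Frac B →
    Pts B ⊆ XX g.range H → ∃ Φ : Spec (.of B) ⟶ Y, IsOpenImmersion Φ ∧
      sp (B.val : B →+* F) ≫ Φ = η

/-- SECC: the section. -/
def SeccStmt : Prop := ∀ (k A F : Type) [Field k] [CommRing A] [IsDomain A] [Algebra k A] [Field F]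
  [Algebra k F] (g : A[X] →ₐ[k] F) (x : A →ₐ[k] k) (H : Set F) (Y : Scheme.{0})
  (q : Y ⟶ Spec (.of A[X])) (η : Spec (.of F) ⟶ Y)
  (j : ∀ a : H, Spec (.of (ch g.range H a)) ⟶ Y), T.Et k A → Lk g H q η j → Lne g H x → SecAt q x

/-- CELLR: spreading out a chart. -/
def CellrStmt : Prop := ∀ (k F : Type) [Field k] [Field F] [Algebra k F] (C R : Subalgebra k F)
  (H : Set F) (c : F × F), Fm C H → Lz C R → Pts (pl R c) ⊆ XX R H →
    ∃ s ∈ C, IsU R s ∧ ∀ O ∈ Pts (pl C c), IsU O s → O ∈ XX C H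

/-- CELL: the family is cellular. -/
def CellStmt : Prop := ∀ (k A F : Type) [Field k] [CommRing A] [IsDomain A] [Algebra k A] [Field F]
  [Algebra k F] (g : A →ₐ[k] F) (H : Set F) (Y : Scheme.{0}) (q : Y ⟶ Spec (.of A))
  (η : Spec (.of F) ⟶ Y) (j : ∀ a : H, Spec (.of (ch g.range H a)) ⟶ Y), T.Et k A →
  Lk g H q η j → Fm g.range H → (∀ e, ChO (lp g e) H) → T.Cellular (sp (algebraMap k A)) q 2

/-- GERM: cells and a section give a line through a given section with a given derivative. -/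
def GermStmt : Prop := ∀ (k A : Type) [Field k] [CharZero k] [IsAlgClosed k] [CommRing A]
  [IsDomain A] [Algebra k A] (Y : Scheme.{0}) (q : Y ⟶ Spec (.of A[X])) (x : A →ₐ[k] k) (n : ℕ)
  (s₀ : Spec (.of A) ⟶ Y) (v : Spec (.of (DualNumber k)) ⟶ Y), Y.IsSeparated →
  LocallyOfFiniteType q → T.Et k A → T.Cellular (sp (algebraMap k A[X])) q n → SecAt q x →
  s₀ ≫ q = sp constantCoeff → v ≫ q = sp (eval₂RingHom ((inlR k).comp x) DualNumber.eps) →
  epsPoint k ≫ v = sp (x : A →+* k) ≫ s₀ → ∃ (A₂ : Type) (_ : CommRing A₂) (_ : Algebra k A₂)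
    (ε : A →ₐ[k] A₂) (e : A₂ →+* k) (Φ : Spec (.of A₂[X]) ⟶ Y),
      IsOpenImmersion (sp (ε : A →+* A₂)) ∧
      Φ ≫ q ≫ sp (algebraMap k A[X]) = sp (algebraMap k A₂[X]) ∧
      sp constantCoeff ≫ Φ = sp (ε : A →+* A₂) ≫ s₀ ∧
      sp (eval₂RingHom ((inlR k).comp e) DualNumber.eps) ≫ Φ = v

/-- PAR: cells and a section for a family with trivial monodromy and a point. -/
def ParStmt : Prop := ∀ (k A F Ω E J : Type) [Field k] [CharZero k] [IsAlgClosed k] [CommRing A]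
  [IsDomain A] [Field F] [Field Ω] [IsAlgClosed Ω] [Field E] [Algebra k A] [Algebra k F]
  [Algebra k Ω] [Algebra k E] [Algebra Ω E] [IsScalarTower k Ω E] [Fintype J] (g : A[X] →ₐ[k] F)
  (x : A →ₐ[k] k) (H : Set F) (μ : F →ₐ[k] E) (S' : Sd Ω E J) (Y : Scheme.{0})
  (q : Y ⟶ Spec (.of A[X])) (η : Spec (.of F) ⟶ Y)
  (j : ∀ a : H, Spec (.of (ch g.range H a)) ⟶ Y) (s₀ : Spec (.of A) ⟶ Y), T.Et k A →
  Ts g H μ S' → Lk g H q η j → s₀ ≫ q = sp constantCoeff →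
    T.Cellular (sp (algebraMap k A[X])) q 2 ∧ SecAt q x

end Pool.Agent.MP_e8e0b6_ag.R2
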