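import Pool.Agent.MP_e8e0b6_ag.R2.Spec1
import Pool.Agent.MP_e8e0b6_ag.SB.Gal

/-!
Descent of divisor classes: the statements.
-/

set_option autoImplicit false

open Polynomial

namespace Pool.Agent.MP_e8e0b6_ag.R2

open Pool.Agent.MP_79c67d_ag Pool.Agent.MP_20d318_ag Pool.Agent.MP_20d318_ag.AG
  Pool.Agent.MP_20d318_ag.BV Pool.Agent.MP_20d318_ag.CB

/-- `τ` permutes the constants. -/
def Semi (Ω : Type) {E : Type} [Field Ω] [Field E] [Algebra Ω E] (τ : E ≃+* E) : Prop :=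
  τ '' Set.range (algebraMap Ω E) = Set.range (algebraMap Ω E)

/-- SEMI: a semilinear automorphism that fixes the coordinates permutes the points. -/
def SemiStmt : Prop := ∀ (Ω E : Type) [Field Ω] [Field E] [Algebra Ω E] (H : Set E) (τ : E ≃+* E),
  Semi Ω τ → (∀ a ∈ H, τ a = a) → ∀ O ∈ mp Ω (fun _ : Unit => H),
    (∃ O' ∈ mp Ω (fun _ : Unit => H), ∀ a, a ∈ O' ↔ τ a ∈ O) ∧
      ∃ O' ∈ mp Ω (fun _ : Unit => H), ∀ a, τ a ∈ O' ↔ a ∈ O

/-- CTR: a point of the geometric generic fibre lies over a point of the family. -/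
def CtrStmt : Prop := ∀ (k F Ω E : Type) [Field k] [Field F] [Field Ω] [Field E] [Algebra k F]
  [Algebra k E] [Algebra Ω E] (C : Subalgebra k F) (H : Set F) (μ : F →ₐ[k] E),
  (∀ c ∈ C, μ c ∈ Set.range (algebraMap Ω E)) → ∀ O' ∈ mp Ω (fun _ : Unit => μ '' H),
    ∃ O ∈ XX C H, ∀ a ∈ O, μ a ∈ O'

/-- LZ: localisation of the base. -/
def LzStmt : Prop := ∀ (k F : Type) [Field k] [Field F] [Algebra k F] (C D : Subalgebra k F)
  (H : Set F), Lz C D → XX D H ⊆ XX C H ∧ (∀ O ∈ XX C H, D ≤ O → O ∈ XX D H) ∧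
    (Fm C H → Fm D H)

/-- CLEX: a system has a class; products of systems. -/
def ClExStmt : Prop := ∀ (k M I : Type) [Field k] [Field M] [Algebra k M] [Fintype I]
  (S : Sd k M I) (U : Set M), SAll S → U.Finite → (∀ O ∈ S.T, Prin U O) → ∃ c, Cl S U c

/-- RATGEN: it is enough to look at the basis. -/
def RatGenStmt : Prop := ∀ (k F Ω E J : Type) [Field k] [Field F] [Field Ω] [Field E] [Algebra k F]
  [Algebra k E] [Algebra Ω E] [Fintype J] [DecidableEq J] (μ : F →ₐ[k] E) (S' : Sd Ω E J),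
  SAll S' → (∀ i : J, ∃ (U V : Set F) (c₁ c₂ : J → ℤ), U.Finite ∧ V.Finite ∧ Cl S' (μ '' U) c₁ ∧
    Cl S' (μ '' V) c₂ ∧ Pi.single i 1 = c₁ - c₂) → Rat μ S'

/-- DIF: the class of a line bundle on the family is a difference of classes of systems. -/
def DifStmt : Prop := ∀ (k F Ω E J : Type) [Field k] [Field F] [Field Ω] [Field E] [Algebra k F]
  [Algebra k E] [Algebra Ω E] [Fintype J] (C : Subalgebra k F) (H : Set F) (μ : F →ₐ[k] E)
  (S' : Sd Ω E J) (γ : Subalgebra k F → F) (c : J → ℤ), Gc C H μ S' → SAll S' → Dt (XX C H) γ →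
  Lg (XX C H) μ S' c γ → ∃ (U V : Set F) (c₁ c₂ : J → ℤ), Sys (XX C H) U ∧ Sys (XX C H) V ∧
    Cl S' (μ '' U) c₁ ∧ Cl S' (μ '' V) c₂ ∧ c = c₁ - c₂

/-- FM0: a surface is a family over the ground field. -/
def Fm0Stmt : Prop := ∀ (k M I : Type) [Field k] [Field M] [Algebra k M] [Fintype I]
  (S : Sd k M I) (H : Set M), SAll S → S.T = mp k (fun _ : Unit => H) → H.Finite →
  (∀ a ∈ H, a ≠ 0) → XX ⊥ H = S.T ∧ Fm (⊥ : Subalgebra k M) H ∧
    (Mk S → Lc ⊥ H ⊤ (⊤ : Subalgebra k M).val S) ∧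
    ∀ d, Dt (XX (⊥ : Subalgebra k M) H) (S.lb d) ∧
      Lb ⊥ H ⊤ (⊤ : Subalgebra k M).val S d (S.lb d)

/-- TRF1: restriction of an automorphism to a subfield with algebraically closed constants. -/
def Trf1Stmt : Prop := ∀ (K M E : Type) [Field K] [IsAlgClosed K] [Field M] [Field E]
  [Algebra K M] [Algebra K E] (ν : M →ₐ[K] E) (H : Set M) (Z : Subring K) (τ : E ≃+* E),
  (∃ j ∈ H, Frac (ch (⊥ : Subalgebra K M) H j)) → (∀ a : K, IsAlgebraic Z a) →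
  (∀ z ∈ ν '' (algebraMap K M '' Z ∪ H), τ z = z) →
    ∃ τ' : M ≃+* M, Semi K τ' ∧ ∀ m, ν (τ' m) = τ (ν m)

/-- TRF: trivial monodromy passes to a larger field of constants. -/
def TrfStmt : Prop := ∀ (K M Ω E I J : Type) [Field K] [CharZero K] [IsAlgClosed K] [Field M]
  [Field Ω] [CharZero Ω] [IsAlgClosed Ω] [Field E] [Algebra K M] [Algebra K E] [Algebra Ω E]
  [Fintype I] [Fintype J] (H : Set M) (S : Sd K M I) (ν : M →ₐ[K] E) (S' : Sd Ω E J)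
  (Z : Subring K), Mk S → S.T = mp K (fun _ : Unit => H) → H.Finite → (∀ a ∈ H, a ≠ 0) →
  Gc ⊥ H ν S' → (∀ a : K, IsAlgebraic Z a) → Triv (algebraMap K M '' Z ∪ H) S →
    Triv (ν '' (algebraMap K M '' Z ∪ H)) S'

/-- T0: the sections of an invariant class. -/
def T0Stmt : Prop := ∀ (Ω E J : Type) [Field Ω] [Field E] [Algebra Ω E] [Fintype J]
  (S' : Sd Ω E J) (H : Set E) (τ : E ≃+* E) (U : Set E) (c : J → ℤ),
  S'.T = mp Ω (fun _ : Unit => H) → Semi Ω τ → (∀ a ∈ H, τ a = a) → Cl S' U c →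
  Cl S' (τ '' U) c → ∃ φ : E, φ ≠ 0 ∧ ∀ z, z ∈ S'.Sec c ↔ τ z / φ ∈ S'.Sec c

/-- DSC: a multiplier between two spaces defined over a subfield can be taken in the subfield. -/
def DscStmt : Prop := ∀ (L Ω E' E : Type) [Field L] [Field Ω] [Field E'] [Field E] [Algebra L Ω]
  [Algebra L E'] [Algebra Ω E] [Algebra L E] [IsScalarTower L Ω E] (β : BC L E' Ω E)
  (W W' : Submodule L E') (φ : E), FiniteDimensional L W → FiniteDimensional L W' → W ≠ ⊥ →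
  φ ≠ 0 → (∀ z, z ∈ Submodule.span Ω (β.μ '' W) ↔ φ * z ∈ Submodule.span Ω (β.μ '' W')) →
    ∃ ψ : E', ψ ≠ 0 ∧ ∀ z, z ∈ W ↔ ψ * z ∈ W'

/-- CORE: descent of a projectively invariant space over a `C1` field. -/
def CoreStmt : Prop := ∀ (L L' E : Type) [Field L] [Field L'] [Field E] [Algebra L L']
  [FiniteDimensional L L'] [IsGalois L L'] [Algebra L' E] (a : (L' ≃ₐ[L] L') → (E →+* E))
  (W : Submodule L' E), C1 L → (∀ g c, a g (algebraMap L' E c) = algebraMap L' E (g c)) →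
  (∀ g g' z, a (g * g') z = a g (a g' z)) → (∀ z, a 1 z = z) → FiniteDimensional L' W → W ≠ ⊥ →
  (∀ g, ∃ φ : E, φ ≠ 0 ∧ ∀ z, z ∈ W ↔ a g z / φ ∈ W) →
  (∀ m, (∀ z ∈ W, m * z ∈ W) → m ∈ Set.range (algebraMap L' E)) →
    ∃ (l : E) (U : Set E), l ≠ 0 ∧ U.Finite ∧ (∀ z ∈ U, ∀ g, a g z = z) ∧
      ∀ z, z ∈ W ↔ z / l ∈ Submodule.span L' U

/-- BCOF: linear disjointness gives a base change. -/
def BcStmt : Prop := ∀ (C F D E : Type) [Field C] [Field F] [Field D] [Field E] [Algebra C F]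
  [Algebra C D] [Algebra D E] [Algebra C E] [IsScalarTower C D E] (μ : F →ₐ[C] E),
  (∀ (ι : Type) (v : ι → F), LinearIndependent C v → LinearIndependent D fun i => μ (v i)) →
  (∀ W : Subfield E, (∀ d, algebraMap D E d ∈ W) → (∀ f, μ f ∈ W) → W = ⊤) →
    ∃ β : BC C F D E, β.μ = μ

/-- T1: descent to the function field of a line over an algebraically closed field. -/
def T1Stmt : Prop := ∀ (k M F Ω E J : Type) [Field k] [Field M] [CharZero M] [IsAlgClosed M]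
  [Field F] [Field Ω] [IsAlgClosed Ω] [Field E] [Algebra k M] [Algebra k F] [Algebra k E]
  [Algebra Ω E] [Fintype J] (g : M[X] →ₐ[k] F) (H : Set F) (μ : F →ₐ[k] E) (S' : Sd Ω E J),
  Function.Injective g → Gc g.range H μ S' → SAll S' →
  (∀ a : Ω, IsAlgebraic (g.range.map μ) (algebraMap Ω E a)) → Triv (Set.range μ) S' →
    ∀ c, S'.GG c → ∃ U : Set F, U.Finite ∧ Cl S' (μ '' U) c

/-- REG: global functions on the family come from the base. -/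
def RegStmt : Prop := ∀ (k F Ω E J : Type) [Field k] [Field F] [Field Ω] [Field E] [Algebra k F]
  [Algebra k E] [Algebra Ω E] [Fintype J] (C : Subalgebra k F) (H : Set F) (μ : F →ₐ[k] E)
  (S' : Sd Ω E J), Fm C H → Gc C H μ S' → SAll S' → ∀ m, (∀ O ∈ XX C H, m ∈ O) → m ∈ C

/-- TRIV: over a principal ring a generically trivial line bundle is trivial. -/
def TrivStmt : Prop := ∀ (k F : Type) [Field k] [Field F] [Algebra k F] (D : Subalgebra k F)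
  (H : Set F) (γ : Subalgebra k F → F) (z p : F), Fm D H → IsPrincipalIdealRing D →
  Dt (XX D H) γ → z ∈ Sc (XX D H) γ → z ≠ 0 → p ∈ D → p ≠ 0 →
  (∀ O ∈ XX D H, p / (z * γ O) ∈ O) → ∃ z', ∀ O ∈ XX D H, IsU O (z' * γ O)

/-- T2: an automorphism of the family that fixes the class of a system. -/
def T2Stmt : Prop := ∀ (k F Ω E J : Type) [Field k] [Field F] [Field Ω] [Field E] [Algebra k F]
  [Algebra k E] [Algebra Ω E] [Fintype J] (D : Subalgebra k F) (H : Set F) (μ : F →ₐ[k] E)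
  (S' : Sd Ω E J) (V V' : Set F) (c : J → ℤ), Fm D H → Gc D H μ S' → SAll S' →
  IsPrincipalIdealRing D → Sys (XX D H) V → Sys (XX D H) V' → Cl S' (μ '' V) c →
  Cl S' (μ '' V') c → ∃ φ : F, ∀ O ∈ XX D H, ∀ a, Gn V O a → Gn V' O (φ * a)

/-- T3: descent along a finite group with a fixed point. -/
def T3Stmt : Prop := ∀ (k F Ω E G J : Type) [Field k] [Field F] [Field Ω] [Field E] [Algebra k F]
  [Algebra k E] [Algebra Ω E] [Group G] [Fintype G] [DecidableEq G] [Fintype J]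
  (a : G →* (F ≃ₐ[k] F)) (D : Subalgebra k F) (H : Set F) (μ : F →ₐ[k] E) (S' : Sd Ω E J)
  (O₀ : Subalgebra k F) (ev : O₀ →+* F) (n : ℕ) (u v : Fin n → F), Fm D H → Gc D H μ S' →
  SAll S' → IsPrincipalIdealRing D → (∀ g, ∀ d ∈ D, a g d ∈ D) → (∀ g, ∀ z ∈ H, a g z = z) →
  (∀ i, u i ∈ D ∧ v i ∈ D) → (∀ g, ∑ i, u i * a g (v i) = if g = 1 then 1 else 0) →
  O₀ ∈ XX D H → (∀ z, ev z ∈ D) → (∀ z : O₀, IsU D z → ev z = z) →
  (∀ g (z : O₀), ∃ h : a g z ∈ O₀, ev ⟨_, h⟩ = a g (ev z)) →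
  ∀ (V : Set F) (c : J → ℤ), Sys (XX D H) V → (∀ g, Cl S' (μ '' (a g '' V)) c) →
    ∃ U : Set F, U.Finite ∧ (∀ z ∈ U, ∀ g, a g z = z) ∧ Cl S' (μ '' U) c

/-- GS: generic smoothness. -/
def GsStmt : Prop := ∀ (k L : Type) [Field k] [CharZero k] [Field L] [Algebra k L] (G : Set L),
  G.Finite → Frac (Algebra.adjoin k G) →
    ∃ B : Subalgebra k L, Algebra.adjoin k G ≤ B ∧ Algebra.Smooth k B

/-- MKF: the function field of the family over a given base. -/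
def MkfStmt : Prop := ∀ (k A E : Type) [Field k] [CommRing A] [Algebra k A] [Field E] [Algebra k E]
  (g : A →ₐ[k] E) (H₀ : Set E), 1 ∈ H₀ → (∀ a ∈ H₀, a ≠ 0) →
    ∃ (F : Type) (_ : Field F) (_ : Algebra k F) (μ : F →ₐ[k] E) (g' : A →ₐ[k] F) (H : Set F),
      μ '' H = H₀ ∧ μ.comp g' = g ∧ ∀ j ∈ H, Frac (ch g'.range H j)

/-- GCUP: linear disjointness for an intermediate base. -/
def GcUpStmt : Prop := ∀ (k F F' Ω E J : Type) [Field k] [Field F] [Field F'] [Field Ω] [Field E]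
  [Algebra k F] [Algebra k F'] [Algebra k E] [Algebra Ω E] [Fintype J] (C : Subalgebra k F)
  (H : Set F) (μ : F →ₐ[k] E) (S' : Sd Ω E J) (ν : F →ₐ[k] F') (μ' : F' →ₐ[k] E)
  (C' : Subalgebra k F'), Gc C H μ S' → μ'.comp ν = μ → C.map ν ≤ C' →
  (∀ c ∈ C', μ' c ∈ Set.range (algebraMap Ω E)) → (∃ j ∈ H, Frac (ch C' (ν '' H) (ν j))) →
    Gc C' (ν '' H) μ' S'

section
variable {k A L F F₀ Ω E J : Type} [Field k] [CommRing A] [Field L] [Field F] [Field F₀] [Field Ω]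
  [Field E] [Algebra k A] [Algebra k L] [Algebra A L] [Algebra k F] [Algebra k F₀] [Algebra k Ω]
  [Algebra k E] [Algebra Ω E] [Fintype J]

/-- A family over `A[X]` with trivial monodromy. -/
structure Ts (g : A[X] →ₐ[k] F) (H : Set F) (μ : F →ₐ[k] E) (S' : Sd Ω E J) : Prop where
  inj : Function.Injective g
  sm : Algebra.Smooth k A
  one : 1 ∈ H
  fm : Fm g.range H
  gc : Gc g.range H μ S'
  all : SAll S'
  uni : Uni (g.range.map μ) (μ '' H) S'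
  alg : ∀ a : Ω, IsAlgebraic (g.range.map μ) (algebraMap Ω E a)
  triv : Triv (Set.range μ) S'

/-- The base change of the family to `L[X]`. -/
structure Lv (g : A[X] →ₐ[k] F) (H : Set F) (μ : F →ₐ[k] E) (e : L →ₐ[k] Ω) (g₀ : L[X] →ₐ[k] F₀)
    (ν : F →ₐ[k] F₀) (μ₀ : F₀ →ₐ[k] E) : Prop where
  inj : Function.Injective g₀
  cmp : ∀ p, g₀ (p.map (algebraMap A L)) = ν (g p)
  mu : μ₀.comp ν = μ
  con : ∀ a, μ₀ (g₀ (C a)) = algebraMap Ω E (e a)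
  frac : ∀ j ∈ H, Frac (ch g₀.range (ν '' H) (ν j))

end

/-- LV: existence of the base change. -/
def LvStmt : Prop := ∀ (k A L F Ω E J : Type) [Field k] [CommRing A] [Field L] [Field F] [Field Ω]
  [Field E] [Algebra k A] [Algebra k L] [Algebra A L] [IsScalarTower k A L]
  [Algebra.IsAlgebraic A L] [Algebra k F] [Algebra k Ω] [Algebra k E] [Algebra Ω E]
  [IsScalarTower k Ω E] [Fintype J] (g : A[X] →ₐ[k] F) (H : Set F) (μ : F →ₐ[k] E) (S' : Sd Ω E J)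
  (e : L →ₐ[k] Ω), Ts g H μ S' → (∀ a, algebraMap Ω E (e (algebraMap A L a)) = μ (g (C a))) →
    ∃ (F₀ : Type) (_ : Field F₀) (_ : Algebra k F₀) (g₀ : L[X] →ₐ[k] F₀) (ν : F →ₐ[k] F₀)
      (μ₀ : F₀ →ₐ[k] E), Lv g H μ e g₀ ν μ₀ ∧ Gc g₀.range (ν '' H) μ₀ S'

/-- T4B: finitely many constants are enough. -/
def T4bStmt : Prop := ∀ (k A M F F₁ Ω E J : Type) [Field k] [CommRing A] [Field M] [Field F]
  [Field F₁] [Field Ω] [Field E] [Algebra k A] [Algebra k M] [Algebra A M] [Algebra k F]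
  [Algebra k F₁] [Algebra k Ω] [Algebra k E] [Algebra Ω E] [Fintype J] (g : A[X] →ₐ[k] F)
  (H : Set F) (μ : F →ₐ[k] E) (S' : Sd Ω E J) (e : M →ₐ[k] Ω) (g₁ : M[X] →ₐ[k] F₁)
  (ν₁ : F →ₐ[k] F₁) (μ₁ : F₁ →ₐ[k] E), Ts g H μ S' → Lv g H μ e g₁ ν₁ μ₁ → Rat μ₁ S' →
    ∃ Λ : Set M, Λ.Finite ∧ ∀ (L F₀ : Type) [Field L] [Field F₀] [Algebra k L] [Algebra A L]
      [Algebra k F₀] (e' : L →ₐ[k] Ω) (g₀ : L[X] →ₐ[k] F₀) (ν : F →ₐ[k] F₀) (μ₀ : F₀ →ₐ[k] E),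
      (∀ a ∈ Λ, e a ∈ Set.range e') → Lv g H μ e' g₀ ν μ₀ → Rat μ₀ S'

/-- T4C: the family over `L[X]` for a finite extension `L`. -/
def T4cStmt : Prop := ∀ (k A K L F F₀ Ω E J : Type) [Field k] [CharZero k] [CommRing A] [Field K]
  [Field L] [Field F] [Field F₀] [Field Ω] [Field E] [Algebra k A] [Algebra k L] [Algebra A L]
  [IsScalarTower k A L] [Algebra A K] [IsFractionRing A K] [Algebra K L] [IsScalarTower A K L]
  [FiniteDimensional K L] [Algebra k F] [Algebra k F₀] [Algebra k Ω] [Algebra k E] [Algebra Ω E]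
  [Fintype J] (g : A[X] →ₐ[k] F) (H : Set F) (μ : F →ₐ[k] E) (S' : Sd Ω E J) (e : L →ₐ[k] Ω)
  (g₀ : L[X] →ₐ[k] F₀) (ν : F →ₐ[k] F₀) (μ₀ : F₀ →ₐ[k] E), Ts g H μ S' → Lv g H μ e g₀ ν μ₀ →
    Fm g₀.range (ν '' H)

/-- AUT: automorphisms of `L` extend to the function field of the geometric fibre. -/
def AutStmt : Prop := ∀ (k A L F Ω E J : Type) [Field k] [CommRing A] [Field L] [Field F] [Field Ω]
  [IsAlgClosed Ω] [Field E] [Algebra k A] [Algebra k L] [Algebra A L] [Algebra.IsAlgebraic A L]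
  [Algebra k F] [Algebra k Ω] [Algebra k E] [Algebra Ω E] [Fintype J] (g : A[X] →ₐ[k] F)
  (H : Set F) (μ : F →ₐ[k] E) (S' : Sd Ω E J) (e : L →ₐ[k] Ω) (σ : L ≃+* L), Ts g H μ S' →
  (∀ a, algebraMap Ω E (e (algebraMap A L a)) = μ (g (C a))) →
  (∀ a, σ (algebraMap A L a) = algebraMap A L a) → ∃ τ : E ≃+* E, Semi Ω τ ∧
    (∀ z, τ (μ z) = μ z) ∧ ∀ a, τ (algebraMap Ω E (e a)) = algebraMap Ω E (e (σ a))

/-- ACT: the action of the Galois group on the function field of the base change. -/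
def ActStmt : Prop := ∀ (k A K L F F₀ Ω E : Type) [Field k] [CharZero k] [CommRing A] [Field K]
  [Field L] [Field F] [Field F₀] [Field Ω] [Field E] [Algebra k A] [Algebra k L] [Algebra A L]
  [IsScalarTower k A L] [Algebra A K] [IsFractionRing A K] [Algebra K L] [IsScalarTower A K L]
  [FiniteDimensional K L] [IsGalois K L] [Algebra k F] [Algebra k F₀] [Algebra k Ω] [Algebra k E]
  [Algebra Ω E] (g : A[X] →ₐ[k] F) (H : Set F) (μ : F →ₐ[k] E) (e : L →ₐ[k] Ω)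
  (g₀ : L[X] →ₐ[k] F₀) (ν : F →ₐ[k] F₀) (μ₀ : F₀ →ₐ[k] E), 1 ∈ H → Lv g H μ e g₀ ν μ₀ →
  (∀ σ : L ≃ₐ[K] L, ∃ τ : E ≃+* E, Semi Ω τ ∧ (∀ z, τ (μ z) = μ z) ∧
    ∀ a, τ (algebraMap Ω E (e a)) = algebraMap Ω E (e (σ a))) →
    ∃ a : (L ≃ₐ[K] L) →* (F₀ ≃ₐ[k] F₀), (∀ σ c, a σ (g₀ (C c)) = g₀ (C (σ c))) ∧
      (∀ σ z, a σ (ν z) = ν z) ∧ (∀ z, (∀ σ, a σ z = z) → z ∈ Set.range ν) ∧
      ∀ σ, ∃ τ : E ≃+* E, Semi Ω τ ∧ ∀ z, τ (μ₀ z) = μ₀ (a σ z)

/-- PT: the fixed point. -/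
def PtStmt : Prop := ∀ (k A K L F F₀ : Type) [Field k] [CommRing A] [Field K] [Field L] [Field F]
  [Field F₀] [Algebra k A] [Algebra k K] [Algebra k L] [Algebra A L] [IsScalarTower k A L]
  [Algebra A K] [IsScalarTower k A K] [IsFractionRing A K] [Algebra K L] [IsScalarTower A K L]
  [FiniteDimensional K L] [IsGalois K L] [Algebra k F] [Algebra k F₀] (g : A[X] →ₐ[k] F)
  (H : Set F) (g₀ : L[X] →ₐ[k] F₀) (ν : F →ₐ[k] F₀) (a : (L ≃ₐ[K] L) →* (F₀ ≃ₐ[k] F₀)) (j : F)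
  (θ : ch g.range H j →ₐ[k] K), Function.Injective g₀ →
  (∀ p, g₀ (p.map (algebraMap A L)) = ν (g p)) → (∀ σ c, a σ (g₀ (C c)) = g₀ (C (σ c))) →
  (∀ σ z, a σ (ν z) = ν z) → j ∈ H →
  (∀ p (h : g p ∈ ch g.range H j), θ ⟨g p, h⟩ = algebraMap A K (p.eval 0)) →
    ∃ O₀ ∈ XX g₀.range (ν '' H), ∃ ev : O₀ →+* F₀, (∀ z, ev z ∈ g₀.range) ∧
      (∀ z : O₀, IsU g₀.range z → ev z = z) ∧
      ∀ σ (z : O₀), ∃ h : a σ z ∈ O₀, ev ⟨_, h⟩ = a σ (ev z)

/-- TSEN: all classes are rational. -/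
def TsenStmt : Prop := ∀ (k A F Ω E J : Type) [Field k] [CharZero k] [CommRing A] [IsDomain A]
  [Field F] [Field Ω] [IsAlgClosed Ω] [Field E] [Algebra k A] [Algebra k F] [Algebra k Ω]
  [Algebra k E] [Algebra Ω E] [IsScalarTower k Ω E] [Fintype J] (g : A[X] →ₐ[k] F) (H : Set F)
  (μ : F →ₐ[k] E) (S' : Sd Ω E J) (j : F) (θ : ch g.range H j →ₐ[k] FractionRing A),
  Ts g H μ S' → j ∈ H → (∀ p (h : g p ∈ ch g.range H j),
    θ ⟨g p, h⟩ = algebraMap A (FractionRing A) (p.eval 0)) → Rat μ S'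

end Pool.Agent.MP_e8e0b6_ag.R2
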