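import Pool.Agent.MP_e8e0b6_ag.R2.SpecT

/-!
The sections of an invariant class.
-/

set_option autoImplicit false

open Polynomial

namespace Pool.Agent.MP_e8e0b6_ag.R2

open Pool.Agent.MP_79c67d_ag Pool.Agent.MP_20d318_ag Pool.Agent.MP_20d318_ag.AG
  Pool.Agent.MP_20d318_ag.BV Pool.Agent.MP_20d318_ag.CB

namespace T0A

variable {Ω E : Type} [Field Ω] [Field E] [Algebra Ω E] {O O' : Subalgebra Ω E} {τ : E ≃+* E}
  {U : Set E} {p q l l' : E}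

theorem gn_tau (h : ∀ a, a ∈ O' ↔ τ a ∈ O) (hg : Gn U O' p) : Gn (τ '' U) O (τ p) := by
  refine ⟨?_, ?_⟩
  · rintro _ ⟨a, ha, rfl⟩
    rw [← map_div₀]
    exact (h _).1 (hg.1 a ha)
  · obtain ⟨a, ha, hu⟩ := hg.2
    refine ⟨_, ⟨a, ha, rfl⟩, ?_⟩
    rw [← map_div₀]
    exact ⟨(map_ne_zero τ).2 hu.ne, (h _).1 hu.mem, by
      rw [← map_inv₀]; exact (h _).1 hu.inv_mem⟩

theorem key (h : ∀ a, a ∈ O' ↔ τ a ∈ O) (h1 : Gn U O' (p * l'⁻¹)) (h2 : Gn (τ '' U) O (q * l⁻¹))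
    (z : E) : z * l' ∈ O' ↔ τ z / (q / τ p) * l ∈ O := by
  have hu := (gn_tau h h1).unit h2
  have h3 : τ l' ≠ 0 := (map_ne_zero τ).2 fun h0 => right_ne_zero_of_mul h1.ne (inv_eq_zero.2 h0)
  have e : τ z / (q / τ p) * l = τ (z * l') * (τ (p * l'⁻¹) / (q * l⁻¹)) := by
    rw [map_mul, map_mul, map_inv₀]
    field_simp
  rw [h, e]
  refine ⟨fun hz => O.mul_mem hz hu.mem, fun hz => ?_⟩
  have := hu.div_mem hz
  rwa [mul_div_cancel_right₀ _ hu.ne] at this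

end T0A

theorem t0_stmt (h1 : SemiStmt) : T0Stmt := by
  intro Ω E J _ _ _ _ S' H τ U c hT hs hH ⟨p, hp, g1⟩ ⟨q, hq, g2⟩
  have h2 := h1 Ω E H τ hs hH
  rw [← hT] at h2
  refine ⟨q / τ p, div_ne_zero hq ((map_ne_zero τ).2 hp), fun z => ⟨fun hz O hO => ?_,
    fun hz O' hO' => ?_⟩⟩
  · obtain ⟨O', hO', h⟩ := (h2 O hO).1
    exact (T0A.key h (g1 O' hO') (g2 O hO) z).1 (hz O' hO')
  · obtain ⟨O, hO, h⟩ := (h2 O' hO').2
    exact (T0A.key (fun a => (h a).symm) (g1 O' hO') (g2 O hO) z).2 (hz O hO)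

end Pool.Agent.MP_e8e0b6_ag.R2
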