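import Pool.Agent.MP_e8e0b6_ag.R2.CSpec

/-! Three members of a system without base points have no common zero. -/

set_option autoImplicit false

namespace Pool.Agent.MP_e8e0b6_ag.R2

open Pool.Agent.MP_79c67d_ag Pool.Agent.MP_20d318_ag.AG Pool.Agent.MP_20d318_ag.BV
open Pool.Agent.MP_20d318_ag.CB

namespace Three

variable {k M : Type} [Field k] [CharZero k] [IsAlgClosed k] [Field M] [Algebra k M]
  {X : Set (Subalgebra k M)} {f : Subalgebra k M → M}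

/-- A divisor that does not contain a curve meets it in finitely many points. -/
theorem fin_pt (hX : Good X) (hf : IsCart X f) (ν : Curve X) (hu : IsU ν.gen (f ν.gen)) :
    {Q | f (ν.pt Q) ∈ mx (ν.pt Q)}.Finite := by
  refine ((hf.finite hX ν).union (FF.finite_ord (K := k) (ν.ev (f ν.gen)))).subset fun Q hQ => ?_
  by_contra hn
  simp only [Set.mem_union, Function.mem_support, not_or, not_not] at hn
  have h1 := hf.unit (ν.pt_mem Q) ν.gen_mem (ν.pt_le Q)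
  have e : ν.ev (f (ν.pt Q)) = ν.ev (f (ν.pt Q) / f ν.gen) * ν.ev (f ν.gen) := by
    rw [ν.ev_eq, ν.ev_eq, ν.ev_eq, ← evO_mul _ h1.2.1 hu.2.1, div_mul_cancel₀ _ hu.1]
  refine hQ.2 ((ν.v_eq_one_iff Q hQ.1).1 ((isU_plO Q).1 ?_))
  rw [e]
  exact ((isU_plO' Q).2 ⟨evO_ne _ h1, hn.1⟩).mul ((isU_plO' Q).2 ⟨evO_ne _ hu, hn.2⟩)

end Three

theorem three_stmt : ThreeStmt := by
  intro av k M I _ _ _ _ _ _ S G U h hU
  have hG := h.a1.nice.toFine.toGood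
  have hT := h.a1.nice.toFine.top
  have mem : ∀ a ∈ Submodule.span k U, ∀ O ∈ S.T, a * S.lb G O ∈ O := fun a ha =>
    (Submodule.span_le (p := S.Sec G)).2 (fun b hb O hO => by
      simpa only [div_inv_eq_mul] using (hU O hO).1 b hb) ha
  have av' : ∀ Φ : Set (Subalgebra k M), Φ.Finite → Φ ⊆ S.T →
      ∃ a ∈ Submodule.span k U, ∀ O ∈ Φ, IsU O (a * S.lb G O) := fun Φ h1 h2 => by
    simpa only [div_inv_eq_mul] using av k M U Φ (fun O => (S.lb G O)⁻¹) h1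
      fun O hO => ⟨hG.loc O (h2 hO), hU O (h2 hO)⟩
  obtain ⟨a₀, m₀, u₀⟩ := av' {⊤} (Set.finite_singleton _) (Set.singleton_subset_iff.2 hT)
  have n₀ : a₀ ≠ 0 := left_ne_zero_of_mul (u₀ ⊤ rfl).1
  have c₀ := h.a1.pcart G a₀ n₀
  have f₀ := h.a1.nice.toFine.fin_cart c₀
  obtain ⟨a₁, m₁, u₁⟩ := av' _ ((f₀.image plO).insert ⊤) (Set.insert_subset hT (by
    rintro _ ⟨P, hP, rfl⟩
    exact hP.1))
  have c₁ := h.a1.pcart G a₁ (left_ne_zero_of_mul (u₁ ⊤ (Set.mem_insert _ _)).1)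
  have f₁ : ∀ P : Place k M, plO P ∈ S.T ∧ P.ord (a₀ * S.lb G (plO P)) ≠ 0 →
      {O | O ∈ S.T ∧ O ≤ plO P ∧ a₁ * S.lb G O ∈ mx O}.Finite := fun P hP => by
    obtain ⟨ν, e, -⟩ := h.a1.cur P hP.1
    have u := u₁ _ (Set.mem_insert_of_mem _ ⟨P, hP, rfl⟩)
    rw [← e] at u ⊢
    refine ((Three.fin_pt hG c₁ ν u).image ν.pt).subset ?_
    rintro O ⟨h1, h2, h3⟩
    obtain ⟨Q, rfl⟩ := h.a1.pt ν O h1 h2 fun c => u.not_mx (c ▸ h3)
    exact ⟨Q, h3, rfl⟩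
  obtain ⟨a₂, m₂, u₂⟩ := av' _ (f₀.biUnion f₁) (Set.iUnion₂_subset fun P _ O hO => hO.1)
  refine ⟨a₀, m₀, a₁, m₁, a₂, m₂, n₀, fun O hO => ⟨?_, ?_⟩⟩
  · rintro a (rfl | rfl | rfl) <;> rw [div_inv_eq_mul]
    exacts [mem _ m₀ O hO, mem _ m₁ O hO, mem _ m₂ O hO]
  · simp only [div_inv_eq_mul]
    by_cases b₀ : IsU O (a₀ * S.lb G O)
    · exact ⟨a₀, .inl rfl, b₀⟩
    by_cases b₁ : IsU O (a₁ * S.lb G O)
    · exact ⟨a₁, .inr (.inl rfl), b₁⟩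
    refine ⟨a₂, .inr (.inr rfl), u₂ O ?_⟩
    by_contra hn
    refine b₀ (h.a1.nice.unit c₀ hO fun P h1 h2 => by_contra fun h3 => hn ?_)
    exact Set.mem_iUnion₂.2 ⟨P, ⟨h1, h3⟩, hO, h2, mem _ m₁ O hO, b₁⟩

end Pool.Agent.MP_e8e0b6_ag.R2
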