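import Pool.Agent.MP_e8e0b6_ag.R2.SpecA

/-! The basic geometry of a projective family. -/

set_option autoImplicit false

namespace Pool.Agent.MP_e8e0b6_ag.R2

open Pool.Agent.MP_79c67d_ag Pool.Agent.MP_20d318_ag Pool.Agent.MP_20d318_ag.AG
  Pool.Agent.MP_20d318_ag.BV Pool.Agent.MP_20d318_ag.CB

namespace XbR

variable {k F : Type} [Field k] [Field F] [Algebra k F] {C O W : Subalgebra k F} {H : Set F}
  {j : F}

theorem le (hO : O ∈ XX C H) : C ≤ O := hO.elim fun _ h => le_ch.trans h.2.2.1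

theorem gn_of (nz : ∀ a ∈ H, a ≠ 0) (hj : j ∈ H) (h : ch C H j ≤ O) : Gn H O j :=
  gn_of_mem hj (nz j hj) (ch_le.1 h).2

theorem pts (nz : ∀ a ∈ H, a ≠ 0) (hj : j ∈ H) :
    O ∈ Pts (ch C H j) ↔ O ∈ XX C H ∧ Gn H O j := by
  refine ⟨fun h => ⟨⟨j, hj, h⟩, gn_of nz hj h.2.1⟩, fun ⟨hO, g⟩ => ?_⟩
  have hle : ch C H j ≤ O := ch_le.2 ⟨le hO, g.1⟩
  obtain ⟨i, hi, h⟩ := hO
  have u := (gn_of nz hi h.2.1).unit g
  have h1 : ch C H i ≤ fr (ch C H j) O := ch_le.2 ⟨le_ch.trans le_fr, fun a ha => by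
    rw [← div_div_div_cancel_right₀ g.ne a i]
    exact div_mem_fr (le_fr (div_mem_ch ha)) (le_fr (div_mem_ch hi)) hle u⟩
  refine ⟨h.1, hle, fun f hf => ?_⟩
  obtain ⟨a, ha, b, hb, hu, rfl⟩ := h.2.2 f hf
  exact div_mem_fr (h1 ha) (h1 hb) hle hu

theorem ctr (hW : IsLocalRing W) (hC : C ≤ W) (hP : Prin H W) : ∃ O ∈ XX C H, Dom O W := by
  obtain ⟨j, hj, g⟩ := hP.exists_mem
  obtain ⟨O, hO, hd⟩ := exists_ctr hW (ch_le.2 ⟨hC, g.1⟩ : ch C H j ≤ W)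
  exact ⟨O, ⟨j, hj, hO⟩, hd⟩

theorem sle (nz : ∀ a ∈ H, a ≠ 0) {O₁ O₂ : Subalgebra k F} (h₁ : O₁ ∈ XX C H) (h₂ : O₂ ∈ XX C H)
    (h : O₁ ≤ W) (hd : Dom O₂ W) : O₁ ≤ O₂ := by
  have hC := le h₂
  obtain ⟨i, hi, h₁⟩ := h₁
  obtain ⟨j, hj, h₂⟩ := h₂
  have g := gn_of nz hj h₂.2.1
  have u := hd.2 _ (g.1 i hi) (((gn_of nz hi h₁.2.1).mono h).unit (g.mono hd.1))
  exact Pts_le h₁ (ch_le.2 ⟨hC, (g.of_unit u).1⟩) h hd

theorem noeth {A : Subalgebra k F} (hA : IsNoetherianRing A) (h : O ∈ Pts A) :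
    IsNoetherianRing O := by
  let := (Subalgebra.inclusion h.2.1).toRingHom.toAlgebra
  let p : Submonoid A := (IsUnit.submonoid O).comap (algebraMap A O)
  have : IsLocalization p O := by
    refine ⟨⟨fun y => y.2, fun z => ?_, fun {x y} e => ⟨1, congrArg _ (Subtype.ext
      (congrArg (fun t : O => (t : F)) e))⟩⟩⟩
    obtain ⟨a, ha, b, hb, u, e⟩ := h.2.2 z z.2
    refine ⟨(⟨a, ha⟩, ⟨⟨b, hb⟩, (isU_iff_isUnit (⟨b, u.mem⟩ : O)).1 u⟩), Subtype.ext ?_⟩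
    change (z : F) * b = a
    rw [e, div_mul_cancel₀ _ u.1]
  exact IsLocalization.isNoetherianRing p O hA

theorem chn (hC : IsNoetherianRing C) (hH : H.Finite) : IsNoetherianRing (ch C H j) := by
  have h1 : IsNoetherianRing (Algebra.adjoin C ((fun a => a / j) '' H)) :=
    isNoetherianRing_of_fg ⟨(hH.image _).toFinset, by rw [Set.Finite.coe_toFinset]⟩
  exact isNoetherianRing_of_ringEquiv _ (RingEquiv.subringCongr (s := (Algebra.adjoin C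
    ((fun a => a / j) '' H)).toSubring) (t := (ch C H j).toSubring)
      (Subring.ext fun _ => mem_ch.symm))

theorem nrm (hF : Frac O) (hU : UniqueFactorizationMonoid O) : Nrm O := fun f hf => by
  have : IsFractionRing O F := IsFractionRing.of_field O F fun z => by
    obtain ⟨a, ha, b, hb, -, e⟩ := hF z
    exact ⟨⟨a, ha⟩, ⟨b, hb⟩, e⟩
  obtain ⟨y, rfl⟩ := IsIntegrallyClosed.isIntegral_iff.1 hf
  exact y.2

end XbR

open XbR in
theorem xb_stmt : XbStmt := fun _ _ _ _ _ C H h =>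
  have fr : ∀ O ∈ XX C H, Frac O := fun _ ⟨j, hj, hO⟩ => (h.frac j hj).mono hO.2.1
  { fm := h
    loc := fun _ hO => hO.elim fun _ h => h.2.1
    le := fun _ => le
    gn := fun _ ⟨j, hj, hO⟩ => ⟨j, hj, gn_of h.nz hj hO.2.1⟩
    pts := fun _ hj _ => pts h.nz hj
    ctr := fun _ => XbR.ctr
    val := fun _ hV hC => XbR.ctr hV.isLocalRing hC
      (hV.prin h.fin (h.ne.imp fun a ha => ⟨ha, h.nz a ha⟩))
    sle := fun _ h₁ _ h₂ _ => sle h.nz h₁ h₂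
    sub := fun _ ⟨j, hj, h₁⟩ _ h₂ hle => Pts_of_le
      ((pts h.nz hj).2 ⟨h₂, (gn_of h.nz hj h₁.2.1).mono hle⟩) h₁.2.1 hle
    up := fun _ ⟨j, hj, h₁⟩ _ h₂ => ⟨j, hj, Pts_trans h₁ h₂⟩
    frac := fr
    nrm := fun O hO => nrm (fr O hO) (h.ufd O hO)
    noeth := fun _ ⟨_, _, hO⟩ => noeth (chn h.noeth h.fin) hO
    chn := fun _ _ => chn h.noeth h.fin }

end Pool.Agent.MP_e8e0b6_ag.R2
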